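import Pool.Agent.Lib.MP_decea1_gt_Q0.Defs

/-!
# MP_decea1_gt (S14098), block C: definitions

Text: `/team-store/MP_decea1_QM_C.md`.
-/

set_option autoImplicit false

open MeasureTheory Set

namespace Pool.Agent.QM59

/-- the displacement `f - id` -/
def disp (f : Equiv.Perm E3) : E3 → E3 := fun x => f x - x

/-- `f` preserves the third coordinate -/
def ZP (f : Equiv.Perm E3) : Prop := ∀ x, f x 2 = x 2

/-- `IsDif`, `Vol` and the identity off `K` -/
structure Ok (K : Set E3) (f : Equiv.Perm E3) : Prop where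
  dif : IsDif f
  vol : Vol f
  off : IdOff K f

/-- `Ok` and preserves the third coordinate -/
structure OkZ (K : Set E3) (f : Equiv.Perm E3) : Prop extends Ok K f where
  zp : ZP f

section

variable {V W : Type*} [NormedAddCommGroup V] [NormedSpace ℝ V] [NormedAddCommGroup W]
  [NormedSpace ℝ W]

/-- The weighted norm of the text: `‖v‖_{K,N,η} ≤ c`. The levels below `K` are bounded by `c N^i`,
the level `K` has the weight `η`. -/
def Bd (K : ℕ) (N η c : ℝ) (v : V → W) : Prop :=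
  (∀ i < K, ∀ x, ‖iteratedFDeriv ℝ i v x‖ ≤ c * N ^ i) ∧
    ∀ x, η * ‖iteratedFDeriv ℝ K v x‖ ≤ c * N ^ K

/-- The norm `Bd` at scale one. -/
def Bu (K : ℕ) (η c : ℝ) (v : V → W) : Prop :=
  (∀ i < K, ∀ x, ‖iteratedFDeriv ℝ i v x‖ ≤ c) ∧ ∀ x, η * ‖iteratedFDeriv ℝ K v x‖ ≤ c

/-- All derivatives of order at most `K` are bounded by `c`. -/
def Bn (K : ℕ) (c : ℝ) (v : V → W) : Prop := ∀ i ≤ K, ∀ x, ‖iteratedFDeriv ℝ i v x‖ ≤ c

end

/-- commutator -/
def comm (a b : Equiv.Perm E3) : Equiv.Perm E3 := a * b * a⁻¹ * b⁻¹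

/-- conjugation of a permutation with the homothety of ratio `r` about the origin -/
noncomputable def scl (r : ℝ) (hr : r ≠ 0) (f : Equiv.Perm E3) : Equiv.Perm E3 :=
  homoth 0 r hr * f * (homoth 0 r hr)⁻¹

/-- the ratio -/
noncomputable def lam : ℝ := 1 / 4

theorem lam_ne : lam ≠ 0 := by unfold lam; norm_num

/-- closed boxes with half sides `s`, `s`, `t` and centre `(0, 0, 7)` -/
def BX (s t : ℝ) : Set E3 := {x | |x 0| ≤ s ∧ |x 1| ≤ s ∧ |x 2 - 7| ≤ t}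

/-- the box `B_0` -/
def B0 : Set E3 := BX 1 1

/-- the box `B_1` -/
def B1 : Set E3 := BX 3 3

/-- the box `B_2` -/
def B2 : Set E3 := BX 4 4

/-- A smooth partition of unity on `B_1` subordinate to finitely many cubes of half side `1/40`
with centres in `B_1`. -/
structure Frag where
  p : ℕ
  c : Fin p → E3
  χ : Fin p → E3 → ℝ
  mem : ∀ j, c j ∈ B1
  smooth : ∀ j, ContDiff ℝ smo (χ j)
  nonneg : ∀ j x, 0 ≤ χ j x
  supp : ∀ j x, x ∉ Metric.closedBall (c j) (1 / 40) → χ j x = 0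
  sum : ∀ x ∈ B1, ∑ j, χ j x = 1

/-- The hand-over maps: `τ_j` is volume preserving with compact support and equal to the linear map
`A_j` on the ball of radius `12`, which maps the cube of half side `1/20` around `c_j` into `λ B_0`
and planes `x_2 = const` to such planes. -/
structure Hand (F : Frag) where
  R : ℝ
  hR : 12 ≤ R
  A : Fin F.p → (E3 ≃L[ℝ] E3)
  τ : Fin F.p → Equiv.Perm E3
  iso : ∀ j, InIso (Metric.ball 0 R) (τ j)
  vol : ∀ j, Vol (τ j)
  eq : ∀ j, ∀ x ∈ Metric.ball (0 : E3) 12, τ j x = A j x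
  maps : ∀ j, ∀ x ∈ Metric.closedBall (F.c j) (1 / 20), lam⁻¹ • A j x ∈ B0
  zp : ∀ j, ∃ μ : ℝ, ∀ x, A j x 2 = μ * x 2

/-- The unit vectors. -/
def ev (i : Fin 3) : E3 := Pi.single i 1

/-- The diagonal map with centre `(0, 0, 7)` and diagonal entries `μ, μ, μ⁻²`. -/
noncomputable def Md (μ : ℝ) (x : E3) : E3 := ![μ * x 0, μ * x 1, 7 + (μ ^ 2)⁻¹ * (x 2 - 7)]

/-- The standard maps: for small `γ` the map `T γ l` is the translation by `γ e_l` on `B_1` for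
`l = 0, 1, 2`, and `T γ 3` is the diagonal map `Md (1 + γ)` on `B_1`; they are volume preserving, the
identity off `B_2`, and at distance `O(γ)` from the identity. -/
structure Std where
  g0 : ℝ
  pos : 0 < g0
  C : ℕ → ℝ
  T : ℝ → Fin 4 → Equiv.Perm E3
  ok : ∀ γ, 0 < γ → γ ≤ g0 → ∀ l, Ok B2 (T γ l)
  bd : ∀ γ, 0 < γ → γ ≤ g0 → ∀ l i x, ‖iteratedFDeriv ℝ i (disp (T γ l)) x‖ ≤ C i * γ
  tr0 : ∀ γ, 0 < γ → γ ≤ g0 → ∀ x ∈ B1, T γ 0 x = x + γ • ev 0
  tr1 : ∀ γ, 0 < γ → γ ≤ g0 → ∀ x ∈ B1, T γ 1 x = x + γ • ev 1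
  tr2 : ∀ γ, 0 < γ → γ ≤ g0 → ∀ x ∈ B1, T γ 2 x = x + γ • ev 2
  dg : ∀ γ, 0 < γ → γ ≤ g0 → ∀ x ∈ B1, T γ 3 x = Md (1 + γ) x

/-- The product of the four commutators. -/
def K0 (g : Fin 4 → Equiv.Perm E3) (T : Fin 4 → Equiv.Perm E3) : Equiv.Perm E3 :=
  comm (g 0) (T 0) * comm (g 1) (T 1) * comm (g 2) (T 2) * comm (g 3) (T 3)

/-- The product `e_{p-1} ... e_1 e_0`. -/
def rprod {p : ℕ} (e : Fin p → Equiv.Perm E3) : Equiv.Perm E3 := (List.ofFn e).reverse.prod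

end Pool.Agent.QM59
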