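import Pool.Agent.Lib.MP_decea1_gt_C.Nrm

/-!
# MP_decea1_gt, block C, C0: composition (E2, E3) at scale one

The constants are `Nb.cN K`; see `Norms.lean` (induction on `K`: `D (U ∘ φ) = (DU ∘ φ) ∘ Dφ` with
`φ = id + v`, and `D (U(x+v) - U(x)) = (DU(x+v) - DU(x)) + DU(x+v) ∘ Dv`).
-/

set_option autoImplicit false

open MeasureTheory Set

namespace Pool.Agent.QM59

universe u

variable {W : Type u} [NormedAddCommGroup W] [NormedSpace ℝ W]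

/-- E2 -/
theorem cmpE2 (K : ℕ) (hK : 2 ≤ K) : ∃ C : ℝ, 1 ≤ C ∧
    ∀ (W : Type u) [NormedAddCommGroup W] [NormedSpace ℝ W] (U : E3 → W) (v : E3 → E3)
      (η c : ℝ), ContDiff ℝ smo U → ContDiff ℝ smo v → 0 < η → η ≤ 1 → Bu K η 1 v →
      Bu K η c U → Bu K η (C * c) (fun x => U (x + v x)) := by
  refine ⟨Nb.cN K, Nb.one_le_cN K, ?_⟩
  intro W _ _ U v η c hU hv hη h1 hv1 hUc
  exact Nb.NB.comp K (by omega) hη.le h1 hU hv hv1 (Nb.NB.norm_fderiv_le hv1 hK) hUc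

/-- E3 -/
theorem cmpE3 (K : ℕ) (hK : 1 ≤ K) : ∃ C : ℝ, 1 ≤ C ∧
    ∀ (W : Type u) [NormedAddCommGroup W] [NormedSpace ℝ W] (U : E3 → W) (v : E3 → E3)
      (η θ c : ℝ), ContDiff ℝ smo U → ContDiff ℝ smo v → 0 < η → η ≤ 1 → 0 ≤ θ → 0 ≤ c → c ≤ 1 →
      (∀ x, ‖fderiv ℝ v x‖ ≤ 1) → Bu K η c v → Bn (K + 1) θ U →
      Bu K η (C * θ * c) (fun x => U (x + v x) - U x) := by
  refine ⟨Nb.cN K, Nb.one_le_cN K, ?_⟩
  intro W _ _ U v η θ c hU hv hη h1 hθ hc hc1 hD hvc hUθ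
  have h2 : Nb.NB (K + 1) 1 U θ := Nb.nb_of_le le_rfl hUθ
  have h3 := Nb.NB.comp_sub K hK hη.le h1 hU hv (Nb.NB.mono hvc hc1) hD h2 hvc
  rw [← mul_assoc] at h3
  exact h3

end Pool.Agent.QM59
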