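import Mathlib
import Pool.Agent.Lib.MP_decea1_gt_C.CDefs
import Pool.Agent.Lib.MP_decea1_gt_A.Iso1

/-!
# MP_decea1_gt, block C, module Com: products of commutators

`CP H m f`: the element `f` is a product of `m` commutators of elements of the subgroup `H`.
-/

set_option autoImplicit false

open MeasureTheory Set

namespace Pool.Agent.QM59

/-- volume preserving end points of isotopies in `U` -/
def IsoV (U : Set E3) : Subgroup (Equiv.Perm E3) where
  carrier := {f | InIso U f ∧ Vol f}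
  mul_mem' := fun ha hb => ⟨ha.1.mul hb.1, Vol.mul ha.1.isDif hb.1.isDif ha.2 hb.2⟩
  one_mem' := ⟨InIso.one U, Vol.one⟩
  inv_mem' := fun ha => ⟨ha.1.inv, Vol.inv ha.1.isDif ha.2⟩

theorem mem_IsoV {U : Set E3} {f : Equiv.Perm E3} : f ∈ IsoV U ↔ InIso U f ∧ Vol f := Iff.rfl

theorem IsoV_mono {U V : Set E3} (h : U ⊆ V) : IsoV U ≤ IsoV V :=
  fun _ hf => ⟨hf.1.mono h, hf.2⟩

/-- `f` is a product of `m` commutators of elements of `H` -/
def CP (H : Subgroup (Equiv.Perm E3)) (m : ℕ) (f : Equiv.Perm E3) : Prop :=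
  ∃ a b : Fin m → Equiv.Perm E3, (∀ i, a i ∈ H ∧ b i ∈ H) ∧
    f = (List.ofFn fun i => a i * b i * (a i)⁻¹ * (b i)⁻¹).prod

theorem CP.one (H : Subgroup (Equiv.Perm E3)) : CP H 0 1 := by
  exact ⟨fun _ => 1, fun _ => 1, fun i => i.elim0, by rw [List.ofFn_zero, List.prod_nil]⟩

theorem CP.comm {H : Subgroup (Equiv.Perm E3)} {a b : Equiv.Perm E3} (ha : a ∈ H) (hb : b ∈ H) :
    CP H 1 (comm a b) := by
  refine ⟨fun _ => a, fun _ => b, fun _ => ⟨ha, hb⟩, ?_⟩
  rw [List.ofFn_succ, List.ofFn_zero, List.prod_cons, List.prod_nil, mul_one]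
  rfl

/-- `Fin.append` for the two pairs of families (`List.ofFn_fin_append`), or induct. -/
theorem CP.mul {H : Subgroup (Equiv.Perm E3)} {m n : ℕ} {f g : Equiv.Perm E3} (hf : CP H m f)
    (hg : CP H n g) : CP H (m + n) (f * g) := by
  obtain ⟨a, b, h1, rfl⟩ := hf
  obtain ⟨a', b', h2, rfl⟩ := hg
  refine ⟨Fin.append a a', Fin.append b b', fun i => ?_, ?_⟩
  · refine Fin.addCases (fun i => ?_) (fun i => ?_) i
    · rw [Fin.append_left, Fin.append_left]
      exact h1 i
    · rw [Fin.append_right, Fin.append_right]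
      exact h2 i
  · have h3 : (fun i => Fin.append a a' i * Fin.append b b' i * (Fin.append a a' i)⁻¹ *
        (Fin.append b b' i)⁻¹) = Fin.append (fun i => a i * b i * (a i)⁻¹ * (b i)⁻¹)
          (fun i => a' i * b' i * (a' i)⁻¹ * (b' i)⁻¹) := by
      funext i
      refine Fin.addCases (fun i => ?_) (fun i => ?_) i
      · rw [Fin.append_left, Fin.append_left, Fin.append_left]
      · rw [Fin.append_right, Fin.append_right, Fin.append_right]
    rw [h3, List.ofFn_fin_append, List.prod_append]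

/-- Conjugation is a homomorphism: replace `a i`, `b i` by `c * a i * c⁻¹`, `c * b i * c⁻¹`
(`MulAut.conj c`, `List.map_ofFn`, `map_list_prod`). -/
theorem CP.conj {H H' : Subgroup (Equiv.Perm E3)} {m : ℕ} {f : Equiv.Perm E3} (hf : CP H m f)
    (c : Equiv.Perm E3) (hc : ∀ h ∈ H, c * h * c⁻¹ ∈ H') : CP H' m (c * f * c⁻¹) := by
  obtain ⟨a, b, h1, rfl⟩ := hf
  refine ⟨fun i => c * a i * c⁻¹, fun i => c * b i * c⁻¹,
    fun i => ⟨hc _ (h1 i).1, hc _ (h1 i).2⟩, ?_⟩
  have h2 : c * (List.ofFn fun i => a i * b i * (a i)⁻¹ * (b i)⁻¹).prod * c⁻¹ =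
      MulAut.conj c (List.ofFn fun i => a i * b i * (a i)⁻¹ * (b i)⁻¹).prod := rfl
  rw [h2, map_list_prod, List.map_ofFn]
  refine congrArg (fun g => (List.ofFn g).prod) (funext fun i => ?_)
  change c * (a i * b i * (a i)⁻¹ * (b i)⁻¹) * c⁻¹ = _
  group

theorem CP.mono {H H' : Subgroup (Equiv.Perm E3)} {m : ℕ} {f : Equiv.Perm E3} (hf : CP H m f)
    (h : H ≤ H') : CP H' m f := by
  obtain ⟨a, b, h1, h2⟩ := hf
  exact ⟨a, b, fun i => ⟨h (h1 i).1, h (h1 i).2⟩, h2⟩

/-- `K0 g T` is a product of four commutators (`CP.comm`, `CP.mul`). -/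
theorem CP.K0 {H : Subgroup (Equiv.Perm E3)} {g T : Fin 4 → Equiv.Perm E3} (hg : ∀ l, g l ∈ H)
    (hT : ∀ l, T l ∈ H) : CP H 4 (K0 g T) := by
  exact (((CP.comm (hg 0) (hT 0)).mul (CP.comm (hg 1) (hT 1))).mul
    (CP.comm (hg 2) (hT 2))).mul (CP.comm (hg 3) (hT 3))

theorem rprod_zero (e : Fin 0 → Equiv.Perm E3) : rprod e = 1 := by
  unfold rprod
  rw [List.ofFn_zero, List.reverse_nil, List.prod_nil]

/-- `rprod e = e_p (e_{p-1} ... e_0)`: `List.ofFn_succ'` (concat), `List.reverse_append`. -/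
theorem rprod_succ {p : ℕ} (e : Fin (p + 1) → Equiv.Perm E3) :
    rprod e = e (Fin.last p) * rprod fun j : Fin p => e j.castSucc := by
  unfold rprod
  rw [List.ofFn_succ', List.concat_eq_append, List.reverse_append, List.prod_append,
    List.reverse_singleton, List.prod_singleton]

/-- Induction on `p` with `rprod_succ`. Let `W`, `W'` be the two products for `p`, `E = E_p`,
`E' = τ E τ⁻¹`. Then `(E W) (E' W')⁻¹ = (E (W W'⁻¹) E⁻¹) (E τ E⁻¹ τ⁻¹)`; the first factor is a
product of `p` commutators by induction and `CP.conj`, the second is a commutator. -/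
theorem CP.peel {H : Subgroup (Equiv.Perm E3)} : ∀ {p : ℕ} (E τ : Fin p → Equiv.Perm E3),
    (∀ j, E j ∈ H) → (∀ j, τ j ∈ H) →
      CP H p (rprod E * (rprod fun j => τ j * E j * (τ j)⁻¹)⁻¹) := by
  intro p
  induction p with
  | zero =>
    intro E τ _ _
    rw [rprod_zero, rprod_zero, inv_one, mul_one]
    exact CP.one H
  | succ p ih =>
    intro E τ hE hτ
    have h1 := ih (fun j => E j.castSucc) (fun j => τ j.castSucc) (fun j => hE _) (fun j => hτ _)
    have h2 := (h1.conj (E (Fin.last p)) (fun h hh =>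
      H.mul_mem (H.mul_mem (hE _) hh) (H.inv_mem (hE _)))).mul
        (CP.comm (hE (Fin.last p)) (hτ (Fin.last p)))
    have h3 : rprod E * (rprod fun j => τ j * E j * (τ j)⁻¹)⁻¹ =
        E (Fin.last p) * (rprod (fun j : Fin p => E j.castSucc) *
          (rprod fun j : Fin p => τ j.castSucc * E j.castSucc * (τ j.castSucc)⁻¹)⁻¹) *
            (E (Fin.last p))⁻¹ * Pool.Agent.QM59.comm (E (Fin.last p)) (τ (Fin.last p)) := by
      rw [rprod_succ, rprod_succ]
      unfold Pool.Agent.QM59.comm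
      group
    rw [h3]
    exact h2

end Pool.Agent.QM59
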