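import Pool.Agent.Lib.MP_decea1_gt_C.Gen

/-!
# MP_decea1_gt, block C, C2.4: conjugation with translations and diagonal maps

Global identities: `alf (S (· - τ)) = tr ∘ alf S ∘ tr⁻¹`, `alf S' = Md ∘ alf S ∘ Md⁻¹` for
`S' = μ² S ∘ Md⁻¹` (and the same for `bef`), so `G_{S'}` is the conjugate of `G_S` with the global
affine map (if `alf S`, `bef S` are bijective). If `T` agrees with the affine map on the box `b` and
`G_S` is the identity off `b`, then `T G_S T⁻¹` and `G_{S'}` agree: at `y = T u`, `u ∈ b`, clear,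
and for `u ∉ b` both fix `y`.
-/

set_option autoImplicit false

open MeasureTheory Set

namespace Pool.Agent.QM59

private theorem conj_toP {f f' : E3 → E3} {A : Equiv.Perm E3} (h : Function.Bijective f)
    (h' : ∀ x, f' (A x) = A (f x)) : toP f' = A * toP f * A⁻¹ := by
  symm
  apply eq_toP
  intro x
  have h1 : (A * toP f * A⁻¹) x = A (toP f (A⁻¹ x)) := rfl
  rw [h1, toP_apply h, ← h']
  congr 1
  exact Equiv.apply_symm_apply A x

/-- conjugation with a global map which is compatible with `alf` and `bef` -/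
private theorem conj_Gp {S S' : E3 → ℝ} (h : Sm S) {A : Equiv.Perm E3}
    (ha : ∀ x, alf S' (A x) = A (alf S x)) (hb : ∀ x, bef S' (A x) = A (bef S x)) :
    Gp S' = A * Gp S * A⁻¹ := by
  unfold Gp
  rw [conj_toP (alf_bij h) ha, conj_toP (bef_bij h) hb]
  group

/-- two maps which agree on `K` give the same conjugate -/
private theorem conj_loc {K : Set E3} {G T A : Equiv.Perm E3} (hG : IdOff K G)
    (hT : ∀ x ∈ K, T x = A x) : T * G * T⁻¹ = A * G * A⁻¹ := by
  ext1 y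
  have h1 : (T * G * T⁻¹) y = T (G (T⁻¹ y)) := rfl
  have h2 : (A * G * A⁻¹) y = A (G (A⁻¹ y)) := rfl
  rw [h1, h2]
  have hy : T (T⁻¹ y) = y := Equiv.apply_symm_apply T y
  have hy' : A (A⁻¹ y) = y := Equiv.apply_symm_apply A y
  by_cases hu : T⁻¹ y ∈ K
  · have h3 : A⁻¹ y = T⁻¹ y := by
      apply A.injective
      rw [hy', ← hT _ hu, hy]
    rw [h3, hT _ ((hG.mem_iff _).2 hu)]
  · rw [hG _ hu, hy]
    have hw : A⁻¹ y ∉ K := by
      intro hw
      apply hu
      have h4 : T⁻¹ y = A⁻¹ y := by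
        apply T.injective
        rw [hy, hT _ hw, hy']
      rw [h4]
      exact hw
    rw [hG _ hw, hy']

private theorem conj_pd {S : E3 → ℝ} (h : ContDiff ℝ smo S) (c : ℝ) {L : E3 → E3}
    {L' : E3 →L[ℝ] E3} {x : E3} (hL : HasFDerivAt L L' x) (i : Fin 3) :
    pd i (fun y => c * S (L y)) x = c * fderiv ℝ S (L x) (L' (ev i)) := by
  have h1 : HasFDerivAt S (fderiv ℝ S (L x)) (L x) :=
    ((h.differentiable (by simp)) (L x)).hasFDerivAt
  have h2 : HasFDerivAt (fun y => c * S (L y)) (c • (fderiv ℝ S (L x)).comp L') x :=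
    (HasFDerivAt.comp x h1 hL).const_mul c
  unfold pd
  rw [h2.fderiv]
  rfl

theorem conj_tr {S : E3 → ℝ} (h : Sm S) {lo hi : E3} (h0 : ∀ x, x ∉ Icc lo hi → S x = 0)
    {T : Equiv.Perm E3} {τ : E3} (hT : ∀ x ∈ Icc lo hi, T x = x + τ) :
    T * Gp S * T⁻¹ = Gp fun x => S (x - τ) := by
  have hpd : ∀ (i : Fin 3) (x : E3), pd i (fun y => S (y - τ)) (x + τ) = pd i S x := by
    intro i x
    have h1 := conj_pd h.smooth 1 (L := fun y => y - τ) ((hasFDerivAt_id (x + τ)).sub_const τ) i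
    simp only [one_mul, add_sub_cancel_right] at h1
    rw [h1]
    rfl
  rw [conj_loc (A := Equiv.addRight τ) (Gp_okZ h h0).off hT]
  symm
  apply conj_Gp h
  · intro x
    change alf (fun y => S (y - τ)) (x + τ) = alf S x + τ
    unfold alf
    rw [hpd]
    abel
  · intro x
    change bef (fun y => S (y - τ)) (x + τ) = bef S x + τ
    unfold bef
    rw [hpd]
    abel

/-- the inverse of `Md μ` -/
noncomputable def MdI (μ : ℝ) (x : E3) : E3 := ![μ⁻¹ * x 0, μ⁻¹ * x 1, 7 + μ ^ 2 * (x 2 - 7)]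

private theorem conj_mdI_md {μ : ℝ} (hμ : μ ≠ 0) (x : E3) : MdI μ (Md μ x) = x := by
  ext i
  fin_cases i
  · change μ⁻¹ * (μ * x 0) = x 0
    field_simp
  · change μ⁻¹ * (μ * x 1) = x 1
    field_simp
  · change 7 + μ ^ 2 * (7 + (μ ^ 2)⁻¹ * (x 2 - 7) - 7) = x 2
    field_simp
    ring

private theorem conj_md_mdI {μ : ℝ} (hμ : μ ≠ 0) (x : E3) : Md μ (MdI μ x) = x := by
  ext i
  fin_cases i
  · change μ * (μ⁻¹ * x 0) = x 0
    field_simp
  · change μ * (μ⁻¹ * x 1) = x 1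
    field_simp
  · change 7 + (μ ^ 2)⁻¹ * (7 + μ ^ 2 * (x 2 - 7) - 7) = x 2
    field_simp
    ring

/-- the derivative of `MdI` -/
private noncomputable def conj_D (μ : ℝ) : E3 →L[ℝ] E3 :=
  ContinuousLinearMap.pi ![μ⁻¹ • ContinuousLinearMap.proj 0, μ⁻¹ • ContinuousLinearMap.proj 1,
    μ ^ 2 • ContinuousLinearMap.proj 2]

private theorem conj_hasD (μ : ℝ) (x : E3) : HasFDerivAt (MdI μ) (conj_D μ) x := by
  have hp : ∀ i : Fin 3, HasFDerivAt (fun y : E3 => y i)
      (ContinuousLinearMap.proj (R := ℝ) (φ := fun _ : Fin 3 => ℝ) i) x := fun i =>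
    (ContinuousLinearMap.proj (R := ℝ) (φ := fun _ : Fin 3 => ℝ) i).hasFDerivAt
  unfold conj_D
  refine hasFDerivAt_pi'' fun i => ?_
  fin_cases i
  · exact (hp 0).const_mul μ⁻¹
  · exact (hp 1).const_mul μ⁻¹
  · exact (((hp 2).sub_const 7).const_mul (μ ^ 2)).const_add 7

private theorem conj_D_ev0 (μ : ℝ) : conj_D μ (ev 0) = μ⁻¹ • ev 0 := by
  ext i
  fin_cases i <;> simp [conj_D, ev, ContinuousLinearMap.pi_apply]

private theorem conj_D_ev1 (μ : ℝ) : conj_D μ (ev 1) = μ⁻¹ • ev 1 := by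
  ext i
  fin_cases i <;> simp [conj_D, ev, ContinuousLinearMap.pi_apply]

theorem conj_md {S : E3 → ℝ} (h : Sm S) {lo hi : E3} (h0 : ∀ x, x ∉ Icc lo hi → S x = 0)
    {T : Equiv.Perm E3} {μ : ℝ} (hμ : 0 < μ) (hT : ∀ x ∈ Icc lo hi, T x = Md μ x) :
    T * Gp S * T⁻¹ = Gp fun x => μ ^ 2 * S (MdI μ x) := by
  have hn := hμ.ne'
  let A : Equiv.Perm E3 := ⟨Md μ, MdI μ, conj_mdI_md hn, conj_md_mdI hn⟩
  have hA : ∀ x, A x = Md μ x := fun x => rfl
  have hp0 : ∀ x : E3, pd 0 (fun y => μ ^ 2 * S (MdI μ y)) (Md μ x) = μ * pd 0 S x := by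
    intro x
    rw [conj_pd h.smooth (μ ^ 2) (conj_hasD μ (Md μ x)) 0, conj_mdI_md hn, conj_D_ev0, map_smul,
      smul_eq_mul]
    unfold pd
    field_simp
  have hp1 : ∀ x : E3, pd 1 (fun y => μ ^ 2 * S (MdI μ y)) (Md μ x) = μ * pd 1 S x := by
    intro x
    rw [conj_pd h.smooth (μ ^ 2) (conj_hasD μ (Md μ x)) 1, conj_mdI_md hn, conj_D_ev1, map_smul,
      smul_eq_mul]
    unfold pd
    field_simp
  rw [conj_loc (A := A) (Gp_okZ h h0).off hT]
  symm
  apply conj_Gp h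
  · intro x
    rw [hA, hA]
    unfold alf
    rw [hp0]
    ext i
    fin_cases i <;> simp [Md, ev]
    ring
  · intro x
    rw [hA, hA]
    unfold bef
    rw [hp1]
    ext i
    fin_cases i <;> simp [Md, ev]
    ring

/-- conjugation with a homothety about the origin -/
theorem conj_scl {S : E3 → ℝ} (h : Sm S) (r : ℝ) (hr : 0 < r) :
    scl r hr.ne' (Gp S) = Gp fun x => r ^ 2 * S (r⁻¹ • x) := by
  have hn := hr.ne'
  have hA : ∀ x, homoth 0 r hr.ne' x = r • x := fun x => zero_add _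
  have hpd : ∀ (i : Fin 3) (x : E3), pd i (fun y => r ^ 2 * S (r⁻¹ • y)) (r • x) =
      r * pd i S x := by
    intro i x
    have h1 := conj_pd h.smooth (r ^ 2) (L := fun y => r⁻¹ • y)
      (r⁻¹ • ContinuousLinearMap.id ℝ E3).hasFDerivAt (x := r • x) i
    rw [h1, inv_smul_smul₀ hn]
    change r ^ 2 * fderiv ℝ S x (r⁻¹ • ev i) = r * fderiv ℝ S x (ev i)
    rw [map_smul, smul_eq_mul]
    field_simp
  unfold scl
  symm
  apply conj_Gp h
  · intro x
    rw [hA, hA]
    unfold alf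
    rw [hpd, smul_add, smul_smul]
  · intro x
    rw [hA, hA]
    unfold bef
    rw [hpd, smul_add, smul_smul]

end Pool.Agent.QM59
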