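import Pool.Agent.Lib.MP_decea1_gt_C.Prm
import Pool.Agent.Lib.MP_decea1_gt_A.A4
import Pool.Agent.Lib.MP_decea1_gt_A.Hole

/-!
# MP_decea1_gt, block C, C3: the hand-over maps

For `c = F.c j ∈ B1` (so `4 ≤ c 2 ≤ 10`, `|c 0|, |c 1| ≤ 3`), `μ = 7 lam / c 2 ∈ [7/40, 7/16]`:
`A x = (s x_0 - s (x_2 / c_2) c_0, s x_1 - s (x_2 / c_2) c_1, μ x_2)`, `s = μ ^ (-1/2)`, `det = 1`.
`maps`: for `‖x - c‖ ≤ 1/20`: `(A x)_0 = s (x_0 - c_0) - s ((x_2 - c_2) / c_2) c_0`, so
`|(A x)_0| ≤ s (1/20) (1 + 3/4) ≤ 2.4 * 0.0875 ≤ 1/4`, and `|(A x)_2 - 7 lam| ≤ μ / 20 ≤ 1/4`.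
`τ`: `A` is a product of `2 n` matrices near `1` (`n` shears `id + tiny E_{02}`, `E_{12}` and `n`
diagonal matrices `diag (s^{1/n}, s^{1/n}, s^{-2/n})`; the same for every `n`, choose `n` so large that
`‖B - 1‖ ≤ δ`). Each factor `B` is cut off: `x + χ x • (B x - x)`, `χ = 1` on `closedBall 0 R'`
and `χ = 0` off `closedBall 0 (2 R')`, is the end point of an isotopy by `A1`
(`‖D‖ ≤ δ + 2 R' ‖Dχ‖ δ ≤ 1/2`); choose the radius `R'` so large that all partial products map
`ball 0 13` into `closedBall 0 R'` (`‖partial product‖ ≤ C`). The product `Φ` of the cut off factors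
is in `InIso (ball 0 (3 R'))` and equal to `A` on `ball 0 13`. MOS (`A4`, `A4one`) with
`K = closedBall 0 12`, `U = ball 0 (3 R')`, `r = 1`, `V = U \ K` connected:
`∫_V (jac Φ - 1) = vol (Φ V) - vol V = 0` because `Φ K` and `K` have the same volume.
-/

set_option autoImplicit false

open MeasureTheory Set

namespace Pool.Agent.QM59

/-- `A` is realised on every ball by the end point of an isotopy -/
private def hnd_LP (A : E3 →L[ℝ] E3) : Prop := ∀ R : ℝ, ∃ (R' : ℝ) (Φ : Equiv.Perm E3),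
  InIso (Metric.ball 0 R') Φ ∧ ∀ x ∈ Metric.ball (0 : E3) R, Φ x = A x

private theorem hnd_LP_mul {A B : E3 →L[ℝ] E3} (hA : hnd_LP A) (hB : hnd_LP B) :
    hnd_LP (A * B) := by
  intro R
  obtain ⟨R1, Φ1, h1, h1'⟩ := hB R
  obtain ⟨R2, Φ2, h2, h2'⟩ := hA (‖B‖ * |R| + 1)
  refine ⟨max R1 R2, Φ2 * Φ1, (h2.mono (Metric.ball_subset_ball (le_max_right _ _))).mul
    (h1.mono (Metric.ball_subset_ball (le_max_left _ _))), fun x hx => ?_⟩
  rw [Equiv.Perm.mul_apply, h1' x hx]
  refine h2' _ ?_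
  rw [mem_ball_zero_iff] at hx ⊢
  calc ‖B x‖ ≤ ‖B‖ * ‖x‖ := B.le_opNorm x
    _ ≤ ‖B‖ * |R| := by
      gcongr
      exact hx.le.trans (le_abs_self R)
    _ < ‖B‖ * |R| + 1 := by linarith

private theorem hnd_LP_one : hnd_LP 1 := fun _ => ⟨0, 1, InIso.one _, fun _ _ => rfl⟩

private theorem hnd_LP_pow {A : E3 →L[ℝ] E3} (hA : hnd_LP A) (n : ℕ) : hnd_LP (A ^ n) := by
  induction n with
  | zero => rw [pow_zero]; exact hnd_LP_one
  | succ n ih => rw [pow_succ]; exact hnd_LP_mul ih hA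

private theorem hnd_near : ∃ δ : ℝ, 0 < δ ∧ ∀ B : E3 →L[ℝ] E3, ‖B - 1‖ ≤ δ → hnd_LP B := by
  obtain ⟨χ, hχ, h01, ⟨W, hW, hKW, hW1⟩, ⟨L, hL, hLU, hL0⟩⟩ :=
    exists_bump (Metric.ball 0 2) (Metric.closedBall 0 1) Metric.isOpen_ball
      (isCompact_closedBall _ _) (Metric.closedBall_subset_ball (by norm_num))
  have hsupp : HasCompactSupport χ := HasCompactSupport.intro hL fun x hx => hL0 x hx
  obtain ⟨C, hC⟩ : ∃ C : ℝ, ∀ x, ‖fderiv ℝ χ x‖ ≤ C := by
    have h1 : HasCompactSupport (fderiv ℝ χ) := hsupp.fderiv (𝕜 := ℝ)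
    have h2 : Continuous (fderiv ℝ χ) := hχ.continuous_fderiv (by simp)
    obtain ⟨C, hC⟩ := h2.bounded_above_of_compact_support h1
    exact ⟨C, hC⟩
  have hC0 : 0 ≤ C := (norm_nonneg _).trans (hC 0)
  refine ⟨1 / (2 * (1 + 2 * C)), by positivity, fun B hB R => ?_⟩
  set r : ℝ := |R| + 1 with hr
  have hr0 : 0 < r := by positivity
  set u : E3 → E3 := fun x => χ (r⁻¹ • x) • (B x - x) with hu
  have hχr : ContDiff ℝ smo fun x : E3 => χ (r⁻¹ • x) := hχ.comp (contDiff_const_smul r⁻¹)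
  have hus : ContDiff ℝ smo u := hχr.smul (B.contDiff.sub contDiff_id)
  have hzero : ∀ x, x ∉ Metric.closedBall (0 : E3) (2 * r) → χ (r⁻¹ • x) = 0 := by
    intro x hx
    refine hL0 _ fun hxL => hx ?_
    have h1 := hLU hxL
    rw [mem_ball_zero_iff, norm_smul, norm_inv, Real.norm_of_nonneg hr0.le,
      inv_mul_lt_iff₀ hr0] at h1
    rw [mem_closedBall_zero_iff]
    linarith
  have hD : ∀ x, ‖fderiv ℝ u x‖ ≤ 1 / 2 := by
    intro x
    have hd1 : HasFDerivAt (fun x : E3 => χ (r⁻¹ • x))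
        ((fderiv ℝ χ (r⁻¹ • x)).comp (r⁻¹ • ContinuousLinearMap.id ℝ E3)) x :=
      ((hχ.differentiable (by simp)) _).hasFDerivAt.comp x
        ((hasFDerivAt_id x).const_smul r⁻¹)
    have hd2 : HasFDerivAt (fun x : E3 => B x - x) (B - 1) x :=
      B.hasFDerivAt.sub (hasFDerivAt_id x)
    have hd := (hd1.smul hd2).fderiv
    have hux : fderiv ℝ u x = χ (r⁻¹ • x) • (B - 1) +
        ((fderiv ℝ χ (r⁻¹ • x)).comp (r⁻¹ • ContinuousLinearMap.id ℝ E3)).smulRight
          (B x - x) := hd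
    by_cases hx : x ∈ Metric.closedBall (0 : E3) (2 * r)
    · rw [mem_closedBall_zero_iff] at hx
      have hB2 : ‖B x - x‖ ≤ ‖B - 1‖ * (2 * r) := by
        calc ‖B x - x‖ = ‖(B - 1) x‖ := by simp
          _ ≤ ‖B - 1‖ * ‖x‖ := (B - 1).le_opNorm x
          _ ≤ _ := by gcongr
      have h3 : ‖((fderiv ℝ χ (r⁻¹ • x)).comp (r⁻¹ • ContinuousLinearMap.id ℝ E3)).smulRight
          (B x - x)‖ ≤ (C * r⁻¹) * (‖B - 1‖ * (2 * r)) := by
        rw [ContinuousLinearMap.norm_smulRight_apply]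
        refine mul_le_mul ?_ hB2 (norm_nonneg _) (by positivity)
        refine (ContinuousLinearMap.opNorm_comp_le _ _).trans ?_
        refine mul_le_mul (hC _) ?_ (norm_nonneg _) hC0
        rw [norm_smul, norm_inv, Real.norm_of_nonneg hr0.le]
        exact mul_le_of_le_one_right (by positivity) ContinuousLinearMap.norm_id_le
      rw [hux]
      refine (norm_add_le _ _).trans ?_
      have h4 : ‖χ (r⁻¹ • x) • (B - 1)‖ ≤ ‖B - 1‖ := by
        rw [norm_smul, Real.norm_of_nonneg (h01 _).1]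
        exact mul_le_of_le_one_left (norm_nonneg _) (h01 _).2
      have h5 : (C * r⁻¹) * (‖B - 1‖ * (2 * r)) = 2 * C * ‖B - 1‖ := by
        field_simp
      rw [h5] at h3
      have h6 : (1 + 2 * C) * ‖B - 1‖ ≤ 1 / 2 := by
        calc (1 + 2 * C) * ‖B - 1‖ ≤ (1 + 2 * C) * (1 / (2 * (1 + 2 * C))) := by gcongr
          _ = 1 / 2 := by field_simp
      linarith
    · have h1 : u =ᶠ[nhds x] fun _ => 0 := by
        filter_upwards [Metric.isClosed_closedBall.isOpen_compl.mem_nhds hx] with y hy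
        simp only [hu]
        rw [hzero y hy, zero_smul]
      rw [h1.fderiv_eq]
      simp
  obtain ⟨f, hf, hf'⟩ := A1 (Metric.ball 0 (2 * r + 1)) Metric.isOpen_ball u hus
    (Metric.closedBall 0 (2 * r)) (isCompact_closedBall _ _)
    (Metric.closedBall_subset_ball (by linarith))
    (fun x hx => by simp only [hu]; rw [hzero x hx, zero_smul]) hD
  refine ⟨_, f, hf, fun x hx => ?_⟩
  rw [hf' x]
  have h1 : χ (r⁻¹ • x) = 1 := by
    refine hW1 _ (hKW ?_)
    rw [mem_ball_zero_iff] at hx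
    rw [mem_closedBall_zero_iff, norm_smul, norm_inv, Real.norm_of_nonneg hr0.le,
      inv_mul_le_iff₀ hr0]
    have := le_abs_self R
    linarith
  simp only [hu]
  rw [h1, one_smul, add_sub_cancel]

/-- one parameter groups -/
private theorem hnd_one_param (B : ℝ → (E3 →L[ℝ] E3)) (hc : Continuous B) (h0 : B 0 = 1)
    (hadd : ∀ s t, B (s + t) = B s * B t) : hnd_LP (B 1) := by
  obtain ⟨δ, hδ, hnear⟩ := hnd_near
  have h1 : Filter.Tendsto (fun n : ℕ => B (1 / ((n : ℝ) + 1))) Filter.atTop (nhds (B 0)) :=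
    (hc.tendsto 0).comp tendsto_one_div_add_atTop_nhds_zero_nat
  have h2 : ∀ᶠ n : ℕ in Filter.atTop, B (1 / ((n : ℝ) + 1)) ∈ Metric.closedBall (B 0) δ :=
    h1.eventually (Metric.closedBall_mem_nhds _ hδ)
  obtain ⟨n, hn⟩ := h2.exists
  rw [mem_closedBall_iff_norm, h0] at hn
  have hpow : ∀ (t : ℝ) (k : ℕ), B t ^ k = B (k * t) := by
    intro t k
    induction k with
    | zero => simp [h0]
    | succ k ih =>
      rw [pow_succ, ih, ← hadd]
      congr 1
      push_cast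
      ring
  have h3 := hnd_LP_pow (hnear _ hn) (n + 1)
  rw [hpow] at h3
  have h4 : ((n + 1 : ℕ) : ℝ) * (1 / ((n : ℝ) + 1)) = 1 := by
    push_cast
    field_simp
  rwa [h4] at h3

/-- the coordinate projections as endomorphisms -/
private noncomputable def hnd_P (i j : Fin 3) : E3 →L[ℝ] E3 :=
  (ContinuousLinearMap.single ℝ (fun _ : Fin 3 => ℝ) i).comp (ContinuousLinearMap.proj j)

private theorem hnd_P_apply (i j : Fin 3) (x : E3) : hnd_P i j x = Pi.single i (x j) := rfl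

private theorem hnd_diag (d : Fin 3 → ℝ) : hnd_LP (∑ i, Real.exp (d i) • hnd_P i i) := by
  have h := hnd_one_param (fun t => ∑ i, Real.exp (t * d i) • hnd_P i i) (by fun_prop) ?_ ?_
  · simpa using h
  · ext x i
    fin_cases i <;> simp [Fin.sum_univ_three, hnd_P_apply]
  · intro s t
    ext x i
    fin_cases i <;>
      simp [Fin.sum_univ_three, hnd_P_apply, add_mul, Real.exp_add, mul_assoc]

private theorem hnd_shear (a b : ℝ) : hnd_LP (1 + a • hnd_P 0 2 + b • hnd_P 1 2) := by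
  have h := hnd_one_param (fun t => 1 + (t * a) • hnd_P 0 2 + (t * b) • hnd_P 1 2)
    (by fun_prop) ?_ ?_
  · simpa using h
  · simp
  · intro s t
    ext x i
    fin_cases i <;> simp [hnd_P_apply] <;> ring

private theorem hnd_real (A : E3 ≃L[ℝ] E3) (hA : hnd_LP (A : E3 →L[ℝ] E3))
    (hdet : (A : E3 →L[ℝ] E3).det = 1) :
    ∃ (R : ℝ) (τ : Equiv.Perm E3), InIso (Metric.ball 0 R) τ ∧ Vol τ ∧
      ∀ x ∈ Metric.ball (0 : E3) 12, τ x = A x := by
  obtain ⟨R0, Φ, hΦ, hΦ'⟩ := hA 13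
  set R : ℝ := |R0| + 13 with hR
  have hRR : R0 ≤ R := by
    have := le_abs_self R0
    linarith
  have hR13 : 13 ≤ R := by
    have := abs_nonneg R0
    linarith
  have hball : Metric.ball (0 : E3) R = Box (fun _ => -R) (fun _ => R) := by
    ext x
    rw [mem_ball_zero_iff, pi_norm_lt_iff (by linarith)]
    simp [Box, Real.norm_eq_abs, abs_lt]
  have hK : Metric.closedBall (0 : E3) 12 = Icc (fun _ => -12) (fun _ => 12) := by
    ext x
    rw [mem_closedBall_zero_iff, pi_norm_le_iff_of_nonneg (by norm_num)]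
    simp only [Real.norm_eq_abs, abs_le, mem_Icc, Pi.le_def]
    exact forall_and
  have hconn : IsConnected (Metric.ball (0 : E3) R \ Metric.closedBall 0 12) := by
    rw [hball, hK]
    exact isConnected_Box_diff_Icc _ _ _ _ (fun _ => by linarith) (fun _ => by norm_num)
      (fun _ => by linarith)
  obtain ⟨m, hm, hv⟩ := A4one (Metric.ball 0 R) Metric.isOpen_ball (Metric.closedBall 0 12)
    (isCompact_closedBall _ _) (Metric.closedBall_subset_ball (by linarith)) hconn Φ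
    (hΦ.mono (Metric.ball_subset_ball hRR)) (Metric.ball 0 13) Metric.isOpen_ball
    (Metric.closedBall_subset_ball (by norm_num)) (fun x hx => by
      have h1 : (fun y => Φ y) =ᶠ[nhds x] fun y => A y := by
        filter_upwards [Metric.isOpen_ball.mem_nhds hx] with y hy
        exact hΦ' y hy
      rw [jac_congr _ _ _ h1]
      unfold jac
      have h2 : fderiv ℝ (fun y => A y) x = (A : E3 →L[ℝ] E3) := A.fderiv
      rw [h2, hdet])
  refine ⟨R, Φ * m, (hΦ.mono (Metric.ball_subset_ball hRR)).mul (hm.mono diff_subset), hv,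
    fun x hx => ?_⟩
  rw [Equiv.Perm.mul_apply, hm.idOff x (fun h => h.2 (Metric.ball_subset_closedBall hx))]
  exact hΦ' x (Metric.ball_subset_ball (by norm_num) hx)

/-- the linear map of the hand-over -/
private theorem hnd_lin (c : E3) (hc : c ∈ B1) : ∃ A : E3 ≃L[ℝ] E3,
    hnd_LP (A : E3 →L[ℝ] E3) ∧ (A : E3 →L[ℝ] E3).det = 1 ∧
    (∀ x ∈ Metric.closedBall c (1 / 20), lam⁻¹ • A x ∈ B0) ∧
    ∃ μ : ℝ, ∀ x, A x 2 = μ * x 2 := by
  obtain ⟨h0, h1, h2⟩ := hc
  rw [abs_le] at h2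
  have hc2 : 4 ≤ c 2 := by linarith
  have hc2' : c 2 ≤ 10 := by linarith
  have hcp : 0 < c 2 := by linarith
  set s : ℝ := Real.sqrt (4 * c 2 / 7) with hs
  have hs2 : s ^ 2 = 4 * c 2 / 7 := Real.sq_sqrt (by positivity)
  have hsp : 0 < s := Real.sqrt_pos.mpr (by positivity)
  have hs24 : s ≤ 24 / 10 := by
    rw [hs, Real.sqrt_le_left (by norm_num)]
    linarith
  set μ : ℝ := 7 / (4 * c 2) with hμ
  have hμp : 0 < μ := by positivity
  have hsμ : s ^ 2 * μ = 1 := by
    rw [hs2, hμ]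
    field_simp
  set D : E3 →L[ℝ] E3 := ∑ i, Real.exp ((![Real.log s, Real.log s, Real.log μ] : Fin 3 → ℝ) i) •
    hnd_P i i with hD
  set E : E3 →L[ℝ] E3 := 1 + (-(c 0 / c 2)) • hnd_P 0 2 + (-(c 1 / c 2)) • hnd_P 1 2 with hE
  have hDE0 : ∀ x, (D * E) x 0 = s * (x 0 - c 0 / c 2 * x 2) := by
    intro x
    simp [hD, hE, Fin.sum_univ_three, hnd_P_apply, Real.exp_log hsp]
    left
    ring
  have hDE1 : ∀ x, (D * E) x 1 = s * (x 1 - c 1 / c 2 * x 2) := by
    intro x
    simp [hD, hE, Fin.sum_univ_three, hnd_P_apply, Real.exp_log hsp]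
    left
    ring
  have hDE2 : ∀ x, (D * E) x 2 = μ * x 2 := by
    intro x
    simp [hD, hE, Fin.sum_univ_three, hnd_P_apply, Real.exp_log hμp]
  have hdet : (D * E).det = 1 := by
    have h3 : ((D * E : E3 →L[ℝ] E3) : E3 →ₗ[ℝ] E3) =
        Matrix.toLin' !![s, 0, -(s * (c 0 / c 2)); 0, s, -(s * (c 1 / c 2)); 0, 0, μ] := by
      refine LinearMap.ext fun x => funext fun i => ?_
      fin_cases i
      · change (D * E) x 0 = _
        rw [hDE0]
        simp [Matrix.mulVec, dotProduct, Fin.sum_univ_three]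
        ring
      · change (D * E) x 1 = _
        rw [hDE1]
        simp [Matrix.mulVec, dotProduct, Fin.sum_univ_three]
        ring
      · change (D * E) x 2 = _
        rw [hDE2]
        simp [Matrix.mulVec, dotProduct, Fin.sum_univ_three]
    unfold ContinuousLinearMap.det
    rw [h3, LinearMap.det_toLin', Matrix.det_fin_three]
    simp
    linear_combination hsμ
  have hunit : IsUnit (LinearMap.det ((D * E : E3 →L[ℝ] E3) : E3 →ₗ[ℝ] E3)) := by
    have h4 : LinearMap.det ((D * E : E3 →L[ℝ] E3) : E3 →ₗ[ℝ] E3) = 1 := hdet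
    rw [h4]
    exact isUnit_one
  set A : E3 ≃L[ℝ] E3 :=
    (LinearEquiv.ofIsUnitDet (v := Pi.basisFun ℝ (Fin 3)) (v' := Pi.basisFun ℝ (Fin 3))
      (f := ((D * E : E3 →L[ℝ] E3) : E3 →ₗ[ℝ] E3)) (by
        rwa [← LinearMap.det_toMatrix (Pi.basisFun ℝ (Fin 3))] at hunit)).toContinuousLinearEquiv
    with hA
  have hAx : ∀ x, A x = (D * E) x := fun x => rfl
  have hAc : (A : E3 →L[ℝ] E3) = D * E := ContinuousLinearMap.ext hAx
  refine ⟨A, ?_, ?_, ?_, μ, fun x => by rw [hAx, hDE2]⟩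
  · rw [hAc]
    exact hnd_LP_mul (hnd_diag _) (hnd_shear _ _)
  · rw [hAc, hdet]
  · intro x hx
    rw [mem_closedBall_iff_norm, pi_norm_le_iff_of_nonneg (by norm_num)] at hx
    have hx0 := hx 0
    have hx1 := hx 1
    have hx2 := hx 2
    rw [Pi.sub_apply, Real.norm_eq_abs] at hx0 hx1 hx2
    have hlam : (lam⁻¹ : ℝ) = 4 := by unfold lam; norm_num
    have key : ∀ (a y : ℝ), |a| ≤ 3 → |y - a| ≤ 1 / 20 →
        |4 * (s * (y - a / c 2 * x 2))| ≤ 1 := by
      intro a y ha hy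
      have h5 : y - a / c 2 * x 2 = (y - a) - a / c 2 * (x 2 - c 2) := by
        field_simp
        ring
      have h6 : |y - a / c 2 * x 2| ≤ 7 / 80 := by
        rw [h5]
        refine (abs_sub _ _).trans ?_
        have h7 : |a / c 2 * (x 2 - c 2)| ≤ 3 / 4 * (1 / 20) := by
          rw [abs_mul, abs_div, abs_of_pos hcp]
          refine mul_le_mul ?_ hx2 (abs_nonneg _) (by norm_num)
          rw [div_le_iff₀ hcp]
          linarith
        linarith
      rw [abs_mul, abs_mul, abs_of_pos hsp, abs_of_pos (by norm_num : (0 : ℝ) < 4)]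
      nlinarith [abs_nonneg (y - a / c 2 * x 2)]
    refine ⟨?_, ?_, ?_⟩
    · rw [Pi.smul_apply, hAx, hDE0, hlam, smul_eq_mul]
      exact key _ _ (by simpa using h0) hx0
    · rw [Pi.smul_apply, hAx, hDE1, hlam, smul_eq_mul]
      exact key _ _ (by simpa using h1) hx1
    · rw [Pi.smul_apply, hAx, hDE2, hlam, smul_eq_mul]
      have h8 : 4 * (μ * x 2) - 7 = 7 * (x 2 - c 2) / c 2 := by
        rw [hμ]
        field_simp
      rw [h8, abs_div, abs_of_pos hcp, div_le_iff₀ hcp, abs_mul,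
        abs_of_pos (by norm_num : (0 : ℝ) < 7)]
      linarith

theorem exists_hand (F : Frag) : Nonempty (Hand F) := by
  choose A hLP hdet hmaps hzp using fun j => hnd_lin (F.c j) (F.mem j)
  choose R τ hiso hvol heq using fun j => hnd_real (A j) (hLP j) (hdet j)
  exact ⟨{
    R := 12 + ∑ j, |R j|
    hR := by
      have := Finset.sum_nonneg (s := Finset.univ) fun j _ => abs_nonneg (R j)
      linarith
    A := A
    τ := τ
    iso := fun j => (hiso j).mono (Metric.ball_subset_ball (by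
      have h1 : |R j| ≤ ∑ j, |R j| :=
        Finset.single_le_sum (f := fun j => |R j|) (fun i _ => abs_nonneg (R i))
          (Finset.mem_univ j)
      have h2 := le_abs_self (R j)
      linarith))
    vol := hvol
    eq := heq
    maps := hmaps
    zp := hzp }⟩

end Pool.Agent.QM59
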