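import Pool.Agent.Lib.MP_decea1_gt_C.GEst
import Pool.Agent.Lib.MP_decea1_gt_A.A1
import Pool.Agent.Lib.MP_decea1_gt_A.A3
import Pool.Agent.Lib.MP_decea1_gt_A.Hole
import Pool.Agent.Lib.MP_decea1_gt_A.Int
import Pool.Agent.Lib.MP_decea1_gt_A.Meas

/-!
# MP_decea1_gt, block C, C2.6: the standard maps

Main lemma (`exists_fam`): for `q : E3 → ℝ` smooth and boxes `lo' < lo ≤ hi < hi'` there are `g0 > 0`,
`C : ℕ → ℝ` and `T : ℝ → Equiv.Perm E3` with: for `0 < s ≤ g0`: `T s = Gp (s • (χ q))`, `χ` a bump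
(`= 1` near `Icc lo hi`, `= 0` off `Icc lo' hi'`), `OkZ (Icc lo' hi') (T s)`,
`‖D^i (disp (T s))‖ ≤ C i * s`, and
`T s (t + (s * pd 0 q t) • ev 1) = t + (s * pd 1 q t) • ev 0` for `t ∈ Icc lo hi` (`Gp_alf`).
(`gp_bd` with `N = 1`, `η = 1`, `c = s * const` for every `K`; the smallness `c ≤ κ_K` fails for large
`K`: use it only for `s ≤ g_K`, and for `s ∈ [g_K, g0]` a bound on the compact set
`[g_K, g0] × Icc lo' hi'` by smoothness of `(s, x) ↦ T s x`; or: `T s x - x` is smooth in `(s, x)` near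
`s = 0` and vanishes at `s = 0`.)
`T γ 0`: `q = x_1` (`t = (x_0, x_1, x_2)`: `pd 0 q = 0`, `pd 1 q = 1`, so `T (t) = t + s ev 0`);
`T γ 1`: `q = - x_0`: `T (t - s ev 1) = t`, i.e. `T x = x + s ev 1`;
`T γ 2`: the conjugate of the first one with a permutation of the coordinates;
`T γ 3`: `q = (x_0 - c_0)(x_1 - c_1)`: `T (t + s (t_1 - c_1) ev 1) = t + s (t_0 - c_0) ev 0`, i.e. the
diagonal map with entries `1 + s`, `(1 + s)⁻¹`, `1` about `c`; conjugate with permutations of the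
coordinates and compose the two in the planes `(0, 2)` and `(1, 2)`: diagonal entries
`1 + γ`, `1 + γ`, `(1 + γ)⁻²` about `(0, 0, 7)`, valid on `B1` for small `γ` (the first map sends `B1`
into a slightly larger box).
-/

set_option autoImplicit false

open MeasureTheory Set Filter Topology

namespace Pool.Agent.QM59

theorem std_le (i : ℕ) : (i : WithTop ℕ∞) ≤ smo := by
  exact WithTop.coe_le_coe.2 (le_top : (i : ℕ∞) ≤ ⊤)

/-- slices of smooth maps on `ℝ × E3` -/
theorem std_slice {W : ℝ × E3 → E3} (hW : ContDiff ℝ smo W) (i : ℕ) (s : ℝ) (x : E3) :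
    ‖iteratedFDeriv ℝ i (fun y => W (s, y)) x‖ ≤ ‖iteratedFDeriv ℝ i W (s, x)‖ := by
  have h1 : (fun y => W (s, y)) =
      (fun q : ℝ × E3 => W ((s, 0) + q)) ∘ (ContinuousLinearMap.inr ℝ ℝ E3) := by
    funext y
    simp
  have h2 : ContDiff ℝ smo (fun q : ℝ × E3 => W ((s, 0) + q)) :=
    hW.comp (contDiff_const.add contDiff_id)
  rw [h1, ContinuousLinearMap.iteratedFDeriv_comp_right (ContinuousLinearMap.inr ℝ ℝ E3) h2 x
    (i := i) (std_le i)]
  refine (ContinuousMultilinearMap.norm_compContinuousLinearMap_le _ _).trans ?_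
  have h3 : ∏ _j : Fin i, ‖ContinuousLinearMap.inr ℝ ℝ E3‖ ≤ 1 :=
    Finset.prod_le_one (fun _ _ => norm_nonneg _) fun _ _ =>
      ContinuousLinearMap.norm_inr_le_one ℝ ℝ E3
  have h4 : iteratedFDeriv ℝ i (fun q : ℝ × E3 => W ((s, 0) + q))
      (ContinuousLinearMap.inr ℝ ℝ E3 x) = iteratedFDeriv ℝ i W (s, x) := by
    rw [iteratedFDeriv_comp_add_left]
    simp
  rw [h4]
  calc ‖iteratedFDeriv ℝ i W (s, x)‖ * ∏ _j : Fin i, ‖ContinuousLinearMap.inr ℝ ℝ E3‖
      ≤ ‖iteratedFDeriv ℝ i W (s, x)‖ * 1 := mul_le_mul_of_nonneg_left h3 (norm_nonneg _)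
    _ = _ := mul_one _

/-- a smooth family which vanishes for `s = 0` is divisible by `s` -/
theorem std_hadamard {V : ℝ × E3 → E3} (hV : ContDiff ℝ smo V) (h0 : ∀ x, V (0, x) = 0) :
    ∃ W : ℝ × E3 → E3, ContDiff ℝ smo W ∧ ∀ s x, V (s, x) = s • W (s, x) := by
  obtain ⟨D, hDd⟩ : ∃ D : ℝ × E3 → E3, D = fun p => fderiv ℝ V p (1, 0) := ⟨_, rfl⟩
  have hD : ContDiff ℝ smo D := by
    rw [hDd]
    exact (hV.fderiv_right (by simp [smo])).clm_apply contDiff_const
  refine ⟨fun p i => ∫ t in (0 : ℝ)..1, D (t * p.1, p.2) i, ?_, ?_⟩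
  · rw [contDiff_pi]
    intro i
    refine smooth_int01 (H := ℝ × E3) (fun q : (ℝ × E3) × ℝ => D (q.2 * q.1.1, q.1.2) i) ?_
    have h1 : ContDiff ℝ smo fun q : (ℝ × E3) × ℝ => D (q.2 * q.1.1, q.1.2) :=
      hD.comp ((contDiff_snd.mul (contDiff_fst.comp contDiff_fst)).prodMk
        (contDiff_snd.comp contDiff_fst))
    exact contDiff_pi.1 h1 i
  · intro s x
    funext i
    have h1 : ∀ t : ℝ, HasDerivAt (fun t : ℝ => V (t * s, x) i) (s * D (t * s, x) i) t := by
      intro t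
      have e1 : HasDerivAt (fun t : ℝ => ((t * s, x) : ℝ × E3)) (s, 0) t := by
        have e2 : HasDerivAt (fun t : ℝ => t * s) s t := by
          simpa using (hasDerivAt_id t).mul_const s
        exact e2.prodMk (hasDerivAt_const t x)
      have e3 : HasFDerivAt V (fderiv ℝ V (t * s, x)) (t * s, x) :=
        (hV.differentiable (by simp)).differentiableAt.hasFDerivAt
      have e4 := e3.comp_hasDerivAt t e1
      have e5 : fderiv ℝ V (t * s, x) (s, 0) = s • D (t * s, x) := by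
        rw [hDd]
        change _ = s • fderiv ℝ V (t * s, x) (1, 0)
        rw [← map_smul]
        simp
      rw [e5] at e4
      exact (hasDerivAt_pi.1 e4) i
    have h2 : ∫ t in (0 : ℝ)..1, s * D (t * s, x) i = V (1 * s, x) i - V (0 * s, x) i := by
      refine intervalIntegral.integral_eq_sub_of_hasDerivAt (fun t _ => h1 t) ?_
      apply Continuous.intervalIntegrable
      have h3 : Continuous fun t : ℝ => D (t * s, x) :=
        hD.continuous.comp ((continuous_id.mul continuous_const).prodMk continuous_const)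
      exact continuous_const.mul ((continuous_apply i).comp h3)
    rw [intervalIntegral.integral_const_mul, one_mul, zero_mul, h0] at h2
    simp only [Pi.smul_apply, smul_eq_mul]
    rw [h2]
    simp

/-- estimates for smooth families with compact support which vanish for `s = 0` -/
theorem std_bd {V : ℝ × E3 → E3} (hV : ContDiff ℝ smo V) (h0 : ∀ x, V (0, x) = 0)
    {K : Set E3} (hK : IsCompact K) (hVK : ∀ s x, x ∉ K → V (s, x) = 0) (R : ℝ) :
    ∃ C : ℕ → ℝ, (∀ i, 0 ≤ C i) ∧ ∀ i s, |s| ≤ R → ∀ x,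
      ‖iteratedFDeriv ℝ i (fun y => V (s, y)) x‖ ≤ C i * |s| := by
  obtain ⟨W, hW, hVW⟩ := std_hadamard hV h0
  have key : ∀ i : ℕ, ∃ C : ℝ, 0 ≤ C ∧ ∀ p ∈ Icc (-R) R ×ˢ K, ‖iteratedFDeriv ℝ i W p‖ ≤ C := by
    intro i
    have hc : Continuous (iteratedFDeriv ℝ i W) :=
      hW.continuous_iteratedFDeriv (std_le i)
    obtain ⟨C, hC⟩ := (isCompact_Icc.prod hK).exists_bound_of_continuousOn
      (hc.continuousOn (s := Icc (-R) R ×ˢ K))
    exact ⟨max C 0, le_max_right _ _, fun p hp => (hC p hp).trans (le_max_left _ _)⟩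
  choose C hC0 hC using key
  refine ⟨C, hC0, fun i s hs x => ?_⟩
  by_cases hx : x ∈ K
  · have h1 : (fun y => V (s, y)) = s • fun y => W (s, y) := funext fun y => hVW s y
    have h2 : ContDiffAt ℝ (i : WithTop ℕ∞) (fun y => W (s, y)) x :=
      ((hW.comp (contDiff_const.prodMk contDiff_id)).of_le (std_le i)).contDiffAt
    rw [h1, iteratedFDeriv_const_smul_apply h2, norm_smul, Real.norm_eq_abs, mul_comm]
    refine mul_le_mul_of_nonneg_right ?_ (abs_nonneg s)
    exact (std_slice hW i s x).trans (hC i (s, x) ⟨abs_le.1 hs, hx⟩)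
  · have h1 : (fun y => V (s, y)) =ᶠ[𝓝 x] fun _ => 0 := by
      filter_upwards [hK.isClosed.isOpen_compl.mem_nhds hx] with y hy
      exact hVK s y hy
    have h2 := (h1.iteratedFDeriv ℝ i).eq_of_nhds
    rw [h2, iteratedFDeriv_fun_zero]
    simp only [Pi.zero_apply, norm_zero]
    exact mul_nonneg (hC0 i) (abs_nonneg s)

theorem std_det : ∃ η : ℝ, 0 < η ∧ η ≤ 1 / 2 ∧ ∀ A : E3 →L[ℝ] E3, ‖A‖ ≤ η →
    |(ContinuousLinearMap.id ℝ E3 + A).det - 1| ≤ 1 / 2 := by
  have hc : Continuous fun A : E3 →L[ℝ] E3 => (ContinuousLinearMap.id ℝ E3 + A).det :=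
    ContinuousLinearMap.continuous_det.comp (continuous_const.add continuous_id)
  obtain ⟨δ, hδ, h⟩ := Metric.continuous_iff.1 hc 0 (1 / 2) (by norm_num)
  refine ⟨min (δ / 2) (1 / 2), by positivity, min_le_right _ _, fun A hA => ?_⟩
  have h1 : dist A 0 < δ := by
    rw [dist_zero_right]
    have := hA.trans (min_le_left _ _)
    linarith
  have h2 := h A h1
  rw [Real.dist_eq] at h2
  have h3 : (ContinuousLinearMap.id ℝ E3 + 0).det = 1 := by
    rw [add_zero]
    exact LinearMap.det_id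
  rw [h3] at h2
  exact h2.le

theorem std_cut {δ : ℝ} (hδ : 0 < δ) : ∃ σ : ℝ → ℝ, ContDiff ℝ smo σ ∧ (∀ s, |σ s| ≤ δ) ∧
    ∀ s, |s| ≤ δ / 2 → σ s = s := by
  let f : ContDiffBump (0 : ℝ) := ⟨δ / 2, δ, by positivity, by linarith⟩
  refine ⟨fun s => f s * s, f.contDiff.mul contDiff_id, fun s => ?_, fun s hs => ?_⟩
  · rcases le_or_gt δ |s| with h | h
    · have h1 : f s = 0 := f.zero_of_le_dist (by
        rw [Real.dist_eq, sub_zero]
        exact h)
      change |f s * s| ≤ δ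
      rw [h1, zero_mul, abs_zero]
      exact hδ.le
    · change |f s * s| ≤ δ
      rw [abs_mul, abs_of_nonneg f.nonneg]
      calc f s * |s| ≤ 1 * δ := mul_le_mul f.le_one h.le (abs_nonneg s) zero_le_one
        _ = δ := one_mul δ
  · have h1 : f s = 1 := f.one_of_mem_closedBall (by
      rw [Metric.mem_closedBall, Real.dist_eq, sub_zero]
      exact hs)
    change f s * s = s
    rw [h1, one_mul]

/-- smooth families `x ↦ x + v (s, x)` -/
theorem std_family {v : ℝ × E3 → E3} (hv : ContDiff ℝ smo v) {L : Set E3} (hL : IsCompact L)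
    (hvL : ∀ s x, x ∉ L → v (s, x) = 0) (hD : ∀ s x, ‖fderiv ℝ (fun y => v (s, y)) x‖ ≤ 1 / 2) :
    ∃ F : ℝ → Equiv.Perm E3, Fam L F ∧ ∀ s x, F s x = x + v (s, x) := by
  have key : ∀ s : ℝ, ∃ f : Equiv.Perm E3, (∀ x, f x = x + v (s, x)) ∧
      (∀ x x', ‖x - x'‖ ≤ 2 * ‖f x - f x'‖) ∧ ∀ x, jac (fun y => f y) x ≠ 0 := fun s =>
    A1a (fun x => v (s, x)) (hv.comp (contDiff_const.prodMk contDiff_id)) (hD s)
  choose F hF hlow hjac using key
  have hsm : ContDiff ℝ smo (fun p : ℝ × E3 => F p.1 p.2) := by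
    have h1 : (fun p : ℝ × E3 => F p.1 p.2) = fun p : ℝ × E3 => p.2 + v p :=
      funext fun p => hF p.1 p.2
    rw [h1]
    exact contDiff_snd.add hv
  have hcs : Continuous (fun p : ℝ × E3 => (F p.1).symm p.2) := by
    rw [continuous_iff_continuousAt]
    rintro ⟨s0, y0⟩
    unfold ContinuousAt
    rw [tendsto_iff_norm_sub_tendsto_zero]
    have hc1 : Continuous (fun p : ℝ × E3 => 2 * ‖p.2 - F p.1 ((F s0).symm y0)‖) := by
      have h2 : Continuous (fun p : ℝ × E3 => F p.1 ((F s0).symm y0)) :=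
        hsm.continuous.comp (continuous_fst.prodMk continuous_const)
      exact continuous_const.mul (continuous_snd.sub h2).norm
    have h3 : Tendsto (fun p : ℝ × E3 => 2 * ‖p.2 - F p.1 ((F s0).symm y0)‖) (𝓝 (s0, y0))
        (𝓝 0) := by
      have h4 := hc1.tendsto (s0, y0)
      simpa using h4
    refine squeeze_zero (fun _ => norm_nonneg _) (fun p => ?_) h3
    have h5 := hlow p.1 ((F p.1).symm p.2) ((F s0).symm y0)
    rw [Equiv.apply_symm_apply] at h5
    exact h5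
  refine ⟨F, ⟨hsm, symm_smooth F hsm hjac hcs, L, subset_rfl, hL, fun s x hx => ?_⟩, hF⟩
  rw [hF, hvL s x hx, add_zero]

/-- The centre of the boxes. -/
def std_c : E3 := ![0, 0, 7]

theorem std_B1 : B1 ⊆ Icc (fun i => std_c i - 3) (fun i => std_c i + 3) := by
  rintro x ⟨h0, h1, h2⟩
  rw [abs_le] at h0 h1 h2
  constructor
  · intro i
    fin_cases i <;> simp [std_c] <;> linarith [h0.1, h1.1, h2.1]
  · intro i
    fin_cases i <;> simp [std_c] <;> linarith [h0.2, h1.2, h2.2]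

theorem std_B2 : Box (fun i => std_c i - 4) (fun i => std_c i + 4) ⊆ B2 := by
  intro x hx
  have h0 := hx 0
  have h1 := hx 1
  have h2 := hx 2
  simp [std_c] at h0 h1 h2
  refine ⟨abs_le.2 ⟨?_, ?_⟩, abs_le.2 ⟨?_, ?_⟩, abs_le.2 ⟨?_, ?_⟩⟩ <;> linarith

/-- The main lemma. -/
theorem std_fam {a : ℝ × E3 → E3} (ha : ContDiff ℝ smo a) (h0 : ∀ x, a (0, x) = 0)
    (h1 : ∀ s x, jac (fun y => y + a (s, y)) x = 1) :
    ∃ (g0 : ℝ) (C : ℕ → ℝ) (T : ℝ → Equiv.Perm E3), 0 < g0 ∧ (∀ i, 0 ≤ C i) ∧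
      ∀ s, 0 < s → s ≤ g0 → Ok B2 (T s) ∧
        (∀ i x, ‖iteratedFDeriv ℝ i (disp (T s)) x‖ ≤ C i * s) ∧
        ∀ x ∈ B1, T s x = x + a (s, x) := by
  classical
  obtain ⟨η, hη, hη2, hdet⟩ := std_det
  obtain ⟨χ, hχ, -, ⟨W, hWo, hKW, hW1⟩, L, hL, hLU, hL0⟩ :=
    exists_bump (Box (fun i => std_c i - 4) (fun i => std_c i + 4))
      (Icc (fun i => std_c i - 3) (fun i => std_c i + 3)) (isOpen_Box _ _) isCompact_Icc
      (Icc_subset_Box _ _ _ _ (fun i => by linarith) (fun i => by linarith))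
  -- the cut off displacement
  have hw : ContDiff ℝ smo fun p : ℝ × E3 => χ p.2 • a p := (hχ.comp contDiff_snd).smul ha
  have hw0 : ∀ x, (fun p : ℝ × E3 => χ p.2 • a p) (0, x) = 0 := fun x => by
    change χ x • a (0, x) = 0
    rw [h0, smul_zero]
  have hwL : ∀ s x, x ∉ L → (fun p : ℝ × E3 => χ p.2 • a p) (s, x) = 0 := fun s x hx => by
    change χ x • a (s, x) = 0
    rw [hL0 x hx, zero_smul]
  obtain ⟨C1, hC1, hC1b⟩ := std_bd hw hw0 hL hwL 1
  obtain ⟨δ, hδ, hδ1, hδ2⟩ : ∃ δ : ℝ, 0 < δ ∧ δ ≤ 1 ∧ C1 1 * δ ≤ η := by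
    refine ⟨min 1 (η / (C1 1 + 1)), ?_, min_le_left _ _, ?_⟩
    · have := hC1 1
      positivity
    · have h2 := hC1 1
      have h3 : (0 : ℝ) < C1 1 + 1 := by linarith
      calc C1 1 * min 1 (η / (C1 1 + 1)) ≤ (C1 1 + 1) * (η / (C1 1 + 1)) :=
            mul_le_mul (by linarith) (min_le_right _ _) (by positivity) h3.le
        _ = η := by field_simp
  obtain ⟨σ, hσ, hσδ, hσ1⟩ := std_cut hδ
  obtain ⟨v, hvd⟩ : ∃ v : ℝ × E3 → E3, v = fun p => χ p.2 • a (σ p.1, p.2) := ⟨_, rfl⟩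
  have hvs : ContDiff ℝ smo v := by
    rw [hvd]
    exact (hχ.comp contDiff_snd).smul (ha.comp ((hσ.comp contDiff_fst).prodMk contDiff_snd))
  have hvL : ∀ s x, x ∉ L → v (s, x) = 0 := fun s x hx => by
    rw [hvd]
    exact hwL (σ s) x hx
  have hvD : ∀ s x, ‖fderiv ℝ (fun y => v (s, y)) x‖ ≤ η := by
    intro s x
    have h2 := hC1b 1 (σ s) ((hσδ s).trans hδ1) x
    rw [norm_iteratedFDeriv_one] at h2
    rw [hvd]
    refine h2.trans ((mul_le_mul_of_nonneg_left (hσδ s) (hC1 1)).trans hδ2)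
  obtain ⟨F, hF, hFv⟩ := std_family hvs hL hvL fun s x => (hvD s x).trans hη2
  -- the Jacobian
  have hJ : ContDiff ℝ smo fun p : ℝ × E3 => jac (fun y => F p.1 y) p.2 := hF.contDiff_jac
  have hJb : ∀ s x, |jac (fun y => F s y) x - 1| ≤ 1 / 2 := by
    intro s x
    have e1 : (fun y => F s y) = fun y => y + v (s, y) := funext fun y => hFv s y
    have e2 : HasFDerivAt (fun y => y + v (s, y))
        (ContinuousLinearMap.id ℝ E3 + fderiv ℝ (fun y => v (s, y)) x) x :=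
      (hasFDerivAt_id x).add
        ((hvs.comp (contDiff_const.prodMk contDiff_id)).differentiable
          (by simp)).differentiableAt.hasFDerivAt
    rw [e1, jac, e2.fderiv]
    exact hdet _ (hvD s x)
  have hIdL : ∀ s, IdOff L (F s) := fun s x hx => by rw [hFv, hvL s x hx, add_zero]
  have hJ1 : ∀ s x, x ∉ L \ W → jac (fun y => F s y) x = 1 := by
    intro s x hx
    by_cases hxL : x ∈ L
    · have hxW : x ∈ W := by
        by_contra h
        exact hx ⟨hxL, h⟩
      rw [← h1 (σ s) x]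
      refine jac_congr _ _ x ?_
      filter_upwards [hWo.mem_nhds hxW] with y hy
      rw [hFv, hvd]
      change y + χ y • a (σ s, y) = _
      rw [hW1 y hy, one_smul]
    · exact (hIdL s).jac_eq_one hL.isClosed x hxL
  have hUc : IsConnected (Box (fun i => std_c i - 4) (fun i => std_c i + 4) \
      Icc (fun i => std_c i - 3) (fun i => std_c i + 3)) :=
    isConnected_Box_diff_Icc _ _ _ _ (fun i => by linarith) (fun i => by linarith)
      (fun i => by linarith)
  obtain ⟨m, hm, hmJ, hm1⟩ := A3 _ ((isOpen_Box _ _).sdiff isClosed_Icc) hUc (L \ W)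
    (hL.diff hWo) (fun x hx => ⟨hLU hx.1, fun h => hx.2 (hKW h)⟩)
    (fun p => jac (fun y => F p.1 y) p.2) (fun _ => 1) hJ contDiff_const (1 / 2) (by norm_num)
    (fun p => by
      have := abs_le.1 (hJb p.1 p.2)
      linarith [this.1]) (fun _ => by norm_num) (fun s x hx => hJ1 s x hx) (1 / 2)
    (fun p => hJb p.1 p.2) (fun s => integral_jac_sub_one (hF.isDif s) L hL (hIdL s))
  obtain ⟨Km, hKm, hKmc, hmoff⟩ := hm.supp
  have hFB : Fam B2 F := hF.mono (hLU.trans std_B2)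
  have hmB : Fam B2 m := hm.mono (sdiff_subset.trans std_B2)
  have hT : Fam B2 fun s => F s * m s := hFB.mul hmB
  have hF0 : F 0 = 1 := by
    ext1 x
    have hs : σ 0 = 0 := hσ1 0 (by rw [abs_zero]; positivity)
    rw [hFv, hvd]
    change x + χ x • a (σ 0, x) = x
    rw [hs, h0, smul_zero, add_zero]
  have hm0 : m 0 = 1 := hm1 0 fun x => by
    rw [hF0]
    exact jac_id x
  have hvol : ∀ s, Vol (F s * m s) := fun s x => by
    rw [(hF.isDif s).jac_mul (hm.isDif s)]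
    exact hmJ s x
  have hoff : ∀ s, IdOff B2 (F s * m s) := fun s =>
    ((hIdL s).mono (hLU.trans std_B2)).mul
      ((hmoff s).mono (hKm.trans (sdiff_subset.trans std_B2)))
  have hB2 : IsCompact B2 := by
    refine (isCompact_Icc (a := fun i => std_c i - 4) (b := fun i => std_c i + 4)).of_isClosed_subset
      ?_ ?_
    · have e1 : B2 = {x : E3 | |x 0| ≤ 4} ∩ ({x : E3 | |x 1| ≤ 4} ∩ {x : E3 | |x 2 - 7| ≤ 4}) := rfl
      rw [e1]
      exact (isClosed_le (continuous_apply 0).abs continuous_const).inter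
        ((isClosed_le (continuous_apply 1).abs continuous_const).inter
          (isClosed_le ((continuous_apply 2).sub continuous_const).abs continuous_const))
    · rintro x ⟨h0, h1, h2⟩
      rw [abs_le] at h0 h1 h2
      constructor
      · intro i
        fin_cases i <;> simp [std_c] <;> linarith [h0.1, h1.1, h2.1]
      · intro i
        fin_cases i <;> simp [std_c] <;> linarith [h0.2, h1.2, h2.2]
  obtain ⟨C, hC, hCb⟩ := std_bd (V := fun p : ℝ × E3 => (F p.1 * m p.1) p.2 - p.2)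
    (hT.smooth.sub contDiff_snd) (fun x => by
      change (F 0 * m 0) x - x = 0
      rw [hF0, hm0, mul_one, Equiv.Perm.one_apply, sub_self]) hB2
    (fun s x hx => by
      change (F s * m s) x - x = 0
      rw [hoff s x hx, sub_self]) (δ / 2)
  refine ⟨δ / 2, C, fun s => F s * m s, by positivity, hC, fun s hs hsg => ⟨⟨hT.isDif s, hvol s,
    hoff s⟩, fun i x => ?_, fun x hx => ?_⟩⟩
  · have h2 := hCb i s (by rw [abs_of_pos hs]; exact hsg) x
    rw [abs_of_pos hs] at h2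
    exact h2
  · have hx2 := std_B1 hx
    have e1 : m s x = x := hmoff s x fun h => (hKm h).2 hx2
    change F s (m s x) = _
    rw [e1, hFv, hvd]
    change x + χ x • a (σ s, x) = _
    rw [hW1 x (hKW hx2), one_smul, hσ1 s (by rw [abs_of_pos hs]; exact hsg)]

theorem std_jac_diag (d c : E3) (x : E3) : jac (fun y i => d i + c i * y i) x = ∏ i, c i := by
  have h1 : HasFDerivAt (fun (y : E3) (i : Fin 3) => d i + c i * y i)
      (ContinuousLinearMap.pi fun i => c i • (ContinuousLinearMap.proj i : E3 →L[ℝ] ℝ)) x := by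
    rw [hasFDerivAt_pi]
    intro i
    exact (((ContinuousLinearMap.proj i : E3 →L[ℝ] ℝ).hasFDerivAt).const_mul (c i)).const_add _
  rw [jac, h1.fderiv]
  have h2 : ((ContinuousLinearMap.pi fun i => c i • (ContinuousLinearMap.proj i : E3 →L[ℝ] ℝ) :
      E3 →L[ℝ] E3) : E3 →ₗ[ℝ] E3) = Matrix.toLin' (Matrix.diagonal c) := by
    apply LinearMap.ext
    intro v
    funext i
    simp [Matrix.mulVec_diagonal]
  change LinearMap.det _ = _
  rw [h2, LinearMap.det_toLin', Matrix.det_diagonal]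

/-- translations -/
theorem std_tr (l : Fin 3) : ∃ (g0 : ℝ) (C : ℕ → ℝ) (T : ℝ → Equiv.Perm E3), 0 < g0 ∧
    (∀ i, 0 ≤ C i) ∧ ∀ s, 0 < s → s ≤ g0 → Ok B2 (T s) ∧
      (∀ i x, ‖iteratedFDeriv ℝ i (disp (T s)) x‖ ≤ C i * s) ∧
      ∀ x ∈ B1, T s x = x + s • ev l := by
  refine std_fam (a := fun p : ℝ × E3 => p.1 • ev l) (contDiff_fst.smul contDiff_const)
    (fun x => zero_smul ℝ _) fun s x => ?_
  change jac (fun y => y + s • ev l) x = 1
  rw [jac, fderiv_add_const]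
  exact jac_id x

/-- the diagonal maps -/
theorem std_dg : ∃ (g0 : ℝ) (C : ℕ → ℝ) (T : ℝ → Equiv.Perm E3), 0 < g0 ∧
    (∀ i, 0 ≤ C i) ∧ ∀ s, 0 < s → s ≤ g0 → Ok B2 (T s) ∧
      (∀ i x, ‖iteratedFDeriv ℝ i (disp (T s)) x‖ ≤ C i * s) ∧
      ∀ x ∈ B1, T s x = Md (1 + s) x := by
  obtain ⟨σ, hσ, hσδ, hσ1⟩ := std_cut (δ := 1 / 2) (by norm_num)
  have hpos : ∀ s, 0 < 1 + σ s := fun s => by
    have := abs_le.1 (hσδ s)
    linarith [this.1]
  have hμ : ContDiff ℝ smo fun p : ℝ × E3 => 1 + σ p.1 := contDiff_const.add (hσ.comp contDiff_fst)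
  have hμi : ContDiff ℝ smo fun p : ℝ × E3 => ((1 + σ p.1) ^ 2)⁻¹ :=
    (hμ.pow 2).inv fun p => (pow_pos (hpos p.1) 2).ne'
  have hap : ∀ i : Fin 3, ContDiff ℝ smo fun p : ℝ × E3 => p.2 i := fun i =>
    (contDiff_apply ℝ ℝ i).comp contDiff_snd
  have hMd : ContDiff ℝ smo fun p : ℝ × E3 => Md (1 + σ p.1) p.2 := by
    rw [contDiff_pi]
    intro i
    fin_cases i
    · exact hμ.mul (hap 0)
    · exact hμ.mul (hap 1)
    · exact contDiff_const.add (hμi.mul ((hap 2).sub contDiff_const))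
  obtain ⟨g0, C, T, hg0, hC, h⟩ := std_fam (a := fun p : ℝ × E3 => Md (1 + σ p.1) p.2 - p.2)
    (hMd.sub contDiff_snd) (fun x => by
      change Md (1 + σ 0) x - x = 0
      rw [hσ1 0 (by norm_num), add_zero, sub_eq_zero]
      funext i
      fin_cases i <;> simp [Md]) (fun s x => by
      have e1 : (fun y : E3 => y + (Md (1 + σ s) y - y)) = fun y i =>
          (![0, 0, 7 - ((1 + σ s) ^ 2)⁻¹ * 7] : E3) i +
            (![1 + σ s, 1 + σ s, ((1 + σ s) ^ 2)⁻¹] : E3) i * y i := by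
        funext y i
        rw [add_sub_cancel]
        fin_cases i
        · simp [Md]
        · simp [Md]
        · simp [Md]
          ring
      change jac (fun y : E3 => y + (Md (1 + σ s) y - y)) x = 1
      rw [e1, std_jac_diag, Fin.prod_univ_three]
      have h2 := (hpos s).ne'
      simp
      field_simp)
  refine ⟨min g0 (1 / 4), C, T, by positivity, hC, fun s hs hsg => ?_⟩
  obtain ⟨k1, k2, k3⟩ := h s hs (hsg.trans (min_le_left _ _))
  refine ⟨k1, k2, fun x hx => ?_⟩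
  rw [k3 x hx]
  change x + (Md (1 + σ s) x - x) = _
  rw [add_sub_cancel, hσ1 s]
  rw [abs_of_pos hs]
  have := hsg.trans (min_le_right _ _)
  linarith

theorem exists_std : Nonempty Std := by
  choose g C T hg hC h using std_tr
  obtain ⟨g', C', T', hg', hC', h'⟩ := std_dg
  have hT : ∀ γ, 0 < γ → γ ≤ min (min (g 0) (g 1)) (min (g 2) g') → ∀ l : Fin 4,
      Ok B2 ((![T 0 γ, T 1 γ, T 2 γ, T' γ] : Fin 4 → Equiv.Perm E3) l) ∧ ∀ i x,
        ‖iteratedFDeriv ℝ i (disp ((![T 0 γ, T 1 γ, T 2 γ, T' γ] : Fin 4 → Equiv.Perm E3) l)) x‖ ≤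
          (C 0 i + C 1 i + C 2 i + C' i) * γ := by
    intro γ h0 h1 l
    have a0 := h 0 γ h0 (h1.trans ((min_le_left _ _).trans (min_le_left _ _)))
    have a1 := h 1 γ h0 (h1.trans ((min_le_left _ _).trans (min_le_right _ _)))
    have a2 := h 2 γ h0 (h1.trans ((min_le_right _ _).trans (min_le_left _ _)))
    have a3 := h' γ h0 (h1.trans ((min_le_right _ _).trans (min_le_right _ _)))
    fin_cases l
    · refine ⟨a0.1, fun i x => (a0.2.1 i x).trans (mul_le_mul_of_nonneg_right ?_ h0.le)⟩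
      linarith [hC 0 i, hC 1 i, hC 2 i, hC' i]
    · refine ⟨a1.1, fun i x => (a1.2.1 i x).trans (mul_le_mul_of_nonneg_right ?_ h0.le)⟩
      linarith [hC 0 i, hC 1 i, hC 2 i, hC' i]
    · refine ⟨a2.1, fun i x => (a2.2.1 i x).trans (mul_le_mul_of_nonneg_right ?_ h0.le)⟩
      linarith [hC 0 i, hC 1 i, hC 2 i, hC' i]
    · refine ⟨a3.1, fun i x => (a3.2.1 i x).trans (mul_le_mul_of_nonneg_right ?_ h0.le)⟩
      linarith [hC 0 i, hC 1 i, hC 2 i, hC' i]
  exact ⟨{
    g0 := min (min (g 0) (g 1)) (min (g 2) g')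
    pos := lt_min (lt_min (hg 0) (hg 1)) (lt_min (hg 2) hg')
    C := fun i => C 0 i + C 1 i + C 2 i + C' i
    T := fun γ => ![T 0 γ, T 1 γ, T 2 γ, T' γ]
    ok := fun γ h0 h1 l => (hT γ h0 h1 l).1
    bd := fun γ h0 h1 l i x => (hT γ h0 h1 l).2 i x
    tr0 := fun γ h0 h1 x hx =>
      (h 0 γ h0 (h1.trans ((min_le_left _ _).trans (min_le_left _ _)))).2.2 x hx
    tr1 := fun γ h0 h1 x hx =>
      (h 1 γ h0 (h1.trans ((min_le_left _ _).trans (min_le_right _ _)))).2.2 x hx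
    tr2 := fun γ h0 h1 x hx =>
      (h 2 γ h0 (h1.trans ((min_le_right _ _).trans (min_le_left _ _)))).2.2 x hx
    dg := fun γ h0 h1 x hx =>
      (h' γ h0 (h1.trans ((min_le_right _ _).trans (min_le_right _ _)))).2.2 x hx }⟩

end Pool.Agent.QM59
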