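import Pool.Agent.Lib.MP_decea1_gt_C.Frg
import Pool.Agent.Lib.MP_decea1_gt_C.Hnd
import Pool.Agent.Lib.MP_decea1_gt_C.Std

/-!
# MP_decea1_gt (S14098), block C: existence of the data of C2.6 and C3

`exists_frag`, `exists_hand`, `exists_std` are in `Frg`, `Hnd`, `Std`.
-/
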