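import Mathlib
import Pool.Agent.Lib.MP_decea1_gt_C.CDefs

/-!
# MP_decea1_gt, block C, module NNx: the scales `N_n` of the iteration and rules for `Bd`
-/

set_option autoImplicit false

open MeasureTheory Set Filter

namespace Pool.Agent.QM59

/-- the scales `N_n`, `N_{n+1} = N_n ^ (3/2)` -/
noncomputable def NN (N0 : ℝ) (n : ℕ) : ℝ := N0 ^ ((3 / 2 : ℝ) ^ n)

theorem NN_zero (N0 : ℝ) : NN N0 0 = N0 := by
  unfold NN
  rw [pow_zero, Real.rpow_one]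

/-- `Real.rpow_mul`, `pow_succ`. -/
theorem NN_succ {N0 : ℝ} (h : 1 ≤ N0) (n : ℕ) : NN N0 (n + 1) = NN N0 n ^ (3 / 2 : ℝ) := by
  unfold NN
  rw [← Real.rpow_mul (by linarith), pow_succ]

theorem le_NN {N0 : ℝ} (h : 1 ≤ N0) (n : ℕ) : N0 ≤ NN N0 n := by
  have h1 : (1 : ℝ) ≤ (3 / 2 : ℝ) ^ n := one_le_pow₀ (by norm_num)
  calc N0 = N0 ^ (1 : ℝ) := (Real.rpow_one N0).symm
    _ ≤ N0 ^ ((3 / 2 : ℝ) ^ n) := Real.rpow_le_rpow_of_exponent_le h h1

theorem NN_mono {N0 : ℝ} (h : 1 ≤ N0) : Monotone (NN N0) := by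
  intro m n hmn
  exact Real.rpow_le_rpow_of_exponent_le h (pow_le_pow_right₀ (by norm_num) hmn)

theorem one_le_NN {N0 : ℝ} (h : 1 ≤ N0) (n : ℕ) : 1 ≤ NN N0 n := h.trans (le_NN h n)

/-- `(3/2)^n → ∞` and `N0 > 1`. -/
theorem tendsto_NN {N0 : ℝ} (h : 1 < N0) : Tendsto (NN N0) atTop atTop := by
  exact (tendsto_rpow_atTop_of_base_gt_one N0 h).comp
    (tendsto_pow_atTop_atTop_of_one_lt (by norm_num))

/-- `8 ^ (n + 149) ≤ 8 ^ (149 * (1 + n / 2)) ≤ 8 ^ (149 * (3/2)^n) ≤ N0 ^ ((3/2)^n / 8)` by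
Bernoulli `1 + n / 2 ≤ (3/2)^n`. -/
theorem eight_pow_le {N0 : ℝ} (h : (8 : ℝ) ^ (8 * 149) ≤ N0) (n : ℕ) :
    (8 : ℝ) ^ (n + 149) ≤ NN N0 n ^ (1 / 8 : ℝ) := by
  have h8 : (1 : ℝ) ≤ 8 := by norm_num
  have hb : 1 + (n : ℝ) * (1 / 2) ≤ (3 / 2 : ℝ) ^ n := by
    have h1 := one_add_mul_le_pow (a := (1 / 2 : ℝ)) (by norm_num) n
    have h2 : (1 + 1 / 2 : ℝ) = 3 / 2 := by norm_num
    rwa [h2] at h1
  have hn : (0 : ℝ) ≤ n := Nat.cast_nonneg n
  have h0 : (0 : ℝ) ≤ 8 ^ (8 * 149) := by positivity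
  calc (8 : ℝ) ^ (n + 149) = (8 : ℝ) ^ (((n + 149 : ℕ) : ℝ)) := (Real.rpow_natCast _ _).symm
    _ ≤ (8 : ℝ) ^ (((8 * 149 : ℕ) : ℝ) * ((3 / 2 : ℝ) ^ n * (1 / 8))) := by
        refine Real.rpow_le_rpow_of_exponent_le h8 ?_
        push_cast
        linarith
    _ = ((8 : ℝ) ^ (8 * 149)) ^ ((3 / 2 : ℝ) ^ n * (1 / 8)) := by
        rw [Real.rpow_mul (by norm_num), Real.rpow_natCast]
    _ ≤ N0 ^ ((3 / 2 : ℝ) ^ n * (1 / 8)) := Real.rpow_le_rpow h0 h (by positivity)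
    _ = NN N0 n ^ (1 / 8 : ℝ) := by
        unfold NN
        rw [← Real.rpow_mul (h0.trans h)]

/-- `4 ^ (n * i) ≤ N_n` for large `n`, because `N_n ≥ 4 ^ ((3/2)^n)` and `(3/2)^n ≥ n * i` for
large `n` (for instance `(3/2)^n / n → ∞`, `tendsto_pow_const_div_const_pow_of_one_lt`). -/
theorem four_pow_le {N0 : ℝ} (h : 4 ≤ N0) (i : ℕ) : ∃ n0, ∀ n ≥ n0,
    (4 : ℝ) ^ (n * i) ≤ NN N0 n := by
  have h1 : Tendsto (fun n : ℕ => (n : ℝ) ^ 1 / (3 / 2 : ℝ) ^ n) atTop (nhds 0) :=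
    tendsto_pow_const_div_const_pow_of_one_lt 1 (by norm_num)
  have hi : (0 : ℝ) < ((i : ℝ) + 1)⁻¹ := by positivity
  obtain ⟨n0, hn0⟩ := eventually_atTop.1 (h1.eventually_lt_const hi)
  refine ⟨n0, fun n hn => ?_⟩
  have h2 := hn0 n hn
  have h3 : (0 : ℝ) < (3 / 2 : ℝ) ^ n := by positivity
  have h4 : (0 : ℝ) < (i : ℝ) + 1 := by positivity
  rw [pow_one, div_lt_iff₀ h3, inv_mul_eq_div, lt_div_iff₀ h4] at h2
  have hn' : (0 : ℝ) ≤ n := Nat.cast_nonneg n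
  have h5 : ((n * i : ℕ) : ℝ) ≤ (3 / 2 : ℝ) ^ n := by
    push_cast
    linarith
  calc (4 : ℝ) ^ (n * i) = (4 : ℝ) ^ (((n * i : ℕ) : ℝ)) := (Real.rpow_natCast _ _).symm
    _ ≤ (4 : ℝ) ^ ((3 / 2 : ℝ) ^ n) := Real.rpow_le_rpow_of_exponent_le (by norm_num) h5
    _ ≤ N0 ^ ((3 / 2 : ℝ) ^ n) := Real.rpow_le_rpow (by norm_num) h h3.le

section

variable {V W : Type*} [NormedAddCommGroup V] [NormedSpace ℝ V] [NormedAddCommGroup W]
  [NormedSpace ℝ W]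

theorem Bd.mono_c {K : ℕ} {N η c c' : ℝ} {v : V → W} (h : Bd K N η c v) (hN : 0 ≤ N)
    (hc : c ≤ c') : Bd K N η c' v := by
  have h1 : ∀ i : ℕ, c * N ^ i ≤ c' * N ^ i := fun i =>
    mul_le_mul_of_nonneg_right hc (pow_nonneg hN i)
  exact ⟨fun i hi x => (h.1 i hi x).trans (h1 i), fun x => (h.2 x).trans (h1 K)⟩

/-- smaller weight -/
theorem Bd.mono_eta {K : ℕ} {N η η' c : ℝ} {v : V → W} (h : Bd K N η c v) (hη : η' ≤ η) :
    Bd K N η' c v := by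
  exact ⟨h.1, fun x => (mul_le_mul_of_nonneg_right hη (norm_nonneg _)).trans (h.2 x)⟩

/-- fewer derivatives; the level `K' < K` has no weight in the hypothesis. -/
theorem Bd.mono_K {K K' : ℕ} {N η c : ℝ} {v : V → W} (h : Bd K N η c v) (hK : K' ≤ K)
    (hη : η ≤ 1) : Bd K' N η c v := by
  rcases Nat.lt_or_ge K' K with h1 | h1
  · refine ⟨fun i hi x => h.1 i (hi.trans h1) x, fun x => ?_⟩
    refine (mul_le_mul_of_nonneg_right hη (norm_nonneg _)).trans ?_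
    rw [one_mul]
    exact h.1 K' h1 x
  · obtain rfl := le_antisymm hK h1
    exact h

/-- From the levels `≤ K` without weight and the level `K + 1` with weight. -/
theorem Bd.extend {K : ℕ} {N η c : ℝ} {v : V → W} (h : Bd K N 1 c v)
    (h1 : ∀ x, η * ‖iteratedFDeriv ℝ (K + 1) v x‖ ≤ c * N ^ (K + 1)) :
    Bd (K + 1) N η c v := by
  refine ⟨fun i hi x => ?_, h1⟩
  rcases Nat.lt_or_ge i K with h2 | h2
  · exact h.1 i h2 x
  · obtain rfl : i = K := by omega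
    have h3 := h.2 x
    rwa [one_mul] at h3

/-- Removing the weight costs the factor `η⁻¹` at the top level. -/
theorem Bd.unweight {K : ℕ} {N η c c' : ℝ} {v : V → W} (h : Bd K N η c v) (hN : 0 ≤ N)
    (hη : 0 < η) (hη1 : η ≤ 1) (hc : 0 ≤ c) (hcc : η⁻¹ * c ≤ c') : Bd K N 1 c' v := by
  have h1 : (1 : ℝ) ≤ η⁻¹ := (one_le_inv₀ hη).2 hη1
  have h2 : c ≤ c' := by
    refine le_trans ?_ hcc
    exact le_mul_of_one_le_left hc h1
  refine ⟨fun i hi x => (h.1 i hi x).trans (mul_le_mul_of_nonneg_right h2 (pow_nonneg hN i)),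
    fun x => ?_⟩
  rw [one_mul]
  have h3 : η⁻¹ * (η * ‖iteratedFDeriv ℝ K v x‖) ≤ η⁻¹ * (c * N ^ K) :=
    mul_le_mul_of_nonneg_left (h.2 x) (by positivity)
  rw [← mul_assoc, inv_mul_cancel₀ hη.ne', one_mul, ← mul_assoc] at h3
  exact h3.trans (mul_le_mul_of_nonneg_right hcc (pow_nonneg hN K))

/-- all levels `i ≤ K` when the weight is `1` -/
theorem Bd.level {K : ℕ} {N c : ℝ} {v : V → W} (h : Bd K N 1 c v) {i : ℕ} (hi : i ≤ K) (x : V) :
    ‖iteratedFDeriv ℝ i v x‖ ≤ c * N ^ i := by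
  rcases Nat.lt_or_ge i K with h2 | h2
  · exact h.1 i h2 x
  · obtain rfl := le_antisymm hi h2
    have h3 := h.2 x
    rwa [one_mul] at h3

end

/-- The displacement of a map with compact support has bounded derivatives: `iteratedFDeriv` is
continuous, and it is zero off the closed set `B2`. -/
theorem exists_bound_disp {f : Equiv.Perm E3} (hf : Ok B2 f) (i : ℕ) :
    ∃ C : ℝ, 0 ≤ C ∧ ∀ x, ‖iteratedFDeriv ℝ i (disp f) x‖ ≤ C := by
  have hcomp : IsCompact B2 := by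
    refine (isCompact_closedBall (0 : E3) 11).of_isClosed_subset ?_ ?_
    · have h0 : IsClosed {x : E3 | |x 0| ≤ 4} :=
        isClosed_le (by fun_prop) continuous_const
      have h1 : IsClosed {x : E3 | |x 1| ≤ 4} :=
        isClosed_le (by fun_prop) continuous_const
      have h2 : IsClosed {x : E3 | |x 2 - 7| ≤ 4} :=
        isClosed_le (by fun_prop) continuous_const
      exact h0.inter (h1.inter h2)
    · rintro x ⟨h0, h1, h2⟩
      rw [mem_closedBall_zero_iff, pi_norm_le_iff_of_nonneg (by norm_num)]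
      have h3 : |x 2| ≤ 11 := by
        have h4 := abs_le.1 h2
        exact abs_le.2 ⟨by linarith [h4.1], by linarith [h4.2]⟩
      intro j
      rw [Real.norm_eq_abs]
      fin_cases j
      · exact h0.trans (by norm_num)
      · exact h1.trans (by norm_num)
      · exact h3
  have hsupp : HasCompactSupport (disp f) := HasCompactSupport.intro hcomp fun x hx => by
    unfold disp
    rw [hf.off x hx, sub_self]
  have hsm : ContDiff ℝ smo (disp f) := hf.dif.1.sub contDiff_id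
  have hle : ((i : ℕ∞) : WithTop ℕ∞) ≤ smo := by
    exact_mod_cast (le_top : (i : ℕ∞) ≤ ⊤)
  have hcont : Continuous (iteratedFDeriv ℝ i (disp f)) := hsm.continuous_iteratedFDeriv hle
  obtain ⟨C, hC⟩ := (hsupp.iteratedFDeriv i).exists_bound_of_continuous hcont
  exact ⟨|C|, abs_nonneg C, fun x => (hC x).trans (le_abs_self C)⟩

end Pool.Agent.QM59
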