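import Pool.Agent.Lib.MP_decea1_gt_C.GEst
import Pool.Agent.Lib.MP_decea1_gt_C.NNx

/-!
# MP_decea1_gt, block C, C2.3: expansion of products of maps `G_w`

Scale `M`, `|D^i w| ≤ δ M^i` for `i ≤ K + 3`, `M² δ` small. With `α⁻¹ = id + w1`,
`w1 = - (0, w_x, 0) ∘ α⁻¹`: `disp G_w - X_w = -[(0,w_x,0) ∘ α⁻¹ - (0,w_x,0)]
+ [(w_y,0,0) ∘ α⁻¹ - (w_y,0,0)]`; `scE3` (`θ = C M δ`, `a = C M δ`, result `C M δ M M δ`).
`disp G⁻¹ + X_w`: `disp G⁻¹ = - disp G ∘ (id + disp G⁻¹)`.
Product: `disp (G R) = disp R + disp G + [disp G ∘ (id + disp R) - disp G]`, `scE3` with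
`U = disp G` (levels up to `K + 1`), so there is no accumulation of lost derivatives.
-/

set_option autoImplicit false

open MeasureTheory Set

namespace Pool.Agent.QM59

/-- `X_w = (w_y, - w_x, 0)` -/
noncomputable def ham (w : E3 → ℝ) (x : E3) : E3 := pd 1 w x • ev 0 - pd 0 w x • ev 1

/-- `G_w` or `G_w⁻¹` -/
noncomputable def gsn (p : Bool × (E3 → ℝ)) : Equiv.Perm E3 := if p.1 then Gp p.2 else (Gp p.2)⁻¹

noncomputable def xsn (p : Bool × (E3 → ℝ)) (x : E3) : E3 := if p.1 then ham p.2 x else - ham p.2 x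

private theorem exp_le_smo (i : ℕ) : ((i : ℕ∞) : WithTop ℕ∞) ≤ smo := by
  exact_mod_cast (le_top : (i : ℕ∞) ≤ ⊤)

private theorem exp_norm_ev (j : Fin 3) : ‖ev j‖ ≤ 1 := by
  unfold ev
  rw [pi_norm_le_iff_of_nonneg zero_le_one]
  intro i
  by_cases h : i = j
  · subst h; simp
  · simp [h]

/-- a linear map applied to the derivative -/
private theorem exp_lin {W : Type} [NormedAddCommGroup W] [NormedSpace ℝ W]
    (L : (E3 →L[ℝ] ℝ) →L[ℝ] W) {w : E3 → ℝ} (hw : ContDiff ℝ smo w) {m : ℕ} {M δ : ℝ}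
    (h : ∀ i ≤ m + 1, ∀ x, ‖iteratedFDeriv ℝ i w x‖ ≤ δ * M ^ i) :
    ∀ i ≤ m, ∀ x, ‖iteratedFDeriv ℝ i (fun y => L (fderiv ℝ w y)) x‖ ≤
      ‖L‖ * (δ * M) * M ^ i := by
  intro i hi x
  have hd : ContDiff ℝ smo (fderiv ℝ w) := hw.fderiv_right (m := smo) (by
    exact le_of_eq (by rfl))
  have h1 : iteratedFDeriv ℝ i (fun y => L (fderiv ℝ w y)) x =
      L.compContinuousMultilinearMap (iteratedFDeriv ℝ i (fderiv ℝ w) x) :=
    L.iteratedFDeriv_comp_left (hd.contDiffAt) (exp_le_smo i)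
  rw [h1]
  refine (L.norm_compContinuousMultilinearMap_le _).trans ?_
  rw [norm_iteratedFDeriv_fderiv]
  have h2 := h (i + 1) (by omega) x
  calc ‖L‖ * ‖iteratedFDeriv ℝ (i + 1) w x‖ ≤ ‖L‖ * (δ * M ^ (i + 1)) :=
        mul_le_mul_of_nonneg_left h2 (norm_nonneg L)
    _ = ‖L‖ * (δ * M) * M ^ i := by ring

private theorem exp_bd {V W : Type*} [NormedAddCommGroup V] [NormedSpace ℝ V]
    [NormedAddCommGroup W] [NormedSpace ℝ W] {K : ℕ} {N c : ℝ} {v : V → W}
    (h : ∀ i ≤ K, ∀ x, ‖iteratedFDeriv ℝ i v x‖ ≤ c * N ^ i) : Bd K N 1 c v :=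
  ⟨fun i hi x => h i hi.le x, fun x => by rw [one_mul]; exact h K le_rfl x⟩

/-- evaluation at `e_j` -/
private noncomputable def exp_ap (j : Fin 3) : (E3 →L[ℝ] ℝ) →L[ℝ] ℝ :=
  ContinuousLinearMap.apply ℝ ℝ (ev j)

private theorem exp_ap_norm (j : Fin 3) : ‖exp_ap j‖ ≤ 1 := by
  refine ContinuousLinearMap.opNorm_le_bound _ zero_le_one fun φ => ?_
  rw [one_mul]
  calc ‖φ (ev j)‖ ≤ ‖φ‖ * ‖ev j‖ := φ.le_opNorm _
    _ ≤ ‖φ‖ * 1 := mul_le_mul_of_nonneg_left (exp_norm_ev j) (norm_nonneg _)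
    _ = ‖φ‖ := mul_one _

/-- the linear map of `ham` -/
private noncomputable def exp_hm : (E3 →L[ℝ] ℝ) →L[ℝ] E3 :=
  (exp_ap 1).smulRight (ev 0) - (exp_ap 0).smulRight (ev 1)

private theorem exp_ham_eq (w : E3 → ℝ) : ham w = fun y => exp_hm (fderiv ℝ w y) := by
  funext y
  simp [ham, exp_hm, exp_ap, pd]

private theorem exp_pd {w : E3 → ℝ} (hw : ContDiff ℝ smo w) {m : ℕ} {M δ : ℝ} (hM : 0 ≤ M)
    (hδ : 0 ≤ δ) (h : ∀ i ≤ m + 1, ∀ x, ‖iteratedFDeriv ℝ i w x‖ ≤ δ * M ^ i) (j : Fin 3) :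
    ∀ i ≤ m, ∀ x, ‖iteratedFDeriv ℝ i (pd j w) x‖ ≤ δ * M * M ^ i := by
  intro i hi x
  have h1 := exp_lin (exp_ap j) hw h i hi x
  have h2 : (fun y => exp_ap j (fderiv ℝ w y)) = pd j w := rfl
  rw [h2] at h1
  refine h1.trans ?_
  have h3 : ‖exp_ap j‖ * (δ * M) ≤ 1 * (δ * M) :=
    mul_le_mul_of_nonneg_right (exp_ap_norm j) (mul_nonneg hδ hM)
  rw [one_mul] at h3
  exact mul_le_mul_of_nonneg_right h3 (pow_nonneg hM i)

private theorem exp_sm {w : E3 → ℝ} (hw : ContDiff ℝ smo w) {m : ℕ} (hm : 1 ≤ m) {M δ : ℝ}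
    (hM : 0 ≤ M) (hδ : 0 ≤ δ) (hk : M ^ 2 * δ ≤ 1 / 4)
    (h : ∀ i ≤ m + 1, ∀ x, ‖iteratedFDeriv ℝ i w x‖ ≤ δ * M ^ i) : Sm w := by
  have h1 : ∀ (j : Fin 3) (x : E3), ‖fderiv ℝ (pd j w) x‖ ≤ 1 / 4 := by
    intro j x
    have h2 := exp_pd hw hM hδ h j 1 hm x
    rw [norm_iteratedFDeriv_one] at h2
    refine h2.trans (le_trans (le_of_eq ?_) hk)
    ring
  exact ⟨hw, h1 0, h1 1⟩

private theorem exp_gdif {w : E3 → ℝ} (h : Sm w) : IsDif (Gp w) :=
  (bef_dif h).mul (alf_dif h).inv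

/-- `disp G = ham ∘ (id + disp α⁻¹)` -/
private theorem exp_disp {w : E3 → ℝ} (h : Sm w) (x : E3) :
    disp (Gp w) x = ham w (x + disp (toP (alf w))⁻¹ x) := by
  set t : E3 := (toP (alf w))⁻¹ x with ht
  have h1 : alf w t = x := by
    rw [← toP_apply (alf_bij h) t, ht]
    exact (toP (alf w)).apply_symm_apply x
  have h2 : Gp w x = bef w t := by
    conv_lhs => rw [← h1]
    exact Gp_alf h t
  have h3 : x + disp (toP (alf w))⁻¹ x = t := by
    unfold disp
    rw [← ht]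
    abel
  rw [h3]
  unfold disp
  rw [h2]
  have h4 : x = t + pd 0 w t • ev 1 := h1.symm
  calc bef w t - x = (t + pd 1 w t • ev 0) - (t + pd 0 w t • ev 1) := by
        rw [← h4]; rfl
    _ = ham w t := by unfold ham; abel

/-- `disp G⁻¹ = - ham ∘ (id + disp β⁻¹)` -/
private theorem exp_dispi {w : E3 → ℝ} (h : Sm w) (x : E3) :
    disp (Gp w)⁻¹ x = - ham w (x + disp (toP (bef w))⁻¹ x) := by
  set t : E3 := (toP (bef w))⁻¹ x with ht
  have h1 : bef w t = x := by
    rw [← toP_apply (bef_bij h) t, ht]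
    exact (toP (bef w)).apply_symm_apply x
  have h2 : (Gp w)⁻¹ x = alf w t := by
    rw [Equiv.Perm.inv_eq_iff_eq, Gp_alf h t, h1]
  have h3 : x + disp (toP (bef w))⁻¹ x = t := by
    unfold disp
    rw [← ht]
    abel
  rw [h3]
  unfold disp
  rw [h2]
  have h4 : x = t + pd 1 w t • ev 0 := h1.symm
  calc alf w t - x = (t + pd 0 w t • ev 1) - (t + pd 1 w t • ev 0) := by
        rw [← h4]; rfl
    _ = - ham w t := by unfold ham; abel

theorem exp1 (K : ℕ) (hK : 2 ≤ K) : ∃ C κ : ℝ, 1 ≤ C ∧ 0 < κ ∧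
    ∀ (p : Bool × (E3 → ℝ)) (M δ : ℝ), ContDiff ℝ smo p.2 → 1 ≤ M → 0 ≤ δ → M ^ 2 * δ ≤ κ →
      (∀ i ≤ K + 3, ∀ x, ‖iteratedFDeriv ℝ i p.2 x‖ ≤ δ * M ^ i) →
      Sm p.2 ∧
      (∀ i ≤ K, ∀ x, ‖iteratedFDeriv ℝ i (fun y => disp (gsn p) y - xsn p y) x‖ ≤
        C * M ^ (i + 3) * δ ^ 2) ∧
      ∀ i ≤ K + 1, ∀ x, ‖iteratedFDeriv ℝ i (disp (gsn p)) x‖ ≤ C * M ^ (i + 1) * δ := by
  obtain ⟨Ca, κa, hCa, hκa, ha⟩ := alf_bd K hK
  obtain ⟨Cb, κb, hCb, hκb, hb⟩ := bef_bd K hK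
  obtain ⟨Cg, κg, hCg, hκg, hg⟩ := gp_bd (K + 1) (by omega)
  obtain ⟨C3, hC3, h3⟩ := scE3.{0} K hK
  set H : ℝ := ‖exp_hm‖ + 1 with hH
  have hH1 : 1 ≤ H := by
    have := norm_nonneg exp_hm
    linarith
  set A : ℝ := Ca + Cb with hA
  have hA1 : 1 ≤ A := by linarith
  have hA0 : 0 < A := by linarith
  refine ⟨C3 * H * A + Cg, min (min κa κb) (min κg (min (1 / 4) (1 / A))), ?_, ?_, ?_⟩
  · have : 0 ≤ C3 * H * A := by positivity
    linarith
  · have : 0 < 1 / A := by positivity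
    exact lt_min (lt_min hκa hκb) (lt_min hκg (lt_min (by norm_num) this))
  rintro ⟨b, w⟩ M δ hw hM hδ hk hd
  have hk1 : M ^ 2 * δ ≤ κa := hk.trans ((min_le_left _ _).trans (min_le_left _ _))
  have hk2 : M ^ 2 * δ ≤ κb := hk.trans ((min_le_left _ _).trans (min_le_right _ _))
  have hk3 : M ^ 2 * δ ≤ κg := hk.trans ((min_le_right _ _).trans (min_le_left _ _))
  have hk4 : M ^ 2 * δ ≤ 1 / 4 :=
    hk.trans ((min_le_right _ _).trans ((min_le_right _ _).trans (min_le_left _ _)))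
  have hk5 : M ^ 2 * δ ≤ 1 / A :=
    hk.trans ((min_le_right _ _).trans ((min_le_right _ _).trans (min_le_right _ _)))
  have hM0 : 0 ≤ M := by linarith
  have hMp : 0 < M := by linarith
  simp only at hw hd ⊢
  have hS : Sm w := exp_sm hw (m := K + 2) (by omega) hM0 hδ hk4 hd
  have hc : 0 ≤ δ * M := mul_nonneg hδ hM0
  have hMc : M * (δ * M) = M ^ 2 * δ := by ring
  have hp : ∀ (j : Fin 3) (i : ℕ), i ≤ K + 2 → ∀ x,
      ‖iteratedFDeriv ℝ i (pd j w) x‖ ≤ δ * M * M ^ i := fun j i hi x =>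
    exp_pd hw hM0 hδ hd j i hi x
  have hpK : ∀ j : Fin 3, Bd K M 1 (δ * M) (pd j w) := fun j =>
    exp_bd fun i hi x => hp j i (by omega) x
  have hpK1 : ∀ j : Fin 3, Bd (K + 1) M 1 (δ * M) (pd j w) := fun j =>
    exp_bd fun i hi x => hp j i (by omega) x
  have hga := (ha w M 1 (δ * M) hS hM one_pos le_rfl hc (by rw [hMc]; exact hk1) (hpK 0)).2
  have hgb := (hb w M 1 (δ * M) hS hM one_pos le_rfl hc (by rw [hMc]; exact hk2) (hpK 1)).2
  have hgg := hg w M 1 (δ * M) hS hM one_pos le_rfl hc (by rw [hMc]; exact hk3) (hpK1 0)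
    (hpK1 1)
  -- the field `ham`
  have hhs : ContDiff ℝ smo (ham w) := by
    unfold ham
    exact ((contDiff_pd hw 1).smul contDiff_const).sub ((contDiff_pd hw 0).smul contDiff_const)
  have hhb : ∀ i ≤ K + 1, ∀ x, ‖iteratedFDeriv ℝ i (ham w) x‖ ≤ H * (δ * M) * M ^ i := by
    intro i hi x
    rw [exp_ham_eq]
    refine (exp_lin exp_hm hw hd i (by omega) x).trans ?_
    have h5 : ‖exp_hm‖ ≤ H := by linarith
    have h6 : 0 ≤ M ^ i := pow_nonneg hM0 i
    exact mul_le_mul_of_nonneg_right (mul_le_mul_of_nonneg_right h5 hc) h6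
  have hAc : ∀ X : ℝ, X ≤ A → X * (δ * M) ≤ A * (δ * M) := fun X hX =>
    mul_le_mul_of_nonneg_right hX hc
  have hAk : M * (A * (δ * M)) ≤ 1 := by
    have h7 : M * (A * (δ * M)) = A * (M ^ 2 * δ) := by ring
    rw [h7]
    calc A * (M ^ 2 * δ) ≤ A * (1 / A) := mul_le_mul_of_nonneg_left hk5 hA0.le
      _ = 1 := by field_simp
  have key : ∀ v : E3 → E3, ContDiff ℝ smo v → Bd K M 1 (A * (δ * M)) v →
      ∀ i ≤ K, ∀ x, ‖iteratedFDeriv ℝ i (fun y => ham w (y + v y) - ham w y) x‖ ≤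
        (C3 * H * A + Cg) * M ^ (i + 3) * δ ^ 2 := by
    intro v hv hvb i hi x
    have h8 := h3 E3 (ham w) v M 1 (H * (δ * M)) (A * (δ * M)) hhs hv hMp one_pos le_rfl
      (by positivity) (by positivity) hAk hvb hhb
    refine (h8.level hi x).trans ?_
    have h9 : C3 * (H * (δ * M)) * (M * (A * (δ * M))) * M ^ i =
        (C3 * H * A) * M ^ (i + 3) * δ ^ 2 := by ring
    rw [h9]
    have h10 : 0 ≤ M ^ (i + 3) * δ ^ 2 := by positivity
    nlinarith [mul_nonneg (by linarith : (0 : ℝ) ≤ Cg) h10]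
  refine ⟨hS, ?_, ?_⟩
  · intro i hi x
    cases b with
    | true =>
      have h11 : (fun y => disp (gsn (true, w)) y - xsn (true, w) y) =
          fun y => ham w (y + disp (toP (alf w))⁻¹ y) - ham w y := by
        funext y
        simp only [gsn, xsn, if_true]
        rw [exp_disp hS y]
      rw [h11]
      exact key _ (alf_dif hS).inv.contDiff_disp
        (hga.mono_c hM0 (hAc Ca (by linarith))) i hi x
    | false =>
      have h11 : (fun y => disp (gsn (false, w)) y - xsn (false, w) y) =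
          fun y => - (ham w (y + disp (toP (bef w))⁻¹ y) - ham w y) := by
        funext y
        simp only [gsn, xsn, Bool.false_eq_true, if_false]
        rw [exp_dispi hS y]
        abel
      rw [h11]
      have h12 : (fun y => - (ham w (y + disp (toP (bef w))⁻¹ y) - ham w y)) =
          - (fun y => ham w (y + disp (toP (bef w))⁻¹ y) - ham w y) := rfl
      rw [h12, iteratedFDeriv_neg_apply, norm_neg]
      exact key _ (bef_dif hS).inv.contDiff_disp
        (hgb.mono_c hM0 (hAc Cb (by linarith))) i hi x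
  · intro i hi x
    have h13 : Bd (K + 1) M 1 (Cg * (δ * M)) (disp (gsn (b, w))) := by
      cases b with
      | true => simpa only [gsn, if_true] using hgg.1
      | false => simpa only [gsn, Bool.false_eq_true, if_false] using hgg.2
    refine (h13.level hi x).trans ?_
    have h14 : Cg * (δ * M) * M ^ i = Cg * M ^ (i + 1) * δ := by ring
    rw [h14]
    have h15 : 0 ≤ M ^ (i + 1) * δ := by positivity
    have h16 : 0 ≤ C3 * H * A := by positivity
    nlinarith [mul_nonneg h16 h15]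

private theorem exp_gsn_dif {p : Bool × (E3 → ℝ)} (h : Sm p.2) : IsDif (gsn p) := by
  obtain ⟨b, w⟩ := p
  cases b with
  | true => simpa only [gsn, if_true] using exp_gdif h
  | false => simpa only [gsn, Bool.false_eq_true, if_false] using (exp_gdif h).inv

private theorem exp_xsn_smooth {p : Bool × (E3 → ℝ)} (hw : ContDiff ℝ smo p.2) :
    ContDiff ℝ smo (xsn p) := by
  obtain ⟨b, w⟩ := p
  have h : ContDiff ℝ smo (ham w) := by
    unfold ham
    exact ((contDiff_pd hw 1).smul contDiff_const).sub ((contDiff_pd hw 0).smul contDiff_const)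
  cases b with
  | true =>
    have h1 : xsn (true, w) = ham w := by funext y; simp [xsn]
    rw [h1]; exact h
  | false =>
    have h1 : xsn (false, w) = fun y => - ham w y := by funext y; simp [xsn]
    rw [h1]; exact h.neg

private theorem exp_ind (K : ℕ) (hK : 2 ≤ K) (L : ℕ) : ∃ C κ : ℝ, 1 ≤ C ∧ 0 < κ ∧
    ∀ (l : List (Bool × (E3 → ℝ))) (M δ : ℝ), l.length ≤ L → 1 ≤ M → 0 ≤ δ → M ^ 2 * δ ≤ κ →
      (∀ p ∈ l, ContDiff ℝ smo p.2 ∧
        ∀ i ≤ K + 3, ∀ x, ‖iteratedFDeriv ℝ i p.2 x‖ ≤ δ * M ^ i) →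
      IsDif (l.map gsn).prod ∧ ContDiff ℝ smo (fun y => (l.map fun p => xsn p y).sum) ∧
      Bd K M 1 (C * (M ^ 3 * δ ^ 2))
        (fun y => disp (l.map gsn).prod y - (l.map fun p => xsn p y).sum) ∧
      Bd K M 1 (C * (M * δ)) (disp (l.map gsn).prod) := by
  have hz : ∀ (M c : ℝ), 0 ≤ M → 0 ≤ c → Bd K M 1 c (fun _ : E3 => (0 : E3)) := by
    intro M c hM hc
    refine exp_bd fun i _ x => ?_
    rw [iteratedFDeriv_fun_zero]
    simpa using mul_nonneg hc (pow_nonneg hM i)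
  have hnil : ∀ (C M δ : ℝ), 0 ≤ C → 1 ≤ M → 0 ≤ δ →
      IsDif (([] : List (Bool × (E3 → ℝ))).map gsn).prod ∧
      ContDiff ℝ smo (fun y : E3 => (([] : List (Bool × (E3 → ℝ))).map fun p => xsn p y).sum) ∧
      Bd K M 1 (C * (M ^ 3 * δ ^ 2))
        (fun y => disp (([] : List (Bool × (E3 → ℝ))).map gsn).prod y -
          (([] : List (Bool × (E3 → ℝ))).map fun p => xsn p y).sum) ∧
      Bd K M 1 (C * (M * δ)) (disp (([] : List (Bool × (E3 → ℝ))).map gsn).prod) := by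
    intro C M δ hC hM hδ
    have hM0 : 0 ≤ M := by linarith
    have h1 : disp (1 : Equiv.Perm E3) = fun _ => (0 : E3) := by
      funext y; simp [disp]
    simp only [List.map_nil, List.prod_nil, List.sum_nil]
    refine ⟨IsDif.one, contDiff_const, ?_, ?_⟩
    · have h2 : (fun y => disp (1 : Equiv.Perm E3) y - (0 : E3)) = fun _ => (0 : E3) := by
        funext y; simp [disp]
      rw [h2]
      exact hz M _ hM0 (by positivity)
    · rw [h1]
      exact hz M _ hM0 (by positivity)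
  induction L with
  | zero =>
    refine ⟨1, 1, le_rfl, one_pos, ?_⟩
    intro l M δ hl hM hδ _ _
    have hl0 : l = [] := List.length_eq_zero_iff.1 (by omega)
    subst hl0
    exact hnil 1 M δ zero_le_one hM hδ
  | succ L ih =>
    obtain ⟨CL, κL, hCL, hκL, hL⟩ := ih
    obtain ⟨C1, κ1, hC1, hκ1, h1⟩ := exp1 K hK
    obtain ⟨C3, hC3, h3⟩ := scE3.{0} K hK
    have hCLp : 0 < CL := by linarith
    refine ⟨CL + (C3 * C1 * CL + C1), min (min κL κ1) (min 1 (1 / CL)), ?_, ?_, ?_⟩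
    · have : 0 ≤ C3 * C1 * CL := by positivity
      linarith
    · have : 0 < 1 / CL := by positivity
      exact lt_min (lt_min hκL hκ1) (lt_min one_pos this)
    intro l M δ hl hM hδ hk hp
    have hk1 : M ^ 2 * δ ≤ κL := hk.trans ((min_le_left _ _).trans (min_le_left _ _))
    have hk2 : M ^ 2 * δ ≤ κ1 := hk.trans ((min_le_left _ _).trans (min_le_right _ _))
    have hk3 : M ^ 2 * δ ≤ 1 := hk.trans ((min_le_right _ _).trans (min_le_left _ _))
    have hk4 : M ^ 2 * δ ≤ 1 / CL := hk.trans ((min_le_right _ _).trans (min_le_right _ _))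
    have hM0 : 0 ≤ M := by linarith
    have hMp : 0 < M := by linarith
    cases l with
    | nil => exact hnil _ M δ (by positivity) hM hδ
    | cons p l =>
      have hl' : l.length ≤ L := by simpa using hl
      obtain ⟨hR, hSs, hB1, hBR⟩ := hL l M δ hl' hM hδ hk1
        (fun q hq => hp q (List.mem_cons_of_mem _ hq))
      obtain ⟨hpw, hpd⟩ := hp p List.mem_cons_self
      obtain ⟨hS, he, hgd⟩ := h1 p M δ hpw hM hδ hk2 hpd
      have hg : IsDif (gsn p) := exp_gsn_dif hS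
      set R : Equiv.Perm E3 := (l.map gsn).prod with hRdef
      have hgs := hg.contDiff_disp
      have hRs := hR.contDiff_disp
      have hxs := exp_xsn_smooth hpw
      have hB3 : Bd K M 1 (C1 * (M ^ 3 * δ ^ 2)) (fun y => disp (gsn p) y - xsn p y) := by
        refine exp_bd fun i hi x => (he i hi x).trans (le_of_eq ?_)
        ring
      have hBg : Bd K M 1 (C1 * (M * δ)) (disp (gsn p)) := by
        refine exp_bd fun i hi x => (hgd i (by omega) x).trans (le_of_eq ?_)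
        ring
      have hMa : M * (CL * (M * δ)) ≤ 1 := by
        have h7 : M * (CL * (M * δ)) = CL * (M ^ 2 * δ) := by ring
        rw [h7]
        calc CL * (M ^ 2 * δ) ≤ CL * (1 / CL) := mul_le_mul_of_nonneg_left hk4 hCLp.le
          _ = 1 := by field_simp
      have hB2 := h3 E3 (disp (gsn p)) (disp R) M 1 (C1 * (M * δ)) (CL * (M * δ)) hgs hRs hMp
        one_pos le_rfl (by positivity) (by positivity) hMa hBR (fun i hi x => by
          refine (hgd i hi x).trans (le_of_eq ?_)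
          ring)
      have hcs : ContDiff ℝ smo (fun y => disp (gsn p) (y + disp R y) - disp (gsn p) y) :=
        (hgs.comp (contDiff_id.add hRs)).sub hgs
      have hT : (List.map gsn (p :: l)).prod = gsn p * R := by
        rw [List.map_cons, List.prod_cons]
      have hSum : (fun y : E3 => (List.map (fun q => xsn q y) (p :: l)).sum) =
          fun y => xsn p y + (l.map fun q => xsn q y).sum := by
        funext y
        rw [List.map_cons, List.sum_cons]
      rw [hT]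
      refine ⟨hg.mul hR, ?_, ?_, ?_⟩
      · rw [hSum]
        exact hxs.add hSs
      · have hfun : (fun y => disp (gsn p * R) y -
            (List.map (fun q => xsn q y) (p :: l)).sum) =
            fun y => (disp R y - (l.map fun q => xsn q y).sum) +
              ((disp (gsn p) (y + disp R y) - disp (gsn p) y) +
                (disp (gsn p) y - xsn p y)) := by
          funext y
          rw [disp_mul, List.map_cons, List.sum_cons]
          abel
        rw [hfun]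
        refine (Bd.add (hRs.sub hSs) (hcs.add (hgs.sub hxs)) hB1
          (Bd.add hcs (hgs.sub hxs) hB2 hB3 zero_le_one) zero_le_one).mono_c hM0
          (le_of_eq ?_)
        ring
      · have hfun : disp (gsn p * R) =
            fun y => disp R y + ((disp (gsn p) (y + disp R y) - disp (gsn p) y) +
                disp (gsn p) y) := by
          funext y
          rw [disp_mul]
          abel
        rw [hfun]
        refine (Bd.add hRs (hcs.add hgs) hBR
          (Bd.add hcs hgs hB2 hBg zero_le_one) zero_le_one).mono_c hM0 ?_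
        have h8 : C3 * (C1 * (M * δ)) * (M * (CL * (M * δ))) =
            C3 * C1 * CL * (M * δ) * (M ^ 2 * δ) := by ring
        rw [h8]
        have h9 : 0 ≤ C3 * C1 * CL * (M * δ) := by positivity
        nlinarith [mul_le_mul_of_nonneg_left hk3 h9]

/-- C2.3 -/
theorem expL (K L : ℕ) (hK : 2 ≤ K) : ∃ C κ : ℝ, 1 ≤ C ∧ 0 < κ ∧
    ∀ (l : List (Bool × (E3 → ℝ))) (M δ : ℝ), l.length ≤ L → 1 ≤ M → 0 ≤ δ → M ^ 2 * δ ≤ κ →
      (∀ p ∈ l, ContDiff ℝ smo p.2 ∧
        ∀ i ≤ K + 3, ∀ x, ‖iteratedFDeriv ℝ i p.2 x‖ ≤ δ * M ^ i) →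
      ∀ i ≤ K, ∀ x,
        ‖iteratedFDeriv ℝ i (fun y => disp (l.map gsn).prod y - (l.map fun p => xsn p y).sum) x‖ ≤
          C * M ^ (i + 3) * δ ^ 2 := by
  obtain ⟨C, κ, hC, hκ, h⟩ := exp_ind K hK L
  refine ⟨C, κ, hC, hκ, fun l M δ hl hM hδ hk hp i hi x => ?_⟩
  refine ((h l M δ hl hM hδ hk hp).2.2.1.level hi x).trans (le_of_eq ?_)
  ring

end Pool.Agent.QM59
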