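import Pool.Agent.Lib.MP_decea1_gt_C.Scl

/-!
# MP_decea1_gt, block C, C1, part A: the inverse function of the third component
-/

set_option autoImplicit false

open MeasureTheory Set

namespace Pool.Agent.QM59

private theorem facA_ev0 : ev 2 0 = 0 := by
  unfold ev
  rw [Pi.single_apply]
  simp

private theorem facA_ev1 : ev 2 1 = 0 := by
  unfold ev
  rw [Pi.single_apply]
  simp

private theorem facA_ev2 : ev 2 2 = 1 := by
  unfold ev
  rw [Pi.single_apply]
  simp

/-- the projection on the last axis -/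
private noncomputable def facA_L : E3 →L[ℝ] E3 :=
  (ContinuousLinearMap.proj (R := ℝ) (φ := fun _ : Fin 3 => ℝ) 2).smulRight (ev 2)

private theorem facA_L_apply (x : E3) : facA_L x = x 2 • ev 2 := rfl

private theorem facA_coord (x : E3) (i : Fin 3) : |x i| ≤ ‖x‖ := by
  rw [← Real.norm_eq_abs]
  exact norm_le_pi_norm x i

private theorem facA_norm_ev : ‖ev 2‖ ≤ 1 := by
  refine (pi_norm_le_iff_of_nonneg zero_le_one).2 fun i => ?_
  unfold ev
  rw [Pi.single_apply]
  split_ifs <;> simp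

private theorem facA_normL : ‖facA_L‖ ≤ 1 := by
  refine ContinuousLinearMap.opNorm_le_bound _ zero_le_one fun x => ?_
  rw [facA_L_apply, norm_smul, one_mul, Real.norm_eq_abs]
  calc |x 2| * ‖ev 2‖ ≤ |x 2| * 1 := mul_le_mul_of_nonneg_left facA_norm_ev (abs_nonneg _)
    _ = |x 2| := mul_one _
    _ ≤ ‖x‖ := facA_coord x 2

/-- the last coordinate -/
private noncomputable def facA_P : E3 →L[ℝ] ℝ :=
  ContinuousLinearMap.proj (R := ℝ) (φ := fun _ : Fin 3 => ℝ) 2

private theorem facA_P_apply (x : E3) : facA_P x = x 2 := rfl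

private theorem facA_normP : ‖facA_P‖ ≤ 1 := by
  refine ContinuousLinearMap.opNorm_le_bound _ zero_le_one fun x => ?_
  rw [facA_P_apply, one_mul, Real.norm_eq_abs]
  exact facA_coord x 2

private theorem facA_comp {W X : Type*} [NormedAddCommGroup W] [NormedSpace ℝ W]
    [NormedAddCommGroup X] [NormedSpace ℝ X] (L : W →L[ℝ] X) (hL : ‖L‖ ≤ 1) {K : ℕ} {c : ℝ}
    {v : E3 → W} (hv : ContDiff ℝ smo v) (h : Bn K c v) : Bn K c (fun x => L (v x)) := by
  intro i hi x
  have h1 : ‖iteratedFDeriv ℝ i (fun x => L (v x)) x‖ ≤ ‖L‖ * ‖iteratedFDeriv ℝ i v x‖ :=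
    L.norm_iteratedFDeriv_comp_left (hv.contDiffAt (x := x)) (Nb.natCast_le_smo _)
  calc ‖iteratedFDeriv ℝ i (fun x => L (v x)) x‖ ≤ ‖L‖ * ‖iteratedFDeriv ℝ i v x‖ := h1
    _ ≤ 1 * ‖iteratedFDeriv ℝ i v x‖ := mul_le_mul_of_nonneg_right hL (norm_nonneg _)
    _ = ‖iteratedFDeriv ℝ i v x‖ := one_mul _
    _ ≤ c := h i hi x

/-- Let `v x = (f x 2 - x 2) • ev 2`, `‖D v‖ ≤ 1/2` (level one of `disp f`), and `a = toP (x ↦ x +
v x)` (`near_bij`, `near_dif`, `toP_apply`), `IsDif a`, `Bn K c (disp a)` (a component of `disp f`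
times `ev 2`, norm one). `q u = (a⁻¹ u) 2 - u 2`, a component of `disp a⁻¹`: bounds from `scE4`
with `N = 1`, `η = 1` (`bu_iff_bd`, `bu_one_iff`); `a = 1` off the ball, so `q = 0` there. `a`
changes only the third coordinate, so `a⁻¹ u = u + q u • ev 2`, and `f (a⁻¹ u) 2 = a (a⁻¹ u) 2 = u
2`. Monotonicity: on the line `p 0`, `p 1` fixed, `|(f p 2 - p 2) - (f p' 2 - p' 2)| ≤ 1/2 |p 2 -
p' 2|` (mean value inequality). -/
theorem facA (K : ℕ) (hK : 2 ≤ K) : ∃ C κ : ℝ, 1 ≤ C ∧ 0 < κ ∧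
    ∀ (f : Equiv.Perm E3) (c : ℝ), Ok (Metric.closedBall 0 1) f → 0 ≤ c → c ≤ κ →
      Bn K c (disp f) → ∃ q : E3 → ℝ, ContDiff ℝ smo q ∧
        (∀ x, x ∉ Metric.closedBall (0 : E3) 1 → q x = 0) ∧ Bn K (C * c) q ∧
        (∀ u, f (u + q u • ev 2) 2 = u 2) ∧
        ∀ p p' : E3, p 0 = p' 0 → p 1 = p' 1 → p 2 < p' 2 → f p 2 < f p' 2 := by
  obtain ⟨C, κ, hC, hκ, hκ2, hE4⟩ := scE4 K hK
  refine ⟨C, κ, hC, hκ, ?_⟩
  intro f c hf hc hcκ hb
  have hfs : ContDiff ℝ smo (disp f) := hf.dif.contDiff_disp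
  have hvs : ContDiff ℝ smo (fun x => facA_L (disp f x)) := facA_L.contDiff.comp hfs
  have hvb : Bn K c (fun x => facA_L (disp f x)) := facA_comp facA_L facA_normL hfs hb
  have hvd : ∀ x, ‖fderiv ℝ (fun x => facA_L (disp f x)) x‖ ≤ 1 / 2 := by
    intro x
    have h1 := hvb 1 (by omega) x
    rw [← norm_iteratedFDeriv_fderiv, norm_iteratedFDeriv_zero] at h1
    linarith
  have hvx : ∀ x, facA_L (disp f x) = (f x 2 - x 2) • ev 2 := fun x => rfl
  have hbij := near_bij hvs hvd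
  have hdif := near_dif hvs hvd
  have happ : ∀ x, (toP fun x => x + facA_L (disp f x)) x = x + facA_L (disp f x) :=
    fun x => toP_apply hbij x
  generalize (toP fun x => x + facA_L (disp f x)) = a at hdif happ
  have hda : disp a = fun x => facA_L (disp f x) := by
    funext x
    unfold disp
    rw [happ, add_sub_cancel_left]
    rfl
  have hb1 : Bd K 1 1 c (disp a) := by
    rw [hda]
    exact bu_iff_bd.1 (bu_one_iff.2 hvb)
  have hb2 : Bd K 1 1 (C * c) (disp a⁻¹) :=
    hE4 a 1 1 c hdif one_pos one_pos le_rfl hc (by linarith) hb1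
  have hb3 : Bn K (C * c) (disp a⁻¹) := bu_one_iff.1 (bu_iff_bd.2 hb2)
  have his : ContDiff ℝ smo (disp a⁻¹) := hdif.inv.contDiff_disp
  have hya : ∀ u, a⁻¹ u + (f (a⁻¹ u) 2 - (a⁻¹ u) 2) • ev 2 = u := by
    intro u
    rw [← hvx, ← happ]
    exact a.apply_symm_apply u
  have hyu : ∀ u, u + facA_P (disp a⁻¹ u) • ev 2 = a⁻¹ u := by
    intro u
    have h1 := hya u
    have hq : facA_P (disp a⁻¹ u) = (a⁻¹ u) 2 - u 2 := rfl
    rw [hq]
    funext i
    have h2 := congrFun h1 i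
    fin_cases i
    · simpa [facA_ev0] using h2.symm
    · simpa [facA_ev1] using h2.symm
    · simp [facA_ev2]
  refine ⟨fun u => facA_P (disp a⁻¹ u), facA_P.contDiff.comp his, ?_,
    facA_comp facA_P facA_normP his hb3, ?_, ?_⟩
  · intro x hx
    have h1 : f x = x := hf.off x hx
    have h2 : a x = x := by
      rw [happ, hvx, h1, sub_self, zero_smul, add_zero]
    have h3 : a⁻¹ x = x := by
      calc a⁻¹ x = a⁻¹ (a x) := by rw [h2]
        _ = x := a.symm_apply_apply x
    have h4 : disp a⁻¹ x = 0 := by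
      unfold disp
      rw [h3, sub_self]
    change facA_P (disp a⁻¹ x) = 0
    rw [h4, map_zero]
  · intro u
    change f (u + facA_P (disp a⁻¹ u) • ev 2) 2 = u 2
    rw [hyu u]
    have h2 := congrFun (hya u) 2
    simp only [Pi.add_apply, Pi.smul_apply, smul_eq_mul, facA_ev2, mul_one] at h2
    linarith
  · intro p p' h0 h1 h2
    have hlip : ‖facA_L (disp f p') - facA_L (disp f p)‖ ≤ 1 / 2 * ‖p' - p‖ :=
      convex_univ.norm_image_sub_le_of_norm_fderiv_le (𝕜 := ℝ)
        (f := fun x => facA_L (disp f x)) (C := 1 / 2)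
        (fun x _ => (hvs.differentiable (by simp)).differentiableAt)
        (fun x _ => hvd x) (mem_univ p) (mem_univ p')
    have hpp : ‖p' - p‖ ≤ p' 2 - p 2 := by
      refine (pi_norm_le_iff_of_nonneg (by linarith)).2 fun i => ?_
      rw [Pi.sub_apply, Real.norm_eq_abs]
      fin_cases i
      · simp only [Fin.zero_eta]
        rw [h0, sub_self, abs_zero]
        linarith
      · simp only [Fin.mk_one]
        rw [h1, sub_self, abs_zero]
        linarith
      · change |p' 2 - p 2| ≤ p' 2 - p 2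
        rw [abs_of_pos (by linarith)]
    have h3 := facA_coord (facA_L (disp f p') - facA_L (disp f p)) 2
    have h4 : (facA_L (disp f p') - facA_L (disp f p)) 2 = (f p' 2 - p' 2) - (f p 2 - p 2) := by
      rw [Pi.sub_apply, hvx, hvx]
      simp only [Pi.smul_apply, smul_eq_mul, facA_ev2, mul_one]
    rw [h4] at h3
    have h5 := (abs_le.1 (h3.trans hlip)).1
    linarith

end Pool.Agent.QM59
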