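import Pool.Agent.Lib.MP_decea1_gt_C.FacI
import Pool.Agent.Lib.MP_decea1_gt_A.Meas

/-!
# MP_decea1_gt, block C, C1, part B: the mean of `ζ - c` is zero
-/

set_option autoImplicit false

open MeasureTheory Set

namespace Pool.Agent.QM59

/-- The square `[-1, 1]^2`. -/
private def facB_S : Set (Fin 2 → ℝ) := Icc (fun _ => -1) (fun _ => 1)

/-- The two first coordinates. -/
private def facB_r (p : E3) : Fin 2 → ℝ := fun i => p (Fin.succAbove 2 i)

private theorem facB_vol {g : (Fin 2 → ℝ) → ℝ} (hg : Continuous g)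
    (hg2 : ∀ z ∈ facB_S, -2 ≤ g z) :
    volume {p : E3 | facB_r p ∈ facB_S ∧ -2 < p 2 ∧ p 2 < g (facB_r p)} =
      ENNReal.ofReal (∫ z in facB_S, (g z + 2)) := by
  have hS : IsCompact facB_S := isCompact_Icc
  have h1 := (Measure.measurePreserving_swap (μ := (volume : Measure ℝ))
    (ν := (volume : Measure (Fin 2 → ℝ)))).comp
    (volume_preserving_piFinSuccAbove (fun _ : Fin 3 => ℝ) 2)
  have h2 := volume_regionBetween_eq_integral (μ := (volume : Measure (Fin 2 → ℝ)))
    (f := fun _ => (-2 : ℝ)) (g := g) (s := facB_S)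
    (continuousOn_const.integrableOn_compact hS) (hg.continuousOn.integrableOn_compact hS)
    hS.measurableSet hg2
  have h3 := h1.measure_preimage (measurableSet_regionBetween (f := fun _ => (-2 : ℝ))
    measurable_const hg.measurable hS.measurableSet).nullMeasurableSet
  have h4 : {p : E3 | facB_r p ∈ facB_S ∧ -2 < p 2 ∧ p 2 < g (facB_r p)} =
      (Prod.swap ∘ (MeasurableEquiv.piFinSuccAbove (fun _ : Fin 3 => ℝ) 2)) ⁻¹'
        (regionBetween (fun _ => (-2 : ℝ)) g facB_S) := by
    ext p
    exact Iff.rfl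
  rw [h4, h3, h2]
  congr 1
  refine setIntegral_congr_fun hS.measurableSet fun z _ => ?_
  simp only [Pi.sub_apply]
  ring

private theorem facB_cont : Continuous facB_r := by
  unfold facB_r
  fun_prop

private theorem facB_mem (p : E3) : p ∈ Metric.closedBall (0 : E3) 1 ↔
    facB_r p ∈ facB_S ∧ |p 2| ≤ 1 := by
  rw [mem_closedBall_zero_iff, pi_norm_le_iff_of_nonneg zero_le_one, Fin.forall_fin_succ,
    Fin.forall_fin_two]
  simp only [Real.norm_eq_abs, facB_S, facB_r, mem_Icc, Pi.le_def, Fin.forall_fin_two, abs_le]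
  have e0 : (Fin.succAbove 2 0 : Fin 3) = 0 := rfl
  have e1 : (Fin.succAbove 2 1 : Fin 3) = 1 := rfl
  have e2 : (Fin.succ 0 : Fin 3) = 1 := rfl
  have e3 : (Fin.succ 1 : Fin 3) = 2 := rfl
  rw [e0, e1, e2, e3]
  tauto

/-- the integral over the square vanishes -/
private theorem facB_sq {f : Equiv.Perm E3} (hf : Ok (Metric.closedBall 0 1) f) {q : E3 → ℝ}
    (hq : Continuous q) (h1 : ∀ u, f (u + q u • ev 2) 2 = u 2)
    (h2 : ∀ p p' : E3, p 0 = p' 0 → p 1 = p' 1 → p 2 < p' 2 → f p 2 < f p' 2) {c : ℝ}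
    (hc : -2 < c) :
    ∫ z in facB_S, q (Fin.insertNth (α := fun _ : Fin 3 => ℝ) 2 c z) = 0 := by
  set K := Metric.closedBall (0 : E3) 1 with hK
  have hS : IsCompact facB_S := isCompact_Icc
  set j : (Fin 2 → ℝ) → E3 := fun z => Fin.insertNth (α := fun _ : Fin 3 => ℝ) 2 c z with hj
  have hjc : Continuous j := by
    rw [hj]
    fun_prop
  have hgc : Continuous fun z => c + q (j z) := continuous_const.add (hq.comp hjc)
  -- the point with `f`-height `c`
  have hw : ∀ z : Fin 2 → ℝ, f (j z + q (j z) • ev 2) 2 = c := fun z => by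
    rw [h1]
    simp [hj]
  have hw2 : ∀ z : Fin 2 → ℝ, (j z + q (j z) • ev 2) 2 = c + q (j z) := fun z => by
    simp [hj, ev]
  have hw0 : ∀ z : Fin 2 → ℝ, (j z + q (j z) • ev 2) 0 = z 0 := fun z => by
    have e0 : (Fin.succAbove 2 0 : Fin 3) = 0 := rfl
    have : j z 0 = z 0 := by
      rw [hj]
      simp only
      rw [← e0, Fin.insertNth_apply_succAbove]
    simp [ev, this]
  have hw1 : ∀ z : Fin 2 → ℝ, (j z + q (j z) • ev 2) 1 = z 1 := fun z => by
    have e0 : (Fin.succAbove 2 1 : Fin 3) = 1 := rfl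
    have : j z 1 = z 1 := by
      rw [hj]
      simp only
      rw [← e0, Fin.insertNth_apply_succAbove]
    simp [ev, this]
  have hge : ∀ z, -2 ≤ c + q (j z) := by
    intro z
    by_contra hlt
    push Not at hlt
    have h3 : j z + q (j z) • ev 2 ∉ K := by
      intro h4
      rw [hK, facB_mem, hw2, abs_le] at h4
      linarith [h4.2.1]
    have h4 := hf.off _ h3
    have h5 := hw z
    rw [h4, hw2] at h5
    linarith
  -- membership
  have hiff : ∀ p : E3, f p 2 < c ↔ p 2 < c + q (j (facB_r p)) := by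
    intro p
    have e0 : facB_r p 0 = p 0 := rfl
    have e1 : facB_r p 1 = p 1 := rfl
    constructor
    · intro h
      by_contra hn
      push Not at hn
      rcases hn.lt_or_eq with hl | he
      · have := h2 (j (facB_r p) + q (j (facB_r p)) • ev 2) p (by rw [hw0, e0])
          (by rw [hw1, e1]) (by rw [hw2]; exact hl)
        rw [hw] at this
        linarith
      · have : j (facB_r p) + q (j (facB_r p)) • ev 2 = p := by
          funext i
          fin_cases i
          · exact hw0 _
          · exact hw1 _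
          · exact (hw2 _).trans he
        have h5 := hw (facB_r p)
        rw [this] at h5
        linarith
    · intro h
      have := h2 p (j (facB_r p) + q (j (facB_r p)) • ev 2) (by rw [hw0, e0])
        (by rw [hw1, e1]) (by rw [hw2]; exact h)
      rw [hw] at this
      exact this
  -- invariance
  have hfK : ∀ p, f p ∈ K ↔ p ∈ K := by
    intro p
    constructor
    · intro h
      by_contra hn
      rw [hf.off p hn] at h
      exact hn h
    · intro h
      by_contra hn
      have h3 := hf.off (f p) hn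
      exact hn (by rwa [f.injective h3])
  have hP : ∀ p : E3, (facB_r (f p) ∈ facB_S ∧ -2 < f p 2) ↔ (facB_r p ∈ facB_S ∧ -2 < p 2) := by
    intro p
    by_cases hp : p ∈ K
    · have h3 := (hfK p).2 hp
      rw [hK, facB_mem, abs_le] at hp h3
      constructor
      · intro _
        exact ⟨hp.1, by linarith [hp.2.1]⟩
      · intro _
        exact ⟨h3.1, by linarith [h3.2.1]⟩
    · rw [hf.off p hp]
  have hAB : f '' {p : E3 | facB_r p ∈ facB_S ∧ -2 < p 2 ∧ p 2 < c + q (j (facB_r p))} =
      {p : E3 | facB_r p ∈ facB_S ∧ -2 < p 2 ∧ p 2 < c} := by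
    ext y
    constructor
    · rintro ⟨p, ⟨hp1, hp2, hp3⟩, rfl⟩
      have h3 := (hP p).2 ⟨hp1, hp2⟩
      exact ⟨h3.1, h3.2, (hiff p).2 hp3⟩
    · rintro ⟨hp1, hp2, hp3⟩
      obtain ⟨p, rfl⟩ := f.surjective y
      have h3 := (hP p).1 ⟨hp1, hp2⟩
      exact ⟨p, ⟨h3.1, h3.2, (hiff p).1 hp3⟩, rfl⟩
  have hv := Vol.volume_image hf.dif hf.vol
    {p : E3 | facB_r p ∈ facB_S ∧ -2 < p 2 ∧ p 2 < c + q (j (facB_r p))}
  rw [hAB, facB_vol (g := fun z => c + q (j z)) hgc (fun z _ => hge z),
    facB_vol (g := fun _ => c) continuous_const (fun z _ => hc.le)] at hv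
  have hn1 : 0 ≤ ∫ z in facB_S, (c + q (j z) + 2) :=
    setIntegral_nonneg hS.measurableSet fun z _ => by linarith [hge z]
  have hn2 : 0 ≤ ∫ z in facB_S, (c + 2) :=
    setIntegral_nonneg hS.measurableSet fun z _ => by linarith
  rw [ENNReal.ofReal_eq_ofReal_iff hn2 hn1] at hv
  have hi1 : IntegrableOn (fun z => c + q (j z) + 2) facB_S volume :=
    (hgc.add continuous_const).continuousOn.integrableOn_compact hS
  have hi2 : IntegrableOn (fun _ => c + 2) facB_S volume :=
    continuousOn_const.integrableOn_compact hS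
  have h5 := integral_sub hi1 hi2
  rw [← hv, sub_self] at h5
  rw [← h5]
  refine setIntegral_congr_fun hS.measurableSet fun z _ => ?_
  simp only [hj]
  ring

/-- PROOF. Only `c = x 2` matters; if `|c| > 1` then all values of `q` are zero. Let `|c| ≤ 1`, `ζ
p = c + q (update p 2 c)`. For `|p 0|, |p 1| ≤ 1`: `-1 ≤ ζ p ≤ 1` (the point `w = update p 2 (ζ
p)` has `f w 2 = c` by `h1`; if it were not in the ball then `f w = w` and `ζ p = c`), and `f p 2
< c ↔ p 2 < ζ p` (`h2` and `h1`). Let `A = {p | |p 0| ≤ 1 ∧ |p 1| ≤ 1 ∧ -2 < p 2 ∧ f p 2 < c}`,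
`B` the same with `p 2 < c`. `f '' A = B`: both `f` and `f⁻¹` preserve the ball and are the
identity off it. `Vol.volume_image` (A/Meas): `volume A = volume B`. By
`measurePreserving_piFinSuccAbove` / `volume_preserving_piFinSuccAbove` for the coordinate `2` and
`Measure.prod_apply_symm` (or `volume_regionBetween_eq_integral`) `volume A = ∫⁻ over the square
of ofReal (ζ + 2)`, `volume B = ∫⁻ ofReal (c + 2)`, so (`ofReal_integral_eq_lintegral_ofReal`) the
integral of `q (update p 2 c)` over the square is zero; write it as an iterated integral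
(`volume_preserving_finTwoArrow`, `integral_prod`; `intervalIntegral.integral_of_le`; `q` is zero
off the square, so `[-2, 2]` can be replaced by `[-1, 1]` or `ℝ`). Any other proof is fine, for
instance: for all smooth `G` the function `G (f p 2) - G (p 2)` has the integral zero
(`integral_image` for `f` and for `a⁻¹`, `a p = update p 2 (f p 2)`), i.e. `∫ G' (x 2) q x dx =
0`, and `fubini3`. -/
theorem facB {f : Equiv.Perm E3} (hf : Ok (Metric.closedBall 0 1) f) {q : E3 → ℝ}
    (hq : ContDiff ℝ smo q) (h0 : ∀ x, x ∉ Metric.closedBall (0 : E3) 1 → q x = 0)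
    (h1 : ∀ u, f (u + q u • ev 2) 2 = u 2)
    (h2 : ∀ p p' : E3, p 0 = p' 0 → p 1 = p' 1 → p 2 < p' 2 → f p 2 < f p' 2) (x : E3) :
    facS 0 (facS 1 q) x = 0 := by
  have hqc : Continuous q := hq.continuous
  rcases le_or_gt (x 2) (-2) with hc | hc
  · -- all values are zero
    have : ∀ t s : ℝ, q (Function.update (Function.update x 0 t) 1 s) = 0 := by
      intro t s
      refine h0 _ fun hm => ?_
      rw [facB_mem, abs_le] at hm
      have h3 : Function.update (Function.update x 0 t) 1 s 2 = x 2 := by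
        simp
      rw [h3] at hm
      linarith [hm.2.1]
    simp [facS, this]
  · set j : (Fin 2 → ℝ) → E3 := fun z => Fin.insertNth (α := fun _ : Fin 3 => ℝ) 2 (x 2) z
      with hj
    have hjc : Continuous j := by
      rw [hj]
      fun_prop
    have hju : ∀ t s : ℝ, Function.update (Function.update x 0 t) 1 s = j ![t, s] := by
      intro t s
      have e0 : (Fin.succAbove 2 0 : Fin 3) = 0 := rfl
      have e1 : (Fin.succAbove 2 1 : Fin 3) = 1 := rfl
      funext i
      rw [hj]
      fin_cases i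
      · simp only [Fin.zero_eta]
        rw [← e0, Fin.insertNth_apply_succAbove]
        simp
      · simp only [Fin.mk_one]
        rw [← e1, Fin.insertNth_apply_succAbove]
        simp
      · simp
    have hjr : ∀ z, facB_r (j z) = z := by
      intro z
      funext i
      simp [facB_r, hj]
    have h3 := facB_sq hf hqc h1 h2 hc
    have hz : ∀ z, z ∉ facB_S → q (j z) = 0 := by
      intro z hz
      refine h0 _ fun hm => hz ?_
      rw [facB_mem, hjr] at hm
      exact hm.1
    rw [setIntegral_eq_integral_of_forall_compl_eq_zero hz] at h3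
    have h4 := (volume_preserving_finTwoArrow ℝ).symm _ |>.integral_comp'
      (f := (MeasurableEquiv.finTwoArrow (α := ℝ)).symm) (fun z : Fin 2 → ℝ => q (j z))
    have h5 : ∫ p : ℝ × ℝ, q (j ![p.1, p.2]) = 0 := h4.trans h3
    have hcs : HasCompactSupport fun p : ℝ × ℝ => q (j ![p.1, p.2]) := by
      refine HasCompactSupport.intro (K := Icc (-1 : ℝ) 1 ×ˢ Icc (-1 : ℝ) 1)
        (isCompact_Icc.prod isCompact_Icc) fun p hp => hz _ fun hm => hp ?_
      simp only [facB_S, mem_Icc, Pi.le_def, Fin.forall_fin_two] at hm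
      simp at hm
      exact ⟨⟨hm.1.1, hm.2.1⟩, ⟨hm.1.2, hm.2.2⟩⟩
    have hco : Continuous fun p : ℝ × ℝ => q (j ![p.1, p.2]) := by
      refine hqc.comp (hjc.comp ?_)
      refine continuous_pi fun i => ?_
      fin_cases i
      · exact continuous_fst
      · exact continuous_snd
    have h6 : ∫ t, ∫ s, q (j ![t, s]) = 0 := by
      rw [← h5]
      exact (integral_prod _ (hco.integrable_of_hasCompactSupport hcs)).symm
    have hb : ∀ t s : ℝ, ¬ (|t| ≤ 1 ∧ |s| ≤ 1) → q (j ![t, s]) = 0 := by
      intro t s hts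
      refine hz _ fun hm => hts ?_
      simp only [facB_S, mem_Icc, Pi.le_def, Fin.forall_fin_two] at hm
      simp at hm
      exact ⟨abs_le.2 ⟨hm.1.1, hm.2.1⟩, abs_le.2 ⟨hm.1.2, hm.2.2⟩⟩
    have hI : ∀ (F : ℝ → ℝ), (∀ t, ¬ |t| ≤ 1 → F t = 0) → ∫ t in (-2 : ℝ)..2, F t = ∫ t, F t := by
      intro F hF
      rw [intervalIntegral.integral_of_le (by norm_num)]
      refine setIntegral_eq_integral_of_forall_compl_eq_zero fun t ht => hF t fun ht2 => ht ?_
      rw [abs_le] at ht2
      exact ⟨by linarith [ht2.1], by linarith [ht2.2]⟩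
    rw [← h6]
    unfold facS
    simp only [hju]
    have h7 : ∀ t : ℝ, ∫ s in (-2 : ℝ)..2, q (j ![t, s]) = ∫ s, q (j ![t, s]) := fun t =>
      hI _ fun s hs => hb t s fun h => hs h.2
    simp only [h7]
    refine hI _ fun t ht => ?_
    have : ∀ s, q (j ![t, s]) = 0 := fun s => hb t s fun h => ht h.1
    simp [this]

end Pool.Agent.QM59
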