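import Mathlib
import Pool.Agent.Lib.MP_decea1_gt_Q0.Defs

/-!
# MP_decea1_gt (S14098), block C, section C0: weighted `C^K` bounds, uniform in the weight `η` of
the top level.
-/

set_option autoImplicit false
set_option maxSynthPendingDepth 3

open Set

namespace Pool.Agent.QM59.Nb

universe u

section

variable {F A A' A'' : Type*} [NormedAddCommGroup F] [NormedSpace ℝ F]
  [NormedAddCommGroup A] [NormedSpace ℝ A] [NormedAddCommGroup A'] [NormedSpace ℝ A']
  [NormedAddCommGroup A''] [NormedSpace ℝ A'']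

theorem natCast_le_smo (n : ℕ) : ((n : ℕ) : WithTop ℕ∞) ≤ smo := by
  unfold smo
  exact_mod_cast (le_top : (n : ℕ∞) ≤ ⊤)

/-- the derivatives of order `< K` are bounded by `c`, the derivative of order `K` by `c / η` -/
def NB (K : ℕ) (η : ℝ) (v : F → A) (c : ℝ) : Prop :=
  (∀ i < K, ∀ x, ‖iteratedFDeriv ℝ i v x‖ ≤ c) ∧ ∀ x, η * ‖iteratedFDeriv ℝ K v x‖ ≤ c

theorem NB.mono {K : ℕ} {η c c' : ℝ} {v : F → A} (h : NB K η v c) (hc : c ≤ c') :
    NB K η v c' :=
  ⟨fun i hi x => (h.1 i hi x).trans hc, fun x => (h.2 x).trans hc⟩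

/-- a larger weight is a stronger bound -/
theorem NB.mono_eta {K : ℕ} {η η' c : ℝ} {v : F → A} (h : NB K η v c) (hη : η' ≤ η) :
    NB K η' v c :=
  ⟨h.1, fun x => (mul_le_mul_of_nonneg_right hη (norm_nonneg _)).trans (h.2 x)⟩

theorem NB.level {K : ℕ} {η c : ℝ} {v : F → A} (hη1 : η ≤ 1) (h : NB K η v c)
    {i : ℕ} (hi : i ≤ K) (x : F) : η * ‖iteratedFDeriv ℝ i v x‖ ≤ c := by
  rcases hi.lt_or_eq with hi | rfl
  · exact (mul_le_of_le_one_left (norm_nonneg _) hη1).trans (h.1 i hi x)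
  · exact h.2 x

theorem NB.down {K K' : ℕ} {η c : ℝ} {v : F → A} (hη1 : η ≤ 1) (h : NB K η v c)
    (hK : K' ≤ K) : NB K' η v c :=
  ⟨fun i hi x => h.1 i (hi.trans_le hK) x, fun x => h.level hη1 hK x⟩

theorem NB.norm_le {K : ℕ} {η c : ℝ} {v : F → A} (h : NB K η v c) (hK : 1 ≤ K) (x : F) :
    ‖v x‖ ≤ c := by
  have := h.1 0 hK x
  simpa using this

theorem NB.nonneg {K : ℕ} {η c : ℝ} {v : F → A} (hη : 0 ≤ η) (h : NB K η v c) : 0 ≤ c :=
  (mul_nonneg hη (norm_nonneg _)).trans (h.2 0)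

theorem nb_succ_iff {K : ℕ} {η c : ℝ} {v : F → A} :
    NB (K + 1) η v c ↔ (∀ x, ‖v x‖ ≤ c) ∧ NB K η (fderiv ℝ v) c := by
  unfold NB
  simp only [norm_iteratedFDeriv_fderiv]
  constructor
  · rintro ⟨h1, h2⟩
    refine ⟨fun x => ?_, fun i hi x => h1 (i + 1) (by omega) x, h2⟩
    have := h1 0 (by omega) x
    simpa using this
  · rintro ⟨h0, h1, h2⟩
    refine ⟨fun i hi x => ?_, h2⟩
    rcases i with _ | i
    · simpa using h0 x
    · exact h1 i (by omega) x

theorem NB.fderiv {K : ℕ} {η c : ℝ} {v : F → A} (h : NB (K + 1) η v c) :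
    NB K η (fderiv ℝ v) c := (nb_succ_iff.1 h).2

theorem NB.norm_fderiv_le {K : ℕ} {η c : ℝ} {v : F → A} (h : NB K η v c) (hK : 2 ≤ K) (x : F) :
    ‖_root_.fderiv ℝ v x‖ ≤ c := by
  obtain ⟨K, rfl⟩ := Nat.exists_eq_add_of_le hK
  rw [add_comm] at h
  exact (NB.fderiv (K := K + 1) h).norm_le (by omega) x

/-- all derivatives up to the order `K` are bounded -/
theorem nb_of_le {K : ℕ} {η c : ℝ} {v : F → A} (hη1 : η ≤ 1)
    (h : ∀ i ≤ K, ∀ x, ‖iteratedFDeriv ℝ i v x‖ ≤ c) : NB K η v c :=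
  ⟨fun i hi x => h i hi.le x,
    fun x => (mul_le_of_le_one_left (norm_nonneg _) hη1).trans (h K le_rfl x)⟩

theorem NB.le_of_one {K : ℕ} {c : ℝ} {v : F → A} (h : NB K 1 v c) {i : ℕ} (hi : i ≤ K) (x : F) :
    ‖iteratedFDeriv ℝ i v x‖ ≤ c := by
  have := h.level le_rfl hi x
  simpa using this

theorem NB.neg {K : ℕ} {η c : ℝ} {v : F → A} (h : NB K η v c) : NB K η (fun x => -v x) c := by
  have e : ∀ i x, ‖iteratedFDeriv ℝ i (fun x => -v x) x‖ = ‖iteratedFDeriv ℝ i v x‖ := by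
    intro i x
    have : iteratedFDeriv ℝ i (fun x => -v x) x = -iteratedFDeriv ℝ i v x :=
      iteratedFDeriv_neg_apply (f := v)
    rw [this, norm_neg]
  exact ⟨fun i hi x => (e i x).trans_le (h.1 i hi x), fun x => by rw [e]; exact h.2 x⟩

theorem NB.add {K : ℕ} {η c c' : ℝ} {v w : F → A} (hv : ContDiff ℝ smo v) (hw : ContDiff ℝ smo w)
    (hη : 0 ≤ η) (h : NB K η v c) (h' : NB K η w c') : NB K η (fun x => v x + w x) (c + c') := by
  have e : ∀ i x, ‖iteratedFDeriv ℝ i (fun x => v x + w x) x‖ ≤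
      ‖iteratedFDeriv ℝ i v x‖ + ‖iteratedFDeriv ℝ i w x‖ := by
    intro i x
    have : iteratedFDeriv ℝ i (fun x => v x + w x) x =
        iteratedFDeriv ℝ i v x + iteratedFDeriv ℝ i w x :=
      iteratedFDeriv_add_apply (hv.contDiffAt.of_le (natCast_le_smo _))
        (hw.contDiffAt.of_le (natCast_le_smo _))
    rw [this]
    exact norm_add_le _ _
  refine ⟨fun i hi x => (e i x).trans (add_le_add (h.1 i hi x) (h'.1 i hi x)), fun x => ?_⟩
  calc η * ‖iteratedFDeriv ℝ K (fun x => v x + w x) x‖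
      ≤ η * (‖iteratedFDeriv ℝ K v x‖ + ‖iteratedFDeriv ℝ K w x‖) :=
        mul_le_mul_of_nonneg_left (e K x) hη
    _ = η * ‖iteratedFDeriv ℝ K v x‖ + η * ‖iteratedFDeriv ℝ K w x‖ := mul_add _ _ _
    _ ≤ c + c' := add_le_add (h.2 x) (h'.2 x)

theorem NB.sub {K : ℕ} {η c c' : ℝ} {v w : F → A} (hv : ContDiff ℝ smo v) (hw : ContDiff ℝ smo w)
    (hη : 0 ≤ η) (h : NB K η v c) (h' : NB K η w c') : NB K η (fun x => v x - w x) (c + c') := by
  simp only [sub_eq_add_neg]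
  exact h.add hv hw.neg hη h'.neg

theorem NB.congr {K : ℕ} {η c : ℝ} {v w : F → A} (h : NB K η v c) (e : ∀ x, v x = w x) :
    NB K η w c := by
  have : v = w := funext e
  exact this ▸ h

theorem NB.sum {ι : Type*} (s : Finset ι) {K : ℕ} {η : ℝ} {c : ι → ℝ} {v : ι → F → A}
    (hv : ∀ i ∈ s, ContDiff ℝ smo (v i)) (hη : 0 ≤ η) (h : ∀ i ∈ s, NB K η (v i) (c i)) :
    NB K η (fun x => ∑ i ∈ s, v i x) (∑ i ∈ s, c i) := by
  classical
  induction s using Finset.induction_on with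
  | empty =>
    simp only [Finset.sum_empty]
    refine ⟨fun i _ x => ?_, fun x => ?_⟩
    · have : iteratedFDeriv ℝ i (fun _ : F => (0 : A)) x = 0 := by
        have := iteratedFDeriv_fun_zero (𝕜 := ℝ) (E := F) (F := A) (n := i)
        rw [show (fun _ : F => (0 : A)) = (fun _ => 0) from rfl]
        exact congrFun this x
      rw [this, norm_zero]
    · have : iteratedFDeriv ℝ K (fun _ : F => (0 : A)) x = 0 := by
        have := iteratedFDeriv_fun_zero (𝕜 := ℝ) (E := F) (F := A) (n := K)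
        exact congrFun this x
      rw [this, norm_zero, mul_zero]
  | insert a s ha ih =>
    simp only [Finset.sum_insert ha]
    exact (h a (Finset.mem_insert_self _ _)).add (hv a (Finset.mem_insert_self _ _))
      (ContDiff.sum fun i hi => hv i (Finset.mem_insert_of_mem hi)) hη
      (ih (fun i hi => hv i (Finset.mem_insert_of_mem hi))
        (fun i hi => h i (Finset.mem_insert_of_mem hi)))

/-- composition with a continuous linear map -/
theorem NB.clm {K : ℕ} {η c : ℝ} {v : F → A} (L : A →L[ℝ] A') (hv : ContDiff ℝ smo v)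
    (hη : 0 ≤ η) (h : NB K η v c) : NB K η (fun x => L (v x)) (‖L‖ * c) := by
  have e : ∀ i x, ‖iteratedFDeriv ℝ i (fun x => L (v x)) x‖ ≤ ‖L‖ * ‖iteratedFDeriv ℝ i v x‖ :=
    fun i x => L.norm_iteratedFDeriv_comp_left (hv.contDiffAt (x := x))
      (natCast_le_smo _)
  refine ⟨fun i hi x => (e i x).trans (mul_le_mul_of_nonneg_left (h.1 i hi x) (norm_nonneg _)),
    fun x => ?_⟩
  calc η * ‖iteratedFDeriv ℝ K (fun x => L (v x)) x‖
      ≤ η * (‖L‖ * ‖iteratedFDeriv ℝ K v x‖) := mul_le_mul_of_nonneg_left (e K x) hη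
    _ = ‖L‖ * (η * ‖iteratedFDeriv ℝ K v x‖) := by ring
    _ ≤ ‖L‖ * c := mul_le_mul_of_nonneg_left (h.2 x) (norm_nonneg _)

/-- (E1), for a bilinear map -/
theorem NB.bilin {K : ℕ} (hK : 1 ≤ K) {η a a' : ℝ} (hη : 0 ≤ η) (hη1 : η ≤ 1)
    (B : A →L[ℝ] A' →L[ℝ] A'') {f : F → A} {g : F → A'}
    (hf : ContDiff ℝ smo f) (hg : ContDiff ℝ smo g) (h : NB K η f a) (h' : NB K η g a') :
    NB K η (fun x => B (f x) (g x)) (‖B‖ * (2 ^ K * (a * a'))) := by
  have ha : 0 ≤ a := h.nonneg hη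
  have ha' : 0 ≤ a' := h'.nonneg hη
  have e : ∀ i x, ‖iteratedFDeriv ℝ i (fun x => B (f x) (g x)) x‖ ≤
      ‖B‖ * ∑ j ∈ Finset.range (i + 1), (i.choose j : ℝ) * ‖iteratedFDeriv ℝ j f x‖ *
        ‖iteratedFDeriv ℝ (i - j) g x‖ := fun i x =>
    B.norm_iteratedFDeriv_le_of_bilinear hf hg x (n := i) (natCast_le_smo _)
  have hch : ∀ i : ℕ, ∑ j ∈ Finset.range (i + 1), (i.choose j : ℝ) * (a * a') =
      2 ^ i * (a * a') := by
    intro i
    rw [← Finset.sum_mul]
    congr 1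
    exact_mod_cast Nat.sum_range_choose i
  have hB : 0 ≤ ‖B‖ := B.opNorm_nonneg
  refine ⟨fun i hi x => (e i x).trans (mul_le_mul_of_nonneg_left ?_ hB),
    fun x => ?_⟩
  · calc ∑ j ∈ Finset.range (i + 1), (i.choose j : ℝ) * ‖iteratedFDeriv ℝ j f x‖ *
        ‖iteratedFDeriv ℝ (i - j) g x‖
        ≤ ∑ j ∈ Finset.range (i + 1), (i.choose j : ℝ) * (a * a') := by
          refine Finset.sum_le_sum fun j hj => ?_
          rw [Finset.mem_range] at hj
          rw [mul_assoc]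
          refine mul_le_mul_of_nonneg_left ?_ (Nat.cast_nonneg _)
          exact mul_le_mul (h.1 j (by omega) x) (h'.1 (i - j) (by omega) x) (norm_nonneg _) ha
      _ = 2 ^ i * (a * a') := hch i
      _ ≤ 2 ^ K * (a * a') := mul_le_mul_of_nonneg_right
          (pow_le_pow_right₀ one_le_two hi.le) (mul_nonneg ha ha')
  · have h1 : η * ∑ j ∈ Finset.range (K + 1), (K.choose j : ℝ) * ‖iteratedFDeriv ℝ j f x‖ *
        ‖iteratedFDeriv ℝ (K - j) g x‖ ≤ 2 ^ K * (a * a') := by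
      rw [← hch K, Finset.mul_sum]
      refine Finset.sum_le_sum fun j hj => ?_
      rw [Finset.mem_range] at hj
      have e2 : η * ((K.choose j : ℝ) * ‖iteratedFDeriv ℝ j f x‖ *
          ‖iteratedFDeriv ℝ (K - j) g x‖) = (K.choose j : ℝ) * (η * (‖iteratedFDeriv ℝ j f x‖ *
          ‖iteratedFDeriv ℝ (K - j) g x‖)) := by ring
      rw [e2]
      refine mul_le_mul_of_nonneg_left ?_ (Nat.cast_nonneg _)
      rcases Nat.eq_zero_or_pos j with rfl | hj0
      · calc η * (‖iteratedFDeriv ℝ 0 f x‖ * ‖iteratedFDeriv ℝ (K - 0) g x‖)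
            = ‖iteratedFDeriv ℝ 0 f x‖ * (η * ‖iteratedFDeriv ℝ K g x‖) := by
              rw [Nat.sub_zero]; ring
          _ ≤ a * a' := mul_le_mul (h.1 0 hK x) (h'.2 x)
              (mul_nonneg hη (norm_nonneg _)) ha
      · calc η * (‖iteratedFDeriv ℝ j f x‖ * ‖iteratedFDeriv ℝ (K - j) g x‖)
            = (η * ‖iteratedFDeriv ℝ j f x‖) * ‖iteratedFDeriv ℝ (K - j) g x‖ := by ring
          _ ≤ a * a' := mul_le_mul (h.level hη1 (by omega) x)
              (h'.1 (K - j) (by omega) x) (norm_nonneg _) ha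
    calc η * ‖iteratedFDeriv ℝ K (fun x => B (f x) (g x)) x‖
        ≤ η * (‖B‖ * ∑ j ∈ Finset.range (K + 1), (K.choose j : ℝ) * ‖iteratedFDeriv ℝ j f x‖ *
            ‖iteratedFDeriv ℝ (K - j) g x‖) := mul_le_mul_of_nonneg_left (e K x) hη
      _ = ‖B‖ * (η * ∑ j ∈ Finset.range (K + 1), (K.choose j : ℝ) * ‖iteratedFDeriv ℝ j f x‖ *
            ‖iteratedFDeriv ℝ (K - j) g x‖) := by ring
      _ ≤ ‖B‖ * (2 ^ K * (a * a')) := mul_le_mul_of_nonneg_left h1 hB

/-- (E1), for the product of two scalar functions -/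
theorem NB.mul {K : ℕ} (hK : 1 ≤ K) {η a a' : ℝ} (hη : 0 ≤ η) (hη1 : η ≤ 1)
    {f g : F → ℝ} (hf : ContDiff ℝ smo f) (hg : ContDiff ℝ smo g) (h : NB K η f a)
    (h' : NB K η g a') : NB K η (fun x => f x * g x) (2 ^ K * (a * a')) := by
  have := NB.bilin hK hη hη1 (ContinuousLinearMap.mul ℝ ℝ) hf hg h h'
  refine (this.congr fun x => by simp).mono ?_
  have h1 : ‖ContinuousLinearMap.mul ℝ ℝ‖ ≤ 1 := ContinuousLinearMap.opNorm_mul_le ℝ ℝ
  exact mul_le_of_le_one_left (mul_nonneg (by positivity)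
    (mul_nonneg (h.nonneg hη) (h'.nonneg hη))) h1

theorem NB.smul {K : ℕ} (hK : 1 ≤ K) {η a a' : ℝ} (hη : 0 ≤ η) (hη1 : η ≤ 1)
    {f : F → ℝ} {g : F → A} (hf : ContDiff ℝ smo f) (hg : ContDiff ℝ smo g) (h : NB K η f a)
    (h' : NB K η g a') : NB K η (fun x => f x • g x) (2 ^ K * (a * a')) := by
  have := NB.bilin hK hη hη1 (ContinuousLinearMap.lsmul ℝ ℝ : ℝ →L[ℝ] A →L[ℝ] A) hf hg h h'
  refine (this.congr fun x => by simp).mono ?_
  have h1 : ‖(ContinuousLinearMap.lsmul ℝ ℝ : ℝ →L[ℝ] A →L[ℝ] A)‖ ≤ 1 :=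
    ContinuousLinearMap.opNorm_lsmul_le
  exact mul_le_of_le_one_left (mul_nonneg (by positivity)
    (mul_nonneg (h.nonneg hη) (h'.nonneg hη))) h1

/-- the constant function -/
theorem nb_const {K : ℕ} (hK : 1 ≤ K) {η : ℝ} (a : A) : NB K η (fun _ : F => a) ‖a‖ := by
  refine ⟨fun i hi x => ?_, fun x => ?_⟩
  · rcases Nat.eq_zero_or_pos i with rfl | h0
    · simp
    · rw [iteratedFDeriv_const_of_ne (by omega : i ≠ 0)]
      simp
  · rw [iteratedFDeriv_const_of_ne (by omega : K ≠ 0)]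
    simp

/-- the constants of (E2), (E3), (E4), for `1 ≤ K` -/
noncomputable def cN : ℕ → ℝ
  | 0 => 1
  | K + 1 => 2 ^ (K + 1) * cN K

theorem one_le_cN (K : ℕ) : 1 ≤ cN K := by
  induction K with
  | zero => exact le_rfl
  | succ K ih =>
    have h : (1 : ℝ) ≤ 2 ^ (K + 1) := one_le_pow₀ one_le_two
    calc (1 : ℝ) = 1 * 1 := (one_mul 1).symm
      _ ≤ 2 ^ (K + 1) * cN K := mul_le_mul h ih zero_le_one (by positivity)

theorem cN_pos (K : ℕ) : 0 < cN K := zero_lt_one.trans_le (one_le_cN K)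

theorem cN_le_succ (K : ℕ) : cN K ≤ cN (K + 1) :=
  le_mul_of_one_le_left (cN_pos K).le (one_le_pow₀ one_le_two)

theorem cN_one : cN 1 = 2 := by
  simp [cN]

theorem two_mul_le_cN_succ {K : ℕ} : 2 * (2 ^ K * cN K) = cN (K + 1) := by
  rw [cN, pow_succ]
  ring

theorem norm_compL_le : ‖ContinuousLinearMap.compL ℝ F F A‖ ≤ 1 :=
  ContinuousLinearMap.norm_compL_le ℝ F F A

theorem differentiable_of_smo {v : F → A} (hv : ContDiff ℝ smo v) : Differentiable ℝ v :=
  hv.differentiable (by simp [smo])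

theorem contDiff_fderiv_smo {v : F → A} (hv : ContDiff ℝ smo v) :
    ContDiff ℝ smo (fderiv ℝ v) :=
  hv.fderiv_right (by simp [smo])

/-- the derivative of `U ∘ (id + V)` -/
theorem fderiv_comp_id_add {U : F → A} {V : F → F} (hU : Differentiable ℝ U)
    (hV : Differentiable ℝ V) (x : F) :
    fderiv ℝ (fun x => U (x + V x)) x =
      (fderiv ℝ U (x + V x)).comp (ContinuousLinearMap.id ℝ F + fderiv ℝ V x) := by
  have h1 : HasFDerivAt (fun x => x + V x) (ContinuousLinearMap.id ℝ F + fderiv ℝ V x) x :=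
    (hasFDerivAt_id x).add (hV x).hasFDerivAt
  exact ((hU (x + V x)).hasFDerivAt.comp x h1).fderiv

theorem norm_id_add_le (L : F →L[ℝ] F) : ‖ContinuousLinearMap.id ℝ F + L‖ ≤ 1 + ‖L‖ :=
  (norm_add_le _ _).trans (by gcongr; exact ContinuousLinearMap.norm_id_le)

end

/-- (E2) -/
theorem NB.comp {F : Type} [NormedAddCommGroup F] [NormedSpace ℝ F] (K : ℕ) (hK : 1 ≤ K) :
    ∀ {A : Type u} [NormedAddCommGroup A] [NormedSpace ℝ A] {η c : ℝ} {U : F → A} {V : F → F},
      0 ≤ η → η ≤ 1 → ContDiff ℝ smo U → ContDiff ℝ smo V → NB K η V 1 →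
      (∀ x, ‖_root_.fderiv ℝ V x‖ ≤ 1) → NB K η U c →
      NB K η (fun x => U (x + V x)) (cN K * c) := by
  induction K, hK using Nat.le_induction with
  | base =>
    intro A _ _ η c U V hη hη1 hU hV hV1 hDV hUc
    have hc := hUc.nonneg hη
    refine nb_succ_iff.2 ⟨fun x => ?_, ?_⟩
    · rw [cN_one]
      linarith [hUc.norm_le le_rfl (x + V x)]
    · refine ⟨fun i hi => absurd hi (by omega), fun x => ?_⟩
      rw [norm_iteratedFDeriv_zero,
        fderiv_comp_id_add (differentiable_of_smo hU) (differentiable_of_smo hV)]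
      have h1 : η * ‖_root_.fderiv ℝ U (x + V x)‖ ≤ c := by
        have := hUc.2 (x + V x)
        rwa [← norm_iteratedFDeriv_fderiv, norm_iteratedFDeriv_zero] at this
      have h2 : ‖ContinuousLinearMap.id ℝ F + _root_.fderiv ℝ V x‖ ≤ 2 :=
        (norm_id_add_le _).trans (by linarith [hDV x])
      calc η * ‖(_root_.fderiv ℝ U (x + V x)).comp
            (ContinuousLinearMap.id ℝ F + _root_.fderiv ℝ V x)‖
          ≤ η * (‖_root_.fderiv ℝ U (x + V x)‖ *
            ‖ContinuousLinearMap.id ℝ F + _root_.fderiv ℝ V x‖) :=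
            mul_le_mul_of_nonneg_left (ContinuousLinearMap.opNorm_comp_le _ _) hη
        _ = (η * ‖_root_.fderiv ℝ U (x + V x)‖) *
            ‖ContinuousLinearMap.id ℝ F + _root_.fderiv ℝ V x‖ := (mul_assoc _ _ _).symm
        _ ≤ c * 2 := mul_le_mul h1 h2 (norm_nonneg _) hc
        _ = cN 1 * c := by rw [cN_one, mul_comm]
  | succ K hK ih =>
    intro A _ _ η c U V hη hη1 hU hV hV1 hDV hUc
    have hc := hUc.nonneg hη
    refine nb_succ_iff.2 ⟨fun x => ?_, ?_⟩
    · exact (hUc.norm_le (by omega) _).trans (le_mul_of_one_le_left hc (one_le_cN _))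
    · have e1 : NB K η (fun x => _root_.fderiv ℝ U (x + V x)) (cN K * c) :=
        ih hη hη1 (contDiff_fderiv_smo hU) hV (hV1.down hη1 (by omega)) hDV hUc.fderiv
      have e2 : NB K η (fun x => ContinuousLinearMap.id ℝ F + _root_.fderiv ℝ V x) 2 := by
        refine ((nb_const hK (ContinuousLinearMap.id ℝ F)).add contDiff_const
          (contDiff_fderiv_smo hV) hη hV1.fderiv).mono ?_
        linarith [ContinuousLinearMap.norm_id_le (𝕜 := ℝ) (E := F)]
      have hsm : ContDiff ℝ smo (fun x => x + V x) := contDiff_id.add hV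
      have e3 := NB.bilin hK hη hη1 (ContinuousLinearMap.compL ℝ F F A)
        ((contDiff_fderiv_smo hU).comp hsm) (contDiff_const.add (contDiff_fderiv_smo hV)) e1 e2
      refine (e3.congr fun x => ?_).mono ?_
      · rw [fderiv_comp_id_add (differentiable_of_smo hU) (differentiable_of_smo hV)]
        rfl
      · have h1 : 0 ≤ 2 ^ K * (cN K * c * 2) := by
          have := (cN_pos K).le
          positivity
        calc ‖ContinuousLinearMap.compL ℝ F F A‖ * (2 ^ K * (cN K * c * 2))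
            ≤ 1 * (2 ^ K * (cN K * c * 2)) := mul_le_mul_of_nonneg_right norm_compL_le h1
          _ = cN (K + 1) * c := by rw [cN, pow_succ]; ring

/-- (E3) -/
theorem NB.comp_sub {F : Type} [NormedAddCommGroup F] [NormedSpace ℝ F] (K : ℕ) (hK : 1 ≤ K) :
    ∀ {A : Type u} [NormedAddCommGroup A] [NormedSpace ℝ A] {η θ c : ℝ} {U : F → A} {V : F → F},
      0 ≤ η → η ≤ 1 → ContDiff ℝ smo U → ContDiff ℝ smo V → NB K η V 1 →
      (∀ x, ‖_root_.fderiv ℝ V x‖ ≤ 1) → NB (K + 1) 1 U θ → NB K η V c →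
      NB K η (fun x => U (x + V x) - U x) (cN K * (θ * c)) := by
  have key : ∀ {A : Type u} [NormedAddCommGroup A] [NormedSpace ℝ A] {θ : ℝ} {U : F → A},
      ContDiff ℝ smo U → (∀ x, ‖_root_.fderiv ℝ U x‖ ≤ θ) → ∀ x h, ‖U (x + h) - U x‖ ≤ θ * ‖h‖ := by
    intro A _ _ θ U hU h x v
    have := Convex.norm_image_sub_le_of_norm_fderiv_le (𝕜 := ℝ) (f := U) (s := univ) (C := θ)
      (x := x) (y := x + v) (fun y _ => differentiable_of_smo hU y) (fun y _ => h y) convex_univ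
      (mem_univ _) (mem_univ _)
    simpa using this
  induction K, hK using Nat.le_induction with
  | base =>
    intro A _ _ η θ c U V hη hη1 hU hV hV1 hDV hUθ hVc
    have hc := hVc.nonneg hη
    have hθ := hUθ.nonneg zero_le_one
    have hU1 : ∀ x, ‖_root_.fderiv ℝ U x‖ ≤ θ := fun x => hUθ.norm_fderiv_le (by omega) x
    have hU2 : ∀ x, ‖_root_.fderiv ℝ (_root_.fderiv ℝ U) x‖ ≤ θ := by
      intro x
      have := hUθ.le_of_one le_rfl x
      rwa [← norm_iteratedFDeriv_fderiv, ← norm_iteratedFDeriv_fderiv,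
        norm_iteratedFDeriv_zero] at this
    have hV0 : ∀ x, ‖V x‖ ≤ c := fun x => hVc.norm_le le_rfl x
    have hV2 : ∀ x, η * ‖_root_.fderiv ℝ V x‖ ≤ c := by
      intro x
      have := hVc.2 x
      rwa [← norm_iteratedFDeriv_fderiv, norm_iteratedFDeriv_zero] at this
    refine nb_succ_iff.2 ⟨fun x => ?_, ?_⟩
    · have h1 := key hU hU1 x (V x)
      have h2 : θ * ‖V x‖ ≤ θ * c := mul_le_mul_of_nonneg_left (hV0 x) hθ
      rw [cN_one]
      linarith [mul_nonneg hθ hc]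
    · refine ⟨fun i hi => absurd hi (by omega), fun x => ?_⟩
      have hd : _root_.fderiv ℝ (fun x => U (x + V x) - U x) x =
          (_root_.fderiv ℝ U (x + V x) - _root_.fderiv ℝ U x) +
            (_root_.fderiv ℝ U (x + V x)).comp (_root_.fderiv ℝ V x) := by
        have hsm : Differentiable ℝ (fun x => U (x + V x)) :=
          (differentiable_of_smo hU).comp (differentiable_id.add (differentiable_of_smo hV))
        rw [fderiv_fun_sub (hsm x) (differentiable_of_smo hU x),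
          fderiv_comp_id_add (differentiable_of_smo hU) (differentiable_of_smo hV),
          ContinuousLinearMap.comp_add, ContinuousLinearMap.comp_id]
        abel
      rw [norm_iteratedFDeriv_zero, hd]
      have h1 := key (contDiff_fderiv_smo hU) hU2 x (V x)
      have h2 : θ * ‖V x‖ ≤ θ * c := mul_le_mul_of_nonneg_left (hV0 x) hθ
      calc η * ‖(_root_.fderiv ℝ U (x + V x) - _root_.fderiv ℝ U x) +
            (_root_.fderiv ℝ U (x + V x)).comp (_root_.fderiv ℝ V x)‖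
          ≤ η * (θ * c + θ * ‖_root_.fderiv ℝ V x‖) := by
            refine mul_le_mul_of_nonneg_left ((norm_add_le _ _).trans (add_le_add (h1.trans h2)
              ((ContinuousLinearMap.opNorm_comp_le _ _).trans ?_))) hη
            exact mul_le_mul_of_nonneg_right (hU1 _) (norm_nonneg _)
        _ = η * (θ * c) + θ * (η * ‖_root_.fderiv ℝ V x‖) := by ring
        _ ≤ θ * c + θ * c := add_le_add
            (mul_le_of_le_one_left (mul_nonneg hθ hc) hη1) (mul_le_mul_of_nonneg_left (hV2 x) hθ)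
        _ = cN 1 * (θ * c) := by rw [cN_one]; ring
  | succ K hK ih =>
    intro A _ _ η θ c U V hη hη1 hU hV hV1 hDV hUθ hVc
    have hc := hVc.nonneg hη
    have hθ := hUθ.nonneg zero_le_one
    have hθc := mul_nonneg hθ hc
    have hU1 : ∀ x, ‖_root_.fderiv ℝ U x‖ ≤ θ := fun x => hUθ.norm_fderiv_le (by omega) x
    refine nb_succ_iff.2 ⟨fun x => ?_, ?_⟩
    · have h1 := key hU hU1 x (V x)
      have h2 : θ * ‖V x‖ ≤ θ * c := mul_le_mul_of_nonneg_left (hVc.norm_le (by omega) x) hθ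
      exact (h1.trans h2).trans (le_mul_of_one_le_left hθc (one_le_cN _))
    · have e1 : NB K η (fun x => _root_.fderiv ℝ U (x + V x) - _root_.fderiv ℝ U x)
          (cN K * (θ * c)) :=
        ih hη hη1 (contDiff_fderiv_smo hU) hV (hV1.down hη1 (by omega)) hDV hUθ.fderiv
          (hVc.down hη1 (by omega))
      have e2 : NB K η (fun x => _root_.fderiv ℝ U (x + V x)) (cN K * θ) := by
        refine NB.comp K hK hη hη1 (contDiff_fderiv_smo hU) hV (hV1.down hη1 (by omega)) hDV ?_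
        exact (hUθ.fderiv.mono_eta hη1).down hη1 (by omega)
      have hsm : ContDiff ℝ smo (fun x => x + V x) := contDiff_id.add hV
      have hs1 : ContDiff ℝ smo (fun x => _root_.fderiv ℝ U (x + V x)) :=
        (contDiff_fderiv_smo hU).comp hsm
      have hs2 := contDiff_fderiv_smo hV
      have e3 : NB K η (fun x => (_root_.fderiv ℝ U (x + V x)).comp (_root_.fderiv ℝ V x))
          (‖ContinuousLinearMap.compL ℝ F F A‖ * (2 ^ K * (cN K * θ * c))) :=
        (NB.bilin hK hη hη1 (ContinuousLinearMap.compL ℝ F F A) hs1 hs2 e2 hVc.fderiv).congr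
          fun x => rfl
      have e4 := e1.add (hs1.sub (contDiff_fderiv_smo hU)) (hs1.clm_comp hs2) hη e3
      refine (e4.congr fun x => ?_).mono ?_
      · have hsd : Differentiable ℝ (fun x => U (x + V x)) :=
          (differentiable_of_smo hU).comp (differentiable_id.add (differentiable_of_smo hV))
        rw [fderiv_fun_sub (hsd x) (differentiable_of_smo hU x),
          fderiv_comp_id_add (differentiable_of_smo hU) (differentiable_of_smo hV),
          ContinuousLinearMap.comp_add, ContinuousLinearMap.comp_id]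
        abel
      · have h1 : 0 ≤ 2 ^ K * (cN K * θ * c) := by
          have := (cN_pos K).le
          positivity
        have h2 : (1 : ℝ) ≤ 2 ^ K := one_le_pow₀ one_le_two
        calc cN K * (θ * c) + ‖ContinuousLinearMap.compL ℝ F F A‖ * (2 ^ K * (cN K * θ * c))
            ≤ 2 ^ K * (cN K * (θ * c)) + 1 * (2 ^ K * (cN K * θ * c)) :=
              add_le_add (le_mul_of_one_le_left (mul_nonneg (cN_pos K).le hθc) h2)
                (mul_le_mul_of_nonneg_right norm_compL_le h1)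
          _ = cN (K + 1) * (θ * c) := by rw [cN, pow_succ]; ring

section

variable {F : Type} [NormedAddCommGroup F] [NormedSpace ℝ F]

/-- the derivative of the inverse of `id + V` -/
theorem fderiv_inv_eq {V V' : F → F} (hV : ContDiff ℝ smo V) (hV' : ContDiff ℝ smo V')
    (h : ∀ x, V' x = -V (x + V' x)) (x : F) :
    fderiv ℝ V' x = -(fderiv ℝ V (x + V' x)) -
      (fderiv ℝ V (x + V' x)).comp (fderiv ℝ V' x) := by
  have h1 : V' = fun x => -V (x + V' x) := funext h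
  have h2 : fderiv ℝ V' x = fderiv ℝ (fun x => -V (x + V' x)) x :=
    congrArg (fun g => fderiv ℝ g x) h1
  rw [fderiv_fun_neg, fderiv_comp_id_add (differentiable_of_smo hV) (differentiable_of_smo hV'),
    ContinuousLinearMap.comp_add, ContinuousLinearMap.comp_id] at h2
  conv_lhs => rw [h2]
  abel

theorem norm_fderiv_inv_le {V V' : F → F} (hV : ContDiff ℝ smo V) (hV' : ContDiff ℝ smo V')
    (h : ∀ x, V' x = -V (x + V' x)) {a : ℝ} (hDV : ∀ x, ‖fderiv ℝ V x‖ ≤ a) (ha : a ≤ 1 / 2)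
    (x : F) : ‖fderiv ℝ V' x‖ ≤ 2 * a := by
  have h1 : ‖fderiv ℝ V' x‖ ≤ a + a * ‖fderiv ℝ V' x‖ := by
    conv_lhs => rw [fderiv_inv_eq hV hV' h x]
    refine (norm_sub_le _ _).trans (add_le_add ?_ ?_)
    · rw [norm_neg]
      exact hDV _
    · exact (ContinuousLinearMap.opNorm_comp_le _ _).trans
        (mul_le_mul_of_nonneg_right (hDV _) (norm_nonneg _))
  nlinarith [norm_nonneg (fderiv ℝ V' x)]

/-- (E4) -/
theorem NB.inv (K : ℕ) (hK : 1 ≤ K) : ∀ {η c : ℝ} {V V' : F → F}, 0 ≤ η → η ≤ 1 →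
    ContDiff ℝ smo V → ContDiff ℝ smo V' → (∀ x, V' x = -V (x + V' x)) →
    (∀ x, ‖_root_.fderiv ℝ V x‖ ≤ 1 / 2) → NB K η V c → 2 * cN K * c ≤ 1 →
    NB K η V' (2 * cN K * c) := by
  induction K, hK using Nat.le_induction with
  | base =>
    intro η c V V' hη hη1 hV hV' h hDV hVc _
    have hc := hVc.nonneg hη
    refine nb_succ_iff.2 ⟨fun x => ?_, ?_⟩
    · rw [h x, norm_neg, cN_one]
      linarith [hVc.norm_le le_rfl (x + V' x)]
    · refine ⟨fun i hi => absurd hi (by omega), fun x => ?_⟩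
      rw [norm_iteratedFDeriv_zero]
      have h1 : η * ‖_root_.fderiv ℝ V (x + V' x)‖ ≤ c := by
        have := hVc.2 (x + V' x)
        rwa [← norm_iteratedFDeriv_fderiv, norm_iteratedFDeriv_zero] at this
      have h2 : ‖_root_.fderiv ℝ V' x‖ ≤ ‖_root_.fderiv ℝ V (x + V' x)‖ +
          ‖_root_.fderiv ℝ V (x + V' x)‖ * ‖_root_.fderiv ℝ V' x‖ := by
        conv_lhs => rw [fderiv_inv_eq hV hV' h x]
        refine (norm_sub_le _ _).trans (add_le_add (norm_neg _).le ?_)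
        exact ContinuousLinearMap.opNorm_comp_le _ _
      have h3 : ‖_root_.fderiv ℝ V (x + V' x)‖ * (η * ‖_root_.fderiv ℝ V' x‖) ≤
          1 / 2 * (η * ‖_root_.fderiv ℝ V' x‖) :=
        mul_le_mul_of_nonneg_right (hDV _) (mul_nonneg hη (norm_nonneg _))
      have h4 := mul_le_mul_of_nonneg_left h2 hη
      rw [cN_one]
      nlinarith
  | succ K hK ih =>
    intro η c V V' hη hη1 hV hV' h hDV hVc hc1
    have hc := hVc.nonneg hη
    have hmono : 2 * cN K * c ≤ 2 * cN (K + 1) * c :=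
      mul_le_mul_of_nonneg_right (mul_le_mul_of_nonneg_left (cN_le_succ K) zero_le_two) hc
    have hI : NB K 1 V' (2 * cN K * c) := by
      refine ih zero_le_one le_rfl hV hV' h hDV ?_ (hmono.trans hc1)
      exact nb_of_le le_rfl fun i hi x => hVc.1 i (by omega) x
    have hI1 : NB K 1 V' 1 := hI.mono (hmono.trans hc1)
    have hDV' : ∀ x, ‖_root_.fderiv ℝ V' x‖ ≤ 1 := fun x =>
      (norm_fderiv_inv_le hV hV' h hDV le_rfl x).trans (by norm_num)
    have hA : NB K η (fun x => _root_.fderiv ℝ V (x + V' x)) (cN K * c) :=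
      NB.comp K hK hη hη1 (contDiff_fderiv_smo hV) hV' (hI1.mono_eta hη1) hDV' hVc.fderiv
    have hAs : ContDiff ℝ smo (fun x => _root_.fderiv ℝ V (x + V' x)) :=
      (contDiff_fderiv_smo hV).comp (contDiff_id.add hV')
    have hWs := contDiff_fderiv_smo hV'
    refine ⟨fun i hi x => (hI.le_of_one (by omega : i ≤ K) x).trans hmono, fun x => ?_⟩
    rw [← norm_iteratedFDeriv_fderiv]
    have e1 : ‖iteratedFDeriv ℝ K (_root_.fderiv ℝ V') x‖ ≤
        ‖iteratedFDeriv ℝ K (fun x => _root_.fderiv ℝ V (x + V' x)) x‖ +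
        ‖iteratedFDeriv ℝ K
          (fun x => (_root_.fderiv ℝ V (x + V' x)).comp (_root_.fderiv ℝ V' x)) x‖ := by
      have h1 : _root_.fderiv ℝ V' = (fun x => -(_root_.fderiv ℝ V (x + V' x)) -
          (_root_.fderiv ℝ V (x + V' x)).comp (_root_.fderiv ℝ V' x)) :=
        funext fun x => fderiv_inv_eq hV hV' h x
      conv_lhs => rw [h1]
      have h2 : iteratedFDeriv ℝ K (fun x => -(_root_.fderiv ℝ V (x + V' x)) -
          (_root_.fderiv ℝ V (x + V' x)).comp (_root_.fderiv ℝ V' x)) x =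
          iteratedFDeriv ℝ K (fun x => -(_root_.fderiv ℝ V (x + V' x))) x -
          iteratedFDeriv ℝ K
            (fun x => (_root_.fderiv ℝ V (x + V' x)).comp (_root_.fderiv ℝ V' x)) x :=
        iteratedFDeriv_sub_apply (hAs.neg.contDiffAt.of_le (natCast_le_smo _))
          ((hAs.clm_comp hWs).contDiffAt.of_le (natCast_le_smo _))
      have h3 : iteratedFDeriv ℝ K (fun x => -(_root_.fderiv ℝ V (x + V' x))) x =
          -iteratedFDeriv ℝ K (fun x => _root_.fderiv ℝ V (x + V' x)) x :=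
        iteratedFDeriv_neg_apply (f := fun x => _root_.fderiv ℝ V (x + V' x))
      rw [h2, h3]
      refine (norm_sub_le _ _).trans ?_
      rw [norm_neg]
    have e2 : ‖iteratedFDeriv ℝ K
        (fun x => (_root_.fderiv ℝ V (x + V' x)).comp (_root_.fderiv ℝ V' x)) x‖ ≤
        ∑ j ∈ Finset.range (K + 1), (K.choose j : ℝ) *
          ‖iteratedFDeriv ℝ j (fun x => _root_.fderiv ℝ V (x + V' x)) x‖ *
          ‖iteratedFDeriv ℝ (K - j) (_root_.fderiv ℝ V') x‖ :=
      (ContinuousLinearMap.compL ℝ F F F).norm_iteratedFDeriv_le_of_bilinear_of_le_one hAs hWs x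
        (n := K) (natCast_le_smo _) norm_compL_le
    rw [Finset.sum_range_succ'] at e2
    simp only [Nat.choose_zero_right, Nat.cast_one, one_mul, norm_iteratedFDeriv_zero,
      Nat.sub_zero] at e2
    have e3 : η * ∑ j ∈ Finset.range K, (K.choose (j + 1) : ℝ) *
          ‖iteratedFDeriv ℝ (j + 1) (fun x => _root_.fderiv ℝ V (x + V' x)) x‖ *
          ‖iteratedFDeriv ℝ (K - (j + 1)) (_root_.fderiv ℝ V') x‖ ≤ 2 ^ K * (cN K * c) := by
      have hch : ∑ j ∈ Finset.range K, (K.choose (j + 1) : ℝ) ≤ 2 ^ K := by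
        have h1 : ∑ j ∈ Finset.range (K + 1), (K.choose j : ℝ) = 2 ^ K := by
          exact_mod_cast Nat.sum_range_choose K
        rw [Finset.sum_range_succ'] at h1
        have h2 : (0 : ℝ) ≤ (K.choose 0 : ℝ) := Nat.cast_nonneg _
        linarith
      have hp : 0 ≤ cN K * c := mul_nonneg (cN_pos K).le hc
      refine le_trans ?_ (mul_le_mul_of_nonneg_right hch hp)
      rw [Finset.mul_sum, Finset.sum_mul]
      refine Finset.sum_le_sum fun j hj => ?_
      rw [Finset.mem_range] at hj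
      have e4 : η * ((K.choose (j + 1) : ℝ) *
          ‖iteratedFDeriv ℝ (j + 1) (fun x => _root_.fderiv ℝ V (x + V' x)) x‖ *
          ‖iteratedFDeriv ℝ (K - (j + 1)) (_root_.fderiv ℝ V') x‖) = (K.choose (j + 1) : ℝ) *
          ((η * ‖iteratedFDeriv ℝ (j + 1) (fun x => _root_.fderiv ℝ V (x + V' x)) x‖) *
          ‖iteratedFDeriv ℝ (K - (j + 1)) (_root_.fderiv ℝ V') x‖) := by ring
      rw [e4]
      refine mul_le_mul_of_nonneg_left ?_ (Nat.cast_nonneg _)
      have h1 := hA.level hη1 (by omega : j + 1 ≤ K) x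
      have h2 : ‖iteratedFDeriv ℝ (K - (j + 1)) (_root_.fderiv ℝ V') x‖ ≤ 1 := by
        rw [norm_iteratedFDeriv_fderiv]
        exact hI1.le_of_one (by omega) x
      calc _ ≤ (cN K * c) * 1 := mul_le_mul h1 h2 (norm_nonneg _) hp
        _ = cN K * c := mul_one _
    have e5 : η * ‖iteratedFDeriv ℝ K (fun x => _root_.fderiv ℝ V (x + V' x)) x‖ ≤ cN K * c :=
      hA.2 x
    have e6 : ‖_root_.fderiv ℝ V (x + V' x)‖ *
        (η * ‖iteratedFDeriv ℝ K (_root_.fderiv ℝ V') x‖) ≤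
        1 / 2 * (η * ‖iteratedFDeriv ℝ K (_root_.fderiv ℝ V') x‖) :=
      mul_le_mul_of_nonneg_right (hDV _) (mul_nonneg hη (norm_nonneg _))
    have e7 := mul_le_mul_of_nonneg_left (e1.trans (add_le_add_right e2 _)) hη
    have e8 : cN K * c ≤ 2 ^ K * (cN K * c) :=
      le_mul_of_one_le_left (mul_nonneg (cN_pos K).le hc) (one_le_pow₀ one_le_two)
    have e9 : 2 * cN (K + 1) * c = 4 * (2 ^ K * (cN K * c)) := by
      rw [cN, pow_succ]
      ring
    rw [e9]
    have e10 : η * (‖iteratedFDeriv ℝ K (fun x => _root_.fderiv ℝ V (x + V' x)) x‖ +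
        (∑ j ∈ Finset.range K, (K.choose (j + 1) : ℝ) *
          ‖iteratedFDeriv ℝ (j + 1) (fun x => _root_.fderiv ℝ V (x + V' x)) x‖ *
          ‖iteratedFDeriv ℝ (K - (j + 1)) (_root_.fderiv ℝ V') x‖ +
        ‖_root_.fderiv ℝ V (x + V' x)‖ * ‖iteratedFDeriv ℝ K (_root_.fderiv ℝ V') x‖)) =
        η * ‖iteratedFDeriv ℝ K (fun x => _root_.fderiv ℝ V (x + V' x)) x‖ +
        η * (∑ j ∈ Finset.range K, (K.choose (j + 1) : ℝ) *
          ‖iteratedFDeriv ℝ (j + 1) (fun x => _root_.fderiv ℝ V (x + V' x)) x‖ *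
          ‖iteratedFDeriv ℝ (K - (j + 1)) (_root_.fderiv ℝ V') x‖) +
        ‖_root_.fderiv ℝ V (x + V' x)‖ *
          (η * ‖iteratedFDeriv ℝ K (_root_.fderiv ℝ V') x‖) := by ring
    rw [e10] at e7
    linarith

/-- (E5) -/
theorem NB.comp_add {K : ℕ} (hK : 1 ≤ K) {η c c' : ℝ} {A : Type u} [NormedAddCommGroup A]
    [NormedSpace ℝ A] {V₁ : F → F} {V : F → A} (L : F →L[ℝ] A) (hη : 0 ≤ η) (hη1 : η ≤ 1)
    (hV : ContDiff ℝ smo V) (hV₁ : ContDiff ℝ smo V₁) (h1 : NB K η V₁ 1)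
    (hD : ∀ x, ‖_root_.fderiv ℝ V₁ x‖ ≤ 1) (h : NB K η V c) (h' : NB K η V₁ c') :
    NB K η (fun x => L (V₁ x) + V (x + V₁ x)) (‖L‖ * c' + cN K * c) :=
  (h'.clm L hV₁ hη).add (L.contDiff.comp hV₁) (hV.comp (contDiff_id.add hV₁)) hη
    (NB.comp K hK hη hη1 hV hV₁ h1 hD h)

/-- (E5), for maps `id + V` with values in the same space -/
theorem NB.comp_id {K : ℕ} (hK : 1 ≤ K) {η c c' : ℝ} {V V₁ : F → F} (hη : 0 ≤ η) (hη1 : η ≤ 1)
    (hV : ContDiff ℝ smo V) (hV₁ : ContDiff ℝ smo V₁) (h1 : NB K η V₁ 1)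
    (hD : ∀ x, ‖_root_.fderiv ℝ V₁ x‖ ≤ 1) (h : NB K η V c) (h' : NB K η V₁ c') :
    NB K η (fun x => V₁ x + V (x + V₁ x)) (c' + cN K * c) :=
  h'.add hV₁ (hV.comp (contDiff_id.add hV₁)) hη (NB.comp K hK hη hη1 hV hV₁ h1 hD h)

end

section scale

variable {F : Type} {A : Type u} [NormedAddCommGroup F] [NormedSpace ℝ F]
  [NormedAddCommGroup A] [NormedSpace ℝ A]

theorem NB.const_smul {K : ℕ} {η c : ℝ} {v : F → A} (a : ℝ) (hv : ContDiff ℝ smo v)
    (h : NB K η v c) : NB K η (fun x => a • v x) (|a| * c) := by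
  have e : ∀ i x, ‖iteratedFDeriv ℝ i (fun x => a • v x) x‖ = |a| * ‖iteratedFDeriv ℝ i v x‖ := by
    intro i x
    rw [iteratedFDeriv_const_smul_apply' (hv.contDiffAt.of_le (natCast_le_smo _)), norm_smul,
      Real.norm_eq_abs]
  refine ⟨fun i hi x => ?_, fun x => ?_⟩
  · rw [e]
    exact mul_le_mul_of_nonneg_left (h.1 i hi x) (abs_nonneg a)
  · rw [e, mul_left_comm]
    exact mul_le_mul_of_nonneg_left (h.2 x) (abs_nonneg a)

/-- composition with a linear map on the right -/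
theorem NB.comp_clm {K : ℕ} {η c : ℝ} {F' : Type} [NormedAddCommGroup F'] [NormedSpace ℝ F']
    {v : F → A} (L : F' →L[ℝ] F) {l : ℝ} (hl : ‖L‖ ≤ l) (hl1 : 1 ≤ l) (hv : ContDiff ℝ smo v)
    (hη : 0 ≤ η) (h : NB K η v c) : NB K η (fun x => v (L x)) (l ^ K * c) := by
  have hc := h.nonneg hη
  have e : ∀ i x, ‖iteratedFDeriv ℝ i (fun x => v (L x)) x‖ ≤
      l ^ i * ‖iteratedFDeriv ℝ i v (L x)‖ := by
    intro i x
    have h1 : iteratedFDeriv ℝ i (v ∘ L) x =
        (iteratedFDeriv ℝ i v (L x)).compContinuousLinearMap fun _ => L :=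
      L.iteratedFDeriv_comp_right hv x (natCast_le_smo i)
    have h2 := (iteratedFDeriv ℝ i v (L x)).norm_compContinuousLinearMap_le fun _ => L
    rw [Finset.prod_const, Finset.card_univ, Fintype.card_fin] at h2
    have h3 : (fun x => v (L x)) = v ∘ L := rfl
    rw [h3, h1, mul_comm]
    exact h2.trans (mul_le_mul_of_nonneg_left (pow_le_pow_left₀ (norm_nonneg _) hl i)
      (norm_nonneg _))
  refine ⟨fun i hi x => (e i x).trans ?_, fun x => ?_⟩
  · exact mul_le_mul (pow_le_pow_right₀ hl1 hi.le) (h.1 i hi _) (norm_nonneg _) (by positivity)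
  · calc η * ‖iteratedFDeriv ℝ K (fun x => v (L x)) x‖
        ≤ η * (l ^ K * ‖iteratedFDeriv ℝ K v (L x)‖) := mul_le_mul_of_nonneg_left (e K x) hη
      _ = l ^ K * (η * ‖iteratedFDeriv ℝ K v (L x)‖) := by ring
      _ ≤ l ^ K * c := mul_le_mul_of_nonneg_left (h.2 _) (by positivity)

/-- the norms at the scale `N`: `‖D ^ i v‖ ≤ c N ^ i` for `i < K`, `η ‖D ^ K v‖ ≤ c N ^ K` -/
def NBN (K : ℕ) (N η : ℝ) (v : F → A) (c : ℝ) : Prop :=
  (∀ i < K, ∀ x, ‖iteratedFDeriv ℝ i v x‖ ≤ c * N ^ i) ∧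
    ∀ x, η * ‖iteratedFDeriv ℝ K v x‖ ≤ c * N ^ K

theorem NBN.mono {K : ℕ} {N η c c' : ℝ} {v : F → A} (hN : 0 ≤ N) (h : NBN K N η v c)
    (hc : c ≤ c') : NBN K N η v c' :=
  ⟨fun i hi x => (h.1 i hi x).trans (mul_le_mul_of_nonneg_right hc (by positivity)),
    fun x => (h.2 x).trans (mul_le_mul_of_nonneg_right hc (by positivity))⟩

theorem NBN.mono_eta {K : ℕ} {N η η' c : ℝ} {v : F → A} (h : NBN K N η v c) (hη : η' ≤ η) :
    NBN K N η' v c :=
  ⟨h.1, fun x => (mul_le_mul_of_nonneg_right hη (norm_nonneg _)).trans (h.2 x)⟩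

theorem NBN.nonneg {K : ℕ} {N η c : ℝ} {v : F → A} (hη : 0 ≤ η) (hN : 0 < N)
    (h : NBN K N η v c) : 0 ≤ c := by
  have h1 := (mul_nonneg hη (norm_nonneg _)).trans (h.2 0)
  exact nonneg_of_mul_nonneg_left h1 (by positivity)

/-- a larger scale is a weaker bound -/
theorem NBN.mono_N {K : ℕ} {N N' η c : ℝ} {v : F → A} (hN : 0 < N) (hNN : N ≤ N') (hη : 0 ≤ η)
    (h : NBN K N η v c) : NBN K N' η v c := by
  have hc := h.nonneg hη hN
  exact ⟨fun i hi x => (h.1 i hi x).trans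
      (mul_le_mul_of_nonneg_left (pow_le_pow_left₀ hN.le hNN i) hc),
    fun x => (h.2 x).trans (mul_le_mul_of_nonneg_left (pow_le_pow_left₀ hN.le hNN K) hc)⟩

theorem nbn_one_iff {K : ℕ} {η c : ℝ} {v : F → A} : NBN K 1 η v c ↔ NB K η v c := by
  unfold NBN NB
  simp only [one_pow, mul_one]

/-- rescaling -/
theorem nbn_iff {K : ℕ} {N η c : ℝ} {v : F → A} (hN : 0 < N) (hv : ContDiff ℝ smo v) :
    NBN K N η v c ↔ NB K η (fun x => v (N⁻¹ • x)) c := by
  have e : ∀ i x, ‖iteratedFDeriv ℝ i (fun x => v (N⁻¹ • x)) x‖ =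
      (N ^ i)⁻¹ * ‖iteratedFDeriv ℝ i v (N⁻¹ • x)‖ := by
    intro i x
    rw [iteratedFDeriv_comp_const_smul (N⁻¹) (hv.of_le (natCast_le_smo i)), norm_smul, norm_pow,
      Real.norm_eq_abs, abs_of_pos (inv_pos.2 hN), inv_pow]
  have key : ∀ (i : ℕ) (t : ℝ), (N ^ i)⁻¹ * t ≤ c ↔ t ≤ c * N ^ i := by
    intro i t
    rw [inv_mul_le_iff₀ (by positivity), mul_comm c]
  unfold NBN NB
  constructor
  · rintro ⟨h1, h2⟩
    refine ⟨fun i hi x => ?_, fun x => ?_⟩
    · rw [e, key]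
      exact h1 i hi _
    · rw [e, mul_left_comm, key]
      exact h2 _
  · rintro ⟨h1, h2⟩
    refine ⟨fun i hi x => ?_, fun x => ?_⟩
    · have := h1 i hi (N • x)
      rwa [e, key, inv_smul_smul₀ hN.ne'] at this
    · have := h2 (N • x)
      rwa [e, mul_left_comm, key, inv_smul_smul₀ hN.ne'] at this

/-- rescaling of the displacement `v` of a map `id + v` -/
theorem NBN.disp {K : ℕ} {N η c : ℝ} {v : F → A} (hN : 0 < N) (hv : ContDiff ℝ smo v)
    (h : NBN K N η v c) : NB K η (fun x => N • v (N⁻¹ • x)) (N * c) := by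
  have h1 := NB.const_smul N (hv.comp (contDiff_const_smul N⁻¹)) ((nbn_iff hN hv).1 h)
  rwa [abs_of_pos hN] at h1

theorem disp_smooth {N : ℝ} {v : F → A} (hv : ContDiff ℝ smo v) :
    ContDiff ℝ smo (fun x => N • v (N⁻¹ • x)) :=
  contDiff_const.smul (hv.comp (contDiff_const_smul N⁻¹))

theorem disp_fderiv {N : ℝ} (hN : 0 < N) {v : F → A} (hv : ContDiff ℝ smo v) (x : F) :
    fderiv ℝ (fun x => N • v (N⁻¹ • x)) x = fderiv ℝ v (N⁻¹ • x) := by
  have h1 : HasFDerivAt (fun x : F => N⁻¹ • x) (N⁻¹ • ContinuousLinearMap.id ℝ F) x :=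
    (hasFDerivAt_id x).const_smul N⁻¹
  have h2 := (((differentiable_of_smo hv) (N⁻¹ • x)).hasFDerivAt.comp x h1).const_smul N
  have h3 : N • (fderiv ℝ v (N⁻¹ • x)).comp (N⁻¹ • ContinuousLinearMap.id ℝ F) =
      fderiv ℝ v (N⁻¹ • x) := by
    ext y
    simp [smul_smul, mul_inv_cancel₀ hN.ne']
  rw [h3] at h2
  exact h2.fderiv

theorem NBN.add {K : ℕ} {N η c c' : ℝ} {v w : F → A} (hN : 0 < N) (hη : 0 ≤ η)
    (hv : ContDiff ℝ smo v) (hw : ContDiff ℝ smo w) (h : NBN K N η v c) (h' : NBN K N η w c') :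
    NBN K N η (fun x => v x + w x) (c + c') := by
  rw [nbn_iff hN hv] at h
  rw [nbn_iff hN hw] at h'
  rw [nbn_iff hN (hv.add hw)]
  exact h.add (hv.comp (contDiff_const_smul N⁻¹)) (hw.comp (contDiff_const_smul N⁻¹)) hη h'

theorem NBN.neg {K : ℕ} {N η c : ℝ} {v : F → A} (h : NBN K N η v c) :
    NBN K N η (fun x => -v x) c := by
  have e : ∀ i x, ‖iteratedFDeriv ℝ i (fun x => -v x) x‖ = ‖iteratedFDeriv ℝ i v x‖ := by
    intro i x
    have : iteratedFDeriv ℝ i (fun x => -v x) x = -iteratedFDeriv ℝ i v x :=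
      iteratedFDeriv_neg_apply (f := v)
    rw [this, norm_neg]
  exact ⟨fun i hi x => (e i x).trans_le (h.1 i hi x), fun x => by rw [e]; exact h.2 x⟩

/-- (E2) at the scale `N` -/
theorem NBN.comp {K : ℕ} (hK : 1 ≤ K) {N η c c' : ℝ} (hN : 0 < N) {U : F → A} {V : F → F}
    (hη : 0 ≤ η) (hη1 : η ≤ 1) (hU : ContDiff ℝ smo U) (hV : ContDiff ℝ smo V)
    (h1 : NBN K N η V c') (hc' : N * c' ≤ 1) (hD : ∀ x, ‖_root_.fderiv ℝ V x‖ ≤ 1)
    (h : NBN K N η U c) : NBN K N η (fun x => U (x + V x)) (cN K * c) := by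
  rw [nbn_iff hN hU] at h
  have hUV : ContDiff ℝ smo (fun x => U (x + V x)) := hU.comp (contDiff_id.add hV)
  rw [nbn_iff hN hUV]
  refine (NB.comp K hK hη hη1 (hU.comp (contDiff_const_smul N⁻¹)) (disp_smooth (N := N) hV)
    ((h1.disp hN hV).mono hc') (fun x => ?_) h).congr fun x => ?_
  · rw [disp_fderiv hN hV]
    exact hD _
  · simp only [Function.comp_apply]
    rw [smul_add, smul_smul, inv_mul_cancel₀ hN.ne', one_smul]

/-- (E3) at the scale `N` -/
theorem NBN.comp_sub {K : ℕ} (hK : 1 ≤ K) {N η θ c : ℝ} (hN : 0 < N) {U : F → A} {V : F → F}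
    (hη : 0 ≤ η) (hη1 : η ≤ 1) (hU : ContDiff ℝ smo U) (hV : ContDiff ℝ smo V)
    (h1 : NBN K N η V c) (hc : N * c ≤ 1) (hD : ∀ x, ‖_root_.fderiv ℝ V x‖ ≤ 1)
    (h : NBN (K + 1) N 1 U θ) :
    NBN K N η (fun x => U (x + V x) - U x) (cN K * (θ * (N * c))) := by
  rw [nbn_iff hN hU] at h
  have hUV : ContDiff ℝ smo (fun x => U (x + V x) - U x) :=
    (hU.comp (contDiff_id.add hV)).sub hU
  rw [nbn_iff hN hUV]
  refine (NB.comp_sub K hK hη hη1 (hU.comp (contDiff_const_smul N⁻¹)) (disp_smooth (N := N) hV)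
    ((h1.disp hN hV).mono hc) (fun x => ?_) h (h1.disp hN hV)).congr fun x => ?_
  · rw [disp_fderiv hN hV]
    exact hD _
  · simp only [Function.comp_apply]
    rw [smul_add, smul_smul, inv_mul_cancel₀ hN.ne', one_smul]

/-- (E4) at the scale `N` -/
theorem NBN.inv {K : ℕ} (hK : 1 ≤ K) {N η c : ℝ} (hN : 0 < N) {V V' : F → F}
    (hη : 0 ≤ η) (hη1 : η ≤ 1) (hV : ContDiff ℝ smo V) (hV' : ContDiff ℝ smo V')
    (e : ∀ x, V' x = -V (x + V' x)) (hD : ∀ x, ‖_root_.fderiv ℝ V x‖ ≤ 1 / 2)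
    (h : NBN K N η V c) (hc : 2 * cN K * (N * c) ≤ 1) : NBN K N η V' (2 * cN K * c) := by
  have h1 := NB.inv K hK hη hη1 (disp_smooth (N := N) hV) (disp_smooth (N := N) hV')
    (fun x => by
      rw [smul_add N⁻¹, smul_smul, inv_mul_cancel₀ hN.ne', one_smul, ← smul_neg, ← e])
    (fun x => by rw [disp_fderiv hN hV]; exact hD _) (h.disp hN hV) hc
  have h2 := NB.const_smul N⁻¹ (disp_smooth (N := N) hV') h1
  rw [nbn_iff hN hV']
  rw [abs_of_pos (inv_pos.2 hN)] at h2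
  refine (h2.congr fun x => ?_).mono (le_of_eq ?_)
  · rw [smul_smul, inv_mul_cancel₀ hN.ne', one_smul]
  · field_simp

/-- (E5) at the scale `N` -/
theorem NBN.comp_id {K : ℕ} (hK : 1 ≤ K) {N η c c' : ℝ} (hN : 0 < N) {V V₁ : F → F}
    (hη : 0 ≤ η) (hη1 : η ≤ 1) (hV : ContDiff ℝ smo V) (hV₁ : ContDiff ℝ smo V₁)
    (hD : ∀ x, ‖_root_.fderiv ℝ V₁ x‖ ≤ 1) (h : NBN K N η V c) (h' : NBN K N η V₁ c')
    (hc' : N * c' ≤ 1) : NBN K N η (fun x => V₁ x + V (x + V₁ x)) (c' + cN K * c) :=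
  h'.add hN hη hV₁ (hV.comp (contDiff_id.add hV₁)) (NBN.comp hK hN hη hη1 hV hV₁ h' hc' hD h)

end scale

end Pool.Agent.QM59.Nb
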