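import Pool.Agent.Lib.MP_decea1_gt_C.CDefs
import Pool.Agent.Lib.MP_decea1_gt_C.Norms

/-!
# MP_decea1_gt, block C, C0: the weighted norms, elementary operations

All functions are smooth. Proofs: linearity of `iteratedFDeriv`, the Leibniz bound
`ContinuousLinearMap.norm_iteratedFDeriv_le_of_bilinear_of_le_one` (in the sum
`∑_{i ≤ K} binom K i |D^i f| |D^{K-i} g|` at the top level `K ≥ 1` the terms `i = 0`, `i = K` contain
one factor of level `K`, which carries the weight `η`, and one factor of level `0`; all other terms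
only contain levels `< K`, and `η ≤ 1`), and `D^i (v (N⁻¹ x)) = N^{-i} (D^i v) (N⁻¹ x)`.
-/

set_option autoImplicit false

open MeasureTheory Set

namespace Pool.Agent.QM59

variable {V W X Y : Type*} [NormedAddCommGroup V] [NormedSpace ℝ V] [NormedAddCommGroup W]
  [NormedSpace ℝ W] [NormedAddCommGroup X] [NormedSpace ℝ X] [NormedAddCommGroup Y]
  [NormedSpace ℝ Y] {K : ℕ} {N η a b c : ℝ}

theorem bu_iff_bd {v : V → W} : Bu K η c v ↔ Bd K 1 η c v := by
  unfold Bu Bd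
  simp only [one_pow, mul_one]

theorem bu_one_iff {v : V → W} : Bu K 1 c v ↔ Bn K c v := by
  unfold Bu Bn
  simp only [one_mul]
  constructor
  · rintro ⟨h1, h2⟩ i hi x
    rcases hi.lt_or_eq with hi | rfl
    · exact h1 i hi x
    · exact h2 x
  · intro h
    exact ⟨fun i hi => h i hi.le, h K le_rfl⟩

theorem Bn.bu {v : V → W} (h : Bn K c v) (h0 : 0 ≤ c) (hη : 0 ≤ η) (h1 : η ≤ 1) :
    Bu K η c v := by
  exact ⟨fun i hi => h i hi.le, fun x =>
    (mul_le_of_le_one_left (norm_nonneg _) h1).trans (h K le_rfl x)⟩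

theorem Bd.mono {v : V → W} (h : Bd K N η a v) (hN : 0 ≤ N) (hab : a ≤ b) : Bd K N η b v := by
  exact ⟨fun i hi x => (h.1 i hi x).trans (mul_le_mul_of_nonneg_right hab (by positivity)),
    fun x => (h.2 x).trans (mul_le_mul_of_nonneg_right hab (by positivity))⟩

/-- a larger scale -/
theorem Bd.mono_N {v : V → W} {N' : ℝ} (h : Bd K N η a v) (ha : 0 ≤ a) (hN : 0 ≤ N)
    (hN' : N ≤ N') : Bd K N' η a v := by
  exact ⟨fun i hi x => (h.1 i hi x).trans
      (mul_le_mul_of_nonneg_left (pow_le_pow_left₀ hN hN' i) ha),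
    fun x => (h.2 x).trans (mul_le_mul_of_nonneg_left (pow_le_pow_left₀ hN hN' K) ha)⟩

theorem Bd.add {v w : V → W} (hv : ContDiff ℝ smo v) (hw : ContDiff ℝ smo w)
    (h : Bd K N η a v) (h' : Bd K N η b w) (hη : 0 ≤ η) :
    Bd K N η (a + b) (fun x => v x + w x) := by
  have e : ∀ i x, ‖iteratedFDeriv ℝ i (fun x => v x + w x) x‖ ≤
      ‖iteratedFDeriv ℝ i v x‖ + ‖iteratedFDeriv ℝ i w x‖ := by
    intro i x
    have h1 : iteratedFDeriv ℝ i (fun x => v x + w x) x =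
        iteratedFDeriv ℝ i v x + iteratedFDeriv ℝ i w x :=
      iteratedFDeriv_add_apply (hv.contDiffAt.of_le (Nb.natCast_le_smo _))
        (hw.contDiffAt.of_le (Nb.natCast_le_smo _))
    rw [h1]
    exact norm_add_le _ _
  refine ⟨fun i hi x => (e i x).trans ?_, fun x => ?_⟩
  · rw [add_mul]
    exact add_le_add (h.1 i hi x) (h'.1 i hi x)
  · calc η * ‖iteratedFDeriv ℝ K (fun x => v x + w x) x‖
        ≤ η * (‖iteratedFDeriv ℝ K v x‖ + ‖iteratedFDeriv ℝ K w x‖) :=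
          mul_le_mul_of_nonneg_left (e K x) hη
      _ = η * ‖iteratedFDeriv ℝ K v x‖ + η * ‖iteratedFDeriv ℝ K w x‖ := mul_add _ _ _
      _ ≤ (a + b) * N ^ K := by
          rw [add_mul]
          exact add_le_add (h.2 x) (h'.2 x)

theorem Bd.neg {v : V → W} (h : Bd K N η a v) : Bd K N η a (fun x => - v x) := by
  have e : ∀ i x, ‖iteratedFDeriv ℝ i (fun x => -v x) x‖ = ‖iteratedFDeriv ℝ i v x‖ := by
    intro i x
    have h1 : iteratedFDeriv ℝ i (fun x => -v x) x = -iteratedFDeriv ℝ i v x :=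
      iteratedFDeriv_neg_apply (f := v)
    rw [h1, norm_neg]
  exact ⟨fun i hi x => (e i x).trans_le (h.1 i hi x), fun x => by rw [e]; exact h.2 x⟩

theorem Bd.sub {v w : V → W} (hv : ContDiff ℝ smo v) (hw : ContDiff ℝ smo w)
    (h : Bd K N η a v) (h' : Bd K N η b w) (hη : 0 ≤ η) :
    Bd K N η (a + b) (fun x => v x - w x) := by
  simp only [sub_eq_add_neg]
  exact h.add hv hw.neg h'.neg hη

theorem Bd.clm {v : V → W} (hv : ContDiff ℝ smo v) (L : W →L[ℝ] X) (h : Bd K N η a v)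
    (hη : 0 ≤ η) : Bd K N η (‖L‖ * a) (fun x => L (v x)) := by
  have e : ∀ i x, ‖iteratedFDeriv ℝ i (fun x => L (v x)) x‖ ≤ ‖L‖ * ‖iteratedFDeriv ℝ i v x‖ :=
    fun i x => L.norm_iteratedFDeriv_comp_left (hv.contDiffAt (x := x))
      (Nb.natCast_le_smo _)
  refine ⟨fun i hi x => (e i x).trans ?_, fun x => ?_⟩
  · rw [mul_assoc]
    exact mul_le_mul_of_nonneg_left (h.1 i hi x) (norm_nonneg _)
  · calc η * ‖iteratedFDeriv ℝ K (fun x => L (v x)) x‖
        ≤ η * (‖L‖ * ‖iteratedFDeriv ℝ K v x‖) := mul_le_mul_of_nonneg_left (e K x) hη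
      _ = ‖L‖ * (η * ‖iteratedFDeriv ℝ K v x‖) := by ring
      _ ≤ ‖L‖ * (a * N ^ K) := mul_le_mul_of_nonneg_left (h.2 x) (norm_nonneg _)
      _ = ‖L‖ * a * N ^ K := (mul_assoc _ _ _).symm

/-- Leibniz -/
theorem Bd.bilin {f : V → W} {g : V → X} (hf : ContDiff ℝ smo f) (hg : ContDiff ℝ smo g)
    (B : W →L[ℝ] X →L[ℝ] Y) (hB : ‖B‖ ≤ 1) (hK : 1 ≤ K) (hN : 0 ≤ N) (hη : 0 ≤ η) (h1 : η ≤ 1)
    (ha : 0 ≤ a) (hb : 0 ≤ b) (h : Bd K N η a f) (h' : Bd K N η b g) :
    Bd K N η (2 ^ K * a * b) (fun x => B (f x) (g x)) := by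
  have e : ∀ i x, ‖iteratedFDeriv ℝ i (fun x => B (f x) (g x)) x‖ ≤
      ∑ j ∈ Finset.range (i + 1), (i.choose j : ℝ) * ‖iteratedFDeriv ℝ j f x‖ *
        ‖iteratedFDeriv ℝ (i - j) g x‖ := fun i x =>
    B.norm_iteratedFDeriv_le_of_bilinear_of_le_one hf hg x (n := i) (Nb.natCast_le_smo _) hB
  have hch : ∀ i : ℕ, ∑ j ∈ Finset.range (i + 1), (i.choose j : ℝ) * (a * b * N ^ i) =
      2 ^ i * a * b * N ^ i := by
    intro i
    rw [← Finset.sum_mul]
    have h2 : ∑ j ∈ Finset.range (i + 1), (i.choose j : ℝ) = 2 ^ i := by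
      exact_mod_cast Nat.sum_range_choose i
    rw [h2]
    ring
  have hpow : ∀ {i j : ℕ}, j ≤ i → a * N ^ j * (b * N ^ (i - j)) = a * b * N ^ i := by
    intro i j hj
    rw [← pow_mul_pow_sub N hj]
    ring
  have hlev : ∀ i ≤ K, ∀ x, η * ‖iteratedFDeriv ℝ i f x‖ ≤ a * N ^ i := by
    intro i hi x
    rcases hi.lt_or_eq with hi | rfl
    · exact (mul_le_of_le_one_left (norm_nonneg _) h1).trans (h.1 i hi x)
    · exact h.2 x
  refine ⟨fun i hi x => (e i x).trans ?_, fun x => ?_⟩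
  · calc ∑ j ∈ Finset.range (i + 1), (i.choose j : ℝ) * ‖iteratedFDeriv ℝ j f x‖ *
        ‖iteratedFDeriv ℝ (i - j) g x‖
        ≤ ∑ j ∈ Finset.range (i + 1), (i.choose j : ℝ) * (a * b * N ^ i) := by
          refine Finset.sum_le_sum fun j hj => ?_
          rw [Finset.mem_range] at hj
          rw [mul_assoc, ← hpow (by omega : j ≤ i)]
          refine mul_le_mul_of_nonneg_left ?_ (Nat.cast_nonneg _)
          exact mul_le_mul (h.1 j (by omega) x) (h'.1 (i - j) (by omega) x) (norm_nonneg _)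
            (by positivity)
      _ = 2 ^ i * a * b * N ^ i := hch i
      _ ≤ 2 ^ K * a * b * N ^ i := by
          have h3 : (2 : ℝ) ^ i ≤ 2 ^ K := pow_le_pow_right₀ one_le_two hi.le
          have h4 : 0 ≤ a * b * N ^ i := by positivity
          calc (2 : ℝ) ^ i * a * b * N ^ i = 2 ^ i * (a * b * N ^ i) := by ring
            _ ≤ 2 ^ K * (a * b * N ^ i) := mul_le_mul_of_nonneg_right h3 h4
            _ = 2 ^ K * a * b * N ^ i := by ring
  · refine (mul_le_mul_of_nonneg_left (e K x) hη).trans ?_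
    rw [← hch K, Finset.mul_sum]
    refine Finset.sum_le_sum fun j hj => ?_
    rw [Finset.mem_range] at hj
    have e2 : η * ((K.choose j : ℝ) * ‖iteratedFDeriv ℝ j f x‖ *
        ‖iteratedFDeriv ℝ (K - j) g x‖) = (K.choose j : ℝ) * (η * (‖iteratedFDeriv ℝ j f x‖ *
        ‖iteratedFDeriv ℝ (K - j) g x‖)) := by ring
    rw [e2, ← hpow (by omega : j ≤ K)]
    refine mul_le_mul_of_nonneg_left ?_ (Nat.cast_nonneg _)
    rcases Nat.eq_zero_or_pos j with rfl | hj0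
    · calc η * (‖iteratedFDeriv ℝ 0 f x‖ * ‖iteratedFDeriv ℝ (K - 0) g x‖)
          = ‖iteratedFDeriv ℝ 0 f x‖ * (η * ‖iteratedFDeriv ℝ (K - 0) g x‖) := by ring
        _ ≤ a * N ^ 0 * (b * N ^ (K - 0)) := mul_le_mul (h.1 0 hK x) (h'.2 x)
            (mul_nonneg hη (norm_nonneg _)) (by positivity)
    · calc η * (‖iteratedFDeriv ℝ j f x‖ * ‖iteratedFDeriv ℝ (K - j) g x‖)
          = (η * ‖iteratedFDeriv ℝ j f x‖) * ‖iteratedFDeriv ℝ (K - j) g x‖ := by ring
        _ ≤ a * N ^ j * (b * N ^ (K - j)) := mul_le_mul (hlev j (by omega) x)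
            (h'.1 (K - j) (by omega) x) (norm_nonneg _) (by positivity)

theorem Bd.smul {f : V → ℝ} {g : V → X} (hf : ContDiff ℝ smo f) (hg : ContDiff ℝ smo g)
    (hK : 1 ≤ K) (hN : 0 ≤ N) (hη : 0 ≤ η) (h1 : η ≤ 1)
    (ha : 0 ≤ a) (hb : 0 ≤ b) (h : Bd K N η a f) (h' : Bd K N η b g) :
    Bd K N η (2 ^ K * a * b) (fun x => f x • g x) := by
  exact Bd.bilin hf hg (ContinuousLinearMap.lsmul ℝ ℝ : ℝ →L[ℝ] X →L[ℝ] X)
    ContinuousLinearMap.opNorm_lsmul_le hK hN hη h1 ha hb h h'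

/-- the derivative of a function of two orders more -/
theorem Bn.fderiv {v : V → W} (h : Bn (K + 1) c v) : Bn K c (fderiv ℝ v) := by
  intro i hi x
  rw [norm_iteratedFDeriv_fderiv]
  exact h (i + 1) (by omega) x

theorem Bu.fderiv {v : V → W} (h : Bu (K + 1) η c v) : Bu K η c (fderiv ℝ v) := by
  exact Nb.NB.fderiv h

/-- change of scale -/
theorem bd_iff_bu {v : V → W} (hv : ContDiff ℝ smo v) (hN : 0 < N) :
    Bd K N η c v ↔ Bu K η c (fun x => v (N⁻¹ • x)) := by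
  have e : ∀ i x, ‖iteratedFDeriv ℝ i (fun x => v (N⁻¹ • x)) x‖ =
      (N ^ i)⁻¹ * ‖iteratedFDeriv ℝ i v (N⁻¹ • x)‖ := by
    intro i x
    rw [iteratedFDeriv_comp_const_smul (N⁻¹) (hv.of_le (Nb.natCast_le_smo i)), norm_smul, norm_pow,
      Real.norm_eq_abs, abs_of_pos (inv_pos.2 hN), inv_pow]
  have key : ∀ (i : ℕ) (t : ℝ), (N ^ i)⁻¹ * t ≤ c ↔ t ≤ c * N ^ i := by
    intro i t
    rw [inv_mul_le_iff₀ (by positivity), mul_comm c]
  unfold Bd Bu
  constructor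
  · rintro ⟨h1, h2⟩
    refine ⟨fun i hi x => ?_, fun x => ?_⟩
    · rw [e, key]
      exact h1 i hi _
    · rw [e, mul_left_comm, key]
      exact h2 _
  · rintro ⟨h1, h2⟩
    refine ⟨fun i hi x => ?_, fun x => ?_⟩
    · have := h1 i hi (N • x)
      rwa [e, key, inv_smul_smul₀ hN.ne'] at this
    · have := h2 (N • x)
      rwa [e, mul_left_comm, key, inv_smul_smul₀ hN.ne'] at this

end Pool.Agent.QM59
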