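import Pool.Agent.Lib.MP_decea1_gt_C.FacI
import Pool.Agent.Lib.MP_decea1_gt_C.Nrm
import Pool.Agent.Lib.MP_decea1_gt_A.Bump

/-!
# MP_decea1_gt, block C, C1, part C: the two generating functions
-/

set_option autoImplicit false

open MeasureTheory Set

namespace Pool.Agent.QM59

private theorem facC_bd {k : ℕ} {c : ℝ} {v : E3 → ℝ} : Bn k c v ↔ Bd k 1 1 c v :=
  bu_one_iff.symm.trans bu_iff_bd

private theorem facC_zero {g : ℝ → ℝ} {a b : ℝ} (h : ∀ t ∈ uIcc a b, g t = 0) :
    ∫ t in a..b, g t = 0 := by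
  rw [intervalIntegral.integral_congr (g := fun _ => (0 : ℝ)) (fun t ht => h t ht)]
  exact intervalIntegral.integral_zero

private theorem facC_not_mem {x : E3} {r : ℝ} (i : Fin 3) (h : r < |x i|) :
    x ∉ Metric.closedBall (0 : E3) r := by
  intro hx
  rw [mem_closedBall_zero_iff] at hx
  have h1 := (norm_le_pi_norm x i).trans hx
  rw [Real.norm_eq_abs] at h1
  exact absurd h1 (not_le.2 h)

private theorem facC_exists {x : E3} {r : ℝ} (hr : 0 ≤ r) (h : x ∉ Metric.closedBall (0 : E3) r) :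
    ∃ i, r < |x i| := by
  by_contra hc
  push Not at hc
  refine h ?_
  rw [mem_closedBall_zero_iff, pi_norm_le_iff_of_nonneg hr]
  exact fun i => (Real.norm_eq_abs _).trans_le (hc i)

/-- all derivatives of a bump in one direction are bounded -/
private theorem facC_rho (K : ℕ) {ρ : ℝ → ℝ} (hρ : ContDiff ℝ smo ρ) {a b : ℝ}
    (h0 : ∀ t, t ∉ Ioo a b → ρ t = 0) (i : Fin 3) :
    ∃ C : ℝ, 0 ≤ C ∧ Bn K C (fun x : E3 => ρ (x i)) := by
  have hsupp : HasCompactSupport ρ := HasCompactSupport.intro isCompact_Icc fun t ht =>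
    h0 t fun h => ht (Ioo_subset_Icc_self h)
  have hle : ∀ j : ℕ, ((j : ℕ∞) : WithTop ℕ∞) ≤ smo := fun j => by
    exact_mod_cast (le_top : (j : ℕ∞) ≤ ⊤)
  have h1 : ∀ j : ℕ, ∃ C : ℝ, 0 ≤ C ∧ ∀ t, ‖iteratedFDeriv ℝ j ρ t‖ ≤ C := by
    intro j
    obtain ⟨C, hC⟩ := (hsupp.iteratedFDeriv j).exists_bound_of_continuous
      (hρ.continuous_iteratedFDeriv (hle j))
    exact ⟨|C|, abs_nonneg C, fun t => (hC t).trans (le_abs_self C)⟩
  choose C hC0 hC using h1
  refine ⟨∑ j ∈ Finset.range (K + 1), C j, Finset.sum_nonneg fun j _ => hC0 j,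
    fun j hj x => ?_⟩
  obtain ⟨L, hL⟩ : ∃ L : E3 →L[ℝ] ℝ, L = ContinuousLinearMap.proj i := ⟨_, rfl⟩
  have hLn : ‖L‖ ≤ 1 := by
    refine ContinuousLinearMap.opNorm_le_bound _ zero_le_one fun y => ?_
    rw [hL, one_mul]
    exact norm_le_pi_norm y i
  have e1 : (fun x : E3 => ρ (x i)) = ρ ∘ L := by
    funext y
    rw [hL]
    rfl
  rw [e1, L.iteratedFDeriv_comp_right hρ x (hle j)]
  refine (ContinuousMultilinearMap.norm_compContinuousLinearMap_le _ _).trans ?_
  rw [Finset.prod_const, Finset.card_univ, Fintype.card_fin]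
  have e2 : ‖L‖ ^ j ≤ 1 := pow_le_one₀ (norm_nonneg _) hLn
  calc ‖iteratedFDeriv ℝ j ρ (L x)‖ * ‖L‖ ^ j ≤ C j * 1 :=
        mul_le_mul (hC j _) e2 (by positivity) (hC0 j)
    _ = C j := mul_one _
    _ ≤ ∑ j ∈ Finset.range (K + 1), C j :=
        Finset.single_le_sum (f := C) (fun j _ => hC0 j) (Finset.mem_range.2 (by omega))

/-- `ρ` from `exists_bump1 (5/4) (7/4)`, `T x = - ρ (x 1) * facP 0 (facS 1 q) x`, `U = facP 1 (fun
x => q x + pd 0 T x)`, `pd 0 T x = - ρ (x 1) * facS 1 q x`. -/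
theorem facC (K : ℕ) (hK : 1 ≤ K) : ∃ C : ℝ, 1 ≤ C ∧ ∀ (q : E3 → ℝ) (c : ℝ), ContDiff ℝ smo q →
    (∀ x, x ∉ Metric.closedBall (0 : E3) 1 → q x = 0) → 0 ≤ c → Bn K c q →
    (∀ x, facS 0 (facS 1 q) x = 0) → ∃ T U : E3 → ℝ, ContDiff ℝ smo T ∧ ContDiff ℝ smo U ∧
      (∀ x, x ∉ Metric.closedBall (0 : E3) 2 → T x = 0) ∧
      (∀ x, x ∉ Metric.closedBall (0 : E3) 2 → U x = 0) ∧ (∀ x : E3, x 1 < 5 / 4 → T x = 0) ∧
      Bn K (C * c) T ∧ Bn K (C * c) U ∧ ∀ x, pd 1 U x = q x + pd 0 T x := by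
  obtain ⟨ρ, hρ, -, hρ0, hρ1⟩ := exists_bump1 (5 / 4) (7 / 4) (by norm_num)
  obtain ⟨R, hR0, hR⟩ := facC_rho K hρ hρ0 1
  have hCC : 0 ≤ 16 * 2 ^ K * R := by positivity
  refine ⟨4 + 16 * 2 ^ K * R, by linarith, fun q c hq hq0 hc hb hI => ?_⟩
  have hρs : ContDiff ℝ smo fun x : E3 => ρ (x 1) := hρ.comp (contDiff_apply ℝ ℝ 1)
  -- the function S
  obtain ⟨S, hS⟩ : ∃ S, S = facS 1 q := ⟨_, rfl⟩
  rw [← hS] at hI
  have hSs : ContDiff ℝ smo S := by rw [hS]; exact facS_smooth 1 hq
  have hSb : Bn K (4 * c) S := by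
    rw [hS]
    refine facS_bn 1 hq hc (fun x hx => hq0 x (facC_not_mem 1 ?_)) hb
    rw [lt_abs]
    right
    linarith
  have hSu : ∀ (x : E3) (t : ℝ), S (Function.update x 1 t) = S x := fun x t => by
    rw [hS]
    exact facS_update 1 q x t
  have q0 : ∀ (x : E3) (i : Fin 3), i ≠ 1 → 1 < |x i| → ∀ t, q (Function.update x 1 t) = 0 := by
    intro x i hi h t
    refine hq0 _ (facC_not_mem i ?_)
    rwa [Function.update_of_ne hi]
  have S0 : ∀ (x : E3) (i : Fin 3), i ≠ 1 → 1 < |x i| → S x = 0 := by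
    intro x i hi h
    rw [hS]
    exact facC_zero fun t _ => q0 x i hi h t
  -- the function P
  obtain ⟨P, hP⟩ : ∃ P, P = facP 0 S := ⟨_, rfl⟩
  have hPs : ContDiff ℝ smo P := by rw [hP]; exact facP_smooth 0 hSs
  have hPd : ∀ x, pd 0 P x = S x := fun x => by rw [hP]; exact facP_pd 0 hSs x
  have P2 : ∀ x : E3, 1 < |x 2| → P x = 0 := by
    intro x h
    rw [hP]
    refine facC_zero fun t _ => S0 _ 2 (by decide) ?_
    rwa [Function.update_of_ne (by decide)]
  have P0 : ∀ x : E3, 1 < |x 0| → P x = 0 := by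
    intro x h
    rw [hP]
    rcases lt_abs.1 h with h1 | h1
    · have hint : ∀ a b : ℝ, IntervalIntegrable (fun t => S (Function.update x 0 t)) volume a b :=
        fun a b => (hSs.continuous.comp
          (continuous_const.update 0 continuous_id)).intervalIntegrable a b
      have e1 : facP 0 S x = (∫ t in (-2 : ℝ)..2, S (Function.update x 0 t)) +
          ∫ t in (2 : ℝ)..x 0, S (Function.update x 0 t) :=
        (intervalIntegral.integral_add_adjacent_intervals (hint _ _) (hint _ _)).symm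
      have e2 : ∫ t in (-2 : ℝ)..2, S (Function.update x 0 t) = 0 := hI x
      rw [e1, e2, zero_add]
      refine facC_zero fun t ht => S0 _ 0 (by decide) ?_
      rw [Function.update_self, lt_abs]
      left
      have h2 := (mem_uIcc.1 ht)
      rcases h2 with h2 | h2
      · linarith
      · linarith
    · refine facC_zero fun t ht => S0 _ 0 (by decide) ?_
      rw [Function.update_self, lt_abs]
      right
      have h2 := (mem_uIcc.1 ht)
      rcases h2 with h2 | h2
      · linarith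
      · linarith
  have hPb : Bn K (4 * (4 * c)) P := by
    rw [hP]
    refine facP_bn 0 hSs (by positivity) (fun x hx => S0 x 0 (by decide) ?_) hSb
      (fun x hx => ?_)
    · rw [lt_abs]
      right
      linarith
    · rw [← hP]
      refine P0 x ?_
      rw [lt_abs]
      left
      linarith
  -- the function T
  obtain ⟨T, hT⟩ : ∃ T : E3 → ℝ, T = fun x => -(ρ (x 1) • P x) := ⟨_, rfl⟩
  have hTs : ContDiff ℝ smo T := by rw [hT]; exact (hρs.smul hPs).neg
  have hTb : Bn K (2 ^ K * R * (4 * (4 * c))) T := by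
    rw [hT]
    exact facC_bd.2 (Bd.neg (Bd.smul hρs hPs hK zero_le_one zero_le_one le_rfl hR0
      (by positivity) (facC_bd.1 hR) (facC_bd.1 hPb)))
  have hTd : ∀ x, pd 0 T x = -(ρ (x 1) • S x) := by
    intro x
    have h1 : HasFDerivAt (fun y : E3 => ρ (y 1))
        (deriv ρ (x 1) • (ContinuousLinearMap.proj 1 : E3 →L[ℝ] ℝ)) x := by
      have h2 : HasDerivAt ρ (deriv ρ (x 1)) (x 1) :=
        (hρ.differentiable (by simp) (x 1)).hasDerivAt
      have h3 : HasFDerivAt (fun y : E3 => y 1) (ContinuousLinearMap.proj 1 : E3 →L[ℝ] ℝ) x :=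
        (ContinuousLinearMap.proj 1 : E3 →L[ℝ] ℝ).hasFDerivAt
      exact h2.comp_hasFDerivAt x h3
    have h2 : HasFDerivAt P (fderiv ℝ P x) x := (hPs.differentiable (by simp) x).hasFDerivAt
    have h3 : HasFDerivAt (fun y : E3 => -(ρ (y 1) • P y)) _ x := (h1.smul h2).neg
    have h4 : fderiv ℝ P x (ev 0) = S x := hPd x
    have h5 : (ev 0 : E3) 1 = 0 := by simp [ev]
    unfold pd
    rw [hT, h3.fderiv]
    simp [h4, h5]
  -- the function U
  obtain ⟨g, hg⟩ : ∃ g : E3 → ℝ, g = fun x => q x + pd 0 T x := ⟨_, rfl⟩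
  have hgs : ContDiff ℝ smo g := by rw [hg]; exact hq.add (contDiff_pd hTs 0)
  have hgb : Bn K (c + 2 ^ K * R * (4 * c)) g := by
    have h1 : Bd K 1 1 (2 ^ K * R * (4 * c)) (fun x => -(ρ (x 1) • S x)) :=
      Bd.neg (Bd.smul hρs hSs hK zero_le_one zero_le_one le_rfl hR0 (by positivity)
        (facC_bd.1 hR) (facC_bd.1 hSb))
    have h2 : g = fun x => q x + -(ρ (x 1) • S x) := by
      rw [hg]
      funext x
      rw [hTd]
    rw [h2]
    exact facC_bd.2 (Bd.add hq (hρs.smul hSs).neg (facC_bd.1 hb) h1 zero_le_one)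
  have hgu : ∀ (x : E3) (t : ℝ), g (Function.update x 1 t) =
      q (Function.update x 1 t) - ρ t * S x := by
    intro x t
    rw [hg]
    change q (Function.update x 1 t) + pd 0 T (Function.update x 1 t) = _
    rw [hTd, hSu, Function.update_self, smul_eq_mul]
    ring
  obtain ⟨U, hU⟩ : ∃ U, U = facP 1 g := ⟨_, rfl⟩
  have hUs : ContDiff ℝ smo U := by rw [hU]; exact facP_smooth 1 hgs
  have ρ0 : ∀ t : ℝ, 7 / 4 ≤ |t| → ρ t = 0 := by
    intro t ht
    refine hρ0 t fun h => ?_
    rcases le_abs.1 ht with h1 | h1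
    · linarith [h.2]
    · linarith [h.1]
  have g1 : ∀ (x : E3) (t : ℝ), 7 / 4 ≤ |t| → g (Function.update x 1 t) = 0 := by
    intro x t ht
    rw [hgu, ρ0 t ht, hq0 _ (facC_not_mem 1 ?_)]
    · ring
    · rw [Function.update_self]
      linarith
  have U0 : ∀ (x : E3) (i : Fin 3), i ≠ 1 → 1 < |x i| → U x = 0 := by
    intro x i hi h
    rw [hU]
    refine facC_zero fun t _ => ?_
    rw [hgu, q0 x i hi h, S0 x i hi h]
    ring
  have hρi : ∫ t in (-2 : ℝ)..2, ρ t = 1 := by
    rw [intervalIntegral.integral_of_le (by norm_num), ← hρ1]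
    refine setIntegral_eq_integral_of_forall_compl_eq_zero fun t ht => hρ0 t fun h => ht ?_
    exact ⟨by linarith [h.1], by linarith [h.2]⟩
  have U1 : ∀ x : E3, 2 < |x 1| → U x = 0 := by
    intro x h
    rw [hU]
    rcases lt_abs.1 h with h1 | h1
    · have hint : ∀ a b : ℝ, IntervalIntegrable (fun t => g (Function.update x 1 t)) volume a b :=
        fun a b => (hgs.continuous.comp
          (continuous_const.update 1 continuous_id)).intervalIntegrable a b
      have hintq : ∀ a b : ℝ, IntervalIntegrable (fun t => q (Function.update x 1 t)) volume a b :=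
        fun a b => (hq.continuous.comp (continuous_const.update 1 continuous_id)).intervalIntegrable
          a b
      have e1 : facP 1 g x = (∫ t in (-2 : ℝ)..2, g (Function.update x 1 t)) +
          ∫ t in (2 : ℝ)..x 1, g (Function.update x 1 t) :=
        (intervalIntegral.integral_add_adjacent_intervals (hint _ _) (hint _ _)).symm
      have e2 : ∫ t in (-2 : ℝ)..2, g (Function.update x 1 t) = 0 := by
        have e3 : ∫ t in (-2 : ℝ)..2, g (Function.update x 1 t) =
            ∫ t in (-2 : ℝ)..2, (q (Function.update x 1 t) - ρ t * S x) :=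
          intervalIntegral.integral_congr fun t _ => hgu x t
        have hr : IntervalIntegrable (fun t => ρ t * S x) volume (-2) 2 :=
          (hρ.continuous.mul continuous_const).intervalIntegrable _ _
        rw [e3, intervalIntegral.integral_sub (hintq _ _) hr,
          intervalIntegral.integral_mul_const, hρi, one_mul]
        have e4 : ∫ t in (-2 : ℝ)..2, q (Function.update x 1 t) = S x := by rw [hS]; rfl
        rw [e4, sub_self]
      rw [e1, e2, zero_add]
      refine facC_zero fun t ht => g1 x t ?_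
      rw [le_abs]
      left
      rcases mem_uIcc.1 ht with h2 | h2
      · linarith
      · linarith
    · refine facC_zero fun t ht => g1 x t ?_
      rw [le_abs]
      right
      rcases mem_uIcc.1 ht with h2 | h2
      · linarith
      · linarith
  have hUb : Bn K (4 * (c + 2 ^ K * R * (4 * c))) U := by
    rw [hU]
    refine facP_bn 1 hgs (by positivity) (fun x hx => ?_) hgb (fun x hx => ?_)
    · have h1 := g1 x (x 1) (by rw [le_abs]; right; linarith)
      rwa [Function.update_eq_self] at h1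
    · rw [← hU]
      refine U1 x ?_
      rw [lt_abs]
      left
      exact hx
  have e5 : 2 ^ K * R * (4 * (4 * c)) ≤ (4 + 16 * 2 ^ K * R) * c := by
    have : (4 + 16 * 2 ^ K * R) * c = 2 ^ K * R * (4 * (4 * c)) + 4 * c := by ring
    linarith
  have e6 : 4 * (c + 2 ^ K * R * (4 * c)) = (4 + 16 * 2 ^ K * R) * c := by ring
  refine ⟨T, U, hTs, hUs, fun x hx => ?_, fun x hx => ?_, fun x hx => ?_,
    fun i hi x => (hTb i hi x).trans e5, by rw [← e6]; exact hUb, fun x => ?_⟩
  · obtain ⟨i, hi⟩ := facC_exists (by norm_num) hx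
    rw [hT]
    change -(ρ (x 1) • P x) = 0
    fin_cases i
    · rw [P0 x (lt_trans (by norm_num) hi), smul_zero, neg_zero]
    · rw [ρ0 (x 1) (le_trans (by norm_num) (le_of_lt hi)), zero_smul, neg_zero]
    · rw [P2 x (lt_trans (by norm_num) hi), smul_zero, neg_zero]
  · obtain ⟨i, hi⟩ := facC_exists (by norm_num) hx
    by_cases h1 : i = 1
    · rw [h1] at hi
      exact U1 x hi
    · exact U0 x i h1 (by linarith)
  · rw [hT]
    change -(ρ (x 1) • P x) = 0
    rw [hρ0 (x 1) fun h => absurd h.1 (not_lt.2 hx.le), zero_smul, neg_zero]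
  · rw [hU, facP_pd 1 hgs, hg]

end Pool.Agent.QM59
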