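import Mathlib
import Pool.Agent.Lib.MP_decea1_gt_C.Com

/-!
# MP_decea1_gt, block C, module Sim: conjugation with similarities
-/

set_option autoImplicit false

open MeasureTheory Set

namespace Pool.Agent.QM59

/-- `c x = p + r L x` with `r > 0` and a linear isometry `L` (sup norm) -/
structure IsSim (p : E3) (r : ℝ) (L : E3 ≃ₗᵢ[ℝ] E3) (c : Equiv.Perm E3) : Prop where
  pos : 0 < r
  eq : ∀ x, c x = p + r • L x

/-- every datum gives a similarity -/
theorem exists_sim (p : E3) (r : ℝ) (hr : 0 < r) (L : E3 ≃ₗᵢ[ℝ] E3) : ∃ c, IsSim p r L c := by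
  refine ⟨{ toFun := fun x => p + r • L x
            invFun := fun y => L.symm (r⁻¹ • (y - p))
            left_inv := fun x => ?_
            right_inv := fun y => ?_ }, hr, fun x => rfl⟩
  · simp [smul_smul, inv_mul_cancel₀ hr.ne']
  · simp [smul_smul, mul_inv_cancel₀ hr.ne']

theorem homoth_isSim (p : E3) (r : ℝ) (hr : 0 < r) :
    IsSim p r (LinearIsometryEquiv.refl ℝ E3) (homoth p r hr.ne') := by
  exact ⟨hr, fun x => rfl⟩

/-- the coordinate permutation (`Equiv.swap i 2`): `LinearIsometryEquiv.piCongrLeft`, or by hand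
with the sup norm. -/
theorem exists_swap (i : Fin 3) : ∃ L : E3 ≃ₗᵢ[ℝ] E3, ∀ x, L x 2 = x i := by
  refine ⟨⟨LinearEquiv.funCongrLeft ℝ ℝ (Equiv.swap i 2), fun x => ?_⟩, fun x => ?_⟩
  · refine le_antisymm ?_ ?_
    · exact (pi_norm_le_iff_of_nonneg (norm_nonneg _)).2 fun j =>
        norm_le_pi_norm x (Equiv.swap i 2 j)
    · refine (pi_norm_le_iff_of_nonneg (norm_nonneg _)).2 fun j => ?_
      have h1 := norm_le_pi_norm (LinearEquiv.funCongrLeft ℝ ℝ (Equiv.swap i 2) x)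
        (Equiv.swap i 2 j)
      have h2 : LinearEquiv.funCongrLeft ℝ ℝ (Equiv.swap i 2) x (Equiv.swap i 2 j) = x j := by
        change x (Equiv.swap i 2 (Equiv.swap i 2 j)) = x j
        rw [Equiv.swap_apply_self]
      rwa [h2] at h1
  · change x (Equiv.swap i 2 2) = x i
    rw [Equiv.swap_apply_right]

variable {p : E3} {r : ℝ} {L : E3 ≃ₗᵢ[ℝ] E3} {c : Equiv.Perm E3}

/-- the inverse: `c⁻¹ y = - r⁻¹ L⁻¹ p + r⁻¹ L⁻¹ y`. -/
theorem IsSim.inv (h : IsSim p r L c) : IsSim (-(r⁻¹ • L.symm p)) r⁻¹ L.symm c⁻¹ := by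
  refine ⟨inv_pos.2 h.pos, fun y => ?_⟩
  rw [Equiv.Perm.inv_eq_iff_eq, h.eq, ← smul_neg, ← smul_add, map_smul, smul_smul,
    mul_inv_cancel₀ h.pos.ne', one_smul, map_add, map_neg, L.apply_symm_apply,
    L.apply_symm_apply, add_neg_cancel_left]

private theorem IsSim.contDiff (h : IsSim p r L c) : ContDiff ℝ smo (fun x => c x) := by
  have h1 : (fun x => c x) = fun x => p + r • L x := funext h.eq
  rw [h1]
  exact contDiff_const.add (L.contDiff.const_smul r)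

private theorem IsSim.jac_const (h : IsSim p r L c) (x y : E3) :
    jac (fun z => c z) x = jac (fun z => c z) y := by
  have h1 : (fun x => c x) = fun x => p + r • L x := funext h.eq
  have h2 : ∀ z, fderiv ℝ (fun x => p + r • L x) z =
      r • ((L.toContinuousLinearEquiv : E3 ≃L[ℝ] E3) : E3 →L[ℝ] E3) := fun z =>
    ((((L.toContinuousLinearEquiv : E3 ≃L[ℝ] E3) : E3 →L[ℝ] E3).hasFDerivAt
      (x := z)).const_smul r |>.const_add p).fderiv
  unfold jac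
  rw [h1, h2, h2]

theorem IsSim.isDif (h : IsSim p r L c) : IsDif c := by
  exact ⟨h.contDiff, h.inv.contDiff⟩

private theorem IsSim.dist_eq (h : IsSim p r L c) (x y : E3) :
    dist (c x) (c y) = r * dist x y := by
  rw [h.eq, h.eq, dist_add_left, dist_smul₀, L.dist_map, Real.norm_of_nonneg h.pos.le]

/-- `‖c x - c y‖ = r ‖x - y‖`. -/
theorem IsSim.image_ball (h : IsSim p r L c) (x : E3) (s : ℝ) :
    c '' Metric.ball x s = Metric.ball (c x) (r * s) := by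
  ext y
  constructor
  · rintro ⟨z, hz, rfl⟩
    rw [Metric.mem_ball, h.dist_eq]
    exact mul_lt_mul_of_pos_left hz h.pos
  · intro hy
    refine ⟨c⁻¹ y, ?_, c.apply_symm_apply y⟩
    have h1 : c (c⁻¹ y) = y := c.apply_symm_apply y
    rw [← h1, Metric.mem_ball, h.dist_eq] at hy
    exact lt_of_mul_lt_mul_left hy h.pos.le

theorem IsSim.image_closedBall (h : IsSim p r L c) (x : E3) (s : ℝ) :
    c '' Metric.closedBall x s = Metric.closedBall (c x) (r * s) := by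
  ext y
  constructor
  · rintro ⟨z, hz, rfl⟩
    rw [Metric.mem_closedBall, h.dist_eq]
    exact mul_le_mul_of_nonneg_left hz h.pos.le
  · intro hy
    refine ⟨c⁻¹ y, ?_, c.apply_symm_apply y⟩
    have h1 : c (c⁻¹ y) = y := c.apply_symm_apply y
    rw [← h1, Metric.mem_closedBall, h.dist_eq] at hy
    exact le_of_mul_le_mul_left hy h.pos

/-- The Jacobian of `c` is a nonzero constant `d`, that of `c⁻¹` is `d⁻¹` (`IsDif.jac_mul`,
`IsDif.jac_inv`). -/
theorem IsSim.vol (h : IsSim p r L c) {f : Equiv.Perm E3} (hd : IsDif f) (hf : Vol f) :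
    Vol (c * f * c⁻¹) := by
  intro x
  have hc := h.isDif
  have e1 : jac (fun y => c y) (f (c⁻¹ x)) = jac (fun y => c y) (c⁻¹ x) := h.jac_const _ _
  rw [(hc.mul hd).jac_mul hc.inv, hc.jac_mul hd, hf, mul_one, hc.jac_inv, e1]
  exact mul_inv_cancel₀ (hc.jac_ne_zero _)

theorem IsSim.ok (h : IsSim p r L c) {K : Set E3} {f : Equiv.Perm E3} (hf : Ok K f) :
    Ok (c '' K) (c * f * c⁻¹) := by
  exact ⟨(h.isDif.mul hf.dif).mul h.isDif.inv, h.vol hf.dif hf.vol, hf.off.conj c⟩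

/-- `InIso.conj` and `IsSim.vol`. -/
theorem IsSim.isoV (h : IsSim p r L c) {U V : Set E3} (hUV : c '' U ⊆ V) {f : Equiv.Perm E3}
    (hf : f ∈ IsoV U) : c * f * c⁻¹ ∈ IsoV V := by
  exact ⟨hf.1.conj h.isDif hUV, h.vol hf.1.isDif hf.2⟩

/-- `c (f (c⁻¹ x)) - c (c⁻¹ x) = r L (f y - y)`, `y = c⁻¹ x`. -/
theorem IsSim.disp (h : IsSim p r L c) (f : Equiv.Perm E3) (x : E3) :
    QM59.disp (c * f * c⁻¹) x = r • L (QM59.disp f (c⁻¹ x)) := by
  have h1 : c (c⁻¹ x) = x := c.apply_symm_apply x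
  change c (f (c⁻¹ x)) - x = r • L (f (c⁻¹ x) - c⁻¹ x)
  conv_lhs => rw [← h1]
  rw [show c⁻¹ (c (c⁻¹ x)) = c⁻¹ x from congrArg _ h1, h.eq, h.eq, add_sub_add_left_eq_sub,
    ← smul_sub, map_sub]

/-- `‖D^i (disp (c f c⁻¹)) x‖ = r r^{-i} ‖D^i (disp f) (c⁻¹ x)‖` (`≤` is enough:
`ContinuousLinearMap.iteratedFDeriv_comp_left`, `iteratedFDeriv_comp_right`,
`iteratedFDeriv_comp_add_left` or `..._sub`, `LinearIsometryEquiv.norm_iteratedFDeriv_comp_left`),
and `r r^{-i} ≤ (r + r⁻¹)^(i+1) ≤ (r + r⁻¹)^(k+1)` because `r + r⁻¹ ≥ 1`. -/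
theorem IsSim.bn (h : IsSim p r L c) {f : Equiv.Perm E3} (hd : IsDif f) {k : ℕ} {ε : ℝ}
    (hε : 0 ≤ ε) (hf : Bn k ε (QM59.disp f)) :
    Bn k (ε * (r + r⁻¹) ^ (k + 1)) (QM59.disp (c * f * c⁻¹)) := by
  intro i hi x
  have hr := h.pos
  have hv : ContDiff ℝ smo (QM59.disp f) := hd.1.sub contDiff_id
  -- the inner map
  set q : E3 := -(r⁻¹ • L.symm p) with hq
  set M : E3 →L[ℝ] E3 := r⁻¹ • ((L.symm.toContinuousLinearEquiv : E3 ≃L[ℝ] E3) : E3 →L[ℝ] E3)
    with hM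
  set N : E3 →L[ℝ] E3 := r • ((L.toContinuousLinearEquiv : E3 ≃L[ℝ] E3) : E3 →L[ℝ] E3) with hN
  set w : E3 → E3 := fun z => QM59.disp f (q + z) with hw
  have hwc : ContDiff ℝ smo w := hv.comp (contDiff_const.add contDiff_id)
  have e1 : QM59.disp (c * f * c⁻¹) = N ∘ (w ∘ M) := by
    funext y
    rw [h.disp f y, h.inv.eq y]
    rfl
  have hMn : ‖M‖ ≤ r⁻¹ := by
    refine ContinuousLinearMap.opNorm_le_bound _ (inv_pos.2 hr).le fun y => ?_
    change ‖r⁻¹ • L.symm y‖ ≤ _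
    rw [norm_smul, L.symm.norm_map, Real.norm_of_nonneg (inv_pos.2 hr).le]
  have hNn : ‖N‖ ≤ r := by
    refine ContinuousLinearMap.opNorm_le_bound _ hr.le fun y => ?_
    change ‖r • L y‖ ≤ _
    rw [norm_smul, L.norm_map, Real.norm_of_nonneg hr.le]
  have hi' : ((i : ℕ∞) : WithTop ℕ∞) ≤ smo := by exact_mod_cast le_top
  have e2 : ‖iteratedFDeriv ℝ i (w ∘ M) x‖ ≤ ε * r⁻¹ ^ i := by
    rw [M.iteratedFDeriv_comp_right hwc x hi']
    refine (ContinuousMultilinearMap.norm_compContinuousLinearMap_le _ _).trans ?_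
    rw [Finset.prod_const, Finset.card_univ, Fintype.card_fin]
    have e3 : iteratedFDeriv ℝ i w (M x) = iteratedFDeriv ℝ i (QM59.disp f) (q + M x) :=
      iteratedFDeriv_comp_add_left i q (M x)
    rw [e3]
    exact mul_le_mul (hf i hi _) (pow_le_pow_left₀ (norm_nonneg _) hMn i) (by positivity) hε
  have e4 : ‖iteratedFDeriv ℝ i (N ∘ (w ∘ M)) x‖ ≤ ‖N‖ * ‖iteratedFDeriv ℝ i (w ∘ M) x‖ :=
    N.norm_iteratedFDeriv_comp_left ((hwc.comp M.contDiff).contDiffAt) hi'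
  rw [e1]
  refine e4.trans ?_
  have e5 : ‖N‖ * ‖iteratedFDeriv ℝ i (w ∘ M) x‖ ≤ r * (ε * r⁻¹ ^ i) :=
    mul_le_mul hNn e2 (norm_nonneg _) hr.le
  refine e5.trans ?_
  have hri := inv_pos.2 hr
  have h1 : 1 ≤ r + r⁻¹ := by
    rcases le_total 1 r with h1 | h1
    · linarith
    · linarith [(one_le_inv₀ hr).2 h1]
  have h2 : r⁻¹ ^ i ≤ (r + r⁻¹) ^ i := pow_le_pow_left₀ hri.le (by linarith) i
  have h3 : r * r⁻¹ ^ i ≤ (r + r⁻¹) ^ (i + 1) := by
    rw [pow_succ, mul_comm]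
    exact mul_le_mul h2 (by linarith) hr.le (by positivity)
  have h4 : (r + r⁻¹) ^ (i + 1) ≤ (r + r⁻¹) ^ (k + 1) :=
    pow_le_pow_right₀ h1 (by omega)
  calc r * (ε * r⁻¹ ^ i) = ε * (r * r⁻¹ ^ i) := by ring
    _ ≤ ε * (r + r⁻¹) ^ (k + 1) := mul_le_mul_of_nonneg_left (h3.trans h4) hε

end Pool.Agent.QM59
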