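import Pool.Agent.Lib.MP_decea1_gt_C.GEst
import Pool.Agent.Lib.MP_decea1_gt_C.Sim

/-!
# MP_decea1_gt, block C, C1, part D: generating functions for other coordinates
-/

set_option autoImplicit false

open MeasureTheory Set

namespace Pool.Agent.QM59

private theorem facD_iso (e : Equiv.Perm (Fin 3)) :
    ∃ L : E3 ≃ₗᵢ[ℝ] E3, ∀ x k, L x k = x (e k) := by
  refine ⟨⟨LinearEquiv.funCongrLeft ℝ ℝ e, fun x => ?_⟩, fun x k => rfl⟩
  refine le_antisymm ?_ ?_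
  · exact (pi_norm_le_iff_of_nonneg (norm_nonneg _)).2 fun j =>
      norm_le_pi_norm x (e j)
  · refine (pi_norm_le_iff_of_nonneg (norm_nonneg _)).2 fun j => ?_
    have h1 := norm_le_pi_norm (LinearEquiv.funCongrLeft ℝ ℝ e x) (e.symm j)
    have h2 : LinearEquiv.funCongrLeft ℝ ℝ e x (e.symm j) = x j := by
      change x (e (e.symm j)) = x j
      rw [Equiv.apply_symm_apply]
    rwa [h2] at h1

private theorem facD_perm {i j : Fin 3} (hij : i ≠ j) (hi : i ≠ 2) (hj : j ≠ 2) :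
    ∃ e : Equiv.Perm (Fin 3), e i = 0 ∧ e 2 = 1 ∧ e j = 2 := by
  revert i j
  decide

private theorem facD_ev (e : Equiv.Perm (Fin 3)) (L : E3 ≃ₗᵢ[ℝ] E3)
    (hL : ∀ x k, L x k = x (e k)) {a b : Fin 3} (h : e b = a) : L (ev a) = ev b := by
  funext k
  rw [hL]
  unfold ev
  by_cases hk : k = b
  · subst hk
    rw [h, Pi.single_eq_same, Pi.single_eq_same]
  · rw [Pi.single_eq_of_ne hk, Pi.single_eq_of_ne]
    intro h1
    exact hk (e.injective (h1.trans h.symm))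

private theorem facD_pd {S : E3 → ℝ} (hS : ContDiff ℝ smo S) (L : E3 ≃ₗᵢ[ℝ] E3) {a b : Fin 3}
    (h : L (ev a) = ev b) (t : E3) : pd a (fun x => S (L x)) t = pd b S (L t) := by
  have h1 : HasFDerivAt S (fderiv ℝ S (L t)) (L t) :=
    (hS.differentiable (by simp [smo]) (L t)).hasFDerivAt
  have h2 : HasFDerivAt (fun x => L x)
      ((L.toContinuousLinearEquiv : E3 ≃L[ℝ] E3) : E3 →L[ℝ] E3) t :=
    ((L.toContinuousLinearEquiv : E3 ≃L[ℝ] E3) : E3 →L[ℝ] E3).hasFDerivAt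
  have h3 := h1.comp t h2
  unfold pd
  have h4 : fderiv ℝ (fun x => S (L x)) t = (fderiv ℝ S (L t)).comp
      ((L.toContinuousLinearEquiv : E3 ≃L[ℝ] E3) : E3 →L[ℝ] E3) := h3.fderiv
  rw [h4]
  show fderiv ℝ S (L t) (L (ev a)) = _
  rw [h]

private theorem facD_bn {K : ℕ} {c : ℝ} {S : E3 → ℝ} (hS : ContDiff ℝ smo S) (hc : 0 ≤ c)
    (h : Bn (K + 1) c S) (l : Fin 3) : Bn K c (pd l S) := by
  have h1 : Bd K 1 1 c (fderiv ℝ S) := bu_iff_bd.1 (bu_one_iff.2 h.fderiv)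
  have h2 : ContDiff ℝ smo (fderiv ℝ S) := hS.fderiv_right (by simp [smo])
  have h3 := Bd.clm h2 (ContinuousLinearMap.apply ℝ ℝ (ev l : E3)) h1 zero_le_one
  have hev : ‖(ev l : E3)‖ = 1 := by
    unfold ev
    rw [Pi.norm_single, norm_one]
  have h4 : ‖ContinuousLinearMap.apply ℝ ℝ (ev l : E3)‖ ≤ 1 := by
    refine ContinuousLinearMap.opNorm_le_bound _ zero_le_one fun f => ?_
    rw [ContinuousLinearMap.apply_apply]
    refine (f.le_opNorm _).trans ?_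
    rw [hev, mul_one, one_mul]
  have h5 : ‖ContinuousLinearMap.apply ℝ ℝ (ev l : E3)‖ * c ≤ c := by
    calc ‖ContinuousLinearMap.apply ℝ ℝ (ev l : E3)‖ * c ≤ 1 * c :=
          mul_le_mul_of_nonneg_right h4 hc
      _ = c := one_mul c
  have h6 := h3.mono zero_le_one h5
  exact bu_one_iff.1 (bu_iff_bd.2 h6)

private theorem facD_ball : Metric.closedBall (0 : E3) 2 = Icc (fun _ => -2) (fun _ => 2) := by
  ext x
  rw [mem_closedBall_zero_iff, pi_norm_le_iff_of_nonneg (by norm_num : (0 : ℝ) ≤ 2)]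
  constructor
  · intro h
    exact ⟨fun k => (abs_le.1 (h k)).1, fun k => (abs_le.1 (h k)).2⟩
  · intro h k
    exact abs_le.2 ⟨h.1 k, h.2 k⟩

/-- PROOF. There is a linear isometry `L` of `E3` (sup norm) with `(L t) i = t 0`, `(L t) 2 = t
1`, `(L t) j = t 2` (a permutation of the coordinates, see `exists_swap` in Sim.lean), so `L (ev
0) = ev i`, `L (ev 1) = ev 2`. `S' = S ∘ L`, `pd 0 S' t = pd i S (L t)`, `pd 1 S' t = pd 2 S (L
t)`; `Sm S'` from the levels of `S'` (`‖D (pd ..)‖ ≤ ‖D² S'‖ ≤ c ≤ κ`), and `Bn K c (pd 0 S')`,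
`Bn K c (pd 1 S')` (`iteratedFDeriv` of `S ∘ L`:
`LinearIsometryEquiv.norm_iteratedFDeriv_comp_right`, and `pd l S'` is `fderiv ℝ S'` applied to a
vector of norm one: `Bn.fderiv`, `Bd.clm`). `g = c * Gp S' * c⁻¹` for the similarity `c` with `c x
= L x` (`exists_sim 0 1 one_pos L`, `IsSim.ok`, `IsSim.bn`, `IsSim.image_closedBall`, `Gp_okZ`
with `closedBall 0 2 = Icc (-2) 2`), `Gp_alf`, `alf_bij`, `gp_bd` with `N = 1`, `η = 1`
(`bu_iff_bd`, `bu_one_iff`). `g x j = x j` since `Gp S'` preserves the coordinate `2`. -/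
theorem facD (K : ℕ) (hK : 2 ≤ K) {i j : Fin 3} (hij : i ≠ j) (hi : i ≠ 2) (hj : j ≠ 2) :
    ∃ C κ : ℝ, 1 ≤ C ∧ 0 < κ ∧ ∀ (S : E3 → ℝ) (c : ℝ), ContDiff ℝ smo S →
      (∀ x, x ∉ Metric.closedBall (0 : E3) 2 → S x = 0) → 0 ≤ c → c ≤ κ → Bn (K + 1) c S →
      ∃ g : Equiv.Perm E3, Ok (Metric.closedBall 0 2) g ∧ (∀ x, g x j = x j) ∧
        (∀ u, g (u + pd i S u • ev 2) = u + pd 2 S u • ev i) ∧
        (∀ p : E3, ∃ u, u + pd i S u • ev 2 = p) ∧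
        Bn K (C * c) (disp g) ∧ Bn K (C * c) (disp g⁻¹) := by
  obtain ⟨C₀, κ₀, hC₀, hκ₀, hgp⟩ := gp_bd K hK
  obtain ⟨e, he0, he1, he2⟩ := facD_perm hij hi hj
  obtain ⟨L, hL⟩ := facD_iso e
  have hLi : L (ev 0) = ev i := facD_ev e L hL he0
  have hL2 : L (ev 1) = ev 2 := facD_ev e L hL he1
  obtain ⟨q, hq⟩ := exists_sim 0 1 one_pos L
  have hqL : ∀ x, q x = L x := fun x => by rw [hq.eq, zero_add, one_smul]
  refine ⟨C₀ * (1 + 1⁻¹) ^ (K + 1), min κ₀ (1 / 4), ?_, lt_min hκ₀ (by norm_num), ?_⟩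
  · have h1 : (1 : ℝ) ≤ (1 + 1⁻¹) ^ (K + 1) := one_le_pow₀ (by norm_num)
    calc (1 : ℝ) = 1 * 1 := (one_mul 1).symm
      _ ≤ C₀ * (1 + 1⁻¹) ^ (K + 1) := mul_le_mul hC₀ h1 zero_le_one (by linarith)
  intro S c hS hS0 hc hcκ hB
  have hcκ₀ : c ≤ κ₀ := hcκ.trans (min_le_left _ _)
  have hc4 : c ≤ 1 / 4 := hcκ.trans (min_le_right _ _)
  have hS' : ContDiff ℝ smo (fun x => S (L x)) := hS.comp L.contDiff
  have hB' : Bn (K + 1) c (fun x => S (L x)) := by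
    intro m hm x
    have h1 : ‖iteratedFDeriv ℝ m (S ∘ L) x‖ = ‖iteratedFDeriv ℝ m S (L x)‖ :=
      L.norm_iteratedFDeriv_comp_right S x m
    exact h1.trans_le (hB m hm _)
  have hB0 : Bn K c (pd 0 fun x => S (L x)) := facD_bn hS' hc hB' 0
  have hB1 : Bn K c (pd 1 fun x => S (L x)) := facD_bn hS' hc hB' 1
  have hlev : ∀ v : E3 → ℝ, Bn K c v → ∀ x, ‖fderiv ℝ v x‖ ≤ 1 / 4 := by
    intro v hv x
    have h1 := hv 1 (by omega) x
    rw [← norm_iteratedFDeriv_fderiv, norm_iteratedFDeriv_zero] at h1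
    exact h1.trans hc4
  have hSm : Sm (fun x => S (L x)) := ⟨hS', hlev _ hB0, hlev _ hB1⟩
  have hoff : ∀ x, x ∉ Icc (fun _ => (-2 : ℝ)) (fun _ : Fin 3 => (2 : ℝ)) → S (L x) = 0 := by
    intro x hx
    rw [← facD_ball] at hx
    apply hS0
    rwa [mem_closedBall_zero_iff, L.norm_map, ← mem_closedBall_zero_iff]
  have hok := Gp_okZ hSm hoff
  rw [← facD_ball] at hok
  obtain ⟨hb1, hb2⟩ := hgp (fun x => S (L x)) 1 1 c hSm le_rfl one_pos le_rfl hc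
    (by rw [one_mul]; exact hcκ₀) (bu_iff_bd.1 (bu_one_iff.2 hB0)) (bu_iff_bd.1 (bu_one_iff.2 hB1))
  have hb1' := bu_one_iff.1 (bu_iff_bd.2 hb1)
  have hb2' := bu_one_iff.1 (bu_iff_bd.2 hb2)
  have hC0c : 0 ≤ C₀ * c := mul_nonneg (by linarith) hc
  have hqi : ∀ x, q⁻¹ (q x) = x := fun x => q.symm_apply_apply x
  have hqs : ∀ x, L (q⁻¹ x) = x := fun x => by
    rw [← hqL]
    exact q.apply_symm_apply x
  have hal : ∀ t, q (alf (fun x => S (L x)) t) = L t + pd i S (L t) • ev 2 := by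
    intro t
    rw [hqL, alf, map_add, map_smul, hL2, facD_pd hS L hLi]
  have hbe : ∀ t, q (bef (fun x => S (L x)) t) = L t + pd 2 S (L t) • ev i := by
    intro t
    rw [hqL, bef, map_add, map_smul, hLi, facD_pd hS L hL2]
  refine ⟨q * Gp (fun x => S (L x)) * q⁻¹, ?_, ?_, ?_, ?_, ?_, ?_⟩
  · have h1 := hq.ok hok.toOk
    rw [hq.image_closedBall, hqL, map_zero, one_mul] at h1
    exact h1
  · intro x
    have h1 : (q * Gp (fun x => S (L x)) * q⁻¹) x = L (Gp (fun x => S (L x)) (q⁻¹ x)) := by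
      rw [Equiv.Perm.mul_apply, Equiv.Perm.mul_apply, hqL]
    rw [h1, hL, he2, hok.zp]
    conv_rhs => rw [← hqs x]
    rw [hL, he2]
  · intro u
    have h1 := hal (q⁻¹ u)
    have h2 := hbe (q⁻¹ u)
    rw [hqs] at h1 h2
    rw [← h1, ← h2, Equiv.Perm.mul_apply, Equiv.Perm.mul_apply, hqi, Gp_alf hSm]
  · intro p
    obtain ⟨t, ht⟩ := (alf_bij hSm).2 (q⁻¹ p)
    refine ⟨L t, ?_⟩
    rw [← hal t, ht]
    exact q.apply_symm_apply p
  · have h1 := hq.bn hok.dif hC0c hb1'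
    have h2 : C₀ * c * (1 + 1⁻¹) ^ (K + 1) = C₀ * (1 + 1⁻¹) ^ (K + 1) * c := by ring
    rw [h2] at h1
    exact h1
  · have h1 := hq.bn hok.dif.inv hC0c hb2'
    have h2 : C₀ * c * (1 + 1⁻¹) ^ (K + 1) = C₀ * (1 + 1⁻¹) ^ (K + 1) * c := by ring
    have h3 : (q * Gp (fun x => S (L x)) * q⁻¹)⁻¹ = q * (Gp (fun x => S (L x)))⁻¹ * q⁻¹ := by
      group
    rw [h2] at h1
    rw [h3]
    exact h1

end Pool.Agent.QM59
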