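import Pool.Agent.Lib.MP_decea1_gt_C.Gen
import Pool.Agent.Lib.MP_decea1_gt_A.Int

/-!
# MP_decea1_gt, block C, C1, part I: integrals in one direction

`facP i q` is the primitive of `q` in direction `i` from `-2`, `facS i q` the integral of `q` in
direction `i` over `[-2, 2]`.
-/

set_option autoImplicit false

open MeasureTheory Set Topology

namespace Pool.Agent.QM59

noncomputable def facP (i : Fin 3) (q : E3 → ℝ) (x : E3) : ℝ :=
  ∫ t in (-2 : ℝ)..x i, q (Function.update x i t)

noncomputable def facS (i : Fin 3) (q : E3 → ℝ) (x : E3) : ℝ :=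
  ∫ t in (-2 : ℝ)..2, q (Function.update x i t)

private theorem facI_upd (i : Fin 3) :
    ContDiff ℝ smo fun p : E3 × ℝ => Function.update p.1 i p.2 := by
  rw [contDiff_pi]
  intro j
  by_cases h : j = i
  · subst h
    simp only [Function.update_self]
    exact contDiff_snd
  · simp only [Function.update_of_ne h]
    exact (contDiff_apply ℝ ℝ j).comp contDiff_fst

private theorem facI_int (i : Fin 3) {q : E3 → ℝ} (hq : ContDiff ℝ smo q) :
    ContDiff ℝ smo fun p : E3 × ℝ => ∫ t in (-2 : ℝ)..p.2, q (Function.update p.1 i t) :=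
  smooth_prim (-2) (fun p : E3 × ℝ => q (Function.update p.1 i p.2)) (hq.comp (facI_upd i))

/-- `smooth_prim` (A/Int), composed with `x ↦ (x, x i)`; `(x, t) ↦ update x i t` is affine. -/
theorem facP_smooth (i : Fin 3) {q : E3 → ℝ} (hq : ContDiff ℝ smo q) :
    ContDiff ℝ smo (facP i q) := by
  have h2 : ContDiff ℝ smo fun x : E3 => (x, x i) := contDiff_id.prodMk (contDiff_apply ℝ ℝ i)
  exact (facI_int i hq).comp h2

private theorem facI_upd_add (i : Fin 3) (x : E3) (s t : ℝ) :
    Function.update (x + s • ev i) i t = Function.update x i t := by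
  funext j
  by_cases h : j = i
  · subst h
    simp
  · simp [Function.update_of_ne h, ev, Pi.single_eq_of_ne h]

/-- Fundamental theorem of calculus: `facP i q (x + s • ev i) = ∫ t in -2..x i + s, q (update x i
t)`, and `update x i (x i) = x`. -/
theorem facP_pd (i : Fin 3) {q : E3 → ℝ} (hq : ContDiff ℝ smo q) (x : E3) :
    pd i (facP i q) x = q x := by
  have hl : HasDerivAt (fun s : ℝ => x + s • ev i) (ev i) 0 := by
    have h := ((hasDerivAt_id (0 : ℝ)).smul_const (ev i)).const_add x
    simpa using h
  have hF : HasFDerivAt (facP i q) (fderiv ℝ (facP i q) x) (x + (0 : ℝ) • ev i) := by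
    rw [zero_smul, add_zero]
    exact (((facP_smooth i hq).differentiable (by simp [smo])) x).hasFDerivAt
  have h1 := hF.comp_hasDerivAt (0 : ℝ) hl
  have hc : Continuous fun t : ℝ => q (Function.update x i t) :=
    hq.continuous.comp (continuous_const.update i continuous_id)
  have h2 : HasDerivAt (fun s : ℝ => ∫ t in (-2 : ℝ)..(x i + s), q (Function.update x i t))
      (q (Function.update x i (x i + 0))) 0 := by
    have h3 : HasDerivAt (fun r : ℝ => ∫ t in (-2 : ℝ)..r, q (Function.update x i t))
        (q (Function.update x i (x i + 0))) (x i + 0) :=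
      intervalIntegral.integral_hasDerivAt_right (hc.intervalIntegrable _ _)
        (hc.stronglyMeasurableAtFilter _ _) hc.continuousAt
    have h4 := h3.comp_const_add (x i) 0
    exact h4
  have h5 : (facP i q ∘ fun s : ℝ => x + s • ev i) =
      fun s : ℝ => ∫ t in (-2 : ℝ)..(x i + s), q (Function.update x i t) := by
    funext s
    have h6 : (x + s • ev i) i = x i + s := by simp [ev]
    simp only [Function.comp, facP, facI_upd_add, h6]
  rw [h5] at h1
  have h7 := h1.unique h2
  rw [add_zero, Function.update_eq_self] at h7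
  exact h7

/-- Integration in direction `i`, for functions with values in any normed space. Induction on `j`.
`j = 0`: mean value inequality on the segment from `x` to `update x i lo'`, `lo' < lo`. `j + 1`:
apply the case `j` to `fderiv ℝ P` (`norm_iteratedFDeriv_fderiv`); its derivative in direction `i`
is `fderiv ℝ (fun x => fderiv ℝ P x (ev i))` by the symmetry of the second derivative
(`ContDiffAt.isSymmSndFDerivAt`), and it vanishes for `x i < lo` (an open set). -/
theorem fac_le (i : Fin 3) (j : ℕ) : ∀ {W : Type} [NormedAddCommGroup W] [NormedSpace ℝ W]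
    {P : E3 → W} {lo L c : ℝ}, ContDiff ℝ smo P → 0 ≤ c → (∀ x : E3, x i < lo → P x = 0) →
      (∀ x, ‖iteratedFDeriv ℝ j (fun y => fderiv ℝ P y (ev i)) x‖ ≤ c) →
      ∀ x : E3, lo ≤ x i → x i ≤ lo + L → ‖iteratedFDeriv ℝ j P x‖ ≤ L * c := by
  induction j with
  | zero =>
    intro W _ _ P lo L c hP hc h0 h1 x hx1 hx2
    rw [norm_iteratedFDeriv_zero]
    have h1' : ∀ y, ‖fderiv ℝ P y (ev i)‖ ≤ c := fun y => by
      have h := h1 y
      rwa [norm_iteratedFDeriv_zero] at h
    refine le_of_forall_pos_le_add fun ε hε => ?_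
    set d : ℝ := ε / (c + 1) with hd
    have hd0 : 0 < d := div_pos hε (by linarith)
    have hcd : c * d ≤ ε := by
      rw [hd, mul_div_assoc', div_le_iff₀ (by linarith)]
      nlinarith
    have hder : ∀ s : ℝ, HasDerivAt (fun s : ℝ => P (x + s • ev i))
        (fderiv ℝ P (x + s • ev i) (ev i)) s := fun s => by
      have hl : HasDerivAt (fun s : ℝ => x + s • ev i) (ev i) s := by
        have h := ((hasDerivAt_id s).smul_const (ev i)).const_add x
        simpa using h
      exact ((hP.differentiable (by simp [smo])) _).hasFDerivAt.comp_hasDerivAt s hl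
    have h2 := Convex.norm_image_sub_le_of_norm_hasDerivWithin_le (𝕜 := ℝ)
      (f := fun s : ℝ => P (x + s • ev i)) (f' := fun s => fderiv ℝ P (x + s • ev i) (ev i))
      (C := c) (s := univ) (x := lo - d - x i) (y := 0)
      (fun s _ => (hder s).hasDerivWithinAt) (fun s _ => h1' _) convex_univ (mem_univ _)
      (mem_univ _)
    have h3 : P (x + (lo - d - x i) • ev i) = 0 := h0 _ (by
      have h6 : (x + (lo - d - x i) • ev i) i = lo - d := by simp [ev]
      rw [h6]
      linarith)
    simp only [zero_smul, add_zero] at h2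
    rw [h3, sub_zero, Real.norm_eq_abs, abs_of_nonneg (by linarith)] at h2
    nlinarith
  | succ j ih =>
    intro W _ _ P lo L c hP hc h0 h1 x hx1 hx2
    have hd : ContDiff ℝ smo (fderiv ℝ P) := hP.fderiv_right (m := smo) (by simp [smo])
    rw [← norm_iteratedFDeriv_fderiv]
    refine ih (P := fderiv ℝ P) hd hc (fun y hy => ?_) (fun y => ?_) x hx1 hx2
    · have ho : IsOpen {z : E3 | z i < lo} := isOpen_lt (continuous_apply i) continuous_const
      have h2 : P =ᶠ[𝓝 y] fun _ => 0 := by
        filter_upwards [ho.mem_nhds hy] with z hz using h0 z hz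
      rw [h2.fderiv_eq]
      simp
    · have h2 : (fun z => fderiv ℝ (fderiv ℝ P) z (ev i)) =
          fderiv ℝ (fun z => fderiv ℝ P z (ev i)) := by
        funext z
        have h3 : DifferentiableAt ℝ (fderiv ℝ P) z := (hd.differentiable (by simp [smo])) z
        have h4 := h3.hasFDerivAt.clm_apply (hasFDerivAt_const (ev i : E3) z)
        rw [h4.fderiv]
        have h5 : IsSymmSndFDerivAt ℝ P z := hP.contDiffAt.isSymmSndFDerivAt (by
          rw [minSmoothness_of_isRCLikeNormedField]
          exact WithTop.coe_le_coe.2 le_top)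
        ext w
        simp only [ContinuousLinearMap.comp_zero, zero_add, ContinuousLinearMap.flip_apply]
        exact h5.eq _ _
      rw [h2, norm_iteratedFDeriv_fderiv]
      exact h1 y

private theorem facI_zero (j : ℕ) {f : E3 → ℝ} {x : E3} (h : f =ᶠ[𝓝 x] fun _ => 0) :
    iteratedFDeriv ℝ j f x = 0 := by
  rw [(Filter.EventuallyEq.iteratedFDeriv ℝ h j).eq_of_nhds, iteratedFDeriv_fun_zero]
  rfl

private theorem facI_left (i : Fin 3) {q : E3 → ℝ} (h0 : ∀ x : E3, x i < -2 → q x = 0) (x : E3)
    (hx : x i < -2) : facP i q x = 0 := by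
  unfold facP
  rw [intervalIntegral.integral_of_ge hx.le, integral_Ioc_eq_integral_Ioo,
    setIntegral_eq_zero_of_forall_eq_zero, neg_zero]
  intro t ht
  apply h0
  rw [Function.update_self]
  exact ht.2

private theorem facI_mid (i : Fin 3) {q : E3 → ℝ} (hq : ContDiff ℝ smo q) {K : ℕ} {c : ℝ}
    (hc : 0 ≤ c) (h0 : ∀ x : E3, x i < -2 → q x = 0) (h1 : Bn K c q) (j : ℕ) (hj : j ≤ K)
    (x : E3) (hx : -2 ≤ x i) (hx' : x i ≤ 2) : ‖iteratedFDeriv ℝ j (facP i q) x‖ ≤ 4 * c := by
  have h3 : (fun y => fderiv ℝ (facP i q) y (ev i)) = q := funext (facP_pd i hq)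
  refine fac_le i j (facP_smooth i hq) hc (facI_left i h0) (fun y => ?_) x hx (by linarith)
  rw [h3]
  exact h1 j hj y

/-- For `x i > 2` the function is zero near `x`; for `x i < -2` as well (`q = 0` there); otherwise
`fac_le` with `lo = -2`, `L = 4` and `facP_pd`. -/
theorem facP_bn (i : Fin 3) {q : E3 → ℝ} (hq : ContDiff ℝ smo q) {K : ℕ} {c : ℝ} (hc : 0 ≤ c)
    (h0 : ∀ x : E3, x i < -2 → q x = 0) (h1 : Bn K c q)
    (h2 : ∀ x : E3, 2 < x i → facP i q x = 0) : Bn K (4 * c) (facP i q) := by
  intro j hj x
  rcases lt_or_ge 2 (x i) with h | h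
  · have ho : IsOpen {z : E3 | 2 < z i} := isOpen_lt continuous_const (continuous_apply i)
    have h3 : facP i q =ᶠ[𝓝 x] fun _ => 0 := by
      filter_upwards [ho.mem_nhds h] with z hz using h2 z hz
    rw [facI_zero j h3, norm_zero]
    linarith
  rcases lt_or_ge (x i) (-2) with h' | h'
  · have ho : IsOpen {z : E3 | z i < -2} := isOpen_lt (continuous_apply i) continuous_const
    have h3 : facP i q =ᶠ[𝓝 x] fun _ => 0 := by
      filter_upwards [ho.mem_nhds h'] with z hz using facI_left i h0 z hz
    rw [facI_zero j h3, norm_zero]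
    linarith
  exact facI_mid i hq hc h0 h1 j hj x h' h

/-- `facS i q x = facP i q (update x i 2)`. -/
theorem facS_smooth (i : Fin 3) {q : E3 → ℝ} (hq : ContDiff ℝ smo q) :
    ContDiff ℝ smo (facS i q) := by
  have h2 : ContDiff ℝ smo fun x : E3 => (x, (2 : ℝ)) := contDiff_id.prodMk contDiff_const
  exact (facI_int i hq).comp h2

/-- `facS i q = facP i q ∘ A`, where `A x = Π x + 2 • ev i`, `Π x = update x i 0` linear of norm
at most one: `ContinuousLinearMap.iteratedFDeriv_comp_right`, `iteratedFDeriv_comp_add_right`, and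
`fac_le` at the point `A x` (`(A x) i = 2`). -/
theorem facS_bn (i : Fin 3) {q : E3 → ℝ} (hq : ContDiff ℝ smo q) {K : ℕ} {c : ℝ} (hc : 0 ≤ c)
    (h0 : ∀ x : E3, x i < -2 → q x = 0) (h1 : Bn K c q) : Bn K (4 * c) (facS i q) := by
  intro j hj x
  let Pi0 : E3 →L[ℝ] E3 := LinearMap.mkContinuous
    { toFun := fun x => Function.update x i 0
      map_add' := fun a b => by
        funext k
        by_cases h : k = i
        · subst h; simp
        · simp [Function.update_of_ne h]
      map_smul' := fun a b => by
        funext k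
        by_cases h : k = i
        · subst h; simp
        · simp [Function.update_of_ne h] } 1 (fun y => by
        rw [one_mul]
        refine (pi_norm_le_iff_of_nonneg (norm_nonneg _)).2 fun k => ?_
        by_cases h : k = i
        · subst h; simp
        · simp only [LinearMap.coe_mk, AddHom.coe_mk, Function.update_of_ne h]
          exact norm_le_pi_norm y k)
  have hn : ‖Pi0‖ ≤ 1 := LinearMap.mkContinuous_norm_le _ zero_le_one _
  have hP : ∀ y, Pi0 y = Function.update y i 0 := fun y => rfl
  let f : E3 → ℝ := fun y => facP i q (y + (2 : ℝ) • ev i)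
  have hf : ContDiff ℝ smo f :=
    (facP_smooth i hq).comp (contDiff_id.add contDiff_const)
  have h3 : facS i q = f ∘ Pi0 := by
    funext y
    have h4 : (Pi0 y + (2 : ℝ) • ev i) i = 2 := by simp [hP, ev]
    simp only [Function.comp, f, facS, facP, facI_upd_add, h4]
    simp only [hP, Function.update_idem]
  have hj' : ((j : ℕ∞) : WithTop ℕ∞) ≤ smo := WithTop.coe_le_coe.2 le_top
  rw [h3, Pi0.iteratedFDeriv_comp_right hf x hj']
  refine (ContinuousMultilinearMap.norm_compContinuousLinearMap_le _ _).trans ?_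
  have h5 : ‖iteratedFDeriv ℝ j f (Pi0 x)‖ ≤ 4 * c := by
    rw [iteratedFDeriv_comp_add_right]
    have h4 : (Pi0 x + (2 : ℝ) • ev i) i = 2 := by simp [hP, ev]
    exact facI_mid i hq hc h0 h1 j hj _ (by rw [h4]; norm_num) (by rw [h4])
  have h6 : ∏ _k : Fin j, ‖Pi0‖ ≤ 1 :=
    Finset.prod_le_one (fun _ _ => norm_nonneg _) fun _ _ => hn
  calc _ ≤ 4 * c * 1 := mul_le_mul h5 h6 (Finset.prod_nonneg fun _ _ => norm_nonneg _)
        (by linarith)
    _ = 4 * c := mul_one _

theorem facS_update (i : Fin 3) (q : E3 → ℝ) (x : E3) (t : ℝ) :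
    facS i q (Function.update x i t) = facS i q x := by
  simp only [facS, Function.update_idem]

end Pool.Agent.QM59
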