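import Pool.Agent.Lib.MP_decea1_gt_C.FacA
import Pool.Agent.Lib.MP_decea1_gt_C.FacB
import Pool.Agent.Lib.MP_decea1_gt_C.FacC
import Pool.Agent.Lib.MP_decea1_gt_C.FacD

/-!
# MP_decea1_gt, block C, module Fact: C1, factorisation in coordinate preserving maps
-/

set_option autoImplicit false

open MeasureTheory Set

namespace Pool.Agent.QM59

private theorem fact_bn {k l : ℕ} {c c' : ℝ} {v : E3 → E3} (h : Bn k c v) (hl : l ≤ k)
    (hc : c ≤ c') : Bn l c' v :=
  fun i hi x => (h i (hi.trans hl) x).trans hc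

private theorem fact_bd {k : ℕ} {c : ℝ} {v : E3 → E3} : Bn k c v ↔ Bd k 1 1 c v :=
  bu_one_iff.symm.trans bu_iff_bd

private theorem fact_not_mem {x : E3} (h : 1 < x 1) : x ∉ Metric.closedBall (0 : E3) 1 := by
  intro hx
  rw [mem_closedBall_zero_iff] at hx
  have h1 := (norm_le_pi_norm x 1).trans hx
  rw [Real.norm_eq_abs] at h1
  exact absurd ((le_abs_self _).trans h1) (not_le.2 h)

private theorem fact_pd {T : E3 → ℝ} (hT : ∀ x : E3, x 1 < 5 / 4 → T x = 0) (l : Fin 3) {u : E3}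
    (hu : u 1 ≤ 1) : pd l T u = 0 := by
  have ho : IsOpen {x : E3 | x 1 < 5 / 4} := isOpen_lt (continuous_apply 1) continuous_const
  have h1 : T =ᶠ[nhds u] fun _ => 0 := by
    filter_upwards [ho.mem_nhds (show u 1 < 5 / 4 by linarith)] with y hy
    exact hT y hy
  unfold pd
  rw [h1.fderiv_eq, fderiv_fun_const]
  rfl

/-- C1 of the text. -/
theorem fact (k : ℕ) (ε' : ℝ) (h : 0 < ε') : ∃ ε : ℝ, 0 < ε ∧ ∀ f : Equiv.Perm E3,
    Ok (Metric.closedBall 0 1) f → Bn (k + 3) ε (disp f) →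
      ∃ g1 g2 g3 : Equiv.Perm E3, f = g1 * g2 * g3 ∧
        Ok (Metric.closedBall 0 2) g1 ∧ Ok (Metric.closedBall 0 2) g2 ∧
        Ok (Metric.closedBall 0 2) g3 ∧
        Bn k ε' (disp g1) ∧ Bn k ε' (disp g2) ∧ Bn k ε' (disp g3) ∧
        (∀ x, g1 x 2 = x 2) ∧ (∀ x, g2 x 0 = x 0) ∧ ∀ x, g3 x 1 = x 1 := by
  obtain ⟨CA, κA, hCA, hκA, hA⟩ := facA (k + 3) (by omega)
  obtain ⟨CC, hCC, hC⟩ := facC (k + 3) (by omega)
  obtain ⟨CT, κT, hCT, hκT, hT⟩ := facD (k + 2) (by omega) (i := 0) (j := 1) (by decide)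
    (by decide) (by decide)
  obtain ⟨CU, κU, hCU, hκU, hU⟩ := facD (k + 2) (by omega) (i := 1) (j := 0) (by decide)
    (by decide) (by decide)
  obtain ⟨C5, hC5, h5⟩ := scE5 (k + 2) (by omega)
  -- the constants
  obtain ⟨P, hP⟩ : ∃ P, P = CC * CA := ⟨_, rfl⟩
  have hP1 : 1 ≤ P := by rw [hP]; exact one_le_mul_of_one_le_of_one_le hCC hCA
  obtain ⟨M, hM⟩ : ∃ M, M = C5 * (C5 * (1 + CT * P) + CU * P) := ⟨_, rfl⟩
  have hTP : P ≤ CT * P := le_mul_of_one_le_left (by linarith) hCT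
  have hUP : P ≤ CU * P := le_mul_of_one_le_left (by linarith) hCU
  have h51 : 1 + CT * P ≤ C5 * (1 + CT * P) := le_mul_of_one_le_left (by linarith) hC5
  have h52 : C5 * (1 + CT * P) + CU * P ≤ M := by
    rw [hM]
    exact le_mul_of_one_le_left (by linarith) hC5
  have hM1 : 1 ≤ M := by linarith
  have hM0 : 0 < M := by linarith
  obtain ⟨m, hm⟩ : ∃ m, m = min (min κA κT) (min κU (min 1 ε')) := ⟨_, rfl⟩
  have hm0 : 0 < m := by
    rw [hm]
    exact lt_min (lt_min hκA hκT) (lt_min hκU (lt_min one_pos h))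
  have m1 : m ≤ κA := by rw [hm]; exact (min_le_left _ _).trans (min_le_left _ _)
  have m2 : m ≤ κT := by rw [hm]; exact (min_le_left _ _).trans (min_le_right _ _)
  have m3 : m ≤ κU := by rw [hm]; exact (min_le_right _ _).trans (min_le_left _ _)
  have m4 : m ≤ 1 := by
    rw [hm]; exact (min_le_right _ _).trans ((min_le_right _ _).trans (min_le_left _ _))
  have m5 : m ≤ ε' := by
    rw [hm]; exact (min_le_right _ _).trans ((min_le_right _ _).trans (min_le_right _ _))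
  obtain ⟨ε, hε⟩ : ∃ ε, ε = m / M := ⟨_, rfl⟩
  have hε0 : 0 < ε := by rw [hε]; positivity
  have hMε : M * ε = m := by rw [hε]; field_simp
  have hle : ∀ X : ℝ, X ≤ M → X * ε ≤ m := fun X hX => by
    rw [← hMε]
    exact mul_le_mul_of_nonneg_right hX hε0.le
  have hε1 : ε ≤ m := by have := hle 1 hM1; rwa [one_mul] at this
  have hPε : P * ε ≤ m := hle P (by linarith)
  have hPε0 : 0 ≤ P * ε := by positivity
  refine ⟨ε, hε0, fun f hf hb => ?_⟩
  obtain ⟨q, hq, hq0, hqb, hq1, hq2⟩ := hA f ε hf hε0.le (hε1.trans m1) hb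
  obtain ⟨T, U, hTs, hUs, hT0, hU0, hT1, hTb, hUb, hTU⟩ := hC q (CA * ε) hq hq0 (by positivity)
    hqb (facB hf hq hq0 hq1 hq2)
  have hPe : CC * (CA * ε) = P * ε := by rw [hP]; ring
  rw [hPe] at hTb hUb
  obtain ⟨t, ht, htj, ht1, -, ht3, ht4⟩ := hT T (P * ε) hTs hT0 hPε0 (hPε.trans m2) hTb
  obtain ⟨g, hg, hgj, hg1, hg2, hg3, hg4⟩ := hU U (P * ε) hUs hU0 hPε0 (hPε.trans m3) hUb
  have hsub : Metric.closedBall (0 : E3) 1 ⊆ Metric.closedBall 0 2 :=
    Metric.closedBall_subset_closedBall (by norm_num)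
  have hf2 : Ok (Metric.closedBall 0 2) f := hf.mono hsub
  -- bounds
  have b1 : CT * (P * ε) ≤ m := by
    rw [← mul_assoc]
    exact hle _ (by linarith)
  have b2 : CU * (P * ε) ≤ m := by
    rw [← mul_assoc]
    exact hle _ (by linarith)
  have b10 : 0 ≤ CT * (P * ε) := by positivity
  have b20 : 0 ≤ CU * (P * ε) := by positivity
  have d1 := h5 f t 1 1 ε (CT * (P * ε)) hf.dif ht.dif one_pos one_pos le_rfl hε0.le b10
    (by linarith) (fact_bd.1 (fact_bn hb (by omega) le_rfl)) (fact_bd.1 ht3)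
  have d2 := h5 (f * t) g⁻¹ 1 1 (C5 * (ε + CT * (P * ε))) (CU * (P * ε)) (hf.dif.mul ht.dif)
    hg.dif.inv one_pos one_pos le_rfl (by positivity) b20 (by linarith) d1 (fact_bd.1 hg4)
  have d3 : C5 * (C5 * (ε + CT * (P * ε)) + CU * (P * ε)) = m := by
    rw [← hMε, hM]
    ring
  rw [d3] at d2
  -- the third component
  have hthird : ∀ p, (f * t) p 2 = g p 2 := by
    intro p
    obtain ⟨u, hu⟩ := hg2 p
    have e1 : g p 2 = u 2 := by
      rw [← hu, hg1]
      simp [ev]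
    rw [e1]
    have e2 : p = u + (q u + pd 0 T u) • ev 2 := by rw [← hu, hTU]
    rcases le_or_gt (u 1) 1 with h1 | h1
    · have hp1 : p 1 = u 1 := by
        rw [e2]
        simp [ev]
      have e3 := ht1 p
      rw [fact_pd hT1 0 (hp1.trans_le h1), fact_pd hT1 2 (hp1.trans_le h1), zero_smul, zero_smul,
        add_zero] at e3
      rw [Equiv.Perm.mul_apply, e3, e2, fact_pd hT1 0 h1, add_zero]
      exact hq1 u
    · have e3 : q u = 0 := hq0 u (fact_not_mem h1)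
      rw [e3, zero_add] at e2
      have e4 : t p = u + pd 2 T u • ev 0 := by rw [e2]; exact ht1 u
      have e5 : (u + pd 2 T u • ev 0 : E3) 1 = u 1 := by simp [ev]
      have e6 : (u + pd 2 T u • ev 0 : E3) 2 = u 2 := by simp [ev]
      rw [Equiv.Perm.mul_apply, e4, hf.off _ (fact_not_mem (by rw [e5]; exact h1)), e6]
  refine ⟨f * t * g⁻¹, g, t⁻¹, by group, (hf2.mul ht).mul hg.inv, hg, ht.inv,
    fact_bn (fact_bd.2 d2) (by omega) m5, fact_bn hg3 (by omega) (b2.trans m5),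
    fact_bn ht4 (by omega) (b1.trans m5), fun x => ?_, hgj, fun x => ?_⟩
  · rw [Equiv.Perm.mul_apply, hthird]
    exact congrFun (g.apply_symm_apply x) 2
  · have e1 := htj (t⁻¹ x)
    have e2 : t (t⁻¹ x) = x := t.apply_symm_apply x
    rw [e2] at e1
    exact e1.symm

end Pool.Agent.QM59
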