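import Pool.Agent.Lib.MP_decea1_gt_C.CDefs
import Pool.Agent.Lib.MP_decea1_gt_A.Bump

/-!
# MP_decea1_gt, block C, C3: the partition of unity

`B1` is compact, cover it with finitely many open cubes `ball c (1/80)`, `c ∈ B1`. With bumps `b_j`
(`exists_bump`: `0 ≤ b_j ≤ 1`, `= 1` on `closedBall c_j (1/80)`, `= 0` off `closedBall c_j (1/40)`) put
`χ_j = b_j ∏_{i<j} (1 - b_i)`; then `∑ χ_j = 1 - ∏ (1 - b_j) = 1` on `B1` (compare `A/Pou`).
-/

set_option autoImplicit false

open MeasureTheory Set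

namespace Pool.Agent.QM59

private theorem frg_cpt : IsCompact B1 := by
  have h : B1 = Metric.closedBall (![0, 0, 7] : E3) 3 := by
    ext x
    rw [Metric.mem_closedBall, dist_pi_le_iff (by norm_num)]
    constructor
    · rintro ⟨h0, h1, h2⟩ i
      rw [Real.dist_eq]
      fin_cases i
      · simpa using h0
      · simpa using h1
      · simpa using h2
    · intro h
      refine ⟨?_, ?_, ?_⟩
      · simpa [Real.dist_eq] using h 0
      · simpa [Real.dist_eq] using h 1
      · simpa [Real.dist_eq] using h 2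
  rw [h]
  exact isCompact_closedBall _ _

theorem exists_frag : Nonempty Frag := by
  classical
  obtain ⟨t, htK, ht⟩ := frg_cpt.elim_nhds_subcover
    (fun x : E3 => Metric.closedBall x (1 / 80))
    (fun x _ => Metric.closedBall_mem_nhds x (by norm_num))
  have hB : ∀ x : E3, ∃ χ : E3 → ℝ, ContDiff ℝ smo χ ∧ (∀ y, 0 ≤ χ y ∧ χ y ≤ 1) ∧
      (∀ y ∈ Metric.closedBall x (1 / 80), χ y = 1) ∧
      (∀ y, y ∉ Metric.closedBall x (1 / 40) → χ y = 0) := by
    intro x
    obtain ⟨χ, h1, h2, ⟨W, _, hKW, hW1⟩, ⟨L, _, hLB, hL0⟩⟩ := exists_bump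
      (Metric.ball x (1 / 40)) (Metric.closedBall x (1 / 80)) Metric.isOpen_ball
      (isCompact_closedBall _ _) (Metric.closedBall_subset_ball (by norm_num))
    exact ⟨χ, h1, h2, fun y hy => hW1 y (hKW hy), fun y hy => hL0 y fun hyL =>
      hy (Metric.ball_subset_closedBall (hLB hyL))⟩
  choose χ hχs hχ01 hχ1 hχ0 using hB
  let e : Fin t.card ≃ t := t.equivFin.symm
  let c : Fin t.card → E3 := fun i => (e i : E3)
  refine ⟨{
    p := t.card
    c := c
    χ := fun i y => χ (c i) y * ∏ j ∈ Finset.univ with j < i, (1 - χ (c j) y)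
    mem := fun i => htK _ (e i).2
    smooth := fun i => (hχs (c i)).mul (contDiff_prod fun j _ => contDiff_const.sub (hχs (c j)))
    nonneg := fun i x => mul_nonneg (hχ01 (c i) x).1
      (Finset.prod_nonneg fun j _ => by linarith [(hχ01 (c j) x).2])
    supp := fun i x hx => by
      rw [hχ0 (c i) x hx, zero_mul]
    sum := ?_ }⟩
  intro x hx
  have hpo := Finset.prod_one_sub_ordered (Finset.univ : Finset (Fin t.card))
    (fun i => χ (c i) x)
  have hz : ∏ i, (1 - χ (c i) x) = 0 := by
    have hx' := ht hx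
    simp only [mem_iUnion] at hx'
    obtain ⟨p, hp, hxp⟩ := hx'
    have hci : c (e.symm ⟨p, hp⟩) = p := by
      simp only [c, Equiv.apply_symm_apply]
    refine Finset.prod_eq_zero (Finset.mem_univ (e.symm ⟨p, hp⟩)) ?_
    rw [hci, hχ1 p x hxp, sub_self]
  simp only [] at hpo ⊢
  rw [hz] at hpo
  linarith

end Pool.Agent.QM59
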