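import Pool.Agent.Lib.MP_decea1_gt_C.GInvE

/-!
# MP_decea1_gt, block C, C4: fragmentation of a small map

`φ = Gp S` (`exists_gen` with `B1 = BX 3 3`), `S_j = (∑_{i<j} χ_i) S` (`j ≤ p`), `S_0 = 0`, `S_p = S`
because `∑ χ_i = 1` on `B1` and `S = 0` off `B1`; `e_j = Gp S_{j+1} * (Gp S_j)⁻¹`. `Sm (S_j)` because
`S`, `pd 0 S`, `pd 1 S`, and their first derivatives are `≤ C c0` (`|S| ≤ 6 sup |pd 0 S|`). By
`Gp_fix` the map `e_j` fixes all points `bef S_j t`, `t ∉ closedBall (c j) (1/40)`, and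
`‖bef S_j t - t‖ ≤ 1/40`.
-/

set_option autoImplicit false

open MeasureTheory Set

namespace Pool.Agent.QM59

private theorem frge_norm_ev (i : Fin 3) : ‖ev i‖ ≤ 1 := by
  rw [pi_norm_le_iff_of_nonneg zero_le_one]
  intro j
  unfold ev
  rcases eq_or_ne j i with h | h
  · subst h
    simp
  · simp [h]

private theorem frge_bn_pd {K : ℕ} {B : ℝ} {θ : E3 → ℝ} (hθ : ContDiff ℝ smo θ)
    (h : Bn (K + 1) B θ) (i : Fin 3) : Bn K B (pd i θ) := by
  intro k hk x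
  have hL : ‖(ContinuousLinearMap.apply ℝ ℝ (ev i) : (E3 →L[ℝ] ℝ) →L[ℝ] ℝ)‖ ≤ 1 := by
    refine ContinuousLinearMap.opNorm_le_bound _ zero_le_one fun L => ?_
    rw [one_mul]
    calc ‖L (ev i)‖ ≤ ‖L‖ * ‖ev i‖ := L.le_opNorm _
      _ ≤ ‖L‖ * 1 := mul_le_mul_of_nonneg_left (frge_norm_ev i) (norm_nonneg _)
      _ = ‖L‖ := mul_one _
  have h1 : pd i θ = fun x =>
      (ContinuousLinearMap.apply ℝ ℝ (ev i) : (E3 →L[ℝ] ℝ) →L[ℝ] ℝ) (fderiv ℝ θ x) := rfl
  have h2 := (ContinuousLinearMap.apply ℝ ℝ (ev i) :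
    (E3 →L[ℝ] ℝ) →L[ℝ] ℝ).norm_iteratedFDeriv_comp_left
    ((Nb.contDiff_fderiv_smo hθ).contDiffAt (x := x)) (Nb.natCast_le_smo k)
  rw [h1]
  refine h2.trans ?_
  rw [norm_iteratedFDeriv_fderiv]
  calc _ ≤ 1 * ‖iteratedFDeriv ℝ (k + 1) θ x‖ := mul_le_mul_of_nonneg_right hL (norm_nonneg _)
    _ ≤ B := by
      rw [one_mul]
      exact h (k + 1) (by omega) x

private theorem frge_bn_bd {K : ℕ} {B N η : ℝ} {v : E3 → ℝ} (h : Bn K B v) (hB : 0 ≤ B)
    (hN : 1 ≤ N) (hη1 : η ≤ 1) : Bd K N η B v :=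
  ⟨fun i hi x => (h i hi.le x).trans (le_mul_of_one_le_right hB (one_le_pow₀ hN)), fun x =>
    (mul_le_of_le_one_left (norm_nonneg _) hη1).trans
      ((h K le_rfl x).trans (le_mul_of_one_le_right hB (one_le_pow₀ hN)))⟩

private theorem frge_chi (F : Frag) (K : ℕ) (i : Fin F.p) : ∃ B : ℝ, 0 ≤ B ∧ Bn K B (F.χ i) := by
  have hc : HasCompactSupport (F.χ i) :=
    HasCompactSupport.intro (isCompact_closedBall (F.c i) (1 / 40)) fun x hx => F.supp i x hx
  have h1 : ∀ k : ℕ, ∃ b : ℝ, ∀ x, ‖iteratedFDeriv ℝ k (F.χ i) x‖ ≤ b := fun k =>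
    ((F.smooth i).continuous_iteratedFDeriv (Nb.natCast_le_smo k)).bounded_above_of_compact_support
      (hc.iteratedFDeriv k)
  choose b hb using h1
  refine ⟨∑ k ∈ Finset.range (K + 1), |b k|, Finset.sum_nonneg fun k _ => abs_nonneg _, ?_⟩
  intro k hk x
  calc ‖iteratedFDeriv ℝ k (F.χ i) x‖ ≤ b k := hb k x
    _ ≤ |b k| := le_abs_self _
    _ ≤ _ := Finset.single_le_sum (f := fun k => |b k|) (fun k _ => abs_nonneg (b k))
      (Finset.mem_range.2 (by omega))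

/-- the partial sums of the partition of unity -/
private noncomputable def frge_th (F : Frag) (j : ℕ) (x : E3) : ℝ :=
  ∑ i ∈ Finset.univ.filter (fun i : Fin F.p => (i : ℕ) < j), F.χ i x

private theorem frge_th_smooth (F : Frag) (j : ℕ) : ContDiff ℝ smo (frge_th F j) :=
  ContDiff.sum fun i _ => F.smooth i

private theorem frge_th_bn (F : Frag) (K : ℕ) : ∃ B : ℝ, 1 ≤ B ∧ ∀ j : ℕ,
    Bn K B (frge_th F j) ∧ ∀ i, Bn K B (pd i (frge_th F j)) := by
  choose b hb0 hb using frge_chi F (K + 1)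
  have h0 : 0 ≤ ∑ i, b i := Finset.sum_nonneg fun i _ => hb0 i
  have key : ∀ j : ℕ, Bn (K + 1) (1 + ∑ i, b i) (frge_th F j) := by
    intro j
    rw [← bu_one_iff]
    have h1 := Nb.NB.sum (Finset.univ.filter (fun i : Fin F.p => (i : ℕ) < j)) (K := K + 1)
      (η := 1) (c := b) (v := fun i => F.χ i) (fun i _ => F.smooth i) zero_le_one
      (fun i _ => Nb.nb_of_le le_rfl (hb i))
    refine Nb.NB.mono h1 ?_
    have h2 : ∑ i ∈ Finset.univ.filter (fun i : Fin F.p => (i : ℕ) < j), b i ≤ ∑ i, b i :=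
      Finset.sum_le_sum_of_subset_of_nonneg (Finset.filter_subset _ _) fun i _ _ => hb0 i
    linarith
  refine ⟨1 + ∑ i, b i, by linarith, fun j => ⟨fun k hk x => key j k (by omega) x, fun i => ?_⟩⟩
  exact frge_bn_pd (frge_th_smooth F j) (key j) i

private theorem frge_th_zero (F : Frag) (x : E3) : frge_th F 0 x = 0 := by
  unfold frge_th
  simp

private theorem frge_th_top (F : Frag) (x : E3) (hx : x ∈ B1) : frge_th F F.p x = 1 := by
  unfold frge_th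
  rw [Finset.filter_true_of_mem fun i _ => i.2]
  exact F.sum x hx

private theorem frge_th_succ (F : Frag) (j : Fin F.p) (x : E3)
    (hx : F.χ j x = 0) : frge_th F ((j : ℕ) + 1) x = frge_th F j x := by
  unfold frge_th
  have h1 : Finset.univ.filter (fun i : Fin F.p => (i : ℕ) < (j : ℕ) + 1) =
      insert j (Finset.univ.filter (fun i : Fin F.p => (i : ℕ) < (j : ℕ))) := by
    ext i
    simp only [Finset.mem_filter, Finset.mem_univ, true_and, Finset.mem_insert]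
    constructor
    · intro h
      rcases Nat.lt_succ_iff_lt_or_eq.1 h with h2 | h2
      · exact Or.inr h2
      · exact Or.inl (Fin.ext h2)
    · rintro (h | h)
      · subst h
        omega
      · omega
  rw [h1, Finset.sum_insert (by simp), hx, zero_add]

private theorem frge_prod {K : ℕ} (hK : 1 ≤ K) {B : ℝ} (hB : 0 ≤ B) {θ : E3 → ℝ}
    (hθ : ContDiff ℝ smo θ) (h1 : Bn K B θ) {i : Fin 3} (h2 : Bn K B (pd i θ)) {S : E3 → ℝ}
    (hS : ContDiff ℝ smo S) {N η c : ℝ} (hN : 1 ≤ N) (hη : 0 ≤ η) (hη1 : η ≤ 1) (hc : 0 ≤ c)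
    (b0 : Bd K N η (6 * c) S) (b1 : Bd K N η c (pd i S)) :
    Bd K N η (7 * 2 ^ K * B * c) (pd i fun x => θ x * S x) := by
  have e1 : (pd i fun x => θ x * S x) = fun x => θ x • pd i S x + S x • pd i θ x := by
    funext x
    have h3 : DifferentiableAt ℝ θ x := Nb.differentiable_of_smo hθ x
    have h4 : DifferentiableAt ℝ S x := Nb.differentiable_of_smo hS x
    unfold pd
    rw [fderiv_fun_mul h3 h4]
    simp
  have hN0 : (0 : ℝ) ≤ N := by linarith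
  have a1 := Bd.smul hθ (contDiff_pd hS i) hK hN0 hη hη1 hB hc (frge_bn_bd h1 hB hN hη1) b1
  have a2 := Bd.smul hS (contDiff_pd hθ i) hK hN0 hη hη1 (by linarith : 0 ≤ 6 * c) hB b0
    (frge_bn_bd h2 hB hN hη1)
  have a3 := a1.add (hθ.smul (contDiff_pd hS i)) (hS.smul (contDiff_pd hθ i)) a2 hη
  rw [e1]
  refine a3.mono hN0 (le_of_eq ?_)
  ring

private theorem frge_left {K : ℕ} {η c : ℝ} {A A' : Type*} [NormedAddCommGroup A]
    [NormedSpace ℝ A] [NormedAddCommGroup A'] [NormedSpace ℝ A'] (L : A →L[ℝ] A')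
    (hL : ‖L‖ ≤ 1) {v : E3 → A} (hη : 0 ≤ η) (hv : ContDiff ℝ smo v) (h : Nb.NB K η v c) :
    Nb.NB K η (fun x => L (v x)) c :=
  (h.clm L hv hη).mono (mul_le_of_le_one_left (h.nonneg hη) hL)

private theorem frge_proj (i : Fin 3) :
    ‖(ContinuousLinearMap.proj (R := ℝ) i : E3 →L[ℝ] ℝ)‖ ≤ 1 := by
  refine ContinuousLinearMap.opNorm_le_bound _ zero_le_one fun x => ?_
  rw [one_mul]
  exact norm_le_pi_norm x i

private theorem frge_sm (i j : Fin 3) :
    ‖((ContinuousLinearMap.proj (R := ℝ) i : E3 →L[ℝ] ℝ).smulRight (ev j) : E3 →L[ℝ] E3)‖ ≤ 1 := by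
  refine ContinuousLinearMap.opNorm_le_bound _ zero_le_one fun x => ?_
  rw [ContinuousLinearMap.smulRight_apply, norm_smul, one_mul]
  calc ‖x i‖ * ‖ev j‖ ≤ ‖x‖ * 1 :=
        mul_le_mul (norm_le_pi_norm x i) (frge_norm_ev j) (norm_nonneg _) (norm_nonneg _)
    _ = ‖x‖ := mul_one _

/-- the first derivatives of the generating function -/
private theorem frge_first {f : Equiv.Perm E3} {S : E3 → ℝ} {c0 : ℝ} (hf : IsDif f)
    (h : ∀ x, ‖disp f x‖ ≤ c0) (h' : ∀ x, ‖fderiv ℝ (disp f) x‖ ≤ c0) (hc : c0 ≤ 1 / 8)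
    (hp0 : ∀ x, pd 0 S x = ((toP (af f))⁻¹ x) 1 - x 1)
    (hp1 : ∀ x, pd 1 S x = f ((toP (af f))⁻¹ x) 0 - x 0) :
    Bd 1 1 1 (4 * c0) (pd 0 S) ∧ Bd 1 1 1 (4 * c0) (pd 1 S) := by
  have hc0 : 0 ≤ c0 := (norm_nonneg _).trans (h 0)
  obtain ⟨hbij, hdif⟩ := af_dif hf fun x => (h' x).trans hc
  have hsm : ContDiff ℝ smo (disp f) := hf.contDiff_disp
  have hb : Nb.NB 1 1 (disp f) c0 := by
    rw [show (1 : ℕ) = 0 + 1 from rfl, Nb.nb_succ_iff]
    refine ⟨h, fun i hi => absurd hi (by omega), fun x => ?_⟩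
    rw [norm_iteratedFDeriv_zero, one_mul]
    exact h' x
  have hb1 : Nb.NB 1 1 (disp (toP (af f))) c0 := by
    have h5 : disp (toP (af f)) = fun x =>
        ((ContinuousLinearMap.proj (R := ℝ) 1 : E3 →L[ℝ] ℝ).smulRight (ev 1) : E3 →L[ℝ] E3)
          (disp f x) := by
      funext x
      rw [ContinuousLinearMap.smulRight_apply]
      unfold disp
      rw [toP_apply hbij]
      unfold af
      rw [add_sub_cancel_left]
      rfl
    rw [h5]
    exact frge_left _ (frge_sm 1 1) zero_le_one hsm hb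
  have hD : ∀ {v : E3 → E3} {c : ℝ}, Nb.NB 1 1 v c → ∀ x, ‖fderiv ℝ v x‖ ≤ c := by
    intro v c hv x
    have h6 := hv.2 x
    rw [one_mul, ← norm_iteratedFDeriv_fderiv, norm_iteratedFDeriv_zero] at h6
    exact h6
  have hdi : IsDif (toP (af f))⁻¹ := hdif.inv
  have hsm2 : ContDiff ℝ smo (disp (toP (af f))⁻¹) := hdi.contDiff_disp
  have hb2 : Nb.NB 1 1 (disp (toP (af f))⁻¹) (4 * c0) := by
    have h6 := Nb.NB.inv 1 le_rfl zero_le_one le_rfl hdif.contDiff_disp hsm2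
      (disp_inv (toP (af f))) (fun x => (hD hb1 x).trans (by linarith)) hb1
      (by rw [Nb.cN_one]; linarith)
    rw [Nb.cN_one] at h6
    exact h6.mono (by linarith)
  have hca : ∀ x, ((toP (af f))⁻¹ x) 0 = x 0 := by
    intro x
    have h6 : af f ((toP (af f))⁻¹ x) = x := by
      rw [← toP_apply hbij]
      exact (toP (af f)).apply_symm_apply x
    have h7 := congrFun h6 0
    unfold af at h7
    simp only [Pi.add_apply, Pi.smul_apply, smul_eq_mul, ev] at h7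
    have h8 : (Pi.single 1 1 : E3) 0 = 0 := by simp
    rw [h8, mul_zero, add_zero] at h7
    exact h7
  constructor
  · rw [← bu_iff_bd]
    have h5 : pd 0 S = fun x =>
        (ContinuousLinearMap.proj (R := ℝ) 1 : E3 →L[ℝ] ℝ) (disp (toP (af f))⁻¹ x) := by
      funext x
      rw [hp0]
      rfl
    rw [h5]
    exact frge_left _ (frge_proj 1) zero_le_one hsm2 hb2
  · rw [← bu_iff_bd]
    have h5 : pd 1 S = fun x => (fun y => (ContinuousLinearMap.proj (R := ℝ) 0 : E3 →L[ℝ] ℝ)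
        (disp f y)) (x + disp (toP (af f))⁻¹ x) := by
      funext x
      rw [hp1]
      have h7 : x + disp (toP (af f))⁻¹ x = (toP (af f))⁻¹ x := by
        unfold disp
        exact add_sub_cancel _ _
      rw [h7]
      change f ((toP (af f))⁻¹ x) 0 - x 0 =
        f ((toP (af f))⁻¹ x) 0 - ((toP (af f))⁻¹ x) 0
      rw [hca]
    have h6 := frge_left (ContinuousLinearMap.proj (R := ℝ) 0 : E3 →L[ℝ] ℝ) (frge_proj 0)
      zero_le_one hsm hb
    have h10 := Nb.NB.comp 1 le_rfl zero_le_one le_rfl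
      ((ContinuousLinearMap.proj (R := ℝ) 0 : E3 →L[ℝ] ℝ).contDiff.comp hsm) hsm2
      (hb2.mono (by linarith)) (fun x => (hD hb2 x).trans (by linarith)) h6
    rw [h5]
    rw [Nb.cN_one] at h10
    exact Nb.NB.mono h10 (by linarith)

private theorem frge_box : B1 = Icc ![-3, -3, 7 - 3] ![3, 3, 7 + 3] := BX_eq 3 3

private theorem frge_len : (![3, 3, 7 + 3] : E3) 0 - (![-3, -3, 7 - 3] : E3) 0 ≤ 6 := by
  simp
  norm_num

private theorem frge_dif {S : E3 → ℝ} (h : Sm S) : IsDif (Gp S) :=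
  (bef_dif h).mul (alf_dif h).inv

private theorem frge_main (F : Frag) (K : ℕ) (hK : 2 ≤ K) : ∃ C κ : ℝ, 1 ≤ C ∧ 0 < κ ∧
    ∀ (f : Equiv.Perm E3) (S : E3 → ℝ), IsDif f → (∀ x, ‖fderiv ℝ (disp f) x‖ ≤ 1 / 8) →
      ContDiff ℝ smo S → (∀ x, x ∉ B1 → S x = 0) →
      (∀ x, pd 0 S x = ((toP (af f))⁻¹ x) 1 - x 1) →
      (∀ x, pd 1 S x = f ((toP (af f))⁻¹ x) 0 - x 0) →
      (∀ j, Sm (fun x => frge_th F j x * S x)) →
      ∀ N η c : ℝ, 1 ≤ N → 0 < η → η ≤ 1 → 0 ≤ c → N * c ≤ κ → Bd K N η c (disp f) →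
      ∀ j : ℕ, Bd K N η (C * c) (disp (Gp (fun x => frge_th F (j + 1) x * S x) *
        (Gp (fun x => frge_th F j x * S x))⁻¹)) := by
  obtain ⟨C1, κ1, hC1, hκ1, h1⟩ := gen_bd K hK
  obtain ⟨B, hB, hth⟩ := frge_th_bn F K
  obtain ⟨C3, κ3, hC3, hκ3, h3⟩ := gp_bd K hK
  obtain ⟨C5, hC5, h5⟩ := scE5 K hK
  obtain ⟨D, hD⟩ : ∃ D : ℝ, D = 7 * 2 ^ K * B * C1 := ⟨_, rfl⟩
  have hpow : (1 : ℝ) ≤ 2 ^ K := one_le_pow₀ one_le_two
  have hD1 : 1 ≤ D := by
    rw [hD]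
    have a1 : (1 : ℝ) ≤ 7 * 2 ^ K := by linarith
    have a2 : (1 : ℝ) ≤ 7 * 2 ^ K * B := one_le_mul_of_one_le_of_one_le a1 hB
    exact one_le_mul_of_one_le_of_one_le a2 hC1
  have hD0 : 0 < D := by linarith
  have hC30 : 0 < C3 := by linarith
  have hC50 : 0 < C5 := by linarith
  refine ⟨2 * C5 * (C3 * D), min κ1 (min (κ3 / D) (1 / (C3 * D))), ?_, ?_, ?_⟩
  · have a1 : 1 ≤ C3 * D := one_le_mul_of_one_le_of_one_le hC3 hD1
    have a2 : 1 ≤ 2 * C5 := by linarith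
    exact one_le_mul_of_one_le_of_one_le a2 a1
  · exact lt_min hκ1 (lt_min (by positivity) (by positivity))
  intro f S hf hd hS hS0 hp0 hp1 hSm N η c hN hη hη1 hc hNc hb j
  have hN0 : (0 : ℝ) < N := by linarith
  have k1 : N * c ≤ κ1 := hNc.trans (min_le_left _ _)
  have k3 : N * c ≤ κ3 / D := hNc.trans ((min_le_right _ _).trans (min_le_left _ _))
  have k4 : N * c ≤ 1 / (C3 * D) := hNc.trans ((min_le_right _ _).trans (min_le_right _ _))
  obtain ⟨b0, b1⟩ := h1 f S N η c hf hd hS hp0 hp1 hN hη hη1 hc k1 hb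
  have hC1c : 0 ≤ C1 * c := mul_nonneg (by linarith) hc
  have bS : Bd K N η (6 * (C1 * c)) S := int_bd 6 (by norm_num) frge_len hη.le hS
    (fun x hx => hS0 x (by rw [frge_box]; exact hx)) b0
  have hpd : ∀ m : ℕ, Bd K N η (D * c) (pd 0 fun x => frge_th F m x * S x) ∧
      Bd K N η (D * c) (pd 1 fun x => frge_th F m x * S x) := by
    intro m
    have e : 7 * 2 ^ K * B * (C1 * c) = D * c := by
      rw [hD]
      ring
    have a0 := frge_prod (by omega : 1 ≤ K) (by linarith : 0 ≤ B) (frge_th_smooth F m)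
      (hth m).1 ((hth m).2 0) hS hN hη.le hη1 hC1c bS b0
    have a1 := frge_prod (by omega : 1 ≤ K) (by linarith : 0 ≤ B) (frge_th_smooth F m)
      (hth m).1 ((hth m).2 1) hS hN hη.le hη1 hC1c bS b1
    rw [e] at a0 a1
    exact ⟨a0, a1⟩
  have hDc : 0 ≤ D * c := mul_nonneg hD0.le hc
  have k5 : N * (D * c) ≤ κ3 := by
    rw [le_div_iff₀ hD0] at k3
    linarith
  have k6 : N * (C3 * (D * c)) ≤ 1 := by
    rw [le_div_iff₀ (by positivity)] at k4
    linarith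
  obtain ⟨g1, -⟩ := h3 _ N η (D * c) (hSm (j + 1)) hN hη hη1 hDc k5 (hpd (j + 1)).1
    (hpd (j + 1)).2
  obtain ⟨-, g2⟩ := h3 _ N η (D * c) (hSm j) hN hη hη1 hDc k5 (hpd j).1 (hpd j).2
  have h6 := h5 _ _ N η (C3 * (D * c)) (C3 * (D * c)) (frge_dif (hSm (j + 1)))
    (frge_dif (hSm j)).inv hN0 hη hη1 (mul_nonneg hC30.le hDc) (mul_nonneg hC30.le hDc) k6 g1 g2
  refine h6.mono hN0.le (le_of_eq ?_)
  ring

private theorem frge_rprod_succ {p : ℕ} (e : Fin (p + 1) → Equiv.Perm E3) :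
    rprod e = e (Fin.last p) * rprod (fun j => e j.castSucc) := by
  unfold rprod
  rw [List.ofFn_succ', List.concat_eq_append, List.reverse_append, List.reverse_singleton,
    List.singleton_append, List.prod_cons]

private theorem frge_tele (a : ℕ → Equiv.Perm E3) (p : ℕ) :
    rprod (fun j : Fin p => a ((j : ℕ) + 1) * (a j)⁻¹) = a p * (a 0)⁻¹ := by
  induction p with
  | zero =>
    have h1 : rprod (fun j : Fin 0 => a ((j : ℕ) + 1) * (a j)⁻¹) = 1 := by simp [rprod]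
    rw [h1, mul_inv_cancel]
  | succ p ih =>
    rw [frge_rprod_succ]
    have h1 : rprod (fun j : Fin p => a (((j.castSucc : Fin (p + 1)) : ℕ) + 1) *
        (a ((j.castSucc : Fin (p + 1)) : ℕ))⁻¹) = a p * (a 0)⁻¹ := ih
    rw [h1, Fin.val_last]
    group

theorem frg_exists (F : Frag) : ∃ (c0 : ℝ) (C κ : ℕ → ℝ), 0 < c0 ∧ (∀ K, 1 ≤ C K) ∧
    (∀ K, 0 < κ K) ∧ ∀ φ : Equiv.Perm E3, OkZ B1 φ → (∀ x, ‖disp φ x‖ ≤ c0) →
      (∀ x, ‖fderiv ℝ (disp φ) x‖ ≤ c0) →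
      ∃ e : Fin F.p → Equiv.Perm E3,
        (∀ j, OkZ (Metric.closedBall (F.c j) (1 / 20)) (e j)) ∧ φ = rprod e ∧
        ∀ (K : ℕ) (N η c : ℝ), 2 ≤ K → 1 ≤ N → 0 < η → η ≤ 1 → 0 ≤ c → N * c ≤ κ K →
          Bd K N η c (disp φ) → ∀ j, Bd K N η (C K * c) (disp (e j)) := by
  obtain ⟨B, hB, hth⟩ := frge_th_bn F 1
  have hB0 : 0 < B := by linarith
  have hall : ∀ K : ℕ, ∃ C κ : ℝ, 1 ≤ C ∧ 0 < κ ∧ (2 ≤ K →
    ∀ (f : Equiv.Perm E3) (S : E3 → ℝ), IsDif f → (∀ x, ‖fderiv ℝ (disp f) x‖ ≤ 1 / 8) →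
      ContDiff ℝ smo S → (∀ x, x ∉ B1 → S x = 0) →
      (∀ x, pd 0 S x = ((toP (af f))⁻¹ x) 1 - x 1) →
      (∀ x, pd 1 S x = f ((toP (af f))⁻¹ x) 0 - x 0) →
      (∀ j, Sm (fun x => frge_th F j x * S x)) →
      ∀ N η c : ℝ, 1 ≤ N → 0 < η → η ≤ 1 → 0 ≤ c → N * c ≤ κ → Bd K N η c (disp f) →
      ∀ j : ℕ, Bd K N η (C * c) (disp (Gp (fun x => frge_th F (j + 1) x * S x) *
        (Gp (fun x => frge_th F j x * S x))⁻¹))) := by
    intro K
    by_cases hK : 2 ≤ K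
    · obtain ⟨C, κ, hC, hκ, h⟩ := frge_main F K hK
      exact ⟨C, κ, hC, hκ, fun _ => h⟩
    · exact ⟨1, 1, le_rfl, one_pos, fun h => absurd h hK⟩
  choose C κ hC hκ hmain using hall
  refine ⟨min (1 / 8) (1 / (2240 * B)), C, κ, lt_min (by norm_num) (by positivity), hC, hκ, ?_⟩
  intro φ hφ hd0 hd1
  obtain ⟨c0, hc0⟩ : ∃ c0 : ℝ, c0 = min (1 / 8) (1 / (2240 * B)) := ⟨_, rfl⟩
  rw [← hc0] at hd0 hd1
  have hc8 : c0 ≤ 1 / 8 := by
    rw [hc0]
    exact min_le_left _ _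
  have hcB : 56 * B * c0 ≤ 1 / 40 := by
    have h1 : c0 ≤ 1 / (2240 * B) := by
      rw [hc0]
      exact min_le_right _ _
    rw [le_div_iff₀ (by positivity)] at h1
    linarith
  have hcn : 0 ≤ c0 := (norm_nonneg _).trans (hd0 0)
  have hφ' : OkZ (Icc ![-3, -3, 7 - 3] ![3, 3, 7 + 3]) φ := by
    rw [← frge_box]
    exact hφ
  have hd8 : ∀ x, ‖fderiv ℝ (disp φ) x‖ ≤ 1 / 8 := fun x => (hd1 x).trans hc8
  obtain ⟨S, hS, hS0, hφS, hp0, hp1⟩ := exists_gen hφ' hd8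
  obtain ⟨b0, b1⟩ := frge_first hφ.dif hd0 hd1 hc8 hp0 hp1
  have hS0' : ∀ x, x ∉ B1 → S x = 0 := fun x hx => hS0 x (by rw [← frge_box]; exact hx)
  have bS : Bd 1 1 1 (6 * (4 * c0)) S := int_bd 6 (by norm_num) frge_len zero_le_one hS.smooth
    hS0 b0
  have hpd : ∀ m : ℕ, Bd 1 1 1 (1 / 40) (pd 0 fun x => frge_th F m x * S x) ∧
      Bd 1 1 1 (1 / 40) (pd 1 fun x => frge_th F m x * S x) := by
    intro m
    have e : 7 * 2 ^ 1 * B * (4 * c0) ≤ 1 / 40 := by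
      calc 7 * 2 ^ 1 * B * (4 * c0) = 56 * B * c0 := by ring
        _ ≤ 1 / 40 := hcB
    have a0 := frge_prod le_rfl hB0.le (frge_th_smooth F m) (hth m).1 ((hth m).2 0) hS.smooth
      le_rfl zero_le_one le_rfl (by linarith : 0 ≤ 4 * c0) bS b0
    have a1 := frge_prod le_rfl hB0.le (frge_th_smooth F m) (hth m).1 ((hth m).2 1) hS.smooth
      le_rfl zero_le_one le_rfl (by linarith : 0 ≤ 4 * c0) bS b1
    exact ⟨a0.mono zero_le_one e, a1.mono zero_le_one e⟩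
  have hder : ∀ {v : E3 → ℝ}, Bd 1 1 1 (1 / 40) v → ∀ x, ‖fderiv ℝ v x‖ ≤ 1 / 4 := by
    intro v hv x
    have h6 := hv.2 x
    rw [one_mul, one_pow, mul_one, ← norm_iteratedFDeriv_fderiv, norm_iteratedFDeriv_zero] at h6
    exact h6.trans (by norm_num)
  have hSm : ∀ j, Sm (fun x => frge_th F j x * S x) := fun j =>
    ⟨(frge_th_smooth F j).mul hS.smooth, hder (hpd j).1, hder (hpd j).2⟩
  have hok : ∀ j : ℕ, OkZ B1 (Gp (fun x => frge_th F j x * S x)) := by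
    intro j
    rw [frge_box]
    refine Gp_okZ (hSm j) fun x hx => ?_
    rw [hS0 x hx, mul_zero]
  refine ⟨fun j => Gp (fun x => frge_th F ((j : ℕ) + 1) x * S x) *
    (Gp (fun x => frge_th F (j : ℕ) x * S x))⁻¹, ?_, ?_, ?_⟩
  · intro j
    have h1 := (hok ((j : ℕ) + 1)).mul (hok (j : ℕ)).inv
    refine ⟨⟨h1.dif, h1.vol, ?_⟩, h1.zp⟩
    intro x hx
    obtain ⟨t, rfl⟩ := (bef_bij (hSm j)).2 x
    have h2 : dist (bef (fun x => frge_th F j x * S x) t) t ≤ 1 / 40 := by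
      have h3 : bef (fun x => frge_th F j x * S x) t - t =
          pd 1 (fun x => frge_th F j x * S x) t • ev 0 := by
        unfold bef
        rw [add_sub_cancel_left]
      rw [dist_eq_norm, h3, norm_smul]
      have h4 := (hpd j).2.1 0 one_pos t
      rw [norm_iteratedFDeriv_zero, pow_zero, mul_one] at h4
      calc _ ≤ 1 / 40 * 1 := mul_le_mul h4 (frge_norm_ev 0) (norm_nonneg _) (by norm_num)
        _ = 1 / 40 := mul_one _
    have h5 : t ∉ Metric.closedBall (F.c j) (1 / 40) := by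
      intro h6
      apply hx
      rw [Metric.mem_closedBall] at h6 ⊢
      calc _ ≤ dist (bef (fun x => frge_th F j x * S x) t) t + dist t (F.c j) :=
            dist_triangle _ _ _
        _ ≤ 1 / 40 + 1 / 40 := add_le_add h2 h6
        _ = 1 / 20 := by norm_num
    have h7 : (fun x => frge_th F j x * S x) =ᶠ[nhds t]
        fun x => frge_th F ((j : ℕ) + 1) x * S x := by
      filter_upwards [Metric.isClosed_closedBall.isOpen_compl.mem_nhds h5] with y hy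
      rw [frge_th_succ F j y (F.supp j y hy)]
    exact Gp_fix (hSm j) (hSm ((j : ℕ) + 1)) h7
  · have h1 := frge_tele (fun j => Gp (fun x => frge_th F j x * S x)) F.p
    have h2 : (fun x => frge_th F F.p x * S x) = S := by
      funext x
      by_cases hx : x ∈ B1
      · rw [frge_th_top F x hx, one_mul]
      · rw [hS0' x hx, mul_zero]
    have h3 : (fun x => frge_th F 0 x * S x) = fun _ => 0 := by
      funext x
      rw [frge_th_zero, zero_mul]
    rw [h1, h2, h3, Gp_zero, inv_one, mul_one]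
    exact hφS
  · intro K N η c hK hN hη hη1 hc hNc hb j
    exact hmain K hK φ S hφ.dif hd8 hS.smooth hS0' hp0 hp1 hSm N η c hN hη hη1 hc hNc hb j

end Pool.Agent.QM59
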