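import Pool.Agent.Lib.MP_decea1_gt_C.Inv

/-!
# MP_decea1_gt, block C, C0: the rules E2 - E5 at scale `N`

Every statement follows from the one at scale one by `bd_iff_bu`, applied to `x ↦ U (N⁻¹ x)` and
`x ↦ N v (N⁻¹ x)`, `scl N f` (`disp_scl`).
-/

set_option autoImplicit false

open MeasureTheory Set

namespace Pool.Agent.QM59

universe u

private theorem Scl_fderiv {W : Type u} [NormedAddCommGroup W] [NormedSpace ℝ W] {K : ℕ}
    (hK : 2 ≤ K) {N η a : ℝ} {v : E3 → W} (h : Bd K N η a v) (x : E3) :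
    ‖fderiv ℝ v x‖ ≤ N * a := by
  have h1 := h.1 1 (by omega) x
  rw [← norm_iteratedFDeriv_fderiv, norm_iteratedFDeriv_zero, pow_one] at h1
  rwa [mul_comm]

/-- E2 -/
theorem scE2 (K : ℕ) (hK : 2 ≤ K) : ∃ C : ℝ, 1 ≤ C ∧
    ∀ (W : Type u) [NormedAddCommGroup W] [NormedSpace ℝ W] (U : E3 → W) (v : E3 → E3)
      (N η a c : ℝ), ContDiff ℝ smo U → ContDiff ℝ smo v → 0 < N → 0 < η → η ≤ 1 → N * a ≤ 1 →
      Bd K N η a v → Bd K N η c U → Bd K N η (C * c) (fun x => U (x + v x)) := by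
  refine ⟨Nb.cN K, Nb.one_le_cN K, ?_⟩
  intro W _ _ U v N η a c hU hv hN hη h1 hNa hva hUc
  exact Nb.NBN.comp (by omega) hN hη.le h1 hU hv hva hNa
    (fun x => (Scl_fderiv hK hva x).trans hNa) hUc

/-- E3 -/
theorem scE3 (K : ℕ) (hK : 2 ≤ K) : ∃ C : ℝ, 1 ≤ C ∧
    ∀ (W : Type u) [NormedAddCommGroup W] [NormedSpace ℝ W] (U : E3 → W) (v : E3 → E3)
      (N η θ a : ℝ), ContDiff ℝ smo U → ContDiff ℝ smo v → 0 < N → 0 < η → η ≤ 1 → 0 ≤ θ →
      0 ≤ a → N * a ≤ 1 → Bd K N η a v →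
      (∀ i ≤ K + 1, ∀ x, ‖iteratedFDeriv ℝ i U x‖ ≤ θ * N ^ i) →
      Bd K N η (C * θ * (N * a)) (fun x => U (x + v x) - U x) := by
  refine ⟨Nb.cN K, Nb.one_le_cN K, ?_⟩
  intro W _ _ U v N η θ a hU hv hN hη h1 hθ ha hNa hva hUθ
  have h2 : Nb.NBN (K + 1) N 1 U θ :=
    ⟨fun i hi x => hUθ i hi.le x, fun x => by rw [one_mul]; exact hUθ (K + 1) le_rfl x⟩
  have h3 := Nb.NBN.comp_sub (by omega : 1 ≤ K) hN hη.le h1 hU hv hva hNa
    (fun x => (Scl_fderiv hK hva x).trans hNa) h2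
  rw [← mul_assoc] at h3
  exact h3

/-- E4 -/
theorem scE4 (K : ℕ) (hK : 2 ≤ K) : ∃ C κ : ℝ, 1 ≤ C ∧ 0 < κ ∧ κ ≤ 1 / 2 ∧
    ∀ (f : Equiv.Perm E3) (N η c : ℝ), IsDif f → 0 < N → 0 < η → η ≤ 1 → 0 ≤ c → N * c ≤ κ →
      Bd K N η c (disp f) → Bd K N η (C * c) (disp f⁻¹) := by
  have hC := Nb.one_le_cN K
  have hC0 := Nb.cN_pos K
  refine ⟨2 * Nb.cN K, (2 * Nb.cN K)⁻¹, by linarith, by positivity, ?_, ?_⟩
  · rw [one_div]
    exact inv_anti₀ two_pos (by linarith)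
  · intro f N η c hf hN hη h1 hc hcκ hb
    have h2 : 2 * Nb.cN K * (N * c) ≤ 1 := by
      have h3 := mul_le_mul_of_nonneg_left hcκ (by positivity : 0 ≤ 2 * Nb.cN K)
      rwa [mul_inv_cancel₀ (by positivity)] at h3
    have hNc : 0 ≤ N * c := by positivity
    have hc2 : N * c ≤ 1 / 2 := by nlinarith
    exact Nb.NBN.inv (by omega) hN hη.le h1 hf.contDiff_disp hf.inv.contDiff_disp
      (disp_inv f) (fun x => (Scl_fderiv hK hb x).trans hc2) hb h2

/-- E5 -/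
theorem scE5 (K : ℕ) (hK : 2 ≤ K) : ∃ C : ℝ, 1 ≤ C ∧
    ∀ (f g : Equiv.Perm E3) (N η a b : ℝ), IsDif f → IsDif g → 0 < N → 0 < η → η ≤ 1 → 0 ≤ a →
      0 ≤ b → N * b ≤ 1 → Bd K N η a (disp f) → Bd K N η b (disp g) →
      Bd K N η (C * (a + b)) (disp (f * g)) := by
  have hC := Nb.one_le_cN K
  refine ⟨Nb.cN K, hC, ?_⟩
  intro f g N η a b hf hg hN hη h1 ha hb hNb hfa hgb
  have h2 : Bd K N η (b + Nb.cN K * a) (fun x => disp g x + disp f (x + disp g x)) :=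
    Nb.NBN.comp_id (by omega : 1 ≤ K) hN hη.le h1 hf.contDiff_disp hg.contDiff_disp
      (fun x => (Scl_fderiv hK hgb x).trans hNb) hfa hgb hNb
  have h3 : disp (f * g) = fun x => disp g x + disp f (x + disp g x) :=
    funext fun x => disp_mul f g x
  rw [h3]
  refine h2.mono hN.le ?_
  have h4 : b ≤ Nb.cN K * b := le_mul_of_one_le_left hb hC
  linarith

private theorem Scl_rprod_succ {p : ℕ} (e : Fin (p + 1) → Equiv.Perm E3) :
    rprod e = e (Fin.last p) * rprod (fun j => e j.castSucc) := by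
  unfold rprod
  rw [List.ofFn_succ', List.concat_eq_append, List.reverse_append, List.reverse_singleton,
    List.singleton_append, List.prod_cons]

private theorem Scl_rprod_dif {p : ℕ} : ∀ (e : Fin p → Equiv.Perm E3), (∀ j, IsDif (e j)) →
    IsDif (rprod e) := by
  induction p with
  | zero =>
    intro e _
    have h1 : rprod e = 1 := by simp [rprod]
    rw [h1]
    exact IsDif.one
  | succ p ih =>
    intro e he
    rw [Scl_rprod_succ]
    exact (he _).mul (ih _ fun j => he _)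

/-- products of `p` factors: for every `p` there are `C` and `κ` -/
theorem scE5L (K p : ℕ) (hK : 2 ≤ K) : ∃ C κ : ℝ, 1 ≤ C ∧ 0 < κ ∧
    ∀ (e : Fin p → Equiv.Perm E3) (N η c : ℝ), (∀ j, IsDif (e j)) → 0 < N → 0 < η → η ≤ 1 →
      0 ≤ c → N * c ≤ κ → (∀ j, Bd K N η c (disp (e j))) →
      Bd K N η (C * c) (disp (rprod e)) := by
  obtain ⟨C₀, hC₀, h0⟩ := scE5 K hK
  induction p with
  | zero =>
    refine ⟨1, 1, le_rfl, one_pos, ?_⟩
    intro e N η c he hN hη h1 hc hNc hb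
    have h2 : rprod e = 1 := by simp [rprod]
    have h3 : disp (rprod e) = fun _ => 0 := by
      funext x
      rw [h2]
      simp [disp]
    have h4 : ∀ i x, ‖iteratedFDeriv ℝ i (fun _ : E3 => (0 : E3)) x‖ = 0 := by
      intro i x
      have h5 : iteratedFDeriv ℝ i (fun _ : E3 => (0 : E3)) x = 0 :=
        congrFun (iteratedFDeriv_fun_zero (𝕜 := ℝ) (E := E3) (F := E3) (n := i)) x
      rw [h5, norm_zero]
    rw [h3]
    refine ⟨fun i _ x => ?_, fun x => ?_⟩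
    · rw [h4]
      positivity
    · rw [h4, mul_zero]
      positivity
  | succ p ih =>
    obtain ⟨C, κ, hC, hκ, h⟩ := ih
    have hC0 : 0 < C := by linarith
    refine ⟨C₀ * (1 + C), min κ C⁻¹, by nlinarith, lt_min hκ (inv_pos.2 hC0), ?_⟩
    intro e N η c he hN hη h1 hc hNc hb
    have h2 := h (fun j => e j.castSucc) N η c (fun j => he _) hN hη h1 hc
      (hNc.trans (min_le_left _ _)) (fun j => hb _)
    have h3 : N * (C * c) ≤ 1 := by
      have h4 := mul_le_mul_of_nonneg_left (hNc.trans (min_le_right _ _)) hC0.le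
      rw [mul_inv_cancel₀ hC0.ne'] at h4
      linarith
    have h5 := h0 (e (Fin.last p)) (rprod fun j => e j.castSucc) N η c (C * c) (he _)
      (Scl_rprod_dif _ fun j => he _) hN hη h1 hc (by positivity) h3 (hb _) h2
    rw [Scl_rprod_succ]
    refine h5.mono hN.le (le_of_eq ?_)
    ring

end Pool.Agent.QM59
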