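import Pool.Agent.Lib.MP_decea1_gt_C.Gen
import Pool.Agent.Lib.MP_decea1_gt_C.Scl

/-!
# MP_decea1_gt, block C, C2.2: bounds for `G_S`

`disp (toP (alf S)) = pd 0 S • ev 1` has the bound `c`; `scE4` for the inverse, `scE5` for the product.
-/

set_option autoImplicit false

open MeasureTheory Set

namespace Pool.Agent.QM59

private theorem gest_disp {v : E3 → E3} (h : Function.Bijective fun x => x + v x) :
    disp (toP fun x => x + v x) = v := by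
  funext x
  rw [disp, toP_apply h, add_sub_cancel_left]

private theorem gest_norm_ev (i : Fin 3) : ‖ev i‖ ≤ 1 := by
  rw [ev, pi_norm_le_iff_of_nonneg zero_le_one]
  intro j
  by_cases h : j = i
  · subst h
    rw [Pi.single_eq_same]
    simp
  · rw [Pi.single_eq_of_ne h]
    simp

private theorem gest_vec {K : ℕ} {N η c : ℝ} {v : E3 → ℝ} (hv : ContDiff ℝ smo v) (i : Fin 3)
    (hN : 0 ≤ N) (hη : 0 ≤ η) (hc : 0 ≤ c) (h : Bd K N η c v) :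
    Bd K N η c (fun x => v x • ev i) := by
  have h1 := Bd.clm hv ((ContinuousLinearMap.id ℝ ℝ).smulRight (ev i)) h hη
  have h2 : ‖(ContinuousLinearMap.id ℝ ℝ).smulRight (ev i)‖ ≤ 1 := by
    rw [ContinuousLinearMap.norm_smulRight_apply]
    calc ‖ContinuousLinearMap.id ℝ ℝ‖ * ‖ev i‖ ≤ 1 * 1 :=
          mul_le_mul ContinuousLinearMap.norm_id_le (gest_norm_ev i) (norm_nonneg _) zero_le_one
      _ = 1 := one_mul 1
  have h3 : ‖(ContinuousLinearMap.id ℝ ℝ).smulRight (ev i)‖ * c ≤ c := by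
    calc ‖(ContinuousLinearMap.id ℝ ℝ).smulRight (ev i)‖ * c ≤ 1 * c :=
          mul_le_mul_of_nonneg_right h2 hc
      _ = c := one_mul c
  exact h1.mono hN h3

/-- The common part of `alf_bd` and `bef_bd`. -/
private theorem gest_bd (K : ℕ) (hK : 2 ≤ K) : ∃ C κ : ℝ, 1 ≤ C ∧ 0 < κ ∧
    ∀ (v : E3 → ℝ) (i : Fin 3) (N η c : ℝ), ContDiff ℝ smo v →
      Function.Bijective (fun x => x + v x • ev i) → IsDif (toP fun x => x + v x • ev i) →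
      1 ≤ N → 0 < η → η ≤ 1 → 0 ≤ c → N * c ≤ κ →
      Bd K N η c v → Bd K N η c (disp (toP fun x => x + v x • ev i)) ∧
        Bd K N η (C * c) (disp (toP fun x => x + v x • ev i)⁻¹) := by
  obtain ⟨C, κ, hC, hκ, -, h4⟩ := scE4 K hK
  refine ⟨C, κ, hC, hκ, ?_⟩
  intro v i N η c hv hb hd hN hη hη1 hc hNc hB
  have h1 : Bd K N η c (disp (toP fun x => x + v x • ev i)) := by
    rw [gest_disp hb]
    exact gest_vec hv i (by linarith) hη.le hc hB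
  exact ⟨h1, h4 _ N η c hd (by linarith) hη hη1 hc hNc h1⟩

theorem alf_bd (K : ℕ) (hK : 2 ≤ K) : ∃ C κ : ℝ, 1 ≤ C ∧ 0 < κ ∧
    ∀ (S : E3 → ℝ) (N η c : ℝ), Sm S → 1 ≤ N → 0 < η → η ≤ 1 → 0 ≤ c → N * c ≤ κ →
      Bd K N η c (pd 0 S) → Bd K N η c (disp (toP (alf S))) ∧
        Bd K N η (C * c) (disp (toP (alf S))⁻¹) := by
  obtain ⟨C, κ, hC, hκ, h1⟩ := gest_bd K hK
  refine ⟨C, κ, hC, hκ, ?_⟩
  intro S N η c hS hN hη hη1 hc hNc hB
  exact h1 (pd 0 S) 1 N η c (contDiff_pd hS.smooth 0) (alf_bij hS) (alf_dif hS) hN hη hη1 hc hNc hB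

theorem bef_bd (K : ℕ) (hK : 2 ≤ K) : ∃ C κ : ℝ, 1 ≤ C ∧ 0 < κ ∧
    ∀ (S : E3 → ℝ) (N η c : ℝ), Sm S → 1 ≤ N → 0 < η → η ≤ 1 → 0 ≤ c → N * c ≤ κ →
      Bd K N η c (pd 1 S) → Bd K N η c (disp (toP (bef S))) ∧
        Bd K N η (C * c) (disp (toP (bef S))⁻¹) := by
  obtain ⟨C, κ, hC, hκ, h1⟩ := gest_bd K hK
  refine ⟨C, κ, hC, hκ, ?_⟩
  intro S N η c hS hN hη hη1 hc hNc hB
  exact h1 (pd 1 S) 0 N η c (contDiff_pd hS.smooth 1) (bef_bij hS) (bef_dif hS) hN hη hη1 hc hNc hB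

/-- C2.2 -/
theorem gp_bd (K : ℕ) (hK : 2 ≤ K) : ∃ C κ : ℝ, 1 ≤ C ∧ 0 < κ ∧
    ∀ (S : E3 → ℝ) (N η c : ℝ), Sm S → 1 ≤ N → 0 < η → η ≤ 1 → 0 ≤ c → N * c ≤ κ →
      Bd K N η c (pd 0 S) → Bd K N η c (pd 1 S) → Bd K N η (C * c) (disp (Gp S)) ∧
        Bd K N η (C * c) (disp (Gp S)⁻¹) := by
  obtain ⟨Ca, κa, hCa, hκa, ha⟩ := alf_bd K hK
  obtain ⟨Cb, κb, hCb, hκb, hb⟩ := bef_bd K hK
  obtain ⟨C5, hC5, h5⟩ := scE5 K hK
  have hCa0 : 0 < Ca := by linarith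
  have hCb0 : 0 < Cb := by linarith
  refine ⟨C5 * (1 + Ca + Cb), min (min κa κb) (min Ca⁻¹ Cb⁻¹), ?_, ?_, ?_⟩
  · calc (1 : ℝ) = 1 * 1 := (one_mul 1).symm
      _ ≤ C5 * (1 + Ca + Cb) := mul_le_mul hC5 (by linarith) zero_le_one (by linarith)
  · exact lt_min (lt_min hκa hκb) (lt_min (inv_pos.2 hCa0) (inv_pos.2 hCb0))
  intro S N η c hS hN hη hη1 hc hNc hB0 hB1
  have k1 : N * c ≤ κa := hNc.trans ((min_le_left _ _).trans (min_le_left _ _))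
  have k2 : N * c ≤ κb := hNc.trans ((min_le_left _ _).trans (min_le_right _ _))
  have k3 : N * c ≤ Ca⁻¹ := hNc.trans ((min_le_right _ _).trans (min_le_left _ _))
  have k4 : N * c ≤ Cb⁻¹ := hNc.trans ((min_le_right _ _).trans (min_le_right _ _))
  have k5 : N * (Ca * c) ≤ 1 := by
    calc N * (Ca * c) = Ca * (N * c) := by ring
      _ ≤ Ca * Ca⁻¹ := mul_le_mul_of_nonneg_left k3 hCa0.le
      _ = 1 := mul_inv_cancel₀ hCa0.ne'
  have k6 : N * (Cb * c) ≤ 1 := by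
    calc N * (Cb * c) = Cb * (N * c) := by ring
      _ ≤ Cb * Cb⁻¹ := mul_le_mul_of_nonneg_left k4 hCb0.le
      _ = 1 := mul_inv_cancel₀ hCb0.ne'
  obtain ⟨a1, a2⟩ := ha S N η c hS hN hη hη1 hc k1 hB0
  obtain ⟨b1, b2⟩ := hb S N η c hS hN hη hη1 hc k2 hB1
  have hN0 : 0 < N := by linarith
  have hda := alf_dif hS
  have hdb := bef_dif hS
  have hle1 : C5 * (c + Ca * c) ≤ C5 * (1 + Ca + Cb) * c := by
    have h1 : 0 ≤ C5 * (Cb * c) := mul_nonneg (by linarith) (mul_nonneg hCb0.le hc)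
    nlinarith
  have hle2 : C5 * (c + Cb * c) ≤ C5 * (1 + Ca + Cb) * c := by
    have h1 : 0 ≤ C5 * (Ca * c) := mul_nonneg (by linarith) (mul_nonneg hCa0.le hc)
    nlinarith
  constructor
  · have h1 := h5 (toP (bef S)) (toP (alf S))⁻¹ N η c (Ca * c) hdb hda.inv hN0 hη hη1 hc
      (mul_nonneg hCa0.le hc) k5 b1 a2
    exact h1.mono hN0.le hle1
  · have h1 := h5 (toP (alf S)) (toP (bef S))⁻¹ N η c (Cb * c) hda hdb.inv hN0 hη hη1 hc
      (mul_nonneg hCb0.le hc) k6 a1 b2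
    have h2 : (Gp S)⁻¹ = toP (alf S) * (toP (bef S))⁻¹ := by
      rw [Gp, mul_inv_rev, inv_inv]
    rw [h2]
    exact h1.mono hN0.le hle2

end Pool.Agent.QM59
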