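import Pool.Agent.Lib.MP_decea1_gt_C.Gen
import Pool.Agent.Lib.MP_decea1_gt_A.Int

/-!
# MP_decea1_gt, block C, C2.1: the generating function of a map preserving the third coordinate

`f = (X, Y, z)`, `a (x,y,z) = (x, Y, z)` (`af`), `P = (y - Y) ∘ a⁻¹`, `Q = (X - x) ∘ a⁻¹`. The map
`a` is near the identity, `f ∘ a⁻¹ = (x + Q, Y, z)`, `a⁻¹ = (x, Y + P, z)`. `det D(f a⁻¹) = 1 +
Q_x`,
`det D a⁻¹ = 1 + P_Y`, and `det Df = 1` gives `P_Y = Q_x`. `S := ∫_{lo_0}^{x} P (t, Y, z) dt`,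
`S_x = P`, `S_Y = ∫ P_Y = ∫ Q_x = Q`. `P = Q = 0` off the box; `S = 0` off the box: for `Y` or `z`
outside trivial; for `x > hi_0` the function `S` does not depend on `x`, and `S_Y = Q = 0` there, so
`S` does not depend on `Y` and vanishes for large `Y`. `f = G_S` because `alf S = a⁻¹`,
`bef S = f ∘ a⁻¹`. `|D P|, |D Q| ≤ (1/8) / (1 - 1/8) ≤ 1/4`.
-/

set_option autoImplicit false

open MeasureTheory Set

namespace Pool.Agent.QM59

/-- `a (x,y,z) = (x, Y, z)` -/
def af (f : Equiv.Perm E3) (x : E3) : E3 := x + (f x 1 - x 1) • ev 1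

private theorem ginv_ev_self (i : Fin 3) : ev i i = 1 := Pi.single_eq_same i 1

private theorem ginv_ev_ne {i j : Fin 3} (h : j ≠ i) : ev i j = 0 := Pi.single_eq_of_ne h 1

private theorem ginv_norm_ev (i : Fin 3) : ‖ev i‖ ≤ 1 := by
  refine (pi_norm_le_iff_of_nonneg zero_le_one).2 fun j => ?_
  by_cases h : j = i
  · rw [h, ginv_ev_self, norm_one]
  · rw [ginv_ev_ne h, norm_zero]
    exact zero_le_one

/-- coordinates of linear maps -/
private noncomputable def ginv_pr (i : Fin 3) (D : E3 →L[ℝ] E3) : E3 →L[ℝ] ℝ :=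
  (ContinuousLinearMap.proj i : E3 →L[ℝ] ℝ).comp D

private theorem ginv_norm_pr (i : Fin 3) (D : E3 →L[ℝ] E3) : ‖ginv_pr i D‖ ≤ ‖D‖ := by
  refine ContinuousLinearMap.opNorm_le_bound _ (norm_nonneg _) fun y => ?_
  exact (norm_le_pi_norm (D y) i).trans (D.le_opNorm y)

private theorem ginv_fd {f : Equiv.Perm E3} (hf : IsDif f) (i : Fin 3) (x : E3) :
    HasFDerivAt (fun y => disp f y i) (ginv_pr i (fderiv ℝ (disp f) x)) x := by
  have h1 : DifferentiableAt ℝ (disp f) x := (hf.contDiff_disp.differentiable (by simp)) x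
  exact (ContinuousLinearMap.proj i : E3 →L[ℝ] ℝ).hasFDerivAt.comp x h1.hasFDerivAt

private theorem ginv_sm {f : Equiv.Perm E3} (hf : IsDif f) (i : Fin 3) :
    ContDiff ℝ smo fun y => disp f y i :=
  (ContinuousLinearMap.proj i : E3 →L[ℝ] ℝ).contDiff.comp hf.contDiff_disp

private theorem ginv_hv {f : Equiv.Perm E3} (hf : IsDif f) :
    ContDiff ℝ smo fun y => disp f y 1 • ev 1 :=
  (ginv_sm hf 1).smul contDiff_const

private theorem ginv_hb {f : Equiv.Perm E3} (hf : IsDif f)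
    (h : ∀ x, ‖fderiv ℝ (disp f) x‖ ≤ 1 / 8) (x : E3) :
    ‖fderiv ℝ (fun y => disp f y 1 • ev 1) x‖ ≤ 1 / 2 := by
  rw [((ginv_fd hf 1 x).smul_const (ev 1)).fderiv, ContinuousLinearMap.norm_smulRight_apply]
  calc ‖ginv_pr 1 (fderiv ℝ (disp f) x)‖ * ‖ev 1‖ ≤ 1 / 8 * 1 :=
        mul_le_mul ((ginv_norm_pr _ _).trans (h x)) (ginv_norm_ev 1) (norm_nonneg _) (by norm_num)
    _ ≤ 1 / 2 := by norm_num

theorem af_dif {f : Equiv.Perm E3} (hf : IsDif f) (h : ∀ x, ‖fderiv ℝ (disp f) x‖ ≤ 1 / 8) :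
    Function.Bijective (af f) ∧ IsDif (toP (af f)) := by
  exact ⟨near_bij (ginv_hv hf) (ginv_hb hf h), near_dif (ginv_hv hf) (ginv_hb hf h)⟩

/-- the jacobian of a map which changes one coordinate -/
private theorem ginv_jac {u : E3 → ℝ} {x : E3} (hu : DifferentiableAt ℝ u x) (i : Fin 3) :
    jac (fun y => y + u y • ev i) x = 1 + pd i u x := by
  have h1 : HasFDerivAt (fun y => y + u y • ev i)
      (ContinuousLinearMap.id ℝ E3 + (fderiv ℝ u x).smulRight (ev i)) x :=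
    (hasFDerivAt_id x).add (hu.hasFDerivAt.smul_const (ev i))
  unfold jac
  rw [h1.fderiv]
  have h2 : ((ContinuousLinearMap.id ℝ E3 + (fderiv ℝ u x).smulRight (ev i) : E3 →L[ℝ] E3) :
      E3 →ₗ[ℝ] E3) = LinearMap.transvection ((fderiv ℝ u x : E3 →L[ℝ] ℝ) : E3 →ₗ[ℝ] ℝ) (ev i) := by
    ext y : 1
    rfl
  unfold ContinuousLinearMap.det
  rw [h2, LinearMap.transvection.det]
  rfl

section

variable {f : Equiv.Perm E3}

private noncomputable def ginv_g (f : Equiv.Perm E3) : Equiv.Perm E3 := (toP (af f))⁻¹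

private noncomputable def ginv_P (f : Equiv.Perm E3) (p : E3) : ℝ := (ginv_g f p) 1 - p 1

private noncomputable def ginv_Q (f : Equiv.Perm E3) (p : E3) : ℝ := f (ginv_g f p) 0 - p 0

private theorem ginv_g_dif (hf : IsDif f) (h : ∀ x, ‖fderiv ℝ (disp f) x‖ ≤ 1 / 8) :
    IsDif (ginv_g f) := (af_dif hf h).2.inv

private theorem ginv_af (hf : IsDif f) (h : ∀ x, ‖fderiv ℝ (disp f) x‖ ≤ 1 / 8) (p : E3) :
    af f (ginv_g f p) = p := by
  rw [← toP_apply (af_dif hf h).1]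
  exact (toP (af f)).apply_symm_apply p

private theorem ginv_c0 (hf : IsDif f) (h : ∀ x, ‖fderiv ℝ (disp f) x‖ ≤ 1 / 8) (p : E3) :
    ginv_g f p 0 = p 0 := by
  have h1 := congrFun (ginv_af hf h p) 0
  have h2 : af f (ginv_g f p) 0 = ginv_g f p 0 + (f (ginv_g f p) 1 - ginv_g f p 1) * ev 1 0 := rfl
  rw [h2, ginv_ev_ne (by decide), mul_zero, add_zero] at h1
  exact h1

private theorem ginv_c2 (hf : IsDif f) (h : ∀ x, ‖fderiv ℝ (disp f) x‖ ≤ 1 / 8) (p : E3) :
    ginv_g f p 2 = p 2 := by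
  have h1 := congrFun (ginv_af hf h p) 2
  have h2 : af f (ginv_g f p) 2 = ginv_g f p 2 + (f (ginv_g f p) 1 - ginv_g f p 1) * ev 1 2 := rfl
  rw [h2, ginv_ev_ne (by decide), mul_zero, add_zero] at h1
  exact h1

private theorem ginv_c1 (hf : IsDif f) (h : ∀ x, ‖fderiv ℝ (disp f) x‖ ≤ 1 / 8) (p : E3) :
    f (ginv_g f p) 1 = p 1 := by
  have h1 := congrFun (ginv_af hf h p) 1
  have h2 : af f (ginv_g f p) 1 = ginv_g f p 1 + (f (ginv_g f p) 1 - ginv_g f p 1) * ev 1 1 := rfl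
  rw [h2, ginv_ev_self, mul_one, add_sub_cancel] at h1
  exact h1

private theorem ginv_eqg (hf : IsDif f) (h : ∀ x, ‖fderiv ℝ (disp f) x‖ ≤ 1 / 8) (p : E3) :
    ginv_g f p = p + ginv_P f p • ev 1 := by
  funext j
  have h2 : (p + ginv_P f p • ev 1) j = p j + ginv_P f p * ev 1 j := rfl
  rw [h2]
  fin_cases j
  · change ginv_g f p 0 = p 0 + ginv_P f p * ev 1 0
    rw [ginv_ev_ne (by decide), mul_zero, add_zero, ginv_c0 hf h]
  · change ginv_g f p 1 = p 1 + ginv_P f p * ev 1 1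
    rw [ginv_ev_self, mul_one, ginv_P, add_sub_cancel]
  · change ginv_g f p 2 = p 2 + ginv_P f p * ev 1 2
    rw [ginv_ev_ne (by decide), mul_zero, add_zero, ginv_c2 hf h]

private theorem ginv_eqf (hf : IsDif f) (hz : ZP f) (h : ∀ x, ‖fderiv ℝ (disp f) x‖ ≤ 1 / 8)
    (p : E3) : f (ginv_g f p) = p + ginv_Q f p • ev 0 := by
  funext j
  have h2 : (p + ginv_Q f p • ev 0) j = p j + ginv_Q f p * ev 0 j := rfl
  rw [h2]
  fin_cases j
  · change f (ginv_g f p) 0 = p 0 + ginv_Q f p * ev 0 0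
    rw [ginv_ev_self, mul_one, ginv_Q, add_sub_cancel]
  · change f (ginv_g f p) 1 = p 1 + ginv_Q f p * ev 0 1
    rw [ginv_ev_ne (by decide), mul_zero, add_zero, ginv_c1 hf h]
  · change f (ginv_g f p) 2 = p 2 + ginv_Q f p * ev 0 2
    rw [ginv_ev_ne (by decide), mul_zero, add_zero, hz, ginv_c2 hf h]

private theorem ginv_P_eq (hf : IsDif f) (h : ∀ x, ‖fderiv ℝ (disp f) x‖ ≤ 1 / 8) (p : E3) :
    ginv_P f p = -(disp f (ginv_g f p) 1) := by
  have h1 : disp f (ginv_g f p) 1 = f (ginv_g f p) 1 - ginv_g f p 1 := rfl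
  rw [h1, ginv_c1 hf h, ginv_P, neg_sub]

private theorem ginv_Q_eq (hf : IsDif f) (h : ∀ x, ‖fderiv ℝ (disp f) x‖ ≤ 1 / 8) (p : E3) :
    ginv_Q f p = disp f (ginv_g f p) 0 := by
  have h1 : disp f (ginv_g f p) 0 = f (ginv_g f p) 0 - ginv_g f p 0 := rfl
  rw [h1, ginv_c0 hf h, ginv_Q]

private theorem ginv_P_sm (hf : IsDif f) (h : ∀ x, ‖fderiv ℝ (disp f) x‖ ≤ 1 / 8) :
    ContDiff ℝ smo (ginv_P f) := by
  have h1 : ginv_P f = fun p => -(disp f (ginv_g f p) 1) := funext (ginv_P_eq hf h)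
  rw [h1]
  exact ((ginv_sm hf 1).comp (ginv_g_dif hf h).1).neg

private theorem ginv_Q_sm (hf : IsDif f) (h : ∀ x, ‖fderiv ℝ (disp f) x‖ ≤ 1 / 8) :
    ContDiff ℝ smo (ginv_Q f) := by
  have h1 : ginv_Q f = fun p => disp f (ginv_g f p) 0 := funext (ginv_Q_eq hf h)
  rw [h1]
  exact (ginv_sm hf 0).comp (ginv_g_dif hf h).1

private theorem ginv_gD (hf : IsDif f) (h : ∀ x, ‖fderiv ℝ (disp f) x‖ ≤ 1 / 8) (p : E3) :
    HasFDerivAt (fun y => ginv_g f y)
      (ContinuousLinearMap.id ℝ E3 + (fderiv ℝ (ginv_P f) p).smulRight (ev 1)) p := by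
  have h1 : (fun y => ginv_g f y) = fun y => y + ginv_P f y • ev 1 := funext (ginv_eqg hf h)
  rw [h1]
  exact (hasFDerivAt_id p).add
    ((((ginv_P_sm hf h).differentiable (by simp)) p).hasFDerivAt.smul_const (ev 1))

private theorem ginv_gDn (f : Equiv.Perm E3) (p : E3) :
    ‖ContinuousLinearMap.id ℝ E3 + (fderiv ℝ (ginv_P f) p).smulRight (ev 1)‖ ≤
      1 + ‖fderiv ℝ (ginv_P f) p‖ := by
  refine (norm_add_le _ _).trans (add_le_add ContinuousLinearMap.norm_id_le ?_)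
  rw [ContinuousLinearMap.norm_smulRight_apply]
  exact mul_le_of_le_one_right (norm_nonneg _) (ginv_norm_ev 1)

private theorem ginv_comp (hf : IsDif f) (h : ∀ x, ‖fderiv ℝ (disp f) x‖ ≤ 1 / 8) (i : Fin 3)
    (p : E3) : ‖fderiv ℝ (fun y => disp f (ginv_g f y) i) p‖ ≤
      1 / 8 * (1 + ‖fderiv ℝ (ginv_P f) p‖) := by
  have h1 := (ginv_fd hf i (ginv_g f p)).comp p (ginv_gD hf h p)
  have h2 : fderiv ℝ (fun y => disp f (ginv_g f y) i) p = _ := h1.fderiv
  rw [h2]
  refine (ContinuousLinearMap.opNorm_comp_le _ _).trans ?_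
  exact mul_le_mul ((ginv_norm_pr _ _).trans (h _)) (ginv_gDn f p) (norm_nonneg _) (by norm_num)

private theorem ginv_P_bd (hf : IsDif f) (h : ∀ x, ‖fderiv ℝ (disp f) x‖ ≤ 1 / 8) (p : E3) :
    ‖fderiv ℝ (ginv_P f) p‖ ≤ 1 / 7 := by
  have h1 : ginv_P f = fun p => -(disp f (ginv_g f p) 1) := funext (ginv_P_eq hf h)
  have h2 : fderiv ℝ (ginv_P f) p = -fderiv ℝ (fun y => disp f (ginv_g f y) 1) p := by
    rw [h1]
    exact fderiv_fun_neg
  have h3 := ginv_comp hf h 1 p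
  rw [← norm_neg, ← h2] at h3
  linarith

private theorem ginv_Q_bd (hf : IsDif f) (h : ∀ x, ‖fderiv ℝ (disp f) x‖ ≤ 1 / 8) (p : E3) :
    ‖fderiv ℝ (ginv_Q f) p‖ ≤ 1 / 7 := by
  have h1 : ginv_Q f = fun p => disp f (ginv_g f p) 0 := funext (ginv_Q_eq hf h)
  have h3 := ginv_comp hf h 0 p
  rw [← h1] at h3
  linarith [ginv_P_bd hf h p]

end

/-- closed forms -/
theorem af_closed {f : Equiv.Perm E3} (hf : IsDif f) (hv : Vol f) (hz : ZP f)
    (h : ∀ x, ‖fderiv ℝ (disp f) x‖ ≤ 1 / 8) (x : E3) :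
    pd 1 (fun p => ((toP (af f))⁻¹ p) 1 - p 1) x =
      pd 0 (fun p => f ((toP (af f))⁻¹ p) 0 - p 0) x := by
  have h1 : jac (fun y => (f * ginv_g f) y) x = jac (fun y => ginv_g f y) x := by
    rw [hf.jac_mul (ginv_g_dif hf h) x, hv, one_mul]
  have h2 : (fun y => (f * ginv_g f) y) = fun y => y + ginv_Q f y • ev 0 :=
    funext (ginv_eqf hf hz h)
  have h3 : (fun y => ginv_g f y) = fun y => y + ginv_P f y • ev 1 := funext (ginv_eqg hf h)
  rw [h2, h3, ginv_jac (((ginv_Q_sm hf h).differentiable (by simp)) x),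
    ginv_jac (((ginv_P_sm hf h).differentiable (by simp)) x)] at h1
  have h4 : pd 0 (ginv_Q f) x = pd 1 (ginv_P f) x := add_left_cancel h1
  exact h4.symm

section

variable {f : Equiv.Perm E3}

/-- the primitive -/
private noncomputable def ginv_S (c : ℝ) (f : Equiv.Perm E3) (x : E3) : ℝ :=
  ∫ t in c..x 0, ginv_P f (x + (t - x 0) • ev 0)

private theorem ginv_S_sm (hf : IsDif f) (h : ∀ x, ‖fderiv ℝ (disp f) x‖ ≤ 1 / 8) (c : ℝ) :
    ContDiff ℝ smo (ginv_S c f) := by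
  have h0 : ContDiff ℝ smo fun x : E3 => x 0 :=
    (ContinuousLinearMap.proj 0 : E3 →L[ℝ] ℝ).contDiff
  have h1 : ContDiff ℝ smo fun p : E3 × ℝ => ginv_P f (p.1 + (p.2 - p.1 0) • ev 0) := by
    refine (ginv_P_sm hf h).comp ?_
    exact contDiff_fst.add ((contDiff_snd.sub (h0.comp contDiff_fst)).smul contDiff_const)
  exact (smooth_prim c _ h1).comp (contDiff_id.prodMk h0)

private theorem ginv_pd {S : E3 → ℝ} (hS : ContDiff ℝ smo S) {i : Fin 3} {x : E3} {d : ℝ}
    (h : HasDerivAt (fun t : ℝ => S (x + t • ev i)) d 0) : pd i S x = d := by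
  have h1 : DifferentiableAt ℝ S x := (hS.differentiable (by simp)) x
  have h2 := h1.lineDeriv_eq_fderiv (v := ev i)
  have h3 : HasLineDerivAt ℝ S d x (ev i) := h
  rw [h3.lineDeriv] at h2
  exact h2.symm

private theorem ginv_line {S : E3 → ℝ} (hS : ContDiff ℝ smo S) (i : Fin 3) (x : E3) (a t : ℝ) :
    HasDerivAt (fun t : ℝ => S (x + (t - a) • ev i)) (pd i S (x + (t - a) • ev i)) t := by
  have h1 : HasFDerivAt S (fderiv ℝ S (x + (t - a) • ev i)) (x + (t - a) • ev i) :=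
    ((hS.differentiable (by simp)) _).hasFDerivAt
  have h2 : HasDerivAt (fun t : ℝ => x + (t - a) • ev i) (ev i) t := by
    have h3 := (((hasDerivAt_id t).sub_const a).smul_const (ev i)).const_add x
    rwa [one_smul] at h3
  exact h1.comp_hasDerivAt t h2

private theorem ginv_cont (hf : IsDif f) (h : ∀ x, ‖fderiv ℝ (disp f) x‖ ≤ 1 / 8) (x : E3)
    (a : ℝ) : Continuous fun t : ℝ => ginv_P f (x + (t - a) • ev 0) :=
  (ginv_P_sm hf h).continuous.comp
    (continuous_const.add ((continuous_id.sub continuous_const).smul continuous_const))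

private theorem ginv_S_pd0 (hf : IsDif f) (h : ∀ x, ‖fderiv ℝ (disp f) x‖ ≤ 1 / 8) (c : ℝ)
    (x : E3) : pd 0 (ginv_S c f) x = ginv_P f x := by
  refine ginv_pd (ginv_S_sm hf h c) ?_
  have e1 : (fun s : ℝ => ginv_S c f (x + s • ev 0)) = fun s : ℝ =>
      ∫ t in c..(x 0 + s), ginv_P f (x + (t - x 0) • ev 0) := by
    funext s
    unfold ginv_S
    have e2 : (x + s • ev 0) 0 = x 0 + s := by
      change x 0 + s * ev 0 0 = x 0 + s
      rw [ginv_ev_self, mul_one]
    rw [e2]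
    refine intervalIntegral.integral_congr fun t _ => ?_
    congr 1
    rw [add_assoc, ← add_smul]
    congr 2
    ring
  rw [e1]
  have h1 : HasDerivAt (fun u : ℝ => ∫ t in c..u, ginv_P f (x + (t - x 0) • ev 0))
      (ginv_P f (x + ((x 0 + 0) - x 0) • ev 0)) (x 0 + 0) :=
    (ginv_cont hf h x (x 0)).integral_hasStrictDerivAt c (x 0 + 0) |>.hasDerivAt
  have h2 : HasDerivAt (fun s : ℝ => x 0 + s) 1 0 := (hasDerivAt_id (0 : ℝ)).const_add (x 0)
  have h3 := h1.comp (0 : ℝ) h2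
  rw [mul_one, add_zero, sub_self, zero_smul, add_zero] at h3
  exact h3

private theorem ginv_S_pd1 (hf : IsDif f) (hv : Vol f) (hz : ZP f)
    (h : ∀ x, ‖fderiv ℝ (disp f) x‖ ≤ 1 / 8) (c : ℝ) (x : E3) :
    pd 1 (ginv_S c f) x = ginv_Q f x - ginv_Q f (x + (c - x 0) • ev 0) := by
  refine ginv_pd (ginv_S_sm hf h c) ?_
  have e1 : (fun s : ℝ => ginv_S c f (x + s • ev 1)) = fun s : ℝ =>
      ∫ t in c..x 0, ginv_P f (x + (t - x 0) • ev 0 + (s - 0) • ev 1) := by
    funext s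
    unfold ginv_S
    have e2 : (x + s • ev 1) 0 = x 0 := by
      change x 0 + s * ev 1 0 = x 0
      rw [ginv_ev_ne (by decide), mul_zero, add_zero]
    rw [e2]
    refine intervalIntegral.integral_congr fun t _ => ?_
    congr 1
    rw [sub_zero]
    abel
  rw [e1]
  have hPc : Continuous (pd 1 (ginv_P f)) := (contDiff_pd (ginv_P_sm hf h) 1).continuous
  have hc1 : ∀ s : ℝ, Continuous fun t : ℝ =>
      ginv_P f (x + (t - x 0) • ev 0 + (s - 0) • ev 1) := fun s =>
    (ginv_P_sm hf h).continuous.comp ((continuous_const.add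
      ((continuous_id.sub continuous_const).smul continuous_const)).add continuous_const)
  have hc2 : Continuous fun t : ℝ =>
      pd 1 (ginv_P f) (x + (t - x 0) • ev 0 + ((0 : ℝ) - 0) • ev 1) :=
    hPc.comp ((continuous_const.add
      ((continuous_id.sub continuous_const).smul continuous_const)).add continuous_const)
  have h1 := intervalIntegral.hasDerivAt_integral_of_dominated_loc_of_deriv_le
    (μ := volume) (a := c) (b := x 0) (x₀ := (0 : ℝ)) (s := univ) (bound := fun _ => 1 / 7)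
    (F := fun s t => ginv_P f (x + (t - x 0) • ev 0 + (s - 0) • ev 1))
    (F' := fun s t => pd 1 (ginv_P f) (x + (t - x 0) • ev 0 + (s - 0) • ev 1))
    Filter.univ_mem (Filter.Eventually.of_forall fun s => (hc1 s).aestronglyMeasurable)
    ((hc1 0).intervalIntegrable _ _) hc2.aestronglyMeasurable
    (Filter.Eventually.of_forall fun t _ s _ => ?_) intervalIntegrable_const
    (Filter.Eventually.of_forall fun t _ s _ => ginv_line (ginv_P_sm hf h) 1 _ 0 s)
  · have h2 := h1.2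
    have h3 : (∫ t in c..x 0, pd 1 (ginv_P f) (x + (t - x 0) • ev 0 + ((0 : ℝ) - 0) • ev 1)) =
        ginv_Q f x - ginv_Q f (x + (c - x 0) • ev 0) := by
      have h4 : ∀ t ∈ uIcc c (x 0), HasDerivAt (fun t : ℝ => ginv_Q f (x + (t - x 0) • ev 0))
          (pd 1 (ginv_P f) (x + (t - x 0) • ev 0 + ((0 : ℝ) - 0) • ev 1)) t := by
        intro t _
        have h5 := ginv_line (ginv_Q_sm hf h) 0 x (x 0) t
        have h6 : pd 1 (ginv_P f) (x + (t - x 0) • ev 0) =
            pd 0 (ginv_Q f) (x + (t - x 0) • ev 0) := af_closed hf hv hz h _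
        rw [← h6] at h5
        rwa [sub_zero, zero_smul, add_zero]
      rw [intervalIntegral.integral_eq_sub_of_hasDerivAt h4 (hc2.intervalIntegrable _ _),
        sub_self, zero_smul, add_zero]
    rw [h3] at h2
    exact h2
  · refine (ContinuousLinearMap.le_opNorm _ _).trans ?_
    calc _ ≤ 1 / 7 * 1 := mul_le_mul (ginv_P_bd hf h _) (ginv_norm_ev 1) (norm_nonneg _)
          (by norm_num)
      _ = 1 / 7 := mul_one _

end

/-- C2.1 -/
theorem exists_gen {lo hi : E3} {f : Equiv.Perm E3} (hf : OkZ (Icc lo hi) f)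
    (h : ∀ x, ‖fderiv ℝ (disp f) x‖ ≤ 1 / 8) :
    ∃ S : E3 → ℝ, Sm S ∧ (∀ x, x ∉ Icc lo hi → S x = 0) ∧ f = Gp S ∧
      (∀ x, pd 0 S x = ((toP (af f))⁻¹ x) 1 - x 1) ∧
      ∀ x, pd 1 S x = f ((toP (af f))⁻¹ x) 0 - x 0 := by
  have hd := hf.dif
  have hv := hf.vol
  have hz := hf.zp
  -- the identity off the box
  have hg0 : IdOff (Icc lo hi) (ginv_g f) := by
    refine IdOff.inv fun x hx => ?_
    rw [toP_apply (af_dif hd h).1]
    unfold af
    rw [hf.off x hx, sub_self, zero_smul, add_zero]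
  have hP0 : ∀ x, x ∉ Icc lo hi → ginv_P f x = 0 := fun x hx => by
    rw [ginv_P, hg0 x hx, sub_self]
  have hQ0 : ∀ x, x ∉ Icc lo hi → ginv_Q f x = 0 := fun x hx => by
    rw [ginv_Q, hg0 x hx, hf.off x hx, sub_self]
  set c : ℝ := lo 0 - 1 with hc
  have co : ∀ (x : E3) (t : ℝ), (x + (t - x 0) • ev 0) 0 = t := fun x t => by
    change x 0 + (t - x 0) * ev 0 0 = t
    rw [ginv_ev_self, mul_one, add_sub_cancel]
  have co' : ∀ (x : E3) (t : ℝ) (j : Fin 3), j ≠ 0 → (x + (t - x 0) • ev 0) j = x j :=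
    fun x t j hj => by
      change x j + (t - x 0) * ev 0 j = x j
      rw [ginv_ev_ne hj, mul_zero, add_zero]
  have h0 : ∀ x, pd 0 (ginv_S c f) x = ginv_P f x := ginv_S_pd0 hd h c
  have h1 : ∀ x, pd 1 (ginv_S c f) x = ginv_Q f x := fun x => by
    rw [ginv_S_pd1 hd hv hz h c x, hQ0 (x + (c - x 0) • ev 0), sub_zero]
    intro hx
    have h2 := hx.1 0
    rw [co] at h2
    linarith
  have hSm : ContDiff ℝ smo (ginv_S c f) := ginv_S_sm hd h c
  -- the primitive vanishes if one of the other coordinates is outside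
  have hz1 : ∀ (x : E3) (j : Fin 3), j ≠ 0 → ¬ (lo j ≤ x j ∧ x j ≤ hi j) →
      ginv_S c f x = 0 := by
    intro x j hj hx
    unfold ginv_S
    rw [intervalIntegral.integral_congr (g := fun _ => 0) fun t _ => ?_,
      intervalIntegral.integral_zero]
    refine hP0 _ fun h2 => hx ?_
    have h3 := h2.1 j
    have h4 := h2.2 j
    rw [co' x t j hj] at h3 h4
    exact ⟨h3, h4⟩
  have hS0 : ∀ x, x ∉ Icc lo hi → ginv_S c f x = 0 := by
    intro x hx
    by_cases hj : ∃ j : Fin 3, j ≠ 0 ∧ ¬ (lo j ≤ x j ∧ x j ≤ hi j)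
    · obtain ⟨j, hj, hj'⟩ := hj
      exact hz1 x j hj hj'
    push Not at hj
    rcases lt_or_ge (x 0) (lo 0) with hx0 | hx0
    · unfold ginv_S
      rw [intervalIntegral.integral_congr (g := fun _ => 0) fun t ht => ?_,
        intervalIntegral.integral_zero]
      refine hP0 _ fun h2 => ?_
      have h3 := h2.1 0
      rw [co x t] at h3
      have h4 : t ≤ max c (x 0) := ht.2
      have h5 : max c (x 0) < lo 0 := max_lt (by linarith) hx0
      linarith
    · have hx1 : hi 0 < x 0 := by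
        by_contra hcon
        push Not at hcon
        refine hx ⟨fun j => ?_, fun j => ?_⟩
        · by_cases hj0 : j = 0
          · rw [hj0]
            exact hx0
          · exact (hj j hj0).1
        · by_cases hj0 : j = 0
          · rw [hj0]
            exact hcon
          · exact (hj j hj0).2
      -- constant in the direction 1
      have h2 : ∀ t : ℝ, HasDerivAt (fun t : ℝ => ginv_S c f (x + (t - 0) • ev 1)) 0 t := by
        intro t
        have h3 := ginv_line hSm 1 x 0 t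
        rw [h1, hQ0] at h3
        · exact h3
        · intro h4
          have h5 := h4.2 0
          have h6 : (x + (t - 0) • ev 1) 0 = x 0 := by
            change x 0 + (t - 0) * ev 1 0 = x 0
            rw [ginv_ev_ne (by decide), mul_zero, add_zero]
          rw [h6] at h5
          linarith
      have h3 := is_const_of_deriv_eq_zero (fun t => (h2 t).differentiableAt)
        (fun t => (h2 t).deriv) 0 (hi 1 + 1 - x 1)
      have h4 : ginv_S c f (x + ((0 : ℝ) - 0) • ev 1) = ginv_S c f x := by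
        rw [sub_zero, zero_smul, add_zero]
      have h5 : ginv_S c f (x + (hi 1 + 1 - x 1 - 0) • ev 1) = 0 := by
        refine hz1 _ 1 (by decide) ?_
        have h6 : (x + (hi 1 + 1 - x 1 - 0) • ev 1) 1 = hi 1 + 1 := by
          change x 1 + (hi 1 + 1 - x 1 - 0) * ev 1 1 = hi 1 + 1
          rw [ginv_ev_self]
          ring
        rw [h6]
        intro h7
        linarith [h7.2]
      exact h4.symm.trans (h3.trans h5)
  have hSmS : Sm (ginv_S c f) := by
    refine ⟨hSm, fun x => ?_, fun x => ?_⟩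
    · rw [show pd 0 (ginv_S c f) = ginv_P f from funext h0]
      exact (ginv_P_bd hd h x).trans (by norm_num)
    · rw [show pd 1 (ginv_S c f) = ginv_Q f from funext h1]
      exact (ginv_Q_bd hd h x).trans (by norm_num)
  refine ⟨ginv_S c f, hSmS, hS0, ?_, h0, h1⟩
  have e1 : ginv_g f = toP (alf (ginv_S c f)) := eq_toP fun x => by
    rw [ginv_eqg hd h x, alf, h0]
  have e2 : f * ginv_g f = toP (bef (ginv_S c f)) := eq_toP fun x => by
    rw [Equiv.Perm.mul_apply, ginv_eqf hd hz h x, bef, h1]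
  unfold Gp
  rw [← e1, ← e2, mul_inv_cancel_right]

end Pool.Agent.QM59
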