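import Pool.Agent.Lib.MP_decea1_gt_C.GInv
import Pool.Agent.Lib.MP_decea1_gt_C.GEst
import Pool.Agent.Lib.MP_decea1_gt_C.NNx

/-!
# MP_decea1_gt, block C, C2.1: the bounds for the generating function

`disp (toP (af f)) = (disp f)_1 • ev 1` has the bound `c`, `scE4` for the inverse, so `pd 0 S` (the
component of `disp (toP (af f))⁻¹`) has the bound `C c`; `pd 1 S = (disp f)_0 ∘ (id + disp a⁻¹)`,
`scE2`. For `S` itself: `S x = ∫_{lo_0}^{x_0} pd 0 S` on a box of length at most `L`, so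
`|D^i S| ≤ L sup |D^i (pd 0 S)| + sup |D^{i-1} (pd 0 S)|` (differentiate under the integral; or:
`|D^i S|` by integrating `D^i (pd 0 S) = ∂_0 D^i S` from the region where `D^i S = 0`).
-/

set_option autoImplicit false

open MeasureTheory Set

namespace Pool.Agent.QM59

private theorem ginve_smo (i : ℕ) : ((i : ℕ∞) : WithTop ℕ∞) < smo := by
  exact_mod_cast (ENat.natCast_lt_top i)

private theorem ginve_left {V W W' : Type*} [NormedAddCommGroup V] [NormedSpace ℝ V]
    [NormedAddCommGroup W] [NormedSpace ℝ W] [NormedAddCommGroup W'] [NormedSpace ℝ W']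
    (L : W →L[ℝ] W') (hL : ‖L‖ ≤ 1) {K : ℕ} {N η c : ℝ} {v : V → W} (hη : 0 ≤ η)
    (hv : ContDiff ℝ smo v) (h : Bd K N η c v) : Bd K N η c (fun x => L (v x)) := by
  have h1 : ∀ (i : ℕ) (x : V), ‖iteratedFDeriv ℝ i (fun x => L (v x)) x‖ ≤
      ‖iteratedFDeriv ℝ i v x‖ := by
    intro i x
    have h2 := L.norm_iteratedFDeriv_comp_left (N := smo) (n := i) (hv.contDiffAt (x := x))
      (ginve_smo i).le
    refine h2.trans ?_
    exact mul_le_of_le_one_left (norm_nonneg _) hL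
  exact ⟨fun i hi x => (h1 i x).trans (h.1 i hi x), fun x =>
    (mul_le_mul_of_nonneg_left (h1 K x) hη).trans (h.2 x)⟩

private theorem ginve_proj (i : Fin 3) :
    ‖(ContinuousLinearMap.proj (R := ℝ) i : E3 →L[ℝ] ℝ)‖ ≤ 1 := by
  refine ContinuousLinearMap.opNorm_le_bound _ zero_le_one fun x => ?_
  rw [one_mul]
  exact norm_le_pi_norm x i

private theorem ginve_ev (i : Fin 3) : ‖ev i‖ ≤ 1 := by
  rw [pi_norm_le_iff_of_nonneg zero_le_one]
  intro j
  unfold ev
  rcases eq_or_ne j i with h | h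
  · subst h
    simp
  · simp [h]

private theorem ginve_sm (i j : Fin 3) :
    ‖((ContinuousLinearMap.proj (R := ℝ) i : E3 →L[ℝ] ℝ).smulRight (ev j) : E3 →L[ℝ] E3)‖ ≤ 1 := by
  refine ContinuousLinearMap.opNorm_le_bound _ zero_le_one fun x => ?_
  rw [ContinuousLinearMap.smulRight_apply, norm_smul, one_mul]
  calc ‖x i‖ * ‖ev j‖ ≤ ‖x‖ * 1 :=
        mul_le_mul (norm_le_pi_norm x i) (ginve_ev j) (norm_nonneg _) (norm_nonneg _)
    _ = ‖x‖ := mul_one _

private theorem ginve_comm (e : E3) (i : ℕ) : ∀ (W : Type) [NormedAddCommGroup W]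
    [NormedSpace ℝ W] (S : E3 → W), ContDiff ℝ smo S → ∀ y,
    fderiv ℝ (iteratedFDeriv ℝ i S) y e = iteratedFDeriv ℝ i (fun x => fderiv ℝ S x e) y := by
  induction i with
  | zero =>
    intro W _ _ S hS y
    rw [iteratedFDeriv_zero_eq_comp, LinearIsometryEquiv.comp_fderiv, iteratedFDeriv_zero_eq_comp]
    rfl
  | succ i ih =>
    intro W _ _ S hS y
    have hS1 : ContDiff ℝ smo (fderiv ℝ S) := hS.fderiv_right (m := smo) (by rfl)
    have h1 : (fun x => fderiv ℝ (fun x => fderiv ℝ S x e) x) =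
        fun x => fderiv ℝ (fderiv ℝ S) x e := by
      funext x
      refine ContinuousLinearMap.ext fun v => ?_
      have h2 : DifferentiableAt ℝ (fderiv ℝ S) x :=
        (hS1.differentiable (by simp)).differentiableAt
      have h3 : fderiv ℝ (fun x => fderiv ℝ S x e) x v = fderiv ℝ (fderiv ℝ S) x v e := by
        rw [fderiv_clm_apply h2 (differentiableAt_const e)]
        simp
      rw [h3]
      have h4 : IsSymmSndFDerivAt ℝ S x := by
        refine (hS.contDiffAt (x := x)).isSymmSndFDerivAt ?_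
        rw [minSmoothness_of_isRCLikeNormedField]
        exact (ginve_smo 2).le
      exact h4 v e
    have h5 : iteratedFDeriv ℝ (i + 1) S =
        (continuousMultilinearCurryRightEquiv' ℝ i E3 W).symm ∘
          iteratedFDeriv ℝ i (fderiv ℝ S) := funext fun x => iteratedFDeriv_succ_eq_comp_right
    have hd : DifferentiableAt ℝ (iteratedFDeriv ℝ i (fderiv ℝ S)) y :=
      hS1.differentiable_iteratedFDeriv (ginve_smo i) y
    have h6 : HasFDerivAt (iteratedFDeriv ℝ (i + 1) S)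
        (((continuousMultilinearCurryRightEquiv' ℝ i E3 W).symm.toContinuousLinearEquiv :
          ContinuousMultilinearMap ℝ (fun _ : Fin i => E3) (E3 →L[ℝ] W) →L[ℝ]
            ContinuousMultilinearMap ℝ (fun _ : Fin (i + 1) => E3) W).comp
          (fderiv ℝ (iteratedFDeriv ℝ i (fderiv ℝ S)) y)) y := by
      rw [h5]
      exact (continuousMultilinearCurryRightEquiv' ℝ i
        E3 W).symm.toContinuousLinearEquiv.hasFDerivAt.comp y hd.hasFDerivAt
    rw [h6.fderiv, iteratedFDeriv_succ_eq_comp_right]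
    change _ = (continuousMultilinearCurryRightEquiv' ℝ i E3 W).symm
      (iteratedFDeriv ℝ i (fun x => fderiv ℝ (fun x => fderiv ℝ S x e) x) y)
    rw [h1, ← ih (E3 →L[ℝ] W) (fderiv ℝ S) hS1 y]
    rfl

private theorem ginve_line (L : ℝ) {lo hi : E3} (h : hi 0 - lo 0 ≤ L) (hL : 0 ≤ L)
    {S : E3 → ℝ} (hS : ContDiff ℝ smo S) (h0 : ∀ x, x ∉ Icc lo hi → S x = 0) (i : ℕ) {B : ℝ}
    (hB : ∀ x, ‖iteratedFDeriv ℝ i (pd 0 S) x‖ ≤ B) (x : E3) :
    ‖iteratedFDeriv ℝ i S x‖ ≤ L * B := by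
  have hB0 : 0 ≤ B := (norm_nonneg _).trans (hB x)
  have hz : ∀ y, y ∉ Icc lo hi → iteratedFDeriv ℝ i S y = 0 := by
    intro y hy
    have h1 : S =ᶠ[nhds y] fun _ => (0 : ℝ) := by
      filter_upwards [isClosed_Icc.isOpen_compl.mem_nhds hy] with z hz
      exact h0 z hz
    have h2 := (h1.iteratedFDeriv (𝕜 := ℝ) i).eq_of_nhds
    rw [h2, iteratedFDeriv_fun_zero]
    rfl
  by_cases hx : x ∈ Icc lo hi
  · have hd : Differentiable ℝ (iteratedFDeriv ℝ i S) :=
      hS.differentiable_iteratedFDeriv (ginve_smo i)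
    have hline : ∀ t : ℝ, HasDerivAt (fun t : ℝ => iteratedFDeriv ℝ i S (x + t • ev 0))
        (iteratedFDeriv ℝ i (pd 0 S) (x + t • ev 0)) t := by
      intro t
      have h1 : HasDerivAt (fun t : ℝ => x + t • ev 0) (ev 0) t := by
        have h2 := ((hasDerivAt_id t).smul_const (ev 0)).const_add x
        simpa using h2
      have h3 := (hd (x + t • ev 0)).hasFDerivAt.comp_hasDerivAt t h1
      rw [ginve_comm (ev 0) i ℝ S hS] at h3
      exact h3
    refine le_of_forall_pos_le_add fun ε hε => ?_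
    have hε' : 0 < ε / (B + 1) := by positivity
    have h1 := Convex.norm_image_sub_le_of_norm_hasDerivWithin_le (𝕜 := ℝ) (C := B)
      (f := fun t : ℝ => iteratedFDeriv ℝ i S (x + t • ev 0))
      (f' := fun t : ℝ => iteratedFDeriv ℝ i (pd 0 S) (x + t • ev 0)) (s := univ)
      (x := -(x 0 - lo 0 + ε / (B + 1))) (y := 0)
      (fun t _ => (hline t).hasDerivWithinAt) (fun t _ => hB _) convex_univ (mem_univ _)
      (mem_univ _)
    have h2 : iteratedFDeriv ℝ i S (x + (-(x 0 - lo 0 + ε / (B + 1))) • ev 0) = 0 := by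
      refine hz _ fun h3 => ?_
      have h4 := h3.1 0
      have h5 : (x + (-(x 0 - lo 0 + ε / (B + 1))) • ev 0 : E3) 0 = lo 0 - ε / (B + 1) := by
        simp only [Pi.add_apply, Pi.smul_apply, smul_eq_mul, ev, Pi.single_eq_same]
        ring
      rw [h5] at h4
      linarith
    simp only [h2, sub_zero, zero_smul, add_zero] at h1
    have h6 : ‖(0 : ℝ) - -(x 0 - lo 0 + ε / (B + 1))‖ = x 0 - lo 0 + ε / (B + 1) := by
      have h7 : 0 ≤ x 0 - lo 0 := sub_nonneg.2 (hx.1 0)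
      rw [zero_sub, neg_neg, Real.norm_of_nonneg (by positivity)]
    rw [h6] at h1
    have h8 : x 0 ≤ hi 0 := hx.2 0
    have h9 : B * (ε / (B + 1)) ≤ ε := by
      rw [mul_div_assoc', div_le_iff₀ (by positivity)]
      nlinarith
    calc ‖iteratedFDeriv ℝ i S x‖ ≤ B * (x 0 - lo 0 + ε / (B + 1)) := h1
      _ = (x 0 - lo 0) * B + B * (ε / (B + 1)) := by ring
      _ ≤ L * B + ε := add_le_add (mul_le_mul_of_nonneg_right (by linarith) hB0) h9
  · rw [hz x hx, norm_zero]
    exact mul_nonneg hL hB0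

theorem gen_bd (K : ℕ) (hK : 2 ≤ K) : ∃ C κ : ℝ, 1 ≤ C ∧ 0 < κ ∧
    ∀ (f : Equiv.Perm E3) (S : E3 → ℝ) (N η c : ℝ), IsDif f →
      (∀ x, ‖fderiv ℝ (disp f) x‖ ≤ 1 / 8) → ContDiff ℝ smo S →
      (∀ x, pd 0 S x = ((toP (af f))⁻¹ x) 1 - x 1) →
      (∀ x, pd 1 S x = f ((toP (af f))⁻¹ x) 0 - x 0) →
      1 ≤ N → 0 < η → η ≤ 1 → 0 ≤ c → N * c ≤ κ → Bd K N η c (disp f) →
      Bd K N η (C * c) (pd 0 S) ∧ Bd K N η (C * c) (pd 1 S) := by
  obtain ⟨C4, κ4, hC4, hκ4, hκ4', h4⟩ := scE4 K hK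
  obtain ⟨C2, hC2, h2⟩ := scE2.{0} K hK
  refine ⟨C4 + C2, min κ4 (1 / C4), by linarith, lt_min hκ4 (by positivity), ?_⟩
  intro f S N η c hf hd hS hp0 hp1 hN hη hη1 hc hNc hb
  have hN0 : (0 : ℝ) ≤ N := by linarith
  obtain ⟨hbij, hdif⟩ := af_dif hf hd
  have hsm : ContDiff ℝ smo (disp f) := hf.contDiff_disp
  have hsub : N * c ≤ κ4 := hNc.trans (min_le_left _ _)
  have hb1 : Bd K N η c (disp (toP (af f))) := by
    have h5 : disp (toP (af f)) = fun x =>
        ((ContinuousLinearMap.proj (R := ℝ) 1 : E3 →L[ℝ] ℝ).smulRight (ev 1) : E3 →L[ℝ] E3)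
          (disp f x) := by
      funext x
      rw [ContinuousLinearMap.smulRight_apply]
      unfold disp
      rw [toP_apply hbij]
      unfold af
      rw [add_sub_cancel_left]
      rfl
    rw [h5]
    exact ginve_left _ (ginve_sm 1 1) hη.le hsm hb
  have hb2 := h4 (toP (af f)) N η c hdif (by linarith) hη hη1 hc hsub hb1
  have hdi : IsDif (toP (af f))⁻¹ := ⟨hdif.2, hdif.1⟩
  have hsm2 : ContDiff ℝ smo (disp (toP (af f))⁻¹) := hdi.contDiff_disp
  have hca : ∀ x, ((toP (af f))⁻¹ x) 0 = x 0 := by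
    intro x
    have h6 : af f ((toP (af f))⁻¹ x) = x := by
      rw [← toP_apply hbij]
      exact (toP (af f)).apply_symm_apply x
    have h7 := congrFun h6 0
    unfold af at h7
    simp only [Pi.add_apply, Pi.smul_apply, smul_eq_mul, ev] at h7
    have h8 : (Pi.single 1 1 : E3) 0 = 0 := by simp
    rw [h8, mul_zero, add_zero] at h7
    exact h7
  constructor
  · have h5 : pd 0 S = fun x =>
        (ContinuousLinearMap.proj (R := ℝ) 1 : E3 →L[ℝ] ℝ) (disp (toP (af f))⁻¹ x) := by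
      funext x
      rw [hp0]
      rfl
    rw [h5]
    have h6 := ginve_left (ContinuousLinearMap.proj (R := ℝ) 1 : E3 →L[ℝ] ℝ) (ginve_proj 1)
      hη.le hsm2 hb2
    exact h6.mono_c hN0 (mul_le_mul_of_nonneg_right (by linarith) hc)
  · have h5 : pd 1 S = fun x => (fun y => (ContinuousLinearMap.proj (R := ℝ) 0 : E3 →L[ℝ] ℝ)
        (disp f y)) (x + disp (toP (af f))⁻¹ x) := by
      funext x
      rw [hp1]
      have h7 : x + disp (toP (af f))⁻¹ x = (toP (af f))⁻¹ x := by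
        unfold disp
        exact add_sub_cancel _ _
      rw [h7]
      change f ((toP (af f))⁻¹ x) 0 - x 0 =
        f ((toP (af f))⁻¹ x) 0 - ((toP (af f))⁻¹ x) 0
      rw [hca]
    have h8 : N * (C4 * c) ≤ 1 := by
      have h9 : N * c ≤ 1 / C4 := hNc.trans (min_le_right _ _)
      have hC4' : (0 : ℝ) < C4 := by linarith
      rw [le_div_iff₀ hC4'] at h9
      linarith
    have h6 := ginve_left (ContinuousLinearMap.proj (R := ℝ) 0 : E3 →L[ℝ] ℝ) (ginve_proj 0)
      hη.le hsm hb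
    have h10 := h2 ℝ (fun y => (ContinuousLinearMap.proj (R := ℝ) 0 : E3 →L[ℝ] ℝ) (disp f y))
      (disp (toP (af f))⁻¹) N η (C4 * c) c
      ((ContinuousLinearMap.proj (R := ℝ) 0 : E3 →L[ℝ] ℝ).contDiff.comp hsm) hsm2
      (by linarith) hη hη1 h8 hb2 h6
    rw [h5]
    exact h10.mono_c hN0 (mul_le_mul_of_nonneg_right (by linarith) hc)

/-- A smooth function which vanishes off a box of length at most `L` in direction `0` is bounded by
its derivative in direction `0`. -/
theorem int_bd (L : ℝ) (hL : 0 ≤ L) {lo hi : E3} (h : hi 0 - lo 0 ≤ L) {K : ℕ} {N η c : ℝ}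
    (hη : 0 ≤ η) {S : E3 → ℝ} (hS : ContDiff ℝ smo S) (h0 : ∀ x, x ∉ Icc lo hi → S x = 0)
    (hb : Bd K N η c (pd 0 S)) : Bd K N η (L * c) S := by
  refine ⟨fun i hi x => ?_, fun x => ?_⟩
  · have h1 := ginve_line L h hL hS h0 i (fun y => hb.1 i hi y) x
    rw [mul_assoc]
    exact h1
  · rcases hη.eq_or_lt with h1 | h1
    · have h2 := hb.2 x
      rw [← h1, zero_mul] at h2 ⊢
      rw [mul_assoc]
      exact mul_nonneg hL h2
    · have h2 : ∀ y, ‖iteratedFDeriv ℝ K (pd 0 S) y‖ ≤ c * N ^ K / η := by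
        intro y
        rw [le_div_iff₀ h1, mul_comm]
        exact hb.2 y
      have h3 := ginve_line L h hL hS h0 K h2 x
      have h4 := mul_le_mul_of_nonneg_left h3 hη
      refine h4.trans (le_of_eq ?_)
      field_simp

end Pool.Agent.QM59
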