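import Pool.Agent.Lib.MP_decea1_gt_C.Prm

/-!
# MP_decea1_gt, block C, C2: the maps `G_S` with generating function `S`

`α_S = id + (0, S_x, 0)`, `β_S = id + (S_y, 0, 0)`, `G_S = β_S ∘ α_S⁻¹`, i.e. `G_S (x,y,z) = (X,Y,z)`
with `y = Y + S_x (x,Y,z)`, `X = x + S_Y (x,Y,z)`; `det D α_S = 1 + S_xy = det D β_S`.
-/

set_option autoImplicit false

open MeasureTheory Set Topology

namespace Pool.Agent.QM59

/-- partial derivative -/
noncomputable def pd (i : Fin 3) (S : E3 → ℝ) (x : E3) : ℝ := fderiv ℝ S x (ev i)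

/-- smooth with small second derivatives (those which are used) -/
structure Sm (S : E3 → ℝ) : Prop where
  smooth : ContDiff ℝ smo S
  s0 : ∀ x, ‖fderiv ℝ (pd 0 S) x‖ ≤ 1 / 4
  s1 : ∀ x, ‖fderiv ℝ (pd 1 S) x‖ ≤ 1 / 4

noncomputable def alf (S : E3 → ℝ) (x : E3) : E3 := x + pd 0 S x • ev 1

noncomputable def bef (S : E3 → ℝ) (x : E3) : E3 := x + pd 1 S x • ev 0

/-- `G_S` -/
noncomputable def Gp (S : E3 → ℝ) : Equiv.Perm E3 := toP (bef S) * (toP (alf S))⁻¹

theorem contDiff_pd {S : E3 → ℝ} (h : ContDiff ℝ smo S) (i : Fin 3) :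
    ContDiff ℝ smo (pd i S) :=
  (h.fderiv_right (m := smo) (by simp [smo])).clm_apply contDiff_const

private theorem gen_norm_ev (i : Fin 3) : ‖(ev i : E3)‖ = 1 := by
  unfold ev
  rw [Pi.norm_single, norm_one]

private theorem gen_hasFDerivAt {u : E3 → ℝ} (hu : ContDiff ℝ smo u) (w : E3) (x : E3) :
    HasFDerivAt (fun y => u y • w) ((fderiv ℝ u x).smulRight w) x :=
  ((hu.differentiable (by simp [smo])) x).hasFDerivAt.smul_const w

private theorem gen_norm {u : E3 → ℝ} (hu : ContDiff ℝ smo u) (i : Fin 3)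
    (h : ∀ x, ‖fderiv ℝ u x‖ ≤ 1 / 4) (x : E3) :
    ‖fderiv ℝ (fun y => u y • ev i) x‖ ≤ 1 / 2 := by
  rw [(gen_hasFDerivAt hu (ev i) x).fderiv, ContinuousLinearMap.norm_smulRight_apply, gen_norm_ev,
    mul_one]
  exact (h x).trans (by norm_num)

private theorem gen_smooth {u : E3 → ℝ} (hu : ContDiff ℝ smo u) (w : E3) :
    ContDiff ℝ smo fun y => u y • w := hu.smul contDiff_const

private theorem gen_jac {u : E3 → ℝ} (hu : ContDiff ℝ smo u) (w t : E3) :
    jac (fun y => y + u y • w) t = 1 + fderiv ℝ u t w := by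
  have h1 : HasFDerivAt (fun y => y + u y • w)
      (ContinuousLinearMap.id ℝ E3 + (fderiv ℝ u t).smulRight w) t :=
    (hasFDerivAt_id t).add (gen_hasFDerivAt hu w t)
  unfold jac
  rw [h1.fderiv]
  exact LinearMap.transvection.det ((fderiv ℝ u t : E3 →L[ℝ] ℝ) : E3 →ₗ[ℝ] ℝ) w

theorem alf_bij {S : E3 → ℝ} (h : Sm S) : Function.Bijective (alf S) :=
  near_bij (gen_smooth (contDiff_pd h.smooth 0) (ev 1)) (gen_norm (contDiff_pd h.smooth 0) 1 h.s0)

theorem bef_bij {S : E3 → ℝ} (h : Sm S) : Function.Bijective (bef S) :=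
  near_bij (gen_smooth (contDiff_pd h.smooth 1) (ev 0)) (gen_norm (contDiff_pd h.smooth 1) 0 h.s1)

theorem alf_dif {S : E3 → ℝ} (h : Sm S) : IsDif (toP (alf S)) :=
  near_dif (gen_smooth (contDiff_pd h.smooth 0) (ev 1)) (gen_norm (contDiff_pd h.smooth 0) 1 h.s0)

theorem bef_dif {S : E3 → ℝ} (h : Sm S) : IsDif (toP (bef S)) :=
  near_dif (gen_smooth (contDiff_pd h.smooth 1) (ev 0)) (gen_norm (contDiff_pd h.smooth 1) 0 h.s1)

/-- `G_S (α_S t) = β_S t` -/
theorem Gp_alf {S : E3 → ℝ} (h : Sm S) (t : E3) : Gp S (alf S t) = bef S t := by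
  have h1 : alf S t = toP (alf S) t := (toP_apply (alf_bij h) t).symm
  rw [Gp, Equiv.Perm.mul_apply, h1]
  exact (congrArg (toP (bef S)) ((toP (alf S)).symm_apply_apply t)).trans
    (toP_apply (bef_bij h) t)

/-- symmetry -/
private theorem gen_symm {S : E3 → ℝ} (h : ContDiff ℝ smo S) (i j : Fin 3) (t : E3) :
    pd i (pd j S) t = fderiv ℝ (fderiv ℝ S) t (ev i) (ev j) := by
  have h1 : DifferentiableAt ℝ (fderiv ℝ S) t :=
    ((h.fderiv_right (m := smo) (by simp [smo])).differentiable (by simp [smo])) t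
  have h2 : HasFDerivAt (pd j S) ((fderiv ℝ (fderiv ℝ S) t).flip (ev j)) t := by
    have h3 := h1.hasFDerivAt.clm_apply (hasFDerivAt_const (ev j : E3) t)
    have h4 : (fderiv ℝ S t).comp (0 : E3 →L[ℝ] E3) + (fderiv ℝ (fderiv ℝ S) t).flip (ev j)
        = (fderiv ℝ (fderiv ℝ S) t).flip (ev j) := by
      rw [ContinuousLinearMap.comp_zero, zero_add]
    rw [h4] at h3
    exact h3
  unfold pd at h2 ⊢
  rw [h2.fderiv]
  rfl

/-- symmetry of the second derivatives -/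
theorem jac_alf {S : E3 → ℝ} (h : ContDiff ℝ smo S) (t : E3) :
    jac (alf S) t = 1 + pd 1 (pd 0 S) t ∧ jac (bef S) t = 1 + pd 1 (pd 0 S) t := by
  refine ⟨gen_jac (contDiff_pd h 0) (ev 1) t, ?_⟩
  have h1 : jac (bef S) t = 1 + pd 0 (pd 1 S) t := gen_jac (contDiff_pd h 1) (ev 0) t
  have h2 : IsSymmSndFDerivAt ℝ S t :=
    h.contDiffAt.isSymmSndFDerivAt (by
      rw [minSmoothness_of_isRCLikeNormedField]
      exact WithTop.coe_le_coe.2 le_top)
  rw [h1, gen_symm h, gen_symm h, h2.eq]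

theorem Gp_okZ {S : E3 → ℝ} (h : Sm S) {lo hi : E3} (h0 : ∀ x, x ∉ Icc lo hi → S x = 0) :
    OkZ (Icc lo hi) (Gp S) := by
  have hpd : ∀ (i : Fin 3) (x : E3), x ∉ Icc lo hi → pd i S x = 0 := by
    intro i x hx
    have h1 : S =ᶠ[𝓝 x] fun _ => 0 := by
      filter_upwards [isClosed_Icc.isOpen_compl.mem_nhds hx] with y hy using h0 y hy
    unfold pd
    rw [h1.fderiv_eq]
    simp
  have hdet : ∀ x, jac (fun y => Gp S y) x = 1 := by
    intro x
    obtain ⟨t, rfl⟩ : ∃ t, toP (alf S) t = x := ⟨(toP (alf S)).symm x, by simp⟩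
    have hal : (fun y => toP (alf S) y) = alf S := funext (toP_apply (alf_bij h))
    have hbe : (fun y => toP (bef S) y) = bef S := funext (toP_apply (bef_bij h))
    have h1 := (bef_dif h).jac_mul (alf_dif h).inv (toP (alf S) t)
    have h2 := (alf_dif h).jac_inv (toP (alf S) t)
    have h3 := (alf_dif h).jac_ne_zero t
    have h4 : (toP (alf S))⁻¹ (toP (alf S) t) = t := (toP (alf S)).symm_apply_apply t
    rw [h4] at h1 h2
    rw [hal] at h2 h3
    rw [hbe, h2, (jac_alf h.smooth t).2, ← (jac_alf h.smooth t).1, mul_inv_cancel₀ h3] at h1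
    exact h1
  refine ⟨⟨(bef_dif h).mul (alf_dif h).inv, hdet, fun x hx => ?_⟩, fun x => ?_⟩
  · have h1 : alf S x = x := by rw [alf, hpd 0 x hx, zero_smul, add_zero]
    have h2 := Gp_alf h x
    rw [h1, bef, hpd 1 x hx, zero_smul, add_zero] at h2
    exact h2
  · obtain ⟨t, rfl⟩ := (alf_bij h).2 x
    rw [Gp_alf h]
    simp [alf, bef, ev]

/-- If `S = S'` near `t` then `G_{S'} G_S⁻¹` fixes `β_S t`. -/
theorem Gp_fix {S S' : E3 → ℝ} (h : Sm S) (h' : Sm S') {t : E3} (ht : S =ᶠ[𝓝 t] S') :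
    (Gp S' * (Gp S)⁻¹) (bef S t) = bef S t := by
  have h1 : (Gp S)⁻¹ (bef S t) = alf S t := by
    rw [Equiv.Perm.inv_eq_iff_eq, Gp_alf h]
  have hp : ∀ i, pd i S t = pd i S' t := fun i => by
    unfold pd
    rw [ht.fderiv_eq]
  have h2 : alf S t = alf S' t := by rw [alf, alf, hp]
  have h3 : bef S' t = bef S t := by rw [bef, bef, hp]
  rw [Equiv.Perm.mul_apply, h1, h2, Gp_alf h', h3]

theorem Gp_zero : Gp (fun _ => 0) = 1 := by
  have hp : ∀ (i : Fin 3) (x : E3), pd i (fun _ => 0) x = 0 := fun i x => by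
    unfold pd
    simp
  have h1 : toP (alf fun _ => 0) = 1 := (eq_toP fun x => by
    rw [alf, hp, zero_smul, add_zero, Equiv.Perm.one_apply]).symm
  have h2 : toP (bef fun _ => 0) = 1 := (eq_toP fun x => by
    rw [bef, hp, zero_smul, add_zero, Equiv.Perm.one_apply]).symm
  rw [Gp, h1, h2, inv_one, one_mul]

/-- `BX s t` is the closed box `Icc ![-s, -s, 7 - t] ![s, s, 7 + t]` -/
theorem BX_eq (s t : ℝ) : BX s t = Icc ![-s, -s, 7 - t] ![s, s, 7 + t] := by
  ext x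
  simp only [BX, mem_ofPred_eq, mem_Icc, Pi.le_def, Fin.forall_fin_succ, abs_le,
    Matrix.cons_val_zero, Matrix.cons_val_succ, Fin.succ_zero_eq_one, IsEmpty.forall_iff, and_true,
    Fin.succ_one_eq_two]
  constructor
  · rintro ⟨⟨h1, h2⟩, ⟨h3, h4⟩, h5, h6⟩
    exact ⟨⟨h1, h3, by linarith⟩, h2, h4, by linarith⟩
  · rintro ⟨⟨h1, h3, h5⟩, h2, h4, h6⟩
    exact ⟨⟨h1, h2⟩, ⟨h3, h4⟩, by linarith, by linarith⟩

end Pool.Agent.QM59
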