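import Mathlib
import Pool.Agent.Lib.MP_decea1_gt_C.CDefs
import Pool.Agent.Lib.MP_decea1_gt_A.J2

/-!
# MP_decea1_gt, block C, module Gl1: gluing of sequences of permutations at the scales `λ^n` (C6)

A sequence `g` of permutations, all the identity off `B_2`, is glued to one permutation `F`:
on `λ^n B_2` it is the conjugate of `g n` with the homothety of ratio `λ^n`, and it is the identity
off the union of these pairwise disjoint sets. `Gl g F` says that `F` is this permutation.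
-/

set_option autoImplicit false

open MeasureTheory Set

namespace Pool.Agent.QM59

/-- `F` is glued from the sequence `g` -/
def Gl (g : ℕ → Equiv.Perm E3) (F : Equiv.Perm E3) : Prop :=
  (∀ n, ∀ x ∈ B2, F (lam ^ n • x) = lam ^ n • g n x) ∧
    ∀ x, (∀ n, ∀ y ∈ B2, x ≠ lam ^ n • y) → F x = x

/-- the shifted sequence `1, g 0, g 1, ...` -/
def shf (g : ℕ → Equiv.Perm E3) : ℕ → Equiv.Perm E3
  | 0 => 1
  | n + 1 => g n

theorem B0_sub_B1 : B0 ⊆ B1 := by
  exact fun x hx => ⟨hx.1.trans (by norm_num), hx.2.1.trans (by norm_num),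
    hx.2.2.trans (by norm_num)⟩

theorem B1_sub_B2 : B1 ⊆ B2 := by
  exact fun x hx => ⟨hx.1.trans (by norm_num), hx.2.1.trans (by norm_num),
    hx.2.2.trans (by norm_num)⟩

theorem B0_sub_B2 : B0 ⊆ B2 := B0_sub_B1.trans B1_sub_B2

/-- `BX s t` is closed and bounded. -/
theorem isCompact_BX (s t : ℝ) : IsCompact (BX s t) := by
  have h : BX s t = Icc (![-s, -s, 7 - t] : E3) ![s, s, 7 + t] := by
    ext x
    constructor
    · rintro ⟨h0, h1, h2⟩
      rw [abs_le] at h0 h1 h2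
      refine ⟨fun i => ?_, fun i => ?_⟩
      · fin_cases i
        · exact h0.1
        · exact h1.1
        · change 7 - t ≤ x 2
          linarith [h2.1]
      · fin_cases i
        · exact h0.2
        · exact h1.2
        · change x 2 ≤ 7 + t
          linarith [h2.2]
    · rintro ⟨h1, h2⟩
      have a0 : -s ≤ x 0 := h1 0
      have a1 : -s ≤ x 1 := h1 1
      have a2 : 7 - t ≤ x 2 := h1 2
      have b0 : x 0 ≤ s := h2 0
      have b1 : x 1 ≤ s := h2 1
      have b2 : x 2 ≤ 7 + t := h2 2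
      exact ⟨abs_le.2 ⟨a0, b0⟩, abs_le.2 ⟨a1, b1⟩, abs_le.2 ⟨by linarith, by linarith⟩⟩
  rw [h]
  exact isCompact_Icc

/-- All coordinates have absolute value at most `11`, and `lam ^ n ≤ 1`. -/
theorem scaled_mem_ball (n : ℕ) (x : E3) (hx : x ∈ B2) :
    lam ^ n • x ∈ Metric.closedBall (0 : E3) 11 := by
  have h1 : ‖x‖ ≤ 11 := by
    obtain ⟨h0, h1, h2⟩ := hx
    rw [abs_le] at h0 h1 h2
    refine (pi_norm_le_iff_of_nonneg (by norm_num)).2 fun i => ?_
    rw [Real.norm_eq_abs, abs_le]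
    fin_cases i
    · change -11 ≤ x 0 ∧ x 0 ≤ 11
      constructor <;> linarith [h0.1, h0.2]
    · change -11 ≤ x 1 ∧ x 1 ≤ 11
      constructor <;> linarith [h1.1, h1.2]
    · change -11 ≤ x 2 ∧ x 2 ≤ 11
      constructor <;> linarith [h2.1, h2.2]
  have h2 : ‖lam ^ n‖ ≤ 1 := by
    rw [norm_pow]
    refine pow_le_one₀ (norm_nonneg _) ?_
    unfold lam
    norm_num
  rw [mem_closedBall_zero_iff, norm_smul]
  calc ‖lam ^ n‖ * ‖x‖ ≤ 1 * 11 := mul_le_mul h2 h1 (norm_nonneg _) zero_le_one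
    _ = 11 := one_mul _

/-- The scaled boxes are pairwise disjoint: the last coordinates of points of `B2` are in
`[3, 11]`. If `m < n`, then `x 2 = lam ^ (n - m) * y 2 ≤ 11 / 4 < 3`. -/
theorem scaled_sep (m n : ℕ) (x y : E3) (hx : x ∈ B2) (hy : y ∈ B2)
    (h : lam ^ m • x = lam ^ n • y) : m = n ∧ x = y := by
  have key : ∀ (m n : ℕ) (x y : E3), x ∈ B2 → y ∈ B2 → m < n → lam ^ m • x ≠ lam ^ n • y := by
    intro m n x y hx hy hmn h
    have e1 : lam ^ m * x 2 = lam ^ n * y 2 := congrFun h 2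
    have e2 := abs_le.1 hx.2.2
    have e3 := abs_le.1 hy.2.2
    have e4 : 0 < lam ^ m := by
      unfold lam
      positivity
    have e5 : lam ^ n ≤ lam ^ (m + 1) :=
      pow_le_pow_of_le_one (by unfold lam; norm_num) (by unfold lam; norm_num) hmn
    have e6 : lam ^ (m + 1) = lam ^ m * (1 / 4) := by
      rw [pow_succ]
      rfl
    have e7 : lam ^ n * y 2 ≤ lam ^ m * (1 / 4) * y 2 := by
      rw [← e6]
      exact mul_le_mul_of_nonneg_right e5 (by linarith [e3.1])
    have e8 : lam ^ m * x 2 ≤ lam ^ m * ((1 / 4) * y 2) := by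
      rw [e1, ← mul_assoc]
      exact e7
    have e9 := le_of_mul_le_mul_left e8 e4
    linarith [e2.1, e3.2]
  rcases lt_trichotomy m n with hmn | hmn | hmn
  · exact absurd h (key m n x y hx hy hmn)
  · subst hmn
    exact ⟨rfl, smul_right_injective E3 (pow_ne_zero m lam_ne) h⟩
  · exact absurd h.symm (key n m y x hy hx hmn)

private theorem gl_cases (x : E3) :
    (∃ n : ℕ, ∃ y ∈ B2, x = lam ^ n • y) ∨ ∀ n : ℕ, ∀ y ∈ B2, x ≠ lam ^ n • y := by
  by_cases h : ∃ n : ℕ, ∃ y ∈ B2, x = lam ^ n • y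
  · exact Or.inl h
  · push Not at h
    exact Or.inr h

open Classical in
/-- the glued map -/
private theorem gl_fun (g : ℕ → Equiv.Perm E3) : ∃ f : E3 → E3,
    (∀ n, ∀ x ∈ B2, f (lam ^ n • x) = lam ^ n • g n x) ∧
      ∀ x, (∀ n, ∀ y ∈ B2, x ≠ lam ^ n • y) → f x = x := by
  refine ⟨fun x => if h : ∃ n : ℕ, ∃ y ∈ B2, x = lam ^ n • y then
    lam ^ h.choose • g h.choose h.choose_spec.choose else x, fun n x hx => ?_, fun x hx => ?_⟩
  · have h : ∃ n' : ℕ, ∃ y ∈ B2, lam ^ n • x = lam ^ n' • y := ⟨n, x, hx, rfl⟩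
    have h1 := h.choose_spec.choose_spec
    obtain ⟨h2, h3⟩ := scaled_sep n h.choose x h.choose_spec.choose hx h1.1 h1.2
    refine (dif_pos h).trans ?_
    rw [← h3, ← h2]
  · exact dif_neg fun ⟨n, y, hy, hxy⟩ => hx n y hy hxy

private theorem gl_rprod_zero (e : Fin 0 → Equiv.Perm E3) : rprod e = 1 := by
  unfold rprod
  rw [List.ofFn_zero, List.reverse_nil, List.prod_nil]

private theorem gl_rprod_succ {p : ℕ} (e : Fin (p + 1) → Equiv.Perm E3) :
    rprod e = rprod (fun j : Fin p => e j.succ) * e 0 := by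
  unfold rprod
  rw [List.ofFn_succ, List.reverse_cons, List.prod_append, List.prod_singleton]

/-- Define the map by choice (`if h : ∃ n, ∃ y ∈ B2, x = lam ^ n • y then ...`), and its inverse in
the same way from the inverses `(g n)⁻¹`; `scaled_sep` gives the independence of the choice, and
`g n x ∈ B2` for `x ∈ B2` by `IdOff.mem_iff`. -/
theorem Gl.exists (g : ℕ → Equiv.Perm E3) (hg : ∀ n, IdOff B2 (g n)) :
    ∃ F : Equiv.Perm E3, Gl g F := by
  obtain ⟨f, hf, hf0⟩ := gl_fun g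
  obtain ⟨f', hf', hf0'⟩ := gl_fun fun n => (g n)⁻¹
  have h1 : ∀ x, f' (f x) = x := fun x => by
    rcases gl_cases x with ⟨n, y, hy, rfl⟩ | hx
    · rw [hf n y hy, hf' n _ (((hg n).mem_iff y).2 hy)]
      exact congrArg (lam ^ n • ·) ((g n).symm_apply_apply y)
    · rw [hf0 x hx, hf0' x hx]
  have h2 : ∀ x, f (f' x) = x := fun x => by
    rcases gl_cases x with ⟨n, y, hy, rfl⟩ | hx
    · rw [hf' n y hy, hf n _ (((hg n).inv.mem_iff y).2 hy)]
      exact congrArg (lam ^ n • ·) ((g n).apply_symm_apply y)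
    · rw [hf0' x hx, hf0 x hx]
  exact ⟨⟨f, f', h1, h2⟩, hf, hf0⟩

theorem Gl.unique {g : ℕ → Equiv.Perm E3} {F F' : Equiv.Perm E3} (h : Gl g F) (h' : Gl g F') :
    F = F' := by
  refine Equiv.ext fun x => ?_
  rcases gl_cases x with ⟨n, y, hy, rfl⟩ | hx
  · rw [h.1 n y hy, h'.1 n y hy]
  · rw [h.2 x hx, h'.2 x hx]

theorem Gl.one : Gl (fun _ => 1) 1 := by
  exact ⟨fun n x _ => rfl, fun x _ => rfl⟩

theorem Gl.mul {g g' : ℕ → Equiv.Perm E3} {F F' : Equiv.Perm E3} (hg' : ∀ n, IdOff B2 (g' n))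
    (h : Gl g F) (h' : Gl g' F') : Gl (fun n => g n * g' n) (F * F') := by
  refine ⟨fun n x hx => ?_, fun x hx => ?_⟩
  · change F (F' (lam ^ n • x)) = lam ^ n • g n (g' n x)
    rw [h'.1 n x hx, h.1 n _ (((hg' n).mem_iff x).2 hx)]
  · change F (F' x) = x
    rw [h'.2 x hx, h.2 x hx]

theorem Gl.inv {g : ℕ → Equiv.Perm E3} {F : Equiv.Perm E3} (hg : ∀ n, IdOff B2 (g n))
    (h : Gl g F) : Gl (fun n => (g n)⁻¹) F⁻¹ := by
  refine ⟨fun n x hx => ?_, fun x hx => ?_⟩
  · rw [Equiv.Perm.inv_eq_iff_eq, h.1 n _ (((hg n).inv.mem_iff x).2 hx)]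
    exact congrArg (lam ^ n • ·) ((g n).apply_symm_apply x).symm
  · rw [Equiv.Perm.inv_eq_iff_eq, h.2 x hx]

/-- from `Gl.mul` and `Gl.inv` (with `IdOff.mul`, `IdOff.inv`). -/
theorem Gl.comm {g g' : ℕ → Equiv.Perm E3} {F F' : Equiv.Perm E3} (hg : ∀ n, IdOff B2 (g n))
    (hg' : ∀ n, IdOff B2 (g' n)) (h : Gl g F) (h' : Gl g' F') :
    Gl (fun n => comm (g n) (g' n)) (comm F F') := by
  exact ((h.mul hg' h').mul (fun n => (hg n).inv) (h.inv hg)).mul (fun n => (hg' n).inv)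
    (h'.inv hg')

/-- from `Gl.comm` and `Gl.mul`. -/
theorem Gl.K0 {g g' : ℕ → Fin 4 → Equiv.Perm E3} {F F' : Fin 4 → Equiv.Perm E3}
    (hg : ∀ n l, IdOff B2 (g n l)) (hg' : ∀ n l, IdOff B2 (g' n l))
    (h : ∀ l, Gl (fun n => g n l) (F l)) (h' : ∀ l, Gl (fun n => g' n l) (F' l)) :
    Gl (fun n => K0 (g n) (g' n)) (K0 F F') := by
  have hI : ∀ l n, IdOff B2 (Pool.Agent.QM59.comm (g n l) (g' n l)) := fun l n =>
    (((hg n l).mul (hg' n l)).mul (hg n l).inv).mul (hg' n l).inv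
  have hC : ∀ l, Gl (fun n => Pool.Agent.QM59.comm (g n l) (g' n l))
      (Pool.Agent.QM59.comm (F l) (F' l)) := fun l =>
    Gl.comm (fun n => hg n l) (fun n => hg' n l) (h l) (h' l)
  exact (((hC 0).mul (hI 1) (hC 1)).mul (hI 2) (hC 2)).mul (hI 3) (hC 3)

/-- Induction on `p` (`List.ofFn_succ`, the product of the reversed list). -/
theorem Gl.rprod : ∀ {p : ℕ} (g : ℕ → Fin p → Equiv.Perm E3) (F : Fin p → Equiv.Perm E3),
    (∀ n j, IdOff B2 (g n j)) → (∀ j, Gl (fun n => g n j) (F j)) →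
      Gl (fun n => rprod (g n)) (rprod F) := by
  intro p
  induction p with
  | zero =>
    intro g F _ _
    have h1 : (fun n => Pool.Agent.QM59.rprod (g n)) = fun _ => 1 :=
      funext fun n => gl_rprod_zero (g n)
    rw [h1, gl_rprod_zero]
    exact Gl.one
  | succ p ih =>
    intro g F hg h
    have h1 : (fun n => Pool.Agent.QM59.rprod (g n)) =
        fun n => Pool.Agent.QM59.rprod (fun j : Fin p => g n j.succ) * g n 0 :=
      funext fun n => gl_rprod_succ (g n)
    rw [h1, gl_rprod_succ]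
    exact (ih (fun n j => g n j.succ) (fun j => F j.succ) (fun n j => hg n _)
      (fun j => h _)).mul (fun n => hg n 0) (h 0)

/-- A single map at scale `n = 0`; the other members of the sequence are `1`. -/
theorem Gl.single {f : Equiv.Perm E3} (hf : IdOff B2 f) :
    Gl (fun n => if n = 0 then f else 1) f := by
  refine ⟨fun n x hx => ?_, fun x hx => ?_⟩
  · by_cases hn : n = 0
    · subst hn
      change f (lam ^ 0 • x) = lam ^ 0 • f x
      rw [pow_zero, one_smul, one_smul]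
    · beta_reduce
      rw [if_neg hn]
      change f (lam ^ n • x) = lam ^ n • x
      refine hf _ fun hh => hn ?_
      refine (scaled_sep n 0 x (lam ^ n • x) hx hh ?_).1
      rw [pow_zero, one_smul]
  · refine hf x fun hh => hx 0 x hh ?_
    rw [pow_zero, one_smul]

end Pool.Agent.QM59
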