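import Mathlib
import Pool.Agent.Lib.MP_decea1_gt_C.Gl1

/-!
# MP_decea1_gt, block C, module Gl2: the hand-over maps and the shift (C6.2)
-/

set_option autoImplicit false

open MeasureTheory Set

namespace Pool.Agent.QM59

private theorem ap_inv (f : Equiv.Perm E3) (x : E3) : f (f⁻¹ x) = x := f.apply_symm_apply x

private theorem inv_ap (f : Equiv.Perm E3) (x : E3) : f⁻¹ (f x) = x := f.symm_apply_apply x

private theorem homoth_ap (r : ℝ) (hr : r ≠ 0) (x : E3) : homoth 0 r hr x = r • x := by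
  show (0 : E3) + r • x = r • x
  rw [zero_add]

private theorem homoth_inv_ap (r : ℝ) (hr : r ≠ 0) (x : E3) :
    (homoth 0 r hr)⁻¹ x = r⁻¹ • x := by
  show r⁻¹ • (x - 0) = r⁻¹ • x
  rw [sub_zero]

theorem scl_mul (r : ℝ) (hr : r ≠ 0) (f g : Equiv.Perm E3) :
    scl r hr (f * g) = scl r hr f * scl r hr g := by
  unfold scl
  group

theorem scl_inj (r : ℝ) (hr : r ≠ 0) {f g : Equiv.Perm E3} (h : scl r hr f = scl r hr g) :
    f = g := by
  unfold scl at h
  exact mul_left_cancel (mul_right_cancel h)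

/-- `scl r` is surjective: take `(homoth 0 r hr)⁻¹ * f * homoth 0 r hr`. -/
theorem scl_surj (r : ℝ) (hr : r ≠ 0) (f : Equiv.Perm E3) : ∃ g, scl r hr g = f := by
  refine ⟨(homoth 0 r hr)⁻¹ * f * homoth 0 r hr, ?_⟩
  unfold scl
  group

theorem scl_apply (r : ℝ) (hr : r ≠ 0) (f : Equiv.Perm E3) (x : E3) :
    scl r hr f (r • x) = r • f x := by
  unfold scl
  rw [Equiv.Perm.mul_apply, Equiv.Perm.mul_apply, homoth_inv_ap, homoth_ap, smul_smul,
    inv_mul_cancel₀ hr, one_smul]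

/-- induction on `p` -/
theorem scl_rprod (r : ℝ) (hr : r ≠ 0) {p : ℕ} (f : Fin p → Equiv.Perm E3) :
    scl r hr (rprod f) = rprod fun j => scl r hr (f j) := by
  have h1 : scl r hr 1 = 1 := by
    unfold scl
    group
  have key : ∀ l : List (Equiv.Perm E3), scl r hr l.prod = (l.map (scl r hr)).prod := by
    intro l
    induction l with
    | nil => simpa using h1
    | cons a l ih => rw [List.prod_cons, scl_mul, ih, List.map_cons, List.prod_cons]
  unfold rprod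
  rw [key, List.map_reverse, List.map_ofFn]
  rfl

/-- If `e` is the identity off `Q` and `τ = A` on the ball of radius `12`, which contains `Q`, and
`lam⁻¹ • A x ∈ B2` for `x ∈ Q`, then `e'` with `scl lam e' = τ e τ⁻¹` is the identity off `B2`:
if `lam • x ∉ τ '' Q`, then `τ e τ⁻¹ (lam • x) = lam • x`; if `lam • x = τ y = A y` with `y ∈ Q`,
then `x = lam⁻¹ • A y ∈ B2`. -/
theorem hand_idOff {e e' τ : Equiv.Perm E3} {Q : Set E3} (A : E3 ≃L[ℝ] E3)
    (hA : ∀ x ∈ Metric.ball (0 : E3) 12, τ x = A x) (hQ : Q ⊆ B2)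
    (hQA : ∀ x ∈ Q, lam⁻¹ • A x ∈ B2) (he : IdOff Q e)
    (hs : scl lam lam_ne e' = τ * e * τ⁻¹) : IdOff B2 e' := by
  intro x hx
  have h12 : ∀ y ∈ Q, y ∈ Metric.ball (0 : E3) 12 := by
    intro y hy
    have := scaled_mem_ball 0 y (hQ hy)
    rw [pow_zero, one_smul, Metric.mem_closedBall] at this
    rw [Metric.mem_ball]
    linarith
  have h1 : lam • e' x = (τ * e * τ⁻¹) (lam • x) := by
    rw [← hs, scl_apply]
  have h2 : (τ * e * τ⁻¹) (lam • x) = lam • x := by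
    rw [Equiv.Perm.mul_apply, Equiv.Perm.mul_apply]
    have hτ : τ (τ⁻¹ (lam • x)) = lam • x := by
      rw [ap_inv]
    by_cases hy : τ⁻¹ (lam • x) ∈ Q
    · exfalso
      apply hx
      have h3 := hQA _ hy
      rw [← hA _ (h12 _ hy), hτ, smul_smul, inv_mul_cancel₀ lam_ne, one_smul] at h3
      exact h3
    · rw [he _ hy, hτ]
  have h3 : lam • e' x = lam • x := h1.trans h2
  exact smul_right_injective E3 lam_ne h3

/-- **Hand-over.** `τ E τ⁻¹` is glued from the shifted sequence `1, e' 0, e' 1, ...`.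

First, `E z = z` unless `z = lam ^ m • q` with `q ∈ Q` (`Gl` and `IdOff Q (e m)`), and
`τ (lam ^ m • q) = lam ^ m • A q` for `q ∈ Q` (`scaled_mem_ball`, `A` is linear), which is
`lam ^ (m + 1) • (lam⁻¹ • A q)` with `lam⁻¹ • A q ∈ B2`. Let `z = τ⁻¹ x`.

(1) If `z = lam ^ m • q`, `q ∈ Q`, then `q' := e m q ∈ Q` (`IdOff.mem_iff`) and
`(τ E τ⁻¹) x = τ (lam ^ m • q') = lam ^ m • A q'`, and `x = lam ^ m • A q = lam ^ (m + 1) • y` with
`y = lam⁻¹ • A q ∈ B2`. Since `lam • y = A q = τ q`, `hs` gives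
`lam • e' m y = (τ * e m * τ⁻¹) (lam • y) = τ q' = A q'`, so
`(τ E τ⁻¹) x = lam ^ (m + 1) • e' m y`.
(2) Otherwise `(τ E τ⁻¹) x = x`. If in this case `x = lam ^ (n + 1) • y` with `y ∈ B2`, then
`e' n y = y`: otherwise `q := τ⁻¹ (lam • y) ∈ Q`, so `lam • y = τ q = A q`,
`x = lam ^ n • A q = τ (lam ^ n • q)`, so `z = lam ^ n • q`, contradiction.
In the proof of the first part of `Gl` for `n = 0` (value `1`): `x = y ∈ B2`, and case (1) would
give `lam ^ (m + 1) • y' = lam ^ 0 • y`, against `scaled_sep`; for index `n + 1` case (1) gives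
`m = n` and `y' = y` by `scaled_sep`. -/
theorem Gl.hand {e e' : ℕ → Equiv.Perm E3} {E τ : Equiv.Perm E3} {Q : Set E3} (A : E3 ≃L[ℝ] E3)
    (hA : ∀ x ∈ Metric.ball (0 : E3) 12, τ x = A x) (hQ : Q ⊆ B2)
    (hQA : ∀ x ∈ Q, lam⁻¹ • A x ∈ B2) (he : ∀ n, IdOff Q (e n))
    (hs : ∀ n, scl lam lam_ne (e' n) = τ * e n * τ⁻¹) (hE : Gl e E) :
    Gl (shf e') (τ * E * τ⁻¹) := by
  have h12 : ∀ m : ℕ, ∀ y ∈ Q, lam ^ m • y ∈ Metric.ball (0 : E3) 12 := by
    intro m y hy
    have := scaled_mem_ball m y (hQ hy)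
    rw [Metric.mem_closedBall] at this
    rw [Metric.mem_ball]
    linarith
  have h12' : ∀ y ∈ Q, y ∈ Metric.ball (0 : E3) 12 := by
    intro y hy
    have := h12 0 y hy
    rwa [pow_zero, one_smul] at this
  have F2 : ∀ m : ℕ, ∀ q ∈ Q, τ (lam ^ m • q) = lam ^ m • A q := by
    intro m q hq
    rw [hA _ (h12 m q hq), map_smul]
  have F3' : ∀ m : ℕ, ∀ q ∈ Q, lam ^ (m + 1) • (lam⁻¹ • A q) = τ (lam ^ m • q) := by
    intro m q hq
    rw [F2 m q hq, smul_smul, pow_succ, mul_assoc, mul_inv_cancel₀ lam_ne, mul_one]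
  have F3 : ∀ m : ℕ, ∀ q ∈ Q, (τ * E * τ⁻¹) (lam ^ (m + 1) • (lam⁻¹ • A q)) =
      lam ^ (m + 1) • e' m (lam⁻¹ • A q) := by
    intro m q hq
    have hq' : e m q ∈ Q := ((he m).mem_iff q).2 hq
    have h1 : lam • e' m (lam⁻¹ • A q) = A (e m q) := by
      rw [← scl_apply lam lam_ne, hs, smul_smul, mul_inv_cancel₀ lam_ne, one_smul,
        ← hA q (h12' q hq), Equiv.Perm.mul_apply, Equiv.Perm.mul_apply,
        inv_ap, hA _ (h12' _ hq')]
    rw [F3' m q hq, Equiv.Perm.mul_apply, Equiv.Perm.mul_apply, inv_ap,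
      hE.1 m q (hQ hq), F2 m _ hq', pow_succ, mul_smul, h1]
  have F4 : ∀ x : E3, (¬ ∃ m : ℕ, ∃ q ∈ Q, x = τ (lam ^ m • q)) → (τ * E * τ⁻¹) x = x := by
    intro x hx
    have hz : E (τ⁻¹ x) = τ⁻¹ x := by
      by_cases hw : ∃ m : ℕ, ∃ w ∈ B2, τ⁻¹ x = lam ^ m • w
      · obtain ⟨m, w, hwB, hzw⟩ := hw
        have hwQ : w ∉ Q := by
          intro hwQ
          apply hx
          refine ⟨m, w, hwQ, ?_⟩
          rw [← hzw, ap_inv]
        rw [hzw, hE.1 m w hwB, he m w hwQ]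
      · apply hE.2
        intro n y hy hxy
        exact hw ⟨n, y, hy, hxy⟩
    rw [Equiv.Perm.mul_apply, Equiv.Perm.mul_apply, hz, ap_inv]
  refine ⟨?_, ?_⟩
  · intro n x hx
    by_cases hc : ∃ m : ℕ, ∃ q ∈ Q, lam ^ n • x = τ (lam ^ m • q)
    · obtain ⟨m, q, hq, hxq⟩ := hc
      rw [← F3' m q hq] at hxq
      obtain ⟨hn, hxy⟩ := scaled_sep n (m + 1) x _ hx (hQA q hq) hxq
      subst hn
      rw [hxy]
      exact F3 m q hq
    · rw [F4 _ hc]
      cases n with
      | zero => rfl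
      | succ k =>
        have h1 : e' k x = x := by
          have h2 : lam • e' k x = (τ * e k * τ⁻¹) (lam • x) := by
            rw [← hs, scl_apply]
          have hτ : τ (τ⁻¹ (lam • x)) = lam • x := by
            rw [ap_inv]
          have h3 : (τ * e k * τ⁻¹) (lam • x) = lam • x := by
            rw [Equiv.Perm.mul_apply, Equiv.Perm.mul_apply]
            by_cases hy : τ⁻¹ (lam • x) ∈ Q
            · exfalso
              apply hc
              refine ⟨k, _, hy, ?_⟩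
              rw [F2 k _ hy, ← hA _ (h12' _ hy), hτ, smul_smul, pow_succ]
            · rw [he k _ hy, hτ]
          exact smul_right_injective E3 lam_ne (h2.trans h3)
        show lam ^ (k + 1) • x = lam ^ (k + 1) • e' k x
        rw [h1]
  · intro x hx
    apply F4
    rintro ⟨m, q, hq, hxq⟩
    rw [← F3' m q hq] at hxq
    exact hx (m + 1) _ (hQA q hq) hxq

end Pool.Agent.QM59
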