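import Mathlib
import Pool.Agent.Lib.MP_decea1_gt_C.Gl1
import Pool.Agent.Lib.MP_decea1_gt_C.Com
import Pool.Agent.Lib.MP_decea1_gt_A.A1

/-!
# MP_decea1_gt, block C, module Gl3: glued maps are smooth (C6.1)
-/

set_option autoImplicit false

open MeasureTheory Set

namespace Pool.Agent.QM59

/-- fast decay of all derivatives, with the weight `4 ^ (n (i + 1))` -/
def Fast (g : ℕ → Equiv.Perm E3) : Prop :=
  ∀ i : ℕ, ∃ C : ℝ, ∀ n x, (4 : ℝ) ^ (n * (i + 1)) * ‖iteratedFDeriv ℝ i (disp (g n)) x‖ ≤ C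

/-- the sequences to which C6.1 applies -/
structure Tame (g : ℕ → Equiv.Perm E3) : Prop where
  ok : ∀ n, Ok B2 (g n)
  small : ∀ n x, ‖fderiv ℝ (disp (g n)) x‖ ≤ 1 / 2
  fast : Fast g

/-- the displacement at scale `lam ^ n` -/
noncomputable def sdis (g : ℕ → Equiv.Perm E3) (n : ℕ) (x : E3) : E3 :=
  lam ^ n • disp (g n) ((lam ^ n)⁻¹ • x)

theorem contDiff_disp {f : Equiv.Perm E3} (hf : IsDif f) : ContDiff ℝ smo (disp f) := by
  exact hf.1.sub contDiff_id

private theorem fderiv_of_disp {f : Equiv.Perm E3} {x : E3}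
    (hf : DifferentiableAt ℝ (disp f) x) :
    fderiv ℝ (fun z => f z) x = fderiv ℝ (disp f) x + ContinuousLinearMap.id ℝ E3 := by
  have h1 : (fun z => f z) = fun z => disp f z + z := by
    funext z
    simp [disp]
  rw [h1]
  exact (hf.hasFDerivAt.add (hasFDerivAt_id x)).fderiv

private theorem lam_pow_ne (n : ℕ) : lam ^ n ≠ 0 := pow_ne_zero n lam_ne

private theorem lam_pow_inv (n : ℕ) : (lam ^ n)⁻¹ = (4 : ℝ) ^ n := by
  unfold lam
  rw [← inv_pow]
  norm_num

/-- the term of the sum vanishes -/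
private theorem sdis_zero {g : ℕ → Equiv.Perm E3} (hg : ∀ n, IdOff B2 (g n)) (n : ℕ) (x : E3)
    (hx : (lam ^ n)⁻¹ • x ∉ B2) : sdis g n x = 0 := by
  unfold sdis disp
  rw [hg n _ hx, sub_self, smul_zero]

private theorem scaled_eq (n : ℕ) (x : E3) : lam ^ n • ((lam ^ n)⁻¹ • x) = x := by
  rw [smul_smul, mul_inv_cancel₀ (lam_pow_ne n), one_smul]

/-- at most one scale is active -/
private theorem scaled_uniq {m n : ℕ} {x : E3} (hm : (lam ^ m)⁻¹ • x ∈ B2)
    (hn : (lam ^ n)⁻¹ • x ∈ B2) : m = n :=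
  (scaled_sep m n _ _ hm hn (by rw [scaled_eq, scaled_eq])).1

/-- `jac f x = det (1 + D (disp f) x)`; in particular equal derivatives of the displacements give
equal Jacobians. -/
theorem jac_of_disp {f g : Equiv.Perm E3} {x y : E3} (hf : DifferentiableAt ℝ (disp f) x)
    (hg : DifferentiableAt ℝ (disp g) y) (h : fderiv ℝ (disp f) x = fderiv ℝ (disp g) y) :
    jac (fun z => f z) x = jac (fun z => g z) y := by
  unfold jac
  rw [fderiv_of_disp hf, fderiv_of_disp hg, h]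

/-- If the displacement has derivative zero, the Jacobian is one. -/
theorem jac_of_disp_zero {f : Equiv.Perm E3} {x : E3} (hf : DifferentiableAt ℝ (disp f) x)
    (h : fderiv ℝ (disp f) x = 0) : jac (fun z => f z) x = 1 := by
  unfold jac
  rw [fderiv_of_disp hf, h, zero_add]
  exact LinearMap.det_id

/-- At most one term of the sum is not zero (`scaled_sep`, `disp (g n) = 0` off `B2`);
`tsum_eq_single` or all terms are zero. -/
theorem Gl.disp_eq {g : ℕ → Equiv.Perm E3} {F : Equiv.Perm E3} (hg : ∀ n, IdOff B2 (g n))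
    (hF : Gl g F) (x : E3) : disp F x = ∑' n, sdis g n x := by
  by_cases h : ∃ n : ℕ, (lam ^ n)⁻¹ • x ∈ B2
  · obtain ⟨n, hn⟩ := h
    rw [tsum_eq_single n]
    · have h1 := hF.1 n _ hn
      rw [scaled_eq] at h1
      unfold sdis disp
      rw [h1, smul_sub, scaled_eq]
    · intro m hm
      apply sdis_zero hg
      intro h2
      exact hm (scaled_uniq h2 hn)
  · push Not at h
    have h1 : F x = x := by
      apply hF.2
      intro n y hy h2
      apply h n
      rw [h2, smul_smul, inv_mul_cancel₀ (lam_pow_ne n), one_smul]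
      exact hy
    have h2 : ∀ n, sdis g n x = 0 := fun n => sdis_zero hg n x (h n)
    unfold disp
    rw [h1, sub_self]
    simp only [h2, tsum_zero]

private theorem sdis_eq (g : ℕ → Equiv.Perm E3) (n : ℕ) :
    sdis g n = lam ^ n • (disp (g n) ∘ ((lam ^ n)⁻¹ • ContinuousLinearMap.id ℝ E3)) := by
  funext x
  rfl

private theorem contDiff_sdis {g : ℕ → Equiv.Perm E3} (hd : ∀ n, IsDif (g n)) (n : ℕ) :
    ContDiff ℝ smo (sdis g n) := by
  rw [sdis_eq]
  exact ((contDiff_disp (hd n)).comp (ContinuousLinearMap.contDiff _)).const_smul (lam ^ n)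

/-- `sdis g n = lam ^ n • (disp (g n) ∘ ((lam ^ n)⁻¹ • ·))`, so
`‖D^i (sdis g n) x‖ ≤ lam ^ n * ((lam ^ n)⁻¹) ^ i * ‖D^i (disp (g n)) ((lam ^ n)⁻¹ • x)‖`, and
`lam ^ n * 4 ^ (n * i) * 4 ^ (-(n * (i + 1))) = lam ^ (2 * n) ≤ lam ^ n`
(`ContinuousLinearMap.iteratedFDeriv_comp_right`, `iteratedFDeriv_const_smul_apply`). -/
theorem sdis_bound {g : ℕ → Equiv.Perm E3} (hd : ∀ n, IsDif (g n)) {i : ℕ} {C : ℝ}
    (hC : ∀ n x, (4 : ℝ) ^ (n * (i + 1)) * ‖iteratedFDeriv ℝ i (disp (g n)) x‖ ≤ C)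
    (n : ℕ) (x : E3) : ‖iteratedFDeriv ℝ i (sdis g n) x‖ ≤ C * (1 / 4) ^ n := by
  have hi : (i : WithTop ℕ∞) ≤ smo := by
    change ((i : ℕ∞) : WithTop ℕ∞) ≤ ((⊤ : ℕ∞) : WithTop ℕ∞)
    exact WithTop.coe_le_coe.2 le_top
  have hs := contDiff_disp (hd n)
  have hc : ContDiff ℝ smo (disp (g n) ∘ ((lam ^ n)⁻¹ • ContinuousLinearMap.id ℝ E3)) :=
    hs.comp (ContinuousLinearMap.contDiff _)
  rw [sdis_eq, iteratedFDeriv_const_smul_apply ((hc.of_le hi).contDiffAt),
    ContinuousLinearMap.iteratedFDeriv_comp_right _ hs x hi, norm_smul]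
  set y : E3 := ((lam ^ n)⁻¹ • ContinuousLinearMap.id ℝ E3) x with hy
  have h1 := hC n y
  have h2 : ‖(iteratedFDeriv ℝ i (disp (g n)) y).compContinuousLinearMap
      fun _ => (lam ^ n)⁻¹ • ContinuousLinearMap.id ℝ E3‖ ≤
      ‖iteratedFDeriv ℝ i (disp (g n)) y‖ * ((4 : ℝ) ^ n) ^ i := by
    refine (ContinuousMultilinearMap.norm_compContinuousLinearMap_le _ _).trans ?_
    rw [Finset.prod_const, Finset.card_univ, Fintype.card_fin]
    have h3 : ‖(lam ^ n)⁻¹ • ContinuousLinearMap.id ℝ E3‖ ≤ (4 : ℝ) ^ n := by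
      rw [lam_pow_inv, norm_smul, Real.norm_eq_abs, abs_of_pos (by positivity)]
      calc (4 : ℝ) ^ n * ‖ContinuousLinearMap.id ℝ E3‖ ≤ (4 : ℝ) ^ n * 1 :=
            mul_le_mul_of_nonneg_left ContinuousLinearMap.norm_id_le (by positivity)
        _ = (4 : ℝ) ^ n := mul_one _
    exact mul_le_mul_of_nonneg_left (pow_le_pow_left₀ (norm_nonneg _) h3 i) (norm_nonneg _)
  have h4 : ‖lam ^ n‖ = (1 / 4 : ℝ) ^ n := by
    unfold lam
    rw [Real.norm_eq_abs, abs_of_pos (by positivity)]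
  rw [h4]
  have h5 : ‖iteratedFDeriv ℝ i (disp (g n)) y‖ * ((4 : ℝ) ^ n) ^ i ≤ C := by
    refine le_trans ?_ h1
    rw [mul_comm, ← pow_mul]
    refine mul_le_mul_of_nonneg_right ?_ (norm_nonneg _)
    exact pow_le_pow_right₀ (by norm_num) (Nat.mul_le_mul_left n (Nat.le_succ i))
  rw [mul_comm C]
  exact mul_le_mul_of_nonneg_left (h2.trans h5) (by positivity)

/-- chain rule -/
theorem fderiv_sdis {g : ℕ → Equiv.Perm E3} (hd : ∀ n, IsDif (g n)) (n : ℕ) (x : E3) :
    fderiv ℝ (sdis g n) x = fderiv ℝ (disp (g n)) ((lam ^ n)⁻¹ • x) := by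
  have h1 : DifferentiableAt ℝ (disp (g n)) ((lam ^ n)⁻¹ • x) :=
    ((contDiff_disp (hd n)).differentiable (by simp)) _
  have h2 : HasFDerivAt (fun z : E3 => (lam ^ n)⁻¹ • z)
      ((lam ^ n)⁻¹ • ContinuousLinearMap.id ℝ E3) x :=
    ((lam ^ n)⁻¹ • ContinuousLinearMap.id ℝ E3).hasFDerivAt
  have h3 : HasFDerivAt (sdis g n) (lam ^ n • ((fderiv ℝ (disp (g n)) ((lam ^ n)⁻¹ • x)).comp
      ((lam ^ n)⁻¹ • ContinuousLinearMap.id ℝ E3))) x := by
    have h4 : sdis g n = lam ^ n • (disp (g n) ∘ fun z : E3 => (lam ^ n)⁻¹ • z) := rfl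
    rw [h4]
    exact (HasFDerivAt.comp x (f := fun z : E3 => (lam ^ n)⁻¹ • z) h1.hasFDerivAt h2).const_smul
      (lam ^ n)
  rw [h3.fderiv]
  ext v i
  simp only [FunLike.coe_smul, Pi.smul_apply, ContinuousLinearMap.comp_apply,
    ContinuousLinearMap.id_apply, map_smul, smul_eq_mul]
  rw [← mul_assoc, mul_inv_cancel₀ (lam_pow_ne n), one_mul]

/-- `contDiff_tsum` with `sdis_bound`. -/
theorem Gl.contDiff {g : ℕ → Equiv.Perm E3} {F : Equiv.Perm E3} (hg : Tame g) (hF : Gl g F) :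
    ContDiff ℝ smo (disp F) := by
  have h1 : disp F = fun x => ∑' n, sdis g n x :=
    funext fun x => Gl.disp_eq (fun n => (hg.ok n).off) hF x
  choose C hC using hg.fast
  rw [h1]
  refine contDiff_tsum (v := fun k n => C k * (1 / 4) ^ n)
    (fun n => contDiff_sdis (fun n => (hg.ok n).dif) n) (fun k _ => ?_)
    (fun k n x _ => sdis_bound (fun n => (hg.ok n).dif) (hC k) n x)
  exact (summable_geometric_of_lt_one (by norm_num) (by norm_num)).mul_left _

/-- `fderiv_tsum` with `sdis_bound` (`i = 0, 1`) and `fderiv_sdis`; `D (disp (g n)) y = 0` for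
`y ∉ B2` (`B2` is closed, so `disp (g n) = 0` near `y`), so by `scaled_sep` at most one term of the
sum is not zero. -/
theorem Gl.fderiv_cases {g : ℕ → Equiv.Perm E3} {F : Equiv.Perm E3} (hg : Tame g)
    (hF : Gl g F) (x : E3) :
    fderiv ℝ (disp F) x = 0 ∨
      ∃ n, ∃ y, fderiv ℝ (disp F) x = fderiv ℝ (disp (g n)) y := by
  have hd : ∀ n, IsDif (g n) := fun n => (hg.ok n).dif
  have ho : ∀ n, IdOff B2 (g n) := fun n => (hg.ok n).off
  have h1 : disp F = fun x => ∑' n, sdis g n x := funext fun x => Gl.disp_eq ho hF x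
  choose C hC using hg.fast
  have hgeo : ∀ c : ℝ, Summable fun n : ℕ => c * (1 / 4 : ℝ) ^ n := fun c =>
    (summable_geometric_of_lt_one (by norm_num) (by norm_num)).mul_left _
  have h2 : fderiv ℝ (disp F) x = ∑' n, fderiv ℝ (sdis g n) x := by
    have hb : ∀ n y, ‖fderiv ℝ (sdis g n) y‖ ≤ C 1 * (1 / 4 : ℝ) ^ n := by
      intro n y
      have h3 := sdis_bound hd (hC 1) n y
      rwa [norm_iteratedFDeriv_one] at h3
    have hsum : Summable fun n => sdis g n x := by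
      refine Summable.of_norm_bounded (hgeo (C 0)) fun n => ?_
      have h3 := sdis_bound hd (hC 0) n x
      rwa [norm_iteratedFDeriv_zero] at h3
    rw [h1, fderiv_tsum (hgeo (C 1)) (fun n => (contDiff_sdis hd n).differentiable (by simp)) hb
      hsum]
  have hcl : IsClosed B2 := (isCompact_BX 4 4).isClosed
  have h4 : ∀ n, (lam ^ n)⁻¹ • x ∉ B2 → fderiv ℝ (sdis g n) x = 0 := by
    intro n hn
    rw [fderiv_sdis hd]
    have h5 : disp (g n) =ᶠ[nhds ((lam ^ n)⁻¹ • x)] fun _ => (0 : E3) := by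
      filter_upwards [hcl.isOpen_compl.mem_nhds hn] with y hy
      unfold disp
      rw [ho n y hy, sub_self]
    rw [h5.fderiv_eq]
    simp
  by_cases h : ∃ n : ℕ, (lam ^ n)⁻¹ • x ∈ B2
  · obtain ⟨n, hn⟩ := h
    right
    refine ⟨n, (lam ^ n)⁻¹ • x, ?_⟩
    rw [h2, tsum_eq_single n, fderiv_sdis hd]
    intro m hm
    exact h4 m fun h5 => hm (scaled_uniq h5 hn)
  · push Not at h
    left
    rw [h2]
    have h5 : ∀ n, fderiv ℝ (sdis g n) x = 0 := fun n => h4 n (h n)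
    simp only [h5, tsum_zero]

/-- C6.1. `A1` with `U = ball 0 13`, `K = closedBall 0 11` (`scaled_mem_ball`), `u = disp F`
(`Gl.contDiff`, `Gl.fderiv_cases`); `Vol F` by `jac_of_disp`, `jac_of_disp_zero`. -/
theorem Gl.mem_IsoV {g : ℕ → Equiv.Perm E3} {F : Equiv.Perm E3} (hg : Tame g) (hF : Gl g F) :
    F ∈ IsoV (Metric.ball 0 13) := by
  have hs := Gl.contDiff hg hF
  have hdF : Differentiable ℝ (disp F) := hs.differentiable (by simp)
  have h0 : ∀ x, x ∉ Metric.closedBall (0 : E3) 11 → disp F x = 0 := by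
    intro x hx
    have h1 : F x = x := by
      apply hF.2
      intro n y hy h2
      apply hx
      rw [h2]
      exact scaled_mem_ball n y hy
    unfold disp
    rw [h1, sub_self]
  have hD : ∀ x, ‖fderiv ℝ (disp F) x‖ ≤ 1 / 2 := by
    intro x
    rcases Gl.fderiv_cases hg hF x with h | ⟨n, y, h⟩
    · rw [h, norm_zero]
      norm_num
    · rw [h]
      exact hg.small n y
  obtain ⟨f, hf, hfx⟩ := A1 (Metric.ball 0 13) Metric.isOpen_ball (disp F) hs
    (Metric.closedBall 0 11) (isCompact_closedBall 0 11)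
    (Metric.closedBall_subset_ball (by norm_num)) h0 hD
  have hfF : f = F := by
    ext1 x
    rw [hfx x]
    simp [disp]
  rw [hfF] at hf
  refine ⟨hf, fun x => ?_⟩
  rcases Gl.fderiv_cases hg hF x with h | ⟨n, y, h⟩
  · exact jac_of_disp_zero (hdF x) h
  · have h3 : DifferentiableAt ℝ (disp (g n)) y :=
      ((contDiff_disp (hg.ok n).dif).differentiable (by simp)) y
    rw [jac_of_disp (hdF x) h3 h]
    exact (hg.ok n).vol y

end Pool.Agent.QM59
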