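import Mathlib
import Pool.Agent.Lib.MP_decea1_gt_C.Com

/-!
# MP_decea1_gt, block C, module GlF: products of finitely many maps with disjoint supports
-/

set_option autoImplicit false

open MeasureTheory Set

namespace Pool.Agent.QM59

/-- `F` is equal to `h j` on `S j` and the identity off the union of the `S j` -/
def GlF {ι : Type*} (S : ι → Set E3) (h : ι → Equiv.Perm E3) (F : Equiv.Perm E3) : Prop :=
  (∀ j, ∀ x ∈ S j, F x = h j x) ∧ ∀ x, (∀ j, x ∉ S j) → F x = x

variable {ι : Type*} {S : ι → Set E3}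

private theorem idOff_mem {K : Set E3} {f : Equiv.Perm E3} (hf : IdOff K f) {x : E3}
    (hx : x ∈ K) : f x ∈ K := by
  by_contra hn
  have h1 : f (f x) = f x := hf _ hn
  have h2 : f x = x := f.injective h1
  exact hn (h2.symm ▸ hx)

private theorem idOff_inv {K : Set E3} {f : Equiv.Perm E3} (hf : IdOff K f) : IdOff K f⁻¹ := by
  intro x hx
  rw [Equiv.Perm.inv_eq_iff_eq]
  exact (hf x hx).symm

private theorem idOff_mul {K : Set E3} {f g : Equiv.Perm E3} (hf : IdOff K f)
    (hg : IdOff K g) : IdOff K (f * g) := by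
  intro x hx
  rw [Equiv.Perm.mul_apply, hg x hx, hf x hx]

open Classical in
private noncomputable def gl (S : ι → Set E3) (h : ι → Equiv.Perm E3) (x : E3) : E3 :=
  if H : ∃ j, x ∈ S j then h H.choose x else x

private theorem gl_mem (hS : Pairwise fun i j => Disjoint (S i) (S j)) (h : ι → Equiv.Perm E3)
    {j : ι} {x : E3} (hx : x ∈ S j) : gl S h x = h j x := by
  have H : ∃ j, x ∈ S j := ⟨j, hx⟩
  have h1 : H.choose = j := by
    by_contra hn
    exact Set.disjoint_left.1 (hS hn) H.choose_spec hx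
  rw [gl, dif_pos H, h1]

private theorem gl_off (h : ι → Equiv.Perm E3) {x : E3} (hx : ∀ j, x ∉ S j) :
    gl S h x = x := by
  rw [gl, dif_neg]
  rintro ⟨j, hj⟩
  exact hx j hj

private theorem gl_inv (hS : Pairwise fun i j => Disjoint (S i) (S j)) (h h' : ι → Equiv.Perm E3)
    (hh : ∀ j, IdOff (S j) (h j)) (hi : ∀ j x, h' j (h j x) = x) (x : E3) :
    gl S h' (gl S h x) = x := by
  by_cases H : ∃ j, x ∈ S j
  · obtain ⟨j, hj⟩ := H
    rw [gl_mem hS h hj, gl_mem hS h' (idOff_mem (hh j) hj), hi]
  · have H' : ∀ j, x ∉ S j := fun j hj => H ⟨j, hj⟩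
    rw [gl_off h H', gl_off h' H']

/-- Define `F x` by choice of `j` with `x ∈ S j`; the inverse in the same way. -/
theorem GlF.exists (hS : Pairwise fun i j => Disjoint (S i) (S j)) (h : ι → Equiv.Perm E3)
    (hh : ∀ j, IdOff (S j) (h j)) : ∃ F : Equiv.Perm E3, GlF S h F := by
  refine ⟨⟨gl S h, gl S fun j => (h j)⁻¹, ?_, ?_⟩, ?_, ?_⟩
  · intro x
    exact gl_inv hS h (fun j => (h j)⁻¹) hh (fun j x => (h j).symm_apply_apply x) x
  · intro x
    exact gl_inv hS (fun j => (h j)⁻¹) h (fun j => idOff_inv (hh j))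
      (fun j x => (h j).apply_symm_apply x) x
  · intro j x hx
    exact gl_mem hS h hx
  · intro x hx
    exact gl_off h hx

theorem GlF.unique {h : ι → Equiv.Perm E3} {F F' : Equiv.Perm E3} (hF : GlF S h F)
    (hF' : GlF S h F') : F = F' := by
  refine Equiv.ext fun x => ?_
  by_cases H : ∃ j, x ∈ S j
  · obtain ⟨j, hj⟩ := H
    rw [hF.1 j x hj, hF'.1 j x hj]
  · have H' : ∀ j, x ∉ S j := fun j hj => H ⟨j, hj⟩
    rw [hF.2 x H', hF'.2 x H']

/-- larger sets -/
theorem GlF.enlarge {h : ι → Equiv.Perm E3} {F : Equiv.Perm E3} (hF : GlF S h F)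
    (hh : ∀ j, IdOff (S j) (h j)) {S' : ι → Set E3} (hSS : ∀ j, S j ⊆ S' j)
    (hS' : Pairwise fun i j => Disjoint (S' i) (S' j)) : GlF S' h F := by
  refine ⟨fun j x hx => ?_, fun x hx => hF.2 x fun j hj => hx j (hSS j hj)⟩
  by_cases hj : x ∈ S j
  · exact hF.1 j x hj
  · rw [hh j x hj]
    refine hF.2 x fun i hi => ?_
    by_cases hij : i = j
    · exact hj (hij ▸ hi)
    · exact Set.disjoint_left.1 (hS' hij) (hSS i hi) hx

theorem GlF.one : GlF S (fun _ => 1) 1 := by
  exact ⟨fun _ _ _ => rfl, fun _ _ => rfl⟩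

theorem GlF.mul {h h' : ι → Equiv.Perm E3} {F F' : Equiv.Perm E3}
    (hh' : ∀ j, IdOff (S j) (h' j)) (hF : GlF S h F) (hF' : GlF S h' F') :
    GlF S (fun j => h j * h' j) (F * F') := by
  refine ⟨fun j x hx => ?_, fun x hx => ?_⟩
  · rw [Equiv.Perm.mul_apply, hF'.1 j x hx, hF.1 j _ (idOff_mem (hh' j) hx)]
    rfl
  · rw [Equiv.Perm.mul_apply, hF'.2 x hx, hF.2 x hx]

theorem GlF.inv {h : ι → Equiv.Perm E3} {F : Equiv.Perm E3} (hh : ∀ j, IdOff (S j) (h j))
    (hF : GlF S h F) : GlF S (fun j => (h j)⁻¹) F⁻¹ := by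
  refine ⟨fun j x hx => ?_, fun x hx => ?_⟩
  · rw [Equiv.Perm.inv_eq_iff_eq, hF.1 j _ (idOff_mem (idOff_inv (hh j)) hx)]
    exact ((h j).apply_symm_apply x).symm
  · rw [Equiv.Perm.inv_eq_iff_eq, hF.2 x hx]

/-- Induction on the finite set `s`: the map glued from the `h j` with `j ∈ s` (and `1` for
`j ∉ s`) is in `G`; inserting `a` multiplies it with `h a`. -/
theorem GlF.mem [Finite ι] (hS : Pairwise fun i j => Disjoint (S i) (S j))
    {h : ι → Equiv.Perm E3} (hh : ∀ j, IdOff (S j) (h j)) {F : Equiv.Perm E3} (hF : GlF S h F)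
    (G : Subgroup (Equiv.Perm E3)) (hG : ∀ j, h j ∈ G) : F ∈ G := by
  classical
  obtain ⟨hf⟩ := nonempty_fintype ι
  have key : ∀ s : Finset ι, ∀ F : Equiv.Perm E3, GlF S (fun j => if j ∈ s then h j else 1) F →
      F ∈ G := by
    intro s
    induction s using Finset.induction_on with
    | empty =>
      intro F hF
      have h1 : F = 1 := by
        refine GlF.unique hF ?_
        have h2 : (fun j : ι => if j ∈ (∅ : Finset ι) then h j else 1) = fun _ => 1 := by
          funext j
          exact if_neg (Finset.notMem_empty j)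
        rw [h2]
        exact GlF.one
      rw [h1]
      exact G.one_mem
    | insert a s ha ih =>
      intro F hF
      have h1 : ∀ j, IdOff (S j) (if j ∈ s then h j else 1) := by
        intro j
        split_ifs
        · exact hh j
        · exact fun _ _ => rfl
      obtain ⟨F', hF'⟩ := GlF.exists hS (fun j => if j ∈ s then h j else 1) h1
      have h2 : GlF S (fun j => if j = a then h a else 1) (h a) := by
        refine ⟨fun j x hx => ?_, fun x hx => hh a x (hx a)⟩
        change h a x = (if j = a then h a else 1 : Equiv.Perm E3) x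
        by_cases hj : j = a
        · rw [if_pos hj]
        · rw [if_neg hj, hh a x (Set.disjoint_left.1 (hS hj) hx)]
          rfl
      have h3 : F = h a * F' := by
        refine GlF.unique hF ?_
        have h4 := GlF.mul h1 h2 hF'
        have h5 : (fun j => (if j = a then h a else 1) * (if j ∈ s then h j else 1)) =
            fun j => if j ∈ insert a s then h j else 1 := by
          funext j
          by_cases hj : j = a
          · subst hj
            rw [if_pos rfl, if_neg ha, if_pos (Finset.mem_insert_self _ _), mul_one]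
          · by_cases hs : j ∈ s
            · rw [if_neg hj, if_pos hs, if_pos (Finset.mem_insert_of_mem hs), one_mul]
            · rw [if_neg hj, if_neg hs, if_neg, one_mul]
              rw [Finset.mem_insert]
              tauto
        rw [h5] at h4
        exact h4
      rw [h3]
      exact G.mul_mem (hG a) (ih F' hF')
  refine key Finset.univ F ?_
  have h6 : (fun j : ι => if j ∈ Finset.univ then h j else 1) = h := by
    funext j
    exact if_pos (Finset.mem_univ j)
  rw [h6]
  exact hF

private theorem idOff_prod {K : Set E3} : ∀ {m : ℕ} (c : Fin m → Equiv.Perm E3),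
    (∀ i, IdOff K (c i)) → IdOff K (List.ofFn c).prod := by
  intro m
  induction m with
  | zero =>
    intro c _ x _
    rw [List.ofFn_zero, List.prod_nil]
    rfl
  | succ m ih =>
    intro c hc
    rw [List.ofFn_succ, List.prod_cons]
    exact idOff_mul (hc 0) (ih _ fun i => hc i.succ)

private theorem GlF.prod : ∀ {m : ℕ} (c : ι → Fin m → Equiv.Perm E3)
    (C : Fin m → Equiv.Perm E3), (∀ j i, IdOff (S j) (c j i)) →
      (∀ i, GlF S (fun j => c j i) (C i)) →
        GlF S (fun j => (List.ofFn (c j)).prod) (List.ofFn C).prod := by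
  intro m
  induction m with
  | zero =>
    intro c C _ _
    have h1 : (fun j : ι => (List.ofFn (c j)).prod) = fun _ => 1 := by
      funext j
      rw [List.ofFn_zero, List.prod_nil]
    rw [h1, List.ofFn_zero, List.prod_nil]
    exact GlF.one
  | succ m ih =>
    intro c C hc hC
    have h1 : (fun j : ι => (List.ofFn (c j)).prod) =
        fun j => c j 0 * (List.ofFn fun i : Fin m => c j i.succ).prod := by
      funext j
      rw [List.ofFn_succ, List.prod_cons]
    rw [h1, List.ofFn_succ, List.prod_cons]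
    exact GlF.mul (fun j => idOff_prod _ fun i => hc j i.succ) (hC 0)
      (ih (fun j i => c j i.succ) (fun i => C i.succ) (fun j i => hc j i.succ)
        fun i => hC i.succ)

/-- Write `h j = ∏ [a j i, b j i]` with `a j i, b j i ∈ IsoV (S j)` (so they are the identity off
`S j`, `InIso.idOff`). Let `A i`, `B i` be the glued maps of `fun j => a j i`, `fun j => b j i`; they
are in `IsoV U` by `GlF.mem` and `IsoV_mono`. By `GlF.mul`, `GlF.inv` and induction on the length of the
product, `∏ [A i, B i]` is glued from `h`, so it is `F` by `GlF.unique`. -/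
theorem GlF.cp [Finite ι] (hS : Pairwise fun i j => Disjoint (S i) (S j)) (U : Set E3)
    (hU : ∀ j, S j ⊆ U) {h : ι → Equiv.Perm E3} {m : ℕ} (hh : ∀ j, CP (IsoV (S j)) m (h j))
    {F : Equiv.Perm E3} (hF : GlF S h F) : CP (IsoV U) m F := by
  choose a b hab hprod using hh
  have ha : ∀ j i, IdOff (S j) (a j i) := fun j i => (hab j i).1.1.idOff
  have hb : ∀ j i, IdOff (S j) (b j i) := fun j i => (hab j i).2.1.idOff
  have hA : ∀ i, ∃ A : Equiv.Perm E3, GlF S (fun j => a j i) A :=
    fun i => GlF.exists hS _ fun j => ha j i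
  have hB : ∀ i, ∃ B : Equiv.Perm E3, GlF S (fun j => b j i) B :=
    fun i => GlF.exists hS _ fun j => hb j i
  choose A hA using hA
  choose B hB using hB
  have hA' : ∀ i, A i ∈ IsoV U := fun i =>
    GlF.mem hS (fun j => ha j i) (hA i) _ fun j => IsoV_mono (hU j) (hab j i).1
  have hB' : ∀ i, B i ∈ IsoV U := fun i =>
    GlF.mem hS (fun j => hb j i) (hB i) _ fun j => IsoV_mono (hU j) (hab j i).2
  refine ⟨A, B, fun i => ⟨hA' i, hB' i⟩, GlF.unique hF ?_⟩
  have h1 := GlF.prod (S := S) (fun j i => a j i * b j i * (a j i)⁻¹ * (b j i)⁻¹)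
    (fun i => A i * B i * (A i)⁻¹ * (B i)⁻¹)
    (fun j i => idOff_mul (idOff_mul (idOff_mul (ha j i) (hb j i)) (idOff_inv (ha j i)))
      (idOff_inv (hb j i)))
    (fun i => by
      have h2 := GlF.mul (fun j => hb j i) (hA i) (hB i)
      have h3 := GlF.mul (fun j => idOff_inv (ha j i)) h2 (GlF.inv (fun j => ha j i) (hA i))
      exact GlF.mul (fun j => idOff_inv (hb j i)) h3 (GlF.inv (fun j => hb j i) (hB i)))
  have h4 : (fun j => (List.ofFn fun i => a j i * b j i * (a j i)⁻¹ * (b j i)⁻¹).prod) = h := by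
    funext j
    exact (hprod j).symm
  rw [h4] at h1
  exact h1

end Pool.Agent.QM59
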