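import Pool.Agent.Lib.MP_decea1_gt_C.CDefs
import Pool.Agent.Lib.MP_decea1_gt_A.J1
import Pool.Agent.Lib.MP_decea1_gt_A.J2
import Pool.Agent.Lib.MP_decea1_gt_A.A1

/-!
# MP_decea1_gt, block C, C0: permutations near the identity, the predicates `Ok`, `OkZ`

Use `IsDif.mul`, `IsDif.inv`, `IsDif.jac_mul`, ... (`A/J1`), `IdOff.mul`, `Vol.mul`, ...
(`A/J2`) and `A1a` (`A/A1`).
-/

set_option autoImplicit false

open MeasureTheory Set

namespace Pool.Agent.QM59

/-- the permutation given by a bijective map -/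
noncomputable def toP (f : E3 → E3) : Equiv.Perm E3 := by
  classical exact if h : Function.Bijective f then Equiv.ofBijective f h else 1

theorem toP_apply {f : E3 → E3} (h : Function.Bijective f) (x : E3) : toP f x = f x := by
  unfold toP
  rw [dif_pos h]
  rfl

theorem eq_toP {f : E3 → E3} {g : Equiv.Perm E3} (h : ∀ x, g x = f x) : g = toP f := by
  have hf : (g : E3 → E3) = f := funext h
  have hb : Function.Bijective f := hf ▸ g.bijective
  ext1 x
  rw [toP_apply hb, h]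

/-- `x ↦ x + v x` is a `1/2`-Lipschitz perturbation of the identity, hence bijective (`A1a`). -/
theorem near_bij {v : E3 → E3} (hv : ContDiff ℝ smo v) (h : ∀ x, ‖fderiv ℝ v x‖ ≤ 1 / 2) :
    Function.Bijective fun x => x + v x := by
  obtain ⟨f, hf, -, -⟩ := A1a v hv h
  have e : (f : E3 → E3) = fun x => x + v x := funext hf
  rw [← e]
  exact f.bijective

/-- the derivative is invertible everywhere (`A1a`), so the inverse is smooth
(`A/Sym.symm_smooth`, or `OpenPartialHomeomorph.contDiffAt_symm` / `ContDiffAt.to_localInverse`) -/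
theorem near_dif {v : E3 → E3} (hv : ContDiff ℝ smo v) (h : ∀ x, ‖fderiv ℝ v x‖ ≤ 1 / 2) :
    IsDif (toP fun x => x + v x) := by
  obtain ⟨f, hf, hlow, hj⟩ := A1a v hv h
  have e : f = toP fun x => x + v x := eq_toP hf
  rw [← e]
  have e2 : (fun x => f x) = fun x => x + v x := funext hf
  have hs : ContDiff ℝ smo fun x => f x := by
    rw [e2]
    exact contDiff_id.add hv
  refine ⟨hs, ?_⟩
  have hl : LipschitzWith 2 fun y => f.symm y := by
    refine LipschitzWith.of_dist_le_mul fun y y' => ?_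
    have h1 := hlow (f.symm y) (f.symm y')
    rw [f.apply_symm_apply, f.apply_symm_apply] at h1
    rw [dist_eq_norm, dist_eq_norm]
    exact h1
  have h2 := symm_smooth (fun _ => f) (hs.comp contDiff_snd) (fun _ x => hj x)
    (hl.continuous.comp continuous_snd)
  have h3 : ContDiff ℝ smo fun x : E3 => ((0 : ℝ), x) := contDiff_const.prodMk contDiff_id
  exact h2.comp h3

theorem IsDif.contDiff_disp {f : Equiv.Perm E3} (hf : IsDif f) : ContDiff ℝ smo (disp f) := by
  exact hf.1.sub contDiff_id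

theorem Ok.mul {S : Set E3} {f g : Equiv.Perm E3} (hf : Ok S f) (hg : Ok S g) :
    Ok S (f * g) :=
  ⟨hf.dif.mul hg.dif, Vol.mul hf.dif hg.dif hf.vol hg.vol, hf.off.mul hg.off⟩

theorem Ok.inv {S : Set E3} {f : Equiv.Perm E3} (hf : Ok S f) : Ok S f⁻¹ :=
  ⟨hf.dif.inv, Vol.inv hf.dif hf.vol, hf.off.inv⟩

theorem Ok.one (S : Set E3) : Ok S 1 := ⟨IsDif.one, Vol.one, IdOff.one S⟩

theorem Ok.mono {S T : Set E3} {f : Equiv.Perm E3} (hf : Ok S f) (h : S ⊆ T) : Ok T f :=
  ⟨hf.dif, hf.vol, hf.off.mono h⟩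

/-- conjugation with a volume preserving map -/
theorem Ok.conj {S T : Set E3} {f g : Equiv.Perm E3} (hf : Ok S f) (hg : IsDif g) (hv : Vol g)
    (h : ∀ x ∈ S, g x ∈ T) : Ok T (g * f * g⁻¹) := by
  refine ⟨(hg.mul hf.dif).mul hg.inv, Vol.mul (hg.mul hf.dif) hg.inv
    (Vol.mul hg hf.dif hv hf.vol) (Vol.inv hg hv), (hf.off.conj g).mono ?_⟩
  rintro _ ⟨x, hx, rfl⟩
  exact h x hx

private theorem prm_hom_dif (p : E3) (r : ℝ) (hr : r ≠ 0) : IsDif (homoth p r hr) := by
  constructor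
  · have e : (fun x => homoth p r hr x) = fun x => p + r • x := rfl
    rw [e]
    exact contDiff_const.add (contDiff_id.const_smul r)
  · have e : (fun x => (homoth p r hr).symm x) = fun x => r⁻¹ • (x - p) := rfl
    rw [e]
    exact (contDiff_id.sub contDiff_const).const_smul r⁻¹

private theorem prm_hom_jac (p : E3) (r : ℝ) (hr : r ≠ 0) (x : E3) :
    jac (fun y => homoth p r hr y) x = r ^ 3 := by
  have e : (fun x => homoth p r hr x) = fun x => p + r • x := rfl
  rw [e]
  unfold jac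
  have h1 : HasFDerivAt (fun y : E3 => p + r • y) (r • ContinuousLinearMap.id ℝ E3) x :=
    ((hasFDerivAt_id x).const_smul r).const_add p
  rw [h1.fderiv]
  have h2 : (r • ContinuousLinearMap.id ℝ E3).det
      = LinearMap.det (r • (LinearMap.id : E3 →ₗ[ℝ] E3)) := rfl
  rw [h2, LinearMap.det_smul, LinearMap.det_id, mul_one]
  congr 1
  simp

/-- conjugation with a homothety -/
theorem Ok.homoth {S T : Set E3} {f : Equiv.Perm E3} (hf : Ok S f) (p : E3) (r : ℝ) (hr : r ≠ 0)
    (h : ∀ x ∈ S, p + r • x ∈ T) : Ok T (homoth p r hr * f * (homoth p r hr)⁻¹) := by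
  have hg := prm_hom_dif p r hr
  refine ⟨(hg.mul hf.dif).mul hg.inv, fun x => ?_, (hf.off.conj _).mono ?_⟩
  · rw [(hg.mul hf.dif).jac_mul hg.inv, hg.jac_mul hf.dif, hg.jac_inv, hf.vol,
      prm_hom_jac, prm_hom_jac, mul_one, mul_inv_cancel₀ (pow_ne_zero 3 hr)]
  · rintro _ ⟨x, hx, rfl⟩
    exact h x hx

theorem OkZ.mul {S : Set E3} {f g : Equiv.Perm E3} (hf : OkZ S f) (hg : OkZ S g) :
    OkZ S (f * g) :=
  ⟨hf.toOk.mul hg.toOk, fun x => (hf.zp (g x)).trans (hg.zp x)⟩

theorem OkZ.inv {S : Set E3} {f : Equiv.Perm E3} (hf : OkZ S f) : OkZ S f⁻¹ := by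
  refine ⟨hf.toOk.inv, fun x => ?_⟩
  have h1 := hf.zp (f⁻¹ x)
  have h2 : f (f⁻¹ x) = x := f.apply_symm_apply x
  rw [h2] at h1
  exact h1.symm

theorem OkZ.one (S : Set E3) : OkZ S 1 := ⟨Ok.one S, fun _ => rfl⟩

theorem OkZ.mono {S T : Set E3} {f : Equiv.Perm E3} (hf : OkZ S f) (h : S ⊆ T) : OkZ T f :=
  ⟨hf.toOk.mono h, hf.zp⟩

theorem OkZ.rprod {S : Set E3} {p : ℕ} {e : Fin p → Equiv.Perm E3} (h : ∀ j, OkZ S (e j)) :
    OkZ S (rprod e) := by
  change OkZ S (List.ofFn e).reverse.prod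
  have key : ∀ l : List (Equiv.Perm E3), (∀ a ∈ l, OkZ S a) → OkZ S l.prod := by
    intro l
    induction l with
    | nil => intro _; rw [List.prod_nil]; exact OkZ.one S
    | cons a l ih =>
      intro hl
      rw [List.prod_cons]
      exact (hl a List.mem_cons_self).mul (ih fun b hb => hl b (List.mem_cons_of_mem a hb))
  refine key _ fun a ha => ?_
  rw [List.mem_reverse, List.mem_ofFn] at ha
  obtain ⟨j, rfl⟩ := ha
  exact h j

theorem disp_mul (f g : Equiv.Perm E3) (x : E3) :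
    disp (f * g) x = disp g x + disp f (x + disp g x) := by
  unfold disp
  rw [Equiv.Perm.mul_apply, add_sub_cancel]
  abel

/-- `disp f⁻¹ = - disp f ∘ (id + disp f⁻¹)` -/
theorem disp_inv (f : Equiv.Perm E3) (x : E3) :
    disp f⁻¹ x = - disp f (x + disp f⁻¹ x) := by
  unfold disp
  have h2 : f (f⁻¹ x) = x := f.apply_symm_apply x
  rw [add_sub_cancel, h2, neg_sub]

theorem disp_scl (f : Equiv.Perm E3) (r : ℝ) (hr : r ≠ 0) (x : E3) :
    disp (scl r hr f) x = r • disp f (r⁻¹ • x) := by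
  have e : scl r hr f x = (0 : E3) + r • f (r⁻¹ • (x - 0)) := rfl
  unfold disp
  rw [e, zero_add, sub_zero, smul_sub, smul_smul, mul_inv_cancel₀ hr, one_smul]

end Pool.Agent.QM59
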