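import Pool.Agent.Lib.MP_decea1_gt_C.Scl
import Pool.Agent.Lib.MP_decea1_gt_C.Prm

/-!
# MP_decea1_gt, block C, C4: handing over the fragments

`τ_j e_j τ_j⁻¹ = A_j e_j A_j⁻¹` (as maps): `e_j` is the identity off `closedBall (c_j) (1/20)`, which is
contained in `ball 0 12`, where `τ_j = A_j`. So `disp (τ_j e_j τ_j⁻¹) x = A_j (disp e_j (A_j⁻¹ x))`, the
third coordinate is preserved (`Hand.zp`), and the support is in `lam B0` (`Hand.maps`). Put
`f' = scl lam⁻¹ (rprod (τ_j e_j τ_j⁻¹))`. Bounds: `iteratedFDeriv` of compositions with linear maps,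
`scE5L`.
-/

set_option autoImplicit false

open MeasureTheory Set

namespace Pool.Agent.QM59

/-- a pair of inverse linear maps -/
private structure hnde_L (B B' : E3 →L[ℝ] E3) : Prop where
  l : ∀ x, B' (B x) = x
  r : ∀ x, B (B' x) = x

/-- the conjugate with a linear map -/
private def hnde_cj {B B' : E3 →L[ℝ] E3} (h : hnde_L B B') (e : Equiv.Perm E3) :
    Equiv.Perm E3 where
  toFun x := B (e (B' x))
  invFun x := B (e.symm (B' x))
  left_inv x := by simp [h.l, h.r]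
  right_inv x := by simp [h.l, h.r]

private theorem hnde_jac (B : E3 →L[ℝ] E3) (x : E3) : jac (fun y => B y) x = B.det := by
  unfold jac
  rw [show (fun y => B y) = (B : E3 → E3) from rfl, B.fderiv]

private theorem hnde_det {B B' : E3 →L[ℝ] E3} (h : hnde_L B B') : B.det * B'.det = 1 := by
  have h1 := jac_comp (fun y => B y) (fun y => B' y) 0 B.differentiableAt B'.differentiableAt
  rw [hnde_jac, hnde_jac] at h1
  rw [← h1]
  have h2 : (fun y => B (B' y)) = fun y : E3 => y := funext h.r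
  rw [h2]
  exact jac_id 0

private theorem hnde_ok {B B' : E3 →L[ℝ] E3} (h : hnde_L B B') {e : Equiv.Perm E3} {K T : Set E3}
    (he : Ok K e) (hT : ∀ x ∈ K, B x ∈ T) : Ok T (hnde_cj h e) := by
  refine ⟨⟨B.contDiff.comp (he.dif.1.comp B'.contDiff), B.contDiff.comp
    (he.dif.2.comp B'.contDiff)⟩, fun x => ?_, fun x hx => ?_⟩
  · have h1 : jac (fun y => B (e (B' y))) x = B.det * (jac (fun y => e y) (B' x) * B'.det) := by
      have h2 := jac_comp (fun y => B y) (fun y => e (B' y)) x B.differentiableAt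
        ((he.dif.differentiable _).comp x B'.differentiableAt)
      have h3 := jac_comp (fun y => e y) (fun y => B' y) x (he.dif.differentiable _)
        B'.differentiableAt
      rw [h2, h3, hnde_jac, hnde_jac]
    have h4 := he.vol (B' x)
    change jac (fun y => B (e (B' y))) x = 1
    rw [h1, h4, one_mul]
    exact hnde_det h
  · have h1 : B' x ∉ K := fun hK => hx (by
      have := hT _ hK
      rwa [h.r] at this)
    change B (e (B' x)) = x
    rw [he.off _ h1, h.r]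

private theorem hnde_bd {B B' : E3 →L[ℝ] E3} (h : hnde_L B B') {e : Equiv.Perm E3}
    (he : IsDif e) {K : ℕ} {N η c : ℝ} (hη : 0 ≤ η)
    (hb : Bd K N η c (disp e)) :
    Bd K N η (‖B‖ * ((max 1 ‖B'‖) ^ K * c)) (disp (hnde_cj h e)) := by
  have hs : ContDiff ℝ smo (disp e) := he.1.sub contDiff_id
  have h1 : disp (hnde_cj h e) = fun x => B (disp e (B' x)) := by
    funext x
    change B (e (B' x)) - x = B (e (B' x) - B' x)
    rw [map_sub, h.r]
  have hm : (1 : ℝ) ≤ max 1 ‖B'‖ := le_max_left _ _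
  have key : ∀ i ≤ K, ∀ x, ‖iteratedFDeriv ℝ i (fun x => disp e (B' x)) x‖
      ≤ (max 1 ‖B'‖) ^ K * ‖iteratedFDeriv ℝ i (disp e) (B' x)‖ := by
    intro i hi x
    have h2 : iteratedFDeriv ℝ i (disp e ∘ B') x
        = (iteratedFDeriv ℝ i (disp e) (B' x)).compContinuousLinearMap fun _ => B' :=
      B'.iteratedFDeriv_comp_right hs x (Nb.natCast_le_smo i)
    change ‖iteratedFDeriv ℝ i (disp e ∘ B') x‖ ≤ _
    rw [h2]
    refine (ContinuousMultilinearMap.norm_compContinuousLinearMap_le _ _).trans ?_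
    rw [Finset.prod_const, Finset.card_univ, Fintype.card_fin, mul_comm]
    refine mul_le_mul_of_nonneg_right ?_ (norm_nonneg _)
    calc ‖B'‖ ^ i ≤ (max 1 ‖B'‖) ^ i := pow_le_pow_left₀ (norm_nonneg _) (le_max_right _ _) i
      _ ≤ (max 1 ‖B'‖) ^ K := pow_le_pow_right₀ hm hi
  have h3 : Bd K N η ((max 1 ‖B'‖) ^ K * c) (fun x => disp e (B' x)) := by
    refine ⟨fun i hi x => (key i hi.le x).trans ?_, fun x => ?_⟩
    · rw [mul_assoc]
      exact mul_le_mul_of_nonneg_left (hb.1 i hi _) (by positivity)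
    · calc η * ‖iteratedFDeriv ℝ K (fun x => disp e (B' x)) x‖
          ≤ η * ((max 1 ‖B'‖) ^ K * ‖iteratedFDeriv ℝ K (disp e) (B' x)‖) :=
            mul_le_mul_of_nonneg_left (key K le_rfl x) hη
        _ = (max 1 ‖B'‖) ^ K * (η * ‖iteratedFDeriv ℝ K (disp e) (B' x)‖) := by ring
        _ ≤ (max 1 ‖B'‖) ^ K * (c * N ^ K) :=
            mul_le_mul_of_nonneg_left (hb.2 _) (by positivity)
        _ = (max 1 ‖B'‖) ^ K * c * N ^ K := by ring
  rw [h1]
  exact h3.clm (hs.comp B'.contDiff) B hη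

/-- the linear map `lam⁻¹ A_j` and its inverse -/
private theorem hnde_A (A : E3 ≃L[ℝ] E3) : hnde_L (lam⁻¹ • (A : E3 →L[ℝ] E3))
    ((A.symm : E3 →L[ℝ] E3).comp (lam • ContinuousLinearMap.id ℝ E3)) := by
  have hl := lam_ne
  refine ⟨fun x => ?_, fun x => ?_⟩
  · simp [smul_smul, hl]
  · simp [smul_smul, hl]

private theorem hnde_sub {F : Frag} (j : Fin F.p) :
    Metric.closedBall (F.c j) (1 / 20) ⊆ Metric.ball (0 : E3) 12 := by
  intro x hx
  obtain ⟨a0, a1, a2⟩ := F.mem j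
  rw [Metric.mem_closedBall, dist_eq_norm] at hx
  rw [Metric.mem_ball, dist_zero_right]
  have h1 : ‖F.c j‖ ≤ 10 := by
    rw [pi_norm_le_iff_of_nonneg (by norm_num)]
    intro i
    rw [Real.norm_eq_abs]
    rw [abs_le] at a0 a1 a2 ⊢
    fin_cases i
    · simp only [Fin.zero_eta]
      constructor <;> linarith
    · simp only [Fin.mk_one]
      constructor <;> linarith
    · simp only [Fin.reduceFinMk]
      constructor <;> linarith
  have h2 := norm_sub_norm_le x (F.c j)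
  linarith

private theorem hnde_eq {F : Frag} (H : Hand F) (j : Fin F.p) {e : Equiv.Perm E3}
    (he : IdOff (Metric.closedBall (F.c j) (1 / 20)) e) :
    H.τ j * e * (H.τ j)⁻¹ = homoth 0 lam lam_ne * hnde_cj (hnde_A (H.A j)) e
      * (homoth 0 lam lam_ne)⁻¹ := by
  have hl := lam_ne
  rw [mul_inv_eq_iff_eq_mul]
  ext1 y
  rw [Equiv.Perm.mul_apply, Equiv.Perm.mul_apply, Equiv.Perm.mul_apply, Equiv.Perm.mul_apply]
  have h0 : ∀ z, (homoth 0 lam hl) ((hnde_cj (hnde_A (H.A j)) e) ((homoth 0 lam hl)⁻¹ z))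
      = H.A j (e ((H.A j).symm z)) := by
    intro z
    change (0 : E3) + lam • (lam⁻¹ • H.A j (e ((H.A j).symm (lam • (lam⁻¹ • (z - 0)))))) = _
    rw [zero_add, smul_smul, smul_smul, mul_inv_cancel₀ hl, one_smul, one_smul, sub_zero]
  have h1 : ∀ z ∈ Metric.closedBall (F.c j) (1 / 20), H.τ j z = H.A j z := fun z hz =>
    H.eq j z (hnde_sub j hz)
  rw [h0]
  by_cases hy : y ∈ Metric.closedBall (F.c j) (1 / 20)
  · have h2 : e y ∈ Metric.closedBall (F.c j) (1 / 20) := (he.mem_iff y).mpr hy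
    rw [h1 y hy, h1 _ h2, ContinuousLinearEquiv.symm_apply_apply]
  · rw [he y hy]
    have h3 : (H.A j).symm (H.τ j y) ∉ Metric.closedBall (F.c j) (1 / 20) := by
      intro h4
      have h5 := h1 _ h4
      rw [ContinuousLinearEquiv.apply_symm_apply] at h5
      have h6 := (H.τ j).injective h5
      rw [h6] at h4
      exact hy h4
    rw [he _ h3, ContinuousLinearEquiv.apply_symm_apply]

private theorem hnde_okz {F : Frag} (H : Hand F) (j : Fin F.p) {e : Equiv.Perm E3}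
    (he : OkZ (Metric.closedBall (F.c j) (1 / 20)) e) :
    OkZ B0 (hnde_cj (hnde_A (H.A j)) e) := by
  refine ⟨hnde_ok _ he.toOk fun x hx => H.maps j x hx, fun x => ?_⟩
  obtain ⟨μ, hμ⟩ := H.zp j
  have hl := lam_ne
  have h1 : ∀ z, (lam⁻¹ • H.A j z) 2 = lam⁻¹ * (μ * z 2) := by
    intro z
    rw [Pi.smul_apply, hμ, smul_eq_mul]
  change (lam⁻¹ • H.A j (e ((H.A j).symm (lam • x)))) 2 = x 2
  rw [h1, he.zp, ← h1, ContinuousLinearEquiv.apply_symm_apply, smul_smul, inv_mul_cancel₀ hl,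
    one_smul]

private theorem hnde_conj_rprod {p : ℕ} (c : Equiv.Perm E3) (g : Fin p → Equiv.Perm E3) :
    c * rprod g * c⁻¹ = rprod fun j => c * g j * c⁻¹ := by
  have h1 : c * rprod g * c⁻¹ = MulAut.conj c (rprod g) := rfl
  rw [h1]
  unfold rprod
  rw [map_list_prod, List.map_reverse, List.map_ofFn]
  rfl

private theorem hnde_okz_rprod {p : ℕ} {T : Set E3} (g : Fin p → Equiv.Perm E3)
    (h : ∀ j, OkZ T (g j)) : OkZ T (rprod g) := by
  unfold rprod
  refine List.prod_induction (OkZ T) (fun a b ha hb => ha.mul hb) (OkZ.one T) ?_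
  intro x hx
  rw [List.mem_reverse, List.mem_ofFn] at hx
  obtain ⟨j, rfl⟩ := hx
  exact h j

theorem hnd_exists {F : Frag} (H : Hand F) : ∃ (C κ : ℕ → ℝ), (∀ K, 1 ≤ C K) ∧ (∀ K, 0 < κ K) ∧
    ∀ e : Fin F.p → Equiv.Perm E3,
      (∀ j, OkZ (Metric.closedBall (F.c j) (1 / 20)) (e j)) →
      ∃ f' : Equiv.Perm E3, OkZ B0 f' ∧
        scl lam lam_ne f' = rprod (fun j => H.τ j * e j * (H.τ j)⁻¹) ∧
        ∀ (K : ℕ) (N η c : ℝ), 2 ≤ K → 1 ≤ N → 0 < η → η ≤ 1 → 0 ≤ c → N * c ≤ κ K →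
          (∀ j, Bd K N η c (disp (e j))) → Bd K N η (C K * c) (disp f') := by
  -- a common bound for the linear maps
  obtain ⟨m, hm1, hm⟩ : ∃ m : ℝ, 1 ≤ m ∧ ∀ j, ‖(lam⁻¹ • (H.A j : E3 →L[ℝ] E3))‖ ≤ m ∧
      ‖((H.A j).symm : E3 →L[ℝ] E3).comp (lam • ContinuousLinearMap.id ℝ E3)‖ ≤ m := by
    refine ⟨1 + ∑ j, (‖(lam⁻¹ • (H.A j : E3 →L[ℝ] E3))‖ +
      ‖((H.A j).symm : E3 →L[ℝ] E3).comp (lam • ContinuousLinearMap.id ℝ E3)‖), ?_, fun j => ?_⟩
    · have : 0 ≤ ∑ j, (‖(lam⁻¹ • (H.A j : E3 →L[ℝ] E3))‖ +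
        ‖((H.A j).symm : E3 →L[ℝ] E3).comp (lam • ContinuousLinearMap.id ℝ E3)‖) :=
        Finset.sum_nonneg fun j _ => by positivity
      linarith
    · have h1 := Finset.single_le_sum (f := fun j => ‖(lam⁻¹ • (H.A j : E3 →L[ℝ] E3))‖ +
        ‖((H.A j).symm : E3 →L[ℝ] E3).comp (lam • ContinuousLinearMap.id ℝ E3)‖)
        (fun j _ => by positivity) (Finset.mem_univ j)
      constructor
      · linarith [norm_nonneg (((H.A j).symm : E3 →L[ℝ] E3).comp
          (lam • ContinuousLinearMap.id ℝ E3))]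
      · linarith [norm_nonneg (lam⁻¹ • (H.A j : E3 →L[ℝ] E3))]
  have hm0 : 0 < m := by linarith
  have hK : ∀ K : ℕ, ∃ C κ : ℝ, 1 ≤ C ∧ 0 < κ ∧ (2 ≤ K →
      ∀ (e : Fin F.p → Equiv.Perm E3) (N η c : ℝ), (∀ j, IsDif (e j)) → 0 < N → 0 < η → η ≤ 1 →
      0 ≤ c → N * c ≤ κ → (∀ j, Bd K N η c (disp (e j))) →
      Bd K N η (C * c) (disp (rprod e))) := by
    intro K
    by_cases h : 2 ≤ K
    · obtain ⟨C, κ, h1, h2, h3⟩ := scE5L K F.p h
      exact ⟨C, κ, h1, h2, fun _ => h3⟩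
    · exact ⟨1, 1, le_rfl, one_pos, fun h' => absurd h' h⟩
  choose C κ hC hκ hE using hK
  refine ⟨fun K => C K * (m * m ^ K), fun K => κ K / (m * m ^ K), fun K => ?_, fun K => ?_, ?_⟩
  · have h1 : (1 : ℝ) ≤ m ^ K := one_le_pow₀ hm1
    have h2 : (1 : ℝ) ≤ m * m ^ K := by nlinarith
    have := hC K
    simp only
    nlinarith
  · have := hκ K
    simp only
    positivity
  intro e he
  have hg : ∀ j, OkZ B0 (hnde_cj (hnde_A (H.A j)) (e j)) := fun j => hnde_okz H j (he j)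
  refine ⟨rprod fun j => hnde_cj (hnde_A (H.A j)) (e j), hnde_okz_rprod _ hg, ?_, ?_⟩
  · unfold scl
    rw [hnde_conj_rprod]
    congr 1
    funext j
    exact (hnde_eq H j (he j).off).symm
  · intro K N η c hK2 hN hη hη1 hc hNc hb
    have h1 : ∀ j, Bd K N η (m * m ^ K * c) (disp (hnde_cj (hnde_A (H.A j)) (e j))) := by
      intro j
      have h2 := hnde_bd (hnde_A (H.A j)) (he j).dif hη.le (hb j)
      refine h2.mono (by linarith) ?_
      obtain ⟨m1, m2⟩ := hm j
      have h3 : max 1 ‖((H.A j).symm : E3 →L[ℝ] E3).comp (lam • ContinuousLinearMap.id ℝ E3)‖ ≤ m :=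
        max_le hm1 m2
      rw [mul_assoc]
      refine mul_le_mul m1 ?_ (by positivity) hm0.le
      exact mul_le_mul_of_nonneg_right (pow_le_pow_left₀ (by positivity) h3 K) hc
    have h4 : N * (m * m ^ K * c) ≤ κ K := by
      have h5 : 0 < m * m ^ K := by positivity
      simp only at hNc
      rw [le_div_iff₀ h5] at hNc
      calc N * (m * m ^ K * c) = N * c * (m * m ^ K) := by ring
        _ ≤ κ K := hNc
    have h6 := hE K hK2 _ N η (m * m ^ K * c) (fun j => (hg j).dif) (by linarith) hη hη1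
      (by positivity) h4 h1
    refine h6.mono (by linarith) (le_of_eq ?_)
    simp only
    ring

end Pool.Agent.QM59
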