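import Pool.Agent.Lib.MP_decea1_gt_C.Cmp
import Pool.Agent.Lib.MP_decea1_gt_C.Prm

/-!
# MP_decea1_gt, block C, C0: inverse (E4) at scale one

With `v = disp f`, `w = disp f⁻¹`: `w = - v ∘ (id + w)`. See `Nb.NB.inv` in `Norms.lean`:
`Dw = -A - A ∘ Dw` with `A = Dv ∘ (id + w)`, `|A| ≤ 1/2`; the term `j = 0` of the Leibniz formula for
`D^K (A ∘ Dw)` is absorbed.
-/

set_option autoImplicit false

open MeasureTheory Set

namespace Pool.Agent.QM59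

/-- E4 -/
theorem invE4 (K : ℕ) (hK : 2 ≤ K) : ∃ C κ : ℝ, 1 ≤ C ∧ 0 < κ ∧ κ ≤ 1 / 2 ∧
    ∀ (f : Equiv.Perm E3) (η c : ℝ), IsDif f → 0 < η → η ≤ 1 → 0 ≤ c → c ≤ κ →
      Bu K η c (disp f) → Bu K η (C * c) (disp f⁻¹) := by
  have hC := Nb.one_le_cN K
  have hC0 := Nb.cN_pos K
  refine ⟨2 * Nb.cN K, (2 * Nb.cN K)⁻¹, by linarith, by positivity, ?_, ?_⟩
  · rw [one_div]
    exact inv_anti₀ two_pos (by linarith)
  · intro f η c hf hη h1 hc hcκ hb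
    have h2 : 2 * Nb.cN K * c ≤ 1 := by
      have h3 := mul_le_mul_of_nonneg_left hcκ (by positivity : 0 ≤ 2 * Nb.cN K)
      rwa [mul_inv_cancel₀ (by positivity)] at h3
    have hc2 : c ≤ 1 / 2 := by nlinarith
    refine Nb.NB.inv K (by omega) hη.le h1 hf.contDiff_disp hf.inv.contDiff_disp
      (disp_inv f) (fun x => ?_) hb h2
    exact (Nb.NB.norm_fderiv_le hb hK x).trans hc2

end Pool.Agent.QM59
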