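import Pool.Agent.Lib.MP_decea1_gt_C.StH
import Pool.Agent.Lib.MP_decea1_gt_C.FrgE
import Pool.Agent.Lib.MP_decea1_gt_C.HndE

/-!
# MP_decea1_gt (S14098), block C: the step (C4 of the text)
-/

set_option autoImplicit false

open MeasureTheory Set

namespace Pool.Agent.QM59

/-- What the step gives for `f` at scale `N`: elements `g_l = G_{u_l}`, fragments `e_j` and the next
map `f'`. -/
structure StepOut {F : Frag} (H : Hand F) (S : Std) (N : ℝ) (f : Equiv.Perm E3)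
    (g : Fin 4 → Equiv.Perm E3) (e : Fin F.p → Equiv.Perm E3) (f' : Equiv.Perm E3) : Prop where
  okg : ∀ l, Ok B1 (g l)
  oke : ∀ j, OkZ (Metric.closedBall (F.c j) (1 / 20)) (e j)
  oke2 : ∀ j, IdOff B2 (e j)
  okf : OkZ B0 f'
  eq : f = K0 g (S.T (N⁻¹ ^ 2)) * rprod e
  hand : scl lam lam_ne f' = rprod fun j => H.τ j * e j * (H.τ j)⁻¹

/-- The bounds of the step. -/
structure StepBd {p : ℕ} (K : ℕ) (N q η : ℝ) (g : Fin 4 → Equiv.Perm E3)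
    (e : Fin p → Equiv.Perm E3) (f' : Equiv.Perm E3) : Prop where
  bf : Bd K (N ^ (3 / 2 : ℝ)) η ((N ^ (3 / 2 : ℝ)) ^ (-(7 / 6 * q))) (disp f')
  be : ∀ j, Bd K (N ^ (3 / 2 : ℝ)) η ((N ^ (3 / 2 : ℝ)) ^ (-(7 / 6 * q))) (disp (e j))
  bg : ∀ l, ∀ i ≤ K, ∀ x, ‖iteratedFDeriv ℝ i (disp (g l)) x‖ ≤ N ^ (2 * (i : ℝ) + 5 - q)

private theorem step_cube {c : E3} (hc : c ∈ B1) : Metric.closedBall c (1 / 20) ⊆ B2 := by
  intro x hx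
  rw [Metric.mem_closedBall, dist_eq_norm] at hx
  have h0 := (norm_le_pi_norm (x - c) 0).trans hx
  have h1 := (norm_le_pi_norm (x - c) 1).trans hx
  have h2 := (norm_le_pi_norm (x - c) 2).trans hx
  obtain ⟨a0, a1, a2⟩ := hc
  simp only [Pi.sub_apply, Real.norm_eq_abs] at h0 h1 h2
  rw [abs_le] at h0 h1 h2 a0 a1 a2
  refine ⟨?_, ?_, ?_⟩ <;> rw [abs_le] <;> constructor <;> linarith

/-- the smallness conditions -/
private theorem step_num (CF CH κF κH q : ℝ) (hCF : 1 ≤ CF) (hCH : 1 ≤ CH) (hκF : 0 < κF)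
    (hκH : 0 < κH) (hq : 40 ≤ q) : ∃ N0 : ℝ, 1 ≤ N0 ∧ ∀ N, N0 ≤ N →
      N ^ (3 / 2 : ℝ) * N ^ (-(7 / 4 * q) - 3 / 2) ≤ κF ∧
      N ^ (3 / 2 : ℝ) * (CF * N ^ (-(7 / 4 * q) - 3 / 2)) ≤ κH ∧
      CF * N ^ (-(7 / 4 * q) - 3 / 2) ≤ (N ^ (3 / 2 : ℝ)) ^ (-(7 / 6 * q)) ∧
      CH * (CF * N ^ (-(7 / 4 * q) - 3 / 2)) ≤ (N ^ (3 / 2 : ℝ)) ^ (-(7 / 6 * q)) := by
  obtain ⟨Na, ha1, ha⟩ := absorb_small 1 zero_le_one (κ := κF) (x := -(7 / 4 * q)) hκF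
    (by linarith)
  obtain ⟨Nb, hb1, hb⟩ := absorb_small CF (by linarith) (κ := κH) (x := -(7 / 4 * q)) hκH
    (by linarith)
  obtain ⟨Nc, hc1, hc⟩ := absorb_small (CH * CF) (by positivity) (κ := 1) (x := -(3 / 2))
    one_pos (by norm_num)
  refine ⟨max Na (max Nb Nc), le_max_of_le_left ha1, fun N hN => ?_⟩
  have hNa : Na ≤ N := (le_max_left _ _).trans hN
  have hNb : Nb ≤ N := ((le_max_left _ _).trans (le_max_right _ _)).trans hN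
  have hNc : Nc ≤ N := ((le_max_right _ _).trans (le_max_right _ _)).trans hN
  have hN1 : 1 ≤ N := ha1.trans hNa
  have hN0 : 0 < N := by linarith
  have e1 : N ^ (3 / 2 : ℝ) * N ^ (-(7 / 4 * q) - 3 / 2) = N ^ (-(7 / 4 * q)) := by
    rw [← Real.rpow_add hN0]
    congr 1
    ring
  have e2 : (N ^ (3 / 2 : ℝ)) ^ (-(7 / 6 * q)) = N ^ (-(7 / 4 * q)) := by
    rw [← Real.rpow_mul hN0.le]
    congr 1
    ring
  have e3 : N ^ (-(7 / 4 * q) - 3 / 2) = N ^ (-(7 / 4 * q)) * N ^ (-(3 / 2) : ℝ) := by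
    rw [← Real.rpow_add hN0]
    congr 1
  have hp : 0 < N ^ (-(7 / 4 * q)) := Real.rpow_pos_of_pos hN0 _
  have hp' : 0 < N ^ (-(3 / 2) : ℝ) := Real.rpow_pos_of_pos hN0 _
  have k1 := ha N hNa
  have k2 := hb N hNb
  have k3 := hc N hNc
  rw [one_mul] at k1
  have k4 : CF * N ^ (-(3 / 2) : ℝ) ≤ 1 := by
    refine le_trans ?_ k3
    have : 0 ≤ CF * N ^ (-(3 / 2) : ℝ) := by positivity
    nlinarith
  refine ⟨by rw [e1]; exact k1, ?_, ?_, ?_⟩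
  · calc N ^ (3 / 2 : ℝ) * (CF * N ^ (-(7 / 4 * q) - 3 / 2))
        = CF * (N ^ (3 / 2 : ℝ) * N ^ (-(7 / 4 * q) - 3 / 2)) := by ring
      _ ≤ κH := by rw [e1]; exact k2
  · rw [e2, e3]
    calc CF * (N ^ (-(7 / 4 * q)) * N ^ (-(3 / 2) : ℝ))
        = N ^ (-(7 / 4 * q)) * (CF * N ^ (-(3 / 2) : ℝ)) := by ring
      _ ≤ N ^ (-(7 / 4 * q)) * 1 := by gcongr
      _ = N ^ (-(7 / 4 * q)) := mul_one _
  · rw [e2, e3]
    calc CH * (CF * (N ^ (-(7 / 4 * q)) * N ^ (-(3 / 2) : ℝ)))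
        = N ^ (-(7 / 4 * q)) * (CH * CF * N ^ (-(3 / 2) : ℝ)) := by ring
      _ ≤ N ^ (-(7 / 4 * q)) * 1 := by gcongr
      _ = N ^ (-(7 / 4 * q)) := mul_one _

/-- STEP. The construction does not depend on `K`, `q`, `η`. -/
theorem step {F : Frag} (H : Hand F) (S : Std) : ∃ (N1 : ℝ) (Ns : ℕ → ℝ → ℝ), 1 ≤ N1 ∧
    ∀ (N : ℝ) (r : ℕ) (f : Equiv.Perm E3), N1 ≤ N → 149 ≤ r → (8 : ℝ) ^ r ≤ N ^ (1 / 8 : ℝ) →
      OkZ B0 f → Bd 150 N 1 (N ^ (-40 : ℝ)) (disp f) →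
      ∃ (g : Fin 4 → Equiv.Perm E3) (e : Fin F.p → Equiv.Perm E3) (f' : Equiv.Perm E3),
        StepOut H S N f g e f' ∧
        ∀ (K : ℕ) (q η : ℝ), 40 ≤ q → 3 * q + 30 ≤ K → K ≤ r + 1 → 0 < η → η ≤ 1 → Ns K q ≤ N →
          Bd K N η (N ^ (-q)) (disp f) → StepBd K N q η g e f' := by
  obtain ⟨cs, cl, cl', Na, hNa1, hcs, hcl, hcl', hcon⟩ := exists_con
  obtain ⟨c0, CF, κF, hc0, hCF, hκF, hfrg⟩ := frg_exists F
  obtain ⟨CH, κH, hCH, hκH, hhnd⟩ := hnd_exists H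
  obtain ⟨Nb, hNb1, hNb⟩ := phi_pow cs cl cl' hcs hcl hcl' S 150 40 le_rfl (by norm_num)
  obtain ⟨Nc, hNc1, hNc⟩ := absorb_small 1 zero_le_one (κ := min c0 (1 / 8)) (x := -1)
    (by positivity) (by norm_num)
  obtain ⟨Nd, hNd1, hNd⟩ := absorb_small 1 zero_le_one (κ := min S.g0 (1 / 14)) (x := -1)
    (lt_min S.pos (by norm_num)) (by norm_num)
  have hns : ∀ (K : ℕ) (q : ℝ), ∃ N0 : ℝ, 40 ≤ q → 3 * q + 30 ≤ K →
      (1 ≤ N0 ∧ (∀ (N : ℝ) (r : ℕ) (f : Equiv.Perm E3) (S0 h : E3 → ℝ) (u : Fin 4 → E3 → ℝ)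
        (e : E3 → ℝ) (η : ℝ), Con cs cl cl' N r f S0 h u e → N0 ≤ N →
        (8 : ℝ) ^ r ≤ N ^ (1 / 8 : ℝ) →
        K ≤ r + 1 → 0 < η → η ≤ 1 → Bd K N η (N ^ (-q)) (disp f) →
        Sm h ∧ (∀ l, Sm (u l)) ∧ (∀ l, Sm (ut (N⁻¹ ^ 2) u l)) ∧
        (∀ l, ∀ i ≤ K, ∀ x, ‖iteratedFDeriv ℝ i (disp (Gp (u l))) x‖ ≤
          N ^ (2 * (i : ℝ) + 5 - q)) ∧
        Bd K (N ^ (3 / 2 : ℝ)) η (N ^ (-(7 / 4 * q) - 3 / 2))
          (disp ((K0 (fun l => Gp (u l)) (S.T (N⁻¹ ^ 2)))⁻¹ * f))) ∧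
        ∀ N, N0 ≤ N →
          N ^ (3 / 2 : ℝ) * N ^ (-(7 / 4 * q) - 3 / 2) ≤ κF K ∧
          N ^ (3 / 2 : ℝ) * (CF K * N ^ (-(7 / 4 * q) - 3 / 2)) ≤ κH K ∧
          CF K * N ^ (-(7 / 4 * q) - 3 / 2) ≤ (N ^ (3 / 2 : ℝ)) ^ (-(7 / 6 * q)) ∧
          CH K * (CF K * N ^ (-(7 / 4 * q) - 3 / 2)) ≤ (N ^ (3 / 2 : ℝ)) ^ (-(7 / 6 * q))) := by
    intro K q
    by_cases hq : 40 ≤ q ∧ 3 * q + 30 ≤ K
    · obtain ⟨n1, h1, h2⟩ := phi_pow cs cl cl' hcs hcl hcl' S K q hq.1 hq.2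
      obtain ⟨n2, h3, h4⟩ := step_num (CF K) (CH K) (κF K) (κH K) q (hCF K) (hCH K) (hκF K)
        (hκH K) hq.1
      refine ⟨max n1 n2, fun _ _ => ⟨le_max_of_le_left h1, ?_, ?_⟩⟩
      · intro N r f S0 h u e η a1 a2
        exact h2 N r f S0 h u e η a1 ((le_max_left _ _).trans a2)
      · exact fun N hN => h4 N ((le_max_right _ _).trans hN)
    · exact ⟨0, fun h1 h2 => absurd ⟨h1, h2⟩ hq⟩
  choose Ns hNs using hns
  refine ⟨max (max Na Nb) (max Nc Nd), Ns, le_max_of_le_left (le_max_of_le_left hNa1), ?_⟩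
  intro N r f hN hr h8 hf hb
  have hNa' : Na ≤ N := ((le_max_left _ _).trans (le_max_left _ _)).trans hN
  have hNb' : Nb ≤ N := ((le_max_right _ _).trans (le_max_left _ _)).trans hN
  have hNc' : Nc ≤ N := ((le_max_left _ _).trans (le_max_right _ _)).trans hN
  have hNd' : Nd ≤ N := ((le_max_right _ _).trans (le_max_right _ _)).trans hN
  have hN1 : 1 ≤ N := hNa1.trans hNa'
  have hN0 : 0 < N := by linarith
  have kc := hNc N hNc'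
  have kd := hNd N hNd'
  rw [one_mul] at kc kd
  have hf1 : ∀ x, ‖fderiv ℝ (disp f) x‖ ≤ 1 / 8 := by
    intro x
    have h1 := hb.1 1 (by norm_num) x
    rw [norm_iteratedFDeriv_one, pow_one] at h1
    refine h1.trans (le_trans ?_ (kc.trans (min_le_right _ _)))
    nth_rw 2 [← Real.rpow_one N]
    rw [← Real.rpow_add hN0]
    exact Real.rpow_le_rpow_of_exponent_le hN1 (by norm_num)
  obtain ⟨S0, h, u, e0, hC⟩ := hcon N r f hNa' h8 hf hf1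
  obtain ⟨sh, su, sut, -, hφ⟩ := hNb N r f S0 h u e0 1 hC hNb' h8 (by omega) one_pos le_rfl
    (by simpa using hb)
  have hγ0 : 0 < N⁻¹ ^ 2 := by positivity
  have hγ1 : N⁻¹ ^ 2 ≤ N ^ (-1 : ℝ) := by
    rw [Real.rpow_neg_one]
    have h1 : N⁻¹ ≤ 1 := inv_le_one_of_one_le₀ hN1
    have h2 : 0 ≤ N⁻¹ := by positivity
    nlinarith
  have hγ2 : N⁻¹ ^ 2 ≤ S.g0 := hγ1.trans (kd.trans (min_le_left _ _))
  have hγ3 : N⁻¹ ^ 2 ≤ 1 / 14 := hγ1.trans (kd.trans (min_le_right _ _))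
  set φ : Equiv.Perm E3 := (K0 (fun l => Gp (u l)) (S.T (N⁻¹ ^ 2)))⁻¹ * f with hφd
  have okφ : OkZ B1 φ := phi_okZ S hγ0 hγ2 hγ3 su sut hC.lin.u0 hf
  have hNp : 0 < N ^ (3 / 2 : ℝ) := Real.rpow_pos_of_pos hN0 _
  have hNp1 : 1 ≤ N ^ (3 / 2 : ℝ) := Real.one_le_rpow hN1 (by norm_num)
  have b0 : ∀ x, ‖disp φ x‖ ≤ c0 := by
    intro x
    have h1 := hφ.1 0 (by norm_num) x
    rw [norm_iteratedFDeriv_zero, pow_zero, mul_one] at h1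
    refine h1.trans (le_trans ?_ (kc.trans (min_le_left _ _)))
    exact Real.rpow_le_rpow_of_exponent_le hN1 (by norm_num)
  have b1 : ∀ x, ‖fderiv ℝ (disp φ) x‖ ≤ c0 := by
    intro x
    have h1 := hφ.1 1 (by norm_num) x
    rw [norm_iteratedFDeriv_one, pow_one, ← Real.rpow_add hN0] at h1
    refine h1.trans (le_trans ?_ (kc.trans (min_le_left _ _)))
    exact Real.rpow_le_rpow_of_exponent_le hN1 (by norm_num)
  obtain ⟨e, oke, hφe, hbe⟩ := hfrg φ okφ b0 b1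
  obtain ⟨f', okf', hf', hbf⟩ := hhnd e oke
  refine ⟨fun l => Gp (u l), e, f', ⟨fun l => (g_ok su hC.lin.u0 l).toOk, oke, ?_, okf', ?_, hf'⟩, ?_⟩
  · intro j x hx
    exact (oke j).off x fun hx' => hx (step_cube (F.mem j) hx')
  · rw [← hφe, hφd, mul_inv_cancel_left]
  · intro K q η hq hK hKr hη hη1 hN2 hbd
    obtain ⟨-, hph, hnum⟩ := hNs K q hq hK
    obtain ⟨-, -, -, bg, bφ⟩ := hph N r f S0 h u e0 η hC hN2 h8 hKr hη hη1 hbd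
    obtain ⟨n1, n2, n3, n4⟩ := hnum N hN2
    have hK2 : 2 ≤ K := by
      have : (150 : ℝ) ≤ K := by linarith
      have h3 : (150 : ℕ) ≤ K := by exact_mod_cast this
      omega
    have hp : 0 ≤ N ^ (-(7 / 4 * q) - 3 / 2) := (Real.rpow_pos_of_pos hN0 _).le
    have hbe' := hbe K _ η _ hK2 hNp1 hη hη1 hp n1 bφ
    have hp2 : 0 ≤ CF K * N ^ (-(7 / 4 * q) - 3 / 2) := mul_nonneg (by linarith [hCF K]) hp
    have hbf' := hbf K _ η _ hK2 hNp1 hη hη1 hp2 n2 hbe'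
    exact ⟨hbf'.mono hNp.le n4, fun j => (hbe' j).mono hNp.le n3, bg⟩

end Pool.Agent.QM59
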