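import Mathlib
import Pool.Agent.Lib.MP_decea1_gt_C.NNx
import Pool.Agent.Lib.MP_decea1_gt_C.Step
import Pool.Agent.Lib.MP_decea1_gt_C.Gl3

/-!
# MP_decea1_gt, block C, module It1: the sequence of the iteration (C5)

`r_n = n + 149`, `K_0 = 150`, `q_0 = 40`.
-/

set_option autoImplicit false

open MeasureTheory Set Filter

namespace Pool.Agent.QM59

/-- A run of the iteration. -/
structure Run {F : Frag} (H : Hand F) (S : Std) (N0 : ℝ) (Ns : ℕ → ℝ → ℝ)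
    (f : ℕ → Equiv.Perm E3) (g : ℕ → Fin 4 → Equiv.Perm E3)
    (e : ℕ → Fin F.p → Equiv.Perm E3) : Prop where
  one : 4 ≤ N0
  gam : ∀ n, 0 < (NN N0 n)⁻¹ ^ 2 ∧ (NN N0 n)⁻¹ ^ 2 ≤ S.g0
  std : S.C 1 ≤ N0
  th : Ns 150 40 ≤ N0
  okf : ∀ n, OkZ B0 (f n)
  bd : ∀ n, Bd 150 (NN N0 n) 1 (NN N0 n ^ (-40 : ℝ)) (disp (f n))
  out : ∀ n, StepOut H S (NN N0 n) (f n) (g n) (e n) (f (n + 1))
  est : ∀ (n K : ℕ) (q η : ℝ), 40 ≤ q → 3 * q + 30 ≤ K → K ≤ n + 150 → 0 < η → η ≤ 1 →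
    Ns K q ≤ NN N0 n → Bd K (NN N0 n) η (NN N0 n ^ (-q)) (disp (f n)) →
      StepBd K (NN N0 n) q η (g n) (e n) (f (n + 1))

/-- The bounds of a step in the form in which they are used: one unit of decay is gained.
From `est`, `NN_succ` and `7/6 q ≥ q + 1` (as `q ≥ 40`), `1 ≤ NN`, `Bd.mono_c`. -/
theorem Run.next {F : Frag} {H : Hand F} {S : Std} {N0 : ℝ} {Ns : ℕ → ℝ → ℝ}
    {f : ℕ → Equiv.Perm E3} {g : ℕ → Fin 4 → Equiv.Perm E3} {e : ℕ → Fin F.p → Equiv.Perm E3}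
    (R : Run H S N0 Ns f g e) (n K q : ℕ) (η : ℝ) (hq : 40 ≤ q) (hK : 3 * q + 30 ≤ K)
    (hn : K ≤ n + 150) (hη : 0 < η) (hη1 : η ≤ 1) (hN : Ns K q ≤ NN N0 n)
    (h : Bd K (NN N0 n) η (NN N0 n ^ (-(q : ℝ))) (disp (f n))) :
    Bd K (NN N0 (n + 1)) η (NN N0 (n + 1) ^ (-((q : ℝ) + 1))) (disp (f (n + 1))) ∧
      (∀ j, Bd K (NN N0 (n + 1)) η (NN N0 (n + 1) ^ (-((q : ℝ) + 1))) (disp (e n j))) ∧
      ∀ l, ∀ i ≤ K, ∀ x,
        ‖iteratedFDeriv ℝ i (disp (g n l)) x‖ ≤ NN N0 n ^ (2 * (i : ℝ) + 5 - q) := by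
  have h1 : 1 ≤ N0 := by linarith [R.one]
  have hq' : (40 : ℝ) ≤ q := by exact_mod_cast hq
  have hK' : 3 * (q : ℝ) + 30 ≤ K := by exact_mod_cast hK
  have hb := R.est n K q η hq' hK' hn hη hη1 hN h
  have hNN : 1 ≤ NN N0 (n + 1) := one_le_NN h1 (n + 1)
  have hpow : NN N0 (n + 1) ^ (-(7 / 6 * (q : ℝ))) ≤ NN N0 (n + 1) ^ (-((q : ℝ) + 1)) :=
    Real.rpow_le_rpow_of_exponent_le hNN (by linarith)
  obtain ⟨bf, be, bg⟩ := hb
  rw [← NN_succ h1 n] at bf be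
  exact ⟨bf.mono_c (by linarith) hpow, fun j => (be j).mono_c (by linarith) hpow, bg⟩

/-- Existence of runs. Take `N1`, `Ns` from `step H S` and `N0` at least `4`, `N1`,
`8 ^ (8 * 149)`, `S.C 1`, `Ns 150 40`, and with `(N0⁻¹)^2 ≤ S.g0` (then
`(NN n)⁻¹ ^ 2 ≤ (N0⁻¹)^2`). One step: if `OkZ B0 f` and `Bd 150 (NN n) 1 (NN n ^ (-40)) (disp f)`,
then `step` with `N = NN N0 n`, `r = n + 149` (`eight_pow_le`) gives `g e f'`, and the estimate with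
`K = 150`, `q = 40`, `η = 1` (`Ns 150 40 ≤ N0 ≤ NN n`) gives `Bd 150 (NN (n+1)) 1` with
`(NN (n+1))^(-(7/6*40)) ≤ (NN (n+1))^(-40)`. Iterate by recursion (on the subtype of all `f` which
satisfy the two conditions for `n`, depending on `n`, or use the pairs `(n, f)`), then
choose `g n`, `e n`. -/
theorem exists_run {F : Frag} (H : Hand F) (S : Std) : ∃ (N0 : ℝ) (Ns : ℕ → ℝ → ℝ), 4 ≤ N0 ∧
    ∀ f : Equiv.Perm E3, OkZ B0 f → Bd 150 N0 1 (N0 ^ (-40 : ℝ)) (disp f) →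
      ∃ (fs : ℕ → Equiv.Perm E3) (g : ℕ → Fin 4 → Equiv.Perm E3)
        (e : ℕ → Fin F.p → Equiv.Perm E3), fs 0 = f ∧ Run H S N0 Ns fs g e := by
  classical
  obtain ⟨N1, Ns, hN1, hstep⟩ := step H S
  obtain ⟨N0, hN0⟩ : ∃ N0 : ℝ, N0 = max (max (max 4 N1) (max ((8 : ℝ) ^ (8 * 149)) (S.C 1)))
      (max (Ns 150 40) S.g0⁻¹) := ⟨_, rfl⟩
  have a4 : 4 ≤ N0 := by
    rw [hN0]
    exact (le_max_left _ _).trans ((le_max_left _ _).trans (le_max_left _ _))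
  have aN1 : N1 ≤ N0 := by
    rw [hN0]
    exact (le_max_right _ _).trans ((le_max_left _ _).trans (le_max_left _ _))
  have a8 : (8 : ℝ) ^ (8 * 149) ≤ N0 := by
    rw [hN0]
    exact (le_max_left _ _).trans ((le_max_right _ _).trans (le_max_left _ _))
  have aC : S.C 1 ≤ N0 := by
    rw [hN0]
    exact (le_max_right _ _).trans ((le_max_right _ _).trans (le_max_left _ _))
  have aNs : Ns 150 40 ≤ N0 := by
    rw [hN0]
    exact (le_max_left _ _).trans (le_max_right _ _)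
  have ag : S.g0⁻¹ ≤ N0 := by
    rw [hN0]
    exact (le_max_right _ _).trans (le_max_right _ _)
  have h1 : 1 ≤ N0 := by linarith
  have gam : ∀ n, 0 < (NN N0 n)⁻¹ ^ 2 ∧ (NN N0 n)⁻¹ ^ 2 ≤ S.g0 := by
    intro n
    have hn1 : 1 ≤ NN N0 n := one_le_NN h1 n
    have hn0 : 0 < NN N0 n := by linarith
    have hi0 : 0 < (NN N0 n)⁻¹ := inv_pos.mpr hn0
    have hi1 : (NN N0 n)⁻¹ ≤ 1 := inv_le_one_of_one_le₀ hn1
    refine ⟨by positivity, ?_⟩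
    have h2 : (NN N0 n)⁻¹ ^ 2 ≤ (NN N0 n)⁻¹ := by nlinarith
    have h3 : (NN N0 n)⁻¹ ≤ S.g0 :=
      inv_le_of_inv_le₀ S.pos (ag.trans (le_NN h1 n))
    exact h2.trans h3
  refine ⟨N0, Ns, a4, ?_⟩
  intro f okf bdf
  have key : ∀ (n : ℕ) (f : {f : Equiv.Perm E3 // OkZ B0 f ∧
      Bd 150 (NN N0 n) 1 (NN N0 n ^ (-40 : ℝ)) (disp f)}),
      ∃ (f' : {f : Equiv.Perm E3 // OkZ B0 f ∧
        Bd 150 (NN N0 (n + 1)) 1 (NN N0 (n + 1) ^ (-40 : ℝ)) (disp f)})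
        (g : Fin 4 → Equiv.Perm E3) (e : Fin F.p → Equiv.Perm E3),
        StepOut H S (NN N0 n) f.1 g e f'.1 ∧
        ∀ (K : ℕ) (q η : ℝ), 40 ≤ q → 3 * q + 30 ≤ K → K ≤ n + 150 → 0 < η → η ≤ 1 →
          Ns K q ≤ NN N0 n → Bd K (NN N0 n) η (NN N0 n ^ (-q)) (disp f.1) →
            StepBd K (NN N0 n) q η g e f'.1 := by
    rintro n ⟨f, hf, hb⟩
    have hle : N0 ≤ NN N0 n := le_NN h1 n
    obtain ⟨g, e, f', hout, hest⟩ := hstep (NN N0 n) (n + 149) f (aN1.trans hle) (by omega)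
      (eight_pow_le a8 n) hf hb
    have hS := hest 150 40 1 le_rfl (by norm_num) (by omega) one_pos le_rfl
      (aNs.trans hle) hb
    have hbf := hS.bf
    rw [← NN_succ h1 n] at hbf
    have hNN : 1 ≤ NN N0 (n + 1) := one_le_NN h1 (n + 1)
    have hpow : NN N0 (n + 1) ^ (-(7 / 6 * (40 : ℝ))) ≤ NN N0 (n + 1) ^ (-40 : ℝ) :=
      Real.rpow_le_rpow_of_exponent_le hNN (by norm_num)
    refine ⟨⟨f', hout.okf, hbf.mono_c (by linarith) hpow⟩, g, e, hout, ?_⟩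
    intro K q η hq hK hn hη hη1 hNs hB
    exact hest K q η hq hK (by omega) hη hη1 hNs hB
  choose nx g e hout hest using key
  have hf0 : OkZ B0 f ∧ Bd 150 (NN N0 0) 1 (NN N0 0 ^ (-40 : ℝ)) (disp f) := by
    rw [NN_zero]
    exact ⟨okf, bdf⟩
  let fs : (n : ℕ) → {f : Equiv.Perm E3 // OkZ B0 f ∧
      Bd 150 (NN N0 n) 1 (NN N0 n ^ (-40 : ℝ)) (disp f)} :=
    fun n => Nat.rec (motive := fun n => {f : Equiv.Perm E3 // OkZ B0 f ∧
      Bd 150 (NN N0 n) 1 (NN N0 n ^ (-40 : ℝ)) (disp f)}) ⟨f, hf0⟩ (fun n x => nx n x) n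
  have fs_succ : ∀ n, fs (n + 1) = nx n (fs n) := fun n => rfl
  refine ⟨fun n => (fs n).1, fun n => g n (fs n), fun n => e n (fs n), rfl, ?_⟩
  exact
    { one := a4
      gam := gam
      std := aC
      th := aNs
      okf := fun n => (fs n).2.1
      bd := fun n => (fs n).2.2
      out := fun n => hout n (fs n)
      est := fun n K q η hq hK hn hη hη1 hNs hB =>
        hest n (fs n) K q η hq hK hn hη hη1 hNs hB }

end Pool.Agent.QM59
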