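import Mathlib
import Pool.Agent.Lib.MP_decea1_gt_C.It1

/-!
# MP_decea1_gt, block C, module It2: all derivatives are controlled (C5 (b), (c))
-/

set_option autoImplicit false

open MeasureTheory Set Filter

namespace Pool.Agent.QM59

variable {F : Frag} {H : Hand F} {S : Std} {N0 : ℝ} {Ns : ℕ → ℝ → ℝ}
  {f : ℕ → Equiv.Perm E3} {g : ℕ → Fin 4 → Equiv.Perm E3} {e : ℕ → Fin F.p → Equiv.Perm E3}

private theorem It2_one (R : Run H S N0 Ns f g e) : 1 ≤ N0 := by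
  have := R.one
  linarith

private theorem It2_pos (R : Run H S N0 Ns f g e) (n : ℕ) : 0 < NN N0 n :=
  lt_of_lt_of_le one_pos (one_le_NN (It2_one R) n)

private theorem It2_ev (R : Run H S N0 Ns f g e) (c : ℝ) : ∃ n0, ∀ n ≥ n0, c ≤ NN N0 n := by
  have h1 : 1 < N0 := by
    have := R.one
    linarith
  exact eventually_atTop.1 ((tendsto_NN h1).eventually_ge_atTop c)

private theorem It2_B (f : Equiv.Perm E3) (h : OkZ B0 f) : Ok B2 f := by
  refine ⟨h.dif, h.vol, fun x hx => h.off x fun hx' => hx ?_⟩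
  obtain ⟨a, b, c⟩ := hx'
  exact ⟨a.trans (by norm_num), b.trans (by norm_num), c.trans (by norm_num)⟩

private theorem It2_key (R : Run H S N0 Ns f g e) {K n : ℕ} {η : ℝ} (hK : 150 ≤ K)
    (hn : K ≤ n + 150) (hη : 0 < η) (hη1 : η ≤ 1) (hN : Ns K 40 ≤ NN N0 n)
    (h : Bd K (NN N0 n) η (NN N0 n ^ (-40 : ℝ)) (disp (f n))) :
    Bd K (NN N0 (n + 1)) η (NN N0 (n + 1) ^ (-41 : ℝ)) (disp (f (n + 1))) := by
  have h2 := (R.next n K 40 η le_rfl (by omega) hn hη hη1 (by rw [Nat.cast_ofNat]; exact hN)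
    (by rw [Nat.cast_ofNat]; exact h)).1
  have e1 : (-(((40 : ℕ) : ℝ) + 1)) = (-41 : ℝ) := by norm_num
  rwa [e1] at h2

/-- Auxiliary: with the same weight `η` the bound of level `K` propagates. Induction on `n ≥ n1`:
`Run.next` with `q = 40`; `NN^(-41) ≤ NN^(-40)`. (`Ns K 40 ≤ NN N0 n1 ≤ NN N0 n` by `NN_mono`.) -/
theorem Run.prop (R : Run H S N0 Ns f g e) {K n1 : ℕ} {η : ℝ} (hK : 150 ≤ K)
    (hn : K ≤ n1 + 150) (hη : 0 < η) (hη1 : η ≤ 1) (hN : Ns K 40 ≤ NN N0 n1)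
    (h : Bd K (NN N0 n1) η (NN N0 n1 ^ (-40 : ℝ)) (disp (f n1))) :
    ∀ n ≥ n1, Bd K (NN N0 n) η (NN N0 n ^ (-40 : ℝ)) (disp (f n)) ∧
      Bd K (NN N0 (n + 1)) η (NN N0 (n + 1) ^ (-41 : ℝ)) (disp (f (n + 1))) := by
  have h1 : ∀ n ≥ n1, Bd K (NN N0 n) η (NN N0 n ^ (-40 : ℝ)) (disp (f n)) := by
    intro n hn1
    induction n, hn1 using Nat.le_induction with
    | base => exact h
    | succ n hn1 ih =>
      have h2 := It2_key R hK (by omega) hη hη1 (hN.trans (NN_mono (It2_one R) hn1)) ih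
      refine h2.mono_c (It2_pos R (n + 1)).le ?_
      exact Real.rpow_le_rpow_of_exponent_le (one_le_NN (It2_one R) (n + 1)) (by norm_num)
  intro n hn1
  exact ⟨h1 n hn1, It2_key R hK (by omega) hη hη1 (hN.trans (NN_mono (It2_one R) hn1)) (h1 n hn1)⟩

/-- C5 (b). Induction on `K ≥ 150`; `K = 150` is `Run.bd`. Step `K → K + 1`: take `n1 ≥ n_K` with
`K + 1 ≤ n1 + 150` and `Ns (K + 1) 40 ≤ NN N0 n1` (`tendsto_NN`). By `exists_bound_disp`
(`f n1` is `Ok B2` because `B0 ⊆ B2`) there is `C` with `‖D^{K+1} (disp (f n1))‖ ≤ C`; choose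
`0 < η ≤ 1` with `η * C ≤ NN^(-40) * NN^(K+1)`. `Bd.extend` gives
`Bd (K + 1) (NN n1) η (NN n1 ^ (-40))`. By `Run.prop` the bound with `η` and exponent `-41` holds for
all `n > n1`, and by `Bd.unweight` the weight can be removed as soon as `η⁻¹ ≤ NN N0 n`. -/
theorem Run.all_levels (R : Run H S N0 Ns f g e) : ∀ K : ℕ, 150 ≤ K → ∃ n0, ∀ n ≥ n0,
    Bd K (NN N0 n) 1 (NN N0 n ^ (-40 : ℝ)) (disp (f n)) := by
  intro K hK
  induction K, hK using Nat.le_induction with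
  | base => exact ⟨0, fun n _ => R.bd n⟩
  | succ K hK ih =>
    obtain ⟨nK, hnK⟩ := ih
    obtain ⟨n2, hn2⟩ := It2_ev R (Ns (K + 1) 40)
    set n1 : ℕ := nK + n2 + K + 1 with hn1
    obtain ⟨C, hC0, hC⟩ := exists_bound_disp (It2_B (f n1) (R.okf n1)) (K + 1)
    have hp := It2_pos R n1
    set a : ℝ := NN N0 n1 ^ (-40 : ℝ) * NN N0 n1 ^ (K + 1) with ha
    have ha0 : 0 < a := by positivity
    set η : ℝ := min 1 (a / (C + 1)) with hηd
    have hη : 0 < η := lt_min one_pos (by positivity)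
    have hη1 : η ≤ 1 := min_le_left _ _
    have hηC : η * C ≤ a := by
      calc η * C ≤ a / (C + 1) * C := mul_le_mul_of_nonneg_right (min_le_right _ _) hC0
        _ ≤ a := by
          rw [div_mul_eq_mul_div, div_le_iff₀ (by positivity)]
          nlinarith
    have h1 : Bd (K + 1) (NN N0 n1) η (NN N0 n1 ^ (-40 : ℝ)) (disp (f n1)) := by
      refine (hnK n1 (by omega)).extend fun x => ?_
      exact (mul_le_mul_of_nonneg_left (hC x) hη.le).trans hηC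
    have h2 := R.prop (by omega : 150 ≤ K + 1) (by omega) hη hη1 (hn2 n1 (by omega)) h1
    obtain ⟨n3, hn3⟩ := It2_ev R η⁻¹
    refine ⟨n1 + n3 + 1, fun n hn => ?_⟩
    obtain ⟨n', rfl⟩ : ∃ n', n = n' + 1 := ⟨n - 1, by omega⟩
    have h3 := (h2 n' (by omega)).2
    have hp' := It2_pos R (n' + 1)
    refine h3.unweight hp'.le hη hη1 (by positivity) ?_
    have e1 : NN N0 (n' + 1) ^ (-40 : ℝ) = NN N0 (n' + 1) * NN N0 (n' + 1) ^ (-41 : ℝ) := by
      rw [show (-40 : ℝ) = 1 + (-41 : ℝ) by norm_num, Real.rpow_add hp', Real.rpow_one]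
    rw [e1]
    exact mul_le_mul_of_nonneg_right (hn3 (n' + 1) (by omega)) (by positivity)

/-- C5 (c). Induction on `q ≥ 40` for fixed `K ≥ 3 q + 30`: `q = 40` is `Run.all_levels`, the step
is the first conclusion of `Run.next` with `η = 1` at all large stages (`Ns K q ≤ NN n`,
`K ≤ n + 150`). -/
theorem Run.decay (R : Run H S N0 Ns f g e) (K : ℕ) : ∀ q : ℕ, 40 ≤ q → 3 * q + 30 ≤ K →
    ∃ n0, ∀ n ≥ n0, Bd K (NN N0 n) 1 (NN N0 n ^ (-(q : ℝ))) (disp (f n)) := by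
  intro q hq
  induction q, hq using Nat.le_induction with
  | base =>
    intro hK
    obtain ⟨n0, hn0⟩ := R.all_levels K (by omega)
    refine ⟨n0, fun n hn => ?_⟩
    rw [Nat.cast_ofNat]
    exact hn0 n hn
  | succ q hq ih =>
    intro hK
    obtain ⟨n0, hn0⟩ := ih (by omega)
    obtain ⟨n1, hn1⟩ := It2_ev R (Ns K q)
    refine ⟨n0 + n1 + K + 1, fun n hn => ?_⟩
    obtain ⟨n', rfl⟩ : ∃ n', n = n' + 1 := ⟨n - 1, by omega⟩
    have h2 := (R.next n' K q 1 hq (by omega) (by omega) one_pos le_rfl (hn1 n' (by omega))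
      (hn0 n' (by omega))).1
    rw [Nat.cast_add, Nat.cast_one]
    exact h2

/-- All the bounds for all `K` and all `q` at once: apply `Run.decay` and `Run.next` with
`q' = max q 40`, `K' = max K (3 q' + 30)`, `η = 1`, then `Bd.mono_K`, `Bd.mono_c`, and for `g`
monotonicity of the power in the exponent. -/
theorem Run.decay_all (R : Run H S N0 Ns f g e) (K q : ℕ) : ∃ n0, ∀ n ≥ n0,
    (∀ i ≤ K, ∀ x, ‖iteratedFDeriv ℝ i (disp (f n)) x‖ ≤
      NN N0 n ^ (-(q : ℝ)) * NN N0 n ^ i) ∧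
    (∀ j, ∀ i ≤ K, ∀ x, ‖iteratedFDeriv ℝ i (disp (e n j)) x‖ ≤
      NN N0 (n + 1) ^ (-(q : ℝ)) * NN N0 (n + 1) ^ i) ∧
    ∀ l, ∀ i ≤ K, ∀ x, ‖iteratedFDeriv ℝ i (disp (g n l)) x‖ ≤
      NN N0 n ^ (2 * (i : ℝ) + 5 - q) := by
  obtain ⟨q', hq1, hq2⟩ : ∃ q' : ℕ, q ≤ q' ∧ 40 ≤ q' :=
    ⟨max q 40, le_max_left _ _, le_max_right _ _⟩
  obtain ⟨K', hK1, hK2⟩ : ∃ K' : ℕ, K ≤ K' ∧ 3 * q' + 30 ≤ K' :=
    ⟨max K (3 * q' + 30), le_max_left _ _, le_max_right _ _⟩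
  obtain ⟨n0, hn0⟩ := R.decay K' q' hq2 hK2
  obtain ⟨n1, hn1⟩ := It2_ev R (Ns K' q')
  have hqr : (q : ℝ) ≤ q' := by exact_mod_cast hq1
  refine ⟨n0 + n1 + K', fun n hn => ?_⟩
  have hb := hn0 n (by omega)
  obtain ⟨-, he, hg⟩ := R.next n K' q' 1 hq2 hK2 (by omega) one_pos le_rfl (hn1 n (by omega)) hb
  have o1 := one_le_NN (It2_one R) n
  have o2 := one_le_NN (It2_one R) (n + 1)
  refine ⟨fun i hi x => ?_, fun j i hi x => ?_, fun l i hi x => ?_⟩
  · refine (hb.level (hi.trans hK1) x).trans ?_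
    refine mul_le_mul_of_nonneg_right ?_ (by positivity)
    exact Real.rpow_le_rpow_of_exponent_le o1 (by linarith)
  · refine ((he j).level (hi.trans hK1) x).trans ?_
    refine mul_le_mul_of_nonneg_right ?_ (by positivity)
    exact Real.rpow_le_rpow_of_exponent_le o2 (by linarith)
  · refine (hg l i (hi.trans hK1) x).trans ?_
    exact Real.rpow_le_rpow_of_exponent_le o1 (by linarith)

end Pool.Agent.QM59
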