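import Mathlib
import Pool.Agent.Lib.MP_decea1_gt_C.It2

/-!
# MP_decea1_gt, block C, module It3: the sequences of a run are tame
-/

set_option autoImplicit false

open MeasureTheory Set Filter

namespace Pool.Agent.QM59

/-- If for every `i` the derivatives of order `i` are at most `A / N_n` for large `n`, then the
sequence is `Fast`: `4 ^ (n (i + 1)) ≤ N_n` for large `n` (`four_pow_le`), and the finitely many
other members have bounded derivatives (`exists_bound_disp`). -/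
theorem fast_of_eventually {N0 : ℝ} (hN : 4 ≤ N0) (g : ℕ → Equiv.Perm E3)
    (hg : ∀ n, Ok B2 (g n))
    (h : ∀ i : ℕ, ∃ A : ℝ, ∃ n0, ∀ n ≥ n0, ∀ x,
      ‖iteratedFDeriv ℝ i (disp (g n)) x‖ ≤ A * (NN N0 n)⁻¹) : Fast g := by
  intro i
  obtain ⟨A, n0, hA⟩ := h i
  obtain ⟨n1, hn1⟩ := four_pow_le hN (i + 1)
  choose C hC0 hC using fun n => exists_bound_disp (hg n) i
  have h1N : 1 ≤ N0 := by linarith
  have hsum : ∀ M : ℕ, 0 ≤ ∑ m ∈ Finset.range M, (4 : ℝ) ^ (m * (i + 1)) * C m := fun M =>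
    Finset.sum_nonneg fun m _ => mul_nonneg (by positivity) (hC0 m)
  refine ⟨|A| + ∑ m ∈ Finset.range (max n0 n1), (4 : ℝ) ^ (m * (i + 1)) * C m, fun n x => ?_⟩
  by_cases hn : n < max n0 n1
  · have h2 : (4 : ℝ) ^ (n * (i + 1)) * ‖iteratedFDeriv ℝ i (disp (g n)) x‖
        ≤ (4 : ℝ) ^ (n * (i + 1)) * C n := mul_le_mul_of_nonneg_left (hC n x) (by positivity)
    have h3 : (4 : ℝ) ^ (n * (i + 1)) * C n
        ≤ ∑ m ∈ Finset.range (max n0 n1), (4 : ℝ) ^ (m * (i + 1)) * C m :=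
      Finset.single_le_sum (f := fun m => (4 : ℝ) ^ (m * (i + 1)) * C m)
        (fun m _ => mul_nonneg (by positivity) (hC0 m)) (Finset.mem_range.mpr hn)
    linarith [abs_nonneg A]
  · push Not at hn
    have hNN : 0 < NN N0 n := lt_of_lt_of_le one_pos (one_le_NN h1N n)
    have h4 := hA n ((le_max_left _ _).trans hn) x
    have h5 := hn1 n ((le_max_right _ _).trans hn)
    have h6 : (4 : ℝ) ^ (n * (i + 1)) * ‖iteratedFDeriv ℝ i (disp (g n)) x‖
        ≤ NN N0 n * (|A| * (NN N0 n)⁻¹) := by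
      refine mul_le_mul h5 (h4.trans ?_) (norm_nonneg _) hNN.le
      exact mul_le_mul_of_nonneg_right (le_abs_self A) (inv_nonneg.mpr hNN.le)
    have h7 : NN N0 n * (|A| * (NN N0 n)⁻¹) = |A| := by field_simp
    linarith [hsum (max n0 n1)]

/-- `‖fderiv v x‖ = ‖D^1 v x‖` (`norm_iteratedFDeriv_one`), and a power bound. -/
theorem fderiv_le_of_level {v : E3 → E3} {x : E3} {c : ℝ}
    (h : ‖iteratedFDeriv ℝ 1 v x‖ ≤ c) (hc : c ≤ 1 / 2) : ‖fderiv ℝ v x‖ ≤ 1 / 2 := by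
  rw [norm_iteratedFDeriv_one] at h
  exact h.trans hc

/-- powers of numbers which are at least four -/
private theorem It3_pow {N : ℝ} (hN : 4 ≤ N) {a : ℝ} (ha : a ≤ -1) : N ^ a ≤ N⁻¹ := by
  rw [← Real.rpow_neg_one]
  exact Real.rpow_le_rpow_of_exponent_le (by linarith) ha

private theorem It3_inv {N : ℝ} (hN : 4 ≤ N) : N⁻¹ ≤ 1 / 4 := by
  rw [one_div]
  exact inv_anti₀ (by norm_num) hN

private theorem It3_pow_mul {N : ℝ} (hN : 4 ≤ N) (a : ℝ) (i : ℕ) (ha : a + i ≤ -1) :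
    N ^ a * N ^ i ≤ N⁻¹ := by
  rw [← Real.rpow_natCast, ← Real.rpow_add (by linarith)]
  exact It3_pow hN ha

private theorem It3_ok {K : Set E3} {f : Equiv.Perm E3} (hf : Ok K f) (hK : K ⊆ B2) :
    Ok B2 f := ⟨hf.dif, hf.vol, hf.off.mono hK⟩

variable {F : Frag} {H : Hand F} {S : Std} {N0 : ℝ} {Ns : ℕ → ℝ → ℝ}
  {f : ℕ → Equiv.Perm E3} {g : ℕ → Fin 4 → Equiv.Perm E3} {e : ℕ → Fin F.p → Equiv.Perm E3}

/-- `Run.bd`: `‖D^1‖ ≤ N^(-40) N ≤ N^(-1) ≤ 1/4`; `Run.decay_all` with `K = i`, `q = i + 1`. -/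
theorem Run.tame_f (R : Run H S N0 Ns f g e) : Tame f := by
  have h1 : 1 ≤ N0 := by linarith [R.one]
  have h4 : ∀ n, 4 ≤ NN N0 n := fun n => R.one.trans (le_NN h1 n)
  have hok : ∀ n, Ok B2 (f n) := fun n => It3_ok (R.okf n).toOk B0_sub_B2
  refine ⟨hok, fun n x => ?_, fast_of_eventually R.one f hok fun i => ?_⟩
  · refine fderiv_le_of_level ((R.bd n).1 1 (by norm_num) x) ?_
    refine (It3_pow_mul (h4 n) (-40) 1 (by norm_num)).trans ((It3_inv (h4 n)).trans (by norm_num))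
  · obtain ⟨n0, hn0⟩ := R.decay_all i (i + 1)
    refine ⟨1, n0, fun n hn x => ?_⟩
    refine ((hn0 n hn).1 i le_rfl x).trans ?_
    rw [one_mul]
    exact It3_pow_mul (h4 n) _ i (by push_cast; linarith)

/-- The bound of the first derivatives: `Run.next` with `K = 150`, `q = 40`, `η = 1` (third
conclusion with `i = 1`: `N^(2 + 5 - 40) ≤ N^(-1)`; use `Run.th` and `Run.bd`); `Fast`:
`Run.decay_all` with `q = 2 i + 6`. `Ok B2` from `StepOut.okg` and `B1 ⊆ B2`. -/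
theorem Run.tame_g (R : Run H S N0 Ns f g e) (l : Fin 4) : Tame fun n => g n l := by
  have h1 : 1 ≤ N0 := by linarith [R.one]
  have h4 : ∀ n, 4 ≤ NN N0 n := fun n => R.one.trans (le_NN h1 n)
  have hok : ∀ n, Ok B2 (g n l) := fun n => It3_ok ((R.out n).okg l) B1_sub_B2
  refine ⟨hok, fun n x => ?_, fast_of_eventually R.one (fun n => g n l) hok fun i => ?_⟩
  · have h2 := (R.next n 150 40 1 le_rfl le_rfl (by omega) one_pos le_rfl
      (by exact_mod_cast R.th.trans (le_NN h1 n)) (by exact_mod_cast R.bd n)).2.2 l 1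
      (by norm_num) x
    refine fderiv_le_of_level h2 ?_
    exact (It3_pow (h4 n) (by norm_num)).trans ((It3_inv (h4 n)).trans (by norm_num))
  · obtain ⟨n0, hn0⟩ := R.decay_all i (2 * i + 6)
    refine ⟨1, n0, fun n hn x => ?_⟩
    refine ((hn0 n hn).2.2 l i le_rfl x).trans ?_
    rw [one_mul]
    exact It3_pow (h4 n) (by push_cast; linarith)

/-- Second conclusion of `Run.next` (`N_{n+1}^(-41) N_{n+1} ≤ 1/4`); `Fast`: `Run.decay_all` with
`q = i + 1` and `N_n ≤ N_{n+1}`. `Ok B2` from `StepOut.oke`, `StepOut.oke2`. -/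
theorem Run.tame_e (R : Run H S N0 Ns f g e) (j : Fin F.p) : Tame fun n => e n j := by
  have h1 : 1 ≤ N0 := by linarith [R.one]
  have h4 : ∀ n, 4 ≤ NN N0 n := fun n => R.one.trans (le_NN h1 n)
  have hok : ∀ n, Ok B2 (e n j) := fun n =>
    ⟨((R.out n).oke j).dif, ((R.out n).oke j).vol, (R.out n).oke2 j⟩
  refine ⟨hok, fun n x => ?_, fast_of_eventually R.one (fun n => e n j) hok fun i => ?_⟩
  · have h2 := ((R.next n 150 40 1 le_rfl le_rfl (by omega) one_pos le_rfl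
      (by exact_mod_cast R.th.trans (le_NN h1 n)) (by exact_mod_cast R.bd n)).2.1 j).1 1
      (by norm_num) x
    refine fderiv_le_of_level h2 ?_
    exact (It3_pow_mul (h4 (n + 1)) _ 1 (by push_cast; norm_num)).trans
      ((It3_inv (h4 (n + 1))).trans (by norm_num))
  · obtain ⟨n0, hn0⟩ := R.decay_all i (i + 1)
    refine ⟨1, n0, fun n hn x => ?_⟩
    refine ((hn0 n hn).2.1 j i le_rfl x).trans ?_
    rw [one_mul]
    refine (It3_pow_mul (h4 (n + 1)) _ i (by push_cast; linarith)).trans ?_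
    exact inv_anti₀ (by linarith [h4 n]) (NN_mono h1 (Nat.le_succ n))

/-- The standard maps at `γ_n = N_n⁻²`: `Std.bd` gives `‖D^i‖ ≤ C i N_n⁻²`; first derivatives:
`C 1 N_n⁻² ≤ N0 N_n⁻² ≤ N_n⁻¹ ≤ 1/4` (`Run.std`). -/
theorem Run.tame_T (R : Run H S N0 Ns f g e) (l : Fin 4) :
    Tame fun n => S.T ((NN N0 n)⁻¹ ^ 2) l := by
  have h1 : 1 ≤ N0 := by linarith [R.one]
  have h4 : ∀ n, 4 ≤ NN N0 n := fun n => R.one.trans (le_NN h1 n)
  have hok : ∀ n, Ok B2 (S.T ((NN N0 n)⁻¹ ^ 2) l) := fun n =>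
    S.ok _ (R.gam n).1 (R.gam n).2 l
  have hsq : ∀ n, (NN N0 n)⁻¹ ^ 2 ≤ (NN N0 n)⁻¹ := fun n => by
    have h2 := It3_inv (h4 n)
    have h3 : 0 ≤ (NN N0 n)⁻¹ := inv_nonneg.mpr (by linarith [h4 n])
    nlinarith
  refine ⟨hok, fun n x => ?_, fast_of_eventually R.one _ hok fun i => ?_⟩
  · refine fderiv_le_of_level (S.bd _ (R.gam n).1 (R.gam n).2 l 1 x) ?_
    have h2 : S.C 1 ≤ NN N0 n := R.std.trans (le_NN h1 n)
    have h3 := It3_inv (h4 n)
    have hpos : 0 < NN N0 n := by linarith [h4 n]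
    calc S.C 1 * (NN N0 n)⁻¹ ^ 2 ≤ NN N0 n * (NN N0 n)⁻¹ ^ 2 :=
          mul_le_mul_of_nonneg_right h2 (R.gam n).1.le
      _ = (NN N0 n)⁻¹ := by field_simp
      _ ≤ 1 / 2 := by linarith
  · refine ⟨|S.C i|, 0, fun n _ x => ?_⟩
    refine (S.bd _ (R.gam n).1 (R.gam n).2 l i x).trans ?_
    calc S.C i * (NN N0 n)⁻¹ ^ 2 ≤ |S.C i| * (NN N0 n)⁻¹ ^ 2 :=
          mul_le_mul_of_nonneg_right (le_abs_self _) (R.gam n).1.le
      _ ≤ |S.C i| * (NN N0 n)⁻¹ := mul_le_mul_of_nonneg_left (hsq n) (abs_nonneg _)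

end Pool.Agent.QM59
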