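import Mathlib
import Pool.Agent.Lib.MP_decea1_gt_C.It3
import Pool.Agent.Lib.MP_decea1_gt_C.Gl2
import Pool.Agent.Lib.MP_decea1_gt_C.Exist

/-!
# MP_decea1_gt, block C, module LLz: the local lemma for maps preserving the last coordinate
-/

set_option autoImplicit false

open MeasureTheory Set Filter

namespace Pool.Agent.QM59

/-- The cube of half side `1/20` around a point of `B1` is contained in `B2`. -/
theorem cube_sub_B2 {c : E3} (hc : c ∈ B1) : Metric.closedBall c (1 / 20) ⊆ B2 := by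
  intro x hx
  have h : ∀ i, |x i - c i| ≤ 1 / 20 := by
    intro i
    have h1 := (dist_le_pi_dist x c i).trans (Metric.mem_closedBall.1 hx)
    rwa [Real.dist_eq] at h1
  obtain ⟨h0, h1, h2⟩ := hc
  rw [abs_le] at h0 h1 h2
  obtain ⟨a0, b0⟩ := abs_le.1 (h 0)
  obtain ⟨a1, b1⟩ := abs_le.1 (h 1)
  obtain ⟨a2, b2⟩ := abs_le.1 (h 2)
  exact ⟨abs_le.2 ⟨by linarith [h0.1], by linarith [h0.2]⟩,
    abs_le.2 ⟨by linarith [h1.1], by linarith [h1.2]⟩,
    abs_le.2 ⟨by linarith [h2.1], by linarith [h2.2]⟩⟩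

private theorem idOff_rprod {K : Set E3} : ∀ {p : ℕ} (e : Fin p → Equiv.Perm E3),
    (∀ j, IdOff K (e j)) → IdOff K (rprod e) := by
  intro p
  induction p with
  | zero =>
    intro e _
    rw [rprod_zero]
    exact IdOff.one K
  | succ p ih =>
    intro e he
    rw [rprod_succ]
    exact (he _).mul (ih _ fun j => he _)

private theorem rprod_one (p : ℕ) : rprod (fun _ : Fin p => (1 : Equiv.Perm E3)) = 1 := by
  induction p with
  | zero => exact rprod_zero _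
  | succ p ih => rw [rprod_succ, ih, mul_one]

/-- C6.2. Let `Hl`, `Tl` (`l : Fin 4`), `Ej` (`j : Fin F.p`), `Ft` be the glued maps of
`fun n => g n l`, `fun n => S.T (γ_n) l`, `fun n => e n j`, `f` (`Gl.exists`). By `Gl.mem_IsoV` and
It3 they are in `IsoV (ball 0 13)`, so also in `IsoV (ball 0 (max 13 H.R))`, as well as all `H.τ j`.
By `StepOut.eq`, `Gl.K0`, `Gl.rprod`, `Gl.mul` and `Gl.unique`: `Ft = K0 Hl Tl * rprod Ej`.
Let `e' n j` be with `scl lam (e' n j) = τ_j e n j τ_j⁻¹` (`scl_surj`), the identity off `B2` by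
`hand_idOff`; `f (n + 1) = rprod (e' n)` by `StepOut.hand`, `scl_rprod`, `scl_inj`. By
`Gl.hand` the map `τ_j E_j τ_j⁻¹` is glued from `shf (fun n => e' n j)`, so by `Gl.rprod` the map
`F1 := rprod (fun j => τ_j E_j τ_j⁻¹)` is glued from the sequence `1, f 1, f 2, ...`.
`Gl.inv`, `Gl.mul`: `Ft * F1⁻¹` is glued from `f 0, 1, 1, ...`, so it is `f 0` (`Gl.single`,
`Gl.unique`). Hence `f 0 = K0 Hl Tl * (rprod Ej * (rprod fun j => τ_j E_j τ_j⁻¹)⁻¹)`, and `CP.K0`,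
`CP.peel`, `CP.mul` give the claim. -/
theorem Run.comm {F : Frag} {H : Hand F} {S : Std} {N0 : ℝ} {Ns : ℕ → ℝ → ℝ}
    {f : ℕ → Equiv.Perm E3} {g : ℕ → Fin 4 → Equiv.Perm E3} {e : ℕ → Fin F.p → Equiv.Perm E3}
    (R : Run H S N0 Ns f g e) :
    CP (IsoV (Metric.ball 0 (max 13 H.R))) (4 + F.p) (f 0) := by
  have hgo : ∀ n l, IdOff B2 (g n l) := fun n l => ((R.tame_g l).ok n).off
  have hTo : ∀ n l, IdOff B2 (S.T ((NN N0 n)⁻¹ ^ 2) l) := fun n l => ((R.tame_T l).ok n).off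
  have heo : ∀ n j, IdOff B2 (e n j) := fun n j => ((R.tame_e j).ok n).off
  have hfo : ∀ n, IdOff B2 (f n) := fun n => (R.tame_f.ok n).off
  choose Hl hHl using fun l : Fin 4 => Gl.exists (fun n => g n l) (fun n => hgo n l)
  choose Tl hTl using fun l : Fin 4 =>
    Gl.exists (fun n => S.T ((NN N0 n)⁻¹ ^ 2) l) (fun n => hTo n l)
  choose Ej hEj using fun j : Fin F.p => Gl.exists (fun n => e n j) (fun n => heo n j)
  obtain ⟨Ft, hFt⟩ := Gl.exists f hfo
  have hM : IsoV (Metric.ball 0 13) ≤ IsoV (Metric.ball 0 (max 13 H.R)) :=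
    IsoV_mono (Metric.ball_subset_ball (le_max_left _ _))
  have mH : ∀ l, Hl l ∈ IsoV (Metric.ball 0 (max 13 H.R)) := fun l =>
    hM (Gl.mem_IsoV (R.tame_g l) (hHl l))
  have mT : ∀ l, Tl l ∈ IsoV (Metric.ball 0 (max 13 H.R)) := fun l =>
    hM (Gl.mem_IsoV (R.tame_T l) (hTl l))
  have mE : ∀ j, Ej j ∈ IsoV (Metric.ball 0 (max 13 H.R)) := fun j =>
    hM (Gl.mem_IsoV (R.tame_e j) (hEj j))
  have mτ : ∀ j, H.τ j ∈ IsoV (Metric.ball 0 (max 13 H.R)) := fun j =>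
    ⟨(H.iso j).mono (Metric.ball_subset_ball (le_max_right _ _)), H.vol j⟩
  have e1 : Gl (fun n => Pool.Agent.QM59.K0 (g n) (S.T ((NN N0 n)⁻¹ ^ 2)) * rprod (e n))
      (Pool.Agent.QM59.K0 Hl Tl * rprod Ej) :=
    Gl.mul (fun n => idOff_rprod _ (heo n)) (Gl.K0 hgo hTo hHl hTl) (Gl.rprod e Ej heo hEj)
  have hseq : (fun n => Pool.Agent.QM59.K0 (g n) (S.T ((NN N0 n)⁻¹ ^ 2)) * rprod (e n)) = f :=
    funext fun n => (R.out n).eq.symm
  rw [hseq] at e1
  have e2 : Ft = Pool.Agent.QM59.K0 Hl Tl * rprod Ej := Gl.unique hFt e1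
  choose e' he' using fun (n : ℕ) (j : Fin F.p) =>
    scl_surj lam lam_ne (H.τ j * e n j * (H.τ j)⁻¹)
  have he'o : ∀ n j, IdOff B2 (e' n j) := fun n j =>
    hand_idOff (H.A j) (H.eq j) (cube_sub_B2 (F.mem j))
      (fun x hx => B0_sub_B2 (H.maps j x hx)) ((R.out n).oke j).off (he' n j)
  have hf1 : ∀ n, f (n + 1) = rprod (e' n) := by
    intro n
    apply scl_inj lam lam_ne
    rw [(R.out n).hand, scl_rprod]
    exact congrArg rprod (funext fun j => (he' n j).symm)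
  have hc : ∀ j, Gl (shf fun n => e' n j) (H.τ j * Ej j * (H.τ j)⁻¹) := fun j =>
    Gl.hand (H.A j) (H.eq j) (cube_sub_B2 (F.mem j))
      (fun x hx => B0_sub_B2 (H.maps j x hx)) (fun n => ((R.out n).oke j).off)
      (fun n => he' n j) (hEj j)
  have hs : ∀ (n : ℕ) (j : Fin F.p), IdOff B2 (shf (fun m => e' m j) n) := by
    intro n j
    cases n with
    | zero => exact IdOff.one _
    | succ n => exact he'o n j
  have hF1 : Gl (fun n => rprod fun j => shf (fun m => e' m j) n)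
      (rprod fun j => H.τ j * Ej j * (H.τ j)⁻¹) :=
    Gl.rprod (fun n j => shf (fun m => e' m j) n) _ hs hc
  have hfun : (fun n => f n * (rprod fun j => shf (fun m => e' m j) n)⁻¹) =
      fun n => if n = 0 then f 0 else 1 := by
    funext n
    cases n with
    | zero =>
      have h1 : (rprod fun j => shf (fun m => e' m j) 0) = 1 := rprod_one F.p
      show f 0 * (rprod fun j => shf (fun m => e' m j) 0)⁻¹ = _
      rw [h1, inv_one, mul_one, if_pos rfl]
    | succ n =>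
      have h1 : (rprod fun j => shf (fun m => e' m j) (n + 1)) = f (n + 1) := (hf1 n).symm
      show f (n + 1) * (rprod fun j => shf (fun m => e' m j) (n + 1))⁻¹ = _
      rw [h1, mul_inv_cancel, if_neg (Nat.succ_ne_zero n)]
  have e3 : Gl (fun n => f n * (rprod fun j => shf (fun m => e' m j) n)⁻¹)
      (Ft * (rprod fun j => H.τ j * Ej j * (H.τ j)⁻¹)⁻¹) :=
    Gl.mul (fun n => (idOff_rprod _ (hs n)).inv) hFt
      (Gl.inv (fun n => idOff_rprod _ (hs n)) hF1)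
  rw [hfun] at e3
  have e4 : f 0 = Ft * (rprod fun j => H.τ j * Ej j * (H.τ j)⁻¹)⁻¹ :=
    Gl.unique (Gl.single (hfo 0)) e3
  rw [e4, e2, mul_assoc]
  exact (CP.K0 mH mT).mul (CP.peel Ej H.τ mE mτ)

/-- `exists_frag`, `exists_hand`, `exists_std`, `exists_run`, `Run.comm`. -/
theorem LLz0 : ∃ (N0 R : ℝ) (m : ℕ), 1 ≤ N0 ∧ 13 ≤ R ∧ ∀ f : Equiv.Perm E3, OkZ B0 f →
    Bd 150 N0 1 (N0 ^ (-40 : ℝ)) (disp f) → CP (IsoV (Metric.ball 0 R)) m f := by
  obtain ⟨F⟩ := exists_frag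
  obtain ⟨H⟩ := exists_hand F
  obtain ⟨S⟩ := exists_std
  obtain ⟨N0, Ns, hN0, hrun⟩ := exists_run H S
  refine ⟨N0, max 13 H.R, 4 + F.p, by linarith, le_max_left _ _, fun f hf hb => ?_⟩
  obtain ⟨fs, g, e, h0, R⟩ := hrun f hf hb
  rw [← h0]
  exact R.comm

end Pool.Agent.QM59
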