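import Mathlib
import Pool.Agent.Lib.MP_decea1_gt_C.Sim
import Pool.Agent.Lib.MP_decea1_gt_C.LLz
import Pool.Agent.Lib.MP_decea1_gt_C.Fact

/-!
# MP_decea1_gt, block C, module LLf: the local lemma LL
-/

set_option autoImplicit false

open MeasureTheory Set Filter

namespace Pool.Agent.QM59

private theorem bn_mono {k : ℕ} {ε ε' : ℝ} {v : E3 → E3} (h : Bn k ε v) (hε : ε ≤ ε') :
    Bn k ε' v := fun i hi x => (h i hi x).trans hε

private theorem closedBall_sub_B0 : Metric.closedBall (![0, 0, 7] : E3) 1 ⊆ B0 := by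
  intro x hx
  have h : ∀ i, |x i - (![0, 0, 7] : E3) i| ≤ 1 := by
    intro i
    have h1 := (dist_le_pi_dist x (![0, 0, 7] : E3) i).trans (Metric.mem_closedBall.1 hx)
    rwa [Real.dist_eq] at h1
  have h0 := h 0
  have h1 := h 1
  have h2 := h 2
  simp only [Matrix.cons_val_zero, Matrix.cons_val_one, Matrix.cons_val, sub_zero] at h0 h1 h2
  exact ⟨h0, h1, h2⟩

/-- Let `N0 R m` be from `LLz0`, `L` from `exists_swap i`, `c x = (0,0,7) + (1/2) L x`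
(`exists_sim`). For `g` as in the statement `c g c⁻¹` is `OkZ B0`
(`c '' closedBall 0 2 = closedBall (c 0) 1 = B0`; `(c g c⁻¹ y) 2 = 7 + (g (c⁻¹ y)) i / 2 = y 2`),
and by `IsSim.bn` all derivatives of order `≤ 150` of the displacement are at most
`ε (5/2)^151 ≤ N0^(-40)` for `ε := N0^(-40) (5/2)^(-151)`, hence
`Bd 150 N0 1 (N0^(-40))` as `N0^i ≥ 1`. Conjugate the product of commutators back with `c⁻¹`
(`CP.conj`, `IsSim.inv`, `IsSim.isoV`):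
`c⁻¹ '' ball 0 R = ball (c⁻¹ 0) (2 R) ⊆ ball 0 (2 R + 14)`. -/
theorem LL1 (i : Fin 3) : ∃ (ε R : ℝ) (m : ℕ), 0 < ε ∧ 2 ≤ R ∧ ∀ g : Equiv.Perm E3,
    Ok (Metric.closedBall 0 2) g → (∀ x, g x i = x i) → Bn 150 ε (disp g) →
      CP (IsoV (Metric.ball 0 R)) m g := by
  obtain ⟨N0, R, m, hN0, hR, hLL⟩ := LLz0
  obtain ⟨L, hL⟩ := exists_swap i
  obtain ⟨c, hc⟩ := exists_sim (![0, 0, 7] : E3) (1 / 2) (by norm_num) L
  have hNp : 0 < N0 ^ (-40 : ℝ) := Real.rpow_pos_of_pos (by linarith) _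
  have hS : (0 : ℝ) < (1 / 2 + (1 / 2 : ℝ)⁻¹) ^ (150 + 1) := by positivity
  refine ⟨N0 ^ (-40 : ℝ) * ((1 / 2 + (1 / 2 : ℝ)⁻¹) ^ (150 + 1))⁻¹, 2 * R + 14, m,
    mul_pos hNp (inv_pos.2 hS), by linarith, ?_⟩
  intro g hg hgi hb
  have hcc : ∀ y, c (c⁻¹ y) = y := fun y => c.apply_symm_apply y
  have hc0 : c 0 = (![0, 0, 7] : E3) := by
    rw [hc.eq, map_zero, smul_zero, add_zero]
  have hok : Ok B0 (c * g * c⁻¹) := by
    have h1 := hc.ok hg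
    refine ⟨h1.dif, h1.vol, h1.off.mono ?_⟩
    rw [hc.image_closedBall, hc0]
    have h2 : (1 / 2 : ℝ) * 2 = 1 := by norm_num
    rw [h2]
    exact closedBall_sub_B0
  have hz : ZP (c * g * c⁻¹) := by
    intro y
    have h1 : (c * g * c⁻¹) y = c (g (c⁻¹ y)) := rfl
    have h2 : (c (g (c⁻¹ y))) 2 = (c (c⁻¹ y)) 2 := by
      rw [hc.eq, hc.eq (c⁻¹ y), Pi.add_apply, Pi.add_apply, Pi.smul_apply, Pi.smul_apply, hL, hL,
        hgi]
    rw [h1, h2, hcc]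
  have hbn : Bn 150 (N0 ^ (-40 : ℝ)) (disp (c * g * c⁻¹)) := by
    have h1 := hc.bn hg.dif (mul_pos hNp (inv_pos.2 hS)).le hb
    rwa [mul_assoc, inv_mul_cancel₀ hS.ne', mul_one] at h1
  have hbd : Bd 150 N0 1 (N0 ^ (-40 : ℝ)) (disp (c * g * c⁻¹)) := by
    have h1 : ∀ j : ℕ, N0 ^ (-40 : ℝ) ≤ N0 ^ (-40 : ℝ) * N0 ^ j := fun j =>
      le_mul_of_one_le_right hNp.le (one_le_pow₀ hN0)
    refine ⟨fun j hj x => (hbn j hj.le x).trans (h1 j), fun x => ?_⟩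
    rw [one_mul]
    exact (hbn 150 le_rfl x).trans (h1 150)
  have hCP := hLL (c * g * c⁻¹) ⟨hok, hz⟩ hbd
  have hsub : (fun x => c⁻¹ x) '' Metric.ball 0 R ⊆ Metric.ball 0 (2 * R + 14) := by
    have h1 := hc.inv.image_ball 0 R
    have h2 : ((fun x => c⁻¹ x) '' Metric.ball 0 R) = Metric.ball (c⁻¹ 0) ((1 / 2 : ℝ)⁻¹ * R) := h1
    rw [h2]
    apply Metric.ball_subset_ball'
    have h3 : dist (c⁻¹ 0) 0 ≤ 14 := by
      rw [dist_zero_right, hc.inv.eq, map_zero, smul_zero, add_zero, norm_neg, norm_smul,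
        LinearIsometryEquiv.norm_map]
      have h4 : ‖(![0, 0, 7] : E3)‖ ≤ 7 := by
        rw [pi_norm_le_iff_of_nonneg (by norm_num)]
        intro j
        fin_cases j <;> simp
      have h5 : ‖((1 / 2 : ℝ)⁻¹)‖ = 2 := by norm_num
      rw [h5]
      linarith
    have h6 : (1 / 2 : ℝ)⁻¹ * R = 2 * R := by norm_num
    rw [h6]
    linarith
  have hfin := hCP.conj (H' := IsoV (Metric.ball 0 (2 * R + 14))) c⁻¹
    (fun k hk => hc.inv.isoV hsub hk)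
  have he : c⁻¹ * (c * g * c⁻¹) * (c⁻¹)⁻¹ = g := by group
  rwa [he] at hfin

/-- `fact 150 ε'` with `ε'` the minimum of the three `ε` of `LL1`; the radius is the maximum, the
number of commutators is the sum. -/
theorem LLcp : ∃ (k m : ℕ) (ε R : ℝ), 0 < ε ∧ 2 ≤ R ∧ ∀ f : Equiv.Perm E3,
    Ok (Metric.closedBall 0 1) f → Bn k ε (disp f) → CP (IsoV (Metric.ball 0 R)) m f := by
  obtain ⟨ε0, R0, m0, h0, hR0, H0⟩ := LL1 0
  obtain ⟨ε1, R1, m1, h1, hR1, H1⟩ := LL1 1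
  obtain ⟨ε2, R2, m2, h2, hR2, H2⟩ := LL1 2
  obtain ⟨ε, hε, hf⟩ := fact 150 (min ε0 (min ε1 ε2)) (lt_min h0 (lt_min h1 h2))
  refine ⟨150 + 3, m2 + m0 + m1, ε, max R0 (max R1 R2), hε, hR0.trans (le_max_left _ _), ?_⟩
  intro f hok hb
  obtain ⟨g1, g2, g3, hfe, o1, o2, o3, b1, b2, b3, z1, z2, z3⟩ := hf f hok hb
  rw [hfe]
  have c1 := (H2 g1 o1 z1 (bn_mono b1 ((min_le_right _ _).trans (min_le_right _ _)))).mono
    (IsoV_mono (Metric.ball_subset_ball ((le_max_right R1 R2).trans (le_max_right R0 _))))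
  have c2 := (H0 g2 o2 z2 (bn_mono b2 (min_le_left _ _))).mono
    (IsoV_mono (Metric.ball_subset_ball (le_max_left R0 (max R1 R2))))
  have c3 := (H1 g3 o3 z3 (bn_mono b3 ((min_le_right _ _).trans (min_le_left _ _)))).mono
    (IsoV_mono (Metric.ball_subset_ball ((le_max_left R1 R2).trans (le_max_right R0 _))))
  exact (c1.mul c2).mul c3

/-- Block C, local lemma, in the form of the target. -/
theorem LL : ∃ (k m : ℕ) (ε R : ℝ), 0 < ε ∧ 1 ≤ R ∧ ∀ f : Equiv.Perm E3, IsDif f → Vol f →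
    IdOff (Metric.closedBall 0 1) f →
    (∀ i ≤ k, ∀ x, ‖iteratedFDeriv ℝ i (fun y => f y - y) x‖ ≤ ε) →
    ∃ a b : Fin m → Equiv.Perm E3,
      (∀ i, InIso (Metric.ball 0 R) (a i) ∧ Vol (a i) ∧
        InIso (Metric.ball 0 R) (b i) ∧ Vol (b i)) ∧
      f = (List.ofFn fun i => a i * b i * (a i)⁻¹ * (b i)⁻¹).prod := by
  obtain ⟨k, m, ε, R, hε, hR, H⟩ := LLcp
  refine ⟨k, m, ε, R, hε, by linarith, ?_⟩
  intro f hd hv ho hb
  obtain ⟨a, b, hab, hf⟩ := H f ⟨hd, hv, ho⟩ hb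
  exact ⟨a, b, fun i => ⟨(hab i).1.1, (hab i).1.2, (hab i).2.1, (hab i).2.2⟩, hf⟩

end Pool.Agent.QM59
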