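import Mathlib
import Pool.Agent.Lib.MP_decea1_gt_C.LLf
import Pool.Agent.Lib.MP_decea1_gt_C.GlF

/-!
# MP_decea1_gt, block C, module Lay: the local lemma for layers of small cubes (C7.1)
-/

set_option autoImplicit false

open MeasureTheory Set

namespace Pool.Agent.QM59

/-- C7.1. `k m ε R` from `LLcp`. Every `f j` is a product of `m` commutators in `IsoV (ball 0 R)`, so
its conjugate with the homothety is one in `IsoV (ball (p j) (l j * R))` (`CP.conj`, `homoth_isSim`,
`IsSim.isoV`, `IsSim.image_ball`); `GlF.cp`. -/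
theorem LLlayer : ∃ (k m : ℕ) (ε R : ℝ), 0 < ε ∧ 2 ≤ R ∧
    (∀ f : Equiv.Perm E3, Ok (Metric.closedBall 0 1) f → Bn k ε (disp f) →
      CP (IsoV (Metric.ball 0 R)) m f) ∧
    ∀ (ι : Type) [Finite ι] (p : ι → E3) (l : ι → ℝ) (hl : ∀ j, 0 < l j) (U : Set E3)
      (f : ι → Equiv.Perm E3) (F : Equiv.Perm E3),
      (Pairwise fun i j =>
        Disjoint (Metric.ball (p i) (l i * R)) (Metric.ball (p j) (l j * R))) →
      (∀ j, Metric.ball (p j) (l j * R) ⊆ U) →
      (∀ j, Ok (Metric.closedBall 0 1) (f j)) → (∀ j, Bn k ε (disp (f j))) →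
      GlF (fun j => Metric.ball (p j) (l j * R))
        (fun j => homoth (p j) (l j) (hl j).ne' * f j * (homoth (p j) (l j) (hl j).ne')⁻¹) F →
      CP (IsoV U) m F := by
  obtain ⟨k, m, ε, R, hε, hR, H⟩ := LLcp
  refine ⟨k, m, ε, R, hε, hR, H, ?_⟩
  intro ι _ p l hl U f F hd hU hok hb hF
  refine GlF.cp hd U hU (fun j => ?_) hF
  have h1 := H (f j) (hok j) (hb j)
  have hs := homoth_isSim (p j) (l j) (hl j)
  refine h1.conj (homoth (p j) (l j) (hl j).ne') fun g hg => hs.isoV ?_ hg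
  have h2 : (fun x => homoth (p j) (l j) (hl j).ne' x) '' Metric.ball 0 R
      = Metric.ball (homoth (p j) (l j) (hl j).ne' 0) (l j * R) := hs.image_ball 0 R
  have h3 : homoth (p j) (l j) (hl j).ne' 0 = p j := by
    rw [hs.eq, map_zero, smul_zero, add_zero]
  rw [h3] at h2
  exact h2.subset

end Pool.Agent.QM59
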