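import Mathlib
import Pool.Agent.Lib.MP_decea1_gt_C.Lay

/-!
# MP_decea1_gt, block C, module Lay2: the local lemma for a map supported in small cubes (C7.1)
-/

set_option autoImplicit false

open MeasureTheory Set

namespace Pool.Agent.QM59

private theorem Lay2_le (i : ℕ) : ((i : ℕ) : WithTop ℕ∞) ≤ smo := by
  change (((i : ℕ) : ℕ∞) : WithTop ℕ∞) ≤ ((⊤ : ℕ∞) : WithTop ℕ∞)
  exact WithTop.coe_le_coe.2 le_top

/-- The restriction of `A` to an invariant compact set `K` which is isolated from the rest of the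
support of `A`: `A = id` on `V \ K` for an open set `V ⊇ K`. `A` and `A⁻¹` map `K` onto `K`; the
restricted map is equal to `A` on `V` and to the identity off `K`, and `V`, `Kᶜ` are open, so it and
its inverse are smooth and the Jacobian is one. -/
theorem exists_restrict {A : Equiv.Perm E3} (hd : IsDif A) (hv : Vol A) {K V : Set E3}
    (hK : IsCompact K) (hV : IsOpen V) (hKV : K ⊆ V) (hKA : ∀ x, A x ∈ K ↔ x ∈ K)
    (h : ∀ x ∈ V, x ∉ K → A x = x) :
    ∃ f : Equiv.Perm E3, Ok K f ∧ (∀ x ∈ K, f x = A x) ∧ ∀ x ∈ V, f x = A x := by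
  classical
  have hKA' : ∀ x, A.symm x ∈ K ↔ x ∈ K := fun x => by
    rw [← hKA (A.symm x), Equiv.apply_symm_apply]
  set f : Equiv.Perm E3 :=
    { toFun := fun x => if x ∈ K then A x else x
      invFun := fun x => if x ∈ K then A.symm x else x
      left_inv := fun x => by
        by_cases hx : x ∈ K
        · simp only [hx, if_true, (hKA x).2 hx, Equiv.symm_apply_apply]
        · simp only [hx, if_false]
      right_inv := fun x => by
        by_cases hx : x ∈ K
        · simp only [hx, if_true, (hKA' x).2 hx, Equiv.apply_symm_apply]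
        · simp only [hx, if_false] } with hf
  have f1 : ∀ x ∈ K, f x = A x := fun x hx => if_pos hx
  have f0 : ∀ x, x ∉ K → f x = x := fun x hx => if_neg hx
  have g1 : ∀ x ∈ K, f.symm x = A.symm x := fun x hx => if_pos hx
  have g0 : ∀ x, x ∉ K → f.symm x = x := fun x hx => if_neg hx
  have fV : ∀ x ∈ V, f x = A x := fun x hx => by
    by_cases hxK : x ∈ K
    · exact f1 x hxK
    · rw [f0 x hxK, h x hx hxK]
  have gV : ∀ x ∈ V, f.symm x = A.symm x := fun x hx => by
    by_cases hxK : x ∈ K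
    · exact g1 x hxK
    · rw [g0 x hxK, Equiv.eq_symm_apply]
      exact h x hx hxK
  have hKo : IsOpen Kᶜ := hK.isClosed.isOpen_compl
  refine ⟨f, ⟨⟨?_, ?_⟩, ?_, f0⟩, f1, fV⟩
  · rw [contDiff_iff_contDiffAt]
    intro x
    by_cases hx : x ∈ V
    · refine hd.1.contDiffAt.congr_of_eventuallyEq ?_
      filter_upwards [hV.mem_nhds hx] with y hy using fV y hy
    · refine contDiffAt_id.congr_of_eventuallyEq ?_
      filter_upwards [hKo.mem_nhds (fun hxK => hx (hKV hxK))] with y hy using f0 y hy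
  · rw [contDiff_iff_contDiffAt]
    intro x
    by_cases hx : x ∈ V
    · refine hd.2.contDiffAt.congr_of_eventuallyEq ?_
      filter_upwards [hV.mem_nhds hx] with y hy using gV y hy
    · refine contDiffAt_id.congr_of_eventuallyEq ?_
      filter_upwards [hKo.mem_nhds (fun hxK => hx (hKV hxK))] with y hy using g0 y hy
  · intro x
    by_cases hx : x ∈ V
    · have h1 : (fun y => f y) =ᶠ[nhds x] fun y => A y := by
        filter_upwards [hV.mem_nhds hx] with y hy using fV y hy
      rw [jac, h1.fderiv_eq]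
      exact hv x
    · have h1 : (fun y => f y) =ᶠ[nhds x] fun y => y := by
        filter_upwards [hKo.mem_nhds (fun hxK => hx (hKV hxK))] with y hy using f0 y hy
      rw [jac, h1.fderiv_eq]
      exact Vol.one x

/-- If `f = A` on the open set `V`, and `f = id` off the closed set `K ⊆ V`, then the derivatives
of `disp f` are those of `disp A` on `V` and zero off `K`; conjugation with the inverse of the
homothety `x ↦ p + l x` gives `‖D^i‖ ≤ l^(i-1) ‖D^i (disp A)‖`. -/
theorem bn_restrict {A f : Equiv.Perm E3} (hf : IsDif f) {K V : Set E3} (hK : IsClosed K)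
    (hV : IsOpen V) (hKV : K ⊆ V) (h1 : IdOff K f) (h2 : ∀ x ∈ V, f x = A x) {k : ℕ} {ε l : ℝ}
    (hl : 0 < l) (hε : 0 ≤ ε) (p : E3)
    (h : ∀ i ≤ k, ∀ x, ‖iteratedFDeriv ℝ i (disp A) x‖ * l ^ i ≤ ε * l) :
    Bn k ε (disp ((homoth p l hl.ne')⁻¹ * f * homoth p l hl.ne')) := by
  have hdf : ContDiff ℝ smo (disp f) := hf.1.sub contDiff_id
  have key : ∀ i ≤ k, ∀ z, ‖iteratedFDeriv ℝ i (disp f) z‖ * l ^ i ≤ ε * l := by
    intro i hi z
    by_cases hz : z ∈ V
    · have h3 : disp f =ᶠ[nhds z] disp A := by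
        filter_upwards [hV.mem_nhds hz] with y hy
        simp only [disp, h2 y hy]
      rw [(h3.iteratedFDeriv ℝ i).eq_of_nhds]
      exact h i hi z
    · have h3 : disp f =ᶠ[nhds z] (fun _ => (0 : E3)) := by
        filter_upwards [hK.isOpen_compl.mem_nhds (fun hzK => hz (hKV hzK))] with y hy
        simp only [disp, h1 y hy, sub_self]
      rw [(h3.iteratedFDeriv ℝ i).eq_of_nhds, iteratedFDeriv_fun_zero, Pi.zero_apply, norm_zero,
        zero_mul]
      positivity
  intro i hi y
  have e1 : disp ((homoth p l hl.ne')⁻¹ * f * homoth p l hl.ne') =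
      fun y => l⁻¹ • disp f (p + (l • ContinuousLinearMap.id ℝ E3) y) := by
    funext y
    have e2 : ((homoth p l hl.ne')⁻¹ * f * homoth p l hl.ne') y =
        l⁻¹ • (f (p + l • y) - p) := rfl
    have e4 : (l • ContinuousLinearMap.id ℝ E3) y = l • y := rfl
    simp only [disp, e2, e4]
    rw [smul_sub, smul_sub, smul_add, smul_smul, inv_mul_cancel₀ hl.ne', one_smul]
    abel
  have hg : ContDiff ℝ smo (fun z => disp f (p + z)) :=
    hdf.comp (contDiff_const.add contDiff_id)
  have e3 : iteratedFDeriv ℝ i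
      (fun y => l⁻¹ • disp f (p + (l • ContinuousLinearMap.id ℝ E3) y)) y = l⁻¹ •
        iteratedFDeriv ℝ i ((fun z => disp f (p + z)) ∘ (l • ContinuousLinearMap.id ℝ E3)) y := by
    have hc : ContDiff ℝ smo ((fun z => disp f (p + z)) ∘ (l • ContinuousLinearMap.id ℝ E3)) :=
      hg.comp (l • ContinuousLinearMap.id ℝ E3).contDiff
    exact iteratedFDeriv_const_smul_apply' (hc.contDiffAt.of_le (Lay2_le i))
  rw [e1, e3, ContinuousLinearMap.iteratedFDeriv_comp_right _ hg _ (Lay2_le i),
    norm_smul, iteratedFDeriv_comp_add_left]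
  have h5 := ContinuousMultilinearMap.norm_compContinuousLinearMap_le
    (iteratedFDeriv ℝ i (disp f) (p + (l • ContinuousLinearMap.id ℝ E3) y))
    (fun _ : Fin i => l • ContinuousLinearMap.id ℝ E3)
  have h6 : ‖l • ContinuousLinearMap.id ℝ E3‖ ≤ l := by
    refine ContinuousLinearMap.opNorm_le_bound _ hl.le fun x => ?_
    have e4 : (l • ContinuousLinearMap.id ℝ E3) x = l • x := rfl
    rw [e4, norm_smul, Real.norm_eq_abs, abs_of_pos hl]
  have h7 : ∏ _j : Fin i, ‖l • ContinuousLinearMap.id ℝ E3‖ ≤ l ^ i := by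
    rw [Finset.prod_const, Finset.card_univ, Fintype.card_fin]
    exact pow_le_pow_left₀ (norm_nonneg _) h6 i
  have h8 := h5.trans (mul_le_mul_of_nonneg_left h7 (norm_nonneg _))
  have h9 := h8.trans (key i hi _)
  rw [Real.norm_eq_abs, abs_of_pos (inv_pos.2 hl)]
  calc l⁻¹ * _ ≤ l⁻¹ * (ε * l) := mul_le_mul_of_nonneg_left h9 (inv_pos.2 hl).le
    _ = ε := by field_simp

/-- C7.1 for one map `A` with support in disjoint cubes of the same size, with room around them.
Let `K j = closedBall (p j) l`, `V j = ball (p j) (l * R)`; `A` maps `K j` onto itself (if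
`A x ∈ K j`, then `x` is in some `K i`: otherwise `A x = x`; and `A x ∈ K i`, so `i = j` by
disjointness). `exists_restrict` gives `h j`, `Ok (K j)`, equal to `A` on `V j`; put
`f j = (homoth (p j) l)⁻¹ * h j * homoth (p j) l`: `Ok (closedBall 0 1)` and `Bn k ε (disp (f j))` by
`bn_restrict`. Then `A` is glued from the `h j` (`GlF`), and `LLlayer` applies. -/
theorem LLlayerA : ∃ (k m : ℕ) (ε R : ℝ), 0 < ε ∧ 2 ≤ R ∧
    (∀ f : Equiv.Perm E3, Ok (Metric.closedBall 0 1) f → Bn k ε (disp f) →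
      CP (IsoV (Metric.ball 0 R)) m f) ∧
    ∀ (ι : Type) [Finite ι] (p : ι → E3) (l : ℝ), 0 < l → ∀ (U : Set E3) (A : Equiv.Perm E3),
      (Pairwise fun i j => Disjoint (Metric.ball (p i) (l * R)) (Metric.ball (p j) (l * R))) →
      (∀ j, Metric.ball (p j) (l * R) ⊆ U) → IsDif A → Vol A →
      (∀ x, (∀ j, x ∉ Metric.closedBall (p j) l) → A x = x) →
      (∀ j, ∀ x ∈ Metric.closedBall (p j) l, A x ∈ Metric.closedBall (p j) l) →
      (∀ i ≤ k, ∀ x, ‖iteratedFDeriv ℝ i (disp A) x‖ * l ^ i ≤ ε * l) →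
      CP (IsoV U) m A := by
  obtain ⟨k, m, ε, R, hε, hR, h1, h2⟩ := LLlayer
  refine ⟨k, m, ε, R, hε, hR, h1, ?_⟩
  intro ι _ p l hl U A hdis hU hAd hAv hoff hmaps hbd
  have hKV : ∀ j, Metric.closedBall (p j) l ⊆ Metric.ball (p j) (l * R) := fun j =>
    Metric.closedBall_subset_ball (by nlinarith)
  have hdj : ∀ i j x, x ∈ Metric.closedBall (p i) l → x ∈ Metric.ball (p j) (l * R) → i = j := by
    intro i j x hi hj
    by_contra hij
    exact Set.disjoint_left.1 (hdis hij) (hKV i hi) hj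
  have hKA : ∀ j x, A x ∈ Metric.closedBall (p j) l ↔ x ∈ Metric.closedBall (p j) l := by
    intro j x
    refine ⟨fun hx => ?_, hmaps j x⟩
    by_cases hx2 : ∃ i, x ∈ Metric.closedBall (p i) l
    · obtain ⟨i, hi⟩ := hx2
      have := hdj i j (A x) (hmaps i x hi) (hKV j hx)
      rwa [← this]
    · push Not at hx2
      rwa [hoff x hx2] at hx
  have hVK : ∀ j, ∀ x ∈ Metric.ball (p j) (l * R), x ∉ Metric.closedBall (p j) l → A x = x := by
    intro j x hx hx2
    refine hoff x fun i hi => hx2 ?_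
    have := hdj i j x hi hx
    rwa [← this]
  choose h hOk hhK hhV using fun j => exists_restrict hAd hAv (isCompact_closedBall (p j) l)
    Metric.isOpen_ball (hKV j) (hKA j) (hVK j)
  have hS : ∀ j, IsSim (p j) l (LinearIsometryEquiv.refl ℝ E3) (homoth (p j) l hl.ne') :=
    fun j => homoth_isSim (p j) l hl
  refine h2 ι p (fun _ => l) (fun _ => hl) U
    (fun j => (homoth (p j) l hl.ne')⁻¹ * h j * homoth (p j) l hl.ne') A hdis hU (fun j => ?_)
    (fun j => ?_) ?_
  · have h3 := (hS j).inv.ok (hOk j)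
    rw [(hS j).inv.image_closedBall, inv_inv] at h3
    have e1 : (homoth (p j) l hl.ne')⁻¹ (p j) = 0 := by
      have : (homoth (p j) l hl.ne')⁻¹ (p j) = l⁻¹ • (p j - p j) := rfl
      rw [this, sub_self, smul_zero]
    rwa [e1, inv_mul_cancel₀ hl.ne'] at h3
  · exact bn_restrict (hOk j).dif Metric.isClosed_closedBall Metric.isOpen_ball (hKV j)
      (hOk j).off (hhV j) hl hε.le (p j) hbd
  · have e2 : ∀ j, homoth (p j) l hl.ne' *
        ((homoth (p j) l hl.ne')⁻¹ * h j * homoth (p j) l hl.ne') *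
          (homoth (p j) l hl.ne')⁻¹ = h j := fun j => by group
    refine ⟨fun j x hx => ?_, fun x hx => ?_⟩
    · simp only [e2]
      exact (hhV j x hx).symm
    · exact hoff x fun j hj => hx j (hKV j hj)

end Pool.Agent.QM59
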