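import Mathlib
import Pool.Agent.Lib.MP_decea1_gt_C.Lay2
import Pool.Agent.Lib.MP_decea1_gt_B.B0

/-!
# MP_decea1_gt, block C, module LayQ: quasimorphisms on products of commutators
-/

set_option autoImplicit false

open MeasureTheory Set

namespace Pool.Agent.QM59

/-- Induction on `m`: `HQ.abs_commutator_le`, `HQ.bdd`, `HQ.map_one`. -/
theorem HQ.cp_le {Γ : Subgroup (Equiv.Perm E3)} {φ : Equiv.Perm E3 → ℝ} {D : ℝ}
    (hφ : HQ Γ φ D) {H : Subgroup (Equiv.Perm E3)} (hH : H ≤ Γ) {m : ℕ} {f : Equiv.Perm E3}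
    (hf : CP H m f) : |φ f| ≤ 2 * m * D := by
  have hD := hφ.nonneg
  have key : ∀ l : List (Equiv.Perm E3), (∀ x ∈ l, x ∈ Γ ∧ |φ x| ≤ D) →
      l.prod ∈ Γ ∧ |φ l.prod| ≤ 2 * (l.length : ℝ) * D := by
    intro l
    induction l with
    | nil =>
      intro _
      refine ⟨Γ.one_mem, ?_⟩
      rw [List.prod_nil, hφ.map_one, abs_zero, List.length_nil]
      simp
    | cons x l ih =>
      intro h
      obtain ⟨h1, h2⟩ := h x List.mem_cons_self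
      obtain ⟨h3, h4⟩ := ih fun y hy => h y (List.mem_cons_of_mem x hy)
      rw [List.prod_cons, List.length_cons]
      refine ⟨Γ.mul_mem h1 h3, ?_⟩
      have h5 := hφ.bdd x h1 l.prod h3
      have h6 : φ (x * l.prod) = (φ (x * l.prod) - φ x - φ l.prod) + φ x + φ l.prod := by ring
      have h7 := abs_add_le ((φ (x * l.prod) - φ x - φ l.prod) + φ x) (φ l.prod)
      have h8 := abs_add_le (φ (x * l.prod) - φ x - φ l.prod) (φ x)
      rw [h6]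
      push_cast
      linarith
  obtain ⟨a, b, h1, rfl⟩ := hf
  have h2 := (key (List.ofFn fun i => a i * b i * (a i)⁻¹ * (b i)⁻¹) fun x hx => by
    obtain ⟨i, rfl⟩ := (List.mem_ofFn' _ _).1 hx
    have ha := hH (h1 i).1
    have hb := hH (h1 i).2
    exact ⟨Γ.mul_mem (Γ.mul_mem (Γ.mul_mem ha hb) (Γ.inv_mem ha)) (Γ.inv_mem hb),
      hφ.abs_commutator_le ha hb⟩).2
  rwa [List.length_ofFn] at h2

/-- `IsoV Cube ≤ Γ` for a good group `Γ` (`Good.iso`). -/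
theorem IsoV_le_of_good {Γ : Subgroup (Equiv.Perm E3)} (hΓ : Good Γ) : IsoV Cube ≤ Γ := by
  exact fun f hf => hΓ.iso f hf.1 hf.2

/-- C7.1 as it is used in block E. -/
theorem LLlayerQ : ∃ (k m : ℕ) (ε R : ℝ), 0 < ε ∧ 2 ≤ R ∧
    ∀ (Γ : Subgroup (Equiv.Perm E3)) (φ : Equiv.Perm E3 → ℝ) (D : ℝ), Good Γ → HQ Γ φ D →
    ∀ (ι : Type) [Finite ι] (p : ι → E3) (l : ℝ), 0 < l → ∀ A : Equiv.Perm E3,
      (Pairwise fun i j => Disjoint (Metric.ball (p i) (l * R)) (Metric.ball (p j) (l * R))) →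
      (∀ j, Metric.ball (p j) (l * R) ⊆ Cube) → IsDif A → Vol A →
      (∀ x, (∀ j, x ∉ Metric.closedBall (p j) l) → A x = x) →
      (∀ j, ∀ x ∈ Metric.closedBall (p j) l, A x ∈ Metric.closedBall (p j) l) →
      (∀ i ≤ k, ∀ x, ‖iteratedFDeriv ℝ i (disp A) x‖ * l ^ i ≤ ε * l) →
      |φ A| ≤ 2 * m * D := by
  obtain ⟨k, m, ε, R, hε, hR, -, h⟩ := LLlayerA
  refine ⟨k, m, ε, R, hε, hR, fun Γ φ D hΓ hφ ι _ p l hl A h1 h2 h3 h4 h5 h6 h7 => ?_⟩
  exact hφ.cp_le (IsoV_le_of_good hΓ) (h ι p l hl Cube A h1 h2 h3 h4 h5 h6 h7)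

end Pool.Agent.QM59
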