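import Mathlib
import Pool.Agent.Lib.MP_decea1_gt_C.LayQ
import Pool.Agent.Lib.MP_decea1_gt_E.EDefs

/-!
# MP_decea1_gt, block C, module LLLx: the export of C7.1 in the form of block E
-/

set_option autoImplicit false

open MeasureTheory Set

namespace Pool.Agent.QM59

theorem exists_LLL : ∃ (k : ℕ) (ε R C : ℝ), 0 < ε ∧ 1 ≤ R ∧ 0 ≤ C ∧ LLL k ε R C := by
  obtain ⟨k, m, ε, R, hε, hR, h⟩ := LLlayerQ
  refine ⟨k, ε, R, 2 * m, hε, by linarith, by positivity, ?_⟩
  intro Γ φ D hΓ hφ n p l A hl h1 h2 hd hv hoff hmaps hbd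
  refine h Γ φ D hΓ hφ (Fin n) p l hl A ?_ ?_ hd hv ?_ hmaps ?_
  · intro i j hij
    have := h2 hij
    rwa [mul_comm R l] at this
  · intro j
    have := h1 j
    rwa [mul_comm R l] at this
  · intro x hx
    apply hoff
    rw [mem_iUnion]
    rintro ⟨j, hj⟩
    exact hx j hj
  · intro i hi x
    rw [mul_comm]
    exact hbd i hi x

end Pool.Agent.QM59
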