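import Pool.Agent.Lib.MP_decea1_gt_C.LinE

/-!
# MP_decea1_gt, block C, C4, linear equation, module LinP: primitives with compact support
-/

set_option autoImplicit false

open MeasureTheory Set Filter Topology

namespace Pool.Agent.QM59

/-- the centre of the boxes -/
private def linp_c : E3 := ![0, 0, 7]

private theorem linp_mem (ρ : ℝ) (x : E3) : x ∈ BX ρ ρ ↔ ∀ i, |x i - linp_c i| ≤ ρ := by
  constructor
  · rintro ⟨h0, h1, h2⟩ i
    fin_cases i
    · simpa [linp_c] using h0
    · simpa [linp_c] using h1
    · simpa [linp_c] using h2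
  · intro h
    refine ⟨?_, ?_, ?_⟩
    · simpa [linp_c] using h 0
    · simpa [linp_c] using h 1
    · simpa [linp_c] using h 2

private theorem linp_same (l : Fin 3) (x : E3) (t : ℝ) : (x - t • ev l) l = x l - t := by
  simp [ev]

private theorem linp_ne {i l : Fin 3} (h : i ≠ l) (x : E3) (t : ℝ) :
    (x - t • ev l) i = x i := by
  simp [ev, Pi.single_eq_of_ne h]

/-- the indicator function of the positive numbers -/
private noncomputable def linp_w : ℝ → ℝ := (Ioi 0).indicator fun _ => 1

private theorem linp_w_loc : LocallyIntegrable linp_w :=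
  (locallyIntegrable_const 1).indicator measurableSet_Ioi

private theorem linp_w_pos {t : ℝ} (h : 0 < t) : linp_w t = 1 :=
  indicator_of_mem (mem_Ioi.2 h) _

private theorem linp_w_neg {t : ℝ} (h : t ≤ 0) : linp_w t = 0 :=
  indicator_of_notMem (fun h' => absurd (mem_Ioi.1 h') (not_lt.2 h)) _

private theorem linp_w_le (t : ℝ) : |linp_w t| ≤ 1 := by
  rcases le_or_gt t 0 with h | h
  · rw [linp_w_neg h]
    simp
  · rw [linp_w_pos h]
    simp

/-- `G x = ∫_{t > 0} D (x - t • ev l) dt = linCv w l D x`, `w` the indicator function of `Ioi 0`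
(locally integrable, bounded by one). Smooth: `lin_cv_smooth`; the bound: `lin_cv_bd_slab`.
Derivative: `pd l G x = ∫_{t > 0} pd l D (x - t • ev l) dt = D x` (`lin_cv_hasFDerivAt`;
`HasCompactSupport.integral_Ioi_deriv_eq` for `t ↦ D (x - t • ev l)`).
Support: let `x ∉ BX ρ ρ`. If a coordinate different from `l` is out of its interval, or the
coordinate `l` is below its interval, then `D (x - t • ev l) = 0` for all `t > 0`; if it is above,
then `D (x - t • ev l) = 0` for all `t ≤ 0`, and the integral over `t > 0` is the integral over all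
`t`, which is zero by `hz`. -/
theorem lin_prim (l : Fin 3) {ρ : ℝ} (hρ : 0 ≤ ρ) {D : E3 → ℝ} (hD : LinS ρ D)
    (hz : ∀ x, ∫ t : ℝ, D (x - t • ev l) = 0) :
    ∃ G : E3 → ℝ, LinS ρ G ∧ pd l G = D ∧ ∀ (i : ℕ) (a : ℝ),
      (∀ x, ‖iteratedFDeriv ℝ i D x‖ ≤ a) → ∀ x, ‖iteratedFDeriv ℝ i G x‖ ≤ 2 * ρ * a := by
  refine ⟨linCv linp_w l D, ⟨lin_cv_smooth linp_w_loc l hD.sm hD.hcs, ?_⟩, ?_, ?_⟩
  · intro x hx
    rw [linp_mem] at hx
    push Not at hx
    obtain ⟨i, hi⟩ := hx
    by_cases hil : i = l
    · subst hil
      rcases lt_abs.1 hi with h | h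
      · have h1 : ∀ t, linp_w t • D (x - t • ev i) = D (x - t • ev i) := by
          intro t
          rcases le_or_gt t 0 with ht | ht
          · have h2 : D (x - t • ev i) = 0 := by
              refine hD.off _ fun hm => ?_
              have h3 := (linp_mem ρ _).1 hm i
              rw [linp_same] at h3
              have h4 := (abs_le.1 h3).2
              linarith
            rw [h2, smul_zero]
          · rw [linp_w_pos ht, one_smul]
        unfold linCv
        simp only [h1]
        exact hz x
      · have h1 : ∀ t, linp_w t • D (x - t • ev i) = 0 := by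
          intro t
          rcases le_or_gt t 0 with ht | ht
          · rw [linp_w_neg ht, zero_smul]
          · have h2 : D (x - t • ev i) = 0 := by
              refine hD.off _ fun hm => ?_
              have h3 := (linp_mem ρ _).1 hm i
              rw [linp_same] at h3
              have h4 := (abs_le.1 h3).1
              linarith
            rw [h2, smul_zero]
        unfold linCv
        simp only [h1, integral_zero]
    · have h1 : ∀ t, linp_w t • D (x - t • ev l) = 0 := by
        intro t
        have h2 : D (x - t • ev l) = 0 := by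
          refine hD.off _ fun hm => ?_
          have h3 := (linp_mem ρ _).1 hm i
          rw [linp_ne hil] at h3
          exact absurd h3 (not_le.2 hi)
        rw [h2, smul_zero]
      unfold linCv
      simp only [h1, integral_zero]
  · funext x
    have hD1 : ContDiff ℝ 1 D := hD.sm.of_le (by simp)
    have hfd : Continuous (fderiv ℝ D) := hD1.continuous_fderiv (by simp)
    have h1 := lin_cv_hasFDerivAt linp_w_loc l hD1 hD.hcs x
    have h2 := lin_cv_integrable linp_w_loc l hfd (hD.hcs.fderiv (𝕜 := ℝ)) x
    unfold pd
    rw [h1.fderiv]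
    unfold linCv
    rw [ContinuousLinearMap.integral_apply h2]
    set φ : ℝ → ℝ := fun t => D (x - t • ev l) with hφ
    have hφ1 : ContDiff ℝ 1 φ :=
      hD1.comp (contDiff_const.sub (contDiff_id.smul contDiff_const))
    have hφd : ∀ t, HasDerivAt φ (-(fderiv ℝ D (x - t • ev l) (ev l))) t := by
      intro t
      have h3 : HasDerivAt (fun t : ℝ => x - t • ev l) (-(ev l)) t := by
        have h4 := ((hasDerivAt_id t).smul_const (ev l)).const_sub x
        simpa using h4
      have h5 : HasFDerivAt D (fderiv ℝ D (x - t • ev l)) (x - t • ev l) :=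
        ((hD1.differentiable (by simp)) _).hasFDerivAt
      have h6 := h5.comp_hasDerivAt t h3
      rw [map_neg] at h6
      exact h6
    have hφc : HasCompactSupport φ := by
      refine HasCompactSupport.intro
        (isCompact_Icc (a := x l - linp_c l - ρ) (b := x l - linp_c l + ρ)) fun t ht => ?_
      refine hD.off _ fun hm => ht ?_
      have h3 := (linp_mem ρ _).1 hm l
      rw [linp_same] at h3
      have h4 := abs_le.1 h3
      exact ⟨by linarith [h4.2], by linarith [h4.1]⟩
    have h3 : (fun t => (linp_w t • fderiv ℝ D (x - t • ev l)) (ev l)) =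
        (Ioi (0 : ℝ)).indicator fun t => -(deriv φ t) := by
      funext t
      rcases le_or_gt t 0 with ht | ht
      · rw [linp_w_neg ht, zero_smul, indicator_of_notMem (by simpa using ht)]
        rfl
      · rw [linp_w_pos ht, one_smul, indicator_of_mem (mem_Ioi.2 ht), (hφd t).deriv, neg_neg]
    rw [h3, integral_indicator measurableSet_Ioi, integral_neg,
      HasCompactSupport.integral_Ioi_deriv_eq hφ1 hφc 0, neg_neg]
    simp [hφ]
  · intro i a ha x
    exact lin_cv_bd_slab linp_w_loc linp_w_le l hρ hD ha x

end Pool.Agent.QM59
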