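import Pool.Agent.Lib.MP_decea1_gt_C.LinR
import Pool.Agent.Lib.MP_decea1_gt_C.LinP

/-!
# MP_decea1_gt, block C, C4, linear equation, module LinB: one direction
-/

set_option autoImplicit false

open MeasureTheory Set Filter Topology

namespace Pool.Agent.QM59

private theorem linb_at {f : E3 → ℝ} (h : ContDiff ℝ smo f) (i : ℕ) (x : E3) :
    ContDiffAt ℝ i f x :=
  (h.of_le (show ((i : ℕ∞) : WithTop ℕ∞) ≤ smo from
    WithTop.coe_le_coe.mpr le_top)).contDiffAt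

/-- the sum of the first `n` functions is bounded -/
private theorem linb_sum {g : ℕ → E3 → ℝ} (hg : ∀ r, ContDiff ℝ smo (g r)) {i : ℕ} {a b : ℝ}
    (ha : 0 ≤ a) (hb : 0 ≤ b) (x : E3) (h0 : ‖iteratedFDeriv ℝ i (g 0) x‖ ≤ a)
    (h1 : ∀ r, ‖iteratedFDeriv ℝ i (g (r + 1)) x‖ ≤ 2 ^ r * b) (n : ℕ) :
    ContDiff ℝ smo (fun y => ∑ r ∈ Finset.range n, g r y) ∧
      ‖iteratedFDeriv ℝ i (fun y => ∑ r ∈ Finset.range n, g r y) x‖ ≤ a + 2 ^ n * b := by
  induction n with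
  | zero =>
    simp only [Finset.range_zero, Finset.sum_empty]
    refine ⟨contDiff_const, ?_⟩
    have h2 : iteratedFDeriv ℝ i (fun _ : E3 => (0 : ℝ)) x = 0 := by
      have h3 := iteratedFDeriv_fun_zero (𝕜 := ℝ) (E := E3) (F := ℝ) (n := i)
      exact congrFun h3 x
    rw [h2, norm_zero]
    positivity
  | succ n ih =>
    obtain ⟨h2, h3⟩ := ih
    have h4 : (fun y => ∑ r ∈ Finset.range (n + 1), g r y) =
        (fun y => ∑ r ∈ Finset.range n, g r y) + g n := by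
      funext y
      rw [Finset.sum_range_succ, Pi.add_apply]
    rw [h4]
    refine ⟨h2.add (hg n), ?_⟩
    rw [iteratedFDeriv_add_apply (linb_at h2 i x) (linb_at (hg n) i x)]
    refine (norm_add_le _ _).trans ?_
    cases n with
    | zero =>
      simp only [Finset.range_zero, Finset.sum_empty] at h3 ⊢
      have h2 : iteratedFDeriv ℝ i (fun _ : E3 => (0 : ℝ)) x = 0 := by
        have h3 := iteratedFDeriv_fun_zero (𝕜 := ℝ) (E := E3) (F := ℝ) (n := i)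
        exact congrFun h3 x
      rw [h2, norm_zero, zero_add]
      have : 0 ≤ (2 : ℝ) ^ (0 + 1) * b := by positivity
      linarith
    | succ m =>
      have h5 := h1 m
      have h6 : (2 : ℝ) ^ (m + 1 + 1) * b = 2 ^ (m + 1) * b + 2 ^ m * b + 2 ^ m * b := by
        ring
      have h7 : 0 ≤ (2 : ℝ) ^ m * b := by positivity
      linarith

/-- `G` from `lin_prim` (`ρ = 11/10`), `R` with `2^R ≤ γ⁻¹ < 2^(R+1)` (`exists_nat_pow_near`), so
`R γ ≤ 2^R γ ≤ 1`. Put `u = γ⁻¹ ∑_{r<R} E^r G`, `e = - E^R D`, `E = linE γ l`. By `linA_tele` for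
`E^r G` and `pd_linEr`: `E^r D - E^(r+1) D = γ⁻¹ (E^r G - (E^r G)(· - γ e_l))`; sum over `r < R`
(`Finset.sum_range_sub'`): `D - E^R D = u - u (· - γ e_l)`. Supports: `11/10 + R γ ≤ 21/10`. Bound of
`u`: `‖D^i G‖ ≤ (11/5) a`, `‖D^i (E^r G)‖ ≤ 2^(r-1) γ a` for `1 ≤ r` (`linEr_bdg`), and
`∑_{1≤r<R} 2^(r-1) γ ≤ 2^R γ ≤ 1`. Bound of `e`: `linEr_bdall`. -/
theorem lin_dir (l : Fin 3) {γ : ℝ} (hγ : 0 < γ) (hγ1 : γ ≤ 1) {D : E3 → ℝ}
    (hD : LinS (11 / 10) D) (hz : ∀ x, ∫ t : ℝ, D (x - t • ev l) = 0) :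
    ∃ u e : E3 → ℝ, LinS (14 / 5) u ∧ LinS (14 / 5) e ∧
      (∀ x, D x = (u x - u (x - γ • ev l)) - e x) ∧
      (∀ (i : ℕ) (a : ℝ), (∀ x, ‖iteratedFDeriv ℝ i D x‖ ≤ a) →
        ∀ x, ‖iteratedFDeriv ℝ i u x‖ ≤ 4 * γ⁻¹ * a) ∧
      ∀ (i s : ℕ) (a : ℝ), (∀ j ≤ i + s, ∀ x, ‖iteratedFDeriv ℝ j D x‖ ≤ a) →
        ∀ x, ‖iteratedFDeriv ℝ i e x‖ ≤ 2 ^ (s * s + s) * γ ^ s * γ⁻¹ * a := by
  obtain ⟨G, hG, hGD, hGb⟩ := lin_prim l (by norm_num : (0 : ℝ) ≤ 11 / 10) hD hz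
  have hγi : 0 < γ⁻¹ := inv_pos.mpr hγ
  obtain ⟨R, hR1, hR2⟩ := exists_nat_pow_near (one_le_inv_iff₀.mpr ⟨hγ, hγ1⟩)
    (one_lt_two (α := ℝ))
  have hR3 : (2 : ℝ) ^ R * γ ≤ 1 := by
    have h1 := mul_le_mul_of_nonneg_right hR1 hγ.le
    rwa [inv_mul_cancel₀ hγ.ne'] at h1
  have hR4 : (R : ℝ) * γ ≤ 1 := by
    have h1 : (R : ℝ) ≤ 2 ^ R := by exact_mod_cast (Nat.lt_two_pow_self (n := R)).le
    exact (mul_le_mul_of_nonneg_right h1 hγ.le).trans hR3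
  have hGr : ∀ r : ℕ, LinS (11 / 10 + r * γ) ((linE γ l)^[r] G) := fun r => linEr hG hγ l r
  have hpd : ∀ r : ℕ, pd l ((linE γ l)^[r] G) = (linE γ l)^[r] D := fun r => by
    rw [pd_linEr hG hγ l r, hGD]
  have htele : ∀ (r : ℕ) (x : E3), (linE γ l)^[r] D x - (linE γ l)^[r + 1] D x =
      γ⁻¹ * ((linE γ l)^[r] G x - (linE γ l)^[r] G (x - γ • ev l)) := by
    intro r x
    have h1 := linA_tele (hGr r) hγ l x
    rw [hpd r] at h1
    rw [Function.iterate_succ_apply']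
    exact h1
  have hoff : ∀ r ≤ R, ∀ x, x ∉ BX (14 / 5) (14 / 5) → (linE γ l)^[r] G x = 0 := by
    intro r hr x hx
    have h1 : (r : ℝ) * γ ≤ 1 :=
      (mul_le_mul_of_nonneg_right (by exact_mod_cast hr) hγ.le).trans hR4
    exact ((hGr r).mono (by linarith)).off x hx
  have hsm : ContDiff ℝ smo (fun x => ∑ r ∈ Finset.range R, (linE γ l)^[r] G x) :=
    ContDiff.sum fun r _ => (hGr r).sm
  refine ⟨fun x => γ⁻¹ * ∑ r ∈ Finset.range R, (linE γ l)^[r] G x,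
    fun x => -((linE γ l)^[R] D x), ⟨contDiff_const.mul hsm, ?_⟩, ?_, ?_, ?_, ?_⟩
  · intro x hx
    rw [Finset.sum_eq_zero fun r hr => hoff r (Finset.mem_range.mp hr).le x hx, mul_zero]
  · have h1 := (linEr hD hγ l R).mono (ρ' := 14 / 5) (by linarith)
    exact ⟨h1.sm.neg, fun x hx => by rw [h1.off x hx, neg_zero]⟩
  · intro x
    have h1 : γ⁻¹ * ∑ r ∈ Finset.range R, (linE γ l)^[r] G x -
        γ⁻¹ * ∑ r ∈ Finset.range R, (linE γ l)^[r] G (x - γ • ev l) =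
        ∑ r ∈ Finset.range R, ((linE γ l)^[r] D x - (linE γ l)^[r + 1] D x) := by
      rw [← mul_sub, ← Finset.sum_sub_distrib, Finset.mul_sum]
      exact Finset.sum_congr rfl fun r _ => (htele r x).symm
    simp only
    rw [h1, Finset.sum_range_sub' (fun r => (linE γ l)^[r] D x) R, Function.iterate_zero_apply]
    ring
  · intro i a ha x
    have ha0 : 0 ≤ a := (norm_nonneg _).trans (ha x)
    have h1 := (linb_sum (g := fun r => (linE γ l)^[r] G) (i := i) (a := 11 / 5 * a)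
      (b := γ * a) (fun r => (hGr r).sm) (by positivity) (by positivity) x
      (by
        have h2 := hGb i a ha x
        rw [Function.iterate_zero]
        refine h2.trans (le_of_eq ?_)
        ring)
      (fun r => linEr_bdg hG hγ l r (by rw [hGD]; exact ha) x) R).2
    have h2 : iteratedFDeriv ℝ i (fun x => γ⁻¹ * ∑ r ∈ Finset.range R, (linE γ l)^[r] G x) x =
        γ⁻¹ • iteratedFDeriv ℝ i (fun x => ∑ r ∈ Finset.range R, (linE γ l)^[r] G x) x :=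
      iteratedFDeriv_const_smul_apply' (a := γ⁻¹) (linb_at hsm i x)
    rw [h2, norm_smul, Real.norm_eq_abs, abs_of_pos hγi]
    have h3 : 11 / 5 * a + 2 ^ R * (γ * a) ≤ 4 * a := by
      have h4 : (2 : ℝ) ^ R * (γ * a) ≤ a := by
        rw [← mul_assoc]
        exact mul_le_of_le_one_left ha0 hR3
      linarith
    calc γ⁻¹ * ‖iteratedFDeriv ℝ i (fun x => ∑ r ∈ Finset.range R, (linE γ l)^[r] G x) x‖
        ≤ γ⁻¹ * (4 * a) := mul_le_mul_of_nonneg_left (h1.trans h3) hγi.le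
      _ = 4 * γ⁻¹ * a := by ring
  · intro i s a ha x
    have h1 : iteratedFDeriv ℝ i (fun x => -((linE γ l)^[R] D x)) x =
        -iteratedFDeriv ℝ i ((linE γ l)^[R] D) x := iteratedFDeriv_neg_apply
    rw [h1, norm_neg]
    exact linEr_bdall hD hγ hγ1 l hR1 hR2 ha x

end Pool.Agent.QM59
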