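import Pool.Agent.Lib.MP_decea1_gt_C.LinK

/-!
# MP_decea1_gt, block C, C4, linear equation, module LinC: the splitting
-/

set_option autoImplicit false

open MeasureTheory Set Filter Topology

namespace Pool.Agent.QM59

private theorem sub_bd {ρ : ℝ} {f g : E3 → ℝ} (hf : LinS ρ f) (hg : LinS ρ g) {i : ℕ} {a b : ℝ}
    {x : E3} (ha : ‖iteratedFDeriv ℝ i f x‖ ≤ a) (hb : ‖iteratedFDeriv ℝ i g x‖ ≤ b) :
    ‖iteratedFDeriv ℝ i (fun y => f y - g y) x‖ ≤ a + b := by
  have hi : (i : WithTop ℕ∞) ≤ smo := by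
    have : ((i : ℕ∞) : WithTop ℕ∞) ≤ smo := WithTop.coe_le_coe.2 le_top
    simpa using this
  have cf : ContDiff ℝ i f := hf.sm.of_le hi
  have cg : ContDiff ℝ i g := hg.sm.of_le hi
  have e1 : iteratedFDeriv ℝ i (fun y => f y - g y) x =
      iteratedFDeriv ℝ i f x - iteratedFDeriv ℝ i g x := by
    have e2 : (fun y => f y - g y) = f + (-g) := by
      funext y; simp [sub_eq_add_neg]
    have cg' : ContDiff ℝ i (-g) := cg.neg
    rw [e2, iteratedFDeriv_add_apply cf.contDiffAt cg'.contDiffAt, iteratedFDeriv_neg_apply,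
      sub_eq_add_neg]
  rw [e1]
  exact (norm_sub_le _ _).trans (add_le_add ha hb)

private theorem sub_S {ρ : ℝ} {f g : E3 → ℝ} (hf : LinS ρ f) (hg : LinS ρ g) :
    LinS ρ (fun y => f y - g y) :=
  ⟨hf.sm.sub hg.sm, fun x hx => by simp only [hf.off x hx, hg.off x hx, sub_zero]⟩

private theorem int_line {ρ : ℝ} {f : E3 → ℝ} (hf : LinS ρ f) (l : Fin 3) (x : E3) :
    Integrable (fun t : ℝ => f (x - t • ev l)) := by
  have h := lin_cv_integrable (w := fun _ => (1 : ℝ)) (locallyIntegrable_const 1) l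
    hf.sm.continuous hf.hcs x
  simpa using h

private theorem line_sub {ρ : ℝ} {f g : E3 → ℝ} (hf : LinS ρ f) (hg : LinS ρ g) (l : Fin 3)
    (x : E3) (h : ∫ t : ℝ, g (x - t • ev l) = ∫ t : ℝ, f (x - t • ev l)) :
    ∫ t : ℝ, (f (x - t • ev l) - g (x - t • ev l)) = 0 := by
  rw [integral_sub (int_line hf l x) (int_line hg l x), h, sub_self]

/-- `D 0 = f - K_0 f`, `D 1 = K_0 f - K_1 K_0 f`, `D 2 = K_1 K_0 f - K_2 K_1 K_0 f = K_1 K_0 f`
(`linK_all`), `K_l = linK β l` for a fixed bump. Line integrals: `linK_line` (and integrability,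
`lin_cv_integrable` with `w = 1`). -/
theorem lin_split : ∃ C : ℕ → ℝ, (∀ i, 1 ≤ C i) ∧ ∀ f : E3 → ℝ, LinS (11 / 10) f →
    ∫ x, f x = 0 → ∃ D : Fin 3 → E3 → ℝ, (∀ l, LinS (11 / 10) (D l)) ∧
      (∀ l x, ∫ t : ℝ, D l (x - t • ev l) = 0) ∧ (∀ x, f x = D 0 x + D 1 x + D 2 x) ∧
      ∀ (i : ℕ) (A : ℝ), (∀ j ≤ i, ∀ x, ‖iteratedFDeriv ℝ j f x‖ ≤ A) →
        ∀ l x, ‖iteratedFDeriv ℝ i (D l) x‖ ≤ C i * A := by
  obtain ⟨β, hβ⟩ := exists_linBump
  obtain ⟨C, hC, hK⟩ := linK_bd hβ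
  have hM : ∀ i, 1 ≤ ∑ k ∈ Finset.range (i + 1), C k := fun i =>
    (hC i).trans (Finset.single_le_sum (f := C) (fun k _ => zero_le_one.trans (hC k))
      (Finset.mem_range.2 (Nat.lt_succ_self i)))
  refine ⟨fun i => 2 * (C i * ∑ k ∈ Finset.range (i + 1), C k), fun i => ?_, fun f hf h0 => ?_⟩
  · have := one_le_mul_of_one_le_of_one_le (hC i) (hM i)
    linarith
  have hf1 := linK_S hβ 0 hf
  have hf2 := linK_S hβ 1 hf1
  have hz : linK β 2 (linK β 1 (linK β 0 f)) = fun _ => 0 := funext (linK_all hβ hf h0)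
  refine ⟨![fun x => f x - linK β 0 f x, fun x => linK β 0 f x - linK β 1 (linK β 0 f) x,
    linK β 1 (linK β 0 f)], ?_, ?_, ?_, ?_⟩
  · intro l
    fin_cases l
    · exact sub_S hf hf1
    · exact sub_S hf1 hf2
    · exact hf2
  · intro l x
    fin_cases l
    · exact line_sub hf hf1 0 x (linK_line hβ 0 hf x)
    · exact line_sub hf1 hf2 1 x (linK_line hβ 1 hf1 x)
    · have h := linK_line hβ 2 hf2 x
      rw [hz] at h
      simpa using h.symm
  · intro x
    show f x = (f x - linK β 0 f x) + (linK β 0 f x - linK β 1 (linK β 0 f) x) +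
      linK β 1 (linK β 0 f) x
    ring
  · intro i A hA
    have hA0 : 0 ≤ A := (norm_nonneg _).trans (hA 0 (Nat.zero_le _) 0)
    set M : ℝ := ∑ k ∈ Finset.range (i + 1), C k with hMdef
    have hM1 : 1 ≤ M := hM i
    have b1 : ∀ j ≤ i, ∀ x, ‖iteratedFDeriv ℝ j (linK β 0 f) x‖ ≤ C j * A := fun j hj x =>
      hK 0 f hf j A (fun k hk => hA k (hk.trans hj)) x
    have b1' : ∀ j ≤ i, ∀ x, ‖iteratedFDeriv ℝ j (linK β 0 f) x‖ ≤ M * A := fun j hj x =>
      (b1 j hj x).trans (mul_le_mul_of_nonneg_right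
        (Finset.single_le_sum (f := C) (fun k _ => zero_le_one.trans (hC k))
          (Finset.mem_range.2 (Nat.lt_succ_of_le hj))) hA0)
    have b2 : ∀ x, ‖iteratedFDeriv ℝ i (linK β 1 (linK β 0 f)) x‖ ≤ C i * (M * A) := fun x =>
      hK 1 _ hf1 i (M * A) b1' x
    have hCi := hC i
    have c0 : 0 ≤ C i * A := mul_nonneg (zero_le_one.trans hCi) hA0
    have c1 : A ≤ C i * A := le_mul_of_one_le_left hA0 hCi
    have c2 : C i * A ≤ C i * M * A := by
      have := le_mul_of_one_le_right c0 hM1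
      nlinarith
    have c3 : C i * (M * A) = C i * M * A := by ring
    intro l x
    fin_cases l
    · refine (sub_bd hf hf1 (hA i le_rfl x) (b1 i le_rfl x)).trans ?_
      show A + C i * A ≤ 2 * (C i * M) * A
      linarith
    · refine (sub_bd hf1 hf2 (b1 i le_rfl x) (b2 x)).trans ?_
      show C i * A + C i * (M * A) ≤ 2 * (C i * M) * A
      linarith
    · refine (b2 x).trans ?_
      show C i * (M * A) ≤ 2 * (C i * M) * A
      linarith

end Pool.Agent.QM59
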