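import Pool.Agent.Lib.MP_decea1_gt_C.LinM1
import Pool.Agent.Lib.MP_decea1_gt_A.Bump

/-!
# MP_decea1_gt, block C, C4, linear equation, module LinM: the mean
-/

set_option autoImplicit false

open MeasureTheory Set Filter Topology

namespace Pool.Agent.QM59

private theorem lin_mean_bump : ∃ b : E3 → ℝ, LinS (1 / 4) b ∧ ∫ x, b x = 1 := by
  set c : E3 := ![0, 0, 7] with hc
  obtain ⟨b, h1, -, -, h4, r, hr, hrU, h5⟩ := exists_bump3
    (Box (fun i => c i - 1 / 4) (fun i => c i + 1 / 4)) (isOpen_Box _ _) c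
    (fun i => ⟨by simp only; linarith, by simp only; linarith⟩)
  refine ⟨b, ⟨h1, fun x hx => h5 x fun hx' => hx ?_⟩, h4⟩
  have hx1 : x ∈ Icc (fun i => c i - r) (fun i => c i + r) :=
    ⟨fun i => by have := hx'.1 i; simp only at this ⊢; linarith,
      fun i => by have := hx'.2 i; simp only at this ⊢; linarith⟩
  have hx2 := hrU hx1
  have a0 := hx2 0
  have a1 := hx2 1
  have a2 := hx2 2
  have c0 : c 0 = 0 := rfl
  have c1 : c 1 = 0 := rfl
  have c2 : c 2 = 7 := rfl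
  simp only [c0, c1, c2] at a0 a1 a2
  refine ⟨?_, ?_, ?_⟩
  · rw [abs_le]
    constructor <;> linarith [a0.1, a0.2]
  · rw [abs_le]
    constructor <;> linarith [a1.1, a1.2]
  · rw [abs_le]
    constructor <;> linarith [a2.1, a2.2]

private theorem lin_mean_nat (i : ℕ) : (i : WithTop ℕ∞) ≤ smo := by
  change ((i : ℕ∞) : WithTop ℕ∞) ≤ ((⊤ : ℕ∞) : WithTop ℕ∞)
  exact WithTop.coe_le_coe.mpr le_top

private theorem lin_mean_bdd {ρ : ℝ} {b : E3 → ℝ} (hb : LinS ρ b) (i : ℕ) :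
    ∃ M : ℝ, 0 ≤ M ∧ ∀ x, ‖iteratedFDeriv ℝ i b x‖ ≤ M := by
  have h1 : HasCompactSupport (iteratedFDeriv ℝ i b) := hb.hcs.iteratedFDeriv i
  have h2 : Continuous (iteratedFDeriv ℝ i b) := hb.sm.continuous_iteratedFDeriv (lin_mean_nat i)
  obtain ⟨M, hM⟩ := h2.bounded_above_of_compact_support h1
  exact ⟨M, (norm_nonneg _).trans (hM 0), hM⟩

private theorem lin_mean_int {ρ : ℝ} {b : E3 → ℝ} (hb : LinS ρ b) : Integrable b :=
  hb.sm.continuous.integrable_of_hasCompactSupport hb.hcs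

/-- `b` a bump of integral one with `LinS (1/4) b` (`exists_bump3` in a small box around `(0,0,7)`),
`μ = 1 + γ`, `u = -(2 γ + γ²)⁻¹ (∫ h) b` (`1 - μ² = -(2 γ + γ²)`), so
`u x - μ² u (MdI μ x) = -(2 γ + γ²)⁻¹ (∫ h) (b x - μ² b (MdI μ x))`: integral
`-(2 γ + γ²)⁻¹ (∫ h) (1 - μ²) = ∫ h` (`lin_md_int`), support in `BX 1 1` (`lin_md_supp`), derivatives
bounded by `(2 γ)⁻¹ |∫ h| C γ` (`lin_md_bd`). `|∫ h| ≤ A * volume.real (BX (11/10) (11/10))`. -/
theorem lin_mean : ∃ C : ℕ → ℝ, (∀ i, 1 ≤ C i) ∧ ∀ (γ : ℝ) (h : E3 → ℝ), 0 < γ → γ ≤ 1 →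
    LinS (11 / 10) h → ∃ u : E3 → ℝ, LinS (14 / 5) u ∧
      LinS (11 / 10) (fun x => h x - (u x - (1 + γ) ^ 2 * u (MdI (1 + γ) x))) ∧
      ∫ x, (h x - (u x - (1 + γ) ^ 2 * u (MdI (1 + γ) x))) = 0 ∧
      ∀ (i : ℕ) (A : ℝ), (∀ j ≤ i, ∀ x, ‖iteratedFDeriv ℝ j h x‖ ≤ A) →
        (∀ x, ‖iteratedFDeriv ℝ i u x‖ ≤ C i * γ⁻¹ * A) ∧
        ∀ x, ‖iteratedFDeriv ℝ i
          (fun x => h x - (u x - (1 + γ) ^ 2 * u (MdI (1 + γ) x))) x‖ ≤ C i * A := by
  obtain ⟨b, hb, hb1⟩ := lin_mean_bump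
  choose Mb hMb0 hMb using lin_mean_bdd hb
  choose Cg hCg0 hCg using lin_md_bd hb
  set V : ℝ := volume.real (BX (11 / 10) (11 / 10)) with hV
  have hV0 : 0 ≤ V := measureReal_nonneg
  refine ⟨fun i => 1 + V * (Mb i + Cg i), fun i => ?_, ?_⟩
  · have h1 : 0 ≤ V * (Mb i + Cg i) := mul_nonneg hV0 (add_nonneg (hMb0 i) (hCg0 i))
    linarith
  intro γ h hγ hγ1 hh
  set g : E3 → ℝ := fun x => b x - (1 + γ) ^ 2 * b (MdI (1 + γ) x) with hg
  have hgS : LinS 1 g := lin_md_supp hb hγ hγ1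
  have hgi : ∫ x, g x = -(2 * γ + γ ^ 2) := by
    have e1 : ∫ x, (b x - g x) = (∫ x, b x) - ∫ x, g x :=
      integral_sub (lin_mean_int hb) (lin_mean_int hgS)
    have e2 : (fun x => b x - g x) = fun x => (1 + γ) ^ 2 * b (MdI (1 + γ) x) := by
      funext x
      simp only [hg]
      ring
    rw [e2, integral_const_mul, lin_md_int (by linarith) b, hb1] at e1
    linarith
  set I : ℝ := ∫ x, h x with hI
  set κ : ℝ := -((2 * γ + γ ^ 2)⁻¹ * I) with hκ
  have hpos : 0 < 2 * γ + γ ^ 2 := by positivity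
  have e0 : ∀ x, κ * b x - (1 + γ) ^ 2 * (κ * b (MdI (1 + γ) x)) = κ * g x := by
    intro x
    simp only [hg]
    ring
  have hκg : κ * -(2 * γ + γ ^ 2) = I := by
    rw [hκ]
    field_simp
  refine ⟨fun x => κ * b x, ⟨contDiff_const.mul hb.sm, fun x hx => ?_⟩, ?_, ?_, ?_⟩
  · rw [(hb.mono (by norm_num)).off x hx, mul_zero]
  · simp only [e0]
    refine ⟨hh.sm.sub (contDiff_const.mul hgS.sm), fun x hx => ?_⟩
    rw [hh.off x hx, (hgS.mono (by norm_num)).off x hx, mul_zero, sub_zero]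
  · simp only [e0]
    rw [integral_sub (lin_mean_int hh) ((lin_mean_int hgS).const_mul κ), integral_const_mul,
      hgi, hκg, sub_self]
  · intro i A hA
    have hA0 : ∀ x, |h x| ≤ A := by
      intro x
      have h1 := hA 0 (Nat.zero_le i) x
      rwa [norm_iteratedFDeriv_zero, Real.norm_eq_abs] at h1
    have hAn : 0 ≤ A := (abs_nonneg _).trans (hA0 0)
    have hIA : |I| ≤ A * V := by
      have e1 : ∫ x in BX (11 / 10) (11 / 10), h x = I :=
        setIntegral_eq_integral_of_forall_compl_eq_zero hh.off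
      rw [← e1, ← Real.norm_eq_abs]
      exact norm_setIntegral_le_of_norm_le_const (lin_isCompact_BX _ _).measure_lt_top
        fun x _ => hA0 x
    have hκA : |κ| ≤ γ⁻¹ * (A * V) := by
      rw [hκ, abs_neg, abs_mul, abs_of_pos (inv_pos.mpr hpos)]
      have h1 : (2 * γ + γ ^ 2)⁻¹ ≤ γ⁻¹ := by
        apply inv_anti₀ hγ
        nlinarith [sq_nonneg γ]
      exact mul_le_mul h1 hIA (abs_nonneg _) (inv_pos.mpr hγ).le
    constructor
    · intro x
      have e1 : iteratedFDeriv ℝ i (fun x => κ * b x) x = κ • iteratedFDeriv ℝ i b x :=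
        iteratedFDeriv_const_smul_apply' (𝕜 := ℝ) (a := κ)
          (hb.sm.contDiffAt.of_le (lin_mean_nat i))
      rw [e1, norm_smul, Real.norm_eq_abs]
      calc |κ| * ‖iteratedFDeriv ℝ i b x‖ ≤ (γ⁻¹ * (A * V)) * Mb i :=
            mul_le_mul hκA (hMb i x) (norm_nonneg _)
              (mul_nonneg (inv_pos.mpr hγ).le (mul_nonneg hAn hV0))
        _ = V * Mb i * (γ⁻¹ * A) := by ring
        _ ≤ (1 + V * (Mb i + Cg i)) * (γ⁻¹ * A) := by
            refine mul_le_mul_of_nonneg_right ?_ (mul_nonneg (inv_pos.mpr hγ).le hAn)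
            have h1 : 0 ≤ V * Cg i := mul_nonneg hV0 (hCg0 i)
            linarith
        _ = (1 + V * (Mb i + Cg i)) * γ⁻¹ * A := by ring
    · intro x
      simp only [e0]
      have hκgs : ContDiff ℝ smo fun x => κ * g x := contDiff_const.mul hgS.sm
      have e1 : iteratedFDeriv ℝ i (fun x => κ * g x) x = κ • iteratedFDeriv ℝ i g x :=
        iteratedFDeriv_const_smul_apply' (𝕜 := ℝ) (a := κ)
          (hgS.sm.contDiffAt.of_le (lin_mean_nat i))
      have e2 : iteratedFDeriv ℝ i (fun x => h x - κ * g x) x =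
          iteratedFDeriv ℝ i h x - iteratedFDeriv ℝ i (fun x => κ * g x) x :=
        iteratedFDeriv_sub_apply (hh.sm.contDiffAt.of_le (lin_mean_nat i))
          (hκgs.contDiffAt.of_le (lin_mean_nat i))
      rw [e2, e1]
      refine (norm_sub_le _ _).trans ?_
      rw [norm_smul, Real.norm_eq_abs]
      have h1 : |κ| * ‖iteratedFDeriv ℝ i g x‖ ≤ (γ⁻¹ * (A * V)) * (Cg i * γ) :=
        mul_le_mul hκA (hCg i γ hγ hγ1 x) (norm_nonneg _)
          (mul_nonneg (inv_pos.mpr hγ).le (mul_nonneg hAn hV0))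
      have h2 : (γ⁻¹ * (A * V)) * (Cg i * γ) = V * Cg i * A := by
        field_simp
      have h3 := hA i le_rfl x
      have h4 : 0 ≤ V * Mb i * A := mul_nonneg (mul_nonneg hV0 (hMb0 i)) hAn
      calc ‖iteratedFDeriv ℝ i h x‖ + |κ| * ‖iteratedFDeriv ℝ i g x‖
          ≤ A + V * Cg i * A := by linarith
        _ ≤ (1 + V * (Mb i + Cg i)) * A := by
            have h5 : (1 + V * (Mb i + Cg i)) * A = A + V * Cg i * A + V * Mb i * A := by ring
            linarith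

end Pool.Agent.QM59
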