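import Pool.Agent.Lib.MP_decea1_gt_C.Conj
import Pool.Agent.Lib.MP_decea1_gt_C.LinB
import Pool.Agent.Lib.MP_decea1_gt_C.LinC
import Pool.Agent.Lib.MP_decea1_gt_C.LinM

/-!
# MP_decea1_gt, block C, C4: the linear equation

Text: `/team-store/MP_decea1_QM_C.md`, C4, `Solving the linear equation`. (`u 3` is `u_4` of the text,
`D_1, D_2, D_3` belong to `u 0, u 1, u 2`; the cut-off `X (t)` is `1` for `t ≤ 2`, `0` for `t ≥ 5/2`,
`t = x_0, x_1, x_2 - 7`.)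
-/

set_option autoImplicit false

open MeasureTheory Set

namespace Pool.Agent.QM59

/-- The output of `solve`. -/
structure LinSol (C : ℕ → ℝ) (C' : ℕ → ℕ → ℝ) (γ : ℝ) (h : E3 → ℝ) (u : Fin 4 → E3 → ℝ)
    (e : E3 → ℝ) : Prop where
  su : ∀ l, ContDiff ℝ smo (u l)
  se : ContDiff ℝ smo e
  u0 : ∀ l, ∀ x, x ∉ BX (14 / 5) (14 / 5) → u l x = 0
  e0 : ∀ x, x ∉ BX (14 / 5) (14 / 5) → e x = 0
  eq : ∀ x, h x = (u 0 x - u 0 (x - γ • ev 0)) + (u 1 x - u 1 (x - γ • ev 1)) +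
    (u 2 x - u 2 (x - γ • ev 2)) + (u 3 x - (1 + γ) ^ 2 * u 3 (MdI (1 + γ) x)) - e x
  bu : ∀ (i : ℕ) (A : ℝ), (∀ j ≤ i, ∀ x, ‖iteratedFDeriv ℝ j h x‖ ≤ A) →
    ∀ l x, ‖iteratedFDeriv ℝ i (u l) x‖ ≤ C i * γ⁻¹ * A
  be : ∀ (i s : ℕ) (A : ℝ), (∀ j ≤ i + s, ∀ x, ‖iteratedFDeriv ℝ j h x‖ ≤ A) →
    ∀ x, ‖iteratedFDeriv ℝ i e x‖ ≤ C' i s * γ ^ s * γ⁻¹ * A

private theorem sum_ge {C : ℕ → ℝ} (hC : ∀ i, 1 ≤ C i) {j i : ℕ} (h : j ≤ i) :
    C j ≤ ∑ k ∈ Finset.range (i + 1), C k :=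
  Finset.single_le_sum (f := C) (fun k _ => zero_le_one.trans (hC k))
    (Finset.mem_range.2 (Nat.lt_succ_of_le h))

private theorem sum_mono {C : ℕ → ℝ} (hC : ∀ i, 1 ≤ C i) {j i : ℕ} (h : j ≤ i) :
    ∑ k ∈ Finset.range (j + 1), C k ≤ ∑ k ∈ Finset.range (i + 1), C k :=
  Finset.sum_le_sum_of_subset_of_nonneg (Finset.range_mono (Nat.succ_le_succ h))
    (fun k _ _ => zero_le_one.trans (hC k))

private theorem sum_one {C : ℕ → ℝ} (hC : ∀ i, 1 ≤ C i) (i : ℕ) :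
    1 ≤ ∑ k ∈ Finset.range (i + 1), C k := (hC 0).trans (sum_ge hC (Nat.zero_le i))

theorem solve : ∃ (C : ℕ → ℝ) (C' : ℕ → ℕ → ℝ) (g0 : ℝ), 0 < g0 ∧ g0 ≤ 1 ∧ (∀ i, 1 ≤ C i) ∧
    (∀ i s, 1 ≤ C' i s) ∧ ∀ (γ : ℝ) (h : E3 → ℝ), 0 < γ → γ ≤ g0 → ContDiff ℝ smo h →
      (∀ x, x ∉ BX (11 / 10) (11 / 10) → h x = 0) → ∃ u e, LinSol C C' γ h u e := by
  obtain ⟨Cm, hCm, hm⟩ := lin_mean
  obtain ⟨Cs, hCs, hs⟩ := lin_split
  set Mm : ℕ → ℝ := fun i => ∑ k ∈ Finset.range (i + 1), Cm k with hMm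
  set Ms : ℕ → ℝ := fun i => ∑ k ∈ Finset.range (i + 1), Cs k with hMs
  have m1 : ∀ i, 1 ≤ Mm i := fun i => sum_one hCm i
  have s1 : ∀ i, 1 ≤ Ms i := fun i => sum_one hCs i
  refine ⟨fun i => 4 * (Cs i * Mm i), fun i s => 3 * 2 ^ (s * s + s) * (Ms (i + s) * Mm (i + s)), 1,
    one_pos, le_rfl, fun i => ?_, fun i s => ?_, ?_⟩
  · have := one_le_mul_of_one_le_of_one_le (hCs i) (m1 i)
    linarith
  · have h1 := one_le_mul_of_one_le_of_one_le (s1 (i + s)) (m1 (i + s))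
    have h2 : (1 : ℝ) ≤ 3 * 2 ^ (s * s + s) := by
      have : (1 : ℝ) ≤ 2 ^ (s * s + s) := one_le_pow₀ (by norm_num)
      linarith
    exact one_le_mul_of_one_le_of_one_le h2 h1
  intro γ h hγ hγ1 hsm hoff
  obtain ⟨w, hw, hf, hint, hbd⟩ := hm γ h hγ hγ1 ⟨hsm, hoff⟩
  obtain ⟨D, hD, hline, hsum, hDb⟩ := hs _ hf hint
  choose u e hu he heq hub heb using fun l => lin_dir l hγ hγ1 (hD l) (hline l)
  -- bounds for the parts
  have key : ∀ (i : ℕ) (A : ℝ), (∀ j ≤ i, ∀ x, ‖iteratedFDeriv ℝ j h x‖ ≤ A) →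
      ∀ l x, ‖iteratedFDeriv ℝ i (D l) x‖ ≤ Cs i * (Mm i * A) := by
    intro i A hA
    have hA0 : 0 ≤ A := (norm_nonneg _).trans (hA 0 (Nat.zero_le _) 0)
    refine hDb i (Mm i * A) fun j hj x => ?_
    refine ((hbd j A fun k hk => hA k (hk.trans hj)).2 x).trans ?_
    exact mul_le_mul_of_nonneg_right (sum_ge hCm hj) hA0
  have hγi : 0 ≤ γ⁻¹ := inv_nonneg.2 hγ.le
  refine ⟨![u 0, u 1, u 2, w], fun x => e 0 x + e 1 x + e 2 x, ?_, ?_, ?_, ?_, ?_, ?_, ?_⟩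
  · intro l
    fin_cases l
    · exact (hu 0).sm
    · exact (hu 1).sm
    · exact (hu 2).sm
    · exact hw.sm
  · exact ((he 0).sm.add (he 1).sm).add (he 2).sm
  · intro l
    fin_cases l
    · exact (hu 0).off
    · exact (hu 1).off
    · exact (hu 2).off
    · exact hw.off
  · intro x hx
    simp only [(he 0).off x hx, (he 1).off x hx, (he 2).off x hx, add_zero]
  · intro x
    have h0 := heq 0 x
    have h1 := heq 1 x
    have h2 := heq 2 x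
    have h3 := hsum x
    show h x = (u 0 x - u 0 (x - γ • ev 0)) + (u 1 x - u 1 (x - γ • ev 1)) +
      (u 2 x - u 2 (x - γ • ev 2)) + (w x - (1 + γ) ^ 2 * w (MdI (1 + γ) x)) -
        (e 0 x + e 1 x + e 2 x)
    linarith
  · intro i A hA
    have hA0 : 0 ≤ A := (norm_nonneg _).trans (hA 0 (Nat.zero_le _) 0)
    have hl : ∀ l x, ‖iteratedFDeriv ℝ i (u l) x‖ ≤ 4 * (Cs i * Mm i) * γ⁻¹ * A := by
      intro l x
      refine (hub l i _ (key i A hA l) x).trans (le_of_eq ?_)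
      ring
    have hl3 : ∀ x, ‖iteratedFDeriv ℝ i w x‖ ≤ 4 * (Cs i * Mm i) * γ⁻¹ * A := by
      intro x
      refine ((hbd i A hA).1 x).trans ?_
      have h1 : Cm i ≤ 4 * (Cs i * Mm i) := by
        have h2 : Cm i ≤ Mm i := sum_ge hCm le_rfl
        have h3 : Mm i ≤ Cs i * Mm i :=
          le_mul_of_one_le_left (zero_le_one.trans (m1 i)) (hCs i)
        have h4 := (zero_le_one.trans (m1 i))
        linarith
      exact mul_le_mul_of_nonneg_right (mul_le_mul_of_nonneg_right h1 hγi) hA0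
    intro l
    fin_cases l
    · exact hl 0
    · exact hl 1
    · exact hl 2
    · exact hl3
  · intro i s A hA x
    have hA0 : 0 ≤ A := (norm_nonneg _).trans (hA 0 (Nat.zero_le _) 0)
    have hl : ∀ l, ‖iteratedFDeriv ℝ i (e l) x‖ ≤
        2 ^ (s * s + s) * γ ^ s * γ⁻¹ * (Ms (i + s) * (Mm (i + s) * A)) := by
      intro l
      refine heb l i s _ (fun j hj y => ?_) x
      refine (key j A (fun k hk => hA k (hk.trans hj)) l y).trans ?_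
      have h1 : Cs j ≤ Ms (i + s) := sum_ge hCs hj
      have h2 : Mm j ≤ Mm (i + s) := sum_mono hCm hj
      have h3 : Mm j * A ≤ Mm (i + s) * A := mul_le_mul_of_nonneg_right h2 hA0
      exact mul_le_mul h1 h3 (mul_nonneg (zero_le_one.trans (m1 j)) hA0)
        (zero_le_one.trans (s1 _))
    have hadd : iteratedFDeriv ℝ i (fun x => e 0 x + e 1 x + e 2 x) x =
        iteratedFDeriv ℝ i (e 0) x + iteratedFDeriv ℝ i (e 1) x + iteratedFDeriv ℝ i (e 2) x := by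
      have hi : (i : WithTop ℕ∞) ≤ smo := by
        have : ((i : ℕ∞) : WithTop ℕ∞) ≤ smo := WithTop.coe_le_coe.2 le_top
        simpa using this
      have c : ∀ l, ContDiff ℝ i (e l) := fun l => (he l).sm.of_le hi
      have e1 : (fun x => e 0 x + e 1 x + e 2 x) = (e 0 + e 1) + e 2 := rfl
      have c01 : ContDiff ℝ i (e 0 + e 1) := (c 0).add (c 1)
      rw [e1, iteratedFDeriv_add_apply c01.contDiffAt (c 2).contDiffAt,
        iteratedFDeriv_add_apply (c 0).contDiffAt (c 1).contDiffAt]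
    rw [hadd]
    have hn := norm_add₃_le (a := iteratedFDeriv ℝ i (e 0) x) (b := iteratedFDeriv ℝ i (e 1) x)
      (c := iteratedFDeriv ℝ i (e 2) x)
    have h0 := hl 0
    have h1 := hl 1
    have h2 := hl 2
    have : 3 * 2 ^ (s * s + s) * (Ms (i + s) * Mm (i + s)) * γ ^ s * γ⁻¹ * A =
      3 * (2 ^ (s * s + s) * γ ^ s * γ⁻¹ * (Ms (i + s) * (Mm (i + s) * A))) := by ring
    show _ ≤ 3 * 2 ^ (s * s + s) * (Ms (i + s) * Mm (i + s)) * γ ^ s * γ⁻¹ * A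
    rw [this]
    linarith

end Pool.Agent.QM59
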