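import Pool.Agent.Lib.MP_decea1_gt_C.Conj

/-!
# MP_decea1_gt, block C, C4, linear equation, module LinA: weighted integrals along a direction

`linCv w l f x = ∫ t, w t • f (x - t • ev l)` for a locally integrable weight `w` and a smooth
function `f` with compact support; all derivatives fall on `f`. (The means over `[0, γ]`, the
primitives and the line integrals of the later modules are of this form.)
-/

set_option autoImplicit false

open MeasureTheory Set Filter Topology

namespace Pool.Agent.QM59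

variable {F : Type} [NormedAddCommGroup F] [NormedSpace ℝ F]

/-- weighted integral along the direction `l` -/
noncomputable def linCv (w : ℝ → ℝ) (l : Fin 3) (f : E3 → F) (x : E3) : F :=
  ∫ t, w t • f (x - t • ev l)

/-- smooth functions supported in the box `BX ρ ρ` -/
structure LinS (ρ : ℝ) (f : E3 → ℝ) : Prop where
  sm : ContDiff ℝ smo f
  off : ∀ x, x ∉ BX ρ ρ → f x = 0

theorem lin_isCompact_BX (s t : ℝ) : IsCompact (BX s t) := by
  rw [BX_eq]
  exact isCompact_Icc

theorem LinS.hcs {ρ : ℝ} {f : E3 → ℝ} (h : LinS ρ f) : HasCompactSupport f :=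
  HasCompactSupport.intro (lin_isCompact_BX ρ ρ) h.off

theorem LinS.mono {ρ ρ' : ℝ} {f : E3 → ℝ} (h : LinS ρ f) (hρ : ρ ≤ ρ') : LinS ρ' f :=
  ⟨h.sm, fun x hx => h.off x fun hx' =>
    hx ⟨hx'.1.trans hρ, hx'.2.1.trans hρ, hx'.2.2.trans hρ⟩⟩

private theorem lina_smo (i : ℕ) : ((i : ℕ∞) : WithTop ℕ∞) < smo := by
  exact_mod_cast (ENat.natCast_lt_top i)

private theorem lina_ev (l : Fin 3) (y : E3) (t : ℝ) : (y - t • ev l) l = y l - t := by
  simp [ev]

private theorem lina_radius {G : Type} [NormedAddCommGroup G] [NormedSpace ℝ G] {f : E3 → G}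
    (hc : HasCompactSupport f) : ∃ R : ℝ, 0 ≤ R ∧ ∀ y, R < ‖y‖ → y ∉ tsupport f := by
  obtain ⟨R, hR⟩ := hc.isBounded.exists_norm_le
  refine ⟨max R 0, le_max_right _ _, fun y hy hy' => ?_⟩
  exact absurd (hR y hy') (not_le.2 (lt_of_le_of_lt (le_max_left _ _) hy))

private theorem lina_far (l : Fin 3) {x y : E3} {R t : ℝ} (hy : ‖y‖ ≤ ‖x‖ + 1)
    (ht : R + ‖x‖ + 1 < |t|) : R < ‖y - t • ev l‖ := by
  have h1 : |y l - t| ≤ ‖y - t • ev l‖ := by
    rw [← lina_ev]
    exact norm_le_pi_norm (y - t • ev l) l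
  have h2 : |t| ≤ |y l - t| + |y l| := by
    have h3 := abs_sub_abs_le_abs_sub t (y l)
    rw [abs_sub_comm t (y l)] at h3
    linarith
  have h4 : |y l| ≤ ‖y‖ := norm_le_pi_norm y l
  linarith

private theorem lina_cont (l : Fin 3) (x : E3) : Continuous fun t : ℝ => x - t • ev l := by
  fun_prop

private theorem lina_supp {G : Type} [NormedAddCommGroup G] [NormedSpace ℝ G] (l : Fin 3)
    {f : E3 → G} (hc : HasCompactSupport f) (x : E3) :
    HasCompactSupport fun t : ℝ => f (x - t • ev l) := by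
  obtain ⟨R, hR, h⟩ := lina_radius hc
  refine HasCompactSupport.intro (isCompact_Icc (a := -(R + ‖x‖ + 1)) (b := R + ‖x‖ + 1))
    fun t ht => ?_
  have h1 : R + ‖x‖ + 1 < |t| := by
    by_contra h2
    exact ht (abs_le.1 (not_lt.1 h2))
  exact image_eq_zero_of_notMem_tsupport (h _ (lina_far l (by linarith) h1))

/-- `t ↦ x - t • ev l` is a closed embedding, so `t ↦ f (x - t • ev l)` is continuous with compact
support (if `|t| > T` then the coordinate `l` of `x - t • ev l` is large):
`LocallyIntegrable.integrable_smul_right_of_hasCompactSupport`. -/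
theorem lin_cv_integrable {w : ℝ → ℝ} (hw : LocallyIntegrable w) (l : Fin 3) {f : E3 → F}
    (hf : Continuous f) (hc : HasCompactSupport f) (x : E3) :
    Integrable (fun t => w t • f (x - t • ev l)) :=
  hw.integrable_smul_right_of_hasCompactSupport (hf.comp (lina_cont l x)) (lina_supp l hc x)

/-- `hasFDerivAt_integral_of_dominated_of_fderiv_le` on `ball x 1`: there is `T` with
`f = 0` near `y - t • ev l` for `y ∈ ball x 1`, `|t| > T` (compact support), and `‖fderiv f‖ ≤ M`
(continuous with compact support); dominating function `t ↦ |w t| * M` on `Icc (-T) T`, `0` off it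
(integrable since `w` is locally integrable). -/
theorem lin_cv_hasFDerivAt {w : ℝ → ℝ} (hw : LocallyIntegrable w) (l : Fin 3) {f : E3 → F}
    (hf : ContDiff ℝ 1 f) (hc : HasCompactSupport f) (x : E3) :
    HasFDerivAt (linCv w l f) (linCv w l (fderiv ℝ f) x) x := by
  obtain ⟨R, hR, h⟩ := lina_radius hc
  have hf' : Continuous (fderiv ℝ f) := hf.continuous_fderiv one_ne_zero
  have hc' : HasCompactSupport (fderiv ℝ f) := hc.fderiv (𝕜 := ℝ)
  obtain ⟨M, hM⟩ := hc'.exists_bound_of_continuous hf'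
  have hM0 : 0 ≤ M := (norm_nonneg _).trans (hM 0)
  have hb : Integrable ((Icc (-(R + ‖x‖ + 1)) (R + ‖x‖ + 1)).indicator fun t => ‖w t‖ * M) := by
    rw [integrable_indicator_iff measurableSet_Icc]
    exact ((hw.integrableOn_isCompact isCompact_Icc).norm.mul_const M)
  have hdiff : ∀ (t : ℝ) (y : E3), HasFDerivAt (fun y => w t • f (y - t • ev l))
      (w t • fderiv ℝ f (y - t • ev l)) y := by
    intro t y
    have h1 : HasFDerivAt f (fderiv ℝ f (y - t • ev l)) (y - t • ev l) :=
      ((hf.differentiable one_ne_zero) _).hasFDerivAt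
    have h2 : HasFDerivAt (fun y : E3 => y - t • ev l) (ContinuousLinearMap.id ℝ E3) y :=
      (hasFDerivAt_id y).sub_const _
    have h3 := (h1.comp y h2).const_smul (w t)
    rwa [ContinuousLinearMap.comp_id] at h3
  refine hasFDerivAt_integral_of_dominated_of_fderiv_le (𝕜 := ℝ)
    (F := fun y t => w t • f (y - t • ev l))
    (F' := fun y t => w t • fderiv ℝ f (y - t • ev l)) (s := Metric.ball x 1)
    (bound := (Icc (-(R + ‖x‖ + 1)) (R + ‖x‖ + 1)).indicator fun t => ‖w t‖ * M)
    (Metric.ball_mem_nhds x one_pos) (Eventually.of_forall fun y =>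
      (lin_cv_integrable hw l hf.continuous hc y).aestronglyMeasurable)
    (lin_cv_integrable hw l hf.continuous hc x)
    (lin_cv_integrable hw l hf' hc' x).aestronglyMeasurable
    (Eventually.of_forall fun t y hy => ?_) hb (Eventually.of_forall fun t y _ => hdiff t y)
  have hy1 : ‖y‖ ≤ ‖x‖ + 1 := by
    have h1 : ‖y - x‖ < 1 := by
      rw [← dist_eq_norm]
      exact hy
    have h2 := norm_sub_norm_le y x
    linarith
  by_cases ht : t ∈ Icc (-(R + ‖x‖ + 1)) (R + ‖x‖ + 1)
  · rw [indicator_of_mem ht, norm_smul]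
    exact mul_le_mul_of_nonneg_left (hM _) (norm_nonneg _)
  · have h1 : R + ‖x‖ + 1 < |t| := by
      by_contra h2
      exact ht (abs_le.1 (not_lt.1 h2))
    have h2 : fderiv ℝ f (y - t • ev l) = 0 := by
      have h3 := h _ (lina_far l hy1 h1)
      exact image_eq_zero_of_notMem_tsupport fun h4 => h3 (tsupport_fderiv_subset ℝ h4)
    rw [indicator_of_notMem ht, h2, smul_zero, norm_zero]

private theorem lina_smooth_nat {w : ℝ → ℝ} (hw : LocallyIntegrable w) (l : Fin 3) (n : ℕ) :
    ∀ (G : Type) [NormedAddCommGroup G] [NormedSpace ℝ G] (f : E3 → G), ContDiff ℝ smo f →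
      HasCompactSupport f → ContDiff ℝ n (linCv w l f) := by
  induction n with
  | zero =>
    intro G _ _ f hf hc
    rw [Nat.cast_zero, contDiff_zero]
    have h1 : Differentiable ℝ (linCv w l f) := fun x =>
      (lin_cv_hasFDerivAt hw l (hf.of_le (lina_smo 1).le) hc x).differentiableAt
    exact h1.continuous
  | succ n ih =>
    intro G _ _ f hf hc
    have h0 : ∀ x, HasFDerivAt (linCv w l f) (linCv w l (fderiv ℝ f) x) x :=
      lin_cv_hasFDerivAt hw l (hf.of_le (lina_smo 1).le) hc
    have h1 : fderiv ℝ (linCv w l f) = linCv w l (fderiv ℝ f) := funext fun x => (h0 x).fderiv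
    rw [Nat.cast_succ, contDiff_succ_iff_fderiv]
    refine ⟨fun x => (h0 x).differentiableAt, ?_, ?_⟩
    · intro h2
      exact absurd h2 (by simp)
    · rw [h1]
      exact ih _ _ (hf.fderiv_right (m := smo) (by rfl)) (hc.fderiv (𝕜 := ℝ))

/-- Induction on `n` for all `F` at once: `contDiff_succ_iff_fderiv` (or `contDiff_nat_iff...`),
`fderiv (linCv w l f) = linCv w l (fderiv f)` by `lin_cv_hasFDerivAt`. -/
theorem lin_cv_smooth {w : ℝ → ℝ} (hw : LocallyIntegrable w) (l : Fin 3) {f : E3 → F}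
    (hf : ContDiff ℝ smo f) (hc : HasCompactSupport f) : ContDiff ℝ smo (linCv w l f) :=
  contDiff_infty.2 fun n => lina_smooth_nat hw l n F f hf hc

private theorem lina_iso {G G' : Type} [NormedAddCommGroup G] [NormedSpace ℝ G]
    [NormedAddCommGroup G'] [NormedSpace ℝ G'] (I : G ≃L[ℝ] G') (w : ℝ → ℝ) (l : Fin 3)
    (f : E3 → G) (x : E3) : linCv w l (fun y => I (f y)) x = I (linCv w l f x) := by
  unfold linCv
  rw [← ContinuousLinearEquiv.integral_comp_comm]
  simp only [map_smul]

private theorem lina_iter_nat {w : ℝ → ℝ} (hw : LocallyIntegrable w) (l : Fin 3) (i : ℕ) :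
    ∀ (G : Type) [NormedAddCommGroup G] [NormedSpace ℝ G] (f : E3 → G), ContDiff ℝ smo f →
      HasCompactSupport f → ∀ x,
        iteratedFDeriv ℝ i (linCv w l f) x = linCv w l (iteratedFDeriv ℝ i f) x := by
  induction i with
  | zero =>
    intro G _ _ f hf hc x
    have h1 := lina_iso (continuousMultilinearCurryFin0 ℝ E3 G).symm.toContinuousLinearEquiv
      w l f x
    rw [iteratedFDeriv_zero_eq_comp, iteratedFDeriv_zero_eq_comp]
    exact h1.symm
  | succ i ih =>
    intro G _ _ f hf hc x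
    have h0 : fderiv ℝ (linCv w l f) = linCv w l (fderiv ℝ f) := funext fun x =>
      (lin_cv_hasFDerivAt hw l (hf.of_le (lina_smo 1).le) hc x).fderiv
    have h2 : iteratedFDeriv ℝ (i + 1) f =
        fun y => (continuousMultilinearCurryRightEquiv' ℝ i E3 G).symm
          (iteratedFDeriv ℝ i (fderiv ℝ f) y) :=
      funext fun y => iteratedFDeriv_succ_eq_comp_right
    have h1 := lina_iso
      (continuousMultilinearCurryRightEquiv' ℝ i E3 G).symm.toContinuousLinearEquiv
      w l (iteratedFDeriv ℝ i (fderiv ℝ f)) x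
    rw [iteratedFDeriv_succ_eq_comp_right, h2]
    change (continuousMultilinearCurryRightEquiv' ℝ i E3 G).symm
      (iteratedFDeriv ℝ i (fderiv ℝ (linCv w l f)) x) = _
    rw [h0, ih _ _ (hf.fderiv_right (m := smo) (by rfl)) (hc.fderiv (𝕜 := ℝ))]
    exact h1.symm

/-- Induction on `i`, for all `F` at once, with `iteratedFDeriv_succ_eq_comp_right`
(`iteratedFDeriv (i+1) f = I ∘ iteratedFDeriv i (fderiv f)`, `I` a linear isometry equivalence) and
`ContinuousLinearEquiv.integral_comp_comm` (or induct with `..._comp_left` and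
`HasCompactSupport.iteratedFDeriv`). -/
theorem lin_cv_iter {w : ℝ → ℝ} (hw : LocallyIntegrable w) (l : Fin 3) {f : E3 → F}
    (hf : ContDiff ℝ smo f) (hc : HasCompactSupport f) (i : ℕ) (x : E3) :
    iteratedFDeriv ℝ i (linCv w l f) x = linCv w l (iteratedFDeriv ℝ i f) x :=
  lina_iter_nat hw l i F f hf hc x

/-- integrable weight: `lin_cv_iter`, `norm_integral_le_of_norm_le`. -/
theorem lin_cv_bd {w : ℝ → ℝ} (hw : Integrable w) (l : Fin 3) {f : E3 → ℝ}
    (hf : ContDiff ℝ smo f) (hc : HasCompactSupport f) {m : ℝ} (hm : ∫ t, |w t| ≤ m) {i : ℕ}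
    {a : ℝ} (ha : ∀ y, ‖iteratedFDeriv ℝ i f y‖ ≤ a) (x : E3) :
    ‖iteratedFDeriv ℝ i (linCv w l f) x‖ ≤ m * a := by
  have ha0 : 0 ≤ a := (norm_nonneg _).trans (ha 0)
  rw [lin_cv_iter hw.locallyIntegrable l hf hc]
  unfold linCv
  have h1 : Integrable fun t => |w t| * a := hw.abs.mul_const a
  refine (norm_integral_le_of_norm_le h1 (Eventually.of_forall fun t => ?_)).trans ?_
  · rw [norm_smul, Real.norm_eq_abs]
    exact mul_le_mul_of_nonneg_left (ha _) (abs_nonneg _)
  · rw [integral_mul_const]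
    exact mul_le_mul_of_nonneg_right hm ha0

/-- bounded weight: if `|x l - t - c| > ρ` then `f = 0` near `x - t • ev l`, so the integrand is
supported in an interval of length `2 ρ`, `c = 0, 0, 7` (for `ρ < 0` the function `f` is zero). -/
theorem lin_cv_bd_slab {w : ℝ → ℝ} (hw : LocallyIntegrable w) (hw1 : ∀ t, |w t| ≤ 1) (l : Fin 3)
    {ρ : ℝ} (hρ : 0 ≤ ρ) {f : E3 → ℝ} (hf : LinS ρ f) {i : ℕ}
    {a : ℝ} (ha : ∀ y, ‖iteratedFDeriv ℝ i f y‖ ≤ a) (x : E3) :
    ‖iteratedFDeriv ℝ i (linCv w l f) x‖ ≤ 2 * ρ * a := by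
  have ha0 : 0 ≤ a := (norm_nonneg _).trans (ha 0)
  have hc : ∃ c : ℝ, ∀ y ∈ BX ρ ρ, |y l - c| ≤ ρ := by
    fin_cases l
    · exact ⟨0, fun y hy => by simpa using hy.1⟩
    · exact ⟨0, fun y hy => by simpa using hy.2.1⟩
    · exact ⟨7, fun y hy => by simpa using hy.2.2⟩
  obtain ⟨c, hc⟩ := hc
  have hz : ∀ y, y ∉ BX ρ ρ → iteratedFDeriv ℝ i f y = 0 := by
    intro y hy
    have h1 : f =ᶠ[𝓝 y] fun _ => (0 : ℝ) := by
      filter_upwards [(lin_isCompact_BX ρ ρ).isClosed.isOpen_compl.mem_nhds hy] with z hz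
      exact hf.off z hz
    have h2 := (h1.iteratedFDeriv (𝕜 := ℝ) i).eq_of_nhds
    rw [h2, iteratedFDeriv_fun_zero]
    rfl
  rw [lin_cv_iter hw l hf.sm hf.hcs]
  unfold linCv
  have h1 : Integrable ((Icc (x l - c - ρ) (x l - c + ρ)).indicator fun _ : ℝ => a) := by
    rw [integrable_indicator_iff measurableSet_Icc]
    exact continuousOn_const.integrableOn_Icc
  refine (norm_integral_le_of_norm_le h1 (Eventually.of_forall fun t => ?_)).trans ?_
  · by_cases ht : t ∈ Icc (x l - c - ρ) (x l - c + ρ)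
    · rw [indicator_of_mem ht, norm_smul, Real.norm_eq_abs]
      calc |w t| * ‖iteratedFDeriv ℝ i f (x - t • ev l)‖ ≤ 1 * a :=
            mul_le_mul (hw1 t) (ha _) (norm_nonneg _) zero_le_one
        _ = a := one_mul a
    · have h2 : x - t • ev l ∉ BX ρ ρ := by
        intro h3
        have h4 := hc _ h3
        rw [lina_ev] at h4
        have h5 := abs_le.1 h4
        exact ht ⟨by linarith [h5.2], by linarith [h5.1]⟩
      rw [indicator_of_notMem ht, hz _ h2, smul_zero, norm_zero]
  · rw [integral_indicator_const _ measurableSet_Icc, Real.volume_real_Icc_of_le (by linarith),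
      smul_eq_mul]
    refine le_of_eq ?_
    ring

end Pool.Agent.QM59
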