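import Pool.Agent.Lib.MP_decea1_gt_C.LinA

/-!
# MP_decea1_gt, block C, C4, linear equation, module LinE: the operator `1 - (mean over [0, γ])`

`linE γ l f x = f x - γ⁻¹ ∫_0^γ f (x - t e_l) dt`. (No periodic sums are needed: for `D = ∂_l G` the
mean of `D` is `γ⁻¹ (G x - G (x - γ e_l))`, and `linE` gains a factor `γ` for one derivative.)
-/

set_option autoImplicit false

open MeasureTheory Set Filter Topology

namespace Pool.Agent.QM59

/-- the weight of the mean -/
noncomputable def linWA (γ : ℝ) : ℝ → ℝ := (Ioc 0 γ).indicator fun _ => γ⁻¹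

/-- the weight of `linE` as an operator on the derivative -/
noncomputable def linWV (γ : ℝ) : ℝ → ℝ := (Ioc 0 γ).indicator fun t => 1 - t / γ

noncomputable def linE (γ : ℝ) (l : Fin 3) (f : E3 → ℝ) (x : E3) : ℝ :=
  f x - linCv (linWA γ) l f x

theorem linWA_int {γ : ℝ} (hγ : 0 < γ) : Integrable (linWA γ) ∧ ∫ t, |linWA γ t| ≤ 1 := by
  refine ⟨?_, ?_⟩
  · unfold linWA
    exact (integrableOn_const (by simp)).integrable_indicator measurableSet_Ioc
  · have h1 : (fun t => |linWA γ t|) = (Ioc 0 γ).indicator fun _ => γ⁻¹ := by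
      funext t
      unfold linWA
      by_cases ht : t ∈ Ioc 0 γ
      · simp only [indicator_of_mem ht]
        exact abs_of_pos (inv_pos.mpr hγ)
      · simp [indicator_of_notMem ht]
    rw [h1, integral_indicator measurableSet_Ioc, setIntegral_const]
    simp [Measure.real, hγ.le, mul_inv_cancel₀ hγ.ne']

theorem linWV_int {γ : ℝ} (hγ : 0 < γ) : Integrable (linWV γ) ∧ ∫ t, |linWV γ t| ≤ γ := by
  have hint : Integrable (linWV γ) := by
    unfold linWV
    have hc : Continuous fun t : ℝ => 1 - t / γ := by fun_prop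
    exact (hc.integrableOn_Ioc).integrable_indicator measurableSet_Ioc
  refine ⟨hint, ?_⟩
  have h2 : Integrable ((Ioc 0 γ).indicator fun _ : ℝ => (1 : ℝ)) :=
    (integrableOn_const (by simp)).integrable_indicator measurableSet_Ioc
  have h1 : ∫ t, |linWV γ t| ≤ ∫ t, (Ioc 0 γ).indicator (fun _ : ℝ => (1 : ℝ)) t := by
    refine integral_mono hint.abs h2 fun t => ?_
    unfold linWV
    by_cases ht : t ∈ Ioc 0 γ
    · simp only [indicator_of_mem ht]
      have h3 : t / γ ≤ 1 := (div_le_one hγ).mpr ht.2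
      have h4 : 0 ≤ t / γ := div_nonneg ht.1.le hγ.le
      rw [abs_le]
      constructor <;> linarith
    · simp [indicator_of_notMem ht]
  refine h1.trans ?_
  rw [integral_indicator measurableSet_Ioc, setIntegral_const]
  simp [Measure.real, hγ.le]

/-- integrals with an indicator weight -/
private theorem linE_ind {F : Type} [NormedAddCommGroup F] [NormedSpace ℝ F] {γ : ℝ}
    (hγ : 0 < γ) (w : ℝ → ℝ) (u : ℝ → F) :
    ∫ t, (Ioc 0 γ).indicator w t • u t = ∫ t in (0 : ℝ)..γ, w t • u t := by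
  rw [intervalIntegral.integral_of_le hγ.le, ← integral_indicator measurableSet_Ioc]
  congr 1
  funext t
  by_cases ht : t ∈ Ioc 0 γ
  · simp only [indicator_of_mem ht]
  · simp [indicator_of_notMem ht]

private theorem linE_ev_apply (l i : Fin 3) : ev l i = if i = l then 1 else 0 := by
  unfold ev
  rw [Pi.single_apply]

private theorem linE_norm_ev (l : Fin 3) : ‖(ev l : E3)‖ = 1 := by
  unfold ev
  rw [Pi.norm_single, norm_one]

private theorem linE_le (i : ℕ) : (i : WithTop ℕ∞) ≤ smo := by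
  exact WithTop.coe_le_coe.mpr (le_top : (i : ℕ∞) ≤ ⊤)

private theorem linE_isClosed_BX (s t : ℝ) : IsClosed (BX s t) := (lin_isCompact_BX s t).isClosed

/-- `f` vanishes near every point off the closed set `BX ρ ρ`. -/
theorem LinS.pd {ρ : ℝ} {f : E3 → ℝ} (h : LinS ρ f) (l : Fin 3) : LinS ρ (pd l f) := by
  refine ⟨contDiff_pd h.sm l, fun x hx => ?_⟩
  have h1 : f =ᶠ[𝓝 x] fun _ => 0 := by
    filter_upwards [(linE_isClosed_BX ρ ρ).isOpen_compl.mem_nhds hx] with y hy
    exact h.off y hy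
  unfold QM59.pd
  rw [h1.fderiv_eq, fderiv_fun_const]
  rfl

/-- `ContinuousLinearMap.norm_iteratedFDeriv_comp_left`-type bound for the evaluation at `ev l`
(`‖ev l‖ = 1`), and `norm_iteratedFDeriv_fderiv`. -/
theorem lin_pd_bd {ρ : ℝ} {f : E3 → ℝ} (h : LinS ρ f) (l : Fin 3) {i : ℕ} {a : ℝ}
    (ha : ∀ x, ‖iteratedFDeriv ℝ (i + 1) f x‖ ≤ a) (x : E3) :
    ‖iteratedFDeriv ℝ i (QM59.pd l f) x‖ ≤ a := by
  have h1 : QM59.pd l f = (ContinuousLinearMap.apply ℝ ℝ (ev l)) ∘ (fderiv ℝ f) := by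
    funext y
    rfl
  have h2 : ContDiff ℝ smo (fderiv ℝ f) := h.sm.fderiv_right (by simp [smo])
  have h3 : ‖ContinuousLinearMap.apply ℝ ℝ (ev l)‖ ≤ 1 := by
    refine ContinuousLinearMap.opNorm_le_bound _ zero_le_one fun L => ?_
    have h4 := L.le_opNorm (ev l)
    rw [linE_norm_ev, mul_one] at h4
    rw [one_mul]
    exact h4
  rw [h1]
  refine (ContinuousLinearMap.norm_iteratedFDeriv_comp_left _ (h2.contDiffAt (x := x))
    (n := i) (linE_le i)).trans ?_
  rw [norm_iteratedFDeriv_fderiv]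
  have h5 := ha x
  have h6 := norm_nonneg (iteratedFDeriv ℝ (i + 1) f x)
  nlinarith [norm_nonneg (ContinuousLinearMap.apply ℝ ℝ (ev l))]

theorem LinS.linE {ρ : ℝ} {f : E3 → ℝ} (h : LinS ρ f) {γ : ℝ} (hγ : 0 < γ) (l : Fin 3) :
    LinS (ρ + γ) (linE γ l f) := by
  have hw := (linWA_int hγ).1.locallyIntegrable
  refine ⟨h.sm.sub (lin_cv_smooth hw l h.sm h.hcs), fun x hx => ?_⟩
  have hsub : ∀ t : ℝ, 0 ≤ t → t ≤ γ → x - t • ev l ∉ BX ρ ρ := by
    intro t ht0 ht1 hmem
    apply hx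
    obtain ⟨h1, h2, h3⟩ := hmem
    have hb : ∀ i : Fin 3, |t * ev l i| ≤ γ := by
      intro i
      rw [linE_ev_apply]
      split_ifs
      · rw [mul_one, abs_of_nonneg ht0]
        exact ht1
      · rw [mul_zero, abs_zero]
        exact hγ.le
    simp only [Pi.sub_apply, Pi.smul_apply, smul_eq_mul] at h1 h2 h3
    have b0 := hb 0
    have b1 := hb 1
    have b2 := hb 2
    rw [abs_le] at h1 h2 h3 b0 b1 b2
    refine ⟨?_, ?_, ?_⟩ <;> rw [abs_le] <;> constructor <;> linarith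
  have h0 : f x = 0 := by
    have := hsub 0 le_rfl hγ.le
    rw [zero_smul, sub_zero] at this
    exact h.off x this
  unfold QM59.linE linCv linWA
  rw [h0, linE_ind hγ, zero_sub, neg_eq_zero]
  rw [intervalIntegral.integral_of_le hγ.le]
  refine setIntegral_eq_zero_of_forall_eq_zero fun t ht => ?_
  rw [h.off _ (hsub t ht.1.le ht.2), smul_zero]

/-- `lin_cv_bd`, and `iteratedFDeriv` of a difference. -/
theorem linE_bd2 {ρ : ℝ} {f : E3 → ℝ} (h : LinS ρ f) {γ : ℝ} (hγ : 0 < γ) (l : Fin 3) {i : ℕ}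
    {a : ℝ} (ha : ∀ x, ‖iteratedFDeriv ℝ i f x‖ ≤ a) (x : E3) :
    ‖iteratedFDeriv ℝ i (QM59.linE γ l f) x‖ ≤ 2 * a := by
  have hw := linWA_int hγ
  have hs := lin_cv_smooth hw.1.locallyIntegrable l h.sm h.hcs
  have h1 : QM59.linE γ l f = f - linCv (linWA γ) l f := rfl
  have hf' : ContDiffAt ℝ i f x := (h.sm.of_le (linE_le i)).contDiffAt
  have hs' : ContDiffAt ℝ i (linCv (linWA γ) l f) x := (hs.of_le (linE_le i)).contDiffAt
  rw [h1, iteratedFDeriv_sub_apply hf' hs']
  refine (norm_sub_le _ _).trans ?_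
  have h2 := lin_cv_bd hw.1 l h.sm h.hcs hw.2 ha x
  linarith [ha x]

/-- the derivative along the direction `ev l` -/
private theorem linE_deriv {f : E3 → ℝ} (hf : ContDiff ℝ smo f) (l : Fin 3) (x : E3) (t : ℝ) :
    HasDerivAt (fun s : ℝ => f (x - s • ev l)) (-QM59.pd l f (x - t • ev l)) t := by
  have h1 : HasFDerivAt f (fderiv ℝ f (x - t • ev l)) (x - t • ev l) :=
    ((hf.differentiable (by simp [smo])) _).hasFDerivAt
  have h2 : HasDerivAt (fun s : ℝ => x - s • ev l) (-ev l) t := by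
    have h3 : HasDerivAt (fun s : ℝ => s • ev l) ((1 : ℝ) • ev l) t :=
      (hasDerivAt_id t).smul_const (ev l)
    rw [one_smul] at h3
    exact h3.const_sub x
  have h4 := h1.comp_hasDerivAt t h2
  rw [map_neg] at h4
  exact h4

/-- With `φ t = f (x - t • ev l)`, `φ' t = - pd l f (x - t • ev l)`, integration by parts:
`∫_0^γ (1 - t/γ) (-φ' t) dt = φ 0 - γ⁻¹ ∫_0^γ φ` (`d/dt [(1 - t/γ) φ t]` and the fundamental
theorem of calculus). -/
theorem linE_eq {ρ : ℝ} {f : E3 → ℝ} (h : LinS ρ f) {γ : ℝ} (hγ : 0 < γ) (l : Fin 3) (x : E3) :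
    QM59.linE γ l f x = linCv (linWV γ) l (QM59.pd l f) x := by
  have hc := h.sm.continuous
  have hc' := (h.pd l).sm.continuous
  unfold QM59.linE linCv linWA linWV
  rw [linE_ind hγ, linE_ind hγ]
  simp only [smul_eq_mul]
  have hd : ∀ t : ℝ, HasDerivAt (fun s : ℝ => (1 - s / γ) * f (x - s • ev l))
      (-γ⁻¹ * f (x - t • ev l) + (1 - t / γ) * -QM59.pd l f (x - t • ev l)) t := by
    intro t
    have h1 : HasDerivAt (fun s : ℝ => 1 - s / γ) (-γ⁻¹) t := by
      have h2 : HasDerivAt (fun s : ℝ => s / γ) (1 / γ) t := (hasDerivAt_id t).div_const γ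
      rw [one_div] at h2
      exact h2.const_sub 1
    exact h1.mul (linE_deriv h.sm l x t)
  have hft := intervalIntegral.integral_eq_sub_of_hasDerivAt (a := 0) (b := γ)
    (fun t _ => hd t) (Continuous.intervalIntegrable (by fun_prop) _ _)
  rw [intervalIntegral.integral_add (Continuous.intervalIntegrable (by fun_prop) _ _)
    (Continuous.intervalIntegrable (by fun_prop) _ _)] at hft
  have e1 : ∫ t in (0 : ℝ)..γ, -γ⁻¹ * f (x - t • ev l) =
      -∫ t in (0 : ℝ)..γ, γ⁻¹ * f (x - t • ev l) := by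
    rw [← intervalIntegral.integral_neg]
    congr 1
    funext t
    ring
  have e2 : ∫ t in (0 : ℝ)..γ, (1 - t / γ) * -QM59.pd l f (x - t • ev l) =
      -∫ t in (0 : ℝ)..γ, (1 - t / γ) * QM59.pd l f (x - t • ev l) := by
    rw [← intervalIntegral.integral_neg]
    congr 1
    funext t
    ring
  rw [e1, e2, div_self hγ.ne', zero_div, zero_smul, sub_zero, sub_self, zero_mul, sub_zero,
    one_mul] at hft
  linarith

/-- `linE_eq` (as functions) and `lin_cv_bd`. -/
theorem linE_bdg {ρ : ℝ} {f : E3 → ℝ} (h : LinS ρ f) {γ : ℝ} (hγ : 0 < γ) (l : Fin 3) {i : ℕ}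
    {a : ℝ} (ha : ∀ x, ‖iteratedFDeriv ℝ i (QM59.pd l f) x‖ ≤ a) (x : E3) :
    ‖iteratedFDeriv ℝ i (QM59.linE γ l f) x‖ ≤ γ * a := by
  have h1 : QM59.linE γ l f = linCv (linWV γ) l (QM59.pd l f) :=
    funext fun y => linE_eq h hγ l y
  rw [h1]
  have hw := linWV_int hγ
  exact lin_cv_bd hw.1 l (h.pd l).sm (h.pd l).hcs hw.2 ha x

/-- `lin_cv_hasFDerivAt`, evaluated at `ev l` (`ContinuousLinearMap.integral_apply`). -/
theorem pd_linE {ρ : ℝ} {f : E3 → ℝ} (h : LinS ρ f) {γ : ℝ} (hγ : 0 < γ) (l : Fin 3) :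
    QM59.pd l (QM59.linE γ l f) = QM59.linE γ l (QM59.pd l f) := by
  have hw := (linWA_int hγ).1.locallyIntegrable
  have hf1 : ContDiff ℝ 1 f := h.sm.of_le (by simp [smo])
  funext x
  have h1 : HasFDerivAt f (fderiv ℝ f x) x :=
    ((h.sm.differentiable (by simp [smo])) x).hasFDerivAt
  have h2 := h1.sub (lin_cv_hasFDerivAt hw l hf1 h.hcs x)
  have h3 : QM59.pd l (QM59.linE γ l f) x =
      (fderiv ℝ f x - linCv (linWA γ) l (fderiv ℝ f) x) (ev l) := by
    unfold QM59.pd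
    rw [← h2.fderiv]
    rfl
  have hcf : Continuous (fderiv ℝ f) := hf1.continuous_fderiv (by simp)
  have hi := lin_cv_integrable hw l hcf (h.hcs.fderiv (𝕜 := ℝ)) x
  rw [h3, sub_apply]
  unfold QM59.linE
  congr 1
  unfold linCv
  rw [ContinuousLinearMap.integral_apply hi]
  rfl

/-- the mean of `∂_l f` (fundamental theorem of calculus) -/
theorem linA_tele {ρ : ℝ} {f : E3 → ℝ} (h : LinS ρ f) {γ : ℝ} (hγ : 0 < γ) (l : Fin 3) (x : E3) :
    QM59.pd l f x - QM59.linE γ l (QM59.pd l f) x = γ⁻¹ * (f x - f (x - γ • ev l)) := by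
  have hc' := (h.pd l).sm.continuous
  unfold QM59.linE linCv linWA
  rw [linE_ind hγ, sub_sub_cancel]
  simp only [smul_eq_mul]
  rw [intervalIntegral.integral_const_mul]
  have hft := intervalIntegral.integral_eq_sub_of_hasDerivAt (a := 0) (b := γ)
    (fun t _ => linE_deriv h.sm l x t) (Continuous.intervalIntegrable (by fun_prop) _ _)
  rw [intervalIntegral.integral_neg, zero_smul, sub_zero] at hft
  have h1 : ∫ t in (0 : ℝ)..γ, QM59.pd l f (x - t • ev l) = f x - f (x - γ • ev l) := by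
    linarith
  rw [h1]

end Pool.Agent.QM59
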