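import Pool.Agent.Lib.MP_decea1_gt_C.LinA
import Pool.Agent.Lib.MP_decea1_gt_A.Bump
import Pool.Agent.Lib.MP_decea1_gt_A.Int

/-!
# MP_decea1_gt, block C, C4, linear equation, module LinK: concentrating the line integrals
-/

set_option autoImplicit false

open MeasureTheory Set Filter Topology

namespace Pool.Agent.QM59

/-- the coordinates of the centre of the boxes -/
def linCt : Fin 3 → ℝ := ![0, 0, 7]

/-- `β (x_l - c_l) ∫ f (x - t e_l) dt` -/
noncomputable def linK (β : ℝ → ℝ) (l : Fin 3) (f : E3 → ℝ) (x : E3) : ℝ :=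
  β (x l - linCt l) * linCv (fun _ => 1) l f x

/-- one-dimensional bumps with integral one, supported in `(-3/4, 3/4)` -/
structure LinBump (β : ℝ → ℝ) : Prop where
  sm : ContDiff ℝ smo β
  off : ∀ t, t ∉ Ioo (-(3 / 4) : ℝ) (3 / 4) → β t = 0
  one : ∫ t, β t = 1

theorem exists_linBump : ∃ β, LinBump β := by
  obtain ⟨η, h1, -, h2, h3⟩ := exists_bump1 (-(3 / 4)) (3 / 4) (by norm_num)
  exact ⟨η, h1, h2, h3⟩

variable {β : ℝ → ℝ}

private theorem linK_mem_BX (ρ : ℝ) (x : E3) : x ∈ BX ρ ρ ↔ ∀ i, |x i - linCt i| ≤ ρ := by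
  constructor
  · rintro ⟨h0, h1, h2⟩ i
    fin_cases i
    · simpa [linCt] using h0
    · simpa [linCt] using h1
    · simpa [linCt] using h2
  · intro h
    have h0 := h 0
    have h1 := h 1
    have h2 := h 2
    refine ⟨?_, ?_, ?_⟩
    · simpa [linCt] using h0
    · simpa [linCt] using h1
    · simpa [linCt] using h2

private theorem linK_sub_ev (x : E3) (l : Fin 3) (t : ℝ) :
    x - t • ev l = Function.update x l (x l - t) := by
  funext i
  by_cases h : i = l
  · subst h
    simp [ev]
  · simp [ev, Function.update_of_ne h, Pi.single_eq_of_ne h]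

private theorem linK_cv_eq (l : Fin 3) (f : E3 → ℝ) (x : E3) :
    linCv (fun _ => 1) l f x = ∫ t, f (Function.update x l t) := by
  unfold linCv
  have h1 : ∀ t : ℝ, (1 : ℝ) • f (x - t • ev l) =
      (fun s => f (Function.update x l s)) (x l - t) := by
    intro t
    rw [one_smul, linK_sub_ev]
  simp_rw [h1]
  exact integral_sub_left_eq_self (fun s => f (Function.update x l s)) volume (x l)

private theorem linK_apply (β : ℝ → ℝ) (l : Fin 3) (g : E3 → ℝ) (y : E3) :
    linK β l g y = β (y l - linCt l) * ∫ t, g (Function.update y l t) := by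
  unfold linK
  rw [linK_cv_eq]

private theorem linK_le (j : ℕ) : ((j : ℕ) : WithTop ℕ∞) ≤ smo := by
  change ((j : ℕ∞) : WithTop ℕ∞) ≤ ((⊤ : ℕ∞) : WithTop ℕ∞)
  exact WithTop.coe_le_coe.2 le_top

private theorem linK_coord_smooth (hβ : LinBump β) (l : Fin 3) :
    ContDiff ℝ smo fun x : E3 => β (x l - linCt l) :=
  hβ.sm.comp ((contDiff_apply ℝ ℝ l).sub contDiff_const)

/-- `lin_cv_smooth`; if a coordinate different from `l` is out then the line integral is zero, if
the coordinate `l` is out then `β = 0`. -/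
theorem linK_S (hβ : LinBump β) (l : Fin 3) {f : E3 → ℝ} (hf : LinS (11 / 10) f) :
    LinS (11 / 10) (linK β l f) := by
  refine ⟨(linK_coord_smooth hβ l).mul
    (lin_cv_smooth (locallyIntegrable_const 1) l hf.sm hf.hcs), fun x hx => ?_⟩
  rw [linK_mem_BX] at hx
  push Not at hx
  obtain ⟨i, hi⟩ := hx
  unfold linK
  by_cases h : i = l
  · subst h
    rw [hβ.off _ fun h2 => ?_, zero_mul]
    have : |x i - linCt i| ≤ 3 / 4 := abs_le.2 ⟨by linarith [h2.1], by linarith [h2.2]⟩
    linarith
  · rw [linK_cv_eq]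
    have : ∀ t : ℝ, f (Function.update x l t) = 0 := by
      intro t
      apply hf.off
      rw [linK_mem_BX]
      intro h2
      have := h2 i
      rw [Function.update_of_ne h] at this
      linarith
    simp [this]

/-- The line integral is constant along the line (translation invariance, the coordinate `l` of
`x - t • ev l` is `x l - t`), and `∫ β (x l - t - c) dt = 1`. -/
theorem linK_line (hβ : LinBump β) (l : Fin 3) {f : E3 → ℝ} (hf : LinS (11 / 10) f) (x : E3) :
    ∫ t : ℝ, linK β l f (x - t • ev l) = ∫ t : ℝ, f (x - t • ev l) := by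
  have h1 : ∀ t : ℝ, linK β l f (x - t • ev l) =
      (fun s => β (s - linCt l)) (x l - t) * ∫ s : ℝ, f (Function.update x l s) := by
    intro t
    unfold linK
    rw [linK_cv_eq, linK_sub_ev]
    simp only [Function.update_self, Function.update_idem]
  have h2 : ∀ t : ℝ, f (x - t • ev l) = (fun s => f (Function.update x l s)) (x l - t) := by
    intro t
    rw [linK_sub_ev]
  simp_rw [h1, h2]
  rw [integral_mul_const, integral_sub_left_eq_self (fun s => β (s - linCt l)) volume (x l),
    integral_sub_left_eq_self (fun s => f (Function.update x l s)) volume (x l),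
    integral_sub_right_eq_self β (linCt l), hβ.one, one_mul]

private theorem linK_coord_bd (hβ : LinBump β) (l : Fin 3) (j : ℕ) : ∃ M : ℝ, 0 ≤ M ∧
    ∀ x : E3, ‖iteratedFDeriv ℝ j (fun x : E3 => β (x l - linCt l)) x‖ ≤ M := by
  set g : ℝ → ℝ := fun s => β (s - linCt l) with hg
  have hgs : ContDiff ℝ smo g := hβ.sm.comp (contDiff_id.sub contDiff_const)
  have hgc : HasCompactSupport g := by
    refine HasCompactSupport.intro (K := Icc (linCt l - 1) (linCt l + 1)) isCompact_Icc
      fun s hs => hβ.off _ fun h2 => hs ⟨by linarith [h2.1], by linarith [h2.2]⟩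
  have hc1 : Continuous (iteratedFDeriv ℝ j g) :=
    hgs.continuous_iteratedFDeriv (linK_le j)
  obtain ⟨M, hM⟩ := (hgc.iteratedFDeriv j).exists_bound_of_continuous hc1
  have hM0 : 0 ≤ M := (norm_nonneg _).trans (hM 0)
  refine ⟨M, hM0, fun x => ?_⟩
  set p : E3 →L[ℝ] ℝ := ContinuousLinearMap.proj l with hp
  have hp1 : ‖p‖ ≤ 1 := by
    refine ContinuousLinearMap.opNorm_le_bound _ zero_le_one fun v => ?_
    rw [one_mul]
    exact norm_le_pi_norm v l
  have e : (fun x : E3 => β (x l - linCt l)) = g ∘ p := rfl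
  rw [e, p.iteratedFDeriv_comp_right hgs x (linK_le j)]
  refine (ContinuousMultilinearMap.norm_compContinuousLinearMap_le _ _).trans ?_
  have h1 : ∏ _i : Fin j, ‖p‖ ≤ 1 := by
    rw [Finset.prod_const]
    exact pow_le_one₀ (norm_nonneg _) hp1
  calc ‖iteratedFDeriv ℝ j g (p x)‖ * ∏ _i : Fin j, ‖p‖ ≤ M * 1 :=
        mul_le_mul (hM _) h1 (Finset.prod_nonneg fun _ _ => norm_nonneg _) hM0
    _ = M := mul_one M

/-- Leibniz (`norm_iteratedFDeriv_mul_le`), `lin_cv_bd_slab` with `w = 1`, and a bound for the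
derivatives of `x ↦ β (x l - c)` (composition of `β`, which has bounded derivatives because it has
compact support, with an affine map of norm one: `iteratedFDeriv_comp_right`). -/
theorem linK_bd (hβ : LinBump β) : ∃ C : ℕ → ℝ, (∀ i, 1 ≤ C i) ∧
    ∀ (l : Fin 3) (f : E3 → ℝ), LinS (11 / 10) f → ∀ (i : ℕ) (A : ℝ),
      (∀ j ≤ i, ∀ x, ‖iteratedFDeriv ℝ j f x‖ ≤ A) →
        ∀ x, ‖iteratedFDeriv ℝ i (linK β l f) x‖ ≤ C i * A := by
  choose M hM0 hM using linK_coord_bd hβ
  refine ⟨fun i => 1 + ∑ l : Fin 3, ∑ j ∈ Finset.range (i + 1),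
    (i.choose j : ℝ) * M l j * (2 * (11 / 10)), fun i => ?_, ?_⟩
  · have : 0 ≤ ∑ l : Fin 3, ∑ j ∈ Finset.range (i + 1),
        (i.choose j : ℝ) * M l j * (2 * (11 / 10)) :=
      Finset.sum_nonneg fun l _ => Finset.sum_nonneg fun j _ =>
        mul_nonneg (mul_nonneg (Nat.cast_nonneg _) (hM0 l j)) (by norm_num)
    linarith
  · intro l f hf i A hA x
    have hA0 : 0 ≤ A := (norm_nonneg _).trans (hA 0 (Nat.zero_le _) x)
    have h1 : ContDiff ℝ smo fun x : E3 => β (x l - linCt l) := linK_coord_smooth hβ l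
    have h2 : ContDiff ℝ smo (linCv (fun _ => 1) l f) :=
      lin_cv_smooth (locallyIntegrable_const 1) l hf.sm hf.hcs
    have h3 := norm_iteratedFDeriv_mul_le h1 h2 x (n := i) (linK_le i)
    have h4 : ∀ j ∈ Finset.range (i + 1),
        (i.choose j : ℝ) * ‖iteratedFDeriv ℝ j (fun x : E3 => β (x l - linCt l)) x‖ *
          ‖iteratedFDeriv ℝ (i - j) (linCv (fun _ => 1) l f) x‖ ≤
        ((i.choose j : ℝ) * M l j * (2 * (11 / 10))) * A := by
      intro j _
      have h5 : ‖iteratedFDeriv ℝ (i - j) (linCv (fun _ => 1) l f) x‖ ≤ 2 * (11 / 10) * A :=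
        lin_cv_bd_slab (locallyIntegrable_const 1) (fun _ => by simp) l (by norm_num) hf
          (fun y => hA (i - j) (Nat.sub_le _ _) y) x
      have h6 := hM l j x
      calc _ ≤ (i.choose j : ℝ) * M l j * (2 * (11 / 10) * A) := by
            refine mul_le_mul (mul_le_mul_of_nonneg_left h6 (Nat.cast_nonneg _)) h5
              (norm_nonneg _) (mul_nonneg (Nat.cast_nonneg _) (hM0 l j))
        _ = _ := by ring
    refine h3.trans ((Finset.sum_le_sum h4).trans ?_)
    rw [← Finset.sum_mul]
    refine mul_le_mul_of_nonneg_right ?_ hA0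
    have h7 : ∑ j ∈ Finset.range (i + 1), (i.choose j : ℝ) * M l j * (2 * (11 / 10)) ≤
        ∑ l : Fin 3, ∑ j ∈ Finset.range (i + 1), (i.choose j : ℝ) * M l j * (2 * (11 / 10)) :=
      Finset.single_le_sum (f := fun l : Fin 3 => ∑ j ∈ Finset.range (i + 1),
        (i.choose j : ℝ) * M l j * (2 * (11 / 10))) (fun l _ => Finset.sum_nonneg fun j _ =>
        mul_nonneg (mul_nonneg (Nat.cast_nonneg _) (hM0 l j)) (by norm_num)) (Finset.mem_univ l)
    linarith

/-- `linCv 1 l f x = ∫ t, f (Function.update x l t) dt` (substitution `t ↦ x l - t`), so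
`linK β 0 f y = β (y 0) ∫ f (update y 0 t0)`, and `linK 2 (linK 1 (linK 0 f)) x =
β (x 2 - 7) β (x 1) β (x 0) ∫ t2, ∫ t1, ∫ t0, f (update (update (update x 2 t2) 1 t1) 0 t0)`, which is
zero by `fubini3` and `h`. -/
theorem linK_all (hβ : LinBump β) {f : E3 → ℝ} (hf : LinS (11 / 10) f) (h : ∫ x, f x = 0)
    (x : E3) : linK β 2 (linK β 1 (linK β 0 f)) x = 0 := by
  have e1 : ∀ y, linK β 1 (linK β 0 f) y = β (y 1 - linCt 1) * (β (y 0 - linCt 0) *
      ∫ t1, ∫ t0, f (Function.update (Function.update y 1 t1) 0 t0)) := fun y => by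
    rw [linK_apply]
    have : ∀ t : ℝ, linK β 0 f (Function.update y 1 t) = β (y 0 - linCt 0) *
        ∫ t0, f (Function.update (Function.update y 1 t) 0 t0) := by
      intro t
      rw [linK_apply, Function.update_of_ne (by decide)]
    simp_rw [this]
    rw [integral_const_mul]
  have e2 : linK β 2 (linK β 1 (linK β 0 f)) x = β (x 2 - linCt 2) * (β (x 1 - linCt 1) *
      (β (x 0 - linCt 0) * ∫ t2, ∫ t1, ∫ t0, f (Function.update (Function.update
        (Function.update x 2 t2) 1 t1) 0 t0))) := by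
    rw [linK_apply]
    have : ∀ t : ℝ, linK β 1 (linK β 0 f) (Function.update x 2 t) = β (x 1 - linCt 1) *
        (β (x 0 - linCt 0) * ∫ t1, ∫ t0, f (Function.update (Function.update
          (Function.update x 2 t) 1 t1) 0 t0)) := by
      intro t
      rw [e1, Function.update_of_ne (by decide), Function.update_of_ne (by decide)]
    simp_rw [this]
    rw [integral_const_mul, integral_const_mul]
  rw [e2, ← fubini3 f hf.sm.continuous (BX (11 / 10) (11 / 10)) (lin_isCompact_BX _ _) hf.off x,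
    h]
  ring

end Pool.Agent.QM59
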