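import Pool.Agent.Lib.MP_decea1_gt_C.LinA

/-!
# MP_decea1_gt, block C, C4, linear equation, module LinM1: `b - μ² b ∘ MdI μ = O(μ - 1)`
-/

set_option autoImplicit false

open MeasureTheory Set Filter Topology

namespace Pool.Agent.QM59

/-- The derivatives of the slices of a smooth function are jointly smooth. Induction on `i` for all
`F` at once: the derivative of the slice `Φ (p, ·)` at `x` is
`(fderiv ℝ Φ (p, x)).comp (ContinuousLinearMap.inr ℝ ℝ E3)`, which is smooth in `(p, x)`;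
`iteratedFDeriv_succ_eq_comp_right`. -/
theorem lin_slice {F : Type} [NormedAddCommGroup F] [NormedSpace ℝ F] {Φ : ℝ × E3 → F}
    (h : ContDiff ℝ smo Φ) (i : ℕ) :
    ContDiff ℝ smo (fun q : ℝ × E3 => iteratedFDeriv ℝ i (fun x => Φ (q.1, x)) q.2) := by
  induction i generalizing F Φ with
  | zero =>
    exact (continuousMultilinearCurryFin0 ℝ E3 F).symm.toContinuousLinearEquiv.contDiff.comp h
  | succ n ih =>
    have h1 : ContDiff ℝ smo (fun q : ℝ × E3 =>
        (fderiv ℝ Φ q).comp (ContinuousLinearMap.inr ℝ ℝ E3)) :=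
      (h.fderiv_right (m := smo) (by simp)).clm_comp contDiff_const
    have h2 := ih h1
    have h3 : ∀ q : ℝ × E3, iteratedFDeriv ℝ (n + 1) (fun x => Φ (q.1, x)) q.2 =
        (continuousMultilinearCurryRightEquiv' ℝ n E3 F).symm
          (iteratedFDeriv ℝ n (fun x => (fderiv ℝ Φ (q.1, x)).comp
            (ContinuousLinearMap.inr ℝ ℝ E3)) q.2) := by
      intro q
      rw [iteratedFDeriv_succ_eq_comp_right, Function.comp_apply]
      congr 2
      funext x
      have h4 : HasFDerivAt (fun y : E3 => (q.1, y)) (ContinuousLinearMap.inr ℝ ℝ E3) x :=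
        (hasFDerivAt_const q.1 x).prodMk (hasFDerivAt_id x)
      have h5 : HasFDerivAt Φ (fderiv ℝ Φ (q.1, x)) (q.1, x) :=
        (h.differentiable (by simp) (q.1, x)).hasFDerivAt
      exact (HasFDerivAt.comp x h5 h4).fderiv
    simp_rw [h3]
    exact (continuousMultilinearCurryRightEquiv' ℝ n E3 F).symm.contDiff.comp h2

private theorem linM1_lip {V : Type} [NormedAddCommGroup V] [NormedSpace ℝ V]
    {Ψ : ℝ × E3 → V} (h : ContDiff ℝ smo Ψ) :
    ∃ C : ℝ, 0 ≤ C ∧ ∀ p ∈ (Icc 0 1 : Set ℝ) ×ˢ Metric.closedBall (0 : E3) 20,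
      ∀ q ∈ (Icc 0 1 : Set ℝ) ×ˢ Metric.closedBall (0 : E3) 20,
        ‖Ψ q - Ψ p‖ ≤ C * ‖q - p‖ := by
  have hc : IsCompact ((Icc 0 1 : Set ℝ) ×ˢ Metric.closedBall (0 : E3) 20) :=
    isCompact_Icc.prod (isCompact_closedBall 0 20)
  have hcv : Convex ℝ ((Icc 0 1 : Set ℝ) ×ˢ Metric.closedBall (0 : E3) 20) :=
    (convex_Icc 0 1).prod (convex_closedBall 0 20)
  have hd : ∀ q, DifferentiableAt ℝ Ψ q := h.differentiable (by simp)
  have hfc : Continuous (fderiv ℝ Ψ) := (h.continuous_fderiv (by simp))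
  obtain ⟨C, hC⟩ := hc.exists_bound_of_continuousOn hfc.continuousOn
  exact ⟨max C 0, le_max_right _ _, fun p hp q hq =>
    hcv.norm_image_sub_le_of_norm_fderiv_le (fun q _ => hd q)
      (fun q hq => (hC q hq).trans (le_max_left _ _)) hp hq⟩

private theorem linM1_one (x : E3) : MdI 1 x = x := by
  ext i
  fin_cases i <;> simp [MdI]

private theorem linM1_smooth : ContDiff ℝ smo (fun q : ℝ × E3 => MdI (Real.exp q.1) q.2) := by
  have he : ContDiff ℝ smo (fun q : ℝ × E3 => Real.exp q.1) :=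
    Real.contDiff_exp.comp contDiff_fst
  have hei : ContDiff ℝ smo (fun q : ℝ × E3 => (Real.exp q.1)⁻¹) :=
    he.inv fun q => (Real.exp_pos _).ne'
  have hc : ∀ k : Fin 3, ContDiff ℝ smo (fun q : ℝ × E3 => q.2 k) := fun k =>
    (contDiff_apply ℝ ℝ k).comp contDiff_snd
  rw [contDiff_pi]
  intro k
  fin_cases k
  · exact hei.mul (hc 0)
  · exact hei.mul (hc 1)
  · exact contDiff_const.add ((he.pow 2).mul ((hc 2).sub contDiff_const))

private theorem linM1_smooth' (μ : ℝ) : ContDiff ℝ smo (fun x : E3 => MdI μ x) := by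
  have hc : ∀ k : Fin 3, ContDiff ℝ smo (fun q : E3 => q k) := fun k => contDiff_apply ℝ ℝ k
  rw [contDiff_pi]
  intro k
  fin_cases k
  · exact contDiff_const.mul (hc 0)
  · exact contDiff_const.mul (hc 1)
  · exact contDiff_const.add (contDiff_const.mul ((hc 2).sub contDiff_const))

private theorem linM1_supp {b : E3 → ℝ} (hb : LinS (1 / 4) b) {γ : ℝ} (hγ : 0 < γ)
    (hγ1 : γ ≤ 1) : LinS 1 (fun x => b x - (1 + γ) ^ 2 * b (MdI (1 + γ) x)) := by
  refine ⟨hb.sm.sub (contDiff_const.mul (hb.sm.comp (linM1_smooth' (1 + γ)))), fun x hx => ?_⟩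
  have h1 : b x = 0 := hb.off x fun h => hx
    ⟨h.1.trans (by norm_num), h.2.1.trans (by norm_num), h.2.2.trans (by norm_num)⟩
  have h2 : b (MdI (1 + γ) x) = 0 := by
    refine hb.off _ fun h => hx ?_
    obtain ⟨h3, h4, h5⟩ := h
    have e0 : MdI (1 + γ) x 0 = (1 + γ)⁻¹ * x 0 := rfl
    have e1 : MdI (1 + γ) x 1 = (1 + γ)⁻¹ * x 1 := rfl
    have e2 : MdI (1 + γ) x 2 - 7 = (1 + γ) ^ 2 * (x 2 - 7) := by
      change 7 + (1 + γ) ^ 2 * (x 2 - 7) - 7 = _
      ring
    have hp : 0 < 1 + γ := by linarith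
    rw [e0, abs_mul, abs_of_pos (inv_pos.mpr hp), inv_mul_le_iff₀ hp] at h3
    rw [e1, abs_mul, abs_of_pos (inv_pos.mpr hp), inv_mul_le_iff₀ hp] at h4
    rw [e2, abs_mul, abs_of_pos (by positivity)] at h5
    refine ⟨by linarith, by linarith, ?_⟩
    have h6 := abs_nonneg (x 2 - 7)
    nlinarith
  simp only [h1, h2, mul_zero, sub_zero]

/-- `Φ (τ, x) = b x - (exp τ)² b (MdI (exp τ) x)` is smooth on `ℝ × E3` and zero for `τ = 0`. Its
`i`-th derivative in `x`, `Φ_i`, is smooth by `lin_slice`, so it is Lipschitz on the compact convex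
set `[0,1] × closedBall 0 20`, and `Φ_i (0, x) = 0`: `‖Φ_i (τ, x)‖ ≤ C τ`. For `x ∉ closedBall 0 20`
and `0 ≤ τ ≤ 1` all functions vanish near `x`. Take `τ = log (1 + γ) ≤ γ`. -/
theorem lin_md_bd {b : E3 → ℝ} (hb : LinS (1 / 4) b) (i : ℕ) : ∃ C : ℝ, 0 ≤ C ∧ ∀ γ : ℝ, 0 < γ →
    γ ≤ 1 → ∀ x, ‖iteratedFDeriv ℝ i (fun x => b x - (1 + γ) ^ 2 * b (MdI (1 + γ) x)) x‖ ≤
      C * γ := by
  obtain ⟨Φ, hΦ⟩ : ∃ Φ : ℝ × E3 → ℝ, Φ = fun q => b q.2 - (Real.exp q.1) ^ 2 *
    b (MdI (Real.exp q.1) q.2) := ⟨_, rfl⟩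
  have hs : ContDiff ℝ smo Φ := by
    rw [hΦ]
    refine (hb.sm.comp contDiff_snd).sub ?_
    exact ((Real.contDiff_exp.comp contDiff_fst).pow 2).mul (hb.sm.comp linM1_smooth)
  have hsi := lin_slice hs i
  obtain ⟨Ψ, hΨ⟩ : ∃ Ψ, Ψ = fun q : ℝ × E3 => iteratedFDeriv ℝ i (fun x => Φ (q.1, x)) q.2 :=
    ⟨_, rfl⟩
  rw [← hΨ] at hsi
  obtain ⟨C, hC0, hC⟩ := linM1_lip hsi
  refine ⟨C, hC0, fun γ hγ hγ1 x => ?_⟩
  by_cases hx : x ∈ BX 1 1
  · have hx20 : x ∈ Metric.closedBall (0 : E3) 20 := by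
      obtain ⟨h0, h1, h2⟩ := hx
      rw [abs_le] at h0 h1 h2
      rw [mem_closedBall_zero_iff, pi_norm_le_iff_of_nonneg (by norm_num)]
      intro k
      rw [Real.norm_eq_abs, abs_le]
      fin_cases k
      · exact ⟨by simp only [Fin.zero_eta]; linarith [h0.1], by
          simp only [Fin.zero_eta]; linarith [h0.2]⟩
      · exact ⟨by simp only [Fin.mk_one]; linarith [h1.1], by
          simp only [Fin.mk_one]; linarith [h1.2]⟩
      · exact ⟨by simp only [Fin.reduceFinMk]; linarith [h2.1], by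
          simp only [Fin.reduceFinMk]; linarith [h2.2]⟩
    have hlog0 : 0 ≤ Real.log (1 + γ) := Real.log_nonneg (by linarith)
    have hlog : Real.log (1 + γ) ≤ γ := by
      have := Real.log_le_sub_one_of_pos (show 0 < 1 + γ by linarith)
      linarith
    have h1 := hC (0, x) ⟨⟨le_rfl, zero_le_one⟩, hx20⟩ (Real.log (1 + γ), x)
      ⟨⟨hlog0, hlog.trans hγ1⟩, hx20⟩
    have h2 : Ψ (0, x) = 0 := by
      have h3 : (fun y => Φ (0, y)) = fun _ => (0 : ℝ) := by
        funext y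
        rw [hΦ]
        simp only [Real.exp_zero, one_pow, one_mul, linM1_one, sub_self]
      rw [hΨ]
      simp only [h3]
      exact congrFun (iteratedFDeriv_fun_zero (𝕜 := ℝ) (E := E3) (F := ℝ) (n := i)) x
    have h3 : Ψ (Real.log (1 + γ), x) = iteratedFDeriv ℝ i
        (fun x => b x - (1 + γ) ^ 2 * b (MdI (1 + γ) x)) x := by
      rw [hΨ, hΦ]
      simp only [Real.exp_log (show 0 < 1 + γ by linarith)]
    have h4 : ‖((Real.log (1 + γ), x) : ℝ × E3) - (0, x)‖ = Real.log (1 + γ) := by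
      rw [Prod.mk_sub_mk, sub_self, sub_zero, Prod.norm_def]
      simp only [norm_zero]
      rw [Real.norm_of_nonneg hlog0, max_eq_left hlog0]
    rw [h2, sub_zero, h3, h4] at h1
    exact h1.trans (by gcongr)
  · have h1 : LinS 1 (fun x => b x - (1 + γ) ^ 2 * b (MdI (1 + γ) x)) := linM1_supp hb hγ hγ1
    have h2 : x ∉ tsupport (fun x => b x - (1 + γ) ^ 2 * b (MdI (1 + γ) x)) := by
      have h3 : tsupport (fun x => b x - (1 + γ) ^ 2 * b (MdI (1 + γ) x)) ⊆ BX 1 1 := by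
        refine closure_minimal ?_ (lin_isCompact_BX 1 1).isClosed
        intro y hy
        by_contra hn
        exact hy (h1.off y hn)
      exact fun h => hx (h3 h)
    have h3 : iteratedFDeriv ℝ i (fun x => b x - (1 + γ) ^ 2 * b (MdI (1 + γ) x)) x = 0 := by
      by_contra hn
      exact h2 (support_iteratedFDeriv_subset (𝕜 := ℝ) i hn)
    rw [h3, norm_zero]
    exact mul_nonneg hC0 hγ.le

/-- `MdI μ` is affine with a linear part of determinant one: volume preserving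
(`Real.map_linearMap_volume_pi_eq_smul_volume_pi` or
`MeasureTheory.Measure.map_linearMap_addHaar_eq_smul_addHaar`, and a translation). -/
theorem lin_md_int {μ : ℝ} (hμ : 0 < μ) (b : E3 → ℝ) :
    ∫ x, b (MdI μ x) = ∫ x, b x := by
  have hn := hμ.ne'
  obtain ⟨L, hL⟩ : ∃ L, L = Matrix.toLin' (Matrix.diagonal ![μ⁻¹, μ⁻¹, μ ^ 2]) := ⟨_, rfl⟩
  have hdet : (Matrix.diagonal ![μ⁻¹, μ⁻¹, μ ^ 2]).det = 1 := by
    rw [Matrix.det_diagonal, Fin.prod_univ_three]
    simp only [Matrix.cons_val_zero, Matrix.cons_val_one, Matrix.cons_val]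
    field_simp
  have hmap : Measure.map L volume = volume := by
    have h1 := Real.smul_map_diagonal_volume_pi (D := ![μ⁻¹, μ⁻¹, μ ^ 2]) (by
      rw [hdet]; exact one_ne_zero)
    rw [hdet, abs_one, ENNReal.ofReal_one, one_smul] at h1
    rw [hL]
    exact h1
  have hLx : ∀ x : E3, MdI μ x = L x + ![0, 0, 7 - μ ^ 2 * 7] := by
    intro x
    rw [hL]
    ext i
    rw [Pi.add_apply, Matrix.toLin'_apply, Matrix.mulVec_diagonal]
    fin_cases i
    · simp [MdI]
    · simp [MdI]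
    · simp [MdI]
      ring
  have hinj : Function.Injective L := by
    rw [hL]
    intro x y hxy
    funext i
    have h1 := congrFun hxy i
    rw [Matrix.toLin'_apply, Matrix.toLin'_apply, Matrix.mulVec_diagonal,
      Matrix.mulVec_diagonal] at h1
    refine mul_left_cancel₀ ?_ h1
    fin_cases i
    · simpa using hn
    · simpa using hn
    · simpa using hn
  have hemb : MeasurableEmbedding L :=
    (LinearMap.isClosedEmbedding_of_injective (LinearMap.ker_eq_bot.mpr hinj)).measurableEmbedding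
  simp_rw [hLx]
  have h1 := hemb.integral_map (μ := volume) (fun y => b (y + ![0, 0, 7 - μ ^ 2 * 7]))
  rw [← h1, hmap]
  exact integral_add_right_eq_self (fun y => b y) _

/-- Let `x ∉ BX 1 1`, `1 ≤ μ ≤ 2`: then `MdI μ x ∉ BX (1/4) (1/4)`
(`|x 0| ≤ μ/4 ≤ 1/2`, `|x 2 - 7| ≤ 1/(4 μ²) ≤ 1/4` if `MdI μ x ∈ BX (1/4) (1/4)`). -/
theorem lin_md_supp {b : E3 → ℝ} (hb : LinS (1 / 4) b) {γ : ℝ} (hγ : 0 < γ) (hγ1 : γ ≤ 1) :
    LinS 1 (fun x => b x - (1 + γ) ^ 2 * b (MdI (1 + γ) x)) :=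
  linM1_supp hb hγ hγ1

end Pool.Agent.QM59
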