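import Pool.Agent.Lib.MP_decea1_gt_C.LinE

/-!
# MP_decea1_gt, block C, C4, linear equation, module LinR: iterates of `linE`
-/

set_option autoImplicit false

open MeasureTheory Set Filter Topology

namespace Pool.Agent.QM59

variable {ρ γ : ℝ} {f : E3 → ℝ}

theorem linEr (h : LinS ρ f) (hγ : 0 < γ) (l : Fin 3) (r : ℕ) :
    LinS (ρ + r * γ) ((linE γ l)^[r] f) := by
  induction r with
  | zero =>
    refine h.mono ?_
    simp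
  | succ r ih =>
    rw [Function.iterate_succ_apply']
    refine (ih.linE hγ l).mono (le_of_eq ?_)
    push_cast
    ring

theorem linEr_bd2 (h : LinS ρ f) (hγ : 0 < γ) (l : Fin 3) (r : ℕ) {i : ℕ} {a : ℝ}
    (ha : ∀ x, ‖iteratedFDeriv ℝ i f x‖ ≤ a) (x : E3) :
    ‖iteratedFDeriv ℝ i ((linE γ l)^[r] f) x‖ ≤ 2 ^ r * a := by
  induction r generalizing x with
  | zero =>
    rw [pow_zero, one_mul]
    exact ha x
  | succ r ih =>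
    rw [Function.iterate_succ_apply']
    refine (linE_bd2 (linEr h hγ l r) hγ l ih x).trans (le_of_eq ?_)
    rw [pow_succ]
    ring

theorem pd_linEr (h : LinS ρ f) (hγ : 0 < γ) (l : Fin 3) (r : ℕ) :
    pd l ((linE γ l)^[r] f) = (linE γ l)^[r] (pd l f) := by
  induction r with
  | zero => rfl
  | succ r ih =>
    rw [Function.iterate_succ_apply', Function.iterate_succ_apply',
      pd_linE (linEr h hγ l r) hγ l, ih]

/-- `E^(r+1) f = E^r (E f)`, `linE_bdg`, `linEr_bd2`. -/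
theorem linEr_bdg (h : LinS ρ f) (hγ : 0 < γ) (l : Fin 3) (r : ℕ) {i : ℕ} {a : ℝ}
    (ha : ∀ x, ‖iteratedFDeriv ℝ i (pd l f) x‖ ≤ a) (x : E3) :
    ‖iteratedFDeriv ℝ i ((linE γ l)^[r + 1] f) x‖ ≤ 2 ^ r * (γ * a) := by
  rw [Function.iterate_succ_apply]
  exact linEr_bd2 (h.linE hγ l) hγ l r (linE_bdg h hγ l ha) x

/-- Induction on `s` for all `r`, `f`, `ρ`, `a`: `E^r f = E^(r-1) (E f)`, and
`‖D^(i+s) (E f)‖ ≤ γ ‖D^(i+s) (pd l f)‖ ≤ γ ‖D^(i+s+1) f‖` (`linE_bdg`, `lin_pd_bd`). -/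
theorem linEr_bds (h : LinS ρ f) (hγ : 0 < γ) (l : Fin 3) {r s : ℕ} (hs : s ≤ r) {i : ℕ} {a : ℝ}
    (ha : ∀ x, ‖iteratedFDeriv ℝ (i + s) f x‖ ≤ a) (x : E3) :
    ‖iteratedFDeriv ℝ i ((linE γ l)^[r] f) x‖ ≤ 2 ^ (r - s) * γ ^ s * a := by
  induction s generalizing r f ρ a with
  | zero =>
    rw [Nat.sub_zero, pow_zero, mul_one]
    exact linEr_bd2 h hγ l r ha x
  | succ s ih =>
    obtain ⟨r, rfl⟩ : ∃ r', r = r' + 1 := ⟨r - 1, by omega⟩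
    rw [Function.iterate_succ_apply]
    have h1 : ∀ y, ‖iteratedFDeriv ℝ (i + s) (linE γ l f) y‖ ≤ γ * a :=
      linE_bdg h hγ l (lin_pd_bd h l ha)
    refine (ih (h.linE hγ l) (by omega : s ≤ r) h1).trans (le_of_eq ?_)
    rw [Nat.add_sub_add_right, pow_succ γ s]
    ring

/-- The bound which is used, for all `s`, when `2^r ≤ γ⁻¹ < 2^(r+1)`, `γ ≤ 1`. For `s ≤ r`:
`linEr_bds`, `2^(r-s) ≤ 2^r ≤ γ⁻¹`. For `s > r`: `linEr_bd2`, `2^r ≤ 2^s`, and `1 ≤ (2^s γ)^s` because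
`γ⁻¹ < 2^(r+1) ≤ 2^s`; `1 ≤ γ⁻¹`. -/
theorem linEr_bdall (h : LinS ρ f) (hγ : 0 < γ) (hγ1 : γ ≤ 1) (l : Fin 3) {r : ℕ}
    (h1 : (2 : ℝ) ^ r ≤ γ⁻¹) (h2 : γ⁻¹ < 2 ^ (r + 1)) {i s : ℕ} {a : ℝ}
    (ha : ∀ j ≤ i + s, ∀ x, ‖iteratedFDeriv ℝ j f x‖ ≤ a) (x : E3) :
    ‖iteratedFDeriv ℝ i ((linE γ l)^[r] f) x‖ ≤ 2 ^ (s * s + s) * γ ^ s * γ⁻¹ * a := by
  have ha0 : 0 ≤ a := (norm_nonneg _).trans (ha 0 (Nat.zero_le _) x)
  have hγs : 0 < γ ^ s := pow_pos hγ s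
  have hγi : 1 ≤ γ⁻¹ := (one_le_inv₀ hγ).2 hγ1
  rcases le_or_gt s r with hs | hs
  · refine (linEr_bds h hγ l hs (ha (i + s) le_rfl) x).trans ?_
    have h3 : (2 : ℝ) ^ (r - s) ≤ 2 ^ r := pow_le_pow_right₀ (by norm_num) (Nat.sub_le r s)
    have h4 : (1 : ℝ) ≤ 2 ^ (s * s + s) := one_le_pow₀ (by norm_num)
    have h5 : (2 : ℝ) ^ (r - s) ≤ 2 ^ (s * s + s) * γ⁻¹ := by
      refine (h3.trans h1).trans ?_
      nlinarith
    calc (2 : ℝ) ^ (r - s) * γ ^ s * a = 2 ^ (r - s) * (γ ^ s * a) := by ring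
      _ ≤ 2 ^ (s * s + s) * γ⁻¹ * (γ ^ s * a) :=
        mul_le_mul_of_nonneg_right h5 (mul_nonneg hγs.le ha0)
      _ = 2 ^ (s * s + s) * γ ^ s * γ⁻¹ * a := by ring
  · refine (linEr_bd2 h hγ l r (ha i (Nat.le_add_right i s)) x).trans ?_
    have h3 : (2 : ℝ) ^ r ≤ 2 ^ s := pow_le_pow_right₀ (by norm_num) hs.le
    have h4 : γ⁻¹ ≤ 2 ^ s := h2.le.trans (pow_le_pow_right₀ (by norm_num) hs)
    have h5 : 1 ≤ 2 ^ s * γ := by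
      have := mul_le_mul_of_nonneg_right h4 hγ.le
      rwa [inv_mul_cancel₀ hγ.ne'] at this
    have h6 : 1 ≤ (2 ^ s * γ) ^ s := one_le_pow₀ h5
    have h7 : (2 : ℝ) ^ (s * s + s) * γ ^ s * γ⁻¹ = 2 ^ s * ((2 ^ s * γ) ^ s * γ⁻¹) := by
      rw [mul_pow, ← pow_mul, pow_add]
      ring
    have h8 : 1 ≤ (2 ^ s * γ) ^ s * γ⁻¹ := by nlinarith
    rw [h7]
    refine mul_le_mul_of_nonneg_right ?_ ha0
    have h9 : (0 : ℝ) < 2 ^ s := by positivity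
    nlinarith

end Pool.Agent.QM59
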