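import Pool.Agent.Lib.MP_decea1_gt_C.NEC

/-!
# MP_decea1_gt, block C, C7.2: a map preserving the third coordinate is `G_S` on a ball
-/

set_option autoImplicit false

open MeasureTheory Set Topology Filter

namespace Pool.Agent.QM59

open Nb

private theorem ned_jac {u : E3 → ℝ} (hu : ContDiff ℝ smo u) (w t : E3) :
    jac (fun y => y + u y • w) t = 1 + fderiv ℝ u t w := by
  have h1 : HasFDerivAt (fun y => y + u y • w)
      (ContinuousLinearMap.id ℝ E3 + (fderiv ℝ u t).smulRight w) t :=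
    (hasFDerivAt_id t).add
      (((hu.differentiable (by simp [smo])) t).hasFDerivAt.smul_const w)
  unfold jac
  rw [h1.fderiv]
  exact LinearMap.transvection.det ((fderiv ℝ u t : E3 →L[ℝ] ℝ) : E3 →ₗ[ℝ] ℝ) w

private theorem ned_symm {S : E3 → ℝ} (h : ContDiff ℝ smo S) (t : E3) :
    pd 0 (pd 1 S) t = pd 1 (pd 0 S) t := by
  have h1 : jac (bef S) t = 1 + pd 0 (pd 1 S) t := ned_jac (contDiff_pd h 1) (ev 0) t
  have h2 := (jac_alf h t).2
  linarith

/-- the projection onto `x_0 = 0` -/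
noncomputable def neP : E3 →L[ℝ] E3 :=
  ContinuousLinearMap.id ℝ E3 -
    (ContinuousLinearMap.proj (R := ℝ) (φ := fun _ : Fin 3 => ℝ) 0).smulRight (ev 0)

private theorem neP_apply (x : E3) : neP x = x - x 0 • ev 0 := rfl

private theorem neP_coord (x : E3) (i : Fin 3) : neP x i = if i = 0 then 0 else x i := by
  rw [neP_apply]
  fin_cases i <;> simp [ev]

private theorem norm_neP_apply (x : E3) : ‖neP x‖ ≤ ‖x‖ := by
  rw [pi_norm_le_iff_of_nonneg (norm_nonneg _)]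
  intro i
  rw [neP_coord]
  split_ifs
  · rw [norm_zero]
    exact norm_nonneg _
  · exact norm_le_pi_norm x i

private theorem norm_neP : ‖neP‖ ≤ 1 :=
  ContinuousLinearMap.opNorm_le_bound _ zero_le_one fun p => by
    rw [one_mul]; exact norm_neP_apply p

private theorem ned_pd_comp {F : E3 → ℝ} (hF : ContDiff ℝ smo F) (i : Fin 3) (q : E3) :
    pd i (fun x => F (neP x)) q = fderiv ℝ F (neP q) (neP (ev i)) := by
  unfold pd
  have h1 : HasFDerivAt (fun x => F (neP x)) ((fderiv ℝ F (neP q)).comp neP) q :=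
    (hF.differentiable (by simp [smo]) _).hasFDerivAt.comp _ neP.hasFDerivAt
  rw [h1.fderiv]
  rfl

private theorem neP_ev0 : neP (ev 0) = 0 := by
  ext i
  rw [neP_coord]
  fin_cases i <;> simp [ev]

private theorem neP_ev1 : neP (ev 1) = ev 1 := by
  ext i
  rw [neP_coord]
  fin_cases i <;> simp [ev]

/-- the potential of the form `P dx + Q dy` -/
private noncomputable def pot (P Q : E3 → ℝ) (x : E3) : ℝ :=
  (prm 0 P x - prm 0 P (neP x)) + prm 1 Q (neP x)

private theorem pot_smooth {P Q : E3 → ℝ} (hP : ContDiff ℝ smo P) (hQ : ContDiff ℝ smo Q) :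
    ContDiff ℝ smo (pot P Q) :=
  ((ne_prm_smooth 0 hP).sub ((ne_prm_smooth 0 hP).comp neP.contDiff)).add
    ((ne_prm_smooth 1 hQ).comp neP.contDiff)

private theorem ned_pd_pot {P Q : E3 → ℝ} (hP : ContDiff ℝ smo P) (hQ : ContDiff ℝ smo Q)
    (i : Fin 3) (q : E3) : pd i (pot P Q) q = pd i (prm 0 P) q -
      fderiv ℝ (prm 0 P) (neP q) (neP (ev i)) + fderiv ℝ (prm 1 Q) (neP q) (neP (ev i)) := by
  have hsP := ne_prm_smooth 0 hP
  have hsQ := ne_prm_smooth 1 hQ
  have d1 : DifferentiableAt ℝ (prm 0 P) q := hsP.differentiable (by simp [smo]) q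
  have d2 : DifferentiableAt ℝ (fun x => prm 0 P (neP x)) q :=
    (hsP.comp neP.contDiff).differentiable (by simp [smo]) q
  have d3 : DifferentiableAt ℝ (fun x => prm 1 Q (neP x)) q :=
    (hsQ.comp neP.contDiff).differentiable (by simp [smo]) q
  rw [← ned_pd_comp hsP, ← ned_pd_comp hsQ]
  have h1 : HasFDerivAt (pot P Q) ((fderiv ℝ (prm 0 P) q -
      fderiv ℝ (fun x => prm 0 P (neP x)) q) + fderiv ℝ (fun x => prm 1 Q (neP x)) q) q :=
    (d1.hasFDerivAt.sub d2.hasFDerivAt).add d3.hasFDerivAt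
  unfold pd
  rw [h1.fderiv]
  rfl

/-- `∂_0 S = P` -/
private theorem ned_pd0 {P Q : E3 → ℝ} (hP : ContDiff ℝ smo P) (hQ : ContDiff ℝ smo Q)
    (hP0 : ∀ x, x ∉ Metric.closedBall (0 : E3) 1 → P x = 0) {q : E3} (hq : q 0 < 3) :
    pd 0 (pot P Q) q = P q := by
  rw [ned_pd_pot hP hQ, ne_pd_prm' 0 hP hP0 hq, neP_ev0, map_zero, map_zero, sub_zero, add_zero]

/-- `∂_1 S = Q` on the plane `x_0 = 0` -/
private theorem ned_pd1_zero {P Q : E3 → ℝ} (hP : ContDiff ℝ smo P) (hQ : ContDiff ℝ smo Q)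
    (hQ0 : ∀ x, x ∉ Metric.closedBall (0 : E3) 1 → Q x = 0) {q : E3} (hq : q 1 < 3)
    (hq0 : neP q = q) : pd 1 (pot P Q) q = Q q := by
  rw [ned_pd_pot hP hQ, neP_ev1, hq0]
  have h1 : pd 1 (prm 0 P) q - fderiv ℝ (prm 0 P) q (ev 1) = 0 := sub_self _
  rw [h1, zero_add]
  exact ne_pd_prm' 1 hQ hQ0 hq

/-- the bound for the potential -/
private theorem pot_bd {K : ℕ} {P Q : E3 → ℝ} {p q : ℝ} (hP : ContDiff ℝ smo P)
    (hQ : ContDiff ℝ smo Q) (h : NB K 1 P p) (h' : NB K 1 Q q) :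
    NB K 1 (pot P Q) (8 * p + 4 * q) := by
  have hsP := ne_prm_smooth 0 hP
  have hsQ := ne_prm_smooth 1 hQ
  have b1 : NB K 1 (prm 0 P) (4 * p) :=
    nb_of_le le_rfl (ne_prm_bd 0 K hP fun j hj x => h.le_of_one hj x)
  have b2 : NB K 1 (prm 1 Q) (4 * q) :=
    nb_of_le le_rfl (ne_prm_bd 1 K hQ fun j hj x => h'.le_of_one hj x)
  have c1 := NB.comp_clm neP norm_neP le_rfl hsP zero_le_one b1
  have c2 := NB.comp_clm neP norm_neP le_rfl hsQ zero_le_one b2
  rw [one_pow, one_mul] at c1 c2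
  have d1 := b1.sub hsP (hsP.comp neP.contDiff) zero_le_one c1
  have d2 := d1.add (hsP.sub (hsP.comp neP.contDiff)) (hsQ.comp neP.contDiff) zero_le_one c2
  exact d2.mono (by linarith)

/-- closedness gives `∂_1 S = Q` on the ball -/
private theorem ned_pd1 {P Q : E3 → ℝ} (hP : ContDiff ℝ smo P) (hQ : ContDiff ℝ smo Q)
    (hP0 : ∀ x, x ∉ Metric.closedBall (0 : E3) 1 → P x = 0)
    (hQ0 : ∀ x, x ∉ Metric.closedBall (0 : E3) 1 → Q x = 0) {r : ℝ} (hr : r < 1)
    (hcl : ∀ x : E3, ‖x‖ ≤ r → pd 0 Q x = pd 1 P x) {q : E3} (hq : ‖q‖ ≤ r) :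
    pd 1 (pot P Q) q = Q q := by
  have hS := pot_smooth hP hQ
  set D : E3 → ℝ := fun x => pd 1 (pot P Q) x - Q x with hD
  have hDs : ContDiff ℝ smo D := (contDiff_pd hS 1).sub hQ
  have hDd : Differentiable ℝ D := hDs.differentiable (by simp [smo])
  -- the derivative of `D` in the direction `e_0` vanishes
  have h1 : ∀ x : E3, ‖x‖ ≤ r → fderiv ℝ D x (ev 0) = 0 := by
    intro x hx
    have d1 : DifferentiableAt ℝ (pd 1 (pot P Q)) x :=
      (contDiff_pd hS 1).differentiable (by simp [smo]) x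
    have d2 : DifferentiableAt ℝ Q x := hQ.differentiable (by simp [smo]) x
    have h2 : HasFDerivAt D (fderiv ℝ (pd 1 (pot P Q)) x - fderiv ℝ Q x) x :=
      d1.hasFDerivAt.sub d2.hasFDerivAt
    rw [h2.fderiv]
    have h3 : pd 0 (pd 1 (pot P Q)) x = pd 1 P x := by
      rw [ned_symm hS]
      have h4 : pd 0 (pot P Q) =ᶠ[𝓝 x] P := by
        have h5 : {y : E3 | y 0 < 3} ∈ 𝓝 x := by
          refine (isOpen_lt (continuous_apply 0) continuous_const).mem_nhds ?_
          have h6 := norm_le_pi_norm x 0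
          rw [Real.norm_eq_abs] at h6
          change x 0 < 3
          linarith [(abs_le.1 h6).2]
        filter_upwards [h5] with y hy
        exact ned_pd0 hP hQ hP0 hy
      unfold pd at h4 ⊢
      rw [h4.fderiv_eq]
    have h4 : pd 0 (pd 1 (pot P Q)) x - pd 0 Q x = 0 := by
      rw [h3, hcl x hx, sub_self]
    exact h4
  have h2 : ∀ s ∈ Icc (0 : ℝ) 1, ‖neP q + s • (q 0 • ev 0)‖ ≤ r := by
    intro s hs
    refine le_trans ?_ hq
    rw [pi_norm_le_iff_of_nonneg (norm_nonneg _)]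
    intro i
    rw [Pi.add_apply, neP_coord]
    have hi : (s • (q 0 • ev 0) : E3) i = if i = 0 then s * q 0 else 0 := by
      fin_cases i <;> simp [ev]
    rw [hi]
    split_ifs with h
    · rw [zero_add, norm_mul, Real.norm_eq_abs, abs_of_nonneg hs.1]
      have h3 := norm_le_pi_norm q 0
      calc s * ‖q 0‖ ≤ 1 * ‖q 0‖ := mul_le_mul_of_nonneg_right hs.2 (norm_nonneg _)
        _ = ‖q 0‖ := one_mul _
        _ ≤ ‖q‖ := h3
    · rw [add_zero]
      exact norm_le_pi_norm q i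
  have h3 : ∀ s ∈ Icc (0 : ℝ) 1, HasDerivWithinAt
      (fun s : ℝ => D (neP q + s • (q 0 • ev 0))) 0 (Icc 0 1) s := by
    intro s hs
    have h4 : HasDerivAt (fun s : ℝ => neP q + s • (q 0 • ev 0)) (q 0 • ev 0) s := by
      have h5 := ((hasDerivAt_id s).smul_const (q 0 • ev 0)).const_add (neP q)
      rwa [one_smul] at h5
    have h6 := (hDd (neP q + s • (q 0 • ev 0))).hasFDerivAt.comp_hasDerivAt s h4
    rw [map_smul, h1 _ (h2 s hs), smul_zero] at h6
    exact h6.hasDerivWithinAt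
  have h4 := Convex.norm_image_sub_le_of_norm_hasDerivWithin_le (C := 0) h3
    (fun s _ => by rw [norm_zero]) (convex_Icc 0 1) (left_mem_Icc.2 zero_le_one)
    (right_mem_Icc.2 zero_le_one)
  rw [zero_mul, norm_le_zero_iff, sub_eq_zero, zero_smul, add_zero, one_smul] at h4
  have h5 : neP q + q 0 • ev 0 = q := by rw [neP_apply, sub_add_cancel]
  rw [h5] at h4
  have h6 : D (neP q) = 0 := by
    rw [hD]
    simp only
    rw [ned_pd1_zero hP hQ hQ0 _ _, sub_self]
    · rw [neP_coord]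
      simp only [Fin.reduceEq, if_false]
      have h6 := norm_le_pi_norm q 1
      rw [Real.norm_eq_abs] at h6
      linarith [(abs_le.1 h6).2]
    · ext i
      rw [neP_coord, neP_coord]
      split_ifs <;> rfl
  rw [h6] at h4
  exact sub_eq_zero.1 h4

theorem neC (K : ℕ) (hK : 1 ≤ K) (r r' : ℝ) (hr' : 0 < r') (hr : r' < r) (hr1 : r < 1) :
    ∃ C δ : ℝ, 1 ≤ C ∧ 0 < δ ∧
    ∀ (f : Equiv.Perm E3) (c : ℝ), IsDif f → IdOff (Metric.closedBall 0 1) f →
      NB (K + 1) 1 (disp f) c → c ≤ δ →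
      (∀ x ∈ Metric.closedBall (0 : E3) r, f x 2 = x 2) →
      (∀ x ∈ Metric.closedBall (0 : E3) r, jac (fun y => f y) x = 1) →
      ∃ g : Equiv.Perm E3, Ok (Metric.closedBall 0 1) g ∧ NB K 1 (disp g) (C * c) ∧
        ∀ x ∈ Metric.closedBall (0 : E3) r', g x = f x := by
  set r₁ : ℝ := (r + r') / 2 with hr₁
  obtain ⟨χ, hχ, h1, h0⟩ := ne_cut r₁ 1 (by linarith) (by linarith)
  obtain ⟨C₁, hC₁, hb⟩ := ne_cut_bd (K + 1) hχ h0
  have hN0 : 1 ≤ cN K := one_le_cN K
  have hN1 : 1 ≤ cN (K + 1) := one_le_cN (K + 1)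
  have hC₁0 : 0 < C₁ := by linarith
  set M : ℝ := C₁ * (20 * cN (K + 1)) with hM
  have hM1 : 20 * cN (K + 1) ≤ M := le_mul_of_one_le_left (by linarith) hC₁
  have hM0 : 0 < M := by linarith
  set C : ℝ := 3 * cN K * M with hC
  have hMC : M ≤ C := le_mul_of_one_le_left hM0.le (by linarith)
  have hC1 : 1 ≤ C := by linarith
  have hC0 : 0 < C := by linarith
  have hmin : 0 < min 1 (r - r') := lt_min one_pos (by linarith)
  refine ⟨C, min 1 (r - r') / (4 * C), hC1, by positivity, ?_⟩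
  intro f c hf hoff hB hcδ hz hj
  have hc : 0 ≤ c := hB.nonneg zero_le_one
  have hCc : C * c ≤ min 1 (r - r') / 4 := by
    calc C * c ≤ C * (min 1 (r - r') / (4 * C)) := mul_le_mul_of_nonneg_left hcδ hC0.le
      _ = min 1 (r - r') / 4 := by field_simp
  have hCc1 : C * c ≤ 1 / 4 := hCc.trans (by linarith [min_le_left 1 (r - r')])
  have hCc2 : C * c ≤ (r - r') / 4 := hCc.trans (by linarith [min_le_right 1 (r - r')])
  have hMc : M * c ≤ C * c := mul_le_mul_of_nonneg_right hMC hc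
  have hNc : 20 * cN (K + 1) * c ≤ M * c := mul_le_mul_of_nonneg_right hM1 hc
  have hcc : c ≤ cN (K + 1) * c := le_mul_of_one_le_left hc hN1
  have hNc0 : 0 ≤ cN (K + 1) * c := by positivity
  -- the shear
  have hv := hf.contDiff_disp
  have hu : ContDiff ℝ smo fun x => disp f x 1 := contDiff_pi.1 hv 1
  have hub : NB (K + 1) 1 (fun x => disp f x 1) c := ne_comp 1 hv hB
  set u : E3 → ℝ := fun x => disp f x 1 with hudef
  have hK1 : 1 ≤ K + 1 := by omega
  have hc2 : c ≤ 1 / 2 := by linarith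
  set a := shr u 1 with ha
  have ad : IsDif a := shr_dif hK1 1 hu hub hc2
  have ab : NB (K + 1) 1 (disp a) c := shr_disp hK1 1 hu hub hc2
  have aa : ∀ x, a x = x + u x • ev 1 := shr_apply hK1 1 hu hub hc2
  have ai : NB (K + 1) 1 (disp a⁻¹) (2 * cN (K + 1) * c) := ne_inv hK1 ad ab (by linarith)
  have hP : ContDiff ℝ smo fun q => disp a⁻¹ q 1 := contDiff_pi.1 ad.inv.contDiff_disp 1
  have hPb : NB (K + 1) 1 (fun q => disp a⁻¹ q 1) (2 * cN (K + 1) * c) :=
    ne_comp 1 ad.inv.contDiff_disp ai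
  set P : E3 → ℝ := fun q => disp a⁻¹ q 1 with hPdef
  have haoff : ∀ x, x ∉ Metric.closedBall (0 : E3) 1 → a⁻¹ x = x := by
    intro x hx
    have h2 : a x = x := by
      rw [aa, hudef]
      simp only [disp, hoff x hx, sub_self, Pi.zero_apply, zero_smul, add_zero]
    rw [Equiv.Perm.inv_eq_iff_eq, h2]
  have hP0 : ∀ x, x ∉ Metric.closedBall (0 : E3) 1 → P x = 0 := by
    intro x hx
    simp only [hPdef, disp, haoff x hx, sub_self, Pi.zero_apply]
  have hQ : ContDiff ℝ smo fun q => disp f (q + disp a⁻¹ q) 0 :=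
    (contDiff_pi.1 hv 0).comp (contDiff_id.add ad.inv.contDiff_disp)
  have hQb : NB (K + 1) 1 (fun q => disp f (q + disp a⁻¹ q) 0) (cN (K + 1) * c) := by
    have hv0 : ContDiff ℝ smo fun x => disp f x 0 := contDiff_pi.1 hv 0
    have k1 : NB (K + 1) 1 (disp a⁻¹) 1 := ai.mono (by linarith)
    have k2 : ∀ x, ‖fderiv ℝ (disp a⁻¹) x‖ ≤ 1 := fun x =>
      (ne_fderiv_le hK1 ai x).trans (by linarith)
    exact NB.comp (K + 1) hK1 (U := fun x => disp f x 0) (V := disp a⁻¹) zero_le_one le_rfl hv0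
      ad.inv.contDiff_disp k1 k2 (ne_comp 0 hv hB)
  set Q : E3 → ℝ := fun q => disp f (q + disp a⁻¹ q) 0 with hQdef
  have hdi : ∀ q, q + disp a⁻¹ q = a⁻¹ q := by
    intro q
    rw [disp]
    abel
  have hQ0 : ∀ x, x ∉ Metric.closedBall (0 : E3) 1 → Q x = 0 := by
    intro x hx
    simp only [hQdef, hdi, haoff x hx]
    simp only [disp, hoff x hx, sub_self, Pi.zero_apply]
  -- `f (a⁻¹ q) = q + Q q e_0`
  have hfq : ∀ q : E3, ‖a⁻¹ q‖ ≤ r → f (a⁻¹ q) = q + Q q • ev 0 := by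
    intro q hq
    have h2 := hz (a⁻¹ q) (by rwa [mem_closedBall_zero_iff])
    have h3 : a (a⁻¹ q) = q := a.apply_symm_apply q
    have h4 : a⁻¹ q + u (a⁻¹ q) • ev 1 = q := by rw [← aa, h3]
    have h5 : Q q = disp f (a⁻¹ q) 0 := by simp only [hQdef, hdi]
    rw [h5]
    set p := a⁻¹ q with hp
    rw [← h4, hudef]
    ext i
    fin_cases i
    · simp [ev, disp]
    · simp [ev, disp]
    · simp [ev, h2]
  have hinv : ∀ q : E3, ‖q‖ ≤ r₁ → ‖a⁻¹ q‖ < r := by
    intro q hq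
    have h2 : ‖a⁻¹ q‖ ≤ ‖q‖ + ‖disp a⁻¹ q‖ := by
      calc ‖a⁻¹ q‖ = ‖q + disp a⁻¹ q‖ := by rw [hdi]
        _ ≤ ‖q‖ + ‖disp a⁻¹ q‖ := norm_add_le _ _
    have h3 := ne_norm_le ai q
    linarith
  -- closedness
  have hcl : ∀ q : E3, ‖q‖ ≤ r₁ → pd 0 Q q = pd 1 P q := by
    intro q hq
    have h2 := hinv q hq
    have h3 : (fun y => f (a⁻¹ y)) =ᶠ[𝓝 q] fun y => y + Q y • ev 0 := by
      have h4 : ContinuousAt (fun y => ‖a⁻¹ y‖) q :=
        ad.inv.1.continuous.norm.continuousAt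
      filter_upwards [h4.eventually_lt continuousAt_const h2] with y hy
      exact hfq y hy.le
    have h4 : jac (fun y => f (a⁻¹ y)) q = 1 + fderiv ℝ Q q (ev 0) := by
      rw [jac_congr _ _ _ h3]
      exact ned_jac hQ (ev 0) q
    have h5 : jac (fun y => f (a⁻¹ y)) q = jac (fun y => f y) (a⁻¹ q) * jac (fun y => a⁻¹ y) q :=
      hf.jac_mul ad.inv q
    rw [hj (a⁻¹ q) (by rw [mem_closedBall_zero_iff]; exact h2.le), one_mul] at h5
    have h6 : (fun y => a⁻¹ y) = fun y => y + P y • ev 1 := by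
      funext y
      exact shr_inv hK1 1 hu hub hc2 y
    have h7 : jac (fun y => a⁻¹ y) q = 1 + fderiv ℝ P q (ev 1) := by
      rw [h6]
      exact ned_jac hP (ev 1) q
    have h8 : 1 + fderiv ℝ Q q (ev 0) = 1 + fderiv ℝ P q (ev 1) := by
      rw [← h4, h5, h7]
    exact add_left_cancel h8
  have hS := pot_smooth hP hQ
  have hSb := pot_bd hP hQ hPb hQb
  have hV : ContDiff ℝ smo fun x => χ x • pot P Q x := hχ.smul hS
  have hVb : NB (K + 1) 1 (fun x => χ x • pot P Q x) (M * c) := by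
    refine (hb (pot P Q) (20 * cN (K + 1) * c) hS (by linarith)
      (fun i hi x _ => (hSb.le_of_one hi x).trans (by linarith))).mono ?_
    rw [hM]
    linarith
  set V : E3 → ℝ := fun x => χ x • pot P Q x with hVdef
  have hV0 : ∀ x, x ∉ Metric.closedBall (0 : E3) 1 → V x = 0 := by
    intro x hx
    simp only [hVdef, h0 x hx, zero_smul]
  have hSm := ne_sm hK hV hVb (by linarith)
  have e1 : 2 * cN K * (M * c) ≤ 1 := by
    have e2 : 3 * cN K * (M * c) = C * c := by rw [hC]; ring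
    have e3 : 0 ≤ cN K * (M * c) := by positivity
    linarith
  obtain ⟨g1, -⟩ := ne_gp hK hV hVb (by linarith) e1
  have e3 : 3 * cN K * (M * c) = C * c := by rw [hC]; ring
  rw [e3] at g1
  refine ⟨Gp V, ne_gp_ok hSm hV0, g1, fun x hx => ?_⟩
  rw [mem_closedBall_zero_iff] at hx
  have hq : ‖a x‖ < r₁ := by
    have h2 : ‖a x‖ ≤ ‖x‖ + ‖disp a x‖ := by
      have h3 : x + disp a x = a x := by rw [disp]; abel
      calc ‖a x‖ = ‖x + disp a x‖ := by rw [h3]
        _ ≤ ‖x‖ + ‖disp a x‖ := norm_add_le _ _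
    have h3 := ne_norm_le ab x
    linarith
  have hq0 : (a x) 0 < 3 := by
    have h2 := norm_le_pi_norm (a x) 0
    rw [Real.norm_eq_abs] at h2
    linarith [(abs_le.1 h2).2]
  have hax : a⁻¹ (a x) = x := a.symm_apply_apply x
  have h2 : pd 0 V (a x) = P (a x) := by
    rw [hVdef, ne_pd_cut h1 hq, ned_pd0 hP hQ hP0 hq0]
  have h3 : pd 1 V (a x) = Q (a x) := by
    rw [hVdef, ne_pd_cut h1 hq, ned_pd1 hP hQ hP0 hQ0 (by linarith) hcl hq.le]
  have h4 : alf V (a x) = x := by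
    have h5 := shr_inv hK1 1 hu hub hc2 (a x)
    rw [← ha, hax] at h5
    rw [alf, h2]
    exact h5.symm
  have h5 := Gp_alf hSm (a x)
  rw [h4] at h5
  rw [h5, bef, h3]
  have h6 := hfq (a x) (by rw [hax]; linarith)
  rw [hax] at h6
  exact h6.symm

end Pool.Agent.QM59
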