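import Pool.Agent.Lib.MP_decea1_gt_C.GEst
import Pool.Agent.Lib.MP_decea1_gt_C.NED

/-!
# MP_decea1_gt, block C, C7.2: near-identity extension with a gap

Text: `/team-store/MP_decea1_QM_C.md`, C7.2, with the radii `1 - θ < ... < 1` instead of
`1 < ... < 2`. Start with `κ^c = id + χ (κ - id)`, `χ = 1` on `closedBall 0 (1 - θ/8)`, `χ = 0` off
`closedBall 0 1`: a global near-identity diffeomorphism, equal to `κ` on `closedBall 0 (1 - θ/8)`.
Then `g₂` has the same third coordinate (`neB`), and `κ^c g₂⁻¹` preserves the third coordinate on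
a ball, where it is a map `G_S` (`neC`).
-/

set_option autoImplicit false

open MeasureTheory Set

namespace Pool.Agent.QM59

open Nb in
/-- C7.2 -/
theorem NE (k : ℕ) (ε' θ : ℝ) (hε' : 0 < ε') (hθ : 0 < θ) (hθ1 : θ < 1) : ∃ ε : ℝ, 0 < ε ∧
    ∀ κ : E3 → E3, ContDiff ℝ smo κ → (∀ x, jac κ x = 1) →
      (∀ i ≤ k + 3, ∀ x ∈ Metric.closedBall (0 : E3) 1,
        ‖iteratedFDeriv ℝ i (fun y => κ y - y) x‖ ≤ ε) →
      ∃ κ' : Equiv.Perm E3, Ok (Metric.closedBall 0 1) κ' ∧ Bn k ε' (disp κ') ∧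
        ∀ x ∈ Metric.closedBall (0 : E3) (1 - θ), κ' x = κ x := by
  obtain ⟨CA, δA, hCA, hδA, hA⟩ := neA (k + 3) (by omega) (1 - θ / 8) (by linarith) (by linarith)
  obtain ⟨CB, δB, hCB, hδB, hB⟩ := neB (k + 2) (by omega) (1 - θ / 8) (1 - θ / 4) (by linarith)
    (by linarith) (by linarith)
  obtain ⟨CC, δC, hCC, hδC, hC⟩ := neC (k + 1) (by omega) (1 - θ / 2) (1 - 3 * θ / 4)
    (by linarith) (by linarith) (by linarith)
  have n1 : 1 ≤ cN (k + 1) := one_le_cN _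
  have n2 : 1 ≤ cN (k + 2) := one_le_cN _
  set L : ℝ := CA * (CB + cN (k + 2)) with hL
  set W : ℝ := L * (1 + cN (k + 1) * CC) with hW
  have hCA0 : 0 < CA := by linarith
  have hCB0 : 0 < CB := by linarith
  have hCC0 : 0 < CC := by linarith
  have n10 : 0 < cN (k + 1) := by linarith
  have n20 : 0 < cN (k + 2) := by linarith
  have hL1 : 1 ≤ L := one_le_mul_of_one_le_of_one_le hCA (by linarith)
  have hL0 : 0 < L := by linarith
  have hLA : CA ≤ L := le_mul_of_one_le_right hCA0.le (by linarith)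
  have hLW : L ≤ W := le_mul_of_one_le_right hL0.le (by linarith [mul_pos n10 hCC0])
  have hW0 : 0 < W := by linarith
  obtain ⟨m, hm0, hm1, hm2, hm3, hm4, hm5, hm6⟩ : ∃ m : ℝ, 0 < m ∧ m ≤ δA ∧ m ≤ δB ∧ m ≤ δC ∧
      m ≤ 1 ∧ m ≤ ε' ∧ m ≤ θ / 8 := by
    refine ⟨min (min δA (min δB δC)) (min 1 (min ε' (θ / 8))), ?_, ?_, ?_, ?_, ?_, ?_, ?_⟩
    · exact lt_min (lt_min hδA (lt_min hδB hδC))
        (lt_min one_pos (lt_min hε' (by positivity)))
    · exact (min_le_left _ _).trans (min_le_left _ _)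
    · exact (min_le_left _ _).trans ((min_le_right _ _).trans (min_le_left _ _))
    · exact (min_le_left _ _).trans ((min_le_right _ _).trans (min_le_right _ _))
    · exact (min_le_right _ _).trans (min_le_left _ _)
    · exact (min_le_right _ _).trans ((min_le_right _ _).trans (min_le_left _ _))
    · exact (min_le_right _ _).trans ((min_le_right _ _).trans (min_le_right _ _))
  refine ⟨m / W, by positivity, ?_⟩
  set ε : ℝ := m / W with hε
  have hε0 : 0 < ε := by positivity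
  have hWε : W * ε = m := by rw [hε]; field_simp
  have hLε : L * ε ≤ m := by
    rw [← hWε]
    exact mul_le_mul_of_nonneg_right hLW hε0.le
  have hAε : CA * ε ≤ L * ε := mul_le_mul_of_nonneg_right hLA hε0.le
  have hεA : ε ≤ CA * ε := le_mul_of_one_le_left hε0.le hCA
  have hBε : CB * (CA * ε) + cN (k + 2) * (CA * ε) = L * ε := by rw [hL]; ring
  have hBε1 : 0 ≤ cN (k + 2) * (CA * ε) := by positivity
  have hBε2 : 0 ≤ CB * (CA * ε) := by positivity
  have hCε : L * ε + cN (k + 1) * (CC * (L * ε)) = m := by rw [← hWε, hW]; ring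
  intro κ hκ hjac hbd
  obtain ⟨f, hf, hfo, hfb, hfe⟩ := hA κ ε hκ hε0.le (by linarith) hbd
  obtain ⟨g₂, hg2, hg2b, hg2i, hg2e⟩ := hB f (CA * ε) hf hfo hfb (by linarith)
  have hfb' : NB (k + 2) 1 (disp f) (CA * ε) := hfb.down le_rfl (by omega)
  set f₁ : Equiv.Perm E3 := f * g₂⁻¹ with hf1
  have hf1d : IsDif f₁ := hf.mul hg2.dif.inv
  have hf1o : IdOff (Metric.closedBall 0 1) f₁ := hfo.mul hg2.off.inv
  have hf1b : NB (k + 2) 1 (disp f₁) (L * ε) := by
    refine (ne_mul (by omega) hf hg2.dif.inv hfb' hg2i (by linarith)).mono ?_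
    rw [hBε]
  have hmove : ∀ x : E3, ‖g₂⁻¹ x‖ ≤ ‖x‖ + θ / 8 := by
    intro x
    have h3 : x + disp g₂⁻¹ x = g₂⁻¹ x := by rw [disp]; abel
    have h4 := ne_norm_le hg2i x
    calc ‖g₂⁻¹ x‖ = ‖x + disp g₂⁻¹ x‖ := by rw [h3]
      _ ≤ ‖x‖ + ‖disp g₂⁻¹ x‖ := norm_add_le _ _
      _ ≤ ‖x‖ + θ / 8 := by linarith
  have hmove' : ∀ x : E3, ‖g₂ x‖ ≤ ‖x‖ + θ / 8 := by
    intro x
    have h3 : x + disp g₂ x = g₂ x := by rw [disp]; abel
    have h4 := ne_norm_le hg2b x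
    calc ‖g₂ x‖ = ‖x + disp g₂ x‖ := by rw [h3]
      _ ≤ ‖x‖ + ‖disp g₂ x‖ := norm_add_le _ _
      _ ≤ ‖x‖ + θ / 8 := by linarith
  have hz : ∀ x ∈ Metric.closedBall (0 : E3) (1 - θ / 2), f₁ x 2 = x 2 := by
    intro x hx
    rw [mem_closedBall_zero_iff] at hx
    have h1 : g₂⁻¹ x ∈ Metric.closedBall (0 : E3) (1 - θ / 4) := by
      rw [mem_closedBall_zero_iff]
      linarith [hmove x]
    have h2 := hg2e _ h1
    have h3 : g₂ (g₂⁻¹ x) = x := g₂.apply_symm_apply x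
    rw [h3] at h2
    exact h2.symm
  have hj : ∀ x ∈ Metric.closedBall (0 : E3) (1 - θ / 2), jac (fun y => f₁ y) x = 1 := by
    intro x hx
    rw [mem_closedBall_zero_iff] at hx
    have h1 : ‖g₂⁻¹ x‖ < 1 - θ / 8 := by linarith [hmove x]
    have h2 : jac (fun y => f y) (g₂⁻¹ x) = 1 := by
      rw [← hjac (g₂⁻¹ x)]
      refine jac_congr _ _ _ ?_
      have h3 : Metric.ball (0 : E3) (1 - θ / 8) ∈ nhds (g₂⁻¹ x) :=
        Metric.isOpen_ball.mem_nhds (by rwa [mem_ball_zero_iff])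
      filter_upwards [h3] with y hy
      exact hfe y (Metric.ball_subset_closedBall hy)
    have h3 := hf.jac_mul hg2.dif.inv x
    rw [h2, hg2.inv.vol x, one_mul] at h3
    exact h3
  obtain ⟨g, hg, hgb, hge⟩ := hC f₁ (L * ε) hf1d hf1o hf1b (by linarith) hz hj
  refine ⟨g * g₂, hg.mul hg2, ?_, fun x hx => ?_⟩
  · have h1 := ne_mul (by omega : 1 ≤ k + 1) hg.dif hg2.dif hgb
      (hg2b.down le_rfl (by omega)) (by linarith)
    intro i hi x
    refine (h1.le_of_one (by omega) x).trans ?_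
    linarith
  · rw [mem_closedBall_zero_iff] at hx
    have h1 : g₂ x ∈ Metric.closedBall (0 : E3) (1 - 3 * θ / 4) := by
      rw [mem_closedBall_zero_iff]
      linarith [hmove' x]
    have h2 : g₂⁻¹ (g₂ x) = x := g₂.symm_apply_apply x
    rw [Equiv.Perm.mul_apply, hge _ h1, hf1, Equiv.Perm.mul_apply, h2]
    exact hfe x (by rw [mem_closedBall_zero_iff]; linarith)

end Pool.Agent.QM59
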