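import Pool.Agent.Lib.MP_decea1_gt_C.GEst
import Pool.Agent.Lib.MP_decea1_gt_A.Int

/-!
# MP_decea1_gt, block C, C7.2, tools: averages along a line, cut-offs, bounds for permutations
-/

set_option autoImplicit false

open MeasureTheory Set Topology Filter

namespace Pool.Agent.QM59

open Nb

theorem ne_norm_ev (i : Fin 3) : ‖ev i‖ ≤ 1 := by
  rw [ev, pi_norm_le_iff_of_nonneg zero_le_one]
  intro j
  by_cases h : j = i
  · subst h
    rw [Pi.single_eq_same]
    simp
  · rw [Pi.single_eq_of_ne h]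
    simp

theorem ne_mem_ball {s : ℝ} (hs : 0 ≤ s) {x : E3} :
    x ∈ Metric.closedBall (0 : E3) s ↔ ∀ i, |x i| ≤ s := by
  rw [mem_closedBall_zero_iff, pi_norm_le_iff_of_nonneg hs]
  rfl

theorem ne_ball_Icc : Metric.closedBall (0 : E3) 1 = Icc (fun _ => -1) (fun _ => 1) := by
  ext x
  rw [ne_mem_ball zero_le_one, mem_Icc, Pi.le_def, Pi.le_def]
  simp only [abs_le]
  exact forall_and

/-- the average along a line -/
noncomputable def prm {A : Type} [NormedAddCommGroup A] [NormedSpace ℝ A] (i : Fin 3)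
    (w : E3 → A) (x : E3) : A := ∫ s in (0 : ℝ)..4, w (x - s • ev i)

section avg

variable {A : Type} [NormedAddCommGroup A] [NormedSpace ℝ A]

omit [NormedSpace ℝ A] in
private theorem ne_line {w : E3 → A} (hw : Continuous w) (i : Fin 3) (x : E3) :
    Continuous fun s : ℝ => w (x - s • ev i) :=
  hw.comp (continuous_const.sub (continuous_id.smul continuous_const))

theorem ne_fderiv_prm [CompleteSpace A] (i : Fin 3) {w : E3 → A} {c : ℝ}
    (hw : ContDiff ℝ smo w) (h : ∀ x, ‖fderiv ℝ w x‖ ≤ c) (x : E3) :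
    HasFDerivAt (prm i w) (prm i (fderiv ℝ w) x) x := by
  have hd : Differentiable ℝ w := hw.differentiable (by simp [smo])
  have hc : Continuous (fderiv ℝ w) := (contDiff_fderiv_smo hw).continuous
  refine intervalIntegral.hasFDerivAt_integral_of_dominated_of_fderiv_le (𝕜 := ℝ) (μ := volume)
    (F := fun y s => w (y - s • ev i)) (F' := fun y s => fderiv ℝ w (y - s • ev i))
    (bound := fun _ => c) univ_mem ?_ ?_ ?_ ?_ ?_ ?_
  · exact Eventually.of_forall fun y => (ne_line hw.continuous i y).aestronglyMeasurable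
  · exact (ne_line hw.continuous i x).intervalIntegrable _ _
  · exact (ne_line hc i x).aestronglyMeasurable
  · exact Eventually.of_forall fun t _ y _ => h _
  · exact intervalIntegrable_const
  · refine Eventually.of_forall fun t _ y _ => ?_
    have h1 : HasFDerivAt (fun y : E3 => y - t • ev i) (ContinuousLinearMap.id ℝ E3) y :=
      (hasFDerivAt_id y).sub_const _
    have h2 := (hd (y - t • ev i)).hasFDerivAt.comp y h1
    rwa [ContinuousLinearMap.comp_id] at h2

theorem ne_norm_prm (i : Fin 3) {w : E3 → A} {c : ℝ} (h : ∀ x, ‖w x‖ ≤ c) (x : E3) :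
    ‖prm i w x‖ ≤ 4 * c := by
  have h1 := intervalIntegral.norm_integral_le_of_norm_le_const (a := (0 : ℝ)) (b := 4)
    (f := fun s => w (x - s • ev i)) (C := c) (fun s _ => h _)
  rw [sub_zero, abs_of_nonneg (by norm_num : (0 : ℝ) ≤ 4), mul_comm] at h1
  exact h1

end avg

theorem ne_prm_bd (i : Fin 3) (K : ℕ) : ∀ {A : Type} [NormedAddCommGroup A] [NormedSpace ℝ A]
    [CompleteSpace A] {w : E3 → A} {c : ℝ}, ContDiff ℝ smo w →
    (∀ j ≤ K, ∀ x, ‖iteratedFDeriv ℝ j w x‖ ≤ c) →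
    ∀ j ≤ K, ∀ x, ‖iteratedFDeriv ℝ j (prm i w) x‖ ≤ 4 * c := by
  induction K with
  | zero =>
    intro A _ _ _ w c hw h j hj x
    obtain rfl : j = 0 := by omega
    rw [norm_iteratedFDeriv_zero]
    exact ne_norm_prm i (fun x => by simpa using h 0 le_rfl x) x
  | succ K ih =>
    intro A _ _ _ w c hw h j hj x
    rcases j with _ | j
    · rw [norm_iteratedFDeriv_zero]
      exact ne_norm_prm i (fun x => by simpa using h 0 (by omega) x) x
    · have h1 : ∀ x, ‖fderiv ℝ w x‖ ≤ c := by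
        intro x
        have h2 := h 1 (by omega) x
        rwa [← norm_iteratedFDeriv_fderiv, norm_iteratedFDeriv_zero] at h2
      have h2 : fderiv ℝ (prm i w) = prm i (fderiv ℝ w) :=
        funext fun x => (ne_fderiv_prm i hw h1 x).fderiv
      rw [← norm_iteratedFDeriv_fderiv, h2]
      refine ih (contDiff_fderiv_smo hw) (fun l hl y => ?_) j (by omega) x
      rw [norm_iteratedFDeriv_fderiv]
      exact h (l + 1) (by omega) y

theorem ne_prm_smooth (i : Fin 3) {w : E3 → ℝ} (hw : ContDiff ℝ smo w) :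
    ContDiff ℝ smo (prm i w) := by
  have h1 : ContDiff ℝ smo fun p : E3 × ℝ => w (p.1 - p.2 • ev i) :=
    hw.comp (contDiff_fst.sub (contDiff_snd.smul contDiff_const))
  have h2 := smooth_prim (0 : ℝ) _ h1
  exact h2.comp (contDiff_id.prodMk (contDiff_const (c := (4 : ℝ))))

/-- the derivative of the average in the direction of the line -/
theorem ne_pd_prm (i : Fin 3) {w : E3 → ℝ} (hw : ContDiff ℝ smo w) (x : E3) :
    pd i (prm i w) x = w x - w (x - (4 : ℝ) • ev i) := by
  have hs := ne_prm_smooth i hw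
  have h1 : HasDerivAt (fun r : ℝ => prm i w (x + r • ev i)) (pd i (prm i w) x) 0 := by
    have h2 : HasDerivAt (fun r : ℝ => x + r • ev i) (ev i) 0 := by
      have h3 := ((hasDerivAt_id (0 : ℝ)).smul_const (ev i)).const_add x
      rwa [one_smul] at h3
    have h4 : HasFDerivAt (prm i w) (fderiv ℝ (prm i w) x) (x + (0 : ℝ) • ev i) := by
      rw [zero_smul, add_zero]
      exact (hs.differentiable (by simp [smo]) x).hasFDerivAt
    exact h4.comp_hasDerivAt (0 : ℝ) h2
  have hc : Continuous fun u : ℝ => w (x + u • ev i) :=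
    hw.continuous.comp (continuous_const.add (continuous_id.smul continuous_const))
  have h5 : ∀ r : ℝ, prm i w (x + r • ev i) = (∫ u in (0 : ℝ)..r, w (x + u • ev i)) -
      ∫ u in (0 : ℝ)..(r - 4), w (x + u • ev i) := by
    intro r
    have h6 : prm i w (x + r • ev i) = ∫ u in (r - 4)..r, w (x + u • ev i) := by
      have h7 := intervalIntegral.integral_comp_sub_left (a := (0 : ℝ)) (b := 4)
        (fun u : ℝ => w (x + u • ev i)) r
      rw [sub_zero] at h7
      rw [← h7]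
      unfold prm
      refine intervalIntegral.integral_congr fun s _ => ?_
      rw [sub_smul]
      congr 1
      abel
    rw [h6, eq_sub_iff_add_eq, add_comm]
    exact intervalIntegral.integral_add_adjacent_intervals (hc.intervalIntegrable _ _)
      (hc.intervalIntegrable _ _)
  have h8 : HasDerivAt (fun r : ℝ => ∫ u in (0 : ℝ)..r, w (x + u • ev i))
      (w (x + (0 : ℝ) • ev i)) 0 :=
    intervalIntegral.integral_hasDerivAt_right (hc.intervalIntegrable _ _)
      hc.stronglyMeasurable.stronglyMeasurableAtFilter hc.continuousAt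
  have h9 : HasDerivAt (fun r : ℝ => ∫ u in (0 : ℝ)..(r - 4), w (x + u • ev i))
      (w (x + (0 - 4 : ℝ) • ev i)) 0 := by
    have h10 : HasDerivAt (fun r : ℝ => ∫ u in (0 : ℝ)..r, w (x + u • ev i))
        (w (x + (0 - 4 : ℝ) • ev i)) (0 - 4) :=
      intervalIntegral.integral_hasDerivAt_right (hc.intervalIntegrable _ _)
        hc.stronglyMeasurable.stronglyMeasurableAtFilter hc.continuousAt
    have h11 := h10.comp (0 : ℝ) ((hasDerivAt_id (0 : ℝ)).sub_const 4)
    rw [mul_one] at h11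
    exact h11
  have h12 := h8.sub h9
  have h13 : (fun r : ℝ => prm i w (x + r • ev i)) =
      (fun r : ℝ => (∫ u in (0 : ℝ)..r, w (x + u • ev i)) -
        ∫ u in (0 : ℝ)..(r - 4), w (x + u • ev i)) := funext h5
  rw [h13] at h1
  have h14 := h1.unique h12
  rw [h14, zero_smul, add_zero, zero_sub, neg_smul, ← sub_eq_add_neg]

theorem ne_pd_prm' (i : Fin 3) {w : E3 → ℝ} (hw : ContDiff ℝ smo w)
    (h0 : ∀ x, x ∉ Metric.closedBall (0 : E3) 1 → w x = 0) {x : E3} (hx : x i < 3) :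
    pd i (prm i w) x = w x := by
  rw [ne_pd_prm i hw, h0 (x - (4 : ℝ) • ev i), sub_zero]
  rw [ne_mem_ball zero_le_one]
  intro h
  have h1 := h i
  have h2 : (x - (4 : ℝ) • ev i) i = x i - 4 := by
    simp [ev]
  rw [h2, abs_le] at h1
  linarith [h1.1]

/-- cut-offs -/
theorem ne_cut (s t : ℝ) (hs : 0 < s) (hst : s < t) : ∃ χ : E3 → ℝ, ContDiff ℝ smo χ ∧
    (∀ x ∈ Metric.closedBall (0 : E3) s, χ x = 1) ∧
    ∀ x, x ∉ Metric.closedBall (0 : E3) t → χ x = 0 := by
  let χ : ContDiffBump (0 : E3) := ⟨s, t, hs, hst⟩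
  refine ⟨fun x => χ x, χ.contDiff, fun x hx => χ.one_of_mem_closedBall hx, fun x hx => ?_⟩
  apply χ.zero_of_le_dist
  rw [Metric.mem_closedBall, not_le] at hx
  exact hx.le

theorem ne_cut_bd (K : ℕ) {χ : E3 → ℝ} (hχ : ContDiff ℝ smo χ)
    (h0 : ∀ x, x ∉ Metric.closedBall (0 : E3) 1 → χ x = 0) : ∃ C : ℝ, 1 ≤ C ∧
    ∀ {A : Type} [NormedAddCommGroup A] [NormedSpace ℝ A] (v : E3 → A) (c : ℝ),
      ContDiff ℝ smo v → 0 ≤ c →
      (∀ i ≤ K, ∀ x ∈ Metric.closedBall (0 : E3) 1, ‖iteratedFDeriv ℝ i v x‖ ≤ c) →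
      NB K 1 (fun x => χ x • v x) (C * c) := by
  have hcs : HasCompactSupport χ :=
    HasCompactSupport.intro (isCompact_closedBall (0 : E3) 1) h0
  have h1 : ∀ i : ℕ, ∃ C : ℝ, ∀ x, ‖iteratedFDeriv ℝ i χ x‖ ≤ C := fun i =>
    (hcs.iteratedFDeriv i).exists_bound_of_continuous
      (hχ.continuous_iteratedFDeriv (natCast_le_smo i))
  choose M hM using h1
  have hM0 : ∀ i, 0 ≤ M i := fun i => (norm_nonneg _).trans (hM i 0)
  set S : ℝ := ∑ i ∈ Finset.range (K + 1), M i with hS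
  have hS0 : 0 ≤ S := Finset.sum_nonneg fun i _ => hM0 i
  have hMS : ∀ i ≤ K, M i ≤ S := fun i hi =>
    Finset.single_le_sum (f := M) (fun i _ => hM0 i) (Finset.mem_range.2 (by omega))
  refine ⟨1 + 2 ^ K * S, by linarith [mul_nonneg (pow_nonneg zero_le_two K : (0:ℝ) ≤ 2 ^ K) hS0],
    ?_⟩
  intro A _ _ v c hv hc h
  refine nb_of_le le_rfl fun i hi x => ?_
  by_cases hx : x ∈ Metric.closedBall (0 : E3) 1
  · have h2 := norm_iteratedFDeriv_smul_le hχ hv x (n := i) (natCast_le_smo i)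
    refine h2.trans ?_
    have h3 : ∑ j ∈ Finset.range (i + 1), (i.choose j : ℝ) * ‖iteratedFDeriv ℝ j χ x‖ *
        ‖iteratedFDeriv ℝ (i - j) v x‖ ≤
          ∑ j ∈ Finset.range (i + 1), (i.choose j : ℝ) * (S * c) := by
      refine Finset.sum_le_sum fun j hj => ?_
      rw [Finset.mem_range] at hj
      rw [mul_assoc]
      refine mul_le_mul_of_nonneg_left ?_ (Nat.cast_nonneg _)
      exact mul_le_mul ((hM j x).trans (hMS j (by omega))) (h (i - j) (by omega) x hx)
        (norm_nonneg _) hS0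
    refine h3.trans ?_
    have hch : ∑ j ∈ Finset.range (i + 1), (i.choose j : ℝ) = 2 ^ i := by
      exact_mod_cast Nat.sum_range_choose i
    rw [← Finset.sum_mul, hch]
    have h4 : (2 : ℝ) ^ i ≤ 2 ^ K := pow_le_pow_right₀ one_le_two hi
    have h5 : (2 : ℝ) ^ i * (S * c) ≤ 2 ^ K * (S * c) :=
      mul_le_mul_of_nonneg_right h4 (mul_nonneg hS0 hc)
    calc (2 : ℝ) ^ i * (S * c) ≤ 2 ^ K * (S * c) := h5
      _ ≤ c + 2 ^ K * (S * c) := by linarith
      _ = (1 + 2 ^ K * S) * c := by ring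
  · have h2 : (fun x => χ x • v x) =ᶠ[𝓝 x] fun _ => (0 : A) := by
      filter_upwards [Metric.isClosed_closedBall.isOpen_compl.mem_nhds hx] with y hy
      rw [h0 y hy, zero_smul]
    have h3 : iteratedFDeriv ℝ i (fun x => χ x • v x) x =
        iteratedFDeriv ℝ i (fun _ : E3 => (0 : A)) x :=
      (h2.iteratedFDeriv ℝ i).eq_of_nhds
    have h4 : iteratedFDeriv ℝ i (fun _ : E3 => (0 : A)) x = 0 :=
      congrFun (iteratedFDeriv_fun_zero (𝕜 := ℝ) (E := E3) (F := A) (n := i)) x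
    rw [h3, h4, norm_zero]
    exact mul_nonneg (by linarith [mul_nonneg (pow_nonneg zero_le_two K : (0:ℝ) ≤ 2 ^ K) hS0]) hc

/-- from level `1` on the first derivative is bounded -/
theorem ne_fderiv_le {A : Type} [NormedAddCommGroup A] [NormedSpace ℝ A] {K : ℕ} (hK : 1 ≤ K)
    {v : E3 → A} {c : ℝ} (h : NB K 1 v c) (x : E3) : ‖fderiv ℝ v x‖ ≤ c := by
  have h2 := h.le_of_one hK x
  rwa [← norm_iteratedFDeriv_fderiv, norm_iteratedFDeriv_zero] at h2

theorem ne_norm_le {A : Type} [NormedAddCommGroup A] [NormedSpace ℝ A] {K : ℕ}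
    {v : E3 → A} {c : ℝ} (h : NB K 1 v c) (x : E3) : ‖v x‖ ≤ c := by
  have h2 := h.le_of_one (Nat.zero_le K) x
  rwa [norm_iteratedFDeriv_zero] at h2

theorem ne_inv {K : ℕ} (hK : 1 ≤ K) {f : Equiv.Perm E3} (hf : IsDif f) {c : ℝ}
    (h : NB K 1 (disp f) c) (hc : 2 * cN K * c ≤ 1) : NB K 1 (disp f⁻¹) (2 * cN K * c) := by
  have h0 : 0 ≤ c := h.nonneg zero_le_one
  have h1 : c ≤ 1 / 2 := by
    have h2 : 2 * 1 * c ≤ 2 * cN K * c :=
      mul_le_mul_of_nonneg_right (mul_le_mul_of_nonneg_left (one_le_cN K) zero_le_two) h0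
    linarith
  exact NB.inv K hK zero_le_one le_rfl hf.contDiff_disp hf.inv.contDiff_disp (disp_inv f)
    (fun x => (ne_fderiv_le hK h x).trans h1) h hc

theorem ne_mul {K : ℕ} (hK : 1 ≤ K) {f g : Equiv.Perm E3} (hf : IsDif f) (hg : IsDif g)
    {a b : ℝ} (h : NB K 1 (disp f) a) (h' : NB K 1 (disp g) b) (hb : b ≤ 1) :
    NB K 1 (disp (f * g)) (b + cN K * a) := by
  have h1 := NB.comp_id hK zero_le_one le_rfl hf.contDiff_disp hg.contDiff_disp (h'.mono hb)
    (fun x => (ne_fderiv_le hK h' x).trans hb) h h'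
  exact h1.congr fun x => (disp_mul f g x).symm

end Pool.Agent.QM59
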