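import Pool.Agent.Lib.MP_decea1_gt_C.NEA

/-!
# MP_decea1_gt, block C, C7.2, tools: shears, the maps `G_S`, the rotation of the coordinates
-/

set_option autoImplicit false

open MeasureTheory Set Topology Filter

namespace Pool.Agent.QM59

open Nb

/-- the map `x ↦ x + u x e_i` -/
noncomputable def shr (u : E3 → ℝ) (i : Fin 3) : Equiv.Perm E3 := toP fun x => x + u x • ev i

section

variable {K : ℕ} {c : ℝ} {u : E3 → ℝ}

theorem ne_vec (i : Fin 3) (hu : ContDiff ℝ smo u) (h : NB K 1 u c) :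
    NB K 1 (fun x => u x • ev i) c := by
  have h1 := NB.clm ((ContinuousLinearMap.id ℝ ℝ).smulRight (ev i)) hu zero_le_one h
  have h2 : ‖(ContinuousLinearMap.id ℝ ℝ).smulRight (ev i)‖ ≤ 1 := by
    rw [ContinuousLinearMap.norm_smulRight_apply]
    calc ‖ContinuousLinearMap.id ℝ ℝ‖ * ‖ev i‖ ≤ 1 * 1 :=
          mul_le_mul ContinuousLinearMap.norm_id_le (ne_norm_ev i) (norm_nonneg _) zero_le_one
      _ = 1 := one_mul 1
  exact h1.mono (mul_le_of_le_one_left (h.nonneg zero_le_one) h2)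

theorem ne_comp (i : Fin 3) {v : E3 → E3} (hv : ContDiff ℝ smo v) (h : NB K 1 v c) :
    NB K 1 (fun x => v x i) c := by
  have h1 := NB.clm (ContinuousLinearMap.proj (R := ℝ) (φ := fun _ : Fin 3 => ℝ) i) hv
    zero_le_one h
  have h2 : ‖ContinuousLinearMap.proj (R := ℝ) (φ := fun _ : Fin 3 => ℝ) i‖ ≤ 1 := by
    refine ContinuousLinearMap.opNorm_le_bound _ zero_le_one fun x => ?_
    rw [one_mul]
    exact norm_le_pi_norm x i
  exact h1.mono (mul_le_of_le_one_left (h.nonneg zero_le_one) h2)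

theorem ne_pd (i : Fin 3) (hu : ContDiff ℝ smo u) (h : NB (K + 1) 1 u c) :
    NB K 1 (pd i u) c := by
  have h1 := NB.clm (ContinuousLinearMap.apply ℝ ℝ (ev i)) (contDiff_fderiv_smo hu)
    zero_le_one h.fderiv
  have h2 : ‖ContinuousLinearMap.apply ℝ ℝ (ev i)‖ ≤ 1 := by
    refine ContinuousLinearMap.opNorm_le_bound _ zero_le_one fun L => ?_
    rw [one_mul]
    calc ‖L (ev i)‖ ≤ ‖L‖ * ‖ev i‖ := L.le_opNorm _
      _ ≤ ‖L‖ * 1 := mul_le_mul_of_nonneg_left (ne_norm_ev i) (norm_nonneg _)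
      _ = ‖L‖ := mul_one _
  exact h1.mono (mul_le_of_le_one_left (h.nonneg zero_le_one) h2)

theorem ne_small (hK : 1 ≤ K) (i : Fin 3) (hu : ContDiff ℝ smo u) (h : NB K 1 u c)
    (hc : c ≤ 1 / 2) (x : E3) : ‖fderiv ℝ (fun y => u y • ev i) x‖ ≤ 1 / 2 :=
  (ne_fderiv_le hK (ne_vec i hu h) x).trans hc

theorem ne_vec_smooth (i : Fin 3) (hu : ContDiff ℝ smo u) :
    ContDiff ℝ smo fun y => u y • ev i := hu.smul contDiff_const

theorem shr_apply (hK : 1 ≤ K) (i : Fin 3) (hu : ContDiff ℝ smo u) (h : NB K 1 u c)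
    (hc : c ≤ 1 / 2) (x : E3) : shr u i x = x + u x • ev i :=
  toP_apply (near_bij (ne_vec_smooth i hu) (ne_small hK i hu h hc)) x

theorem shr_dif (hK : 1 ≤ K) (i : Fin 3) (hu : ContDiff ℝ smo u) (h : NB K 1 u c)
    (hc : c ≤ 1 / 2) : IsDif (shr u i) :=
  near_dif (ne_vec_smooth i hu) (ne_small hK i hu h hc)

theorem shr_disp (hK : 1 ≤ K) (i : Fin 3) (hu : ContDiff ℝ smo u) (h : NB K 1 u c)
    (hc : c ≤ 1 / 2) : NB K 1 (disp (shr u i)) c := by
  refine (ne_vec i hu h).congr fun x => ?_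
  rw [disp, shr_apply hK i hu h hc, add_sub_cancel_left]

/-- the inverse moves only the coordinate `i` -/
theorem shr_inv (hK : 1 ≤ K) (i : Fin 3) (hu : ContDiff ℝ smo u) (h : NB K 1 u c)
    (hc : c ≤ 1 / 2) (x : E3) : (shr u i)⁻¹ x = x + (disp (shr u i)⁻¹ x i) • ev i := by
  have h1 : shr u i ((shr u i)⁻¹ x) = x := (shr u i).apply_symm_apply x
  rw [shr_apply hK i hu h hc] at h1
  set y := (shr u i)⁻¹ x with hy
  have h2 : y = x - u y • ev i := eq_sub_of_add_eq h1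
  have h3 : disp (shr u i)⁻¹ x i = - u y := by
    have h4 : disp (shr u i)⁻¹ x = - (u y • ev i) := by
      rw [disp, ← hy]
      conv_lhs => rw [h2]
      abel
    rw [h4]
    simp [ev]
  rw [h3, neg_smul, ← sub_eq_add_neg]
  exact h2

end

theorem ne_sm {K : ℕ} (hK : 1 ≤ K) {S : E3 → ℝ} {c : ℝ} (hS : ContDiff ℝ smo S)
    (h : NB (K + 1) 1 S c) (hc : c ≤ 1 / 4) : Sm S :=
  ⟨hS, fun x => (ne_fderiv_le hK (ne_pd 0 hS h) x).trans hc,
    fun x => (ne_fderiv_le hK (ne_pd 1 hS h) x).trans hc⟩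

theorem ne_gp {K : ℕ} (hK : 1 ≤ K) {S : E3 → ℝ} {c : ℝ} (hS : ContDiff ℝ smo S)
    (h : NB (K + 1) 1 S c) (hc : c ≤ 1 / 4) (hc' : 2 * cN K * c ≤ 1) :
    NB K 1 (disp (Gp S)) (3 * cN K * c) ∧ NB K 1 (disp (Gp S)⁻¹) (3 * cN K * c) := by
  have hsm := ne_sm hK hS h hc
  have ha : toP (alf S) = shr (pd 0 S) 1 := rfl
  have hb : toP (bef S) = shr (pd 1 S) 0 := rfl
  have h0 := ne_pd 0 hS h
  have h1 := ne_pd 1 hS h
  have d0 := shr_disp hK 1 (contDiff_pd hS 0) h0 (by linarith)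
  have d1 := shr_disp hK 0 (contDiff_pd hS 1) h1 (by linarith)
  have f0 := shr_dif hK 1 (contDiff_pd hS 0) h0 (by linarith)
  have f1 := shr_dif hK 0 (contDiff_pd hS 1) h1 (by linarith)
  have i0 := ne_inv hK f0 d0 hc'
  have i1 := ne_inv hK f1 d1 hc'
  have m0 := ne_mul hK f1 f0.inv d1 i0 hc'
  have m1 := ne_mul hK f0 f1.inv d0 i1 hc'
  have e : Gp S = shr (pd 1 S) 0 * (shr (pd 0 S) 1)⁻¹ := rfl
  rw [e, mul_inv_rev, inv_inv]
  exact ⟨m0.mono (by linarith), m1.mono (by linarith)⟩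

/-- the rotation of the coordinates -/
def cyc : Equiv.Perm E3 where
  toFun p := ![p 1, p 2, p 0]
  invFun p := ![p 2, p 0, p 1]
  left_inv p := by ext i; fin_cases i <;> rfl
  right_inv p := by ext i; fin_cases i <;> rfl

/-- the rotation as a linear map -/
noncomputable def cycL : E3 →L[ℝ] E3 :=
  LinearMap.toContinuousLinearMap
    { toFun := fun p => cyc p
      map_add' := fun p q => by ext i; fin_cases i <;> rfl
      map_smul' := fun r p => by ext i; fin_cases i <;> rfl }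

/-- the inverse rotation as a linear map -/
noncomputable def cycM : E3 →L[ℝ] E3 :=
  LinearMap.toContinuousLinearMap
    { toFun := fun p => cyc⁻¹ p
      map_add' := fun p q => by ext i; fin_cases i <;> rfl
      map_smul' := fun r p => by ext i; fin_cases i <;> rfl }

theorem cycL_apply (p : E3) : cycL p = cyc p := rfl

theorem cycM_apply (p : E3) : cycM p = cyc⁻¹ p := rfl

theorem cycM_cycL (p : E3) : cycM (cycL p) = p := cyc.symm_apply_apply p

theorem cycL_cycM (p : E3) : cycL (cycM p) = p := cyc.apply_symm_apply p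

theorem norm_cycL_apply (p : E3) : ‖cycL p‖ ≤ ‖p‖ := by
  rw [pi_norm_le_iff_of_nonneg (norm_nonneg _)]
  intro i
  fin_cases i
  · exact norm_le_pi_norm p 1
  · exact norm_le_pi_norm p 2
  · exact norm_le_pi_norm p 0

theorem norm_cycM_apply (p : E3) : ‖cycM p‖ ≤ ‖p‖ := by
  rw [pi_norm_le_iff_of_nonneg (norm_nonneg _)]
  intro i
  fin_cases i
  · exact norm_le_pi_norm p 2
  · exact norm_le_pi_norm p 0
  · exact norm_le_pi_norm p 1

theorem norm_cycL : ‖cycL‖ ≤ 1 :=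
  ContinuousLinearMap.opNorm_le_bound _ zero_le_one fun p => by
    rw [one_mul]; exact norm_cycL_apply p

theorem norm_cycM : ‖cycM‖ ≤ 1 :=
  ContinuousLinearMap.opNorm_le_bound _ zero_le_one fun p => by
    rw [one_mul]; exact norm_cycM_apply p

theorem cyc_dif : IsDif cyc := ⟨cycL.contDiff, cycM.contDiff⟩

theorem cyc_jac (x y : E3) : jac (fun z => cyc z) x = jac (fun z => cyc z) y := by
  have e : (fun z => cyc z) = fun z => cycL z := rfl
  rw [e]
  unfold jac
  have h : ∀ x : E3, fderiv ℝ (fun z => cycL z) x = cycL := fun x => cycL.hasFDerivAt.fderiv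
  rw [h, h]

/-- conjugation by the rotation -/
theorem cyc_ok {G : Equiv.Perm E3} (h : Ok (Metric.closedBall 0 1) G) :
    Ok (Metric.closedBall 0 1) (cyc⁻¹ * G * cyc) := by
  have hd := cyc_dif
  refine ⟨(hd.inv.mul h.dif).mul hd, fun x => ?_, fun x hx => ?_⟩
  · rw [(hd.inv.mul h.dif).jac_mul hd, hd.inv.jac_mul h.dif, hd.jac_inv, h.vol, mul_one,
      cyc_jac _ x, inv_mul_cancel₀ (hd.jac_ne_zero x)]
  · have h1 : cyc x ∉ Metric.closedBall (0 : E3) 1 := by
      intro h2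
      apply hx
      rw [mem_closedBall_zero_iff] at h2 ⊢
      have h3 := norm_cycM_apply (cycL x)
      rw [cycM_cycL] at h3
      exact h3.trans h2
    rw [Equiv.Perm.mul_apply, Equiv.Perm.mul_apply, h.off _ h1]
    exact cyc.symm_apply_apply x

theorem cyc_disp (G : Equiv.Perm E3) (x : E3) :
    disp (cyc⁻¹ * G * cyc) x = cycM (disp G (cycL x)) := by
  unfold disp
  rw [map_sub, cycM_cycL]
  rfl

theorem cyc_bd {K : ℕ} {c : ℝ} {G : Equiv.Perm E3} (hG : IsDif G) (h : NB K 1 (disp G) c) :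
    NB K 1 (disp (cyc⁻¹ * G * cyc)) c := by
  have hc := h.nonneg zero_le_one
  have h1 := NB.comp_clm cycL norm_cycL le_rfl hG.contDiff_disp zero_le_one h
  have h2 := NB.clm cycM (hG.contDiff_disp.comp cycL.contDiff) zero_le_one h1
  refine (h2.congr fun x => (cyc_disp G x).symm).mono ?_
  rw [one_pow, one_mul]
  exact mul_le_of_le_one_left hc norm_cycM

theorem cyc_pd0 {U : E3 → ℝ} (hU : ContDiff ℝ smo U) (q : E3) :
    pd 0 (fun x => U (cycM x)) (cycL q) = pd 1 U q := by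
  unfold pd
  have h1 : HasFDerivAt (fun x => U (cycM x)) ((fderiv ℝ U (cycM (cycL q))).comp cycM) (cycL q) :=
    (hU.differentiable (by simp [smo]) _).hasFDerivAt.comp _ cycM.hasFDerivAt
  rw [h1.fderiv, ContinuousLinearMap.comp_apply, cycM_cycL]
  congr 1
  ext i
  fin_cases i <;> simp [cycM_apply, cyc, ev]

theorem cyc_pd1 {U : E3 → ℝ} (hU : ContDiff ℝ smo U) (q : E3) :
    pd 1 (fun x => U (cycM x)) (cycL q) = pd 2 U q := by
  unfold pd
  have h1 : HasFDerivAt (fun x => U (cycM x)) ((fderiv ℝ U (cycM (cycL q))).comp cycM) (cycL q) :=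
    (hU.differentiable (by simp [smo]) _).hasFDerivAt.comp _ cycM.hasFDerivAt
  rw [h1.fderiv, ContinuousLinearMap.comp_apply, cycM_cycL]
  congr 1
  ext i
  fin_cases i <;> simp [cycM_apply, cyc, ev]

end Pool.Agent.QM59
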