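import Pool.Agent.Lib.MP_decea1_gt_C.NEB

/-!
# MP_decea1_gt, block C, C7.2: the cut-off, and the map `g_2` with the third coordinate of `κ`
-/

set_option autoImplicit false

open MeasureTheory Set Topology Filter

namespace Pool.Agent.QM59

open Nb

/-- the cut-off of a near-identity map -/
theorem neA (K : ℕ) (hK : 1 ≤ K) (t : ℝ) (ht : 0 < t) (ht1 : t < 1) : ∃ C δ : ℝ, 1 ≤ C ∧ 0 < δ ∧
    ∀ (κ : E3 → E3) (c : ℝ), ContDiff ℝ smo κ → 0 ≤ c → c ≤ δ →
      (∀ i ≤ K, ∀ x ∈ Metric.closedBall (0 : E3) 1,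
        ‖iteratedFDeriv ℝ i (fun y => κ y - y) x‖ ≤ c) →
      ∃ f : Equiv.Perm E3, IsDif f ∧ IdOff (Metric.closedBall 0 1) f ∧ NB K 1 (disp f) (C * c) ∧
        ∀ x ∈ Metric.closedBall (0 : E3) t, f x = κ x := by
  obtain ⟨χ, hχ, h1, h0⟩ := ne_cut t 1 ht ht1
  obtain ⟨C, hC, hb⟩ := ne_cut_bd K hχ h0
  have hC0 : 0 < C := by linarith
  refine ⟨C, 1 / (2 * C), hC, by positivity, ?_⟩
  intro κ c hκ hc hcδ h
  have hv : ContDiff ℝ smo fun y => κ y - y := hκ.sub contDiff_id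
  have hB := hb (fun y => κ y - y) c hv hc h
  have hCc : C * c ≤ 1 / 2 := by
    calc C * c ≤ C * (1 / (2 * C)) := mul_le_mul_of_nonneg_left hcδ hC0.le
      _ = 1 / 2 := by field_simp
  have hs : ContDiff ℝ smo fun x => χ x • (κ x - x) := hχ.smul hv
  have hD : ∀ x, ‖fderiv ℝ (fun x => χ x • (κ x - x)) x‖ ≤ 1 / 2 := fun x =>
    (ne_fderiv_le hK hB x).trans hCc
  have hap : ∀ x, toP (fun x => x + χ x • (κ x - x)) x = x + χ x • (κ x - x) :=
    toP_apply (near_bij hs hD)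
  refine ⟨toP fun x => x + χ x • (κ x - x), near_dif hs hD, fun x hx => ?_, ?_, fun x hx => ?_⟩
  · rw [hap, h0 x hx, zero_smul, add_zero]
  · refine hB.congr fun x => ?_
    rw [disp, hap, add_sub_cancel_left]
  · rw [hap, h1 x hx, one_smul]
    abel

/-- a function which is cut off: the derivatives in the interior of the ball -/
theorem ne_pd_cut {χ S : E3 → ℝ} {r : ℝ} (h1 : ∀ x ∈ Metric.closedBall (0 : E3) r, χ x = 1)
    {q : E3} (hq : ‖q‖ < r) (i : Fin 3) : pd i (fun x => χ x • S x) q = pd i S q := by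
  have h2 : (fun x => χ x • S x) =ᶠ[𝓝 q] S := by
    have h3 : Metric.ball (0 : E3) r ∈ 𝓝 q :=
      Metric.isOpen_ball.mem_nhds (by rwa [mem_ball_zero_iff])
    filter_upwards [h3] with x hx
    rw [h1 x (Metric.ball_subset_closedBall hx), one_smul]
  unfold pd
  rw [h2.fderiv_eq]

/-- `G_S` for a function `S` which is cut off -/
theorem ne_gp_ok {S : E3 → ℝ} (hS : Sm S)
    (h0 : ∀ x, x ∉ Metric.closedBall (0 : E3) 1 → S x = 0) :
    Ok (Metric.closedBall 0 1) (Gp S) := by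
  have h1 := (Gp_okZ hS (lo := fun _ => -1) (hi := fun _ => 1)
    (fun x hx => h0 x (by rwa [ne_ball_Icc]))).toOk
  rwa [← ne_ball_Icc] at h1

/-- the map `g_2` with the same third coordinate -/
theorem neB (K : ℕ) (hK : 1 ≤ K) (r r' : ℝ) (hr' : 0 < r') (hr : r' < r) (hr1 : r < 1) :
    ∃ C δ : ℝ, 1 ≤ C ∧ 0 < δ ∧
    ∀ (f : Equiv.Perm E3) (c : ℝ), IsDif f → IdOff (Metric.closedBall 0 1) f →
      NB (K + 1) 1 (disp f) c → c ≤ δ →
      ∃ g : Equiv.Perm E3, Ok (Metric.closedBall 0 1) g ∧ NB K 1 (disp g) (C * c) ∧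
        NB K 1 (disp g⁻¹) (C * c) ∧ ∀ x ∈ Metric.closedBall (0 : E3) r', g x 2 = f x 2 := by
  obtain ⟨χ, hχ, h1, h0⟩ := ne_cut r 1 (by linarith) hr1
  obtain ⟨C₁, hC₁, hb⟩ := ne_cut_bd (K + 1) hχ h0
  have hN0 : 1 ≤ cN K := one_le_cN K
  have hN1 : 1 ≤ cN (K + 1) := one_le_cN (K + 1)
  have hC₁0 : 0 < C₁ := by linarith
  set M : ℝ := C₁ * (8 * cN (K + 1)) with hM
  have hM1 : 8 * cN (K + 1) ≤ M := le_mul_of_one_le_left (by linarith) hC₁
  have hM0 : 0 < M := by linarith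
  set C : ℝ := 3 * cN K * M with hC
  have hMC : M ≤ C := le_mul_of_one_le_left hM0.le (by linarith)
  have hC1 : 1 ≤ C := by linarith
  have hC0 : 0 < C := by linarith
  have hmin : 0 < min 1 (r - r') := lt_min one_pos (by linarith)
  refine ⟨C, min 1 (r - r') / (4 * C), hC1, by positivity, ?_⟩
  intro f c hf hoff hB hcδ
  have hc : 0 ≤ c := hB.nonneg zero_le_one
  have hCc : C * c ≤ min 1 (r - r') / 4 := by
    calc C * c ≤ C * (min 1 (r - r') / (4 * C)) := mul_le_mul_of_nonneg_left hcδ hC0.le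
      _ = min 1 (r - r') / 4 := by field_simp
  have hCc1 : C * c ≤ 1 / 4 := hCc.trans (by linarith [min_le_left 1 (r - r')])
  have hCc2 : C * c ≤ (r - r') / 4 := hCc.trans (by linarith [min_le_right 1 (r - r')])
  have hMc : M * c ≤ C * c := mul_le_mul_of_nonneg_right hMC hc
  have hNc : 8 * cN (K + 1) * c ≤ M * c := mul_le_mul_of_nonneg_right hM1 hc
  have hcc : c ≤ cN (K + 1) * c := le_mul_of_one_le_left hc hN1
  have hNc0 : 0 ≤ cN (K + 1) * c := by positivity
  -- the shear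
  have hu : ContDiff ℝ smo fun x => disp f x 2 := contDiff_pi.1 hf.contDiff_disp 2
  have hub : NB (K + 1) 1 (fun x => disp f x 2) c := ne_comp 2 hf.contDiff_disp hB
  set u : E3 → ℝ := fun x => disp f x 2 with hudef
  have hK1 : 1 ≤ K + 1 := by omega
  have hc2 : c ≤ 1 / 2 := by linarith
  set a := shr u 2 with ha
  have ad : IsDif a := shr_dif hK1 2 hu hub hc2
  have ab : NB (K + 1) 1 (disp a) c := shr_disp hK1 2 hu hub hc2
  have aa : ∀ x, a x = x + u x • ev 2 := shr_apply hK1 2 hu hub hc2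
  have ai : NB (K + 1) 1 (disp a⁻¹) (2 * cN (K + 1) * c) := ne_inv hK1 ad ab (by linarith)
  have hw : ContDiff ℝ smo fun q => disp a⁻¹ q 2 := contDiff_pi.1 ad.inv.contDiff_disp 2
  have hwb : NB (K + 1) 1 (fun q => disp a⁻¹ q 2) (2 * cN (K + 1) * c) :=
    ne_comp 2 ad.inv.contDiff_disp ai
  set w : E3 → ℝ := fun q => disp a⁻¹ q 2 with hwdef
  have hw0 : ∀ x, x ∉ Metric.closedBall (0 : E3) 1 → w x = 0 := by
    intro x hx
    have h2 : a x = x := by
      rw [aa, hudef]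
      simp only [disp, hoff x hx, sub_self, Pi.zero_apply, zero_smul, add_zero]
    have h3 : a⁻¹ x = x := by rw [Equiv.Perm.inv_eq_iff_eq, h2]
    simp only [hwdef, disp, h3, sub_self, Pi.zero_apply]
  -- the primitive
  have hU : ContDiff ℝ smo (prm 1 w) := ne_prm_smooth 1 hw
  have hUb : ∀ j ≤ K + 1, ∀ x, ‖iteratedFDeriv ℝ j (prm 1 w) x‖ ≤ 8 * cN (K + 1) * c := by
    intro j hj x
    refine (ne_prm_bd 1 (K + 1) hw (fun j hj x => hwb.le_of_one hj x) j hj x).trans ?_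
    linarith
  have hV : ContDiff ℝ smo fun x => χ x • prm 1 w x := hχ.smul hU
  have hVb : NB (K + 1) 1 (fun x => χ x • prm 1 w x) (M * c) := by
    refine (hb (prm 1 w) (8 * cN (K + 1) * c) hU (by linarith)
      (fun i hi x _ => hUb i hi x)).mono ?_
    rw [hM]
    linarith
  set V : E3 → ℝ := fun x => χ x • prm 1 w x with hVdef
  have hV0 : ∀ x, x ∉ Metric.closedBall (0 : E3) 1 → V x = 0 := by
    intro x hx
    simp only [hVdef, h0 x hx, zero_smul]
  have hS : ContDiff ℝ smo fun x => V (cycM x) := hV.comp cycM.contDiff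
  have hSb : NB (K + 1) 1 (fun x => V (cycM x)) (M * c) := by
    refine (NB.comp_clm cycM norm_cycM le_rfl hV zero_le_one hVb).mono ?_
    rw [one_pow, one_mul]
  have hS0 : ∀ x, x ∉ Metric.closedBall (0 : E3) 1 → V (cycM x) = 0 := by
    intro x hx
    refine hV0 _ fun h2 => hx ?_
    rw [mem_closedBall_zero_iff] at h2 ⊢
    have h3 := norm_cycL_apply (cycM x)
    rw [cycL_cycM] at h3
    exact h3.trans h2
  have hSm := ne_sm hK hS hSb (by linarith)
  have e1 : 2 * cN K * (M * c) ≤ 1 := by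
    have e2 : 3 * cN K * (M * c) = C * c := by rw [hC]; ring
    have e3 : 0 ≤ cN K * (M * c) := by positivity
    linarith
  obtain ⟨g1, g2⟩ := ne_gp hK hS hSb (by linarith) e1
  have e3 : 3 * cN K * (M * c) = C * c := by rw [hC]; ring
  rw [e3] at g1 g2
  have gok := ne_gp_ok hSm hS0
  refine ⟨cyc⁻¹ * Gp (fun x => V (cycM x)) * cyc, cyc_ok gok, cyc_bd gok.dif g1, ?_, ?_⟩
  · have h2 : (cyc⁻¹ * Gp (fun x => V (cycM x)) * cyc)⁻¹ =
        cyc⁻¹ * (Gp (fun x => V (cycM x)))⁻¹ * cyc := by group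
    rw [h2]
    exact cyc_bd gok.dif.inv g2
  · intro x hx
    rw [mem_closedBall_zero_iff] at hx
    have hq : ‖a x‖ < r := by
      have h2 : ‖a x‖ ≤ ‖x‖ + ‖disp a x‖ := by
        have h3 : x + disp a x = a x := by rw [disp]; abel
        calc ‖a x‖ = ‖x + disp a x‖ := by rw [h3]
          _ ≤ ‖x‖ + ‖disp a x‖ := norm_add_le _ _
      have h3 := ne_norm_le ab x
      linarith
    have hq1 : (a x) 1 < 3 := by
      have h2 := norm_le_pi_norm (a x) 1
      rw [Real.norm_eq_abs] at h2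
      linarith [(abs_le.1 h2).2]
    have h2 : pd 1 V (a x) = w (a x) := by
      rw [hVdef, ne_pd_cut h1 hq, ne_pd_prm' 1 hw hw0 hq1]
    have h3 : alf (fun x => V (cycM x)) (cycL (a x)) = cycL x := by
      rw [alf, cyc_pd0 hV, h2]
      have h4 : a⁻¹ (a x) = x := a.symm_apply_apply x
      have h5 := shr_inv hK1 2 hu hub hc2 (a x)
      rw [← ha, h4] at h5
      conv_rhs => rw [h5]
      rw [map_add, map_smul]
      congr 2
      ext i
      fin_cases i <;> simp [cycL_apply, cyc, ev]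
    have h4 := Gp_alf hSm (cycL (a x))
    rw [h3] at h4
    have h5 : (cyc⁻¹ * Gp (fun x => V (cycM x)) * cyc) x =
        cycM (Gp (fun x => V (cycM x)) (cycL x)) := rfl
    rw [h5, h4, bef, map_add, cycM_cycL, map_smul]
    have h6 : (cycM (ev 0)) 2 = 0 := by
      simp [cycM_apply, cyc, ev]
    rw [Pi.add_apply, Pi.smul_apply, h6, smul_zero, add_zero, aa, Pi.add_apply, Pi.smul_apply]
    have h7 : (ev 2 : E3) 2 = 1 := by simp [ev]
    rw [h7, smul_eq_mul, mul_one, hudef]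
    simp only [disp, Pi.sub_apply]
    ring

end Pool.Agent.QM59
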