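import Pool.Agent.Lib.MP_decea1_gt_C.NE
import Pool.Agent.Lib.MP_decea1_gt_E.EDefs

/-!
# MP_decea1_gt, block C, C7.2: the interface `NEg` of block E
-/

set_option autoImplicit false

open MeasureTheory Set

namespace Pool.Agent.QM59

theorem neg : NEg := by
  intro k θ ε' hθ hθ1 hε'
  obtain ⟨ε, hε, h⟩ := NE k ε' θ hε' hθ hθ1
  refine ⟨ε, hε, fun κ hd hv hb => ?_⟩
  obtain ⟨κ', h1, h2, h3⟩ := h (fun x => κ x) hd.1 hv hb
  exact ⟨κ', h1, h3, h2⟩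

end Pool.Agent.QM59
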