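import Pool.Agent.Lib.MP_decea1_gt_C.GEst
import Pool.Agent.Lib.MP_decea1_gt_C.NNx
import Pool.Agent.Lib.MP_decea1_gt_A.J1

/-!
# MP_decea1_gt, block C, C2.5: a smooth and a rough generating function, no loss of derivatives

`a_0 = α_h`, `b_0 = β_h`, `a = α_{h+h'} = a_0 + (0,h'_x,0)`, `b = β_{h+h'} = b_0 + (h'_y,0,0)`.
`G_h⁻¹ G_{h+h'} = a_0 b_0⁻¹ b a⁻¹`. `b_0⁻¹ b = id + B1`,
`B1 = b_0⁻¹ (b_0 + (h'_y,0,0)) - b_0⁻¹ (b_0)`: with `V = (h'_y,0,0) ∘ b_0⁻¹` this is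
`(b_0⁻¹ ∘ (id + V) - b_0⁻¹) ∘ b_0 = (V + [disp b_0⁻¹ ∘ (id + V) - disp b_0⁻¹]) ∘ b_0`, `scE3` (the
derivatives of `disp b_0⁻¹` up to order `K + 1` are bounded, `scE4` with `η = 1`), so `|B1| ≤ C a`.
`a_0 a⁻¹ = id - (0,h'_x,0) ∘ a⁻¹`, and
`a_0 (id + B1) a⁻¹ = a_0 a⁻¹ + [B1 + (disp a_0 ∘ (id + B1) - disp a_0)] ∘ a⁻¹`.
-/

set_option autoImplicit false

open MeasureTheory Set

namespace Pool.Agent.QM59

private theorem rough_ev (i : Fin 3) : ‖ev i‖ = 1 := by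
  unfold ev
  rw [Pi.norm_single]
  exact norm_one

/-- `t ↦ t e_i` -/
private noncomputable def roughL (i : Fin 3) : ℝ →L[ℝ] E3 :=
  (ContinuousLinearMap.id ℝ ℝ).smulRight (ev i)

private theorem roughL_norm (i : Fin 3) : ‖roughL i‖ ≤ 1 := by
  unfold roughL
  rw [ContinuousLinearMap.norm_smulRight_apply, rough_ev, mul_one]
  exact ContinuousLinearMap.norm_id_le

private theorem rough_smul {K : ℕ} {N η a : ℝ} {u : E3 → ℝ} (i : Fin 3) (hu : ContDiff ℝ smo u)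
    (hN : 0 ≤ N) (hη : 0 ≤ η) (ha : 0 ≤ a) (h : Bd K N η a u) :
    Bd K N η a (fun x => u x • ev i) := by
  have h1 := Bd.clm hu (roughL i) h hη
  exact h1.mono_c hN (by
    calc ‖roughL i‖ * a ≤ 1 * a := by gcongr; exact roughL_norm i
      _ = a := one_mul a)

private theorem rough_pd_le {h : E3 → ℝ} (hh : ContDiff ℝ smo h) (i : Fin 3) (n : ℕ) (x : E3) :
    ‖iteratedFDeriv ℝ n (pd i h) x‖ ≤ ‖iteratedFDeriv ℝ (n + 1) h x‖ := by
  have e : pd i h = (ContinuousLinearMap.apply ℝ ℝ (ev i)) ∘ (fderiv ℝ h) := rfl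
  have hf : ContDiff ℝ smo (fderiv ℝ h) := hh.fderiv_right (by simp [smo])
  have hL : ‖ContinuousLinearMap.apply ℝ ℝ (ev i)‖ ≤ 1 := by
    refine ContinuousLinearMap.opNorm_le_bound _ zero_le_one fun φ => ?_
    rw [one_mul, ContinuousLinearMap.apply_apply]
    have := φ.le_opNorm (ev i)
    rwa [rough_ev, mul_one] at this
  have hle : ((n : ℕ∞) : WithTop ℕ∞) ≤ smo := by
    exact_mod_cast (le_top : (n : ℕ∞) ≤ ⊤)
  rw [e, ← norm_iteratedFDeriv_fderiv]
  refine (ContinuousLinearMap.norm_iteratedFDeriv_comp_left _ hf.contDiffAt hle).trans ?_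
  calc _ ≤ 1 * ‖iteratedFDeriv ℝ n (fderiv ℝ h) x‖ := by gcongr
    _ = _ := one_mul _

private theorem rough_fd {u : E3 → ℝ} (x : E3) : ‖fderiv ℝ u x‖ = ‖iteratedFDeriv ℝ 1 u x‖ := by
  rw [← norm_iteratedFDeriv_fderiv, norm_iteratedFDeriv_zero]

private theorem rough_pd_add {h h' : E3 → ℝ} (hh : ContDiff ℝ smo h) (hh' : ContDiff ℝ smo h')
    (i : Fin 3) : pd i (fun x => h x + h' x) = fun x => pd i h x + pd i h' x := by
  funext x
  unfold pd
  rw [fderiv_fun_add ((hh.differentiable (by simp)) x) ((hh'.differentiable (by simp)) x)]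
  rfl

/-- Conjugation with a smooth map near the identity. -/
private theorem rough_conj (K : ℕ) (hK : 2 ≤ K) : ∃ C : ℝ, 1 ≤ C ∧
    ∀ (p G : Equiv.Perm E3) (N η θ a : ℝ), IsDif p → IsDif G → 1 ≤ N → 0 < η → η ≤ 1 →
      0 ≤ θ → 0 ≤ a → N * θ ≤ 1 → N * a ≤ 1 → Bd (K + 1) N 1 θ (disp p) →
      Bd (K + 1) N 1 θ (disp p⁻¹) → Bd K N η a (disp G) →
      Bd K N η (C * a) (disp (p * G * p⁻¹)) := by
  obtain ⟨C1, hC1, h3⟩ := scE3.{0} K hK
  obtain ⟨C2, hC2, h2⟩ := scE2.{0} K hK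
  refine ⟨C2 * (1 + C1), one_le_mul_of_one_le_of_one_le hC2 (by linarith), ?_⟩
  intro p G N η θ a hp hG hN hη hη1 hθ ha hNθ hNa hdp hdp' hdG
  have hN0 : 0 < N := by linarith
  have sp : ContDiff ℝ smo (disp p) := hp.contDiff_disp
  have sp' : ContDiff ℝ smo (disp p⁻¹) := hp.inv.contDiff_disp
  have sG : ContDiff ℝ smo (disp G) := hG.contDiff_disp
  have e1 := h3 E3 (disp p) (disp G) N η θ a sp sG hN0 hη hη1 hθ ha hNa hdG
    (fun i hi x => hdp.level hi x)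
  have e2 : Bd K N η ((1 + C1) * a)
      (fun x => disp G x + (disp p (x + disp G x) - disp p x)) := by
    have s1 : ContDiff ℝ smo fun x => disp p (x + disp G x) - disp p x :=
      (sp.comp (contDiff_id.add sG)).sub sp
    refine (Bd.add sG s1 hdG e1 hη.le).mono_c hN0.le ?_
    have : C1 * θ * (N * a) = C1 * (N * θ) * a := by ring
    have h4 : C1 * (N * θ) * a ≤ C1 * 1 * a := by gcongr
    rw [this]
    linarith
  have s2 : ContDiff ℝ smo fun x => disp G x + (disp p (x + disp G x) - disp p x) :=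
    sG.add ((sp.comp (contDiff_id.add sG)).sub sp)
  have e3 := h2 E3 _ (disp p⁻¹) N η θ _ s2 sp' hN0 hη hη1 hNθ
    ((hdp'.mono_K (Nat.le_succ K) le_rfl).mono_eta hη1) e2
  have e4 : disp (p * G * p⁻¹) = fun y => disp G (y + disp p⁻¹ y) +
      (disp p (y + disp p⁻¹ y + disp G (y + disp p⁻¹ y)) - disp p (y + disp p⁻¹ y)) := by
    funext y
    have hx : y + disp p⁻¹ y = p⁻¹ y := by
      unfold disp
      abel
    rw [hx]
    have hpx : p (p⁻¹ y) = y := p.apply_symm_apply y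
    have hG' : p⁻¹ y + disp G (p⁻¹ y) = G (p⁻¹ y) := by
      unfold disp
      abel
    rw [hG']
    unfold disp
    rw [hpx]
    change p (G (p⁻¹ y)) - y = _
    abel
  rw [e4]
  have : C2 * (1 + C1) * a = C2 * ((1 + C1) * a) := by ring
  rw [this]
  exact e3

private theorem rough_small (x y : ℝ) (hy : 0 < y) :
    ∀ᶠ κ in nhdsWithin (0 : ℝ) (Ioi 0), x * κ ≤ y := by
  have h1 : Filter.Tendsto (fun κ : ℝ => x * κ) (nhdsWithin (0 : ℝ) (Ioi 0)) (nhds (x * 0)) :=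
    ((continuous_const.mul continuous_id).tendsto 0).mono_left nhdsWithin_le_nhds
  rw [mul_zero] at h1
  exact h1.eventually_le_const hy

theorem rough (K : ℕ) (hK : 2 ≤ K) : ∃ C κ : ℝ, 1 ≤ C ∧ 0 < κ ∧
    ∀ (h h' : E3 → ℝ) (N η θ a : ℝ), ContDiff ℝ smo h → ContDiff ℝ smo h' → 1 ≤ N → 0 < η →
      η ≤ 1 → 0 ≤ θ → 0 ≤ a → N ^ 2 * θ ≤ κ → N * a ≤ κ →
      (∀ i ≤ K + 3, ∀ x, ‖iteratedFDeriv ℝ i h x‖ ≤ θ * N ^ i) →
      Bd K N η a (pd 0 h') → Bd K N η a (pd 1 h') →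
      Sm h ∧ Sm (fun x => h x + h' x) ∧
        Bd K N η (C * a) (disp ((Gp h)⁻¹ * Gp fun x => h x + h' x)) := by
  obtain ⟨C3, κ3, hC3, hκ3, hA1⟩ := alf_bd (K + 1) (by omega)
  obtain ⟨C4, κ4, hC4, hκ4, hB1⟩ := bef_bd (K + 1) (by omega)
  obtain ⟨C5, κ5, hC5, hκ5, hA0⟩ := alf_bd K hK
  obtain ⟨C6, hC6, h2⟩ := scE2.{0} K hK
  obtain ⟨C8, hC8, h5⟩ := scE5 K hK
  obtain ⟨Cc, hCc, hcj⟩ := rough_conj K hK
  obtain ⟨κ, ⟨⟨⟨⟨⟨⟨⟨⟨⟨⟨hκ, k1⟩, k2⟩, k3⟩, k4⟩, k5⟩, k6⟩, k7⟩, k8⟩, k9⟩, k10⟩⟩ :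
      ∃ κ : ℝ, ((((((((((0 < κ ∧ 8 * κ ≤ 1) ∧ 1 * κ ≤ κ3) ∧ 1 * κ ≤ κ4) ∧ C4 * κ ≤ 1) ∧
        C3 * κ ≤ 1) ∧ C6 * κ ≤ 1) ∧ Cc * C6 * κ ≤ 1) ∧ 2 * κ ≤ κ5) ∧ C5 * 2 * κ ≤ 1) ∧
        1 * κ ≤ 1) := by
    have hpos : ∀ᶠ κ in nhdsWithin (0 : ℝ) (Ioi 0), 0 < κ := self_mem_nhdsWithin
    exact ((((((((((hpos.and (rough_small 8 1 one_pos)).and (rough_small 1 κ3 hκ3)).and
      (rough_small 1 κ4 hκ4)).and (rough_small C4 1 one_pos)).and
      (rough_small C3 1 one_pos)).and (rough_small C6 1 one_pos)).and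
      (rough_small (Cc * C6) 1 one_pos)).and (rough_small 2 κ5 hκ5)).and
      (rough_small (C5 * 2) 1 one_pos)).and (rough_small 1 1 one_pos)).exists
  refine ⟨C8 * (Cc * (Cc * C6) + C6), κ, ?_, hκ, ?_⟩
  · refine one_le_mul_of_one_le_of_one_le hC8 ?_
    have : 0 ≤ Cc * (Cc * C6) := by positivity
    linarith
  intro h h' N η θ a hh hh' hN hη hη1 hθ ha hNθ hNa hbd hb0 hb1
  have hN0 : 0 < N := by linarith
  have hθN : 0 ≤ θ * N := by positivity
  have hNθN : N * (θ * N) ≤ κ := by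
    calc N * (θ * N) = N ^ 2 * θ := by ring
      _ ≤ κ := hNθ
  have spd : ∀ i, ContDiff ℝ smo (pd i h) := fun i => contDiff_pd hh i
  have spd' : ∀ i, ContDiff ℝ smo (pd i h') := fun i => contDiff_pd hh' i
  have hpd : ∀ i, Bd (K + 1) N 1 (θ * N) (pd i h) := by
    intro i
    have hlev : ∀ n ≤ K + 1, ∀ x, ‖iteratedFDeriv ℝ n (pd i h) x‖ ≤ θ * N * N ^ n := by
      intro n hn x
      refine (rough_pd_le hh i n x).trans ((hbd (n + 1) (by omega) x).trans (le_of_eq ?_))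
      ring
    exact ⟨fun n hn x => hlev n hn.le x, fun x => by rw [one_mul]; exact hlev _ le_rfl x⟩
  have hfd : ∀ i x, ‖fderiv ℝ (pd i h) x‖ ≤ 1 / 8 := by
    intro i x
    rw [rough_fd]
    have := (hpd i).1 1 (by omega) x
    rw [pow_one] at this
    calc _ ≤ θ * N * N := this
      _ = N * (θ * N) := by ring
      _ ≤ 1 / 8 := by linarith
  have hfd' : ∀ i, Bd K N η a (pd i h') → ∀ x, ‖fderiv ℝ (pd i h') x‖ ≤ 1 / 8 := by
    intro i hi x
    rw [rough_fd]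
    have := hi.1 1 (by omega) x
    rw [pow_one] at this
    calc _ ≤ a * N := this
      _ = N * a := by ring
      _ ≤ 1 / 8 := by linarith
  have hsum : ∀ i, Bd K N η a (pd i h') → ∀ x,
      ‖fderiv ℝ (pd i fun x => h x + h' x) x‖ ≤ 1 / 4 := by
    intro i hi x
    rw [rough_pd_add hh hh', fderiv_fun_add ((spd i).differentiable (by simp) x)
      ((spd' i).differentiable (by simp) x)]
    refine (norm_add_le _ _).trans ?_
    have h1 := hfd i x
    have h2 := hfd' i hi x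
    linarith
  have hSm : Sm h := ⟨hh, fun x => (hfd 0 x).trans (by norm_num),
    fun x => (hfd 1 x).trans (by norm_num)⟩
  have hSm' : Sm (fun x => h x + h' x) := ⟨hh.add hh', hsum 0 hb0, hsum 1 hb1⟩
  refine ⟨hSm, hSm', ?_⟩
  -- the four maps
  have da := alf_dif hSm
  have db := bef_dif hSm
  have dA := alf_dif hSm'
  have dB := bef_dif hSm'
  obtain ⟨ba, ba'⟩ := hA1 h N 1 (θ * N) hSm hN one_pos le_rfl hθN (by linarith) (hpd 0)
  obtain ⟨bb, bb'⟩ := hB1 h N 1 (θ * N) hSm hN one_pos le_rfl hθN (by linarith) (hpd 1)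
  obtain ⟨-, bA'⟩ := hA0 (fun x => h x + h' x) N η (θ * N + a) hSm' hN hη hη1 (by positivity)
    (by rw [mul_add]; linarith) (by
      rw [rough_pd_add hh hh']
      exact Bd.add (spd 0) (spd' 0)
        (((hpd 0).mono_K (Nat.le_succ K) le_rfl).mono_eta hη1) hb0 hη.le)
  -- `B b_0⁻¹`
  have g1 : Bd K N η (C6 * a) (disp (toP (bef fun x => h x + h' x) * (toP (bef h))⁻¹)) := by
    have e : disp (toP (bef fun x => h x + h' x) * (toP (bef h))⁻¹) = fun y =>
        (fun z => pd 1 h' z • ev 0) (y + disp (toP (bef h))⁻¹ y) := by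
      funext y
      have hx : y + disp (toP (bef h))⁻¹ y = (toP (bef h))⁻¹ y := by
        unfold disp
        abel
      rw [hx]
      have hy : bef h ((toP (bef h))⁻¹ y) = y := by
        rw [← toP_apply (bef_bij hSm)]
        exact (toP (bef h)).apply_symm_apply y
      change toP (bef fun x => h x + h' x) ((toP (bef h))⁻¹ y) - y = _
      rw [toP_apply (bef_bij hSm')]
      conv_lhs => rw [← hy]
      have hy2 : (toP (bef h))⁻¹ (bef h ((toP (bef h))⁻¹ y)) = (toP (bef h))⁻¹ y := by rw [hy]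
      rw [hy2]
      unfold bef
      rw [rough_pd_add hh hh']
      simp only [add_smul]
      abel
    rw [e]
    refine h2 E3 (fun z => pd 1 h' z • ev 0) (disp (toP (bef h))⁻¹) N η (C4 * (θ * N)) a
      ((spd' 1).smul contDiff_const) db.inv.contDiff_disp hN0 hη hη1 ?_
      ((bb'.mono_K (Nat.le_succ K) le_rfl).mono_eta hη1)
      (rough_smul 0 (spd' 1) hN0.le hη.le ha hb1)
    calc N * (C4 * (θ * N)) = C4 * (N * (θ * N)) := by ring
      _ ≤ C4 * κ := by gcongr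
      _ ≤ 1 := k4
  -- conjugation with `b_0⁻¹`
  have hC6a : N * (C6 * a) ≤ 1 := by
    calc N * (C6 * a) = C6 * (N * a) := by ring
      _ ≤ C6 * κ := by gcongr
      _ ≤ 1 := k6
  have g2 := hcj (toP (bef h))⁻¹ (toP (bef fun x => h x + h' x) * (toP (bef h))⁻¹) N η
    (C4 * (θ * N)) (C6 * a) db.inv (dB.mul db.inv) hN hη hη1 (by positivity) (by positivity)
    (by
      calc N * (C4 * (θ * N)) = C4 * (N * (θ * N)) := by ring
        _ ≤ C4 * κ := by gcongr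
        _ ≤ 1 := k4) hC6a bb' (by
      rw [inv_inv]
      exact bb.mono_c hN0.le (le_mul_of_one_le_left hθN hC4)) g1
  rw [inv_inv] at g2
  -- conjugation with `a_0`
  have hCC : N * (Cc * (C6 * a)) ≤ 1 := by
    calc N * (Cc * (C6 * a)) = Cc * C6 * (N * a) := by ring
      _ ≤ Cc * C6 * κ := by gcongr
      _ ≤ 1 := k7
  have g3 := hcj (toP (alf h)) ((toP (bef h))⁻¹ *
    (toP (bef fun x => h x + h' x) * (toP (bef h))⁻¹) * toP (bef h)) N η
    (C3 * (θ * N)) (Cc * (C6 * a)) da ((db.inv.mul (dB.mul db.inv)).mul db) hN hη hη1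
    (by positivity) (by positivity)
    (by
      calc N * (C3 * (θ * N)) = C3 * (N * (θ * N)) := by ring
        _ ≤ C3 * κ := by gcongr
        _ ≤ 1 := k5) hCC (ba.mono_c hN0.le (le_mul_of_one_le_left hθN hC3)) ba' g2
  -- `a_0 A⁻¹`
  have g4 : Bd K N η (C6 * a) (disp (toP (alf h) * (toP (alf fun x => h x + h' x))⁻¹)) := by
    have e : disp (toP (alf h) * (toP (alf fun x => h x + h' x))⁻¹) = fun y =>
        -((fun z => pd 0 h' z • ev 1) (y + disp (toP (alf fun x => h x + h' x))⁻¹ y)) := by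
      funext y
      have hx : y + disp (toP (alf fun x => h x + h' x))⁻¹ y =
          (toP (alf fun x => h x + h' x))⁻¹ y := by
        unfold disp
        abel
      rw [hx]
      have hy : alf (fun x => h x + h' x) ((toP (alf fun x => h x + h' x))⁻¹ y) = y := by
        rw [← toP_apply (alf_bij hSm')]
        exact (toP (alf fun x => h x + h' x)).apply_symm_apply y
      change toP (alf h) ((toP (alf fun x => h x + h' x))⁻¹ y) - y = _
      rw [toP_apply (alf_bij hSm)]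
      conv_lhs => rw [← hy]
      have hy2 : (toP (alf fun x => h x + h' x))⁻¹
          (alf (fun x => h x + h' x) ((toP (alf fun x => h x + h' x))⁻¹ y)) =
          (toP (alf fun x => h x + h' x))⁻¹ y := by rw [hy]
      rw [hy2]
      unfold alf
      rw [rough_pd_add hh hh']
      simp only [add_smul]
      abel
    rw [e]
    refine Bd.neg (h2 E3 (fun z => pd 0 h' z • ev 1) (disp (toP (alf fun x => h x + h' x))⁻¹) N η
      (C5 * (θ * N + a)) a ((spd' 0).smul contDiff_const) dA.inv.contDiff_disp hN0 hη hη1 ?_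
      bA' (rough_smul 1 (spd' 0) hN0.le hη.le ha hb0))
    calc N * (C5 * (θ * N + a)) = C5 * (N * (θ * N) + N * a) := by ring
      _ ≤ C5 * (κ + κ) := by gcongr
      _ = C5 * 2 * κ := by ring
      _ ≤ 1 := k9
  have g5 := h5 _ _ N η (Cc * (Cc * (C6 * a))) (C6 * a)
    ((da.mul ((db.inv.mul (dB.mul db.inv)).mul db)).mul da.inv) (da.mul dA.inv) hN0 hη hη1
    (by positivity) (by positivity) hC6a g3 g4
  have e : (Gp h)⁻¹ * Gp (fun x => h x + h' x) =
      toP (alf h) * ((toP (bef h))⁻¹ *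
        (toP (bef fun x => h x + h' x) * (toP (bef h))⁻¹) * toP (bef h)) * (toP (alf h))⁻¹ *
        (toP (alf h) * (toP (alf fun x => h x + h' x))⁻¹) := by
    unfold Gp
    group
  rw [e]
  have e2 : C8 * (Cc * (Cc * C6) + C6) * a = C8 * (Cc * (Cc * (C6 * a)) + C6 * a) := by ring
  rw [e2]
  exact g5

end Pool.Agent.QM59
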