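import Pool.Agent.Lib.MP_decea1_gt_C.CDefs
import Pool.Agent.Lib.MP_decea1_gt_C.Gen
import Pool.Agent.Lib.MP_decea1_gt_A.Bump

/-!
# MP_decea1_gt, block C, C4: smoothing

Fix a smooth `ρ ≥ 0` on `E3`, `∫ ρ = 1`, `ρ = 0` off `closedBall 0 1`, and put
`Av w x = ∫ ρ y * w (x - M⁻¹ • y) dy`, `Q = 1 - Av`, `h = S - Q^r S = ∑_{j<r} Av Q^j S`. (For smooth
`w`, everything is smooth; supports grow by `M⁻¹` at each step.)
(s1) `D^i (Av w)`: after the substitution `y = M (x - z)` all derivatives fall on `ρ`: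
`|D^i (Av w)| ≤ M^i (∫ ‖D^i ρ‖) sup |w|`, and `|Q^j S| ≤ 2^j sup |S|`, `∑_{j<r} 2^j ≤ 2^r`.
(s2) `D^i` commutes with `Q`; `|Q w| ≤ 2 sup |w|`, `|Q w| ≤ M⁻¹ sup |Dw|` (mean value inequality),
for `w` with values in a normed space; `Q^r D^i S = Q^{r-(k-i)} (Q^{k-i} D^i S)`.
(s3) the same for `pd l S`, because `pd l (Q^r S) = Q^r (pd l S)`.
-/

set_option autoImplicit false

open MeasureTheory Set
open scoped Convolution

namespace Pool.Agent.QM59

private theorem smo_nle (i : ℕ) : ((i : ℕ) : WithTop ℕ∞) ≤ smo := by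
  change ((i : ℕ∞) : WithTop ℕ∞) ≤ ((⊤ : ℕ∞) : WithTop ℕ∞)
  exact WithTop.coe_le_coe.2 le_top

/-- kernels of the averaging operators -/
structure smo_Ker (R : ℝ) (φ : E3 → ℝ) : Prop where
  smooth : ContDiff ℝ smo φ
  nonneg : ∀ x, 0 ≤ φ x
  int : ∫ x, φ x = 1
  supp : Function.support φ ⊆ Metric.ball 0 R

private theorem smo_ker_cpt {R : ℝ} {φ : E3 → ℝ} (h : smo_Ker R φ) : HasCompactSupport φ :=
  HasCompactSupport.of_support_subset_isCompact (isCompact_closedBall (0 : E3) R)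
    (h.supp.trans Metric.ball_subset_closedBall)

private theorem smo_li {F : Type} [NormedAddCommGroup F] {w : E3 → F} (h : Continuous w) :
    LocallyIntegrable w (volume : Measure E3) := h.locallyIntegrable

/-- `1 - Av` -/
noncomputable def smo_Q (φ : E3 → ℝ) {F : Type} [NormedAddCommGroup F] [NormedSpace ℝ F]
    (w : E3 → F) : E3 → F :=
  fun x => w x - (φ ⋆[ContinuousLinearMap.lsmul ℝ ℝ, volume] w) x

section

variable {F : Type} [NormedAddCommGroup F] [NormedSpace ℝ F]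

private theorem smo_av_smooth {R : ℝ} {φ : E3 → ℝ} (h : smo_Ker R φ) {w : E3 → F}
    (hw : Continuous w) :
    ContDiff ℝ smo (φ ⋆[ContinuousLinearMap.lsmul ℝ ℝ, volume] w) :=
  (smo_ker_cpt h).contDiff_convolution_left _ h.smooth (smo_li hw)

private theorem smo_Q_smooth {R : ℝ} {φ : E3 → ℝ} (h : smo_Ker R φ) {w : E3 → F}
    (hw : ContDiff ℝ smo w) : ContDiff ℝ smo (smo_Q φ w) :=
  hw.sub (smo_av_smooth h hw.continuous)

private theorem smo_Q_cpt {R : ℝ} {φ : E3 → ℝ} (h : smo_Ker R φ) {w : E3 → F}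
    (hc : HasCompactSupport w) : HasCompactSupport (smo_Q φ w) := by
  have h1 : HasCompactSupport (φ ⋆[ContinuousLinearMap.lsmul ℝ ℝ, volume] w) :=
    (smo_ker_cpt h).convolution _ hc
  exact hc.sub h1

private theorem smo_fderiv_av {R : ℝ} {φ : E3 → ℝ} (h : smo_Ker R φ) {w : E3 → F}
    (hw : ContDiff ℝ smo w) (hc : HasCompactSupport w) :
    fderiv ℝ (φ ⋆[ContinuousLinearMap.lsmul ℝ ℝ, volume] w)
      = (φ ⋆[ContinuousLinearMap.lsmul ℝ ℝ, volume] (fderiv ℝ w)) := by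
  funext x
  have h1 := hc.hasFDerivAt_convolution_right (ContinuousLinearMap.lsmul ℝ ℝ : ℝ →L[ℝ] F →L[ℝ] F)
    (smo_li h.smooth.continuous) (hw.of_le (by simp)) x
  rw [h1.fderiv]
  rfl

private theorem smo_fderiv_Q {R : ℝ} {φ : E3 → ℝ} (h : smo_Ker R φ) {w : E3 → F}
    (hw : ContDiff ℝ smo w) (hc : HasCompactSupport w) :
    fderiv ℝ (smo_Q φ w) = smo_Q φ (fderiv ℝ w) := by
  funext x
  have h1 : fderiv ℝ (smo_Q φ w) x = fderiv ℝ w x
      - fderiv ℝ (φ ⋆[ContinuousLinearMap.lsmul ℝ ℝ, volume] w) x :=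
    fderiv_fun_sub (hw.differentiable (by simp) x)
      ((smo_av_smooth h hw.continuous).differentiable (by simp) x)
  rw [h1, smo_fderiv_av h hw hc]
  rfl

private theorem smo_q1a [CompleteSpace F] {R : ℝ} {φ : E3 → ℝ} (h : smo_Ker R φ) {w : E3 → F}
    (hw : Continuous w) {a : ℝ} (ha : ∀ x, ‖w x‖ ≤ a) (x : E3) : ‖smo_Q φ w x‖ ≤ 2 * a := by
  have h0 : 0 ≤ a := (norm_nonneg _).trans (ha x)
  have h1 := dist_convolution_le (μ := volume) (f := φ) (g := w) (x₀ := x) (z₀ := w x)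
    (ε := 2 * a) (by positivity) h.supp h.nonneg h.int hw.aestronglyMeasurable
    (fun y _ => by
      rw [dist_eq_norm]
      linarith [norm_sub_le (w y) (w x), ha y, ha x])
  rw [dist_comm, dist_eq_norm] at h1
  exact h1

private theorem smo_q2a [CompleteSpace F] {R : ℝ} {φ : E3 → ℝ} (h : smo_Ker R φ) (hR : 0 ≤ R)
    {w : E3 → F} (hw : ContDiff ℝ smo w) {a : ℝ} (ha : ∀ x, ‖fderiv ℝ w x‖ ≤ a) (x : E3) :
    ‖smo_Q φ w x‖ ≤ R * a := by
  have h0 : 0 ≤ a := (norm_nonneg _).trans (ha x)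
  have h1 := dist_convolution_le (μ := volume) (f := φ) (g := w) (x₀ := x) (z₀ := w x)
    (ε := R * a) (by positivity) h.supp h.nonneg h.int hw.continuous.aestronglyMeasurable
    (fun y hy => by
      have h2 : ‖w y - w x‖ ≤ a * ‖y - x‖ :=
        Convex.norm_image_sub_le_of_norm_fderiv_le (s := univ) (𝕜 := ℝ)
          (fun z _ => hw.differentiable (by simp) z) (fun z _ => ha z) convex_univ
          (mem_univ _) (mem_univ _)
      rw [dist_eq_norm]
      rw [Metric.mem_ball, dist_eq_norm] at hy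
      calc ‖w y - w x‖ ≤ a * ‖y - x‖ := h2
        _ ≤ a * R := mul_le_mul_of_nonneg_left hy.le h0
        _ = R * a := mul_comm _ _)
  rw [dist_comm, dist_eq_norm] at h1
  exact h1

end

private theorem smo_q1 {R : ℝ} {φ : E3 → ℝ} (h : smo_Ker R φ) (i : ℕ) :
    ∀ {F : Type} [NormedAddCommGroup F] [NormedSpace ℝ F] [CompleteSpace F] {w : E3 → F}
      (_ : ContDiff ℝ smo w) (_ : HasCompactSupport w) {a : ℝ}
      (_ : ∀ x, ‖iteratedFDeriv ℝ i w x‖ ≤ a) (x : E3),
      ‖iteratedFDeriv ℝ i (smo_Q φ w) x‖ ≤ 2 * a := by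
  induction i with
  | zero =>
    intro F _ _ _ w hw hc a ha x
    rw [norm_iteratedFDeriv_zero]
    exact smo_q1a h hw.continuous
      (fun y => by rw [← norm_iteratedFDeriv_zero (𝕜 := ℝ)]; exact ha y) x
  | succ i ih =>
    intro F _ _ _ w hw hc a ha x
    rw [← norm_iteratedFDeriv_fderiv, smo_fderiv_Q h hw hc]
    refine ih (hw.fderiv_right le_rfl) (hc.fderiv ℝ) (fun y => ?_) x
    rw [norm_iteratedFDeriv_fderiv]
    exact ha y

private theorem smo_q2 {R : ℝ} {φ : E3 → ℝ} (h : smo_Ker R φ) (hR : 0 ≤ R) (i : ℕ) :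
    ∀ {F : Type} [NormedAddCommGroup F] [NormedSpace ℝ F] [CompleteSpace F] {w : E3 → F}
      (_ : ContDiff ℝ smo w) (_ : HasCompactSupport w) {a : ℝ}
      (_ : ∀ x, ‖iteratedFDeriv ℝ (i + 1) w x‖ ≤ a) (x : E3),
      ‖iteratedFDeriv ℝ i (smo_Q φ w) x‖ ≤ R * a := by
  induction i with
  | zero =>
    intro F _ _ _ w hw hc a ha x
    rw [norm_iteratedFDeriv_zero]
    exact smo_q2a h hR hw (fun y => by rw [← norm_iteratedFDeriv_one (𝕜 := ℝ)]; exact ha y) x
  | succ i ih =>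
    intro F _ _ _ w hw hc a ha x
    rw [← norm_iteratedFDeriv_fderiv, smo_fderiv_Q h hw hc]
    refine ih (hw.fderiv_right le_rfl) (hc.fderiv ℝ) (fun y => ?_) x
    rw [norm_iteratedFDeriv_fderiv]
    exact ha y

/-- the iterates -/
private noncomputable def smo_it (φ : E3 → ℝ) (S : E3 → ℝ) : ℕ → E3 → ℝ
  | 0 => S
  | r + 1 => smo_Q φ (smo_it φ S r)

private theorem smo_it_smooth {R : ℝ} {φ : E3 → ℝ} (h : smo_Ker R φ) {S : E3 → ℝ}
    (hS : ContDiff ℝ smo S) (hc : HasCompactSupport S) (r : ℕ) :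
    ContDiff ℝ smo (smo_it φ S r) ∧ HasCompactSupport (smo_it φ S r) := by
  induction r with
  | zero => exact ⟨hS, hc⟩
  | succ r ih => exact ⟨smo_Q_smooth h ih.1, smo_Q_cpt h ih.2⟩

private theorem smo_s2 {R : ℝ} {φ : E3 → ℝ} (h : smo_Ker R φ) (hR : 0 ≤ R) {S : E3 → ℝ}
    (hS : ContDiff ℝ smo S) (hc : HasCompactSupport S) (r : ℕ) :
    ∀ (i k : ℕ) (a : ℝ), i ≤ k → k ≤ i + r → (∀ x, ‖iteratedFDeriv ℝ k S x‖ ≤ a) →
      ∀ x, ‖iteratedFDeriv ℝ i (smo_it φ S r) x‖ ≤ 2 ^ r * R ^ (k - i) * a := by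
  induction r with
  | zero =>
    intro i k a h1 h2 ha x
    have : k = i := by omega
    subst this
    simpa [smo_it] using ha x
  | succ r ih =>
    intro i k a h1 h2 ha x
    obtain ⟨s1, s2⟩ := smo_it_smooth h hS hc r
    rcases Nat.eq_or_lt_of_le h1 with h3 | h3
    · subst h3
      have h4 := ih i i a le_rfl (by omega) ha
      have h5 := smo_q1 h i s1 s2 h4 x
      refine h5.trans (le_of_eq ?_)
      ring
    · have h4 := ih (i + 1) k a h3 (by omega) ha
      have h5 := smo_q2 h hR i s1 s2 h4 x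
      refine h5.trans ?_
      have h6 : k - i = (k - (i + 1)) + 1 := by omega
      have h7 : (0 : ℝ) ≤ a := (norm_nonneg _).trans (ha x)
      have h8 : (0 : ℝ) ≤ R ^ (k - (i + 1)) := by positivity
      have h9 : (0 : ℝ) ≤ 2 ^ r * (R ^ (k - (i + 1)) * R) * a := by positivity
      rw [h6, pow_succ R, pow_succ (2 : ℝ)]
      nlinarith [h9]

private theorem smo_conv (i : ℕ) :
    ∀ {F G : Type} [NormedAddCommGroup F] [NormedSpace ℝ F] [NormedAddCommGroup G]
      [NormedSpace ℝ G] (L : F →L[ℝ] ℝ →L[ℝ] G) {f : E3 → F} {w : E3 → ℝ}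
      (_ : ContDiff ℝ smo f) (_ : HasCompactSupport f) (_ : Continuous w) {a : ℝ}
      (_ : ∀ x, |w x| ≤ a) (x : E3),
      ‖iteratedFDeriv ℝ i (f ⋆[L, volume] w) x‖
        ≤ ‖L‖ * (∫ y, ‖iteratedFDeriv ℝ i f y‖) * a := by
  induction i with
  | zero =>
    intro F G _ _ _ _ L f w hf hc hw a ha x
    have h0 : 0 ≤ a := (abs_nonneg _).trans (ha x)
    have hi : Integrable (fun y => ‖f y‖) (volume : Measure E3) :=
      (hf.continuous.integrable_of_hasCompactSupport hc).norm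
    rw [norm_iteratedFDeriv_zero, convolution_def]
    refine (norm_integral_le_of_norm_le ((hi.const_mul (‖L‖)).mul_const a)
      (Filter.Eventually.of_forall fun t => ?_)).trans (le_of_eq ?_)
    · calc ‖L (f t) (w (x - t))‖ ≤ ‖L‖ * ‖f t‖ * ‖w (x - t)‖ := L.le_opNorm₂ _ _
        _ ≤ ‖L‖ * ‖f t‖ * a := by
          refine mul_le_mul_of_nonneg_left ?_ (by positivity)
          rw [Real.norm_eq_abs]
          exact ha _
    · rw [integral_mul_const, integral_const_mul]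
      simp only [norm_iteratedFDeriv_zero]
  | succ i ih =>
    intro F G _ _ _ _ L f w hf hc hw a ha x
    have h0 : 0 ≤ a := (abs_nonneg _).trans (ha x)
    have h1 : fderiv ℝ (f ⋆[L, volume] w) = (fderiv ℝ f ⋆[L.precompL E3, volume] w) := by
      funext y
      exact (hc.hasFDerivAt_convolution_left L (hf.of_le (by simp)) (smo_li hw) y).fderiv
    rw [← norm_iteratedFDeriv_fderiv, h1]
    refine (ih (L.precompL E3) (hf.fderiv_right le_rfl) (hc.fderiv ℝ) hw ha x).trans ?_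
    simp only [norm_iteratedFDeriv_fderiv]
    refine mul_le_mul_of_nonneg_right ?_ h0
    refine mul_le_mul_of_nonneg_right ?_ (integral_nonneg fun _ => norm_nonneg _)
    exact L.norm_precompL_le E3

private theorem smo_s1 {R : ℝ} {φ : E3 → ℝ} (h : smo_Ker R φ) {S : E3 → ℝ}
    (hS : ContDiff ℝ smo S) (hc : HasCompactSupport S) (i : ℕ) {B : ℝ}
    (hB : ∫ y, ‖iteratedFDeriv ℝ i φ y‖ ≤ B) {a : ℝ} (ha : ∀ x, |S x| ≤ a) (r : ℕ) (x : E3) :
    ‖iteratedFDeriv ℝ i (fun y => S y - smo_it φ S r y) x‖ ≤ B * (2 ^ r - 1) * a := by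
  have h0 : 0 ≤ a := (abs_nonneg _).trans (ha x)
  have hB0 : 0 ≤ B := (integral_nonneg fun _ => norm_nonneg _).trans hB
  induction r with
  | zero =>
    have h1 : (fun y => S y - smo_it φ S 0 y) = fun _ => (0 : ℝ) := by
      funext y
      simp [smo_it]
    rw [h1]
    simp
  | succ r ih =>
    obtain ⟨s1, s2⟩ := smo_it_smooth h hS hc r
    have h2 : (fun y => S y - smo_it φ S (r + 1) y) = (fun y => (S y - smo_it φ S r y)
        + (φ ⋆[ContinuousLinearMap.lsmul ℝ ℝ, volume] (smo_it φ S r)) y) := by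
      funext y
      simp only [smo_it, smo_Q]
      ring
    rw [h2]
    have h3 : iteratedFDeriv ℝ i (fun y => (S y - smo_it φ S r y)
        + (φ ⋆[ContinuousLinearMap.lsmul ℝ ℝ, volume] (smo_it φ S r)) y) x
        = iteratedFDeriv ℝ i (fun y => S y - smo_it φ S r y) x
          + iteratedFDeriv ℝ i (φ ⋆[ContinuousLinearMap.lsmul ℝ ℝ, volume] (smo_it φ S r)) x :=
      iteratedFDeriv_add_apply
        (((hS.sub s1).of_le (smo_nle i)).contDiffAt)
        (((smo_av_smooth h s1.continuous).of_le (smo_nle i)).contDiffAt)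
    have h4 : ∀ y, |smo_it φ S r y| ≤ 2 ^ r * a := by
      intro y
      have h5 := smo_s2 h (R := R) (by
        by_contra hneg
        have h6 : Metric.ball (0 : E3) R = ∅ := Metric.ball_eq_empty.mpr (le_of_not_ge hneg)
        have h7 : φ = 0 := by
          funext z
          by_contra hz
          have := h.supp (show z ∈ Function.support φ from hz)
          rw [h6] at this
          exact this
        have h8 := h.int
        rw [h7] at h8
        simp at h8) hS hc r 0 0 a le_rfl (by omega) (fun z => by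
          rw [norm_iteratedFDeriv_zero, Real.norm_eq_abs]; exact ha z) y
      rw [norm_iteratedFDeriv_zero, Real.norm_eq_abs] at h5
      simpa using h5
    have h5 := smo_conv i (ContinuousLinearMap.lsmul ℝ ℝ : ℝ →L[ℝ] ℝ →L[ℝ] ℝ) h.smooth
      (smo_ker_cpt h) s1.continuous h4 x
    have h6 : ‖(ContinuousLinearMap.lsmul ℝ ℝ : ℝ →L[ℝ] ℝ →L[ℝ] ℝ)‖ ≤ 1 :=
      ContinuousLinearMap.opNorm_lsmul_le
    have h7 : ‖(ContinuousLinearMap.lsmul ℝ ℝ : ℝ →L[ℝ] ℝ →L[ℝ] ℝ)‖
        * (∫ y, ‖iteratedFDeriv ℝ i φ y‖) * (2 ^ r * a) ≤ 1 * B * (2 ^ r * a) := by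
      refine mul_le_mul_of_nonneg_right ?_ (by positivity)
      exact mul_le_mul h6 hB (integral_nonneg fun _ => norm_nonneg _) zero_le_one
    rw [h3]
    refine (norm_add_le _ _).trans ?_
    rw [pow_succ]
    nlinarith [ih, h5.trans h7]

private theorem smo_it_supp {R : ℝ} {φ : E3 → ℝ} (h : smo_Ker R φ) {S : E3 → ℝ} {s t : ℝ}
    (h0 : ∀ x, x ∉ BX s t → S x = 0) (r : ℕ) (x : E3) (hR : 0 ≤ R)
    (hx : x ∉ BX (s + r * R) (t + r * R)) : smo_it φ S r x = 0 := by
  induction r generalizing x with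
  | zero =>
    simp only [Nat.cast_zero, zero_mul, add_zero] at hx
    exact h0 x hx
  | succ r ih =>
    have key : ∀ y ∈ Metric.ball (0 : E3) R, x - y ∉ BX (s + r * R) (t + r * R) := by
      intro y hy hxy
      apply hx
      have hy' : ∀ j, |y j| ≤ R := by
        intro j
        have h1 := norm_le_pi_norm y j
        rw [Real.norm_eq_abs] at h1
        rw [Metric.mem_ball, dist_zero_right] at hy
        exact h1.trans hy.le
      obtain ⟨a0, a1, a2⟩ := hxy
      simp only [Pi.sub_apply] at a0 a1 a2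
      have b0 := hy' 0
      have b1 := hy' 1
      have b2 := hy' 2
      rw [abs_le] at a0 a1 a2 b0 b1 b2
      push_cast
      refine ⟨?_, ?_, ?_⟩ <;> rw [abs_le] <;> constructor <;> nlinarith
    have h1 : smo_it φ S r x = 0 := by
      refine ih x fun hx' => hx ?_
      obtain ⟨a0, a1, a2⟩ := hx'
      push_cast
      exact ⟨a0.trans (by nlinarith), a1.trans (by nlinarith), a2.trans (by nlinarith)⟩
    have h2 : (φ ⋆[ContinuousLinearMap.lsmul ℝ ℝ, volume] (smo_it φ S r)) x = 0 := by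
      rw [convolution_def]
      have h3 : ∀ y, (ContinuousLinearMap.lsmul ℝ ℝ (φ y)) (smo_it φ S r (x - y)) = (0 : ℝ) := by
        intro y
        by_cases hy : φ y = 0
        · rw [hy]
          simp
        · have h4 : y ∈ Metric.ball (0 : E3) R := h.supp hy
          rw [ih _ (key y h4)]
          simp
      simp only [h3]
      simp
    show smo_Q φ (smo_it φ S r) x = 0
    unfold smo_Q
    rw [h1, h2, sub_zero]

/-- the standard kernel -/
private theorem smo_exists : ∃ ρ : E3 → ℝ, smo_Ker 1 ρ := by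
  let f : ContDiffBump (0 : E3) := ⟨1 / 2, 1, by norm_num, by norm_num⟩
  exact ⟨f.normed volume, f.contDiff_normed, fun x => f.nonneg_normed x, f.integral_normed,
    (f.support_normed_eq (μ := volume)).subset⟩

private theorem smo_scale {ρ : E3 → ℝ} (h : smo_Ker 1 ρ) {M : ℝ} (hM : 1 ≤ M) :
    smo_Ker M⁻¹ (fun x => M ^ 3 * ρ (M • x)) := by
  have hM0 : 0 < M := by linarith
  refine ⟨contDiff_const.mul (h.smooth.comp (contDiff_const_smul M)), fun x =>
    mul_nonneg (by positivity) (h.nonneg _), ?_, ?_⟩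
  · rw [integral_const_mul, Measure.integral_comp_smul, h.int]
    simp only [Module.finrank_fintype_fun_eq_card, Fintype.card_fin, smul_eq_mul, mul_one]
    rw [abs_of_pos (by positivity)]
    field_simp
  · intro x hx
    have h1 : ρ (M • x) ≠ 0 := fun h0 => hx (by simp [h0])
    have h2 := h.supp h1
    rw [Metric.mem_ball, dist_zero_right, norm_smul, Real.norm_eq_abs, abs_of_pos hM0] at h2
    rw [Metric.mem_ball, dist_zero_right]
    calc ‖x‖ = M⁻¹ * (M * ‖x‖) := by field_simp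
      _ < M⁻¹ * 1 := mul_lt_mul_of_pos_left h2 (by positivity)
      _ = M⁻¹ := mul_one _

private theorem smo_scale_int {ρ : E3 → ℝ} (h : smo_Ker 1 ρ) {M : ℝ} (hM : 1 ≤ M) (i : ℕ) :
    ∫ x, ‖iteratedFDeriv ℝ i (fun x => M ^ 3 * ρ (M • x)) x‖
      ≤ M ^ i * ∫ x, ‖iteratedFDeriv ℝ i ρ x‖ := by
  have hM0 : 0 < M := by linarith
  have hk := smo_scale h hM
  have h1 : ∀ x, ‖iteratedFDeriv ℝ i (fun x => M ^ 3 * ρ (M • x)) x‖
      ≤ M ^ 3 * (M ^ i * ‖iteratedFDeriv ℝ i ρ (M • x)‖) := by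
    intro x
    have h2 : (fun x : E3 => M ^ 3 * ρ (M • x)) = fun x => M ^ 3 • (ρ ∘ (M •
        ContinuousLinearMap.id ℝ E3)) x := by
      funext y
      simp
    have h3 : ContDiff ℝ smo (ρ ∘ (M • ContinuousLinearMap.id ℝ E3)) :=
      h.smooth.comp (M • ContinuousLinearMap.id ℝ E3).contDiff
    rw [h2, iteratedFDeriv_const_smul_apply' ((h3.of_le (smo_nle i)).contDiffAt),
      norm_smul, Real.norm_eq_abs, abs_of_pos (by positivity : (0 : ℝ) < M ^ 3)]
    refine mul_le_mul_of_nonneg_left ?_ (by positivity)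
    rw [(M • ContinuousLinearMap.id ℝ E3).iteratedFDeriv_comp_right h.smooth x (smo_nle i)]
    refine (ContinuousMultilinearMap.norm_compContinuousLinearMap_le _ _).trans ?_
    rw [Finset.prod_const, Finset.card_univ, Fintype.card_fin, mul_comm]
    have h4 : ‖M • ContinuousLinearMap.id ℝ E3‖ ≤ M := by
      rw [norm_smul, Real.norm_eq_abs, abs_of_pos hM0]
      calc M * ‖ContinuousLinearMap.id ℝ E3‖ ≤ M * 1 :=
            mul_le_mul_of_nonneg_left ContinuousLinearMap.norm_id_le hM0.le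
        _ = M := mul_one M
    exact mul_le_mul_of_nonneg_right (pow_le_pow_left₀ (norm_nonneg _) h4 i) (norm_nonneg _)
  have hc1 : Continuous fun x => iteratedFDeriv ℝ i ρ x :=
    h.smooth.continuous_iteratedFDeriv (smo_nle i)
  have hcs : HasCompactSupport (fun x => iteratedFDeriv ℝ i ρ x) :=
    (smo_ker_cpt h).iteratedFDeriv i
  have hi1 : Integrable (fun x => ‖iteratedFDeriv ℝ i ρ x‖) (volume : Measure E3) :=
    (hc1.integrable_of_hasCompactSupport hcs).norm
  have hi2 : Integrable (fun x => ‖iteratedFDeriv ℝ i ρ (M • x)‖) (volume : Measure E3) :=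
    hi1.comp_smul hM0.ne'
  have hi3 : Integrable (fun x => ‖iteratedFDeriv ℝ i (fun x => M ^ 3 * ρ (M • x)) x‖)
      (volume : Measure E3) :=
    ((hk.smooth.continuous_iteratedFDeriv (smo_nle i)).integrable_of_hasCompactSupport
      ((smo_ker_cpt hk).iteratedFDeriv i)).norm
  calc ∫ x, ‖iteratedFDeriv ℝ i (fun x => M ^ 3 * ρ (M • x)) x‖
      ≤ ∫ x, M ^ 3 * (M ^ i * ‖iteratedFDeriv ℝ i ρ (M • x)‖) :=
        integral_mono hi3 ((hi2.const_mul _).const_mul _) h1
    _ = M ^ i * ∫ x, ‖iteratedFDeriv ℝ i ρ x‖ := by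
        rw [integral_const_mul, integral_const_mul,
          Measure.integral_comp_smul volume (fun x => ‖iteratedFDeriv ℝ i ρ x‖) M]
        simp only [Module.finrank_fintype_fun_eq_card, Fintype.card_fin, smul_eq_mul]
        rw [abs_of_pos (by positivity)]
        field_simp

private theorem smo_pd_Q {R : ℝ} {φ : E3 → ℝ} (h : smo_Ker R φ) {w : E3 → ℝ}
    (hw : ContDiff ℝ smo w) (hc : HasCompactSupport w) (l : Fin 3) :
    pd l (smo_Q φ w) = smo_Q φ (pd l w) := by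
  funext x
  have h1 : pd l (smo_Q φ w) x = (smo_Q φ (fderiv ℝ w) x) (ev l) := by
    unfold pd
    rw [smo_fderiv_Q h hw hc]
  rw [h1]
  unfold smo_Q
  rw [sub_apply, convolution_def, convolution_def]
  have h2 : Integrable (fun t => (ContinuousLinearMap.lsmul ℝ ℝ (φ t)) (fderiv ℝ w (x - t)))
      (volume : Measure E3) :=
    (smo_ker_cpt h).convolutionExists_left (ContinuousLinearMap.lsmul ℝ ℝ :
      ℝ →L[ℝ] (E3 →L[ℝ] ℝ) →L[ℝ] (E3 →L[ℝ] ℝ)) h.smooth.continuous
      (smo_li (hw.continuous_fderiv (by simp))) x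
  rw [ContinuousLinearMap.integral_apply h2]
  rfl

private theorem smo_pd_cpt {w : E3 → ℝ} (hc : HasCompactSupport w) (l : Fin 3) :
    HasCompactSupport (pd l w) := hc.fderiv_apply ℝ (ev l)

private theorem smo_pd_it {R : ℝ} {φ : E3 → ℝ} (h : smo_Ker R φ) {S : E3 → ℝ}
    (hS : ContDiff ℝ smo S) (hc : HasCompactSupport S) (l : Fin 3) (r : ℕ) :
    pd l (smo_it φ S r) = smo_it φ (pd l S) r := by
  induction r with
  | zero => rfl
  | succ r ih =>
    obtain ⟨s1, s2⟩ := smo_it_smooth h hS hc r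
    change pd l (smo_Q φ (smo_it φ S r)) = smo_Q φ (smo_it φ (pd l S) r)
    rw [smo_pd_Q h s1 s2, ih]

theorem smoothing : ∃ C : ℕ → ℝ, (∀ i, 1 ≤ C i) ∧ ∀ (M : ℝ) (r : ℕ) (S : E3 → ℝ), 1 ≤ M →
    ContDiff ℝ smo S → HasCompactSupport S → ∃ h : E3 → ℝ, ContDiff ℝ smo h ∧
      (∀ s t : ℝ, (∀ x, x ∉ BX s t → S x = 0) → ∀ x, x ∉ BX (s + r / M) (t + r / M) → h x = 0) ∧
      (∀ (i : ℕ) (a : ℝ), (∀ x, |S x| ≤ a) →
        ∀ x, ‖iteratedFDeriv ℝ i h x‖ ≤ C i * 2 ^ r * M ^ i * a) ∧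
      (∀ (i k : ℕ) (a : ℝ), i ≤ k → k ≤ i + r → (∀ x, ‖iteratedFDeriv ℝ k S x‖ ≤ a) →
        ∀ x, ‖iteratedFDeriv ℝ i (fun y => S y - h y) x‖ ≤ 2 ^ r * (M⁻¹) ^ (k - i) * a) ∧
      ∀ (l : Fin 3) (i k : ℕ) (a : ℝ), i ≤ k → k ≤ i + r →
        (∀ x, ‖iteratedFDeriv ℝ k (pd l S) x‖ ≤ a) →
        ∀ x, ‖iteratedFDeriv ℝ i (fun y => pd l S y - pd l h y) x‖ ≤
          2 ^ r * (M⁻¹) ^ (k - i) * a := by
  obtain ⟨ρ, hρ⟩ := smo_exists
  refine ⟨fun i => 1 + ∫ x, ‖iteratedFDeriv ℝ i ρ x‖, fun i => ?_, ?_⟩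
  · have : 0 ≤ ∫ x, ‖iteratedFDeriv ℝ i ρ x‖ := integral_nonneg fun _ => norm_nonneg _
    simp only
    linarith
  intro M r S hM hS hc
  have hM0 : 0 < M := by linarith
  set φ : E3 → ℝ := fun x => M ^ 3 * ρ (M • x) with hφ
  have hk : smo_Ker M⁻¹ φ := smo_scale hρ hM
  have hR : 0 ≤ M⁻¹ := by positivity
  obtain ⟨s1, s2⟩ := smo_it_smooth hk hS hc r
  refine ⟨fun y => S y - smo_it φ S r y, hS.sub s1, ?_, ?_, ?_, ?_⟩
  · intro s t h0 x hx
    rw [div_eq_mul_inv] at hx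
    have h1 := smo_it_supp hk h0 r x hR hx
    have h2 : S x = 0 := by
      refine h0 x fun hx' => hx ?_
      obtain ⟨a0, a1, a2⟩ := hx'
      have h3 : 0 ≤ (r : ℝ) * M⁻¹ := by positivity
      exact ⟨by linarith, by linarith, by linarith⟩
    simp only
    rw [h1, h2, sub_zero]
  · intro i a ha x
    have h0 : 0 ≤ a := (abs_nonneg _).trans (ha x)
    have hI : 0 ≤ ∫ x, ‖iteratedFDeriv ℝ i ρ x‖ := integral_nonneg fun _ => norm_nonneg _
    have h1 := smo_s1 hk hS hc i (smo_scale_int hρ hM i) ha r x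
    refine h1.trans ?_
    have h2 : (1 : ℝ) ≤ 2 ^ r := one_le_pow₀ (by norm_num)
    have h3 : (0 : ℝ) ≤ M ^ i := by positivity
    calc M ^ i * (∫ x, ‖iteratedFDeriv ℝ i ρ x‖) * (2 ^ r - 1) * a
        ≤ M ^ i * (1 + ∫ x, ‖iteratedFDeriv ℝ i ρ x‖) * 2 ^ r * a := by
          refine mul_le_mul_of_nonneg_right ?_ h0
          exact mul_le_mul (mul_le_mul_of_nonneg_left (by linarith) h3) (by linarith)
            (by linarith) (by positivity)
      _ = (1 + ∫ x, ‖iteratedFDeriv ℝ i ρ x‖) * 2 ^ r * M ^ i * a := by ring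
  · intro i k a h1 h2 ha x
    have h3 : (fun y => S y - (S y - smo_it φ S r y)) = smo_it φ S r := by
      funext y
      ring
    rw [h3]
    exact smo_s2 hk hR hS hc r i k a h1 h2 ha x
  · intro l i k a h1 h2 ha x
    have h3 : (fun y => pd l S y - pd l (fun z => S z - smo_it φ S r z) y)
        = smo_it φ (pd l S) r := by
      rw [← smo_pd_it hk hS hc l r]
      funext y
      unfold pd
      rw [fderiv_fun_sub (hS.differentiable (by simp) y) (s1.differentiable (by simp) y),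
        sub_apply]
      ring
    rw [h3]
    exact smo_s2 hk hR (contDiff_pd hS l) (smo_pd_cpt hc l) r i k a h1 h2 ha x

end Pool.Agent.QM59
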