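import Mathlib

/-!
# MP_decea1_gt, block C, C4: numeric lemmas for the step
-/

set_option autoImplicit false

namespace Pool.Agent.QM59

/-- `2 ^ r = (8 ^ r) ^ (1/3)` -/
theorem two_pow_le {N : ℝ} {r : ℕ} (hN : 1 ≤ N) (h : (8 : ℝ) ^ r ≤ N ^ (1 / 8 : ℝ)) :
    (2 : ℝ) ^ r ≤ N ^ (1 / 24 : ℝ) := by
  have h0 : (0 : ℝ) ≤ N := by linarith
  have h2 : (2 : ℝ) ^ r = ((8 : ℝ) ^ r) ^ (1 / 3 : ℝ) := by
    have h8 : (8 : ℝ) ^ r = ((2 : ℝ) ^ r) ^ (3 : ℝ) := by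
      rw [show (8 : ℝ) = 2 ^ 3 by norm_num, ← pow_mul, mul_comm, pow_mul]
      exact (Real.rpow_natCast _ 3).symm
    rw [h8, ← Real.rpow_mul (by positivity)]
    norm_num
  have h3 : N ^ (1 / 24 : ℝ) = (N ^ (1 / 8 : ℝ)) ^ (1 / 3 : ℝ) := by
    rw [← Real.rpow_mul h0]
    norm_num
  rw [h2, h3]
  exact Real.rpow_le_rpow (by positivity) h (by norm_num)

theorem absorb (C : ℝ) {ε : ℝ} (hε : 0 < ε) : ∃ N0 : ℝ, 1 ≤ N0 ∧ ∀ N, N0 ≤ N → C ≤ N ^ ε := by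
  obtain ⟨N0, h⟩ := Filter.eventually_atTop.1
    ((tendsto_rpow_atTop hε).eventually_ge_atTop C)
  exact ⟨max 1 N0, le_max_left _ _, fun N hN => h N (le_trans (le_max_right _ _) hN)⟩

/-- `r ≤ 8 ^ r ≤ N ^ (1/8)` -/
theorem r_div_le : ∃ N0 : ℝ, 1 ≤ N0 ∧ ∀ (N : ℝ) (r : ℕ), N0 ≤ N → (8 : ℝ) ^ r ≤ N ^ (1 / 8 : ℝ) →
    (r : ℝ) / N ^ (5 / 4 : ℝ) ≤ 1 / 10 := by
  obtain ⟨N0, h1, h⟩ := absorb 10 (show (0 : ℝ) < 9 / 8 by norm_num)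
  refine ⟨N0, h1, fun N r hN hr => ?_⟩
  have hN1 : 1 ≤ N := h1.trans hN
  have hp : 0 < N := by linarith
  have hc := h N hN
  have e : N ^ (5 / 4 : ℝ) = N ^ (9 / 8 : ℝ) * N ^ (1 / 8 : ℝ) := by
    rw [← Real.rpow_add hp]
    norm_num
  have hr1 : (r : ℝ) ≤ N ^ (1 / 8 : ℝ) := by
    refine le_trans ?_ hr
    have hh : r < 8 ^ r := Nat.lt_pow_self (by norm_num)
    calc (r : ℝ) ≤ ((8 ^ r : ℕ) : ℝ) := by exact_mod_cast hh.le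
      _ = 8 ^ r := by push_cast; rfl
  have hq : 0 < N ^ (1 / 8 : ℝ) := Real.rpow_pos_of_pos hp _
  rw [div_le_iff₀ (Real.rpow_pos_of_pos hp _), e]
  have h3 : 10 * N ^ (1 / 8 : ℝ) ≤ N ^ (9 / 8 : ℝ) * N ^ (1 / 8 : ℝ) :=
    mul_le_mul_of_nonneg_right hc hq.le
  linarith

/-- a power of `N` absorbs a constant and one factor `2 ^ r` -/
theorem absorb1 (C : ℝ) (hC : 0 ≤ C) {x y : ℝ} (h : x + 1 / 24 < y) : ∃ N0 : ℝ, 1 ≤ N0 ∧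
    ∀ (N : ℝ) (r : ℕ), N0 ≤ N → (8 : ℝ) ^ r ≤ N ^ (1 / 8 : ℝ) →
      C * 2 ^ r * N ^ x ≤ N ^ y := by
  obtain ⟨N0, h1, h0⟩ := absorb C (show (0 : ℝ) < y - (x + 1 / 24) by linarith)
  refine ⟨N0, h1, fun N r hN hr => ?_⟩
  have hN1 : 1 ≤ N := h1.trans hN
  have hp : 0 < N := by linarith
  have hc := h0 N hN
  have h2 := two_pow_le hN1 hr
  have e : N ^ y = N ^ (y - (x + 1 / 24)) * N ^ (1 / 24 : ℝ) * N ^ x := by
    rw [← Real.rpow_add hp, ← Real.rpow_add hp]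
    congr 1
    ring
  rw [e]
  exact mul_le_mul_of_nonneg_right (mul_le_mul hc h2 (by positivity)
    (Real.rpow_nonneg hp.le _)) (Real.rpow_nonneg hp.le _)

/-- a power of `N` absorbs a constant and two factors `2 ^ r` -/
theorem absorb2 (C : ℝ) (hC : 0 ≤ C) {x y : ℝ} (h : x + 1 / 12 < y) : ∃ N0 : ℝ, 1 ≤ N0 ∧
    ∀ (N : ℝ) (r : ℕ), N0 ≤ N → (8 : ℝ) ^ r ≤ N ^ (1 / 8 : ℝ) →
      C * (2 ^ r) ^ 2 * N ^ x ≤ N ^ y := by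
  obtain ⟨N0, h1, h0⟩ := absorb C (show (0 : ℝ) < y - (x + 1 / 12) by linarith)
  refine ⟨N0, h1, fun N r hN hr => ?_⟩
  have hN1 : 1 ≤ N := h1.trans hN
  have hp : 0 < N := by linarith
  have hc := h0 N hN
  have h2 := two_pow_le hN1 hr
  have h4 : ((2 : ℝ) ^ r) ^ 2 ≤ (N ^ (1 / 24 : ℝ)) ^ 2 :=
    pow_le_pow_left₀ (by positivity) h2 2
  have e : N ^ y = N ^ (y - (x + 1 / 12)) * (N ^ (1 / 24 : ℝ)) ^ 2 * N ^ x := by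
    rw [pow_two, ← Real.rpow_add hp, ← Real.rpow_add hp, ← Real.rpow_add hp]
    congr 1
    ring
  rw [e]
  exact mul_le_mul_of_nonneg_right (mul_le_mul hc h4 (by positivity)
    (Real.rpow_nonneg hp.le _)) (Real.rpow_nonneg hp.le _)

/-- a negative power of `N` is small -/
theorem absorb_small (C : ℝ) (hC : 0 ≤ C) {κ x : ℝ} (hκ : 0 < κ) (h : x < 0) : ∃ N0 : ℝ,
    1 ≤ N0 ∧ ∀ N, N0 ≤ N → C * N ^ x ≤ κ := by
  obtain ⟨N0, h1, h0⟩ := absorb (C / κ) (show (0 : ℝ) < -x by linarith)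
  refine ⟨N0, h1, fun N hN => ?_⟩
  have hp : 0 < N := by linarith
  have hc := h0 N hN
  have _ := hC
  have hq : 0 < N ^ x := Real.rpow_pos_of_pos hp _
  have e : N ^ (-x) * N ^ x = 1 := by
    rw [← Real.rpow_add hp]
    simp
  rw [div_le_iff₀ hκ] at hc
  calc C * N ^ x ≤ N ^ (-x) * κ * N ^ x := mul_le_mul_of_nonneg_right hc hq.le
    _ = κ * (N ^ (-x) * N ^ x) := by ring
    _ = κ := by rw [e, mul_one]

end Pool.Agent.QM59
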