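import Pool.Agent.Lib.MP_decea1_gt_C.GInv
import Pool.Agent.Lib.MP_decea1_gt_C.Lin
import Pool.Agent.Lib.MP_decea1_gt_C.Smo
import Pool.Agent.Lib.MP_decea1_gt_C.StN

/-!
# MP_decea1_gt, block C, C4: the data of the step before the fragmentation
-/

set_option autoImplicit false

open MeasureTheory Set

namespace Pool.Agent.QM59

/-- The data of the step for `f` at scale `N`: the generating function `S0` of `f`, its smoothing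
`h` (at scale `M = N ^ (5/4)`), the solution `u`, `e` of the linear equation for `h` with
`γ = N⁻²`. -/
structure Con (cs cl : ℕ → ℝ) (cl' : ℕ → ℕ → ℝ) (N : ℝ) (r : ℕ) (f : Equiv.Perm E3)
    (S0 h : E3 → ℝ) (u : Fin 4 → E3 → ℝ) (e : E3 → ℝ) : Prop where
  okf : OkZ B0 f
  small : ∀ x, ‖fderiv ℝ (disp f) x‖ ≤ 1 / 8
  sS : Sm S0
  S0off : ∀ x, x ∉ BX 1 1 → S0 x = 0
  fS : f = Gp S0
  p0 : ∀ x, pd 0 S0 x = ((toP (af f))⁻¹ x) 1 - x 1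
  p1 : ∀ x, pd 1 S0 x = f ((toP (af f))⁻¹ x) 0 - x 0
  sh : ContDiff ℝ smo h
  hoff : ∀ x, x ∉ BX (11 / 10) (11 / 10) → h x = 0
  s1 : ∀ (i : ℕ) (a : ℝ), (∀ x, |S0 x| ≤ a) →
    ∀ x, ‖iteratedFDeriv ℝ i h x‖ ≤ cs i * 2 ^ r * (N ^ (5 / 4 : ℝ)) ^ i * a
  s3 : ∀ (l : Fin 3) (i k : ℕ) (a : ℝ), i ≤ k → k ≤ i + r →
    (∀ x, ‖iteratedFDeriv ℝ k (pd l S0) x‖ ≤ a) →
    ∀ x, ‖iteratedFDeriv ℝ i (fun y => pd l S0 y - pd l h y) x‖ ≤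
      2 ^ r * ((N ^ (5 / 4 : ℝ))⁻¹) ^ (k - i) * a
  lin : LinSol cl cl' (N⁻¹ ^ 2) h u e

/-- `exists_gen` (with `BX_eq`), `smoothing` with `M = N ^ (5/4)` (`S0` has compact support by
`S0off`, `BX_eq`; `r / M ≤ 1 / 10` by `r_div_le`), `solve` with `γ = N⁻¹ ^ 2 ≤ g0`. -/
theorem exists_con : ∃ (cs cl : ℕ → ℝ) (cl' : ℕ → ℕ → ℝ) (N1 : ℝ), 1 ≤ N1 ∧ (∀ i, 1 ≤ cs i) ∧
    (∀ i, 1 ≤ cl i) ∧ (∀ i s, 1 ≤ cl' i s) ∧
    ∀ (N : ℝ) (r : ℕ) (f : Equiv.Perm E3), N1 ≤ N → (8 : ℝ) ^ r ≤ N ^ (1 / 8 : ℝ) → OkZ B0 f →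
      (∀ x, ‖fderiv ℝ (disp f) x‖ ≤ 1 / 8) → ∃ S0 h u e, Con cs cl cl' N r f S0 h u e := by
  obtain ⟨cs, hcs, hsm⟩ := smoothing
  obtain ⟨cl, cl', g0, hg0, hg1, hcl, hcl', hsol⟩ := solve
  obtain ⟨N0, hN0, hrd⟩ := r_div_le
  refine ⟨cs, cl, cl', max N0 (1 / g0), hN0.trans (le_max_left _ _), hcs, hcl, hcl', ?_⟩
  intro N r f hN hr hf hsmall
  have hNN0 : N0 ≤ N := (le_max_left _ _).trans hN
  have hN1 : 1 ≤ N := hN0.trans hNN0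
  have hNp : 0 < N := by linarith
  have hNg : 1 / g0 ≤ N := (le_max_right _ _).trans hN
  have hM : 1 ≤ N ^ (5 / 4 : ℝ) := Real.one_le_rpow hN1 (by norm_num)
  have hf' : OkZ (Icc ![-1, -1, 7 - 1] ![1, 1, 7 + 1]) f := by
    have h1 : B0 = Icc ![-1, -1, 7 - 1] ![1, 1, 7 + 1] := BX_eq 1 1
    rw [← h1]
    exact hf
  obtain ⟨S0, hS, h0, hfS, hp0, hp1⟩ := exists_gen hf' hsmall
  have hc : HasCompactSupport S0 := HasCompactSupport.intro isCompact_Icc h0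
  have h0' : ∀ x, x ∉ BX 1 1 → S0 x = 0 := fun x hx => h0 x fun h1 => hx (by
    rw [BX_eq]
    exact h1)
  obtain ⟨h, hh, hoff, s1, -, s3⟩ := hsm (N ^ (5 / 4 : ℝ)) r S0 hM hS.smooth hc
  have hrM := hrd N r hNN0 hr
  have hoff' : ∀ x, x ∉ BX (11 / 10) (11 / 10) → h x = 0 := by
    intro x hx
    refine hoff 1 1 h0' x fun h1 => hx ?_
    obtain ⟨a0, a1, a2⟩ := h1
    exact ⟨a0.trans (by linarith), a1.trans (by linarith), a2.trans (by linarith)⟩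
  have hγ0 : 0 < N⁻¹ ^ 2 := by positivity
  have hγ : N⁻¹ ^ 2 ≤ g0 := by
    have h1 : N⁻¹ ≤ g0 := by
      rw [inv_le_comm₀ hNp hg0, ← one_div]
      exact hNg
    have h2 : N⁻¹ ≤ 1 := inv_le_one_of_one_le₀ hN1
    have h3 : 0 ≤ N⁻¹ := by positivity
    calc N⁻¹ ^ 2 = N⁻¹ * N⁻¹ := by ring
      _ ≤ N⁻¹ * 1 := mul_le_mul_of_nonneg_left h2 h3
      _ = N⁻¹ := mul_one _
      _ ≤ g0 := h1
  obtain ⟨u, e, hl⟩ := hsol (N⁻¹ ^ 2) h hγ0 hγ hh hoff'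
  exact ⟨S0, h, u, e, ⟨hf, hsmall, hS, h0', hfS, hp0, hp1, hh, hoff', s1, s3, hl⟩⟩

end Pool.Agent.QM59
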