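import Pool.Agent.Lib.MP_decea1_gt_C.Conj
import Pool.Agent.Lib.MP_decea1_gt_C.Exp

/-!
# MP_decea1_gt, block C, C4: the product of the four commutators
-/

set_option autoImplicit false

open MeasureTheory Set

namespace Pool.Agent.QM59

/-- the transported functions -/
noncomputable def ut (γ : ℝ) (u : Fin 4 → E3 → ℝ) : Fin 4 → E3 → ℝ :=
  ![fun x => u 0 (x - γ • ev 0), fun x => u 1 (x - γ • ev 1), fun x => u 2 (x - γ • ev 2),
    fun x => (1 + γ) ^ 2 * u 3 (MdI (1 + γ) x)]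

private theorem stb_sub : BX (14 / 5) (14 / 5) ⊆ B1 := by
  rintro x ⟨h0, h1, h2⟩
  exact ⟨by linarith, by linarith, by linarith⟩

private theorem stb_comm (a b : Equiv.Perm E3) : comm a b = a * (b * a * b⁻¹)⁻¹ := by
  unfold comm
  group

private theorem stb_le (i : ℕ) : ((i : ℕ∞) : WithTop ℕ∞) ≤ smo := by
  exact_mod_cast (le_top : (i : ℕ∞) ≤ ⊤)

/-- the linear part of `MdI` -/
private noncomputable def stb_L (μ : ℝ) : E3 →L[ℝ] E3 :=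
  ContinuousLinearMap.pi ![μ⁻¹ • ContinuousLinearMap.proj 0, μ⁻¹ • ContinuousLinearMap.proj 1,
    μ ^ 2 • ContinuousLinearMap.proj 2]

private theorem stb_mdI (μ : ℝ) (x : E3) : MdI μ x = stb_L μ x + ![0, 0, 7 - μ ^ 2 * 7] := by
  ext i
  fin_cases i
  · simp [MdI, stb_L, ContinuousLinearMap.pi_apply]
  · simp [MdI, stb_L, ContinuousLinearMap.pi_apply]
  · simp [MdI, stb_L, ContinuousLinearMap.pi_apply]
    ring

private theorem stb_norm {γ : ℝ} (h0 : 0 < γ) (h1 : γ ≤ 1) : ‖stb_L (1 + γ)‖ ≤ 4 := by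
  refine ContinuousLinearMap.opNorm_le_bound _ (by norm_num) fun x => ?_
  rw [pi_norm_le_iff_of_nonneg (by positivity)]
  have hμ : (1 + γ)⁻¹ ≤ 1 := inv_le_one_of_one_le₀ (by linarith)
  have hμ0 : 0 ≤ (1 + γ)⁻¹ := inv_nonneg.2 (by linarith)
  have hμ2 : (1 + γ) ^ 2 ≤ 4 := by nlinarith
  have hx := norm_nonneg x
  intro i
  have hi := norm_le_pi_norm x i
  fin_cases i
  · change ‖(1 + γ)⁻¹ * x 0‖ ≤ 4 * ‖x‖
    rw [norm_mul, Real.norm_of_nonneg hμ0]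
    have h2 : (1 + γ)⁻¹ * ‖x 0‖ ≤ 1 * ‖x‖ := mul_le_mul hμ hi (norm_nonneg _) zero_le_one
    linarith
  · change ‖(1 + γ)⁻¹ * x 1‖ ≤ 4 * ‖x‖
    rw [norm_mul, Real.norm_of_nonneg hμ0]
    have h2 : (1 + γ)⁻¹ * ‖x 1‖ ≤ 1 * ‖x‖ := mul_le_mul hμ hi (norm_nonneg _) zero_le_one
    linarith
  · change ‖(1 + γ) ^ 2 * x 2‖ ≤ 4 * ‖x‖
    rw [norm_mul, Real.norm_of_nonneg (by positivity)]
    exact mul_le_mul hμ2 hi (norm_nonneg _) (by norm_num)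

private theorem stb_aff {w : E3 → ℝ} (hw : ContDiff ℝ smo w) (L : E3 →L[ℝ] E3) (hL : ‖L‖ ≤ 4)
    (b : E3) (i : ℕ) (x : E3) :
    ‖iteratedFDeriv ℝ i (fun y => w (L y + b)) x‖ ≤ ‖iteratedFDeriv ℝ i w (L x + b)‖ * 4 ^ i := by
  have h1 : ContDiff ℝ smo (fun y => w (y + b)) := hw.comp (contDiff_id.add contDiff_const)
  have h2 := L.iteratedFDeriv_comp_right h1 x (i := i) (stb_le i)
  have h3 : (fun y => w (L y + b)) = (fun y => w (y + b)) ∘ L := rfl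
  rw [h3, h2, iteratedFDeriv_comp_add_right]
  refine (ContinuousMultilinearMap.norm_compContinuousLinearMap_le _ _).trans ?_
  rw [Finset.prod_const, Finset.card_univ, Fintype.card_fin]
  exact mul_le_mul_of_nonneg_left (pow_le_pow_left₀ (norm_nonneg _) hL i) (norm_nonneg _)

/-- `comm (Gp (u l)) T = Gp (u l) * (T * (Gp (u l))⁻¹ * T⁻¹)` and `conj_tr`, `conj_md` with the box
`BX (14/5) (14/5) ⊆ B1` (`BX_eq`), `Std.tr0`, `tr1`, `tr2`, `dg`. -/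
theorem comm_ut (S : Std) {γ : ℝ} (h0 : 0 < γ) (h1 : γ ≤ S.g0) {u : Fin 4 → E3 → ℝ}
    (hu : ∀ l, Sm (u l)) (h2 : ∀ l x, x ∉ BX (14 / 5) (14 / 5) → u l x = 0) (l : Fin 4) :
    comm (Gp (u l)) (S.T γ l) = Gp (u l) * (Gp (ut γ u l))⁻¹ := by
  have h3 := h2
  simp only [BX_eq] at h3
  have h4 := stb_sub
  rw [BX_eq] at h4
  have key : S.T γ l * Gp (u l) * (S.T γ l)⁻¹ = Gp (ut γ u l) := by
    fin_cases l
    · exact conj_tr (hu 0) (h3 0) fun x hx => S.tr0 γ h0 h1 x (h4 hx)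
    · exact conj_tr (hu 1) (h3 1) fun x hx => S.tr1 γ h0 h1 x (h4 hx)
    · exact conj_tr (hu 2) (h3 2) fun x hx => S.tr2 γ h0 h1 x (h4 hx)
    · exact conj_md (hu 3) (h3 3) (by linarith) fun x hx => S.dg γ h0 h1 x (h4 hx)
  rw [stb_comm, key]

theorem ut_smooth (γ : ℝ) {u : Fin 4 → E3 → ℝ} (hu : ∀ l, ContDiff ℝ smo (u l)) (l : Fin 4) :
    ContDiff ℝ smo (ut γ u l) := by
  fin_cases l
  · exact (hu 0).comp (contDiff_id.sub contDiff_const)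
  · exact (hu 1).comp (contDiff_id.sub contDiff_const)
  · exact (hu 2).comp (contDiff_id.sub contDiff_const)
  · have h1 : ContDiff ℝ smo (MdI (1 + γ)) := by
      rw [show MdI (1 + γ) = fun x => stb_L (1 + γ) x + ![0, 0, 7 - (1 + γ) ^ 2 * 7] from
        funext (stb_mdI (1 + γ))]
      exact (stb_L (1 + γ)).contDiff.add contDiff_const
    exact contDiff_const.mul ((hu 3).comp h1)

private theorem stb_off {γ : ℝ} (h0 : 0 < γ) (h1 : γ ≤ 1 / 14) (j : Fin 3) {x : E3}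
    (h : x - γ • ev j ∈ BX (14 / 5) (14 / 5)) : x ∈ BX 3 3 := by
  have hk : ∀ k : Fin 3, 0 ≤ ev j k ∧ ev j k ≤ 1 := by
    intro k
    by_cases hkj : k = j
    · subst hkj
      simp [ev]
    · simp [ev, hkj]
  have hx : ∀ k : Fin 3, (x - γ • ev j) k = x k - γ * ev j k := fun k => rfl
  obtain ⟨h4, h5, h6⟩ := h
  rw [hx, abs_le] at h4 h5 h6
  have e0 : 0 ≤ γ * ev j 0 ∧ γ * ev j 0 ≤ 1 / 14 :=
    ⟨mul_nonneg h0.le (hk 0).1, by nlinarith [(hk 0).1, (hk 0).2]⟩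
  have e1 : 0 ≤ γ * ev j 1 ∧ γ * ev j 1 ≤ 1 / 14 :=
    ⟨mul_nonneg h0.le (hk 1).1, by nlinarith [(hk 1).1, (hk 1).2]⟩
  have e2 : 0 ≤ γ * ev j 2 ∧ γ * ev j 2 ≤ 1 / 14 :=
    ⟨mul_nonneg h0.le (hk 2).1, by nlinarith [(hk 2).1, (hk 2).2]⟩
  exact ⟨abs_le.2 ⟨by linarith [e0.1, h4.1], by linarith [e0.2, h4.2]⟩,
    abs_le.2 ⟨by linarith [e1.1, h5.1], by linarith [e1.2, h5.2]⟩,
    abs_le.2 ⟨by linarith [e2.1, h6.1], by linarith [e2.2, h6.2]⟩⟩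

theorem ut_off {γ : ℝ} (h0 : 0 < γ) (h1 : γ ≤ 1 / 14) {u : Fin 4 → E3 → ℝ}
    (h2 : ∀ l x, x ∉ BX (14 / 5) (14 / 5) → u l x = 0) (l : Fin 4) (x : E3) (hx : x ∉ BX 3 3) :
    ut γ u l x = 0 := by
  fin_cases l
  · exact h2 0 _ fun h3 => hx (stb_off h0 h1 0 h3)
  · exact h2 1 _ fun h3 => hx (stb_off h0 h1 1 h3)
  · exact h2 2 _ fun h3 => hx (stb_off h0 h1 2 h3)
  · change (1 + γ) ^ 2 * u 3 (MdI (1 + γ) x) = 0
    rw [h2 3 _ fun h3 => hx ?_, mul_zero]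
    obtain ⟨h4, h5, h6⟩ := h3
    change |(1 + γ)⁻¹ * x 0| ≤ 14 / 5 at h4
    change |(1 + γ)⁻¹ * x 1| ≤ 14 / 5 at h5
    change |7 + (1 + γ) ^ 2 * (x 2 - 7) - 7| ≤ 14 / 5 at h6
    have hp : 0 < 1 + γ := by linarith
    rw [abs_mul, abs_of_pos (inv_pos.2 hp), inv_mul_le_iff₀ hp] at h4 h5
    rw [add_sub_cancel_left, abs_mul, abs_of_nonneg (by positivity)] at h6
    refine ⟨by linarith, by linarith, ?_⟩
    nlinarith [abs_nonneg (x 2 - 7)]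

private theorem stb_ut3 (γ : ℝ) (u : Fin 4 → E3 → ℝ) :
    ut γ u 3 = fun x : E3 => ((1 + γ) ^ 2 : ℝ) • (u 3 (MdI (1 + γ) x) : ℝ) := rfl

/-- `iteratedFDeriv` of a composition with a translation; for `l = 3` with a diagonal linear map plus
constant, of norm at most `(1 + γ) ^ 2 ≤ 4`. -/
theorem ut_bd (K : ℕ) : ∃ C : ℝ, 1 ≤ C ∧ ∀ (γ : ℝ) (u : Fin 4 → E3 → ℝ) (δ M : ℝ), 0 < γ → γ ≤ 1 →
    0 ≤ δ → 1 ≤ M → (∀ l, ContDiff ℝ smo (u l)) →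
    (∀ l, ∀ i ≤ K, ∀ x, ‖iteratedFDeriv ℝ i (u l) x‖ ≤ δ * M ^ i) →
    ∀ l, ∀ i ≤ K, ∀ x, ‖iteratedFDeriv ℝ i (ut γ u l) x‖ ≤ C * δ * M ^ i := by
  have hC : (1 : ℝ) ≤ 4 * 4 ^ K := by
    have := one_le_pow₀ (by norm_num : (1 : ℝ) ≤ 4) (n := K)
    linarith
  refine ⟨4 * 4 ^ K, hC, ?_⟩
  intro γ u δ M h0 h1 hδ hM hu hb l i hi x
  have hM0 : 0 ≤ δ * M ^ i := by positivity
  have h2 : δ * M ^ i ≤ 4 * 4 ^ K * δ * M ^ i := by
    rw [mul_assoc]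
    exact le_mul_of_one_le_left hM0 hC
  fin_cases l
  · change ‖iteratedFDeriv ℝ i (fun x : E3 => u 0 (x - γ • ev 0)) x‖ ≤ 4 * 4 ^ K * δ * M ^ i
    rw [iteratedFDeriv_comp_sub]
    exact (hb 0 i hi _).trans h2
  · change ‖iteratedFDeriv ℝ i (fun x : E3 => u 1 (x - γ • ev 1)) x‖ ≤ 4 * 4 ^ K * δ * M ^ i
    rw [iteratedFDeriv_comp_sub]
    exact (hb 1 i hi _).trans h2
  · change ‖iteratedFDeriv ℝ i (fun x : E3 => u 2 (x - γ • ev 2)) x‖ ≤ 4 * 4 ^ K * δ * M ^ i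
    rw [iteratedFDeriv_comp_sub]
    exact (hb 2 i hi _).trans h2
  · change ‖iteratedFDeriv ℝ i (ut γ u 3) x‖ ≤ 4 * 4 ^ K * δ * M ^ i
    rw [stb_ut3]
    have h3 : (fun x => u 3 (MdI (1 + γ) x)) =
        fun x => u 3 (stb_L (1 + γ) x + ![0, 0, 7 - (1 + γ) ^ 2 * 7]) :=
      funext fun x => by rw [stb_mdI]
    have h4 : ContDiff ℝ smo (fun x => u 3 (MdI (1 + γ) x)) := by
      rw [h3]
      exact (hu 3).comp ((stb_L (1 + γ)).contDiff.add contDiff_const)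
    rw [iteratedFDeriv_const_smul_apply' ((h4.of_le (stb_le i)).contDiffAt), norm_smul, h3,
      Real.norm_of_nonneg (by positivity)]
    have h5 := stb_aff (hu 3) (stb_L (1 + γ)) (stb_norm h0 h1) ![0, 0, 7 - (1 + γ) ^ 2 * 7] i x
    have h6 := hb 3 i hi (stb_L (1 + γ) x + ![0, 0, 7 - (1 + γ) ^ 2 * 7])
    have h7 : (4 : ℝ) ^ i ≤ 4 ^ K := pow_le_pow_right₀ (by norm_num) hi
    have h8 : (1 + γ) ^ 2 ≤ 4 := by nlinarith
    have h9 : ‖iteratedFDeriv ℝ i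
        (fun x => u 3 (stb_L (1 + γ) x + ![0, 0, 7 - (1 + γ) ^ 2 * 7])) x‖ ≤
        δ * M ^ i * 4 ^ K := h5.trans (mul_le_mul h6 h7 (by positivity) hM0)
    have h10 := mul_le_mul h8 h9 (norm_nonneg _) (by norm_num)
    have h11 : 4 * (δ * M ^ i * 4 ^ K) = 4 * 4 ^ K * δ * M ^ i := by ring
    rw [← h11]
    exact h10

/-- the signed generating functions of `(K0)⁻¹ * G_h` -/
noncomputable def kl (γ : ℝ) (u : Fin 4 → E3 → ℝ) (h : E3 → ℝ) : List (Bool × (E3 → ℝ)) :=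
  [(true, ut γ u 3), (false, u 3), (true, ut γ u 2), (false, u 2), (true, ut γ u 1),
    (false, u 1), (true, ut γ u 0), (false, u 0), (true, h)]

theorem kl_prod (S : Std) {γ : ℝ} (h0 : 0 < γ) (h1 : γ ≤ S.g0) {u : Fin 4 → E3 → ℝ}
    (hu : ∀ l, Sm (u l)) (h2 : ∀ l x, x ∉ BX (14 / 5) (14 / 5) → u l x = 0) (h : E3 → ℝ) :
    ((kl γ u h).map gsn).prod = (K0 (fun l => Gp (u l)) (S.T γ))⁻¹ * Gp h := by
  unfold K0
  rw [comm_ut S h0 h1 hu h2 0, comm_ut S h0 h1 hu h2 1, comm_ut S h0 h1 hu h2 2,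
    comm_ut S h0 h1 hu h2 3]
  simp only [kl, List.map_cons, List.map_nil, List.prod_cons, List.prod_nil, gsn, if_true,
    Bool.false_eq_true, if_false, mul_one]
  group

/-- `h = ∑ (u_l - ut_l) - e`, `ham` is linear on differentiable functions. -/
theorem kl_sum {γ : ℝ} {u : Fin 4 → E3 → ℝ} {h e : E3 → ℝ} (hu : ∀ l, ContDiff ℝ smo (u l))
    (he : ContDiff ℝ smo e)
    (eq : ∀ x, h x = (u 0 x - u 0 (x - γ • ev 0)) + (u 1 x - u 1 (x - γ • ev 1)) +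
      (u 2 x - u 2 (x - γ • ev 2)) + (u 3 x - (1 + γ) ^ 2 * u 3 (MdI (1 + γ) x)) - e x)
    (x : E3) : ((kl γ u h).map fun p => xsn p x).sum = - ham e x := by
  have hd : ∀ {w : E3 → ℝ}, ContDiff ℝ smo w → HasFDerivAt w (fderiv ℝ w x) x := fun hw =>
    ((hw.differentiable (by simp [smo])) x).hasFDerivAt
  have D := fun l => hd (hu l)
  have D' := fun l => hd (ut_smooth γ hu l)
  have hh : h = (((u 0 - ut γ u 0) + (u 1 - ut γ u 1)) + (u 2 - ut γ u 2) + (u 3 - ut γ u 3)) - e :=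
    funext eq
  have h1 : fderiv ℝ h x = (((fderiv ℝ (u 0) x - fderiv ℝ (ut γ u 0) x) +
      (fderiv ℝ (u 1) x - fderiv ℝ (ut γ u 1) x)) + (fderiv ℝ (u 2) x - fderiv ℝ (ut γ u 2) x) +
      (fderiv ℝ (u 3) x - fderiv ℝ (ut γ u 3) x)) - fderiv ℝ e x := by
    rw [hh]
    exact (((((D 0).sub (D' 0)).add ((D 1).sub (D' 1))).add ((D 2).sub (D' 2))).add
      ((D 3).sub (D' 3))).sub (hd he) |>.fderiv
  have h2 : ∀ i, pd i h x = (((pd i (u 0) x - pd i (ut γ u 0) x) +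
      (pd i (u 1) x - pd i (ut γ u 1) x)) + (pd i (u 2) x - pd i (ut γ u 2) x) +
      (pd i (u 3) x - pd i (ut γ u 3) x)) - pd i e x := by
    intro i
    unfold pd
    rw [h1]
    rfl
  simp only [kl, List.map_cons, List.map_nil, List.sum_cons, List.sum_nil, xsn, if_true,
    Bool.false_eq_true, if_false, ham, h2]
  module

theorem g_ok {u : Fin 4 → E3 → ℝ} (hu : ∀ l, Sm (u l))
    (h2 : ∀ l x, x ∉ BX (14 / 5) (14 / 5) → u l x = 0) (l : Fin 4) : OkZ B1 (Gp (u l)) := by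
  have h3 := h2
  simp only [BX_eq] at h3
  have h4 := Gp_okZ (hu l) (h3 l)
  rw [← BX_eq] at h4
  exact h4.mono stb_sub

/-- all maps are products of maps `Gp` with supports in `B1` -/
theorem phi_okZ (S : Std) {γ : ℝ} (h0 : 0 < γ) (h1 : γ ≤ S.g0) (h3 : γ ≤ 1 / 14)
    {u : Fin 4 → E3 → ℝ} (hu : ∀ l, Sm (u l)) (hut : ∀ l, Sm (ut γ u l))
    (h2 : ∀ l x, x ∉ BX (14 / 5) (14 / 5) → u l x = 0) {f : Equiv.Perm E3} (hf : OkZ B0 f) :
    OkZ B1 ((K0 (fun l => Gp (u l)) (S.T γ))⁻¹ * f) := by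
  have hB : ∀ l, OkZ B1 (Gp (ut γ u l)) := fun l => by
    have h5 : ∀ x, x ∉ BX 3 3 → ut γ u l x = 0 := ut_off h0 h3 h2 l
    simp only [BX_eq] at h5
    have h4 := Gp_okZ (hut l) h5
    rw [← BX_eq] at h4
    exact h4
  have hC : ∀ l, OkZ B1 (comm (Gp (u l)) (S.T γ l)) := fun l => by
    rw [comm_ut S h0 h1 hu h2 l]
    exact (g_ok hu h2 l).mul (hB l).inv
  have h01 : B0 ⊆ B1 := by
    rintro x ⟨h6, h7, h8⟩
    exact ⟨by linarith, by linarith, by linarith⟩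
  exact ((((hC 0).mul (hC 1)).mul (hC 2)).mul (hC 3)).inv.mul (hf.mono h01)

end Pool.Agent.QM59
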