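import Pool.Agent.Lib.MP_decea1_gt_C.StA
import Pool.Agent.Lib.MP_decea1_gt_C.StB

/-!
# MP_decea1_gt, block C, C4: the smooth part `K0⁻¹ * G_h` is close to the identity

`M = N ^ (5/4)`, `γ = N⁻²`, `|S0| ≤ α`: `|D^i h| ≤ C 2^r M^i α`, `|D^i u_l| ≤ C N² 2^r M^i α`
(`LinSol.bu` with `A = C 2^r M^i α`), the same for `ut` (`ut_bd`), so `δ = C 2^r N² α` in `exp1`,
`expL` (`L = 9`), `kl_sum`.
-/

set_option autoImplicit false

open MeasureTheory Set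

namespace Pool.Agent.QM59

/-- partial sums of the constants -/
private noncomputable def std_sum (c : ℕ → ℝ) (n : ℕ) : ℝ := ∑ j ∈ Finset.range (n + 1), c j

private theorem std_le_sum {c : ℕ → ℝ} (hc : ∀ i, 0 ≤ c i) {j n : ℕ} (hj : j ≤ n) :
    c j ≤ std_sum c n :=
  Finset.single_le_sum (f := c) (fun i _ => hc i) (Finset.mem_range.mpr (by omega))

private theorem std_one_le {c : ℕ → ℝ} (hc : ∀ i, 1 ≤ c i) (n : ℕ) : 1 ≤ std_sum c n :=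
  (hc n).trans (std_le_sum (fun i => zero_le_one.trans (hc i)) le_rfl)

/-- the scale `M` -/
private theorem std_M {N : ℝ} (hN : 1 ≤ N) : 1 ≤ N ^ (5 / 4 : ℝ) :=
  Real.one_le_rpow hN (by norm_num)

/-- all derivatives of `h` up to the order `n` -/
private theorem std_h {cs cl : ℕ → ℝ} {cl' : ℕ → ℕ → ℝ} (hcs : ∀ i, 1 ≤ cs i) {N : ℝ} {r : ℕ}
    {f : Equiv.Perm E3} {S0 h : E3 → ℝ} {u : Fin 4 → E3 → ℝ} {e : E3 → ℝ} {α : ℝ}
    (hc : Con cs cl cl' N r f S0 h u e) (hN : 1 ≤ N) (hα : 0 ≤ α) (hS : ∀ x, |S0 x| ≤ α) (n : ℕ) :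
    ∀ j ≤ n, ∀ x, ‖iteratedFDeriv ℝ j h x‖ ≤
      std_sum cs n * 2 ^ r * (N ^ (5 / 4 : ℝ)) ^ n * α := by
  intro j hj x
  have hM := std_M hN
  refine (hc.s1 j α hS x).trans ?_
  have h1 : cs j ≤ std_sum cs n := std_le_sum (fun i => zero_le_one.trans (hcs i)) hj
  have h2 : (N ^ (5 / 4 : ℝ)) ^ j ≤ (N ^ (5 / 4 : ℝ)) ^ n := pow_le_pow_right₀ hM hj
  have h0 : 0 ≤ std_sum cs n := zero_le_one.trans (std_one_le hcs n)
  gcongr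

private theorem std_le_smo (i : ℕ) : ((i : ℕ∞) : WithTop ℕ∞) ≤ smo := by
  exact_mod_cast (le_top : (i : ℕ∞) ≤ ⊤)

/-- a linear map applied to the derivative -/
private theorem std_lin {W : Type} [NormedAddCommGroup W] [NormedSpace ℝ W]
    (L : (E3 →L[ℝ] ℝ) →L[ℝ] W) {w : E3 → ℝ} (hw : ContDiff ℝ smo w) (i : ℕ) (x : E3) :
    ‖iteratedFDeriv ℝ i (fun y => L (fderiv ℝ w y)) x‖ ≤
      ‖L‖ * ‖iteratedFDeriv ℝ (i + 1) w x‖ := by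
  have hd : ContDiff ℝ smo (fderiv ℝ w) := hw.fderiv_right (m := smo) (by
    exact le_of_eq (by rfl))
  have h1 : iteratedFDeriv ℝ i (fun y => L (fderiv ℝ w y)) x =
      L.compContinuousMultilinearMap (iteratedFDeriv ℝ i (fderiv ℝ w) x) :=
    L.iteratedFDeriv_comp_left (hd.contDiffAt) (std_le_smo i)
  rw [h1]
  refine (L.norm_compContinuousMultilinearMap_le _).trans ?_
  rw [norm_iteratedFDeriv_fderiv]

/-- evaluation at `e_j` -/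
private noncomputable def std_ap (j : Fin 3) : (E3 →L[ℝ] ℝ) →L[ℝ] ℝ :=
  ContinuousLinearMap.apply ℝ ℝ (ev j)

/-- the linear map of `ham` -/
private noncomputable def std_hm : (E3 →L[ℝ] ℝ) →L[ℝ] E3 :=
  (std_ap 1).smulRight (ev 0) - (std_ap 0).smulRight (ev 1)

private theorem std_ham_eq (w : E3 → ℝ) : ham w = fun y => std_hm (fderiv ℝ w y) := by
  funext y
  simp [ham, std_hm, std_ap, pd]

theorem kap_est (cs cl : ℕ → ℝ) (cl' : ℕ → ℕ → ℝ) (hcs : ∀ i, 1 ≤ cs i) (hcl : ∀ i, 1 ≤ cl i)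
    (K : ℕ) (hK : 2 ≤ K) : ∃ C κ : ℝ, 1 ≤ C ∧ 0 < κ ∧
    ∀ (N : ℝ) (r : ℕ) (f : Equiv.Perm E3) (S0 h : E3 → ℝ) (u : Fin 4 → E3 → ℝ) (e : E3 → ℝ)
      (α : ℝ), Con cs cl cl' N r f S0 h u e → 1 ≤ N → 0 ≤ α → (∀ x, |S0 x| ≤ α) →
      (N ^ (5 / 4 : ℝ)) ^ 2 * (2 ^ r * N ^ 2 * α) ≤ κ →
      Sm h ∧ (∀ l, Sm (u l)) ∧ (∀ l, Sm (ut (N⁻¹ ^ 2) u l)) ∧
      (∀ l, ∀ i ≤ K, ∀ x, ‖iteratedFDeriv ℝ i (disp (Gp (u l))) x‖ ≤
        C * (N ^ (5 / 4 : ℝ)) ^ (i + 1) * (2 ^ r * N ^ 2 * α)) ∧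
      ∀ i ≤ K, ∀ x, ‖iteratedFDeriv ℝ i
        (fun y => disp ((kl (N⁻¹ ^ 2) u h).map gsn).prod y + ham e y) x‖ ≤
          C * (N ^ (5 / 4 : ℝ)) ^ (i + 3) * (2 ^ r * N ^ 2 * α) ^ 2 := by
  obtain ⟨Cx, κx, hCx, hκx, hx⟩ := exp1 K hK
  obtain ⟨CL, κL, hCL, hκL, hL⟩ := expL K 9 hK
  obtain ⟨Cu, hCu, hut⟩ := ut_bd (K + 3)
  -- the constant for `u`, `h`
  set c1 : ℕ → ℝ := fun i => cl i * std_sum cs i with hc1
  have hc1' : ∀ i, 1 ≤ c1 i := fun i => by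
    have h1 := std_one_le hcs i
    have h2 := hcl i
    simp only [hc1]
    nlinarith
  have hcs0 : ∀ i, 0 ≤ cs i := fun i => zero_le_one.trans (hcs i)
  have hc10 : ∀ i, 0 ≤ c1 i := fun i => zero_le_one.trans (hc1' i)
  set C1 : ℝ := std_sum c1 (K + 3) with hC1
  have hC11 : 1 ≤ C1 := std_one_le hc1' _
  have hB : 1 ≤ Cu * C1 := by nlinarith
  have hB0 : 0 < Cu * C1 := by linarith
  refine ⟨Cx * (Cu * C1) + CL * (Cu * C1) ^ 2, min κx κL / (Cu * C1), ?_, ?_, ?_⟩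
  · have h1 : 1 ≤ Cx * (Cu * C1) := by nlinarith
    have h2 : 0 ≤ CL * (Cu * C1) ^ 2 := by positivity
    linarith
  · exact div_pos (lt_min hκx hκL) hB0
  intro N r f S0 h u e α hc hN hα hS hκ
  have hM : 1 ≤ N ^ (5 / 4 : ℝ) := std_M hN
  set M : ℝ := N ^ (5 / 4 : ℝ) with hMdef
  have hM0 : 0 ≤ M := zero_le_one.trans hM
  have hN0 : 0 < N := by linarith
  have hN2 : 1 ≤ N ^ 2 := one_le_pow₀ hN
  have hγ0 : 0 < N⁻¹ ^ 2 := by positivity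
  have hγ1 : N⁻¹ ^ 2 ≤ 1 := pow_le_one₀ (by positivity) (inv_le_one_of_one_le₀ hN)
  have hγi : (N⁻¹ ^ 2)⁻¹ = N ^ 2 := by rw [inv_pow, inv_inv]
  set d : ℝ := 2 ^ r * N ^ 2 * α with hd
  have hd0 : 0 ≤ d := by positivity
  have hdh : 2 ^ r * α ≤ d := by
    have h1 : 0 ≤ 2 ^ r * α := by positivity
    have h2 : d = (2 ^ r * α) * N ^ 2 := by rw [hd]; ring
    rw [h2]
    nlinarith
  -- bounds
  have bu : ∀ l, ∀ i ≤ K + 3, ∀ x, ‖iteratedFDeriv ℝ i (u l) x‖ ≤ C1 * d * M ^ i := by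
    intro l i hi x
    refine (hc.lin.bu i _ (std_h hcs hc hN hα hS i) l x).trans ?_
    rw [hγi, ← hMdef]
    have h1 : c1 i ≤ C1 := std_le_sum hc10 hi
    have h2 : cl i * N ^ 2 * (std_sum cs i * 2 ^ r * M ^ i * α) = c1 i * d * M ^ i := by
      rw [hd, hc1]; ring
    rw [h2]
    gcongr
  have bh : ∀ i ≤ K + 3, ∀ x, ‖iteratedFDeriv ℝ i h x‖ ≤ C1 * d * M ^ i := by
    intro i hi x
    refine (hc.s1 i α hS x).trans ?_
    rw [← hMdef]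
    have h1 : c1 i ≤ C1 := std_le_sum hc10 hi
    have h2 : cs i ≤ c1 i := by
      have h3 : cs i ≤ std_sum cs i := std_le_sum hcs0 le_rfl
      have h4 := hcl i
      have h5 : 0 ≤ std_sum cs i := zero_le_one.trans (std_one_le hcs i)
      simp only [hc1]
      nlinarith
    calc cs i * 2 ^ r * M ^ i * α = cs i * (2 ^ r * α) * M ^ i := by ring
      _ ≤ C1 * d * M ^ i := by
        have h6 : cs i ≤ C1 := h2.trans h1
        have h7 : 0 ≤ C1 := by linarith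
        gcongr
  have hC1d : 0 ≤ C1 * d := by positivity
  have but : ∀ l, ∀ i ≤ K + 3, ∀ x, ‖iteratedFDeriv ℝ i (ut (N⁻¹ ^ 2) u l) x‖ ≤
      Cu * C1 * d * M ^ i := by
    intro l i hi x
    have h1 := hut (N⁻¹ ^ 2) u (C1 * d) M hγ0 hγ1 hC1d hM hc.lin.su bu l i hi x
    rwa [← mul_assoc] at h1
  have hup : ∀ (i : ℕ), C1 * d * M ^ i ≤ Cu * C1 * d * M ^ i := by
    intro i
    have h1 : 0 ≤ C1 * d * M ^ i := by positivity
    have h2 : Cu * C1 * d * M ^ i = Cu * (C1 * d * M ^ i) := by ring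
    rw [h2]
    nlinarith
  have bu' : ∀ l, ∀ i ≤ K + 3, ∀ x, ‖iteratedFDeriv ℝ i (u l) x‖ ≤ Cu * C1 * d * M ^ i :=
    fun l i hi x => (bu l i hi x).trans (hup i)
  have bh' : ∀ i ≤ K + 3, ∀ x, ‖iteratedFDeriv ℝ i h x‖ ≤ Cu * C1 * d * M ^ i :=
    fun i hi x => (bh i hi x).trans (hup i)
  have hδ0 : 0 ≤ Cu * C1 * d := by positivity
  have hk : M ^ 2 * (Cu * C1 * d) ≤ min κx κL := by
    have h1 : M ^ 2 * (Cu * C1 * d) = (M ^ 2 * d) * (Cu * C1) := by ring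
    rw [h1, ← le_div_iff₀ hB0]
    exact hκ
  have hk1 := hk.trans (min_le_left _ _)
  have hk2 := hk.trans (min_le_right _ _)
  have hus := hc.lin.su
  have huts : ∀ l, ContDiff ℝ smo (ut (N⁻¹ ^ 2) u l) := ut_smooth _ hus
  have x1 := fun l => hx (true, u l) M (Cu * C1 * d) (hus l) hM hδ0 hk1 (bu' l)
  have x2 := fun l => hx (true, ut (N⁻¹ ^ 2) u l) M (Cu * C1 * d) (huts l) hM hδ0 hk1 (but l)
  have x3 := hx (true, h) M (Cu * C1 * d) hc.sh hM hδ0 hk1 bh'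
  refine ⟨x3.1, fun l => (x1 l).1, fun l => (x2 l).1, ?_, ?_⟩
  · intro l i hi x
    have h1 := (x1 l).2.2 i (by omega) x
    have h2 : gsn (true, u l) = Gp (u l) := by simp [gsn]
    rw [h2] at h1
    refine h1.trans ?_
    have h3 : 0 ≤ CL * (Cu * C1) ^ 2 * M ^ (i + 1) * d := by positivity
    have h4 : (Cx * (Cu * C1) + CL * (Cu * C1) ^ 2) * M ^ (i + 1) * d =
        Cx * M ^ (i + 1) * (Cu * C1 * d) + CL * (Cu * C1) ^ 2 * M ^ (i + 1) * d := by ring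
    rw [h4]
    linarith
  · intro i hi x
    have hl : (kl (N⁻¹ ^ 2) u h).length ≤ 9 := by simp [kl]
    have hmem : ∀ p ∈ kl (N⁻¹ ^ 2) u h, ContDiff ℝ smo p.2 ∧
        ∀ i ≤ K + 3, ∀ x, ‖iteratedFDeriv ℝ i p.2 x‖ ≤ Cu * C1 * d * M ^ i := by
      intro p hp
      simp only [kl, List.mem_cons, List.not_mem_nil, or_false] at hp
      rcases hp with rfl | rfl | rfl | rfl | rfl | rfl | rfl | rfl | rfl
      · exact ⟨huts 3, but 3⟩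
      · exact ⟨hus 3, bu' 3⟩
      · exact ⟨huts 2, but 2⟩
      · exact ⟨hus 2, bu' 2⟩
      · exact ⟨huts 1, but 1⟩
      · exact ⟨hus 1, bu' 1⟩
      · exact ⟨huts 0, but 0⟩
      · exact ⟨hus 0, bu' 0⟩
      · exact ⟨hc.sh, bh'⟩
    have h1 := hL (kl (N⁻¹ ^ 2) u h) M (Cu * C1 * d) hl hM hδ0 hk2 hmem i hi x
    have h2 : (fun y => disp ((kl (N⁻¹ ^ 2) u h).map gsn).prod y -
        ((kl (N⁻¹ ^ 2) u h).map fun p => xsn p y).sum) =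
        fun y => disp ((kl (N⁻¹ ^ 2) u h).map gsn).prod y + ham e y := by
      funext y
      rw [kl_sum hus hc.lin.se hc.lin.eq y, sub_neg_eq_add]
    rw [h2] at h1
    refine h1.trans ?_
    have h3 : 0 ≤ Cx * (Cu * C1) * M ^ (i + 3) * d ^ 2 := by positivity
    have h4 : (Cx * (Cu * C1) + CL * (Cu * C1) ^ 2) * M ^ (i + 3) * d ^ 2 =
        CL * M ^ (i + 3) * (Cu * C1 * d) ^ 2 + Cx * (Cu * C1) * M ^ (i + 3) * d ^ 2 := by ring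
    rw [h4]
    linarith

/-- `LinSol.be` with `A = max_j (cs j) 2^r M^(i+1+s) α` (`j ≤ i + 1 + s`), and
`‖D^i (pd l e)‖ ≤ ‖D^(i+1) e‖`. -/
theorem ham_est (cs cl : ℕ → ℝ) (cl' : ℕ → ℕ → ℝ) (hcs : ∀ i, 1 ≤ cs i)
    (hcl' : ∀ i s, 1 ≤ cl' i s) (K s : ℕ) : ∃ C : ℝ, 1 ≤ C ∧
    ∀ (N : ℝ) (r : ℕ) (f : Equiv.Perm E3) (S0 h : E3 → ℝ) (u : Fin 4 → E3 → ℝ) (e : E3 → ℝ)
      (α : ℝ), Con cs cl cl' N r f S0 h u e → 1 ≤ N → 0 ≤ α → (∀ x, |S0 x| ≤ α) →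
      ∀ i ≤ K, ∀ x, ‖iteratedFDeriv ℝ i (ham e) x‖ ≤
        C * (N⁻¹ ^ 2) ^ s * N ^ 2 * 2 ^ r * (N ^ (5 / 4 : ℝ)) ^ (i + 1 + s) * α := by
  set H : ℝ := ‖std_hm‖ + 1 with hH
  have hH1 : 1 ≤ H := by
    have := norm_nonneg std_hm
    linarith
  set c1 : ℕ → ℝ := fun i => H * cl' (i + 1) s * std_sum cs (i + 1 + s) with hc1
  have hc1' : ∀ i, 1 ≤ c1 i := fun i => by
    have h1 := std_one_le hcs (i + 1 + s)
    have h2 := hcl' (i + 1) s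
    have h3 : 1 ≤ H * cl' (i + 1) s := by nlinarith
    simp only [hc1]
    nlinarith
  have hc10 : ∀ i, 0 ≤ c1 i := fun i => zero_le_one.trans (hc1' i)
  refine ⟨std_sum c1 K, std_one_le hc1' K, ?_⟩
  intro N r f S0 h u e α hc hN hα hS i hi x
  have hM : 1 ≤ N ^ (5 / 4 : ℝ) := std_M hN
  have h1 := hc.lin.be (i + 1) s _ (std_h hcs hc hN hα hS (i + 1 + s)) x
  have hγi : (N⁻¹ ^ 2)⁻¹ = N ^ 2 := by rw [inv_pow, inv_inv]
  rw [hγi] at h1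
  rw [std_ham_eq]
  refine (std_lin std_hm hc.lin.se i x).trans ?_
  have h2 : ‖std_hm‖ ≤ H := by linarith
  have hN0 : 0 < N := by linarith
  have h3 : c1 i ≤ std_sum c1 K := std_le_sum hc10 hi
  calc ‖std_hm‖ * ‖iteratedFDeriv ℝ (i + 1) e x‖ ≤
      H * (cl' (i + 1) s * (N⁻¹ ^ 2) ^ s * N ^ 2 *
        (std_sum cs (i + 1 + s) * 2 ^ r * (N ^ (5 / 4 : ℝ)) ^ (i + 1 + s) * α)) :=
        mul_le_mul h2 h1 (norm_nonneg _) (by linarith)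
    _ = c1 i * ((N⁻¹ ^ 2) ^ s * N ^ 2 * 2 ^ r * (N ^ (5 / 4 : ℝ)) ^ (i + 1 + s) * α) := by
        simp only [hc1]; ring
    _ ≤ std_sum c1 K * ((N⁻¹ ^ 2) ^ s * N ^ 2 * 2 ^ r * (N ^ (5 / 4 : ℝ)) ^ (i + 1 + s) * α) :=
        mul_le_mul_of_nonneg_right h3 (by positivity)
    _ = std_sum c1 K * (N⁻¹ ^ 2) ^ s * N ^ 2 * 2 ^ r * (N ^ (5 / 4 : ℝ)) ^ (i + 1 + s) * α := by
        ring

end Pool.Agent.QM59
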