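import Pool.Agent.Lib.MP_decea1_gt_C.StA
import Pool.Agent.Lib.MP_decea1_gt_C.GInvE
import Pool.Agent.Lib.MP_decea1_gt_C.Rough

/-!
# MP_decea1_gt, block C, C4: the rough part `G_h⁻¹ * f`
-/

set_option autoImplicit false

open MeasureTheory Set

namespace Pool.Agent.QM59

/-- `gen_bd`, and `int_bd` with `L = 2`, level `0`. -/
theorem S0_est (K : ℕ) (hK : 2 ≤ K) : ∃ C κ : ℝ, 1 ≤ C ∧ 0 < κ ∧
    ∀ (cs cl : ℕ → ℝ) (cl' : ℕ → ℕ → ℝ) (N : ℝ) (r : ℕ) (f : Equiv.Perm E3) (S0 h : E3 → ℝ)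
      (u : Fin 4 → E3 → ℝ) (e : E3 → ℝ) (η c : ℝ), Con cs cl cl' N r f S0 h u e → 1 ≤ N →
      0 < η → η ≤ 1 → 0 ≤ c → N * c ≤ κ → Bd K N η c (disp f) →
      (∀ x, |S0 x| ≤ C * c) ∧ Bd K N η (C * c) (pd 0 S0) ∧ Bd K N η (C * c) (pd 1 S0) := by
  obtain ⟨C, κ, hC, hκ, hg⟩ := gen_bd K hK
  refine ⟨2 * C, κ, by linarith, hκ, ?_⟩
  intro cs cl cl' N r f S0 h u e η c H hN hη h1 hc hNc hb
  have hN0 : (0 : ℝ) ≤ N := by linarith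
  obtain ⟨b0, b1⟩ := hg f S0 N η c H.okf.dif H.small H.sS.smooth H.p0 H.p1 hN hη h1 hc hNc hb
  have hle : C * c ≤ 2 * C * c := by nlinarith
  refine ⟨fun x => ?_, b0.mono_c hN0 hle, b1.mono_c hN0 hle⟩
  have h0 : ∀ x, x ∉ Icc (![-1, -1, 7 - 1] : E3) ![1, 1, 7 + 1] → S0 x = 0 := by
    intro x hx
    exact H.S0off x (by rw [BX_eq]; exact hx)
  have h2 := int_bd 2 (by norm_num) (lo := ![-1, -1, 7 - 1]) (hi := ![1, 1, 7 + 1])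
    (by simp; norm_num) hη.le H.sS.smooth h0 b0
  have h3 := h2.1 0 (by omega) x
  rw [norm_iteratedFDeriv_zero, Real.norm_eq_abs, pow_zero, mul_one] at h3
  linarith

private theorem stf_pd_sub {h h' : E3 → ℝ} (hh : ContDiff ℝ smo h) (hh' : ContDiff ℝ smo h')
    (i : Fin 3) : pd i (fun x => h x - h' x) = fun x => pd i h x - pd i h' x := by
  funext x
  unfold pd
  rw [fderiv_fun_sub ((hh.differentiable (by simp)) x) ((hh'.differentiable (by simp)) x)]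
  rfl

/-- exponents, levels below `K` -/
private theorem stf_exp {N : ℝ} (hN : 1 ≤ N) {i k : ℕ} (hi : i ≤ k) :
    ((N ^ (5 / 4 : ℝ))⁻¹) ^ (k - i) * N ^ k ≤ N ^ (-(k : ℝ) / 4) * (N ^ (3 / 2 : ℝ)) ^ i := by
  have hN0 : (0 : ℝ) < N := by linarith
  have e1 : ((N ^ (5 / 4 : ℝ))⁻¹) ^ (k - i) * N ^ k =
      N ^ (-(5 / 4 : ℝ) * ((k : ℝ) - i) + k) := by
    rw [Real.rpow_add hN0, Real.rpow_natCast, ← Real.rpow_neg hN0.le, Real.rpow_mul hN0.le,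
      ← Nat.cast_sub hi, Real.rpow_natCast]
  have e2 : N ^ (-(k : ℝ) / 4) * (N ^ (3 / 2 : ℝ)) ^ i = N ^ (-(k : ℝ) / 4 + 3 / 2 * (i : ℝ)) := by
    rw [Real.rpow_add hN0, Real.rpow_mul hN0.le, Real.rpow_natCast]
  rw [e1, e2]
  refine Real.rpow_le_rpow_of_exponent_le hN ?_
  have hi0 : (0 : ℝ) ≤ i := Nat.cast_nonneg i
  linarith

/-- exponents, level `K` -/
private theorem stf_exp' {N : ℝ} (hN : 1 ≤ N) (K : ℕ) :
    N ^ K ≤ N ^ (-((K : ℝ) - 1) / 4) * (N ^ (3 / 2 : ℝ)) ^ K := by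
  have hN0 : (0 : ℝ) < N := by linarith
  have e1 : N ^ K = N ^ (K : ℝ) := (Real.rpow_natCast N K).symm
  have e2 : N ^ (-((K : ℝ) - 1) / 4) * (N ^ (3 / 2 : ℝ)) ^ K =
      N ^ (-((K : ℝ) - 1) / 4 + 3 / 2 * (K : ℝ)) := by
    rw [Real.rpow_add hN0, Real.rpow_mul hN0.le, Real.rpow_natCast]
  rw [e1, e2]
  refine Real.rpow_le_rpow_of_exponent_le hN ?_
  have hK0 : (0 : ℝ) ≤ K := Nat.cast_nonneg K
  linarith

/-- `Con.s3` with `k = K - 1` for the levels `i ≤ K - 1`, and `k = K` for the level `K`. Exponents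
of `N`: `-(5/4) (K - 1 - i) + (K - 1) ≤ -(K - 1) / 4 + (3/2) i`, `K ≤ -(K - 1) / 4 + (3/2) K`. -/
theorem hp_est {cs cl : ℕ → ℝ} {cl' : ℕ → ℕ → ℝ} {N : ℝ} {r : ℕ} {f : Equiv.Perm E3}
    {S0 h : E3 → ℝ} {u : Fin 4 → E3 → ℝ} {e : E3 → ℝ} (H : Con cs cl cl' N r f S0 h u e)
    (hN : 1 ≤ N) {K : ℕ} (hK : 1 ≤ K) (hr : K ≤ r + 1) {η b : ℝ} (hη : 0 < η) (h1 : η ≤ 1)
    (hb : 0 ≤ b) (l : Fin 3) (hS : Bd K N η b (pd l S0)) :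
    Bd K (N ^ (3 / 2 : ℝ)) η (2 ^ r * N ^ (-((K : ℝ) - 1) / 4) * b)
      (pd l fun x => S0 x - h x) := by
  have _ := h1
  rw [stf_pd_sub H.sS.smooth H.sh l]
  obtain ⟨k, rfl⟩ : ∃ k, K = k + 1 := ⟨K - 1, by omega⟩
  have hc : ((k + 1 : ℕ) : ℝ) - 1 = k := by push_cast; ring
  refine ⟨fun i hi x => ?_, fun x => ?_⟩
  · have h2 := H.s3 l i k (b * N ^ k) (by omega) (by omega) (fun y => hS.1 k (by omega) y) x
    refine h2.trans ?_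
    rw [hc]
    calc 2 ^ r * ((N ^ (5 / 4 : ℝ))⁻¹) ^ (k - i) * (b * N ^ k)
        = 2 ^ r * b * (((N ^ (5 / 4 : ℝ))⁻¹) ^ (k - i) * N ^ k) := by ring
      _ ≤ 2 ^ r * b * (N ^ (-(k : ℝ) / 4) * (N ^ (3 / 2 : ℝ)) ^ i) :=
          mul_le_mul_of_nonneg_left (stf_exp hN (by omega)) (by positivity)
      _ = 2 ^ r * N ^ (-(k : ℝ) / 4) * b * (N ^ (3 / 2 : ℝ)) ^ i := by ring
  · have h2 := H.s3 l (k + 1) (k + 1) (b * N ^ (k + 1) / η) le_rfl (by omega)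
      (fun y => by rw [le_div_iff₀ hη, mul_comm]; exact hS.2 y) x
    rw [Nat.sub_self, pow_zero, mul_one] at h2
    refine (mul_le_mul_of_nonneg_left h2 hη.le).trans ?_
    calc η * (2 ^ r * (b * N ^ (k + 1) / η)) = 2 ^ r * b * N ^ (k + 1) := by field_simp
      _ ≤ 2 ^ r * b * (N ^ (-(((k + 1 : ℕ) : ℝ) - 1) / 4) * (N ^ (3 / 2 : ℝ)) ^ (k + 1)) :=
          mul_le_mul_of_nonneg_left (stf_exp' hN (k + 1)) (by positivity)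
      _ = 2 ^ r * N ^ (-(((k + 1 : ℕ) : ℝ) - 1) / 4) * b * (N ^ (3 / 2 : ℝ)) ^ (k + 1) := by ring

/-- `rough` at scale `N ^ (3/2)` with `θ = C 2^r b` (`Con.s1`, `M ≤ N ^ (3/2)`) and
`a = 2^r N^(-(K-1)/4) b ≤ 2^r b`; `h + (S0 - h) = S0`. -/
theorem rho_est (cs : ℕ → ℝ) (hcs : ∀ i, 1 ≤ cs i) (K : ℕ) (hK : 2 ≤ K) : ∃ C κ : ℝ, 1 ≤ C ∧
    0 < κ ∧
    ∀ (cl : ℕ → ℝ) (cl' : ℕ → ℕ → ℝ) (N : ℝ) (r : ℕ) (f : Equiv.Perm E3) (S0 h : E3 → ℝ)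
      (u : Fin 4 → E3 → ℝ) (e : E3 → ℝ) (η b : ℝ), Con cs cl cl' N r f S0 h u e → 1 ≤ N →
      K ≤ r + 1 → 0 < η → η ≤ 1 → 0 ≤ b → (∀ x, |S0 x| ≤ b) → Bd K N η b (pd 0 S0) →
      Bd K N η b (pd 1 S0) → (N ^ (3 / 2 : ℝ)) ^ 2 * (2 ^ r * b) ≤ κ →
      Bd K (N ^ (3 / 2 : ℝ)) η (C * (2 ^ r * N ^ (-((K : ℝ) - 1) / 4) * b))
        (disp ((Gp h)⁻¹ * f)) := by
  obtain ⟨C, κ, hC, hκ, hr⟩ := rough K hK
  have hpos : ∀ i, 0 ≤ cs i := fun i => by linarith [hcs i]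
  obtain ⟨D, hD⟩ : ∃ D, D = ∑ i ∈ Finset.range (K + 4), cs i := ⟨_, rfl⟩
  have hDi : ∀ i ≤ K + 3, cs i ≤ D := by
    intro i hi
    rw [hD]
    exact Finset.single_le_sum (fun j _ => hpos j) (Finset.mem_range.2 (by omega))
  have hD1 : 1 ≤ D := (hcs 0).trans (hDi 0 (by omega))
  have hD0 : 0 < D := by linarith
  refine ⟨C, κ / D, hC, by positivity, ?_⟩
  intro cl cl' N r f S0 h u e η b H hN hKr hη h1 hb hS0 hb0 hb1 hsm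
  have hN0 : (0 : ℝ) < N := by linarith
  have hN1 : 1 ≤ N ^ (3 / 2 : ℝ) := Real.one_le_rpow hN (by norm_num)
  rw [le_div_iff₀ hD0] at hsm
  have ha : 0 ≤ 2 ^ r * N ^ (-((K : ℝ) - 1) / 4) * b := by positivity
  have hK2 : (2 : ℝ) ≤ K := by exact_mod_cast hK
  have ha1 : 2 ^ r * N ^ (-((K : ℝ) - 1) / 4) * b ≤ 2 ^ r * b := by
    have h2 : N ^ (-((K : ℝ) - 1) / 4) ≤ 1 :=
      Real.rpow_le_one_of_one_le_of_nonpos hN (by linarith)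
    calc 2 ^ r * N ^ (-((K : ℝ) - 1) / 4) * b ≤ 2 ^ r * 1 * b := by gcongr
      _ = 2 ^ r * b := by ring
  have hnn : 0 ≤ (N ^ (3 / 2 : ℝ)) ^ 2 * (2 ^ r * b) := by positivity
  have hX : ContDiff ℝ smo fun x => S0 x - h x := H.sS.smooth.sub H.sh
  obtain ⟨-, -, h3⟩ := hr h (fun x => S0 x - h x) (N ^ (3 / 2 : ℝ)) η (D * (2 ^ r * b))
    (2 ^ r * N ^ (-((K : ℝ) - 1) / 4) * b) H.sh hX hN1 hη h1 (by positivity) ha
    (by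
      calc (N ^ (3 / 2 : ℝ)) ^ 2 * (D * (2 ^ r * b))
          = (N ^ (3 / 2 : ℝ)) ^ 2 * (2 ^ r * b) * D := by ring
        _ ≤ κ := hsm)
    (by
      calc N ^ (3 / 2 : ℝ) * (2 ^ r * N ^ (-((K : ℝ) - 1) / 4) * b)
          ≤ (N ^ (3 / 2 : ℝ)) ^ 2 * (2 ^ r * b) :=
            mul_le_mul (le_self_pow₀ hN1 (by norm_num)) ha1 ha (by positivity)
        _ ≤ (N ^ (3 / 2 : ℝ)) ^ 2 * (2 ^ r * b) * D := le_mul_of_one_le_right hnn hD1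
        _ ≤ κ := hsm)
    (by
      intro i hi x
      refine (H.s1 i b hS0 x).trans ?_
      have h4 : N ^ (5 / 4 : ℝ) ≤ N ^ (3 / 2 : ℝ) :=
        Real.rpow_le_rpow_of_exponent_le hN (by norm_num)
      calc cs i * 2 ^ r * (N ^ (5 / 4 : ℝ)) ^ i * b
          ≤ D * 2 ^ r * (N ^ (3 / 2 : ℝ)) ^ i * b := by
            have := hDi i hi
            gcongr
        _ = D * (2 ^ r * b) * (N ^ (3 / 2 : ℝ)) ^ i := by ring)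
    (hp_est H hN (by omega) hKr hη h1 hb 0 hb0) (hp_est H hN (by omega) hKr hη h1 hb 1 hb1)
  have h5 : (fun x => h x + (S0 x - h x)) = S0 := by
    funext x
    ring
  rw [h5, ← H.fS] at h3
  exact h3

end Pool.Agent.QM59
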