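import Pool.Agent.Lib.MP_decea1_gt_C.StF

/-!
# MP_decea1_gt, block C, C4: the estimates with powers of `N`
-/

set_option autoImplicit false

open MeasureTheory Set

namespace Pool.Agent.QM59

/-- `S0_est` with `c = N ^ (-q)`, `N * c ≤ N ^ (-39) ≤ κ`. -/
theorem S0_pow (K : ℕ) (hK : 2 ≤ K) (q : ℝ) (hq : 40 ≤ q) : ∃ C N0 : ℝ, 1 ≤ C ∧ 1 ≤ N0 ∧
    ∀ (cs cl : ℕ → ℝ) (cl' : ℕ → ℕ → ℝ) (N : ℝ) (r : ℕ) (f : Equiv.Perm E3) (S0 h : E3 → ℝ)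
      (u : Fin 4 → E3 → ℝ) (e : E3 → ℝ) (η : ℝ), Con cs cl cl' N r f S0 h u e → N0 ≤ N →
      0 < η → η ≤ 1 → Bd K N η (N ^ (-q)) (disp f) →
      (∀ x, |S0 x| ≤ C * N ^ (-q)) ∧ Bd K N η (C * N ^ (-q)) (pd 0 S0) ∧
        Bd K N η (C * N ^ (-q)) (pd 1 S0) := by
  obtain ⟨C, κ, hC, hκ, h⟩ := S0_est K hK
  refine ⟨C, max 1 κ⁻¹, hC, le_max_left _ _, ?_⟩
  intro cs cl cl' N r f S0 h' u e η H hN hη h1 hb
  have hN1 : 1 ≤ N := (le_max_left _ _).trans hN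
  have hN0 : 0 < N := by linarith
  have h2 : κ⁻¹ ≤ N := (le_max_right _ _).trans hN
  refine h cs cl cl' N r f S0 h' u e η (N ^ (-q)) H hN1 hη h1 (Real.rpow_nonneg hN0.le _) ?_ hb
  calc N * N ^ (-q) = N ^ (1 + -q) := by rw [Real.rpow_add hN0, Real.rpow_one]
    _ ≤ N ^ (-1 : ℝ) := Real.rpow_le_rpow_of_exponent_le hN1 (by linarith)
    _ = N⁻¹ := Real.rpow_neg_one N
    _ ≤ κ := inv_le_of_inv_le₀ hκ h2

/-- `rho_est` with `b = C N ^ (-q)`: `1/24 - (K - 1)/4 - q ≤ 1/24 - 29/4 - 7/4 q`. -/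
theorem rho_pow (cs : ℕ → ℝ) (hcs : ∀ i, 1 ≤ cs i) (K : ℕ) (q : ℝ) (hq : 40 ≤ q)
    (hK : 3 * q + 30 ≤ K) : ∃ N0 : ℝ, 1 ≤ N0 ∧
    ∀ (cl : ℕ → ℝ) (cl' : ℕ → ℕ → ℝ) (N : ℝ) (r : ℕ) (f : Equiv.Perm E3) (S0 h : E3 → ℝ)
      (u : Fin 4 → E3 → ℝ) (e : E3 → ℝ) (η : ℝ), Con cs cl cl' N r f S0 h u e → N0 ≤ N →
      (8 : ℝ) ^ r ≤ N ^ (1 / 8 : ℝ) → K ≤ r + 1 → 0 < η → η ≤ 1 →
      Bd K N η (N ^ (-q)) (disp f) →
      Bd K (N ^ (3 / 2 : ℝ)) η (N ^ (-(7 / 4 * q) - 2)) (disp ((Gp h)⁻¹ * f)) := by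
  have hK2 : 2 ≤ K := by
    have h1 : (2 : ℝ) ≤ K := by linarith
    exact_mod_cast h1
  obtain ⟨C1, N1, hC1, hN1, h1⟩ := S0_pow K hK2 q hq
  obtain ⟨C2, κ, hC2, hκ, h2⟩ := rho_est cs hcs K hK2
  have hC10 : 0 < C1 := by linarith
  have hC20 : 0 < C2 := by linarith
  refine ⟨max N1 (max (C1 / κ) (C1 * C2)), hN1.trans (le_max_left _ _), ?_⟩
  intro cl cl' N r f S0 h u e η H hN hr hKr hη hη1 hb
  have a1 : N1 ≤ N := (le_max_left _ _).trans hN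
  have a2 : C1 / κ ≤ N := (le_max_left _ _).trans ((le_max_right _ _).trans hN)
  have a3 : C1 * C2 ≤ N := (le_max_right _ _).trans ((le_max_right _ _).trans hN)
  have hN1' : 1 ≤ N := hN1.trans a1
  have hN0 : 0 < N := by linarith
  obtain ⟨b1, b2, b3⟩ := h1 cs cl cl' N r f S0 h u e η H a1 hη hη1 hb
  have h2r : (2 : ℝ) ^ r ≤ N ^ (1 / 8 : ℝ) :=
    (pow_le_pow_left₀ (by norm_num) (by norm_num) r).trans hr
  have hq0 : 0 < N ^ (-q) := Real.rpow_pos_of_pos hN0 _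
  have c1 : (N ^ (3 / 2 : ℝ)) ^ 2 * (2 ^ r * (C1 * N ^ (-q))) ≤ κ := by
    have e1 : (N ^ (3 / 2 : ℝ)) ^ 2 = N ^ (3 : ℝ) := by
      rw [← Real.rpow_natCast, ← Real.rpow_mul hN0.le]
      norm_num
    rw [e1]
    calc N ^ (3 : ℝ) * (2 ^ r * (C1 * N ^ (-q)))
        ≤ N ^ (3 : ℝ) * (N ^ (1 / 8 : ℝ) * (C1 * N ^ (-q))) := by gcongr
      _ = C1 * N ^ (3 + 1 / 8 + -q) := by
          rw [Real.rpow_add hN0, Real.rpow_add hN0]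
          ring
      _ ≤ C1 * N ^ (-1 : ℝ) := by
          refine mul_le_mul_of_nonneg_left ?_ hC10.le
          exact Real.rpow_le_rpow_of_exponent_le hN1' (by linarith)
      _ = C1 / N := by rw [Real.rpow_neg_one, div_eq_mul_inv]
      _ ≤ κ := by
          rw [div_le_iff₀ hκ] at a2
          rw [div_le_iff₀ hN0]
          linarith
  have h3 := h2 cl cl' N r f S0 h u e η (C1 * N ^ (-q)) H hN1' hKr hη hη1 (by positivity)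
    b1 b2 b3 c1
  refine h3.mono (Real.rpow_nonneg hN0.le _) ?_
  calc C2 * (2 ^ r * N ^ (-((K : ℝ) - 1) / 4) * (C1 * N ^ (-q)))
      ≤ C2 * (N ^ (1 / 8 : ℝ) * N ^ (-((K : ℝ) - 1) / 4) * (C1 * N ^ (-q))) := by gcongr
    _ = C1 * C2 * N ^ (1 / 8 + -((K : ℝ) - 1) / 4 + -q) := by
        rw [Real.rpow_add hN0, Real.rpow_add hN0]
        ring
    _ ≤ N ^ (1 : ℝ) * N ^ (1 / 8 + -((K : ℝ) - 1) / 4 + -q) := by
        refine mul_le_mul_of_nonneg_right ?_ (Real.rpow_nonneg hN0.le _)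
        rwa [Real.rpow_one]
    _ = N ^ (1 + (1 / 8 + -((K : ℝ) - 1) / 4 + -q)) := (Real.rpow_add hN0 _ _).symm
    _ ≤ N ^ (-(7 / 4 * q) - 2) :=
        Real.rpow_le_rpow_of_exponent_le hN1' (by linarith)

end Pool.Agent.QM59
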