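import Pool.Agent.Lib.MP_decea1_gt_C.StG
import Pool.Agent.Lib.MP_decea1_gt_C.StD
import Pool.Agent.Lib.MP_decea1_gt_C.NNx

/-!
# MP_decea1_gt, block C, C4: the estimates for the smooth part and for the residual map
-/

set_option autoImplicit false

open MeasureTheory Set

namespace Pool.Agent.QM59

private theorem sth_pp {N : ℝ} (hN : 0 < N) (a : ℝ) (n : ℕ) : (N ^ a) ^ n = N ^ (a * n) := by
  rw [← Real.rpow_natCast, ← Real.rpow_mul hN.le]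

private theorem sth_n2 {N : ℝ} : N ^ 2 = N ^ (2 : ℝ) := by
  rw [← Real.rpow_natCast]
  norm_num

private theorem sth_inv {N : ℝ} (hN : 0 < N) (s : ℕ) :
    (N⁻¹ ^ 2) ^ s = N ^ (-(2 * (s : ℝ))) := by
  rw [← pow_mul, inv_pow, ← Real.rpow_natCast, ← Real.rpow_neg hN.le]
  push_cast
  rfl

/-- `A ≤ N ^ a` and `a + x ≤ y` give `A * N ^ x ≤ N ^ y` -/
private theorem sth_le {N A a x y : ℝ} (hN : 1 ≤ N) (h : A ≤ N ^ a) (hy : a + x ≤ y) :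
    A * N ^ x ≤ N ^ y := by
  have h0 : 0 < N := by linarith
  calc A * N ^ x ≤ N ^ a * N ^ x :=
        mul_le_mul_of_nonneg_right h (Real.rpow_nonneg h0.le _)
    _ = N ^ (a + x) := (Real.rpow_add h0 _ _).symm
    _ ≤ N ^ y := Real.rpow_le_rpow_of_exponent_le hN hy

private theorem sth_i1 {N C q : ℝ} (hN : 0 < N) (r : ℕ) :
    (N ^ (5 / 4 : ℝ)) ^ 2 * (2 ^ r * N ^ 2 * (C * N ^ (-q))) =
      (C * 2 ^ r) * N ^ (9 / 2 - q) := by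
  rw [sth_pp hN, sth_n2 (N := N)]
  have h1 : N ^ (9 / 2 - q) = N ^ (5 / 4 * ((2 : ℕ) : ℝ)) * N ^ (2 : ℝ) * N ^ (-q) := by
    rw [← Real.rpow_add hN, ← Real.rpow_add hN]
    congr 1
    push_cast
    ring
  rw [h1]
  ring

private theorem sth_i2 {N C C' q : ℝ} (hN : 0 < N) (r i : ℕ) :
    C' * (N ^ (5 / 4 : ℝ)) ^ (i + 1) * (2 ^ r * N ^ 2 * (C * N ^ (-q))) =
      (C' * C * 2 ^ r) * N ^ (5 / 4 * ((i : ℝ) + 1) + 2 - q) := by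
  rw [sth_pp hN, sth_n2 (N := N)]
  have h1 : N ^ (5 / 4 * ((i : ℝ) + 1) + 2 - q) =
      N ^ (5 / 4 * ((i + 1 : ℕ) : ℝ)) * N ^ (2 : ℝ) * N ^ (-q) := by
    rw [← Real.rpow_add hN, ← Real.rpow_add hN]
    congr 1
    push_cast
    ring
  rw [h1]
  ring

private theorem sth_i3 {N C C' q : ℝ} (hN : 0 < N) (r i : ℕ) :
    C' * (N ^ (5 / 4 : ℝ)) ^ (i + 3) * (2 ^ r * N ^ 2 * (C * N ^ (-q))) ^ 2 =
      (C' * C ^ 2 * (2 ^ r) ^ 2) * N ^ (5 / 4 * ((i : ℝ) + 3) + 4 - 2 * q) := by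
  rw [sth_pp hN, sth_n2 (N := N)]
  have h1 : N ^ (5 / 4 * ((i : ℝ) + 3) + 4 - 2 * q) =
      N ^ (5 / 4 * ((i + 3 : ℕ) : ℝ)) * (N ^ (2 : ℝ) * N ^ (-q)) ^ 2 := by
    rw [pow_two, ← Real.rpow_add hN, ← Real.rpow_add hN, ← Real.rpow_add hN]
    congr 1
    push_cast
    ring
  rw [h1]
  generalize N ^ (5 / 4 * ((i + 3 : ℕ) : ℝ)) = a
  generalize N ^ (2 : ℝ) = b
  generalize N ^ (-q) = d
  generalize (2 : ℝ) ^ r = g
  ring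

private theorem sth_i4 {N C C' q : ℝ} (hN : 0 < N) (r i s : ℕ) :
    C' * (N⁻¹ ^ 2) ^ s * N ^ 2 * 2 ^ r * (N ^ (5 / 4 : ℝ)) ^ (i + 1 + s) * (C * N ^ (-q)) =
      (C' * C * 2 ^ r) *
        N ^ (-(2 * (s : ℝ)) + 2 + 5 / 4 * ((i : ℝ) + 1 + s) - q) := by
  rw [sth_pp hN, sth_inv hN, sth_n2 (N := N)]
  have h1 : N ^ (-(2 * (s : ℝ)) + 2 + 5 / 4 * ((i : ℝ) + 1 + s) - q) =
      N ^ (-(2 * (s : ℝ))) * N ^ (2 : ℝ) * N ^ (5 / 4 * ((i + 1 + s : ℕ) : ℝ)) * N ^ (-q) := by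
    rw [← Real.rpow_add hN, ← Real.rpow_add hN, ← Real.rpow_add hN]
    congr 1
    push_cast
    ring
  rw [h1]
  ring

private theorem sth_t {N q : ℝ} (hN : 0 < N) (i : ℕ) :
    N ^ (-(7 / 4 * q) - 7 / 4) * (N ^ (3 / 2 : ℝ)) ^ i =
      N ^ (3 / 2 * (i : ℝ) - 7 / 4 * q - 7 / 4) := by
  rw [sth_pp hN, ← Real.rpow_add hN]
  congr 1
  ring

private theorem sth_gsn {p : Bool × (E3 → ℝ)} (h : Sm p.2) : IsDif (gsn p) := by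
  have hg : IsDif (Gp p.2) := (bef_dif h).mul (alf_dif h).inv
  unfold gsn
  split_ifs
  · exact hg
  · exact hg.inv

private theorem sth_list (l : List (Bool × (E3 → ℝ))) (h : ∀ p ∈ l, Sm p.2) :
    IsDif (l.map gsn).prod := by
  induction l with
  | nil => simpa using IsDif.one
  | cons p l ih =>
    rw [List.map_cons, List.prod_cons]
    exact (sth_gsn (h p List.mem_cons_self)).mul
      (ih fun q hq => h q (List.mem_cons_of_mem _ hq))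

private theorem sth_kl {γ : ℝ} {u : Fin 4 → E3 → ℝ} {h : E3 → ℝ} (h1 : Sm h)
    (h2 : ∀ l, Sm (u l)) (h3 : ∀ l, Sm (ut γ u l)) : IsDif ((kl γ u h).map gsn).prod := by
  refine sth_list _ fun p hp => ?_
  unfold kl at hp
  simp only [List.mem_cons, List.not_mem_nil, or_false] at hp
  rcases hp with rfl | rfl | rfl | rfl | rfl | rfl | rfl | rfl | rfl
  · exact h3 3
  · exact h2 3
  · exact h3 2
  · exact h2 2
  · exact h3 1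
  · exact h2 1
  · exact h3 0
  · exact h2 0
  · exact h1

private theorem sth_smo (n : ℕ) : ((n : ℕ) : WithTop ℕ∞) ≤ smo := by
  unfold smo
  exact_mod_cast (le_top : (n : ℕ∞) ≤ ⊤)

/-- `kap_est` and `ham_est` (with `s` so large that `(3/4) s ≥ 2 q + 2 K + 10`) with
`α = C N ^ (-q)`; the level `i` is divided by `(N ^ (3/2)) ^ i ≥ M ^ i`;
`15/4 + 4 + 1/12 - 2 q ≤ - (7/4) q - 7/4 - 1/10`. -/
theorem kap_pow (cs cl : ℕ → ℝ) (cl' : ℕ → ℕ → ℝ) (hcs : ∀ i, 1 ≤ cs i) (hcl : ∀ i, 1 ≤ cl i)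
    (hcl' : ∀ i s, 1 ≤ cl' i s) (K : ℕ) (hK : 2 ≤ K) (q : ℝ) (hq : 40 ≤ q) : ∃ N0 : ℝ, 1 ≤ N0 ∧
    ∀ (N : ℝ) (r : ℕ) (f : Equiv.Perm E3) (S0 h : E3 → ℝ) (u : Fin 4 → E3 → ℝ) (e : E3 → ℝ)
      (η : ℝ), Con cs cl cl' N r f S0 h u e → N0 ≤ N → (8 : ℝ) ^ r ≤ N ^ (1 / 8 : ℝ) →
      0 < η → η ≤ 1 → Bd K N η (N ^ (-q)) (disp f) →
      Sm h ∧ (∀ l, Sm (u l)) ∧ (∀ l, Sm (ut (N⁻¹ ^ 2) u l)) ∧
      (∀ l, ∀ i ≤ K, ∀ x, ‖iteratedFDeriv ℝ i (disp (Gp (u l))) x‖ ≤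
        N ^ (2 * (i : ℝ) + 5 - q)) ∧
      Bd K (N ^ (3 / 2 : ℝ)) 1 (N ^ (-(7 / 4 * q) - 7 / 4))
        (disp ((kl (N⁻¹ ^ 2) u h).map gsn).prod) := by
  obtain ⟨C1, N1, hC1, hN1, hS0⟩ := S0_pow K hK q hq
  obtain ⟨C2, κ, hC2, hκ, hkap⟩ := kap_est cs cl cl' hcs hcl K hK
  obtain ⟨s, hs⟩ := exists_nat_ge (q + 8)
  obtain ⟨C3, hC3, hham⟩ := ham_est cs cl cl' hcs hcl' K s
  have hC12 : 0 ≤ C2 * C1 := by positivity
  obtain ⟨N2, hN2, h2⟩ := absorb_small C1 (by linarith) hκ (show 5 - q < 0 by linarith)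
  obtain ⟨N3, hN3, h3⟩ := absorb1 (C2 * C1) hC12 (show (0 : ℝ) + 1 / 24 < 1 by norm_num)
  obtain ⟨N4, hN4, h4⟩ := absorb2 (2 * (C2 * C1 ^ 2)) (by positivity)
    (show (0 : ℝ) + 1 / 12 < 1 / 10 by norm_num)
  obtain ⟨N5, hN5, h5⟩ := absorb1 (2 * (C3 * C1)) (by positivity)
    (show (0 : ℝ) + 1 / 24 < 1 / 10 by norm_num)
  refine ⟨N1 + N2 + N3 + N4 + N5, by linarith, ?_⟩
  intro N r f S0 h u e η H hN hr hη hη1 hb
  have hNa : 1 ≤ N := by linarith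
  have hNp : 0 < N := by linarith
  have g2 := h2 N (by linarith)
  have g3 := h3 N r (by linarith) hr
  have g4 := h4 N r (by linarith) hr
  have g5 := h5 N r (by linarith) hr
  rw [Real.rpow_zero, mul_one] at g3 g4 g5
  obtain ⟨hs0, -, -⟩ := hS0 cs cl cl' N r f S0 h u e η H (by linarith) hη hη1 hb
  have hα : 0 ≤ C1 * N ^ (-q) := mul_nonneg (by linarith) (Real.rpow_nonneg hNp.le _)
  have hcond : (N ^ (5 / 4 : ℝ)) ^ 2 * (2 ^ r * N ^ 2 * (C1 * N ^ (-q))) ≤ κ := by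
    rw [sth_i1 hNp]
    have e1 : (2 : ℝ) ^ r ≤ N ^ (1 / 24 : ℝ) := two_pow_le hNa hr
    have e2 : (2 : ℝ) ^ r * N ^ (9 / 2 - q) ≤ N ^ (5 - q) := sth_le hNa e1 (by linarith)
    calc C1 * 2 ^ r * N ^ (9 / 2 - q) = C1 * (2 ^ r * N ^ (9 / 2 - q)) := by ring
      _ ≤ C1 * N ^ (5 - q) := mul_le_mul_of_nonneg_left e2 (by linarith)
      _ ≤ κ := g2
  obtain ⟨k1, k2, k3, k4, k5⟩ := hkap N r f S0 h u e (C1 * N ^ (-q)) H hNa hα hs0 hcond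
  have k6 := hham N r f S0 h u e (C1 * N ^ (-q)) H hNa hα hs0
  refine ⟨k1, k2, k3, fun l i hi x => (k4 l i hi x).trans ?_, ?_⟩
  · rw [sth_i2 hNp]
    exact sth_le hNa g3 (by have : (0 : ℝ) ≤ i := Nat.cast_nonneg i; linarith)
  · have hdif := sth_kl (γ := N⁻¹ ^ 2) k1 k2 k3
    have hds : ContDiff ℝ smo (disp ((kl (N⁻¹ ^ 2) u h).map gsn).prod) := by
      unfold disp
      exact hdif.1.sub contDiff_id
    have hes : ContDiff ℝ smo (ham e) := by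
      unfold ham
      exact ((contDiff_pd H.lin.se 1).smul contDiff_const).sub
        ((contDiff_pd H.lin.se 0).smul contDiff_const)
    have key : ∀ i ≤ K, ∀ x,
        ‖iteratedFDeriv ℝ i (disp ((kl (N⁻¹ ^ 2) u h).map gsn).prod) x‖ ≤
          N ^ (-(7 / 4 * q) - 7 / 4) * (N ^ (3 / 2 : ℝ)) ^ i := by
      intro i hi x
      have hi0 : (0 : ℝ) ≤ i := Nat.cast_nonneg i
      have a1 := k5 i hi x
      have a2 := k6 i hi x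
      rw [sth_i3 hNp] at a1
      rw [sth_i4 hNp] at a2
      have b1 : 2 * (C2 * C1 ^ 2) * (2 ^ r) ^ 2 * N ^ (5 / 4 * ((i : ℝ) + 3) + 4 - 2 * q) ≤
          N ^ (3 / 2 * (i : ℝ) - 7 / 4 * q - 7 / 4) := sth_le hNa g4 (by linarith)
      have b2 : 2 * (C3 * C1) * 2 ^ r *
          N ^ (-(2 * (s : ℝ)) + 2 + 5 / 4 * ((i : ℝ) + 1 + s) - q) ≤
          N ^ (3 / 2 * (i : ℝ) - 7 / 4 * q - 7 / 4) := sth_le hNa g5 (by linarith)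
      rw [sth_t hNp]
      have hF : (fun y => disp ((kl (N⁻¹ ^ 2) u h).map gsn).prod y) =
          (fun y => disp ((kl (N⁻¹ ^ 2) u h).map gsn).prod y + ham e y) - ham e := by
        funext y
        simp
      have c1 : iteratedFDeriv ℝ i (disp ((kl (N⁻¹ ^ 2) u h).map gsn).prod) x =
          iteratedFDeriv ℝ i
            (fun y => disp ((kl (N⁻¹ ^ 2) u h).map gsn).prod y + ham e y) x -
          iteratedFDeriv ℝ i (ham e) x := by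
        have c2 : disp ((kl (N⁻¹ ^ 2) u h).map gsn).prod =
          (fun y => disp ((kl (N⁻¹ ^ 2) u h).map gsn).prod y + ham e y) - ham e := hF
        conv_lhs => rw [c2]
        exact iteratedFDeriv_sub_apply
          ((hds.add hes).contDiffAt.of_le (sth_smo i)) (hes.contDiffAt.of_le (sth_smo i))
      rw [c1]
      refine (norm_sub_le _ _).trans ?_
      linarith
    exact ⟨fun i hi x => key i hi.le x, fun x => by rw [one_mul]; exact key K le_rfl x⟩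

/-- `kl_prod`, `scE5` with `K0⁻¹ * f = (K0⁻¹ * Gp h) * ((Gp h)⁻¹ * f)`. -/
theorem phi_pow (cs cl : ℕ → ℝ) (cl' : ℕ → ℕ → ℝ) (hcs : ∀ i, 1 ≤ cs i) (hcl : ∀ i, 1 ≤ cl i)
    (hcl' : ∀ i s, 1 ≤ cl' i s) (S : Std) (K : ℕ) (q : ℝ) (hq : 40 ≤ q) (hK : 3 * q + 30 ≤ K) :
    ∃ N0 : ℝ, 1 ≤ N0 ∧
    ∀ (N : ℝ) (r : ℕ) (f : Equiv.Perm E3) (S0 h : E3 → ℝ) (u : Fin 4 → E3 → ℝ) (e : E3 → ℝ)
      (η : ℝ), Con cs cl cl' N r f S0 h u e → N0 ≤ N → (8 : ℝ) ^ r ≤ N ^ (1 / 8 : ℝ) →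
      K ≤ r + 1 → 0 < η → η ≤ 1 → Bd K N η (N ^ (-q)) (disp f) →
      Sm h ∧ (∀ l, Sm (u l)) ∧ (∀ l, Sm (ut (N⁻¹ ^ 2) u l)) ∧
      (∀ l, ∀ i ≤ K, ∀ x, ‖iteratedFDeriv ℝ i (disp (Gp (u l))) x‖ ≤
        N ^ (2 * (i : ℝ) + 5 - q)) ∧
      Bd K (N ^ (3 / 2 : ℝ)) η (N ^ (-(7 / 4 * q) - 3 / 2))
        (disp ((K0 (fun l => Gp (u l)) (S.T (N⁻¹ ^ 2)))⁻¹ * f)) := by
  have hK2 : 2 ≤ K := by
    have : (2 : ℝ) ≤ K := by linarith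
    exact_mod_cast this
  obtain ⟨N1, hN1, h1⟩ := kap_pow cs cl cl' hcs hcl hcl' K hK2 q hq
  obtain ⟨N2, hN2, h2⟩ := rho_pow cs hcs K q hq hK
  obtain ⟨C, hC, h3⟩ := scE5 K hK2
  obtain ⟨N3, hN3, h4⟩ := absorb (2 * C) (show (0 : ℝ) < 1 / 4 by norm_num)
  obtain ⟨N4, hN4, h5⟩ := absorb_small 1 zero_le_one S.pos (show (-2 : ℝ) < 0 by norm_num)
  refine ⟨N1 + N2 + N3 + N4, by linarith, ?_⟩
  intro N r f S0 h u e η H hN hr hKr hη hη1 hb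
  have hNa : 1 ≤ N := by linarith
  have hNp : 0 < N := by linarith
  obtain ⟨k1, k2, k3, k4, k5⟩ := h1 N r f S0 h u e η H (by linarith) hr hη hη1 hb
  have k6 := h2 cl cl' N r f S0 h u e η H (by linarith) hr hKr hη hη1 hb
  have g4 := h4 N (by linarith)
  have g5 := h5 N (by linarith)
  have hγ : N⁻¹ ^ 2 = N ^ (-2 : ℝ) := by
    have := sth_inv hNp 1
    rw [pow_one] at this
    rw [this]
    norm_num
  have hγ0 : 0 < N⁻¹ ^ 2 := by positivity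
  have hγ1 : N⁻¹ ^ 2 ≤ S.g0 := by rw [hγ]; linarith
  refine ⟨k1, k2, k3, k4, ?_⟩
  have hprod := kl_prod S hγ0 hγ1 k2 H.lin.u0 h
  have hdif := sth_kl (γ := N⁻¹ ^ 2) k1 k2 k3
  have hGh : IsDif (Gp h) := (bef_dif k1).mul (alf_dif k1).inv
  have hsplit : (K0 (fun l => Gp (u l)) (S.T (N⁻¹ ^ 2)))⁻¹ * f =
      ((kl (N⁻¹ ^ 2) u h).map gsn).prod * ((Gp h)⁻¹ * f) := by
    rw [hprod]
    group
  rw [hsplit]
  have hN' : 0 < N ^ (3 / 2 : ℝ) := Real.rpow_pos_of_pos hNp _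
  have hb1 : N ^ (3 / 2 : ℝ) * N ^ (-(7 / 4 * q) - 2) ≤ 1 := by
    rw [← Real.rpow_add hNp]
    exact Real.rpow_le_one_of_one_le_of_nonpos hNa (by linarith)
  have h6 := h3 _ _ (N ^ (3 / 2 : ℝ)) η (N ^ (-(7 / 4 * q) - 7 / 4)) (N ^ (-(7 / 4 * q) - 2))
    hdif (hGh.inv.mul H.okf.dif) hN' hη hη1 (Real.rpow_nonneg hNp.le _)
    (Real.rpow_nonneg hNp.le _) hb1 (k5.mono_eta hη1) k6
  refine h6.mono_c hN'.le ?_
  have e1 : N ^ (-(7 / 4 * q) - 2) ≤ N ^ (-(7 / 4 * q) - 7 / 4) :=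
    Real.rpow_le_rpow_of_exponent_le hNa (by linarith)
  have e2 : 2 * C * N ^ (-(7 / 4 * q) - 7 / 4) ≤ N ^ (-(7 / 4 * q) - 3 / 2) :=
    sth_le hNa g4 (by linarith)
  have e3 : 0 ≤ C := by linarith
  calc C * (N ^ (-(7 / 4 * q) - 7 / 4) + N ^ (-(7 / 4 * q) - 2))
      ≤ C * (N ^ (-(7 / 4 * q) - 7 / 4) + N ^ (-(7 / 4 * q) - 7 / 4)) :=
        mul_le_mul_of_nonneg_left (by linarith) e3
    _ = 2 * C * N ^ (-(7 / 4 * q) - 7 / 4) := by ring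
    _ ≤ _ := e2

end Pool.Agent.QM59
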